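import Pool.Agent.H914R2.PProd

/-!
# Operators on functions on a finite product of four element sets
-/

set_option autoImplicit false
set_option linter.unusedSectionVars false

open Finset
open IsNilpotent (exp exp_eq_sum)

namespace Pool.Agent.K9h28

open Pool.Agent.H914

section Ring

variable {R : Type*} [Ring R] [Module ℚ R]

/-- The Weyl element of a pair of elements with squares zero. -/
lemma weyl_of_sq {e f : R} (he : e * e = 0) (hf : f * f = 0) (hefe : e * f * e = e) :
    weyl e f = 1 + e - f - e * f - f * e := by
  have h1 : ∀ x : R, x * x = 0 → exp x = 1 + x := by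
    intro x hx
    rw [exp_eq_sum (k := 2) (by rw [pow_two, hx])]
    simp [Finset.sum_range_succ]
  rw [weyl, h1 e he, h1 (-f) (by rw [neg_mul_neg, hf])]
  have h2 : (1 + e) * (1 + -f) * (1 + e) =
      1 + e + e - f - e * f - f * e + e * e - e * f * e := by noncomm_ring
  rw [h2, he, hefe]
  abel

end Ring

/-- The four states. -/
abbrev St := Bool × Bool

variable {I : Type} [Fintype I] [DecidableEq I] {A : Type*} [AddCommGroup A] [Module ℚ A]

/-- The operator given by a matrix at the site `i`. -/
def op (i : I) : Matrix St St ℚ →+* Module.End ℚ ((I → St) → A) where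
  toFun m :=
    { toFun := fun v s => ∑ u, m (s i) u • v (Function.update s i u)
      map_add' := fun v w => by
        funext s
        simp only [Pi.add_apply, smul_add, Finset.sum_add_distrib]
      map_smul' := fun q v => by
        funext s
        simp only [Pi.smul_apply, RingHom.id_apply, Finset.smul_sum]
        exact Finset.sum_congr rfl fun u _ => smul_comm _ _ _ }
  map_one' := by
    apply LinearMap.ext
    intro v
    funext s
    change ∑ u, (1 : Matrix St St ℚ) (s i) u • v (Function.update s i u) = v s
    rw [Finset.sum_eq_single (s i)]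
    · rw [Matrix.one_apply_eq, one_smul, Function.update_eq_self]
    · intro u _ hu
      rw [Matrix.one_apply_ne (Ne.symm hu), zero_smul]
    · intro h; exact absurd (Finset.mem_univ _) h
  map_mul' m m' := by
    apply LinearMap.ext
    intro v
    funext s
    change ∑ u, (m * m') (s i) u • v (Function.update s i u) =
      ∑ u, m (s i) u • ∑ u', m' (Function.update s i u i) u' •
        v (Function.update (Function.update s i u) i u')
    simp only [Function.update_self, Function.update_idem, Finset.smul_sum]
    rw [Finset.sum_comm]
    refine Finset.sum_congr rfl fun u _ => ?_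
    rw [Matrix.mul_apply, Finset.sum_smul]
    exact Finset.sum_congr rfl fun u' _ => mul_smul _ _ _
  map_zero' := by
    apply LinearMap.ext
    intro v
    funext s
    change ∑ u, (0 : ℚ) • v (Function.update s i u) = 0
    simp
  map_add' m m' := by
    apply LinearMap.ext
    intro v
    funext s
    change ∑ u, (m (s i) u + m' (s i) u) • v (Function.update s i u) =
      ∑ u, m (s i) u • v (Function.update s i u) + ∑ u, m' (s i) u • v (Function.update s i u)
    simp only [add_smul, Finset.sum_add_distrib]

omit [Fintype I] in
lemma op_apply (i : I) (m : Matrix St St ℚ) (v : (I → St) → A) (s : I → St) :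
    op i m v s = ∑ u, m (s i) u • v (Function.update s i u) := rfl

omit [Fintype I] in
lemma op_commute {i j : I} (hij : i ≠ j) (m m' : Matrix St St ℚ) :
    Commute (op (A := A) i m) (op j m') := by
  apply LinearMap.ext
  intro v
  funext s
  change ∑ u, m (s i) u • ∑ u', m' (Function.update s i u j) u' •
        v (Function.update (Function.update s i u) j u') =
    ∑ u', m' (s j) u' • ∑ u, m (Function.update s j u' i) u •
        v (Function.update (Function.update s j u') i u)
  simp only [Function.update_of_ne hij, Function.update_of_ne hij.symm, Finset.smul_sum]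
  rw [Finset.sum_comm]
  refine Finset.sum_congr rfl fun u _ => Finset.sum_congr rfl fun u' _ => ?_
  rw [Function.update_comm hij, smul_comm]

/-- The pointwise operators. -/
def pt : Module.End ℚ A →+* Module.End ℚ ((I → St) → A) where
  toFun φ :=
    { toFun := fun v s => φ (v s)
      map_add' := fun v w => by funext s; simp
      map_smul' := fun q v => by funext s; simp }
  map_one' := rfl
  map_mul' _ _ := rfl
  map_zero' := rfl
  map_add' _ _ := rfl

omit [Fintype I] [DecidableEq I] in
lemma pt_apply (φ : Module.End ℚ A) (v : (I → St) → A) (s : I → St) :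
    pt φ v s = φ (v s) := rfl

omit [Fintype I] in
lemma op_pt (i : I) (m : Matrix St St ℚ) (φ : Module.End ℚ A) :
    Commute (op i m) (pt φ) := by
  apply LinearMap.ext
  intro v
  funext s
  change ∑ u, m (s i) u • φ (v (Function.update s i u)) =
    φ (∑ u, m (s i) u • v (Function.update s i u))
  rw [map_sum]
  exact Finset.sum_congr rfl fun u _ => (map_smul _ _ _).symm

/-- A matrix with one nonzero entry in each row. -/
def mono (c : St → ℚ) (π : St → St) : Matrix St St ℚ := fun u v => if v = π u then c u else 0

omit [Fintype I] in
lemma op_mono (i : I) (c : St → ℚ) (π : St → St) (v : (I → St) → A) (s : I → St) :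
    op i (mono c π) v s = c (s i) • v (Function.update s i (π (s i))) := by
  rw [op_apply, Finset.sum_eq_single (π (s i))]
  · rw [mono, if_pos rfl]
  · intro u _ hu
    rw [mono, if_neg hu, zero_smul]
  · intro h; exact absurd (Finset.mem_univ _) h

lemma wey_rat {V : Type*} [AddCommGroup V] [Module ℚ V] (e f : Module.End ℚ V) :
    wey e f = weyl e f := by
  rw [wey]
  congr 1

variable {E F H : I → Matrix St St ℚ} {h₀ e₀ f₀ : Module.End ℚ A}

/-- The sum of the operators at the sites in `S` and of a pointwise operator. -/
def tot (E : I → Matrix St St ℚ) (e₀ : Module.End ℚ A) (S : Finset I) :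
    Module.End ℚ ((I → St) → A) := ∑ i ∈ S, op i (E i) + pt e₀

omit [Fintype I] in
lemma op_tot {i : I} {S : Finset I} (hi : i ∉ S) (m : Matrix St St ℚ) :
    Commute (op i m) (tot E e₀ S) := by
  refine Commute.add_right (Commute.sum_right _ _ _ fun j hj => ?_) (op_pt i m e₀)
  exact op_commute (by rintro rfl; exact hi hj) _ _

omit [Fintype I] in
lemma tot_insert {i : I} {S : Finset I} (hi : i ∉ S) :
    tot E e₀ (insert i S) = op i (E i) + tot E e₀ S := by
  rw [tot, tot, Finset.sum_insert hi, add_assoc]

omit [Fintype I] in
lemma tot_sl2 (hs : ∀ i, Sl2 (H i) (E i) (F i)) (h0 : Sl2 h₀ e₀ f₀) (S : Finset I) :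
    Sl2 (tot H h₀ S) (tot E e₀ S) (tot F f₀ S) := by
  classical
  induction S using Finset.induction_on with
  | empty =>
    rw [tot, tot, tot]
    simp only [Finset.sum_empty, zero_add]
    exact h0.map pt
  | insert i S hi ih =>
    rw [tot_insert hi, tot_insert hi, tot_insert hi]
    exact ((hs i).map (op i)).add ih (op_tot hi _) (op_tot hi _) (op_tot hi _) (op_tot hi _)
      (op_tot hi _) (op_tot hi _)

/-- The Weyl operator of the sum. -/
theorem weyl_tot [Module.Finite ℚ A] (hs : ∀ i, Sl2 (H i) (E i) (F i)) (h0 : Sl2 h₀ e₀ f₀)
    (hE : ∀ i, IsNilpotent (E i)) (hF : ∀ i, IsNilpotent (F i))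
    {c : I → St → ℚ} {π : St → St} (hw : ∀ i, weyl (E i) (F i) = mono (c i) π)
    (S : Finset I) (v : (I → St) → A) (s : I → St) :
    weyl (tot E e₀ S) (tot F f₀ S) v s = (∏ i ∈ S, c i (s i)) •
      weyl e₀ f₀ (v (fun i => if i ∈ S then π (s i) else s i)) := by
  classical
  induction S using Finset.induction_on generalizing s with
  | empty =>
    rw [tot, tot]
    simp only [Finset.sum_empty, zero_add, Finset.prod_empty, one_smul, Finset.notMem_empty,
      if_false]
    rw [← weyl_map pt h0.nil_e h0.nil_f, pt_apply]
  | insert i S hi ih =>
    have ts := tot_sl2 hs h0 S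
    have hwm : weyl (op (A := A) i (E i)) (op i (F i)) = op i (mono (c i) π) := by
      rw [← hw]
      exact (weyl_map (B := Module.End ℚ ((I → St) → A)) (op i) (hE i) (hF i)).symm
    have h1 : ∏ j ∈ S, c j (Function.update s i (π (s i)) j) = ∏ j ∈ S, c j (s j) := by
      refine Finset.prod_congr rfl fun j hj => ?_
      rw [Function.update_of_ne (by rintro rfl; exact hi hj)]
    have h2 : (fun j => if j ∈ S then π (Function.update s i (π (s i)) j) else
        Function.update s i (π (s i)) j) =
        fun j => if j ∈ insert i S then π (s j) else s j := by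
      funext j
      by_cases hj : j = i
      · subst hj
        rw [if_neg hi, Function.update_self, if_pos (Finset.mem_insert_self _ _)]
      · rw [Function.update_of_ne hj]
        by_cases hjS : j ∈ S
        · rw [if_pos hjS, if_pos (Finset.mem_insert_of_mem hjS)]
        · rw [if_neg hjS, if_neg]
          rw [Finset.mem_insert]
          tauto
    rw [tot_insert hi, tot_insert hi,
      weyl_add ((hE i).map (op i)) ((hF i).map (op i)) ts.nil_e ts.nil_f (op_tot hi _)
        (op_tot hi _) (op_tot hi _) (op_tot hi _),
      hwm, Module.End.mul_apply, op_mono, ih, smul_smul,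
      Finset.prod_insert hi, h1, h2]

end Pool.Agent.K9h28
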