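import Pool.Agent.W552.Fr
import Pool.Agent.K9h28.Site

/-!
# The rational vector space of algebraic classes
-/

set_option autoImplicit false
set_option linter.unusedSectionVars false

open CategoryTheory AlgebraicGeometry
open IsNilpotent (exp exp_eq_sum)

universe u v

namespace Pool.Agent.K9h28

open Pool.Agent.H914 Pool.Agent.H914.VarClass Pool.Agent.H914.VarClass.Obj
  Pool.Agent.H914.WeilCohomology Pool.Agent.H281R3.HT Pool.Agent.W552

variable {k : Type u} [Field k] {𝒱 : VarClass k} {ops : CycleOps 𝒱}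

/-- The group of sums of algebraic classes. -/
def ASg (W : WeilCohomology.{u, v} ops) (X : 𝒱.Obj) : AddSubgroup (W.H X) where
  carrier := {x | AS W X x}
  zero_mem' := AS.zero
  add_mem' := AS.add
  neg_mem' := AS.ratSub.neg

/-- The rational vector space of sums of algebraic classes. -/
abbrev AQ (W : WeilCohomology.{u, v} ops) (X : 𝒱.Obj) : Type v := ASg W X

noncomputable instance instAQ (W : WeilCohomology.{u, v} ops) (X : 𝒱.Obj) :
    Module ℚ (AQ W X) where
  smul q x := ⟨(q : W.K) • (x : W.H X), AS.smul q x.2⟩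
  one_smul x := Subtype.ext (by
    change ((1 : ℚ) : W.K) • (x : W.H X) = x
    rw [Rat.cast_one, one_smul])
  mul_smul q r x := Subtype.ext (by
    change ((q * r : ℚ) : W.K) • (x : W.H X) = (q : W.K) • ((r : W.K) • (x : W.H X))
    rw [Rat.cast_mul, mul_smul])
  smul_zero q := Subtype.ext (smul_zero (q : W.K))
  smul_add q x y := Subtype.ext (smul_add (q : W.K) (x : W.H X) y)
  add_smul q r x := Subtype.ext (by
    change ((q + r : ℚ) : W.K) • (x : W.H X) = (q : W.K) • (x : W.H X) + (r : W.K) • (x : W.H X)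
    rw [Rat.cast_add, add_smul])
  zero_smul x := Subtype.ext (by
    change ((0 : ℚ) : W.K) • (x : W.H X) = 0
    rw [Rat.cast_zero, zero_smul])

variable {W : WeilCohomology.{u, v} ops} {X : 𝒱.Obj}

lemma AQ.coe_smul (q : ℚ) (x : AQ W X) : ((q • x : AQ W X) : W.H X) = (q : W.K) • (x : W.H X) :=
  rfl

/-- The restriction of an operator. -/
def res (T : Module.End W.K (W.H X)) (hT : ∀ x, AS W X x → AS W X (T x)) :
    Module.End ℚ (AQ W X) where
  toFun x := ⟨T x, hT _ x.2⟩
  map_add' x y := Subtype.ext (map_add T (x : W.H X) y)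
  map_smul' q x := Subtype.ext (map_smul T (q : W.K) (x : W.H X))

lemma res_coe (T : Module.End W.K (W.H X)) (hT : ∀ x, AS W X x → AS W X (T x)) (x : AQ W X) :
    (res T hT x : W.H X) = T x := rfl

lemma res_pow (T : Module.End W.K (W.H X)) (hT : ∀ x, AS W X x → AS W X (T x)) (n : ℕ)
    (x : AQ W X) : (((res T hT) ^ n) x : W.H X) = (T ^ n) x := by
  induction n with
  | zero => rfl
  | succ n ih => rw [pow_succ', pow_succ', Module.End.mul_apply, Module.End.mul_apply, res_coe, ih]

lemma res_nil {T : Module.End W.K (W.H X)} (hT : ∀ x, AS W X x → AS W X (T x))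
    (h : IsNilpotent T) : IsNilpotent (res T hT) := by
  obtain ⟨n, hn⟩ := h
  refine ⟨n, ?_⟩
  apply LinearMap.ext
  intro x
  apply Subtype.ext
  rw [res_pow, hn]
  rfl

lemma res_exp {T : Module.End W.K (W.H X)} (hT : ∀ x, AS W X x → AS W X (T x))
    (h : IsNilpotent T) (x : AQ W X) :
    letI : Module ℚ (Module.End W.K (W.H X)) := Module.compHom _ (algebraMap ℚ W.K)
    ((exp (res T hT)) x : W.H X) = (exp T) x := by
  let _ : Module ℚ (Module.End W.K (W.H X)) := Module.compHom _ (algebraMap ℚ W.K)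
  obtain ⟨n, hn⟩ := h
  have hn' : (res T hT) ^ n = 0 := by
    apply LinearMap.ext
    intro x
    apply Subtype.ext
    rw [res_pow, hn]
    rfl
  change ((exp (res T hT)) x : W.H X) = (exp T) x
  rw [exp_eq_sum hn, exp_eq_sum hn', LinearMap.sum_apply, LinearMap.sum_apply]
  rw [AddSubgroup.val_finsetSum]
  refine Finset.sum_congr rfl fun i _ => ?_
  rw [LinearMap.smul_apply, AQ.coe_smul, res_pow]
  rfl

/-- The Weyl operator of the restriction. -/
lemma res_weyl {S T : Module.End W.K (W.H X)} (hS : ∀ x, AS W X x → AS W X (S x))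
    (hT : ∀ x, AS W X x → AS W X (T x)) (hSn : IsNilpotent S) (hTn : IsNilpotent T)
    (x : AQ W X) : ((weyl (res S hS) (res T hT)) x : W.H X) = wey S T x := by
  let _ : Module ℚ (Module.End W.K (W.H X)) := Module.compHom _ (algebraMap ℚ W.K)
  have hneg : -(res T hT) = res (-T) (fun x hx => by
      rw [LinearMap.neg_apply]; exact AS.ratSub.neg (hT x hx)) := by
    apply LinearMap.ext
    intro x
    rfl
  change _ = weyl S T x
  rw [weyl, weyl, Module.End.mul_apply, Module.End.mul_apply, Module.End.mul_apply,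
    Module.End.mul_apply, res_exp hS hSn, hneg, res_exp _ hTn.neg, res_exp hS hSn]

/-- The relations of the restrictions. -/
lemma res_sl2 {H S T : Module.End W.K (W.H X)} (hH : ∀ x, AS W X x → AS W X (H x))
    (hS : ∀ x, AS W X x → AS W X (S x)) (hT : ∀ x, AS W X x → AS W X (T x)) (t : Sl2 H S T) :
    Sl2 (res H hH) (res S hS) (res T hT) where
  ef := by
    apply LinearMap.ext
    intro x
    exact Subtype.ext (congrArg (fun F => F (x : W.H X)) t.ef)
  he := by
    apply LinearMap.ext
    intro x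
    have h1 := congrArg (fun F => F (x : W.H X)) t.he
    rw [two_mul] at h1 ⊢
    exact Subtype.ext h1
  hf := by
    apply LinearMap.ext
    intro x
    have h1 := congrArg (fun F => F (x : W.H X)) t.hf
    rw [two_mul] at h1 ⊢
    exact Subtype.ext h1

/-- The intersection form with values in the rational numbers. -/
noncomputable def psi (a b : AQ W X) : ℚ := Classical.choose (AS.tr (a.2.mul b.2))

lemma psi_spec (a b : AQ W X) : W.tr X ((a : W.H X) * b) = (psi a b : W.K) :=
  Classical.choose_spec (AS.tr (a.2.mul b.2))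

lemma psi_smul (a b : AQ W X) (q : ℚ) : psi a (q • b) = q * psi a b := by
  apply Rat.cast_injective (α := W.K)
  rw [← psi_spec, AQ.coe_smul, mul_smul_comm, map_smul, psi_spec, Rat.cast_mul, smul_eq_mul]

lemma psi_zero (b : AQ W X) : psi 0 b = 0 := by
  apply Rat.cast_injective (α := W.K)
  rw [← psi_spec, Rat.cast_zero]
  simp

lemma AS_wt {x : W.H X} (hx : AS W X x) : AS W X (wt (W.isInternal X) X.dim x) := by
  refine AS.ind (p := fun x => AS W X (wt (W.isInternal X) X.dim x)) ?_ ?_ hx
  · intro j x hx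
    rw [wt, scal_apply _ _ (alg_gr hx)]
    exact (AS.of hx).smul _
  · intro a b ha hb
    rw [map_add]
    exact ha.add hb

namespace FrA

variable {D : X.Cycles} {f : Module.End W.K (W.H X)} (F : Fr W X D f)

include F

/-- The rational vector space of algebraic classes is finite-dimensional. -/
lemma finite (hHL : HardLefschetz W X D) (hH : HodgeType W X D) : Module.Finite ℚ (AQ W X) := by
  classical
  have t : LefStr (W.isInternal X) X.dim (LinearMap.mulLeft W.K (W.cl X D)) f :=
    ⟨by simpa using rop_opAlg.hom (rop_mulLeft (W := W) F.hD), W_hbd, hHL, F.sl2⟩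
  have hsymm : ∀ x y, AS W X x → AS W X y → bf W X D f x y = bf W X D f y x := by
    intro x y hx hy
    refine AS.ind (p := fun x => bf W X D f x y = bf W X D f y x) ?_ ?_ hx
    · intro i x hx
      refine AS.ind (p := fun y => bf W X D f x y = bf W X D f y x) ?_ ?_ hy
      · intro j y hy
        have h1 := t.form_symm (B := bil W X) (fun a b => by
          rw [bil_apply, bil_apply, LinearMap.mulLeft_apply, LinearMap.mulLeft_apply,
            W.even_comm (p := 1) (W.cl_mem F.hD) a, mul_assoc])
          (fun i j a ha b hb hij => W.tr_eq_zero (W.mul_mem ha hb) hij)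
          (fun i j a ha b hb => by
            rw [bil_apply, bil_apply, W.comm ha hb, map_smul, smul_eq_mul])
          (alg_gr hy) (alg_gr hx)
        rw [pow_mul] at h1
        simp only [even_two, Even.neg_pow, one_pow, one_mul] at h1
        exact h1
      · intro a b ha hb
        rw [map_add, ha, hb, map_add, LinearMap.add_apply]
    · intro a b ha hb
      rw [map_add, LinearMap.add_apply, ha, hb, map_add]
  obtain ⟨N, ε, w, hε, hw, horth, hspan⟩ := exists_ratBasis (AS.ratSub (W := W) (X := X))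
    (bf W X D f) (fun x y hx hy => F.bf_rat hx hy) hsymm
    (fun x hx hx0 => F.bf_pos hH hx hx0)
  let g : (Fin N → ℚ) →ₗ[ℚ] AQ W X :=
    { toFun := fun r => ∑ k, r k • (⟨ε k, hε k⟩ : AQ W X)
      map_add' := fun r s => by simp only [Pi.add_apply, add_smul, Finset.sum_add_distrib]
      map_smul' := fun q r => by
        simp only [Pi.smul_apply, smul_eq_mul, mul_smul, Finset.smul_sum, RingHom.id_apply] }
  refine Module.Finite.of_surjective g fun x => ?_
  obtain ⟨r, hr⟩ := hspan x (Submodule.subset_span x.2) fun k => F.bf_rat x.2 (hε k)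
  refine ⟨r, Subtype.ext ?_⟩
  change ((∑ k, r k • (⟨ε k, hε k⟩ : AQ W X) : AQ W X) : W.H X) = x
  rw [AddSubgroup.val_finsetSum, hr]
  rfl

/-- The values of the form. -/
lemma pos (hH : HodgeType W X D) {j : ℕ} {x : W.H X} (hx : x ∈ algClasses W X j)
    (hx0 : x ≠ 0) : ∃ q : ℚ, 0 < q ∧ W.tr X (x * wop W X D f x) = (((-1) ^ j * q : ℚ) : W.K) := by
  obtain ⟨q, hq, hq'⟩ := F.bf_pos hH (AS.of hx) hx0
  refine ⟨q, hq, ?_⟩
  rw [bf_apply, st_apply (alg_gr hx), mul_smul_comm, map_smul, sg_two_mul, smul_eq_mul] at hq'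
  have h1 : ((-1 : W.K) ^ j) * ((-1) ^ j) = 1 := by rw [← mul_pow]; simp
  push_cast at hq' ⊢
  calc W.tr X (x * wop W X D f x) = ((-1 : W.K) ^ j) * ((-1) ^ j) *
      W.tr X (x * wop W X D f x) := by rw [h1, one_mul]
    _ = _ := by rw [mul_assoc, hq']

/-- The pairing of algebraic classes is nondegenerate. -/
lemma nondeg (hH : HodgeType W X D) {x : AQ W X} (h : ∀ y : AQ W X, W.tr X ((x : W.H X) * y) = 0) :
    x = 0 := by
  by_contra hx
  have hx' : (x : W.H X) ≠ 0 := fun h0 => hx (Subtype.ext h0)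
  obtain ⟨q, hq, hq'⟩ := F.bf_pos hH x.2 hx'
  rw [bf_apply, h ⟨_, F.st_AS x.2⟩] at hq'
  exact hq.ne (by exact_mod_cast hq')

/-- **Conjecture D.** -/
theorem homEqNum (hH : HodgeType W X D) : HomEqNum W X := by
  intro j hj z hz hnum
  by_contra hz0
  obtain ⟨q, hq, hq'⟩ := pos F hH (x := W.cl X z) ⟨z, hz, rfl⟩ hz0
  obtain ⟨w, hw, hw'⟩ := F.w_alg hj (a := W.cl X z) ⟨z, hz, rfl⟩
  rw [← hw', ← W.cl_mul, W.tr_cl, hnum w hw] at hq'
  · have h1 : (0 : ℚ) = (-1) ^ j * q := by exact_mod_cast hq'
    rcases mul_eq_zero.1 h1.symm with h2 | h2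
    · exact absurd h2 (pow_ne_zero _ (by norm_num))
    · exact hq.ne' h2
  · have := ops.mul_mem hz hw
    rwa [show j + (X.dim - j) = X.dim by omega] at this

end FrA

end Pool.Agent.K9h28
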