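import Pool.Agent.K9h28.TorFinal

/-!
# The conjectures A and of Hodge type imply D
-/

set_option autoImplicit false
set_option linter.unusedSectionVars false

open CategoryTheory AlgebraicGeometry

universe u v

namespace Pool.Agent.K9h28

open Pool.Agent.H914 Pool.Agent.H914.VarClass Pool.Agent.H914.VarClass.Obj
  Pool.Agent.H914.WeilCohomology Pool.Agent.H281R3.HT Pool.Agent.W552

variable {k : Type u} [Field k] {𝒱 : VarClass k} {ops : CycleOps 𝒱}
  {W : WeilCohomology.{u, v} ops} {X : 𝒱.Obj} {D : X.Cycles}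

lemma divPow_adj (hD : X.IsCyc 1 D) (i : ℕ) {p : ℕ} {z : X.Cycles} (hz : X.IsCyc p z)
    (w : X.Cycles) : W.cl X z * W.cl X (divPow ops D i w) =
      W.cl X w * W.cl X (divPow ops D i z) := by
  rw [cl_divPow, cl_divPow]
  have hDa : AS W X (W.cl X D) := AS.of ⟨D, hD, rfl⟩
  have hza : AS W X (W.cl X z) := AS.of ⟨z, hz, rfl⟩
  have hpow : ∀ (i : ℕ) (x : W.H X), ((LinearMap.mulLeft W.K (W.cl X D)) ^ i) x =
      (W.cl X D) ^ i * x := by
    intro i
    induction i with
    | zero => intro x; simp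
    | succ i ih =>
      intro x
      rw [pow_succ', Module.End.mul_apply, ih, LinearMap.mulLeft_apply, pow_succ', mul_assoc]
  have hDi : ∀ (i : ℕ) (x : W.H X), (W.cl X D) ^ i * x = x * (W.cl X D) ^ i := by
    intro i x
    exact ((show Commute (W.cl X D) x from hDa.comm x).pow_left i).eq
  rw [hpow, hpow, hDi, ← mul_assoc, hza.comm, mul_assoc, ← hDi]

/-- The conjectures A and of Hodge type imply D. -/
theorem homEqNum_of_A (hD : X.IsCyc 1 D) (hA : LefschetzA W X D) (hH : HodgeType W X D) :
    HomEqNum W X := by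
  -- numerical triviality in terms of the classes
  have hnum : ∀ (j : ℕ), j ≤ X.dim → ∀ z w : X.Cycles, X.IsCyc j z → X.IsCyc (X.dim - j) w →
      W.tr X (W.cl X z * W.cl X w) = (X.V.degCycle (ops.mul z w) : W.K) := by
    intro j hj z w hz hw
    rw [← W.cl_mul, W.tr_cl]
    have := ops.mul_mem hz hw
    rwa [show j + (X.dim - j) = X.dim by omega] at this
  have low : ∀ j, 2 * j ≤ X.dim → ∀ z, X.IsCyc j z →
      (∀ w, X.IsCyc (X.dim - j) w → W.tr X (W.cl X z * W.cl X w) = 0) → W.cl X z = 0 := by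
    intro j
    induction j with
    | zero =>
      intro hj z hz h0
      by_contra hz0
      have h1 : W.cl X (divPow ops D (X.dim - 2 * 0 + 1) z) = 0 := by
        have h2 := W.cl_mem (divPow_mem (ops := ops) hD (X.dim - 2 * 0 + 1) hz)
        rw [W.gr_eq_bot X _ (by omega)] at h2
        exact (Submodule.mem_bot _).1 h2
      have h3 := hH 0 hj z hz h1 hz0
      have h4 := h0 (divPow ops D (X.dim - 2 * 0) z) (by
        have := divPow_mem (ops := ops) hD (X.dim - 2 * 0) hz
        rwa [show 0 + (X.dim - 2 * 0) = X.dim - 0 by omega] at this)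
      rw [hnum 0 (by omega) z _ hz (by
        have := divPow_mem (ops := ops) hD (X.dim - 2 * 0) hz
        rwa [show 0 + (X.dim - 2 * 0) = X.dim - 0 by omega] at this)] at h4
      rw [(by exact_mod_cast h4 : X.V.degCycle (ops.mul z (divPow ops D (X.dim - 2 * 0) z)) = 0)]
        at h3
      simp at h3
    | succ j ih =>
      intro hj z hz h0
      have hz1 : X.IsCyc (X.dim - j) (divPow ops D (X.dim - 2 * (j + 1) + 1) z) := by
        have := divPow_mem (ops := ops) hD (X.dim - 2 * (j + 1) + 1) hz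
        rwa [show j + 1 + (X.dim - 2 * (j + 1) + 1) = X.dim - j by omega] at this
      obtain ⟨z₁, hz₁, hz₁'⟩ := hA j (by omega) _ hz1
      have h5 : W.cl X z₁ = 0 := by
        apply ih (by omega) z₁ hz₁
        intro w hw
        obtain ⟨w', hw', hw''⟩ := hA j (by omega) w hw
        rw [← hw'', divPow_adj hD _ hz₁, hz₁', divPow_adj hD _ hw']
        apply h0
        have := divPow_mem (ops := ops) hD (X.dim - 2 * (j + 1) + 1) hw'
        rwa [show j + (X.dim - 2 * (j + 1) + 1) = X.dim - (j + 1) by omega] at this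
      have h1 : W.cl X (divPow ops D (X.dim - 2 * (j + 1) + 1) z) = 0 := by
        rw [← hz₁', cl_divPow, h5, map_zero]
      by_contra hz0
      have h3 := hH (j + 1) hj z hz h1 hz0
      have h6 : X.IsCyc (X.dim - (j + 1)) (divPow ops D (X.dim - 2 * (j + 1)) z) := by
        have := divPow_mem (ops := ops) hD (X.dim - 2 * (j + 1)) hz
        rwa [show j + 1 + (X.dim - 2 * (j + 1)) = X.dim - (j + 1) by omega] at this
      have h4 := h0 _ h6
      rw [hnum (j + 1) (by omega) z _ hz h6] at h4
      rw [(by exact_mod_cast h4 :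
        X.V.degCycle (ops.mul z (divPow ops D (X.dim - 2 * (j + 1)) z)) = 0)] at h3
      simp at h3
  intro j hj z hz h0
  have h0' : ∀ w, X.IsCyc (X.dim - j) w → W.tr X (W.cl X z * W.cl X w) = 0 := by
    intro w hw
    rw [hnum j hj z w hz hw, h0 w hw, Rat.cast_zero]
  by_cases h2 : 2 * j ≤ X.dim
  · exact low j h2 z hz h0'
  · have hz' : X.IsCyc (X.dim - (X.dim - j)) z := by
      rwa [show X.dim - (X.dim - j) = j by omega]
    obtain ⟨z', hz', hz''⟩ := hA (X.dim - j) (by omega) z hz'
    have h5 : W.cl X z' = 0 := by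
      apply low (X.dim - j) (by omega) z' hz'
      intro w hw
      obtain ⟨w', hw', hw''⟩ := hA (X.dim - j) (by omega) w hw
      rw [← hw'', divPow_adj hD _ hz', hz'']
      have h6 : AS W X (W.cl X w') := AS.of ⟨w', hw', rfl⟩
      rw [h6.comm]
      exact h0' w' hw'
    rw [← hz'', cl_divPow, h5, map_zero]

/-- The conjecture A. -/
lemma IsLefschetz.A (h : IsLefschetz W X D) (hD : X.IsCyc 1 D) : LefschetzA W X D := by
  obtain ⟨h1, h2⟩ := h.out hD
  obtain ⟨f, F, -⟩ := exists_fr hD h1 h2
  exact F.lefschetzA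

end Pool.Agent.K9h28
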