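import Pool.Agent.K9h28.Site2

/-!
# Positivity on the invariants of the second triple
-/

set_option autoImplicit false
set_option linter.unusedSectionVars false

open Finset

namespace Pool.Agent.K9h28

open Pool.Agent.H914

variable {I : Type} [Fintype I] [DecidableEq I] {A : Type*} [AddCommGroup A] [Module ℚ A]

/-- The raising operator of the first triple. -/
def eL (d : I → ℚ) (e₀ : Module.End ℚ A) : Module.End ℚ ((I → St) → A) :=
  tot (fun i => el sW sO (d i)) e₀ univ
/-- The lowering operator of the first triple. -/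
def fL (d : I → ℚ) (f₀ : Module.End ℚ A) : Module.End ℚ ((I → St) → A) :=
  tot (fun i => el sO sW (d i)⁻¹) f₀ univ
/-- The weight operator of the first triple. -/
def hL (h₀ : Module.End ℚ A) : Module.End ℚ ((I → St) → A) :=
  tot (fun _ => el sW sW 1 - el sO sO 1) h₀ univ
/-- The raising operator of the second triple. -/
def eN : Module.End ℚ ((I → St) → A) := tot (fun _ => el sE sF 1) 0 univ
/-- The lowering operator of the second triple. -/
def fN : Module.End ℚ ((I → St) → A) := tot (fun _ => el sF sE 1) 0 univ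
/-- The weight operator of the second triple. -/
def hN : Module.End ℚ ((I → St) → A) := tot (fun _ => el sE sE 1 - el sF sF 1) 0 univ

lemma sl2_zero : Sl2 (0 : Module.End ℚ A) 0 0 := ⟨by simp, by simp, by simp⟩

lemma sl2_eN : Sl2 (hN (I := I) (A := A)) eN fN :=
  tot_sl2 (fun _ => sl2_N) sl2_zero univ

lemma sl2_eL {d : I → ℚ} (hd : ∀ i, d i ≠ 0) {h₀ e₀ f₀ : Module.End ℚ A}
    (t : Sl2 h₀ e₀ f₀) : Sl2 (hL (I := I) h₀) (eL d e₀) (fL d f₀) :=
  tot_sl2 (fun i => el_sl2 (by decide) (hd i)) t univ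

lemma eL_apply (d : I → ℚ) (e₀ : Module.End ℚ A) (v : (I → St) → A) (s : I → St) :
    eL d e₀ v s = ∑ i, (if s i = sW then d i • v (Function.update s i sO) else 0) +
      e₀ (v s) := by
  rw [eL, tot, LinearMap.add_apply, LinearMap.sum_apply, Pi.add_apply, Finset.sum_apply, pt_apply]
  simp only [op_el]

lemma eN_apply (v : (I → St) → A) (s : I → St) :
    eN v s = ∑ i, (if s i = sE then v (Function.update s i sF) else 0) := by
  rw [eN, tot, LinearMap.add_apply, LinearMap.sum_apply, Pi.add_apply, Finset.sum_apply, pt_apply]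
  simp only [op_el, one_smul, LinearMap.zero_apply, add_zero]

lemma hN_apply (v : (I → St) → A) (s : I → St) :
    hN v s = ∑ i, ((if s i = sE then v s else 0) - (if s i = sF then v s else 0)) := by
  rw [hN, tot, LinearMap.add_apply, LinearMap.sum_apply, Pi.add_apply, Finset.sum_apply, pt_apply]
  simp only [map_sub, LinearMap.sub_apply, Pi.sub_apply, op_el, one_smul, LinearMap.zero_apply,
    add_zero]
  refine Finset.sum_congr rfl fun i _ => ?_
  congr 1
  · split_ifs with h
    · rw [← h, Function.update_eq_self]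
    · rfl
  · split_ifs with h
    · rw [← h, Function.update_eq_self]
    · rfl

lemma hL_apply (h₀ : Module.End ℚ A) (v : (I → St) → A) (s : I → St) :
    hL h₀ v s = ∑ i, ((if s i = sW then v s else 0) - (if s i = sO then v s else 0)) +
      h₀ (v s) := by
  rw [hL, tot, LinearMap.add_apply, LinearMap.sum_apply, Pi.add_apply, Finset.sum_apply, pt_apply]
  simp only [map_sub, LinearMap.sub_apply, Pi.sub_apply, op_el, one_smul]
  congr 1
  refine Finset.sum_congr rfl fun i _ => ?_
  congr 1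
  · split_ifs with h
    · rw [← h, Function.update_eq_self]
    · rfl
  · split_ifs with h
    · rw [← h, Function.update_eq_self]
    · rfl

variable [Module.Finite ℚ A]

/-- The invariants of the second triple are symmetric. -/
theorem symm_of_inv {v : (I → St) → A} (h1 : eN v = 0) (h2 : hN v = 0) (s : I → St) :
    v s = (∏ i, cN (s i)) • v (fun i => piN (s i)) := by
  have t := sl2_eN (I := I) (A := A)
  have h3 : fN v = 0 := by
    refine t.f_eq_zero (K := ℚ) (M := 0) ?_ ?_
    · rw [h2]; simp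
    · simpa using h1
  have h4 := wey_lowest (K := ℚ) t h3 (m := 0) (by rw [h2]; simp)
  rw [wey_rat] at h4
  have h5 := weyl_tot (A := A) (H := fun _ : I => el sE sE 1 - el sF sF 1)
    (fun _ => sl2_N) sl2_zero (fun _ => el_nil (by decide) 1) (fun _ => el_nil (by decide) 1)
    (fun _ => weyl_N) (univ : Finset I) v s
  have h6 : weyl (eN (I := I) (A := A)) fN v s = v s := by
    rw [h4]; simp
  rw [← h6]
  refine h5.trans ?_
  have h7 : weyl (0 : Module.End ℚ A) 0 = 1 := by simp [weyl]
  rw [h7]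
  simp

/-- The number of sites at which the second exponent is one. -/
def nb (s : I → St) : ℕ := ∑ i, if (s i).2 then 1 else 0

/-- The number of sites at which the first exponent is one. -/
def na (s : I → St) : ℕ := ∑ i, if (s i).1 then 1 else 0

/-- The complementary states. -/
def cpl (s : I → St) : I → St := fun i => (!(s i).1, !(s i).2)

lemma cpl_cpl (s : I → St) : cpl (cpl s) = s := by
  funext i
  simp [cpl]

omit [Module.Finite ℚ A] in
lemma sign_site {d : ℚ} (hd : 0 < d) (u : St) :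
    ∃ q : ℚ, 0 < q ∧ cL d (!u.1, !u.2) * cN u = (-1) ^ (if u.2 then 1 else 0) * q := by
  obtain ⟨a, b⟩ := u
  cases a <;> cases b
  · exact ⟨d, hd, by simp [cL, cN]⟩
  · exact ⟨1, one_pos, by simp [cL, cN]⟩
  · exact ⟨1, one_pos, by simp [cL, cN]⟩
  · exact ⟨d⁻¹, inv_pos.2 hd, by simp [cL, cN]⟩

/-- **Positivity.** -/
theorem pos_core {d : I → ℚ} (hd : ∀ i, 0 < d i) {h₀ e₀ f₀ : Module.End ℚ A}
    (t : Sl2 h₀ e₀ f₀) (ψ : A → A → ℚ) (hψ : ∀ a b (q : ℚ), ψ a (q • b) = q * ψ a b)
    (κ : (I → St) → ℚ) {v : (I → St) → A} {r : ℕ}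
    (h1 : eN v = 0) (h2 : hN v = 0) (hv : v ≠ 0)
    (hz : ∀ a, ψ 0 a = 0)
    (hκ : ∀ s, v s ≠ 0 → κ s = 1)
    (hpos : ∀ s, v s ≠ 0 → 0 < (-1) ^ (r + nb s) * ψ (v s) (weyl e₀ f₀ (v s))) :
    0 < (-1) ^ r * ∑ s, κ s * ψ (v s) (weyl (eL d e₀) (fL d f₀) v (cpl s)) := by
  have hd' : ∀ i, d i ≠ 0 := fun i => (hd i).ne'
  have hw : ∀ s, weyl (eL d e₀) (fL d f₀) v (cpl s) =
      (∏ i, cL (d i) (cpl s i)) • weyl e₀ f₀ (v fun i => piN (s i)) := by
    intro s
    refine (weyl_tot (A := A) (H := fun _ : I => el sW sW 1 - el sO sO 1)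
      (fun i => el_sl2 (by decide) (hd' i)) t (fun _ => el_nil (by decide) _)
      (fun _ => el_nil (by decide) _) (fun i => weyl_L (hd' i)) (univ : Finset I) v
      (cpl s)).trans ?_
    congr 2
    congr 1
    funext i
    simp only [mem_univ, if_true, cpl, piL, piN]
    obtain ⟨a, b⟩ := s i
    cases a <;> cases b <;> simp
  have hc : ∀ u : St, cN u * cN u = 1 := by
    intro u; unfold cN; split_ifs <;> norm_num
  have hsym : ∀ s : I → St, v (fun i => piN (s i)) = (∏ i, cN (s i)) • v s := by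
    intro s
    rw [symm_of_inv h1 h2 s, smul_smul, ← Finset.prod_mul_distrib]
    simp only [hc, Finset.prod_const_one, one_smul]
  have hterm : ∀ s, ∃ q : ℚ, 0 < q ∧ ψ (v s) (weyl (eL d e₀) (fL d f₀) v (cpl s)) =
      (-1) ^ nb s * q * ψ (v s) (weyl e₀ f₀ (v s)) := by
    intro s
    choose q hq hq' using fun i => sign_site (hd i) (s i)
    refine ⟨∏ i, q i, Finset.prod_pos fun i _ => hq i, ?_⟩
    rw [hw, hsym, map_smul, smul_smul, hψ, ← Finset.prod_mul_distrib]
    congr 1
    rw [nb, ← Finset.prod_pow_eq_pow_sum, ← Finset.prod_mul_distrib]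
    exact Finset.prod_congr rfl fun i _ => hq' i
  rw [Finset.mul_sum]
  have hex : ∃ s, v s ≠ 0 := by
    by_contra h
    push Not at h
    exact hv (funext h)
  obtain ⟨s₀, hs₀⟩ := hex
  have hp : ∀ s, v s ≠ 0 → 0 < (-1) ^ r * (κ s *
      ψ (v s) (weyl (eL d e₀) (fL d f₀) v (cpl s))) := by
    intro s hs
    obtain ⟨q, hq, hq'⟩ := hterm s
    rw [hκ s hs, one_mul, hq']
    have := mul_pos hq (hpos s hs)
    calc (0 : ℚ) < q * ((-1) ^ (r + nb s) * ψ (v s) (weyl e₀ f₀ (v s))) := this
      _ = _ := by rw [pow_add]; ring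
  refine Finset.sum_pos' (fun s _ => ?_) ⟨s₀, mem_univ _, hp s₀ hs₀⟩
  by_cases hs : v s = 0
  · rw [hs, hz]; simp
  · exact (hp s hs).le

end Pool.Agent.K9h28
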