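import Pool.Agent.K9h28.FA

/-!
# Hard Lefschetz and the conjecture D imply A
-/

set_option autoImplicit false
set_option linter.unusedSectionVars false

open CategoryTheory AlgebraicGeometry

universe u v

namespace Pool.Agent.K9h28

open Pool.Agent.H914 Pool.Agent.H914.VarClass Pool.Agent.H914.VarClass.Obj
  Pool.Agent.H914.WeilCohomology Pool.Agent.H281R3.HT Pool.Agent.W552

variable {k : Type u} [Field k] {𝒱 : VarClass k} {ops : CycleOps 𝒱}
  {W : WeilCohomology.{u, v} ops} {X : 𝒱.Obj} {D : X.Cycles}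

/-- The algebraic classes of codimension `j` as a rational vector space. -/
def Aj (W : WeilCohomology.{u, v} ops) (X : 𝒱.Obj) (j : ℕ) : Submodule ℚ (AQ W X) where
  carrier := {x | (x : W.H X) ∈ algClasses W X j}
  zero_mem' := ⟨0, SmVar.IsCyc.zero _ _, map_zero _⟩
  add_mem' := fun hx hy => alg_add hx hy
  smul_mem' := fun q _ hx => alg_smul q hx

/-- The pairing. -/
noncomputable def psiL (W : WeilCohomology.{u, v} ops) (X : 𝒱.Obj) :
    AQ W X →ₗ[ℚ] AQ W X →ₗ[ℚ] ℚ :=
  LinearMap.mk₂ ℚ psi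
    (fun x x' y => by
      apply Rat.cast_injective (α := W.K)
      rw [Rat.cast_add, ← psi_spec, ← psi_spec, ← psi_spec, AddSubgroup.coe_add, add_mul,
        map_add])
    (fun c x y => by
      apply Rat.cast_injective (α := W.K)
      rw [smul_eq_mul, Rat.cast_mul, ← psi_spec, ← psi_spec, AQ.coe_smul, smul_mul_assoc,
        map_smul, smul_eq_mul])
    (fun x y y' => by
      apply Rat.cast_injective (α := W.K)
      rw [Rat.cast_add, ← psi_spec, ← psi_spec, ← psi_spec, AddSubgroup.coe_add, mul_add,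
        map_add])
    (fun c x y => by
      rw [psi_smul, smul_eq_mul])

lemma psiL_spec (x y : AQ W X) : ((psiL W X x y : ℚ) : W.K) = W.tr X ((x : W.H X) * y) :=
  (psi_spec _ _).symm

/-- The conjecture D for the classes. -/
lemma eq_zero_of_psi (hDX : HomEqNum W X) {j l : ℕ} (hjl : j + l = X.dim) {x : AQ W X}
    (hx : x ∈ Aj W X j) (h : ∀ y ∈ Aj W X l, psiL W X x y = 0) : x = 0 := by
  obtain ⟨z, hz, hzx⟩ := hx
  apply Subtype.ext
  change (x : W.H X) = 0
  rw [← hzx]
  apply hDX j (by omega) z hz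
  intro w hw
  have hw' : X.IsCyc l w := by rwa [show X.dim - j = l by omega] at hw
  have h1 := h ⟨W.cl X w, AS.of ⟨w, hw', rfl⟩⟩ ⟨w, hw', rfl⟩
  have h2 := psiL_spec x (⟨W.cl X w, AS.of ⟨w, hw', rfl⟩⟩ : AQ W X)
  rw [h1, Rat.cast_zero, ← hzx, ← W.cl_mul, W.tr_cl] at h2
  · exact_mod_cast h2.symm
  · rw [← hjl]
    exact ops.mul_mem hz hw'

lemma Aj_finite (hDX : HomEqNum W X) {j l : ℕ} (hjl : j + l = X.dim) :
    Module.Finite ℚ (Aj W X j) := by
  classical
  have hfg : (Submodule.span W.K (algClasses W X l)).FG := IsNoetherian.noetherian _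
  obtain ⟨t, ht, htspan⟩ := Submodule.fg_span_iff_fg_span_finset_subset _ |>.1 hfg
  let g : Aj W X j →ₗ[ℚ] (t → ℚ) :=
    { toFun := fun x w => psiL W X x ⟨w, AS.of (ht w.2)⟩
      map_add' := fun x y => by
        funext w
        simp
      map_smul' := fun q x => by
        funext w
        simp }
  refine Module.Finite.of_injective g ?_
  rw [injective_iff_map_eq_zero]
  intro x hx
  apply Subtype.ext
  apply eq_zero_of_psi hDX hjl x.2
  intro y hy
  apply Rat.cast_injective (α := W.K)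
  rw [psiL_spec, Rat.cast_zero]
  have h1 : (y : W.H X) ∈ Submodule.span W.K (t : Set (W.H X)) := by
    rw [← htspan]
    exact Submodule.subset_span hy
  have h2 : Submodule.span W.K (t : Set (W.H X)) ≤
      LinearMap.ker (W.tr X ∘ₗ LinearMap.mulLeft W.K (x : W.H X)) := by
    rw [Submodule.span_le]
    intro w hw
    have h3 : psiL W X x ⟨w, AS.of (ht hw)⟩ = 0 := congrFun hx ⟨w, hw⟩
    have h4 := psiL_spec (x : AQ W X) (⟨w, AS.of (ht hw)⟩ : AQ W X)
    rw [h3, Rat.cast_zero] at h4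
    exact h4.symm
  exact h2 h1

/-- Hard Lefschetz and the conjecture D imply the conjecture A. -/
theorem lefschetzA_of_D (hD : X.IsCyc 1 D) (hHL : HardLefschetz W X D) (hDX : HomEqNum W X) :
    LefschetzA W X D := by
  intro j hj z hz
  have hf1 := Aj_finite (W := W) hDX (j := j) (l := X.dim - j) (by omega)
  have hf2 := Aj_finite (W := W) hDX (j := X.dim - j) (l := j) (by omega)
  -- the dimensions
  let B : Aj W X j →ₗ[ℚ] Module.Dual ℚ (Aj W X (X.dim - j)) :=
    ((psiL W X).domRestrict₁₂ (Aj W X j) (Aj W X (X.dim - j)))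
  let B' : Aj W X (X.dim - j) →ₗ[ℚ] Module.Dual ℚ (Aj W X j) :=
    ((psiL W X).domRestrict₁₂ (Aj W X (X.dim - j)) (Aj W X j))
  have hB : Function.Injective B := by
    rw [injective_iff_map_eq_zero]
    intro x hx
    apply Subtype.ext
    apply eq_zero_of_psi hDX (l := X.dim - j) (by omega) x.2
    intro y hy
    exact congrArg (fun F => F ⟨y, hy⟩) hx
  have hB' : Function.Injective B' := by
    rw [injective_iff_map_eq_zero]
    intro x hx
    apply Subtype.ext
    apply eq_zero_of_psi hDX (l := j) (by omega) x.2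
    intro y hy
    exact congrArg (fun F => F ⟨y, hy⟩) hx
  have h1 := LinearMap.finrank_le_finrank_of_injective hB
  have h2 := LinearMap.finrank_le_finrank_of_injective hB'
  rw [Subspace.dual_finrank_eq] at h1 h2
  have h3 : Module.finrank ℚ (Aj W X j) = Module.finrank ℚ (Aj W X (X.dim - j)) :=
    le_antisymm h1 h2
  -- the Lefschetz operator
  have hmem : ∀ x : W.H X, x ∈ algClasses W X j →
      ((LinearMap.mulLeft W.K (W.cl X D)) ^ (X.dim - 2 * j)) x ∈
        algClasses W X (X.dim - j) := by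
    rintro _ ⟨w, hw, rfl⟩
    refine ⟨divPow ops D (X.dim - 2 * j) w, ?_, cl_divPow _ _ _⟩
    have := divPow_mem (ops := ops) hD (X.dim - 2 * j) hw
    rwa [show j + (X.dim - 2 * j) = X.dim - j by omega] at this
  let G : Aj W X j →ₗ[ℚ] Aj W X (X.dim - j) :=
    { toFun := fun x => ⟨⟨((LinearMap.mulLeft W.K (W.cl X D)) ^ (X.dim - 2 * j)) (x : W.H X),
        AS.of (hmem _ x.2)⟩, hmem _ x.2⟩
      map_add' := fun x y => Subtype.ext (Subtype.ext (map_add _ _ _))
      map_smul' := fun q x => Subtype.ext (Subtype.ext (map_smul _ _ _)) }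
  have hG : Function.Injective G := by
    rw [injective_iff_map_eq_zero]
    intro x hx
    have h4 : ((LinearMap.mulLeft W.K (W.cl X D)) ^ (X.dim - 2 * j)) ((x : AQ W X) : W.H X) = 0 :=
      congrArg (fun y : Aj W X (X.dim - j) => ((y : AQ W X) : W.H X)) hx
    have h6 : ((x : AQ W X) : W.H X) ∈ W.gr X (2 * j) := alg_gr x.2
    exact Subtype.ext (Subtype.ext ((hHL (2 * j) hj).1 _ h6 h4))
  obtain ⟨x, hx⟩ := (LinearMap.injective_iff_surjective_of_finrank_eq_finrank h3).1 hG
    ⟨⟨W.cl X z, AS.of ⟨z, hz, rfl⟩⟩, ⟨z, hz, rfl⟩⟩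
  obtain ⟨w, hw, hwx⟩ := x.2
  refine ⟨w, hw, ?_⟩
  rw [cl_divPow, hwx]
  exact congrArg (fun y : Aj W X (X.dim - j) => ((y : AQ W X) : W.H X)) hx

end Pool.Agent.K9h28
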