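import Pool.Agent.K9h28.AQ
import Pool.Agent.K9h28.AtoD

/-!
# Varieties satisfying hard Lefschetz and the conjecture A
-/

set_option autoImplicit false
set_option linter.unusedSectionVars false

open CategoryTheory AlgebraicGeometry
open IsNilpotent (exp exp_eq_sum)

universe u v

namespace Pool.Agent.K9h28

open Pool.Agent.H914 Pool.Agent.H914.VarClass Pool.Agent.H914.VarClass.Obj
  Pool.Agent.H914.WeilCohomology Pool.Agent.H281R3.HT Pool.Agent.W552

variable {k : Type u} [Field k] {𝒱 : VarClass k} {ops : CycleOps 𝒱}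
  {W : WeilCohomology.{u, v} ops} {X : 𝒱.Obj} {D : X.Cycles} {f : Module.End W.K (W.H X)}

/-- A polarized variety which satisfies hard Lefschetz and the conjecture A, with its lowering
operator. -/
structure FA (W : WeilCohomology.{u, v} ops) (X : 𝒱.Obj) (D : X.Cycles)
    (f : Module.End W.K (W.H X)) : Prop where
  hD : X.IsCyc 1 D
  sl2 : Sl2 (wt (W.isInternal X) X.dim) (LinearMap.mulLeft W.K (W.cl X D)) f
  A : LefschetzA W X D

namespace FA

variable (F : FA W X D f)

include F

lemma wt_w : wop W X D f * wt (W.isInternal X) X.dim =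
    -(wt (W.isInternal X) X.dim * wop W X D f) := by
  exact wt_w_aux F.sl2.ef (wey_e F.sl2) (wey_f F.sl2)

lemma w_mem {i : ℕ} (hi : i ≤ 2 * X.dim) {a : W.H X} (ha : a ∈ W.gr X i) :
    wop W X D f a ∈ W.gr X (2 * X.dim - i) := by
  have h1 := congrArg (fun G => G a) F.wt_w
  simp only [Module.End.mul_apply, LinearMap.neg_apply, Fr.wt_gr ha, map_smul] at h1
  have h2 : wt (W.isInternal X) X.dim (wop W X D f a) =
      ((X.dim : W.K) - i) • wop W X D f a := by
    rw [← neg_neg (wt (W.isInternal X) X.dim _), ← h1, ← neg_smul, neg_sub]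
  refine (mem_gr_of_wt (W.isInternal X) W_hbd h2).1 _ ?_
  rw [Nat.cast_sub hi]
  push_cast
  ring

lemma f_gr {i : ℕ} {a : W.H X} (ha : a ∈ W.gr X i) :
    (∀ j, j + 2 = i → f a ∈ W.gr X j) ∧ (i < 2 → f a = 0) := by
  have h1 := congrArg (fun G => G a) F.sl2.hf
  simp only [LinearMap.sub_apply, Module.End.mul_apply, LinearMap.neg_apply, Fr.wt_gr ha,
    map_smul] at h1
  have h2 : (2 : Module.End W.K (W.H X)) (f a) = (2 : W.K) • f a := by
    rw [ofNat_smul_eq_nsmul]; rfl
  have h3 : wt (W.isInternal X) X.dim (f a) = ((i : W.K) - X.dim - 2) • f a := by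
    rw [h2, sub_eq_iff_eq_add] at h1
    rw [h1, ← neg_smul, ← add_smul]
    congr 1
    ring
  have h4 := mem_gr_of_wt (W.isInternal X) W_hbd h3
  constructor
  · intro j hj
    apply h4.1
    rw [← hj]
    push_cast
    ring
  · intro hi
    apply h4.2
    intro j h0
    have : (i : W.K) = (j + 2 : ℕ) := by push_cast; linear_combination h0
    have : i = j + 2 := by exact_mod_cast this
    omega

lemma L_AS {x : W.H X} (hx : AS W X x) : AS W X (LinearMap.mulLeft W.K (W.cl X D) x) :=
  (AS.of ⟨D, F.hD, rfl⟩).mul hx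

lemma L_pow_AS {x : W.H X} (hx : AS W X x) (i : ℕ) :
    AS W X (((LinearMap.mulLeft W.K (W.cl X D)) ^ i) x) := by
  induction i with
  | zero => exact hx
  | succ i ih =>
    rw [pow_succ', Module.End.mul_apply]
    exact F.L_AS ih

/-- The commutator. -/
lemma f_L {x : W.H X} (hx : AS W X x) (hfx : AS W X (f x)) :
    AS W X (f (LinearMap.mulLeft W.K (W.cl X D) x)) := by
  have h1 := congrArg (fun G => G x) F.sl2.ef
  simp only [LinearMap.sub_apply, Module.End.mul_apply] at h1
  have h2 : f (LinearMap.mulLeft W.K (W.cl X D) x) =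
      LinearMap.mulLeft W.K (W.cl X D) (f x) + -wt (W.isInternal X) X.dim x := by
    rw [← h1]; abel
  rw [h2]
  exact (F.L_AS hfx).add (AS.ratSub.neg (AS_wt hx))

/-- The lowering operator preserves the algebraic classes. -/
lemma pres_low (c : ℕ) : 2 * c ≤ X.dim → ∀ z, X.IsCyc c z → AS W X (f (W.cl X z)) := by
  induction c with
  | zero =>
    intro _ z hz
    rw [(F.f_gr (W.cl_mem hz)).2 (by omega)]
    exact AS.zero
  | succ c ih =>
    intro hc z hz
    have hz1 : X.IsCyc (X.dim - c) (divPow ops D (X.dim - 2 * (c + 1) + 1) z) := by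
      have := divPow_mem (ops := ops) F.hD (X.dim - 2 * (c + 1) + 1) hz
      rwa [show c + 1 + (X.dim - 2 * (c + 1) + 1) = X.dim - c by omega] at this
    obtain ⟨z₁, hz₁, hz₁'⟩ := F.A c (by omega) _ hz1
    have hL : AS W X (f (LinearMap.mulLeft W.K (W.cl X D) (W.cl X z₁))) :=
      F.f_L (AS.of ⟨z₁, hz₁, rfl⟩) (ih (by omega) z₁ hz₁)
    have h0 : f (W.cl X z - LinearMap.mulLeft W.K (W.cl X D) (W.cl X z₁)) = 0 := by
      have hgr : W.cl X z - LinearMap.mulLeft W.K (W.cl X D) (W.cl X z₁) ∈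
          W.gr X (2 * (c + 1)) := by
        refine Submodule.sub_mem _ (W.cl_mem hz) ?_
        have := W.mul_mem (W.cl_mem F.hD) (W.cl_mem hz₁)
        rw [show 2 * (c + 1) = 2 * 1 + 2 * c by ring]
        exact this
      refine F.sl2.f_eq_zero (K := W.K) (M := X.dim - 2 * (c + 1)) ?_ ?_
      · rw [Fr.wt_gr hgr, Nat.cast_sub hc]
        congr 1
        push_cast
        ring
      · rw [map_sub, ← cl_divPow, ← hz₁', cl_divPow,
          show X.dim - 2 * c = X.dim - 2 * (c + 1) + 1 + 1 by omega, pow_succ,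
          Module.End.mul_apply, sub_self]
    rw [map_sub, sub_eq_zero] at h0
    rw [h0]
    exact hL

lemma pres {x : W.H X} (hx : AS W X x) : AS W X (f x) := by
  refine AS.ind (p := fun x => AS W X (f x)) ?_ ?_ hx
  · rintro c _ ⟨z, hz, rfl⟩
    by_cases hc : 2 * c ≤ X.dim
    · exact F.pres_low c hc z hz
    · by_cases hc' : c ≤ X.dim
      · have hz' : X.IsCyc (X.dim - (X.dim - c)) z := by
          rwa [show X.dim - (X.dim - c) = c by omega]
        obtain ⟨z', hz', hz''⟩ := F.A (X.dim - c) (by omega) z hz'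
        rw [← hz'', cl_divPow]
        generalize X.dim - 2 * (X.dim - c) = i
        induction i with
        | zero => exact F.pres_low _ (by omega) z' hz'
        | succ i ih =>
          rw [pow_succ', Module.End.mul_apply]
          exact F.f_L (F.L_pow_AS (AS.of ⟨z', hz', rfl⟩) i) ih
      · have h1 := W.cl_mem hz
        rw [W.gr_eq_bot X _ (by omega)] at h1
        rw [(Submodule.mem_bot _).1 h1, map_zero]
        exact AS.zero
  · intro a b ha hb
    rw [map_add]
    exact ha.add hb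

lemma wop_AS {x : W.H X} (hx : AS W X x) : AS W X (wop W X D f x) := by
  have h1 := res_weyl (fun _ h => F.L_AS h) (fun _ h => F.pres h) F.sl2.nil_e F.sl2.nil_f ⟨x, hx⟩
  have h2 : AS W X ((weyl (res (LinearMap.mulLeft W.K (W.cl X D)) (fun _ h => F.L_AS h))
    (res f (fun _ h => F.pres h)) ⟨x, hx⟩ : AQ W X) : W.H X) := Subtype.prop _
  rw [h1] at h2
  exact h2

lemma st_AS {x : W.H X} (hx : AS W X x) : AS W X (st W X D f x) := by
  refine AS.ind (p := fun x => AS W X (st W X D f x)) ?_ ?_ hx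
  · intro j x hx
    rw [st_apply (alg_gr hx)]
    have := (F.wop_AS (AS.of hx)).smul (sg (2 * j) : ℚ)
    simpa using this
  · intro a b ha hb; rw [map_add]; exact ha.add hb

lemma bf_rat {x y : W.H X} (hx : AS W X x) (hy : AS W X y) : ∃ q : ℚ, bf W X D f x y = q := by
  rw [bf_apply]
  exact (hx.mul (F.st_AS hy)).tr

lemma bf_deg {i j : ℕ} {a b : W.H X} (ha : a ∈ W.gr X i) (hb : b ∈ W.gr X j) (hij : i ≠ j) :
    bf W X D f a b = 0 := by
  by_cases hj : j ≤ 2 * X.dim
  · rw [bf_apply, st_apply hb, mul_smul_comm, map_smul,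
      W.tr_eq_zero (W.mul_mem ha (F.w_mem hj hb)) (by omega), smul_zero]
  · rw [W.gr_eq_bot X j (by omega)] at hb
    rw [(Submodule.mem_bot _).1 hb, map_zero]

/-- **Positivity of the form on the algebraic classes.** -/
theorem bf_pos (hH : HodgeType W X D) {x : W.H X} (hx : AS W X x) (hx0 : x ≠ 0) :
    ∃ q : ℚ, 0 < q ∧ bf W X D f x x = q := by
  classical
  have hC := algPart F.hD F.A hH
  have t := F.sl2
  set L : Module.End W.K (W.H X) := LinearMap.mulLeft W.K (W.cl X D) with hL
  have hw1 : wey L f * L = -(f * wey L f) := wey_e t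
  have hw3 : ∀ (m : ℕ) (v : W.H X), f v = 0 → wt (W.isInternal X) X.dim v = -(m : W.K) • v →
      wey L f v = ((m.factorial : W.K)⁻¹) • (L ^ m) v := fun m v hv hm => wey_lowest t hv hm
  have hHw : ∀ i, ∀ a ∈ W.gr X i, wt (W.isInternal X) X.dim a = ((i : W.K) - X.dim) • a :=
    fun i a ha => Fr.wt_gr ha
  have hlow : ∀ i ≤ X.dim, ∀ a ∈ W.gr X i, (L ^ (X.dim - i + 1)) a = 0 → f a = 0 := by
    intro i hi a ha h0
    refine t.f_eq_zero (M := X.dim - i) ?_ h0
    rw [hHw i a ha, Nat.cast_sub hi]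
    congr 1
    ring
  have key : ∀ j, ∃ q : ℚ, 0 ≤ q ∧ (proj (W.isInternal X) (2 * j) x ≠ 0 → 0 < q) ∧
      bf W X D f (proj (W.isInternal X) (2 * j) x) (proj (W.isInternal X) (2 * j) x) = q := by
    intro j
    have h1 := hx.proj j
    by_cases h0 : proj (W.isInternal X) (2 * j) x = 0
    · exact ⟨0, le_rfl, fun h => absurd h0 h, by rw [h0]; simp⟩
    obtain ⟨s, hs, hs'⟩ := hC.weyl_pos t hw1 hw3 hlow hHw (mulLeft_isHom F.hD) W_hbd h1 h0
    refine ⟨(-1) ^ j * s, hs'.le, fun _ => hs', ?_⟩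
    rw [bf_apply, st_apply (alg_gr h1), mul_smul_comm, map_smul, ← bil_apply]
    rw [hL] at hs
    rw [hs, sg_two_mul, smul_eq_mul]
    push_cast
    rfl
  choose q hq0 hq1 hq2 using key
  refine ⟨∑ j ∈ Finset.range (X.dim + 1), q j, ?_, ?_⟩
  · have hex : ∃ j ∈ Finset.range (X.dim + 1), proj (W.isInternal X) (2 * j) x ≠ 0 := by
      by_contra h0
      push Not at h0
      apply hx0
      rw [Fr.AS_sum hx, Finset.sum_eq_zero h0]
    obtain ⟨j, hj, hj0⟩ := hex
    exact Finset.sum_pos' (fun b hb => hq0 b) ⟨j, hj, hq1 j hj0⟩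
  · have h1 : bf W X D f x x = bf W X D f
        (∑ j ∈ Finset.range (X.dim + 1), proj (W.isInternal X) (2 * j) x)
        (∑ j ∈ Finset.range (X.dim + 1), proj (W.isInternal X) (2 * j) x) := by
      rw [← Fr.AS_sum hx]
    rw [h1, map_sum (bf W X D f), LinearMap.sum_apply, Rat.cast_sum]
    apply Finset.sum_congr rfl
    intro j hj
    rw [map_sum, Finset.sum_eq_single j, hq2]
    · intro i _ hi
      exact F.bf_deg (proj_mem _ _ _) (proj_mem _ _ _) (by omega)
    · intro h0; exact absurd hj h0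

lemma lefStr (hHL : HardLefschetz W X D) :
    LefStr (W.isInternal X) X.dim (LinearMap.mulLeft W.K (W.cl X D)) f :=
  ⟨by simpa using rop_opAlg.hom (rop_mulLeft (W := W) F.hD), W_hbd, hHL, F.sl2⟩

lemma bf_symm (hHL : HardLefschetz W X D) {x y : W.H X} (hx : AS W X x) (hy : AS W X y) :
    bf W X D f x y = bf W X D f y x := by
  have t := F.lefStr hHL
  refine AS.ind (p := fun x => bf W X D f x y = bf W X D f y x) ?_ ?_ hx
  · intro i x hx
    refine AS.ind (p := fun y => bf W X D f x y = bf W X D f y x) ?_ ?_ hy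
    · intro j y hy
      have h1 := t.form_symm (B := bil W X) (fun a b => by
        rw [bil_apply, bil_apply, LinearMap.mulLeft_apply, LinearMap.mulLeft_apply,
          W.even_comm (p := 1) (W.cl_mem F.hD) a, mul_assoc])
        (fun i j a ha b hb hij => W.tr_eq_zero (W.mul_mem ha hb) hij)
        (fun i j a ha b hb => by
          rw [bil_apply, bil_apply, W.comm ha hb, map_smul, smul_eq_mul])
        (alg_gr hy) (alg_gr hx)
      rw [pow_mul] at h1
      simp only [even_two, Even.neg_pow, one_pow, one_mul] at h1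
      exact h1
    · intro a b ha hb
      rw [map_add, ha, hb, map_add, LinearMap.add_apply]
  · intro a b ha hb
    rw [map_add, LinearMap.add_apply, ha, hb, map_add]

/-- The rational vector space of algebraic classes is finite-dimensional. -/
lemma finite (hHL : HardLefschetz W X D) (hH : HodgeType W X D) : Module.Finite ℚ (AQ W X) := by
  classical
  obtain ⟨N, ε, w, hε, hw, horth, hspan⟩ := exists_ratBasis (AS.ratSub (W := W) (X := X))
    (bf W X D f) (fun x y hx hy => F.bf_rat hx hy) (fun x y hx hy => F.bf_symm hHL hx hy)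
    (fun x hx hx0 => F.bf_pos hH hx hx0)
  let g : (Fin N → ℚ) →ₗ[ℚ] AQ W X :=
    { toFun := fun r => ∑ k, r k • (⟨ε k, hε k⟩ : AQ W X)
      map_add' := fun r s => by simp only [Pi.add_apply, add_smul, Finset.sum_add_distrib]
      map_smul' := fun q r => by
        simp only [Pi.smul_apply, smul_eq_mul, mul_smul, Finset.smul_sum, RingHom.id_apply] }
  refine Module.Finite.of_surjective g fun x => ?_
  obtain ⟨r, hr⟩ := hspan x (Submodule.subset_span x.2) fun k => F.bf_rat x.2 (hε k)
  refine ⟨r, Subtype.ext ?_⟩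
  change ((∑ k, r k • (⟨ε k, hε k⟩ : AQ W X) : AQ W X) : W.H X) = x
  rw [AddSubgroup.val_finsetSum, hr]
  rfl

end FA

/-- Existence of the lowering operator. -/
lemma exists_fa (hD : X.IsCyc 1 D) (hHL : HardLefschetz W X D) (hA : LefschetzA W X D) :
    ∃ f, FA W X D f := by
  have hLR := rop_mulLeft (W := W) hD
  have hLh : IsHom (W.gr X) 2 (LinearMap.mulLeft W.K (W.cl X D)) := by
    simpa using rop_opAlg.hom hLR
  obtain ⟨f, t, -, -⟩ := exists_sl2 (W.isInternal X) hLh W_hbd hHL
  exact ⟨f, hD, t, hA⟩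

end Pool.Agent.K9h28
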