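import Pool.Agent.H914R2.PProd

/-!
# Operators of weight one and the Weyl operator
-/

set_option autoImplicit false
set_option linter.unusedSectionVars false

open Finset
open IsNilpotent (exp exp_eq_sum)

namespace Pool.Agent.K9h28

open Pool.Agent.H914

section Ring

variable {A : Type*} [Ring A] [Module ℚ A]

/-- The conjugation by the exponential. -/
lemma exp_mul_of {a X Y : A} (ha : IsNilpotent a) (h1 : a * X = X * a + Y)
    (h2 : a * Y = Y * a) : exp a * X = (X + Y) * exp a := by
  obtain ⟨N, hN⟩ := ha
  have hN1 : a ^ (N + 1) = 0 := by rw [pow_succ, hN, zero_mul]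
  have hY : ∀ k : ℕ, a ^ k * Y = Y * a ^ k := fun k => (Commute.pow_left h2 k).eq
  have hk : ∀ k : ℕ, a ^ (k + 1) * X = X * a ^ (k + 1) + (k + 1 : ℕ) • (Y * a ^ k) := by
    intro k
    induction k with
    | zero => simp [h1]
    | succ k ih =>
      rw [pow_succ' a (k + 1), mul_assoc, ih, mul_add, mul_smul_comm, ← mul_assoc, h1,
        ← mul_assoc a Y, h2, add_mul, mul_assoc, ← pow_succ', mul_assoc Y, ← pow_succ',
        add_assoc]
      congr 1
      rw [add_smul (k + 1) 1, one_smul]
      abel
  have key : ∀ k : ℕ, (((k + 1).factorial : ℚ)⁻¹) • (((k + 1 : ℕ)) • (Y * a ^ k)) =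
      ((k.factorial : ℚ)⁻¹) • (Y * a ^ k) := by
    intro k
    rw [← Nat.cast_smul_eq_nsmul ℚ, smul_smul, Nat.factorial_succ]
    congr 1
    push_cast
    have : (k : ℚ) + 1 ≠ 0 := by positivity
    have h2 : (k.factorial : ℚ) ≠ 0 := by positivity
    field_simp
  rw [add_mul]
  rw [exp_eq_sum hN1, Finset.sum_mul, Finset.mul_sum, Finset.sum_range_succ',
    Finset.sum_range_succ' (fun i => X * ((i.factorial : ℚ)⁻¹ • a ^ i))]
  have e1 : ∀ k ∈ range N, (((k + 1).factorial : ℚ)⁻¹ • a ^ (k + 1)) * X =
      X * (((k + 1).factorial : ℚ)⁻¹ • a ^ (k + 1)) + ((k.factorial : ℚ)⁻¹) • (Y * a ^ k) := by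
    intro k _
    rw [smul_mul_assoc, hk, smul_add, key, mul_smul_comm]
  rw [Finset.sum_congr rfl e1, Finset.sum_add_distrib]
  have e2 : ∑ k ∈ range N, ((k.factorial : ℚ)⁻¹) • (Y * a ^ k) = Y * exp a := by
    rw [exp_eq_sum hN, Finset.mul_sum]
    exact Finset.sum_congr rfl (fun k _ => (mul_smul_comm _ _ _).symm)
  rw [e2, ← exp_eq_sum hN1]
  simp only [pow_zero, smul_mul_assoc, one_mul, mul_smul_comm, mul_one]
  abel

lemma weyl_mul_of {e f X X' : A} (he : IsNilpotent e) (hf : IsNilpotent f)
    (h1 : e * X = X * e) (h2 : f * X = X * f + X') (h3 : e * X' = X' * e + X)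
    (h4 : f * X' = X' * f) : weyl e f * X = -(X' * weyl e f) ∧ weyl e f * X' = X * weyl e f := by
  have a1 : exp e * X = X * exp e := by
    have := exp_mul_of (Y := 0) he (by rw [h1, add_zero]) (by simp)
    rwa [add_zero] at this
  have a2 : exp (-f) * X = (X + -X') * exp (-f) := by
    apply exp_mul_of hf.neg
    · rw [neg_mul, h2, mul_neg, neg_add]
    · rw [neg_mul_neg, neg_mul_neg, h4]
  have a3 : exp e * X' = (X' + X) * exp e := exp_mul_of he h3 h1
  have a4 : exp (-f) * X' = X' * exp (-f) := by
    have := exp_mul_of (a := -f) (X := X') (Y := 0) hf.neg (by rw [neg_mul, mul_neg, h4, add_zero])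
      (by simp)
    rwa [add_zero] at this
  constructor
  · calc weyl e f * X = exp e * exp (-f) * (exp e * X) := by rw [weyl, mul_assoc]
      _ = exp e * (exp (-f) * X) * exp e := by rw [a1]; noncomm_ring
      _ = (exp e * X - exp e * X') * (exp (-f) * exp e) := by rw [a2]; noncomm_ring
      _ = -(X' * weyl e f) := by rw [a1, a3, weyl]; noncomm_ring
  · calc weyl e f * X' = exp e * exp (-f) * (exp e * X') := by rw [weyl, mul_assoc]
      _ = exp e * (exp (-f) * X') * exp e + exp e * (exp (-f) * X) * exp e := by
          rw [a3]; noncomm_ring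
      _ = (exp e * X' + exp e * X - exp e * X') * (exp (-f) * exp e) := by
          rw [a4, a2]; noncomm_ring
      _ = _ := by rw [a1, weyl]; noncomm_ring

end Ring

section End

variable {K : Type*} [Field K] [CharZero K] {V : Type*} [AddCommGroup V] [Module K V]
  [Module.Finite K V] {h e f : Module.End K V}

/-- The adjoint representation. -/
lemma sl2_ad (t : Sl2 h e f) : Sl2 (LinearMap.mulLeft K h - LinearMap.mulRight K h)
    (LinearMap.mulLeft K e - LinearMap.mulRight K e)
    (LinearMap.mulLeft K f - LinearMap.mulRight K f) where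
  ef := by
    apply LinearMap.ext
    intro Y
    simp only [LinearMap.sub_apply, Module.End.mul_apply, LinearMap.mulLeft_apply,
      LinearMap.mulRight_apply]
    rw [← t.ef]
    noncomm_ring
  he := by
    apply LinearMap.ext
    intro Y
    have h1 := t.he
    rw [two_mul] at h1 ⊢
    simp only [LinearMap.sub_apply, LinearMap.add_apply, Module.End.mul_apply,
      LinearMap.mulLeft_apply, LinearMap.mulRight_apply]
    calc h * (e * Y - Y * e) - (e * Y - Y * e) * h - (e * (h * Y - Y * h) - (h * Y - Y * h) * e)
        = (h * e - e * h) * Y - Y * (h * e - e * h) := by noncomm_ring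
      _ = _ := by rw [h1]; noncomm_ring
  hf := by
    apply LinearMap.ext
    intro Y
    have h1 := t.hf
    rw [two_mul] at h1 ⊢
    simp only [LinearMap.sub_apply, LinearMap.add_apply, LinearMap.neg_apply,
      Module.End.mul_apply, LinearMap.mulLeft_apply, LinearMap.mulRight_apply]
    calc h * (f * Y - Y * f) - (f * Y - Y * f) * h - (f * (h * Y - Y * h) - (h * Y - Y * h) * f)
        = (h * f - f * h) * Y - Y * (h * f - f * h) := by noncomm_ring
      _ = _ := by rw [h1]; noncomm_ring

/-- An operator which commutes with the raising operator and has the weight one generates a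
representation of dimension two. -/
lemma ad_one (t : Sl2 h e f) {X : Module.End K V} (h1 : e * X = X * e)
    (h2 : h * X - X * h = X) : e * (f * X - X * f) = (f * X - X * f) * e + X ∧
      f * (f * X - X * f) = (f * X - X * f) * f := by
  constructor
  · have h3 : e * (f * X - X * f) - (f * X - X * f) * e = (e * f - f * e) * X -
        X * (e * f - f * e) + (f * (e * X - X * e) - (e * X - X * e) * f) := by noncomm_ring
    rw [h1, sub_self, mul_zero, zero_mul, sub_self, add_zero, t.ef, h2] at h3
    exact sub_eq_iff_eq_add'.1 h3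
  · have t2 := (sl2_ad t).neg_swap
    have h5 := Sl2.e_pow_zero (K := K) (v := X) (m := 1) t2 (by
      simp only [LinearMap.neg_apply, LinearMap.sub_apply, LinearMap.mulLeft_apply,
        LinearMap.mulRight_apply]
      rw [h1, sub_self, neg_zero]) (by
      simp only [LinearMap.neg_apply, LinearMap.sub_apply, LinearMap.mulLeft_apply,
        LinearMap.mulRight_apply]
      rw [h2, Nat.cast_one, neg_smul, one_smul]) (k := 2) (by norm_num)
    rw [pow_two, Module.End.mul_apply] at h5
    simp only [LinearMap.neg_apply, LinearMap.sub_apply, LinearMap.mulLeft_apply,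
      LinearMap.mulRight_apply] at h5
    have h6 : f * (f * X - X * f) - (f * X - X * f) * f = 0 := by
      rw [← h5]; noncomm_ring
    exact sub_eq_zero.1 h6

/-- The Weyl operator and the operators of weight one. -/
lemma wey_one (t : Sl2 h e f) {X : Module.End K V} (h1 : e * X = X * e)
    (h2 : h * X - X * h = X) : wey e f * X = -((f * X - X * f) * wey e f) ∧
      wey e f * (f * X - X * f) = X * wey e f := by
  let _ : Module ℚ (Module.End K V) := Module.compHom (Module.End K V) (algebraMap ℚ K)
  obtain ⟨h3, h4⟩ := ad_one t h1 h2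
  exact weyl_mul_of t.nil_e t.nil_f h1 (by abel) h3 h4

end End

end Pool.Agent.K9h28
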