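import Pool.Agent.K9h28.GnA
import Pool.Agent.K9h28.Site
import Pool.Agent.H914R2.TCore

/-!
# Harmonic representatives for a differential of weight one
-/

set_option autoImplicit false
set_option linter.unusedSectionVars false

open Finset
open IsNilpotent (exp exp_eq_sum)

namespace Pool.Agent.K9h28

open Pool.Agent.H914

section Inter

variable {V V' : Type*} [AddCommGroup V] [Module ℚ V] [AddCommGroup V'] [Module ℚ V']

lemma exp_inter {T : V →ₗ[ℚ] V'} {a : Module.End ℚ V} {a' : Module.End ℚ V'}
    (ha : IsNilpotent a) (ha' : IsNilpotent a') (h : ∀ x, T (a x) = a' (T x)) (x : V) :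
    T ((exp a) x) = (exp a') (T x) := by
  obtain ⟨n, hn⟩ := ha
  obtain ⟨n', hn'⟩ := ha'
  have h1 : a ^ (n + n') = 0 := by rw [pow_add, hn, zero_mul]
  have h2 : a' ^ (n + n') = 0 := by rw [pow_add, hn', mul_zero]
  have h3 : ∀ k : ℕ, ∀ x, T ((a ^ k) x) = (a' ^ k) (T x) := by
    intro k
    induction k with
    | zero => intro x; simp
    | succ k ih =>
      intro x
      rw [pow_succ, pow_succ, Module.End.mul_apply, Module.End.mul_apply, ih, h]
  rw [exp_eq_sum h1, exp_eq_sum h2, LinearMap.sum_apply, LinearMap.sum_apply, map_sum]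
  refine Finset.sum_congr rfl fun i _ => ?_
  rw [LinearMap.smul_apply, LinearMap.smul_apply, map_smul, h3]

/-- Maps commuting with the operators of the triples commute with the Weyl operators. -/
lemma weyl_inter {T : V →ₗ[ℚ] V'} {e f : Module.End ℚ V} {e' f' : Module.End ℚ V'}
    (he : IsNilpotent e) (hf : IsNilpotent f) (he' : IsNilpotent e') (hf' : IsNilpotent f')
    (h : ∀ x, T (e x) = e' (T x)) (h2 : ∀ x, T (f x) = f' (T x)) (x : V) :
    T ((weyl e f) x) = (weyl e' f') (T x) := by
  rw [weyl, weyl, Module.End.mul_apply, Module.End.mul_apply, Module.End.mul_apply,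
    Module.End.mul_apply, exp_inter he he' h, exp_inter hf.neg hf'.neg, exp_inter he he' h]
  intro x
  rw [LinearMap.neg_apply, LinearMap.neg_apply, map_neg, h2]

lemma weyl_surj {e f : Module.End ℚ V} (he : IsNilpotent e) (hf : IsNilpotent f) (g : V) :
    ∃ u, (weyl e f) u = g := by
  refine ⟨(exp (-e) * exp f * exp (-e)) g, ?_⟩
  rw [← Module.End.mul_apply, weyl]
  have h1 := IsNilpotent.exp_mul_exp_neg_self he
  have h2 := IsNilpotent.exp_neg_mul_exp_self hf
  have h3 : exp e * exp (-f) * exp e * (exp (-e) * exp f * exp (-e)) = 1 := by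
    calc exp e * exp (-f) * exp e * (exp (-e) * exp f * exp (-e))
        = exp e * exp (-f) * (exp e * exp (-e)) * exp f * exp (-e) := by noncomm_ring
      _ = exp e * (exp (-f) * exp f) * exp (-e) := by rw [h1]; noncomm_ring
      _ = 1 := by rw [h2, mul_one, h1]
  rw [h3, Module.End.one_apply]

end Inter

section Harm

variable {V : Type*} [AddCommGroup V] [Module ℚ V] [Module.Finite ℚ V]

/-- A finite-dimensional rational vector space with two commuting Lefschetz triples, a
differential, and a positive definite form. -/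
structure Harm (Q : V →ₗ[ℚ] V →ₗ[ℚ] ℚ) (h L Λ H N M d ds : Module.End ℚ V) : Prop where
  symm : ∀ x y, Q x y = Q y x
  pos : ∀ x, x ≠ 0 → 0 < Q x x
  tL : Sl2 h L Λ
  tN : Sl2 H N M
  LN : Commute L N
  LM : Commute L M
  LH : Commute L H
  ΛN : Commute Λ N
  ΛM : Commute Λ M
  ΛH : Commute Λ H
  hM : Commute h M
  d_sq : d * d = 0
  Ld : L * d = d * L
  Nd : N * d = d * N
  hd : h * d - d * h = d
  Hd : H * d - d * H = d
  ds_eq : ds = -(Λ * (M * d - d * M) - (M * d - d * M) * Λ)
  adj : ∀ x y, Q (d x) y = Q x (ds y)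

namespace Harm

variable {Q : V →ₗ[ℚ] V →ₗ[ℚ] ℚ} {h L Λ H N M d ds : Module.End ℚ V}
  (t : Harm Q h L Λ H N M d ds)

include t

lemma D1L : L * (M * d - d * M) = (M * d - d * M) * L := by
  linear_combination (norm := noncomm_ring) t.LM.eq * d + M * t.Ld - t.Ld * M - d * t.LM.eq

lemma D1h : h * (M * d - d * M) - (M * d - d * M) * h = M * d - d * M := by
  linear_combination (norm := noncomm_ring) t.hM.eq * d + M * t.hd - t.hd * M - d * t.hM.eq

lemma L_ds : L * ds = ds * L - (M * d - d * M) := by
  have h1 := (ad_one t.tL t.D1L t.D1h).1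
  rw [t.ds_eq, mul_neg, h1]
  noncomm_ring

lemma ds_eq' : ds = -(M * (Λ * d - d * Λ) - (Λ * d - d * Λ) * M) := by
  have h1 := t.ΛM.eq
  rw [t.ds_eq]
  congr 1
  calc Λ * (M * d - d * M) - (M * d - d * M) * Λ
      = (Λ * M) * d - Λ * d * M - M * d * Λ + d * (M * Λ) := by noncomm_ring
    _ = (M * Λ) * d - Λ * d * M - M * d * Λ + d * (Λ * M) := by rw [h1]
    _ = _ := by noncomm_ring

lemma D2N : N * (Λ * d - d * Λ) = (Λ * d - d * Λ) * N := by
  linear_combination (norm := noncomm_ring) Λ * t.Nd - t.ΛN.eq * d - t.Nd * Λ + d * t.ΛN.eq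

lemma D2H : H * (Λ * d - d * Λ) - (Λ * d - d * Λ) * H = Λ * d - d * Λ := by
  linear_combination (norm := noncomm_ring) Λ * t.Hd - t.ΛH.eq * d - t.Hd * Λ + d * t.ΛH.eq

lemma N_ds : N * ds = ds * N - (Λ * d - d * Λ) := by
  have h1 := (ad_one t.tN t.D2N t.D2H).1
  rw [t.ds_eq', mul_neg, h1]
  noncomm_ring

/-- The Laplacian commutes with the raising operators. -/
lemma lap_L : L * (d * ds + ds * d) = (d * ds + ds * d) * L := by
  have h1 : d * (M * d - d * M) + (M * d - d * M) * d = 0 := by
    have : d * (M * d - d * M) + (M * d - d * M) * d = M * (d * d) - (d * d) * M := by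
      noncomm_ring
    rw [this, t.d_sq]; simp
  have h2 := t.L_ds
  linear_combination (norm := noncomm_ring) t.Ld * ds + d * h2 + h2 * d + ds * t.Ld - h1

lemma lap_N : N * (d * ds + ds * d) = (d * ds + ds * d) * N := by
  have h1 : d * (Λ * d - d * Λ) + (Λ * d - d * Λ) * d = 0 := by
    have : d * (Λ * d - d * Λ) + (Λ * d - d * Λ) * d = Λ * (d * d) - (d * d) * Λ := by
      noncomm_ring
    rw [this, t.d_sq]; simp
  have h2 := t.N_ds
  linear_combination (norm := noncomm_ring) t.Nd * ds + d * h2 + h2 * d + ds * t.Nd - h1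

lemma h_ds : h * ds - ds * h = -ds := by
  have h1 := t.D1h
  have h2 := t.tL.hf
  have h3 : h * ds - ds * h = -((h * Λ - Λ * h) * (M * d - d * M) +
      Λ * (h * (M * d - d * M) - (M * d - d * M) * h) -
      (h * (M * d - d * M) - (M * d - d * M) * h) * Λ -
      (M * d - d * M) * (h * Λ - Λ * h)) := by
    rw [t.ds_eq]; noncomm_ring
  rw [h3, h1, h2, t.ds_eq]
  noncomm_ring

lemma H_ds : H * ds - ds * H = -ds := by
  have h1 := t.D2H
  have h2 := t.tN.hf
  have h3 : H * ds - ds * H = -((H * M - M * H) * (Λ * d - d * Λ) +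
      M * (H * (Λ * d - d * Λ) - (Λ * d - d * Λ) * H) -
      (H * (Λ * d - d * Λ) - (Λ * d - d * Λ) * H) * M -
      (Λ * d - d * Λ) * (H * M - M * H)) := by
    rw [t.ds_eq']; noncomm_ring
  rw [h3, h1, h2, t.ds_eq']
  noncomm_ring

/-- The Weyl operator. -/
lemma W_d : (weyl L Λ * weyl N M) * d = -(ds * (weyl L Λ * weyl N M)) := by
  have h1 := (wey_one t.tN t.Nd t.Hd).1
  have h2 := (wey_one t.tL t.D1L t.D1h).1
  rw [wey_rat] at h1 h2
  calc (weyl L Λ * weyl N M) * d = weyl L Λ * (weyl N M * d) := by rw [mul_assoc]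
    _ = -((weyl L Λ * (M * d - d * M)) * weyl N M) := by rw [h1]; noncomm_ring
    _ = _ := by rw [h2, t.ds_eq]; noncomm_ring

lemma eq_zero_of {x : V} (h1 : ds x = 0) {y : V} (h2 : x = d y) : x = 0 := by
  by_contra hx
  have h3 := t.pos x hx
  nth_rewrite 1 [h2] at h3
  rw [t.adj, h1, map_zero] at h3
  exact lt_irrefl _ h3

lemma closed_of_lap {x : V} (h1 : (d * ds + ds * d) x = 0) : d x = 0 ∧ ds x = 0 := by
  have h2 : Q (ds x) (ds x) + Q (d x) (d x) = 0 := by
    have e1 : Q (d (ds x)) x = Q (ds x) (ds x) := t.adj _ _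
    have e2 : Q (ds (d x)) x = Q (d x) (d x) := by
      rw [t.symm, ← t.adj, t.symm]
    have e3 : Q ((d * ds + ds * d) x) x = 0 := by rw [h1, map_zero, LinearMap.zero_apply]
    rw [LinearMap.add_apply, Module.End.mul_apply, Module.End.mul_apply, map_add,
      LinearMap.add_apply, e1, e2] at e3
    exact e3
  have hnn : ∀ y, 0 ≤ Q y y := by
    intro y
    by_cases hy : y = 0
    · rw [hy]; simp
    · exact (t.pos y hy).le
  have h3 := hnn (ds x)
  have h4 := hnn (d x)
  constructor
  · by_contra h5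
    have := t.pos _ h5
    linarith
  · by_contra h5
    have := t.pos _ h5
    linarith

/-- The decomposition. -/
lemma exists_decomp (z : V) : ∃ g y, z = g + d y ∧ ds g = 0 := by
  have hnd : (LinearMap.BilinForm.restrict Q (LinearMap.range d)).Nondegenerate := by
    rw [LinearMap.BilinForm.nondegenerate_iff_ker_eq_bot]
    rw [LinearMap.ker_eq_bot']
    intro x hx
    by_contra h0
    have h1 : (x : V) ≠ 0 := fun h => h0 (Subtype.ext h)
    have h2 := t.pos _ h1
    have h3 := congrArg (fun F => F x) hx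
    change Q x x = 0 at h3
    rw [h3] at h2
    exact lt_irrefl _ h2
  have hrefl : LinearMap.IsRefl Q := by
    intro x y hxy
    rw [t.symm, hxy]
  have hc := LinearMap.BilinForm.isCompl_orthogonal_of_restrict_nondegenerate hrefl hnd
  obtain ⟨a, ha, b, hb, hab⟩ := Submodule.mem_sup.1
    (show z ∈ LinearMap.range d ⊔ LinearMap.BilinForm.orthogonal Q (LinearMap.range d) by
      rw [hc.sup_eq_top]; trivial)
  obtain ⟨y, rfl⟩ := ha
  refine ⟨b, y, by rw [← hab, add_comm], ?_⟩
  by_contra h0
  have h1 := t.pos _ h0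
  have h2 : Q (d (ds b)) b = 0 := hb _ ⟨ds b, rfl⟩
  rw [t.adj] at h2
  rw [h2] at h1
  exact lt_irrefl _ h1

/-- **The sign of the form on the cocycles which are primitive up to coboundaries.** -/
theorem sign {z : V} {m : ℕ} (hz : d z = 0) (hN : N z = 0) (hH : H z = 0)
    (hh : h z = -(m : ℚ) • z)
    (horth : ∀ u, d u = 0 → Q ((L ^ (m + 1)) z) ((weyl L Λ * weyl N M) u) = 0)
    (hne : ∀ y, z ≠ d y) :
    0 < (-1) ^ m * Q z ((weyl L Λ * weyl N M) ((L ^ m) z)) := by
  obtain ⟨g, y, hzg, hg⟩ := t.exists_decomp z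
  have hgz : g = z - d y := by rw [hzg]; abel
  have hd2 : ∀ x, d (d x) = 0 := fun x => congrArg (fun F => F x) t.d_sq
  have hdg : d g = 0 := by rw [hgz, map_sub, hz, hd2, sub_zero]
  have hlap : (d * ds + ds * d) g = 0 := by
    rw [LinearMap.add_apply, Module.End.mul_apply, Module.End.mul_apply, hg, hdg, map_zero,
      map_zero, add_zero]
  have hg0 : g ≠ 0 := by
    rintro rfl
    exact hne y (by rw [hzg, zero_add])
  have hNd : ∀ x, N (d x) = d (N x) := fun x => congrArg (fun F => F x) t.Nd
  have hLd : ∀ x, L (d x) = d (L x) := fun x => congrArg (fun F => F x) t.Ld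
  have hLpd : ∀ k x, (L ^ k) (d x) = d ((L ^ k) x) := by
    intro k
    induction k with
    | zero => intro x; simp
    | succ k ih => intro x; rw [pow_succ, Module.End.mul_apply, Module.End.mul_apply, hLd, ih]
  -- invariance
  have hNg : N g = 0 := by
    have h1 : (d * ds + ds * d) (N g) = 0 := by
      have := congrArg (fun F => F g) t.lap_N
      simp only [Module.End.mul_apply] at this
      rw [← this]
      change N ((d * ds + ds * d) g) = 0
      rw [hlap, map_zero]
    apply t.eq_zero_of (t.closed_of_lap h1).2 (y := -N y)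
    rw [hgz, map_sub, hN, hNd, zero_sub, map_neg]
  have hHg : H g = 0 := by
    have h1 : ds (H g) = 0 := by
      have := congrArg (fun F => F g) t.H_ds
      simp only [LinearMap.sub_apply, Module.End.mul_apply, LinearMap.neg_apply, hg, map_zero,
        zero_sub, neg_zero] at this
      exact neg_eq_zero.1 this
    apply t.eq_zero_of h1 (y := -(H y) - y)
    have h2 := congrArg (fun F => F y) t.Hd
    simp only [LinearMap.sub_apply, Module.End.mul_apply] at h2
    rw [hgz, map_sub, hH, map_sub, map_neg, sub_eq_iff_eq_add.1 h2]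
    abel
  have hhg : h g = -(m : ℚ) • g := by
    have h1 : ds (h g + (m : ℚ) • g) = 0 := by
      have := congrArg (fun F => F g) t.h_ds
      simp only [LinearMap.sub_apply, Module.End.mul_apply, LinearMap.neg_apply, hg, map_zero,
        zero_sub, neg_zero] at this
      rw [map_add, map_smul, hg, smul_zero, add_zero]
      exact neg_eq_zero.1 this
    have h3 : h g + (m : ℚ) • g = 0 := by
      apply t.eq_zero_of h1 (y := -(h y) - y - (m : ℚ) • y)
      have h2 := congrArg (fun F => F y) t.hd
      simp only [LinearMap.sub_apply, Module.End.mul_apply] at h2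
      rw [hgz, map_sub, hh, map_sub, map_sub, map_neg, map_smul, sub_eq_iff_eq_add.1 h2,
        smul_sub, neg_smul]
      abel
    rw [neg_smul]
    exact eq_neg_of_add_eq_zero_left h3
  have hMg : M g = 0 := by
    refine t.tN.f_eq_zero (K := ℚ) (M := 0) ?_ ?_
    · rw [hHg]; simp
    · simpa using hNg
  have hwN : weyl N M g = g := by
    have := wey_lowest (K := ℚ) t.tN hMg (m := 0) (by rw [hHg]; simp)
    rw [wey_rat] at this
    rw [this]; simp
  -- primitivity
  have hLg : (L ^ (m + 1)) g = 0 := by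
    set g' := (L ^ (m + 1)) g with hg'
    have h1 : (d * ds + ds * d) g' = 0 := by
      have h2 : (L ^ (m + 1)) * (d * ds + ds * d) = (d * ds + ds * d) * L ^ (m + 1) :=
        (Commute.pow_left t.lap_L (m + 1)).eq
      have := congrArg (fun F => F g) h2
      simp only [Module.End.mul_apply] at this
      rw [hg', ← this]
      change (L ^ (m + 1)) ((d * ds + ds * d) g) = 0
      rw [hlap, map_zero]
    obtain ⟨h2, h3⟩ := t.closed_of_lap h1
    obtain ⟨u', hu'⟩ := weyl_surj t.tL.nil_e t.tL.nil_f g'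
    obtain ⟨u, hu⟩ := weyl_surj t.tN.nil_e t.tN.nil_f u'
    have hWu : (weyl L Λ * weyl N M) u = g' := by rw [Module.End.mul_apply, hu, hu']
    have hWinj : ∀ x, (weyl L Λ * weyl N M) x = 0 → x = 0 := by
      have h4 : Function.Surjective (weyl L Λ * weyl N M) := by
        intro x
        obtain ⟨a, ha⟩ := weyl_surj t.tL.nil_e t.tL.nil_f x
        obtain ⟨b, hb⟩ := weyl_surj t.tN.nil_e t.tN.nil_f a
        exact ⟨b, by rw [Module.End.mul_apply, hb, ha]⟩
      have h5 : Function.Injective (weyl L Λ * weyl N M) :=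
        LinearMap.injective_iff_surjective.2 h4
      intro x hx
      exact h5 (by rw [hx, map_zero])
    have hdu : d u = 0 := by
      apply hWinj
      have := congrArg (fun F => F u) t.W_d
      simp only [Module.End.mul_apply, LinearMap.neg_apply] at this
      rw [Module.End.mul_apply]
      rw [this]
      change -(ds ((weyl L Λ * weyl N M) u)) = 0
      rw [hWu, h3, neg_zero]
    by_contra h0
    have h6 := t.pos g' h0
    have h7 : g' = (L ^ (m + 1)) z - d ((L ^ (m + 1)) y) := by
      rw [hg', hgz, map_sub, hLpd]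
    have h8 : Q g' g' = 0 := by
      nth_rewrite 1 [h7]
      rw [map_sub, LinearMap.sub_apply, t.adj, h3, map_zero, sub_zero, ← hWu]
      exact horth u hdu
    rw [h8] at h6
    exact lt_irrefl _ h6
  have hΛg : Λ g = 0 := t.tL.f_eq_zero (K := ℚ) hhg hLg
  have hwL : weyl L Λ g = ((m.factorial : ℚ)⁻¹) • (L ^ m) g := by
    have := wey_lowest (K := ℚ) t.tL hΛg hhg
    rwa [wey_rat] at this
  have hwL2 : weyl L Λ ((L ^ m) g) = ((-1) ^ m * (m.factorial : ℚ)) • g := by
    have e1 : weyl L Λ * L = -(Λ * weyl L Λ) := by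
      have := wey_e (K := ℚ) t.tL
      rwa [wey_rat] at this
    rw [weyl_pow e1, hwL, map_smul, Sl2.f_pow_e_pow t.tL hΛg hhg (le_refl m), smul_smul,
      smul_smul]
    rw [Nat.sub_self, pow_zero, Module.End.one_apply]
    congr 1
    have : (m.factorial : ℚ) ≠ 0 := by positivity
    simp only [Nat.factorial_zero, Nat.cast_one]
    field_simp
  -- the form
  set B : V → V → ℚ := fun x y => Q x ((weyl L Λ * weyl N M) y) with hB
  have hBd : ∀ x y, B (d x) y = -B x (d y) := by
    intro x y
    have := congrArg (fun F => F y) t.W_d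
    simp only [Module.End.mul_apply, LinearMap.neg_apply] at this
    simp only [hB, Module.End.mul_apply]
    rw [t.adj, this, map_neg, neg_neg]
  have hBz : B z ((L ^ m) z) = B g ((L ^ m) g) := by
    have e1 : B z ((L ^ m) z) = B g ((L ^ m) z) + B (d y) ((L ^ m) z) := by
      simp only [hB]
      nth_rewrite 1 [hzg]
      rw [map_add, LinearMap.add_apply]
    have e2 : B g ((L ^ m) z) = B g ((L ^ m) g) + B g ((L ^ m) (d y)) := by
      simp only [hB]
      nth_rewrite 1 [hzg]
      rw [map_add, map_add, map_add]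
    rw [e1, e2, hBd, ← hLpd, hz, map_zero, hLpd]
    have e3 : B g (d ((L ^ m) y)) = -B (d g) ((L ^ m) y) := by rw [hBd, neg_neg]
    rw [e3, hdg]
    simp [hB]
  have hwNL : weyl N M * L ^ m = L ^ m * weyl N M := by
    have h1 : Commute (weyl N M) L := by
      have e1 : Commute (exp N) L := by
        have := exp_mul_of (a := N) (X := L) (Y := 0) t.tN.nil_e
          (by rw [add_zero]; exact t.LN.eq.symm) (by simp)
        rwa [add_zero] at this
      have e2 : Commute (exp (-M)) L := by
        have := exp_mul_of (a := -M) (X := L) (Y := 0) t.tN.nil_f.neg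
          (by rw [add_zero, neg_mul, mul_neg, t.LM.eq]) (by simp)
        rwa [add_zero] at this
      exact (e1.mul_left e2).mul_left e1
    exact (h1.pow_right m).eq
  have hBg : B g ((L ^ m) g) = (-1) ^ m * ((m.factorial : ℚ) * Q g g) := by
    simp only [hB]
    rw [Module.End.mul_apply]
    have := congrArg (fun F => F g) hwNL
    simp only [Module.End.mul_apply] at this
    rw [this, hwN, hwL2, map_smul, smul_eq_mul, mul_assoc]
  change 0 < (-1) ^ m * B z ((L ^ m) z)
  rw [hBz, hBg, ← mul_assoc, ← mul_pow]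
  have h1 := t.pos g hg0
  have : (0 : ℚ) < m.factorial := by positivity
  simpa using mul_pos this h1

end Harm

end Harm

end Pool.Agent.K9h28
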