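import Pool.Agent.K9h28.GnB

/-!
# The complex of the strata
-/

set_option autoImplicit false
set_option linter.unusedSectionVars false

open Finset
open IsNilpotent (exp exp_eq_sum)

universe v

namespace Pool.Agent.K9h28

open Pool.Agent.H914

variable {S : Type} [Fintype S]

/-- The spaces attached to the strata, with restrictions and Gysin maps. -/
structure Lad (rk : S → ℕ) (A : S → Type v) [∀ s, AddCommGroup (A s)] [∀ s, Module ℚ (A s)]
    (h L Λ : ∀ s, Module.End ℚ (A s)) (R : ∀ s u, A u →ₗ[ℚ] A s) (G : ∀ s u, A s →ₗ[ℚ] A u)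
    (q : ∀ s, A s →ₗ[ℚ] A s →ₗ[ℚ] ℚ) : Prop where
  sl2 : ∀ s, Sl2 (h s) (L s) (Λ s)
  R_rk : ∀ s u, rk s ≠ rk u + 1 → ∀ x, R s u x = 0
  G_rk : ∀ s u, rk s ≠ rk u + 1 → ∀ x, G s u x = 0
  R_L : ∀ s u x, L s (R s u x) = R s u (L u x)
  G_L : ∀ s u x, L u (G s u x) = G s u (L s x)
  R_h : ∀ s u x, h s (R s u x) = R s u (h u x) + R s u x
  G_h : ∀ s u x, h u (G s u x) = G s u (h s x) + G s u x
  R_R : ∀ s v x, ∑ u, R s u (R u v x) = 0
  G_G : ∀ s v x, ∑ u, G u v (G s u x) = 0
  R_G : ∀ s s', 1 ≤ rk s → rk s = rk s' → ∀ x,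
    ∑ v, R s v (G s' v x) + ∑ u, G u s (R u s' x) = 0
  symm : ∀ s x y, q s x y = q s y x
  pos : ∀ s x, x ≠ 0 → 0 < q s x x
  adjR : ∀ s u x y, q s (R s u x) y = q u x (Λ u (G s u y) - G s u (Λ s y))
  adjG : ∀ s u y x, q u (G s u y) x = -q s y (Λ s (R s u x) - R s u (Λ u x))

section Ops

variable (rk : S → ℕ) (A : S → Type v) [∀ s, AddCommGroup (A s)] [∀ s, Module ℚ (A s)]

/-- The cochains. -/
def Vs : Submodule ℚ (∀ s, ℕ → A s) where
  carrier := {x | ∀ s k, rk s < k → x s k = 0}
  zero_mem' := fun _ _ _ => rfl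
  add_mem' := fun {x y} hx hy s k hk => by
    rw [Pi.add_apply, Pi.add_apply, hx s k hk, hy s k hk, add_zero]
  smul_mem' := fun q x hx s k hk => by
    rw [Pi.smul_apply, Pi.smul_apply, hx s k hk, smul_zero]

variable {rk A}

lemma vz (x : Vs rk A) {s : S} {k : ℕ} (hk : rk s < k) : x.1 s k = 0 := x.2 s k hk

lemma Vs.ext {x y : Vs rk A} (h : ∀ s k, k ≤ rk s → x.1 s k = y.1 s k) : x = y := by
  apply Subtype.ext
  funext s k
  by_cases hk : k ≤ rk s
  · exact h s k hk
  · rw [vz x (by omega), vz y (by omega)]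

instance [∀ s, Module.Finite ℚ (A s)] : Module.Finite ℚ (Vs rk A) := by
  let g : Vs rk A →ₗ[ℚ] (∀ s, Fin (rk s + 1) → A s) :=
    { toFun := fun x s k => x.1 s k
      map_add' := fun _ _ => rfl
      map_smul' := fun _ _ => rfl }
  refine Module.Finite.of_injective g ?_
  intro x y hxy
  apply Vs.ext
  intro s k hk
  exact congrFun (congrFun hxy s) ⟨k, by omega⟩

/-- The monodromy operator. -/
def opN : Module.End ℚ (Vs rk A) where
  toFun x := ⟨fun s k => if 1 ≤ k ∧ k ≤ rk s then x.1 s (k - 1) else 0,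
    fun s k hk => if_neg (by omega)⟩
  map_add' x y := Subtype.ext (by
    funext s k
    change (if 1 ≤ k ∧ k ≤ rk s then x.1 s (k - 1) + y.1 s (k - 1) else 0) = _ + _
    dsimp only
    split_ifs
    · rfl
    · rw [add_zero])
  map_smul' c x := Subtype.ext (by
    funext s k
    change (if 1 ≤ k ∧ k ≤ rk s then c • x.1 s (k - 1) else 0) = c • (if _ then _ else _)
    split_ifs
    · rfl
    · rw [smul_zero])

lemma opN_apply (x : Vs rk A) (s : S) (k : ℕ) :
    (opN x).1 s k = if 1 ≤ k ∧ k ≤ rk s then x.1 s (k - 1) else 0 := rfl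

/-- The lowering operator. -/
def opM : Module.End ℚ (Vs rk A) where
  toFun x := ⟨fun s k => (((k : ℚ) + 1) * ((rk s : ℚ) - k)) • x.1 s (k + 1),
    fun s k hk => by dsimp only; rw [vz x (by omega), smul_zero]⟩
  map_add' x y := Subtype.ext (by
    funext s k
    exact smul_add _ _ _)
  map_smul' c x := Subtype.ext (by
    funext s k
    exact smul_comm _ _ _)

lemma opM_apply (x : Vs rk A) (s : S) (k : ℕ) :
    (opM x).1 s k = (((k : ℚ) + 1) * ((rk s : ℚ) - k)) • x.1 s (k + 1) := rfl

/-- The weight operator. -/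
def opH : Module.End ℚ (Vs rk A) where
  toFun x := ⟨fun s k => (2 * (k : ℚ) - rk s) • x.1 s k,
    fun s k hk => by dsimp only; rw [vz x (by omega), smul_zero]⟩
  map_add' x y := Subtype.ext (by
    funext s k
    exact smul_add _ _ _)
  map_smul' c x := Subtype.ext (by
    funext s k
    exact smul_comm _ _ _)

lemma opH_apply (x : Vs rk A) (s : S) (k : ℕ) :
    (opH x).1 s k = (2 * (k : ℚ) - rk s) • x.1 s k := rfl

/-- The componentwise operators. -/
def ptw (φ : ∀ s, Module.End ℚ (A s)) : Module.End ℚ (Vs rk A) where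
  toFun x := ⟨fun s k => φ s (x.1 s k), fun s k hk => by dsimp only; rw [vz x (by omega), map_zero]⟩
  map_add' x y := Subtype.ext (by
    funext s k
    exact map_add _ _ _)
  map_smul' c x := Subtype.ext (by
    funext s k
    exact map_smul _ _ _)

lemma ptw_apply (φ : ∀ s, Module.End ℚ (A s)) (x : Vs rk A) (s : S) (k : ℕ) :
    (ptw φ x).1 s k = φ s (x.1 s k) := rfl

lemma ptw_mul (φ ψ : ∀ s, Module.End ℚ (A s)) :
    ptw (rk := rk) φ * ptw ψ = ptw fun s => φ s * ψ s := rfl

variable (R : ∀ s u, A u →ₗ[ℚ] A s) (G : ∀ s u, A s →ₗ[ℚ] A u)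

/-- The differential. -/
def opd : Module.End ℚ (Vs rk A) where
  toFun x := ⟨fun s k => if k ≤ rk s then (if 1 ≤ k then ∑ u, R s u (x.1 u (k - 1)) else 0) +
    ∑ u, G u s (x.1 u k) else 0, fun s k hk => if_neg (by omega)⟩
  map_add' x y := Subtype.ext (by
    funext s k
    change (if k ≤ rk s then (if 1 ≤ k then ∑ u, R s u (x.1 u (k - 1) + y.1 u (k - 1)) else 0) +
      ∑ u, G u s (x.1 u k + y.1 u k) else 0) = _ + _
    dsimp only
    split_ifs
    · simp only [map_add, Finset.sum_add_distrib]; abel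
    · simp only [map_add, Finset.sum_add_distrib]; abel
    · rw [add_zero])
  map_smul' c x := Subtype.ext (by
    funext s k
    change (if k ≤ rk s then (if 1 ≤ k then ∑ u, R s u (c • x.1 u (k - 1)) else 0) +
      ∑ u, G u s (c • x.1 u k) else 0) = c • (if _ then _ else _)
    split_ifs
    · simp only [map_smul, Finset.smul_sum, smul_add]
    · simp only [map_smul, Finset.smul_sum, smul_add, smul_zero]
    · rw [smul_zero])

lemma opd_apply (x : Vs rk A) (s : S) (k : ℕ) :
    (opd R G x).1 s k = if k ≤ rk s then (if 1 ≤ k then ∑ u, R s u (x.1 u (k - 1)) else 0) +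
      ∑ u, G u s (x.1 u k) else 0 := rfl

variable (q : ∀ s, A s →ₗ[ℚ] A s →ₗ[ℚ] ℚ)

/-- The coefficients of the form. -/
def cf (p k : ℕ) : ℚ := (k.factorial : ℚ) / ((p - k).factorial : ℚ)

/-- The form. -/
def opQ : Vs rk A →ₗ[ℚ] Vs rk A →ₗ[ℚ] ℚ :=
  LinearMap.mk₂ ℚ (fun x y => ∑ s, ∑ k ∈ range (rk s + 1), cf (rk s) k * q s (x.1 s k) (y.1 s k))
    (fun x x' y => by
      rw [← Finset.sum_add_distrib]
      refine Finset.sum_congr rfl fun s _ => ?_
      rw [← Finset.sum_add_distrib]
      refine Finset.sum_congr rfl fun k _ => ?_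
      change cf _ _ * q s (x.1 s k + x'.1 s k) _ = _
      rw [map_add, LinearMap.add_apply, mul_add])
    (fun c x y => by
      rw [Finset.smul_sum]
      refine Finset.sum_congr rfl fun s _ => ?_
      rw [Finset.smul_sum]
      refine Finset.sum_congr rfl fun k _ => ?_
      change cf _ _ * q s (c • x.1 s k) _ = _
      rw [map_smul, LinearMap.smul_apply, smul_eq_mul, smul_eq_mul]
      ring)
    (fun x y y' => by
      rw [← Finset.sum_add_distrib]
      refine Finset.sum_congr rfl fun s _ => ?_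
      rw [← Finset.sum_add_distrib]
      refine Finset.sum_congr rfl fun k _ => ?_
      change cf _ _ * q s _ (y.1 s k + y'.1 s k) = _
      rw [map_add, mul_add])
    (fun c x y => by
      rw [Finset.smul_sum]
      refine Finset.sum_congr rfl fun s _ => ?_
      rw [Finset.smul_sum]
      refine Finset.sum_congr rfl fun k _ => ?_
      change cf _ _ * q s _ (c • y.1 s k) = _
      rw [map_smul, smul_eq_mul, smul_eq_mul]
      ring)

lemma opQ_apply (x y : Vs rk A) : opQ q x y =
    ∑ s, ∑ k ∈ range (rk s + 1), cf (rk s) k * q s (x.1 s k) (y.1 s k) := rfl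

end Ops

lemma cf_pos (p k : ℕ) : 0 < cf p k := by
  rw [cf]; positivity

lemma cf_succ {p k : ℕ} (hk : k ≤ p) : cf (p + 1) (k + 1) = cf p k * (k + 1) := by
  rw [cf, cf, Nat.factorial_succ, show p + 1 - (k + 1) = p - k by omega]
  push_cast
  ring

lemma cf_succ' {p k : ℕ} (hk : k ≤ p) : cf p k = cf (p + 1) k * ((p + 1 : ℚ) - k) := by
  rw [cf, cf, show p + 1 - k = (p - k) + 1 by omega, Nat.factorial_succ]
  have h1 : ((p - k + 1 : ℕ) : ℚ) = (p + 1 : ℚ) - k := by
    push_cast [Nat.cast_sub hk]; ring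
  have h2 : ((p - k).factorial : ℚ) ≠ 0 := by positivity
  have h3 : ((p - k + 1 : ℕ) : ℚ) ≠ 0 := by positivity
  rw [← h1]
  push_cast at h3 ⊢
  field_simp

namespace Lad

variable {rk : S → ℕ} {A : S → Type v} [∀ s, AddCommGroup (A s)] [∀ s, Module ℚ (A s)]
  {h L Λ : ∀ s, Module.End ℚ (A s)} {R : ∀ s u, A u →ₗ[ℚ] A s} {G : ∀ s u, A s →ₗ[ℚ] A u}
  {q : ∀ s, A s →ₗ[ℚ] A s →ₗ[ℚ] ℚ}

lemma two_end {B : Type*} [AddCommGroup B] [Module ℚ B] (φ : Module.End ℚ B) :
    (2 : Module.End ℚ B) * φ = φ + φ := two_mul φ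

/-- The triple of the monodromy operator. -/
lemma sl2N : Sl2 (opH : Module.End ℚ (Vs rk A)) opN opM where
  ef := by
    apply LinearMap.ext
    intro x
    apply Vs.ext
    intro s k hk
    change (opN (opM x)).1 s k - (opM (opN x)).1 s k = (opH x).1 s k
    rw [opN_apply, opM_apply, opM_apply, opN_apply, opH_apply]
    rcases Nat.eq_zero_or_pos k with rfl | h0
    · rw [if_neg (by omega)]
      by_cases h1 : 1 ≤ rk s
      · rw [if_pos (by omega)]
        simp only [Nat.cast_zero, zero_add, Nat.sub_self, zero_sub, mul_zero, sub_zero, one_mul]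
        rw [neg_smul]
      · have : rk s = 0 := by omega
        rw [this]
        simp
    · rw [if_pos (by omega)]
      obtain ⟨j, rfl⟩ : ∃ j, k = j + 1 := ⟨k - 1, by omega⟩
      simp only [Nat.add_sub_cancel]
      by_cases h1 : j + 1 + 1 ≤ rk s
      · rw [if_pos (by omega), ← sub_smul]
        congr 1
        push_cast
        ring
      · rw [if_neg (by omega), smul_zero, sub_zero]
        have : rk s = j + 1 := by omega
        rw [this]
        congr 1
        push_cast
        ring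
  he := by
    rw [two_end]
    apply LinearMap.ext
    intro x
    apply Vs.ext
    intro s k hk
    change (opH (opN x)).1 s k - (opN (opH x)).1 s k = (opN x).1 s k + (opN x).1 s k
    rw [opN_apply, opH_apply, opH_apply, opN_apply]
    by_cases h0 : 1 ≤ k
    · rw [if_pos ⟨h0, hk⟩, if_pos ⟨h0, hk⟩]
      obtain ⟨j, rfl⟩ : ∃ j, k = j + 1 := ⟨k - 1, by omega⟩
      rw [Nat.add_sub_cancel, ← sub_smul, ← two_smul ℚ]
      congr 1
      push_cast
      ring
    · rw [if_neg (by omega), if_neg (by omega)]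
      simp
  hf := by
    rw [two_end]
    apply LinearMap.ext
    intro x
    apply Vs.ext
    intro s k hk
    change (opH (opM x)).1 s k - (opM (opH x)).1 s k = -((opM x).1 s k + (opM x).1 s k)
    rw [opM_apply, opH_apply, opH_apply, opM_apply, smul_smul, smul_smul, ← sub_smul,
      ← two_smul ℚ, ← neg_smul, smul_smul]
    congr 1
    push_cast
    ring

variable (t : Lad rk A h L Λ R G q)

include t

lemma sl2L : Sl2 (ptw (rk := rk) h) (ptw L) (ptw Λ) where
  ef := by
    apply LinearMap.ext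
    intro x
    apply Vs.ext
    intro s k _
    exact congrArg (fun F => F (x.1 s k)) (t.sl2 s).ef
  he := by
    rw [two_end]
    apply LinearMap.ext
    intro x
    apply Vs.ext
    intro s k _
    have := (t.sl2 s).he
    rw [two_end] at this
    exact congrArg (fun F => F (x.1 s k)) this
  hf := by
    rw [two_end]
    apply LinearMap.ext
    intro x
    apply Vs.ext
    intro s k _
    have := (t.sl2 s).hf
    rw [two_end] at this
    exact congrArg (fun F => F (x.1 s k)) this

omit t in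
lemma com_N (φ : ∀ s, Module.End ℚ (A s)) : Commute (ptw (rk := rk) φ) opN := by
  apply LinearMap.ext
  intro x
  apply Vs.ext
  intro s k _
  change (ptw φ (opN x)).1 s k = (opN (ptw φ x)).1 s k
  rw [ptw_apply, opN_apply, opN_apply, ptw_apply]
  split_ifs
  · rfl
  · rw [map_zero]

omit t in
lemma com_M (φ : ∀ s, Module.End ℚ (A s)) : Commute (ptw (rk := rk) φ) opM := by
  apply LinearMap.ext
  intro x
  apply Vs.ext
  intro s k _
  change (ptw φ (opM x)).1 s k = (opM (ptw φ x)).1 s k
  rw [ptw_apply, opM_apply, opM_apply, ptw_apply, map_smul]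

omit t in
lemma com_H (φ : ∀ s, Module.End ℚ (A s)) : Commute (ptw (rk := rk) φ) opH := by
  apply LinearMap.ext
  intro x
  apply Vs.ext
  intro s k _
  change (ptw φ (opH x)).1 s k = (opH (ptw φ x)).1 s k
  rw [ptw_apply, opH_apply, opH_apply, ptw_apply, map_smul]

/-- The restrictions of the values of a function. -/
lemma R_congr {s : S} {f g : ∀ u, A u} (hfg : ∀ u, rk s = rk u + 1 → f u = g u) :
    ∑ u, R s u (f u) = ∑ u, R s u (g u) := by
  refine Finset.sum_congr rfl fun u _ => ?_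
  by_cases h1 : rk s = rk u + 1
  · rw [hfg u h1]
  · rw [t.R_rk s u h1, t.R_rk s u h1]

lemma G_congr {s : S} {f g : ∀ u, A u} (hfg : ∀ u, rk u = rk s + 1 → f u = g u) :
    ∑ u, G u s (f u) = ∑ u, G u s (g u) := by
  refine Finset.sum_congr rfl fun u _ => ?_
  by_cases h1 : rk u = rk s + 1
  · rw [hfg u h1]
  · rw [t.G_rk u s h1, t.G_rk u s h1]

lemma d_sq : opd R G * opd R G = (0 : Module.End ℚ (Vs rk A)) := by
  apply LinearMap.ext
  intro x
  apply Vs.ext
  intro s k hk
  change (opd R G (opd R G x)).1 s k = 0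
  rw [opd_apply, if_pos hk]
  have h1 : ∑ u, G u s ((opd R G x).1 u k) =
      (if 1 ≤ k then ∑ v, ∑ u, G u s (R u v (x.1 v (k - 1))) else 0) := by
    rw [t.G_congr (g := fun u => (if 1 ≤ k then ∑ v, R u v (x.1 v (k - 1)) else 0) +
      ∑ v, G v u (x.1 v k)) (fun u hu => by rw [opd_apply, if_pos (by omega)])]
    simp only [map_add, Finset.sum_add_distrib, map_sum]
    rw [Finset.sum_comm (f := fun u v => G u s (G v u (x.1 v k)))]
    rw [Finset.sum_eq_zero (fun v _ => t.G_G v s _), add_zero]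
    split_ifs
    · simp only [map_sum]
      exact Finset.sum_comm
    · simp
  rw [h1]
  by_cases h2 : 1 ≤ k
  · rw [if_pos h2, if_pos h2]
    rw [t.R_congr (g := fun u => (if 1 ≤ k - 1 then ∑ v, R u v (x.1 v (k - 1 - 1)) else 0) +
      ∑ v, G v u (x.1 v (k - 1))) (fun u hu => by rw [opd_apply, if_pos (by omega)])]
    simp only [map_add, Finset.sum_add_distrib, map_sum]
    have h3 : ∑ u, R s u (if 1 ≤ k - 1 then ∑ v, R u v (x.1 v (k - 1 - 1)) else 0) = 0 := by
      by_cases h4 : 1 ≤ k - 1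
      · simp only [if_pos h4, map_sum]
        rw [Finset.sum_comm]
        exact Finset.sum_eq_zero (fun v _ => t.R_R s v _)
      · simp [if_neg h4]
    rw [h3, zero_add, Finset.sum_comm, ← Finset.sum_add_distrib]
    refine Finset.sum_eq_zero fun v _ => ?_
    by_cases h5 : rk s = rk v
    · exact t.R_G s v (by omega) h5 _
    · have e1 : ∑ u, R s u (G v u (x.1 v (k - 1))) = 0 := by
        refine Finset.sum_eq_zero fun u _ => ?_
        by_cases h6 : rk s = rk u + 1
        · rw [t.G_rk v u (by omega), map_zero]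
        · rw [t.R_rk s u h6]
      have e2 : ∑ u, G u s (R u v (x.1 v (k - 1))) = 0 := by
        refine Finset.sum_eq_zero fun u _ => ?_
        by_cases h6 : rk u = rk s + 1
        · rw [t.R_rk u v (by omega), map_zero]
        · rw [t.G_rk u s h6]
      rw [e1, e2, add_zero]
  · rw [if_neg h2, if_neg h2, add_zero]

lemma L_d : ptw L * opd R G = opd (rk := rk) R G * ptw L := by
  apply LinearMap.ext
  intro x
  apply Vs.ext
  intro s k hk
  change (ptw L (opd R G x)).1 s k = (opd R G (ptw L x)).1 s k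
  rw [ptw_apply, opd_apply, opd_apply, if_pos hk, if_pos hk, map_add, map_sum]
  simp only [ptw_apply, t.G_L]
  congr 1
  split_ifs
  · rw [map_sum]
    exact Finset.sum_congr rfl fun u _ => t.R_L _ _ _
  · rw [map_zero]

lemma N_d : opN * opd R G = opd (rk := rk) R G * opN := by
  apply LinearMap.ext
  intro x
  apply Vs.ext
  intro s k hk
  change (opN (opd R G x)).1 s k = (opd R G (opN x)).1 s k
  rw [opN_apply, opd_apply, opd_apply, if_pos hk]
  by_cases h1 : 1 ≤ k
  · rw [if_pos ⟨h1, hk⟩, if_pos (by omega), if_pos h1]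
    congr 1
    · by_cases h2 : 1 ≤ k - 1
      · rw [if_pos h2]
        refine t.R_congr fun u hu => ?_
        rw [opN_apply, if_pos (by omega)]
      · rw [if_neg h2]
        symm
        refine Finset.sum_eq_zero fun u _ => ?_
        rw [opN_apply, if_neg (by omega), map_zero]
    · refine t.G_congr fun u hu => ?_
      rw [opN_apply, if_pos (by omega)]
  · rw [if_neg (by omega), if_neg h1, zero_add]
    symm
    refine Finset.sum_eq_zero fun u _ => ?_
    rw [opN_apply, if_neg (by omega), map_zero]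

lemma h_d : ptw h * opd R G - opd (rk := rk) R G * ptw h = opd R G := by
  apply LinearMap.ext
  intro x
  apply Vs.ext
  intro s k hk
  change (ptw h (opd R G x)).1 s k - (opd R G (ptw h x)).1 s k = (opd R G x).1 s k
  rw [ptw_apply, opd_apply, opd_apply, if_pos hk, if_pos hk, map_add, map_sum]
  simp only [ptw_apply, t.G_h, Finset.sum_add_distrib]
  split_ifs
  · rw [map_sum]
    simp only [t.R_h, Finset.sum_add_distrib]
    abel
  · rw [map_zero]
    abel

lemma H_d : opH * opd R G - opd (rk := rk) R G * opH = opd R G := by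
  apply LinearMap.ext
  intro x
  apply Vs.ext
  intro s k hk
  change (opH (opd R G x)).1 s k - (opd R G (opH x)).1 s k = (opd R G x).1 s k
  rw [opH_apply, opd_apply, opd_apply, if_pos hk, if_pos hk]
  have h1 : ∑ u, G u s ((opH x).1 u k) =
      (2 * (k : ℚ) - rk s - 1) • ∑ u, G u s (x.1 u k) := by
    rw [Finset.smul_sum]
    rw [t.G_congr (g := fun u => (2 * (k : ℚ) - rk s - 1) • x.1 u k) (fun u hu => by
      rw [opH_apply, hu]; congr 1; push_cast; ring)]
    simp only [map_smul]
  rw [h1]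
  by_cases h2 : 1 ≤ k
  · rw [if_pos h2, if_pos h2]
    have h3 : ∑ u, R s u ((opH x).1 u (k - 1)) =
        (2 * (k : ℚ) - rk s - 1) • ∑ u, R s u (x.1 u (k - 1)) := by
      rw [Finset.smul_sum]
      rw [t.R_congr (g := fun u => (2 * (k : ℚ) - rk s - 1) • x.1 u (k - 1)) (fun u hu => by
        rw [opH_apply, hu]; congr 1; push_cast [Nat.cast_sub h2]; ring)]
      simp only [map_smul]
    rw [h3, ← smul_add, ← sub_smul]
    rw [show (2 * (k : ℚ) - rk s) - (2 * (k : ℚ) - rk s - 1) = 1 by ring, one_smul]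
  · rw [if_neg h2, if_neg h2, zero_add, zero_add, ← sub_smul]
    rw [show (2 * (k : ℚ) - rk s) - (2 * (k : ℚ) - rk s - 1) = 1 by ring, one_smul]

/-- The commutator of the lowering operator and the differential. -/
def opD1 (rk : S → ℕ) (R : ∀ s u, A u →ₗ[ℚ] A s) (G : ∀ s u, A s →ₗ[ℚ] A u) :
    Module.End ℚ (Vs rk A) := opM * opd R G - opd R G * opM

/-- The formula for this commutator. -/
lemma D1_apply (x : Vs rk A) (s : S) (k : ℕ) (hk : k ≤ rk s) :
    (opD1 rk R G x).1 s k =
      ((rk s : ℚ) - k) • ∑ u, R s u (x.1 u k) - ((k : ℚ) + 1) • ∑ u, G u s (x.1 u (k + 1)) := by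
  change (opM (opd R G x)).1 s k - (opd R G (opM x)).1 s k = _
  rw [opM_apply, opd_apply, opd_apply, if_pos hk, if_pos (by omega : 1 ≤ k + 1),
    Nat.add_sub_cancel]
  have h1 : ∑ u, G u s ((opM x).1 u k) =
      (((k : ℚ) + 1) * ((rk s : ℚ) + 1 - k)) • ∑ u, G u s (x.1 u (k + 1)) := by
    rw [Finset.smul_sum]
    rw [t.G_congr (g := fun u => (((k : ℚ) + 1) * ((rk s : ℚ) + 1 - k)) • x.1 u (k + 1))
      (fun u hu => by rw [opM_apply, hu]; congr 1; push_cast; ring)]
    simp only [map_smul]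
  have h2 : (if 1 ≤ k then ∑ u, R s u ((opM x).1 u (k - 1)) else 0) =
      ((k : ℚ) * ((rk s : ℚ) - k)) • ∑ u, R s u (x.1 u k) := by
    by_cases h3 : 1 ≤ k
    · rw [if_pos h3, Finset.smul_sum]
      rw [t.R_congr (g := fun u => ((k : ℚ) * ((rk s : ℚ) - k)) • x.1 u k)
        (fun u hu => by
          rw [opM_apply, hu, show k - 1 + 1 = k by omega]
          congr 1; push_cast [Nat.cast_sub h3]; ring)]
      simp only [map_smul]
    · have : k = 0 := by omega
      rw [if_neg h3, this]
      simp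
  rw [h1, h2]
  by_cases h4 : k + 1 ≤ rk s
  · rw [if_pos h4, smul_add]
    module
  · have h5 : (rk s : ℚ) = k := by
      have : rk s = k := by omega
      rw [this]
    rw [if_neg h4, h5]
    module

/-- The adjoint differential. -/
def opds (rk : S → ℕ) (Λ : ∀ s, Module.End ℚ (A s)) (R : ∀ s u, A u →ₗ[ℚ] A s)
    (G : ∀ s u, A s →ₗ[ℚ] A u) : Module.End ℚ (Vs rk A) :=
  -(ptw Λ * (opM * opd R G - opd R G * opM) - (opM * opd R G - opd R G * opM) * ptw Λ)

lemma ds_apply (x : Vs rk A) (s : S) (k : ℕ) (hk : k ≤ rk s) :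
    (opds rk Λ R G x).1 s k =
      ((k : ℚ) + 1) • ∑ u, (Λ s (G u s (x.1 u (k + 1))) - G u s (Λ u (x.1 u (k + 1)))) -
      ((rk s : ℚ) - k) • ∑ u, (Λ s (R s u (x.1 u k)) - R s u (Λ u (x.1 u k))) := by
  change -(Λ s ((opD1 rk R G x).1 s k) - (opD1 rk R G (ptw Λ x)).1 s k) = _
  rw [t.D1_apply _ _ _ hk, t.D1_apply _ _ _ hk]
  simp only [ptw_apply, map_sub, map_smul, map_sum, Finset.sum_sub_distrib]
  module

end Lad

end Pool.Agent.K9h28
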