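import Pool.Agent.K9h28.GnC

/-!
# The complex of the strata: the adjoint and the sign
-/

set_option autoImplicit false
set_option linter.unusedSectionVars false

open Finset
open IsNilpotent (exp exp_eq_sum)

universe v

namespace Pool.Agent.K9h28

open Pool.Agent.H914

variable {S : Type} [Fintype S]

namespace Lad

variable {rk : S → ℕ} {A : S → Type v} [∀ s, AddCommGroup (A s)] [∀ s, Module ℚ (A s)]
  {h L Λ : ∀ s, Module.End ℚ (A s)} {R : ∀ s u, A u →ₗ[ℚ] A s} {G : ∀ s u, A s →ₗ[ℚ] A u}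
  {q : ∀ s, A s →ₗ[ℚ] A s →ₗ[ℚ] ℚ} (t : Lad rk A h L Λ R G q)

include t

lemma adj_R (x : ∀ u, ℕ → A u) (y : ∀ u, ℕ → A u) (s u : S) :
    ∑ k ∈ range (rk s + 1), (if 1 ≤ k then cf (rk s) k * q s (R s u (x u (k - 1))) (y s k)
      else 0) =
    ∑ k ∈ range (rk u + 1), cf (rk u) k * (((k : ℚ) + 1) *
      q s (R s u (x u k)) (y s (k + 1))) := by
  by_cases h1 : rk s = rk u + 1
  · rw [h1, Finset.sum_range_succ', if_neg (by omega), add_zero]
    refine Finset.sum_congr rfl fun k hk => ?_
    rw [if_pos (by omega), Nat.add_sub_cancel, cf_succ (by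
      have := Finset.mem_range.1 hk
      omega)]
    ring
  · simp only [t.R_rk s u h1]
    simp

lemma adj_G (x : ∀ u, ℕ → A u) (y : ∀ u, ℕ → A u) (s u : S) :
    ∑ k ∈ range (rk s + 1), cf (rk s) k * q s (G u s (x u k)) (y s k) =
    ∑ k ∈ range (rk u + 1), cf (rk u) k * (((rk u : ℚ) - k) *
      q s (G u s (x u k)) (y s k)) := by
  by_cases h1 : rk u = rk s + 1
  · rw [h1, Finset.sum_range_succ _ (rk s + 1)]
    have h2 : ((rk s + 1 : ℕ) : ℚ) - ((rk s + 1 : ℕ) : ℚ) = 0 := sub_self _
    rw [h2, zero_mul, mul_zero, add_zero]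
    refine Finset.sum_congr rfl fun k hk => ?_
    rw [cf_succ' (p := rk s) (k := k) (by
      have := Finset.mem_range.1 hk
      omega)]
    push_cast
    ring
  · simp only [t.G_rk u s h1]
    simp

/-- The adjointness. -/
lemma adj (x y : Vs rk A) : opQ q (opd R G x) y = opQ q x (opds rk Λ R G y) := by
  have e1 : opQ q (opd R G x) y = ∑ s, ∑ u, (∑ k ∈ range (rk s + 1),
      (if 1 ≤ k then cf (rk s) k * q s (R s u (x.1 u (k - 1))) (y.1 s k) else 0) +
      ∑ k ∈ range (rk s + 1), cf (rk s) k * q s (G u s (x.1 u k)) (y.1 s k)) := by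
    rw [opQ_apply]
    refine Finset.sum_congr rfl fun s _ => ?_
    rw [Finset.sum_add_distrib]
    rw [Finset.sum_comm (s := univ), Finset.sum_comm (s := univ), ← Finset.sum_add_distrib]
    refine Finset.sum_congr rfl fun k hk => ?_
    rw [opd_apply, if_pos (by have := Finset.mem_range.1 hk; omega), map_add,
      LinearMap.add_apply, mul_add]
    congr 1
    · split_ifs
      · rw [map_sum, LinearMap.sum_apply, Finset.mul_sum]
      · simp
    · rw [map_sum, LinearMap.sum_apply, Finset.mul_sum]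
  have e2 : opQ q x (opds rk Λ R G y) = ∑ u, ∑ s, (∑ k ∈ range (rk u + 1), cf (rk u) k *
      (((k : ℚ) + 1) * q s (R s u (x.1 u k)) (y.1 s (k + 1))) +
      ∑ k ∈ range (rk u + 1), cf (rk u) k * (((rk u : ℚ) - k) *
      q s (G u s (x.1 u k)) (y.1 s k))) := by
    rw [opQ_apply]
    refine Finset.sum_congr rfl fun u _ => ?_
    rw [Finset.sum_add_distrib]
    rw [Finset.sum_comm (s := univ), Finset.sum_comm (s := univ), ← Finset.sum_add_distrib]
    refine Finset.sum_congr rfl fun k hk => ?_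
    rw [t.ds_apply _ _ _ (by have := Finset.mem_range.1 hk; omega), map_sub, map_smul, map_smul,
      map_sum, map_sum, mul_sub, smul_eq_mul, smul_eq_mul, Finset.mul_sum, Finset.mul_sum,
      Finset.mul_sum, Finset.mul_sum, sub_eq_add_neg, ← Finset.sum_neg_distrib]
    congr 1
    · refine Finset.sum_congr rfl fun s _ => ?_
      rw [t.adjR]
    · refine Finset.sum_congr rfl fun s _ => ?_
      have := t.adjG u s (x.1 u k) (y.1 s k)
      rw [this]
      ring
  rw [e1, e2, Finset.sum_comm]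
  refine Finset.sum_congr rfl fun u _ => Finset.sum_congr rfl fun s _ => ?_
  rw [t.adj_R x.1 y.1 s u, t.adj_G x.1 y.1 s u]

/-- The harmonic theory for the strata. -/
lemma harm : Harm (opQ q) (ptw (rk := rk) h) (ptw L) (ptw Λ) opH opN opM (opd R G)
    (opds rk Λ R G) where
  symm x y := by
    rw [opQ_apply, opQ_apply]
    refine Finset.sum_congr rfl fun s _ => Finset.sum_congr rfl fun k _ => ?_
    rw [t.symm]
  pos x hx := by
    rw [opQ_apply]
    have hnn : ∀ s (a : A s), 0 ≤ q s a a := by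
      intro s a
      by_cases ha : a = 0
      · rw [ha]; simp
      · exact (t.pos s a ha).le
    have h1 : ∃ s k, k ≤ rk s ∧ x.1 s k ≠ 0 := by
      by_contra h0
      push Not at h0
      exact hx (Vs.ext fun s k hk => h0 s k hk)
    obtain ⟨s, k, hk, hsk⟩ := h1
    refine Finset.sum_pos' (fun s _ => Finset.sum_nonneg fun k _ =>
      mul_nonneg (cf_pos _ _).le (hnn _ _)) ⟨s, Finset.mem_univ _, ?_⟩
    exact Finset.sum_pos' (fun k _ => mul_nonneg (cf_pos _ _).le (hnn _ _))
      ⟨k, Finset.mem_range.2 (by omega), mul_pos (cf_pos _ _) (t.pos _ _ hsk)⟩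
  tL := t.sl2L
  tN := sl2N
  LN := com_N _
  LM := com_M _
  LH := com_H _
  ΛN := com_N _
  ΛM := com_M _
  ΛH := com_H _
  hM := com_M _
  d_sq := t.d_sq
  Ld := t.L_d
  Nd := t.N_d
  hd := t.h_d
  Hd := t.H_d
  ds_eq := rfl
  adj := t.adj

/-- The cochain given by a function on the strata of rank zero. -/
def inc (rk : S → ℕ) (z : ∀ s, A s) : Vs rk A :=
  ⟨fun s k => if rk s = 0 ∧ k = 0 then z s else 0, fun s k hk => if_neg (by omega)⟩

omit t in
lemma inc_apply (z : ∀ s, A s) (s : S) (k : ℕ) :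
    (inc rk z).1 s k = if rk s = 0 ∧ k = 0 then z s else 0 := rfl

omit t in
lemma ptw_inc (φ : ∀ s, Module.End ℚ (A s)) (z : ∀ s, A s) :
    ptw φ (inc rk z) = inc rk fun s => φ s (z s) := by
  apply Vs.ext
  intro s k _
  rw [ptw_apply, inc_apply, inc_apply]
  split_ifs
  · rfl
  · rw [map_zero]

omit t in
lemma ptw_pow_inc (φ : ∀ s, Module.End ℚ (A s)) (n : ℕ) (z : ∀ s, A s) :
    ((ptw φ) ^ n) (inc rk z) = inc rk fun s => (φ s ^ n) (z s) := by
  induction n with
  | zero => rfl
  | succ n ih =>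
    rw [pow_succ', Module.End.mul_apply, ih, ptw_inc]
    congr 1
    funext s
    rw [pow_succ', Module.End.mul_apply]

omit t in
lemma opN_inc (z : ∀ s, A s) : opN (inc rk z) = 0 := by
  apply Vs.ext
  intro s k _
  rw [opN_apply]
  split_ifs
  · rw [inc_apply, if_neg (by omega)]; rfl
  · rfl

omit t in
lemma opH_inc (z : ∀ s, A s) : opH (inc rk z) = 0 := by
  apply Vs.ext
  intro s k _
  rw [opH_apply, inc_apply]
  split_ifs with h1
  · rw [h1.1, h1.2]
    simp
  · rw [smul_zero]; rfl

/-- The values of the form. -/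
lemma Q_inc [∀ s, Module.Finite ℚ (A s)] (z : ∀ s, A s) (u : Vs rk A) :
    opQ q (inc rk z) ((weyl (ptw (rk := rk) L) (ptw Λ) * weyl opN opM : Module.End ℚ _) u) =
      ∑ s, if rk s = 0 then q s (z s) ((weyl (L s) (Λ s)) (u.1 s 0)) else 0 := by
  rw [opQ_apply]
  refine Finset.sum_congr rfl fun s _ => ?_
  by_cases h0 : rk s = 0
  · rw [if_pos h0, Finset.sum_eq_single 0]
    · rw [inc_apply, if_pos ⟨h0, rfl⟩, h0]
      have hcf : cf 0 0 = 1 := by simp [cf]
      rw [hcf, one_mul]
      congr 1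
      let T : Vs rk A →ₗ[ℚ] A s :=
        { toFun := fun x => x.1 s 0
          map_add' := fun _ _ => rfl
          map_smul' := fun _ _ => rfl }
      have e1 := weyl_inter (T := T) (e' := L s) (f' := Λ s) t.sl2L.nil_e t.sl2L.nil_f
        (t.sl2 s).nil_e (t.sl2 s).nil_f (fun x => rfl) (fun x => rfl) ((weyl opN opM) u)
      have tN : Sl2 (opH : Module.End ℚ (Vs rk A)) opN opM := sl2N
      have e2 := weyl_inter (T := T) (e' := 0) (f' := 0) tN.nil_e tN.nil_f
        IsNilpotent.zero IsNilpotent.zero (fun x => by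
          change (opN x).1 s 0 = 0
          rw [opN_apply, if_neg (by omega)])
        (fun x => by
          change (opM x).1 s 0 = 0
          rw [opM_apply, h0]; simp) u
      have e3 : weyl (0 : Module.End ℚ (A s)) 0 = 1 := by
        rw [weyl, neg_zero]
        simp
      change T ((weyl (ptw L) (ptw Λ)) ((weyl opN opM) u)) = _
      rw [e1, e2, e3]
      rfl
    · intro k _ hk
      rw [inc_apply, if_neg (by omega), map_zero, LinearMap.zero_apply, mul_zero]
    · intro h1; exact absurd (Finset.mem_range.2 (by omega)) h1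
  · rw [if_neg h0]
    refine Finset.sum_eq_zero fun k _ => ?_
    rw [inc_apply, if_neg (by omega), map_zero, LinearMap.zero_apply, mul_zero]

/-- Cochains of rank zero which agree on the strata of rank one are closed. -/
lemma opd_inc {z : ∀ s, A s} (hz : ∀ s, rk s = 1 → ∑ u, R s u (z u) = 0) :
    opd R G (inc rk z) = 0 := by
  apply Vs.ext
  intro s k hk
  rw [opd_apply, if_pos hk]
  have e1 : ∑ u, G u s ((inc rk z).1 u k) = 0 := by
    rw [t.G_congr (g := fun _ => 0) (fun u hu => by rw [inc_apply, if_neg (by omega)])]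
    simp
  rw [e1, add_zero]
  split_ifs with h2
  · by_cases h3 : k = 1
    · subst h3
      by_cases h4 : rk s = 1
      · have := hz s h4
        rw [t.R_congr (g := z) (fun u hu => by rw [inc_apply, if_pos (by omega)]), this]
        rfl
      · rw [t.R_congr (g := fun _ => 0) (fun u hu => by
          rw [inc_apply, if_neg (by omega)])]
        simp
    · rw [t.R_congr (g := fun _ => 0) (fun u hu => by
          rw [inc_apply, if_neg (by omega)])]
      simp
  · rfl

/-- **The sign.** -/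
theorem sign [∀ s, Module.Finite ℚ (A s)] {z : ∀ s, A s} {m : ℕ}
    (hz : ∀ s, rk s = 1 → ∑ u, R s u (z u) = 0)
    (hh : ∀ s, rk s = 0 → h s (z s) = -(m : ℚ) • z s)
    (horth : ∀ u, opd R G u = 0 → (∑ s, if rk s = 0 then
      q s ((L s ^ (m + 1)) (z s)) ((weyl (L s) (Λ s)) ((u : Vs rk A).1 s 0)) else 0) = 0)
    (hne : ∀ y, inc rk z ≠ opd R G y) :
    0 < (-1) ^ m * ∑ s, if rk s = 0 then
      q s (z s) ((weyl (L s) (Λ s)) ((L s ^ m) (z s))) else 0 := by
  have h1 := t.harm.sign (z := inc rk z) (m := m) (t.opd_inc hz) (opN_inc z) (opH_inc z)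
    ?_ ?_ hne
  · rw [ptw_pow_inc, t.Q_inc] at h1
    refine lt_of_lt_of_eq h1 ?_
    congr 1
    refine Finset.sum_congr rfl fun s _ => ?_
    split_ifs with h2
    · rw [inc_apply, if_pos ⟨h2, rfl⟩]
    · rfl
  · rw [ptw_inc]
    apply Vs.ext
    intro s k _
    change (inc rk _).1 s k = -(m : ℚ) • (inc rk z).1 s k
    rw [inc_apply, inc_apply]
    split_ifs with h2
    · exact hh s h2.1
    · rw [smul_zero]
  · intro u hu
    rw [ptw_pow_inc, t.Q_inc]
    exact horth u hu

end Lad

end Pool.Agent.K9h28
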