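import Pool.Agent.K9h28.GnC2
import Pool.Agent.K9h28.FA

/-!
# The Weyl operators and a divisor
-/

set_option autoImplicit false
set_option linter.unusedSectionVars false

open CategoryTheory AlgebraicGeometry
open IsNilpotent (exp exp_eq_sum)

universe u v

namespace Pool.Agent.K9h28

open Pool.Agent.H914 Pool.Agent.H914.VarClass Pool.Agent.H914.VarClass.Obj
  Pool.Agent.H914.WeilCohomology Pool.Agent.H281R3.HT Pool.Agent.W552

section Pair

variable {K : Type*} [Field K] [CharZero K] {V₁ V₂ : Type*} [AddCommGroup V₁] [Module K V₁]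
  [Module.Finite K V₁] [AddCommGroup V₂] [Module K V₂] [Module.Finite K V₂]
  {h₁ e₁ f₁ : Module.End K V₁} {h₂ e₂ f₂ : Module.End K V₂}

lemma sl2_pair {A B : Type*} [Ring A] [Ring B] {a b c : A} {a' b' c' : B} (t : Sl2 a b c)
    (t' : Sl2 a' b' c') : Sl2 (a, a') (b, b') (c, c') where
  ef := Prod.ext t.ef t'.ef
  he := Prod.ext t.he t'.he
  hf := Prod.ext t.hf t'.hf

lemma wey_prodMap (t₁ : Sl2 h₁ e₁ f₁) (t₂ : Sl2 h₂ e₂ f₂) :
    wey (e₁.prodMap e₂) (f₁.prodMap f₂) = (wey e₁ f₁).prodMap (wey e₂ f₂) := by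
  let _ : Module ℚ (Module.End K V₁) := Module.compHom _ (algebraMap ℚ K)
  let _ : Module ℚ (Module.End K V₂) := Module.compHom _ (algebraMap ℚ K)
  let _ : Module ℚ (Module.End K (V₁ × V₂)) := Module.compHom _ (algebraMap ℚ K)
  have h1 : weyl (e₁, e₂) (f₁, f₂) = (weyl e₁ f₁, weyl e₂ f₂) := by
    have he : IsNilpotent (e₁, e₂) := by
      obtain ⟨n, hn⟩ := t₁.nil_e
      obtain ⟨m, hm⟩ := t₂.nil_e
      refine ⟨n + m, Prod.ext ?_ ?_⟩
      · change e₁ ^ (n + m) = 0
        rw [pow_add, hn, zero_mul]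
      · change e₂ ^ (n + m) = 0
        rw [pow_add, hm, mul_zero]
    have hf : IsNilpotent (f₁, f₂) := by
      obtain ⟨n, hn⟩ := t₁.nil_f
      obtain ⟨m, hm⟩ := t₂.nil_f
      refine ⟨n + m, Prod.ext ?_ ?_⟩
      · change f₁ ^ (n + m) = 0
        rw [pow_add, hn, zero_mul]
      · change f₂ ^ (n + m) = 0
        rw [pow_add, hm, mul_zero]
    apply Prod.ext
    · exact weyl_map (RingHom.fst _ _) he hf
    · exact weyl_map (RingHom.snd _ _) he hf
  have he : IsNilpotent (e₁, e₂) := by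
    obtain ⟨n, hn⟩ := t₁.nil_e
    obtain ⟨m, hm⟩ := t₂.nil_e
    refine ⟨n + m, Prod.ext ?_ ?_⟩
    · change e₁ ^ (n + m) = 0
      rw [pow_add, hn, zero_mul]
    · change e₂ ^ (n + m) = 0
      rw [pow_add, hm, mul_zero]
  have hf : IsNilpotent (f₁, f₂) := by
    obtain ⟨n, hn⟩ := t₁.nil_f
    obtain ⟨m, hm⟩ := t₂.nil_f
    refine ⟨n + m, Prod.ext ?_ ?_⟩
    · change f₁ ^ (n + m) = 0
      rw [pow_add, hn, zero_mul]
    · change f₂ ^ (n + m) = 0
      rw [pow_add, hm, mul_zero]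
  have h2 := weyl_map (LinearMap.prodMapRingHom K V₁ V₂) he hf
  rw [h1] at h2
  exact h2.symm

/-- The Weyl operators and a map of weight one. -/
lemma wey_hom (t₁ : Sl2 h₁ e₁ f₁) (t₂ : Sl2 h₂ e₂ f₂) (ρ : V₁ →ₗ[K] V₂)
    (h1 : ∀ a, e₂ (ρ a) = ρ (e₁ a)) (h2 : ∀ a, h₂ (ρ a) = ρ (h₁ a) + ρ a) (a : V₁) :
    wey e₂ f₂ (ρ a) = -(f₂ (ρ (wey e₁ f₁ a)) - ρ (f₁ (wey e₁ f₁ a))) ∧
    wey e₂ f₂ (f₂ (ρ a) - ρ (f₁ a)) = ρ (wey e₁ f₁ a) := by
  have t : Sl2 (h₁.prodMap h₂) (e₁.prodMap e₂) (f₁.prodMap f₂) :=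
    (sl2_pair t₁ t₂).map (LinearMap.prodMapRingHom K V₁ V₂)
  set X : Module.End K (V₁ × V₂) := LinearMap.inr K V₁ V₂ ∘ₗ ρ ∘ₗ LinearMap.fst K V₁ V₂ with hX
  have hXa : ∀ p : V₁ × V₂, X p = (0, ρ p.1) := fun p => rfl
  have e1 : e₁.prodMap e₂ * X = X * e₁.prodMap e₂ := by
    apply LinearMap.ext
    intro p
    rw [Module.End.mul_apply, Module.End.mul_apply, hXa, hXa]
    exact Prod.ext (map_zero e₁) (h1 p.1)
  have e2 : h₁.prodMap h₂ * X - X * h₁.prodMap h₂ = X := by
    apply LinearMap.ext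
    intro p
    rw [LinearMap.sub_apply, Module.End.mul_apply, Module.End.mul_apply, hXa, hXa]
    apply Prod.ext
    · change h₁ 0 - 0 = 0
      rw [map_zero, sub_zero]
    · change h₂ (ρ p.1) - ρ (h₁ p.1) = ρ p.1
      rw [h2]; abel
  obtain ⟨h3, h4⟩ := wey_one t e1 e2
  rw [wey_prodMap t₁ t₂] at h3 h4
  have h5 := congrArg (fun F => (F (a, 0)).2) h3
  have h6 := congrArg (fun F => (F (a, 0)).2) h4
  constructor
  · change wey e₂ f₂ (ρ a) = -(f₂ (ρ (wey e₁ f₁ a)) - ρ (f₁ (wey e₁ f₁ a))) at h5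
    exact h5
  · change wey e₂ f₂ (f₂ (ρ a) - ρ (f₁ a)) = ρ (wey e₁ f₁ a) at h6
    exact h6

end Pair

variable {k : Type u} [Field k] {𝒱 : VarClass k} {ops : CycleOps 𝒱}
  {W : WeilCohomology.{u, v} ops} {X Z : 𝒱.Obj}

section Div

variable {D : X.Cycles} {E : Z.Cycles} {f : Module.End W.K (W.H X)} {g : Module.End W.K (W.H Z)}
  (F : FA W X D f) (G : FA W Z E g) (i : Z ⟶ X) (hdim : Z.dim + 1 = X.dim)
  (hcl : W.cl Z E = W.map i (W.cl X D))

include hdim in
lemma push_gr {j : ℕ} {a : W.H Z} (ha : a ∈ W.gr Z j) : W.push i a ∈ W.gr X (j + 2) := by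
  have h1 := W.push_mem i ha
  rw [show (j : ℤ) + 2 * ((X.dim : ℤ) - Z.dim) = ((j + 2 : ℕ) : ℤ) by push_cast; omega,
    grZ_natCast] at h1
  exact h1

include F hcl in
lemma push_L (a : W.H Z) : W.cl X D * W.push i a = W.push i (W.cl Z E * a) := by
  rw [hcl]
  exact W.mul_push i (W.cl_mem F.hD) a

include hcl in
lemma map_L (a : W.H X) : W.cl Z E * W.map i a = W.map i (W.cl X D * a) := by
  rw [hcl, map_mul]

include hdim in
lemma push_wt (a : W.H Z) : wt (W.isInternal X) X.dim (W.push i a) =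
    W.push i (wt (W.isInternal Z) Z.dim a) + W.push i a := by
  refine gr_induction (W.isInternal Z) (p := fun a => wt (W.isInternal X) X.dim (W.push i a) =
    W.push i (wt (W.isInternal Z) Z.dim a) + W.push i a) ?_ ?_ a
  · intro j a ha
    rw [Fr.wt_gr (push_gr i hdim ha), Fr.wt_gr ha, map_smul, ← hdim]
    push_cast
    module
  · intro a b ha hb
    simp only [map_add, ha, hb]
    abel

include hdim in
lemma map_wt (a : W.H X) : wt (W.isInternal Z) Z.dim (W.map i a) =
    W.map i (wt (W.isInternal X) X.dim a) + W.map i a := by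
  refine gr_induction (W.isInternal X) (p := fun a => wt (W.isInternal Z) Z.dim (W.map i a) =
    W.map i (wt (W.isInternal X) X.dim a) + W.map i a) ?_ ?_ a
  · intro j a ha
    rw [Fr.wt_gr (W.map_mem i ha), Fr.wt_gr ha, map_smul, ← hdim]
    push_cast
    module
  · intro a b ha hb
    simp only [map_add, ha, hb]
    abel

include F G hdim hcl in
lemma wop_push (a : W.H Z) :
    wop W X D f (f (W.push i a) - W.push i (g a)) = W.push i (wop W Z E g a) :=
  (wey_hom G.sl2 F.sl2 (W.push i) (fun a => push_L F i hcl a) (push_wt i hdim) a).2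

include F G hdim hcl in
lemma wop_map (a : W.H X) :
    wop W Z E g (g (W.map i a) - W.map i (f a)) = W.map i (wop W X D f a) :=
  (wey_hom F.sl2 G.sl2 (W.map i).toLinearMap (fun a => map_L i hcl a) (map_wt i hdim) a).2

include F G hdim hcl in
lemma st_push {y : W.H Z} (hy : AS W Z y) :
    st W X D f (f (W.push i y) - W.push i (g y)) = W.push i (st W Z E g y) := by
  refine AS.ind (p := fun y => st W X D f (f (W.push i y) - W.push i (g y)) =
    W.push i (st W Z E g y)) ?_ ?_ hy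
  · intro c y hy
    have hy' := alg_gr hy
    have h1 : f (W.push i y) ∈ W.gr X (2 * c) := (F.f_gr (push_gr i hdim hy')).1 _ rfl
    have h2 : W.push i (g y) ∈ W.gr X (2 * c) := by
      rcases Nat.eq_zero_or_pos c with rfl | hc
      · rw [(G.f_gr hy').2 (by omega), map_zero]
        exact Submodule.zero_mem _
      · have := push_gr i hdim ((G.f_gr hy').1 (2 * c - 2) (by omega))
        rwa [show 2 * c - 2 + 2 = 2 * c by omega] at this
    rw [st_apply (Submodule.sub_mem _ h1 h2), st_apply hy', wop_push F G i hdim hcl, map_smul]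
  · intro a b ha hb
    simp only [map_add, map_sub] at ha hb ⊢
    rw [← ha, ← hb]
    abel

include F G hdim hcl in
lemma st_map {x : W.H X} (hx : AS W X x) :
    st W Z E g (g (W.map i x) - W.map i (f x)) = -W.map i (st W X D f x) := by
  refine AS.ind (p := fun x => st W Z E g (g (W.map i x) - W.map i (f x)) =
    -W.map i (st W X D f x)) ?_ ?_ hx
  · intro c x hx
    have hx' := alg_gr hx
    rcases Nat.eq_zero_or_pos c with rfl | hc
    · have h1 : g (W.map i x) = 0 := (G.f_gr (W.map_mem i hx')).2 (by omega)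
      have h2 : f x = 0 := (F.f_gr hx').2 (by omega)
      have h3 := wop_map F G i hdim hcl x
      rw [h1, h2, map_zero, sub_zero, map_zero] at h3
      rw [h1, h2, map_zero, sub_zero, map_zero, st_apply hx', map_smul, ← h3, smul_zero,
        neg_zero]
    · have h1 : g (W.map i x) ∈ W.gr Z (2 * (c - 1)) :=
        (G.f_gr (W.map_mem i hx')).1 _ (by omega)
      have h2 : W.map i (f x) ∈ W.gr Z (2 * (c - 1)) :=
        W.map_mem i ((F.f_gr hx').1 _ (by omega))
      rw [st_apply (Submodule.sub_mem _ h1 h2), st_apply hx', wop_map F G i hdim hcl, map_smul,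
        sg_two_mul, sg_two_mul, ← neg_smul]
      congr 1
      obtain ⟨d, rfl⟩ : ∃ d, c = d + 1 := ⟨c - 1, by omega⟩
      rw [Nat.add_sub_cancel]
      push_cast
      ring
  · intro a b ha hb
    simp only [map_add, map_sub] at ha hb ⊢
    rw [neg_add, ← ha, ← hb]
    abel

include F G hdim hcl in
/-- The adjoint of the restriction. -/
lemma bf_map {x : W.H X} (hx : AS W X x) {y : W.H Z} (hy : AS W Z y) :
    bf W Z E g (W.map i x) y = bf W X D f x (f (W.push i y) - W.push i (g y)) := by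
  rw [bf_apply, bf_apply, st_push F G i hdim hcl hy, (hx.map i).comm, hx.comm, W.tr_push]

include F G hdim hcl in
/-- The adjoint of the Gysin map. -/
lemma bf_push {x : W.H X} (hx : AS W X x) (y : W.H Z) :
    bf W X D f (W.push i y) x = -bf W Z E g y (g (W.map i x) - W.map i (f x)) := by
  rw [bf_apply, bf_apply, st_map F G i hdim hcl hx, mul_neg, map_neg, neg_neg, W.tr_push]

end Div

section Form

/-- The restriction of a linear map to the sums of algebraic classes. -/
def resL (T : W.H X →ₗ[W.K] W.H Z) (hT : ∀ x, AS W X x → AS W Z (T x)) :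
    AQ W X →ₗ[ℚ] AQ W Z where
  toFun x := ⟨T x, hT _ x.2⟩
  map_add' x y := Subtype.ext (map_add T (x : W.H X) y)
  map_smul' q x := Subtype.ext (map_smul T (q : W.K) (x : W.H X))

lemma resL_coe (T : W.H X →ₗ[W.K] W.H Z) (hT : ∀ x, AS W X x → AS W Z (T x)) (x : AQ W X) :
    (resL T hT x : W.H Z) = T x := rfl

variable {D : X.Cycles} {f : Module.End W.K (W.H X)} (F : FA W X D f)

/-- The rational form. -/
noncomputable def qf : AQ W X →ₗ[ℚ] AQ W X →ₗ[ℚ] ℚ :=
  LinearMap.mk₂ ℚ (fun x y => psi x ⟨st W X D f y, F.st_AS y.2⟩)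
    (fun x x' y => by
      apply Rat.cast_injective (α := W.K)
      rw [Rat.cast_add, ← psi_spec, ← psi_spec, ← psi_spec, AddSubgroup.coe_add, add_mul,
        map_add])
    (fun c x y => by
      apply Rat.cast_injective (α := W.K)
      rw [smul_eq_mul, Rat.cast_mul, ← psi_spec, ← psi_spec, AQ.coe_smul, smul_mul_assoc,
        map_smul, smul_eq_mul])
    (fun x y y' => by
      apply Rat.cast_injective (α := W.K)
      rw [Rat.cast_add, ← psi_spec, ← psi_spec, ← psi_spec]
      change W.tr X (_ * st W X D f ((y : W.H X) + y')) = _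
      rw [map_add, mul_add, map_add])
    (fun c x y => by
      apply Rat.cast_injective (α := W.K)
      rw [smul_eq_mul, Rat.cast_mul, ← psi_spec, ← psi_spec]
      change W.tr X (_ * st W X D f ((c : W.K) • (y : W.H X))) = _
      rw [map_smul, mul_smul_comm, map_smul, smul_eq_mul])

lemma qf_spec (x y : AQ W X) : ((qf F x y : ℚ) : W.K) = bf W X D f x y :=
  (psi_spec _ _).symm

lemma qf_symm (hHL : HardLefschetz W X D) (x y : AQ W X) : qf F x y = qf F y x := by
  apply Rat.cast_injective (α := W.K)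
  rw [qf_spec, qf_spec]
  exact F.bf_symm hHL x.2 y.2

lemma qf_pos (hH : HodgeType W X D) (x : AQ W X) (hx : x ≠ 0) : 0 < qf F x x := by
  obtain ⟨q, hq, hq'⟩ := F.bf_pos hH x.2 (fun h0 => hx (Subtype.ext h0))
  rw [← qf_spec F] at hq'
  rwa [Rat.cast_injective hq']

end Form

end Pool.Agent.K9h28
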