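import Pool.Agent.K9h28.ToricDefs

/-!
# Strictly semistable reduction: definitions
-/

set_option autoImplicit false

open CategoryTheory AlgebraicGeometry

universe u u' v v'

namespace Pool.Agent.K9h28

open Pool.Agent.H914 Pool.Agent.H914.VarClass Pool.Agent.H914.VarClass.Obj
  Pool.Agent.H914.WeilCohomology

section Classes

variable {k : Type u} [Field k] {𝒱 : VarClass k} {ops : CycleOps 𝒱}
  (W : WeilCohomology.{u, v} ops) {X Y : 𝒱.Obj}

/-- The product of the integer `n` and the pull-back of the class `x`. -/
noncomputable def sPull (n : ℤ) (f : X ⟶ Y) (x : W.H Y) : W.H X := n • W.map f x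

/-- The product of the integer `n` and the push-forward of the class `x`. -/
noncomputable def sPush (n : ℤ) (f : X ⟶ Y) (x : W.H X) : W.H Y := n • W.push f x

/-- The sum of the classes `x i`. -/
noncomputable def sumC {I : Type} [Fintype I] (x : I → W.H X) : W.H X := ∑ i, x i

end Classes

/-- The strata of the special fibre of a strictly semistable scheme with the components
`Y_1, ..., Y_N`: the set `S` of all connected components of all the nonempty intersections
`Y_{i_0} ∩ ... ∩ Y_{i_p}`, `i_0 < ... < i_p`, with the number `p = rk s`, a divisor `D s` on each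
stratum, and for `s ⊂ u` with `rk s = rk u + 1` the inclusion and the sign `(-1)^a` if `u` is
contained in the intersection of the `Y_{i_b}` with `b ≠ a` (in all the other cases the integer
`sgn s u` is zero). -/
structure Strata {k₀ : Type u'} [Field k₀] (𝒱₀ : VarClass k₀) where
  /-- the set of the strata -/
  S : Type
  [fin : Fintype S]
  /-- the rank (the codimension in the special fibre) -/
  rk : S → ℕ
  /-- the strata -/
  Y : S → 𝒱₀.Obj
  /-- the divisors on the strata -/
  D : ∀ s, (Y s).Cycles
  /-- the signs -/
  sgn : S → S → ℤ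
  /-- the inclusions -/
  incl : ∀ s u, sgn s u ≠ 0 → (Y s ⟶ Y u)

attribute [instance] Strata.fin

variable {k : Type u} [Field k] {𝒱 : VarClass k} {ops : CycleOps 𝒱}
  {k₀ : Type u'} [Field k₀] {𝒱₀ : VarClass k₀} {ops₀ : CycleOps 𝒱₀}

namespace Strata

variable (T : Strata 𝒱₀) (W₀ : WeilCohomology.{u', v'} ops₀)

/-- The restriction of the class `x` on the stratum `u` to the stratum `s`, with its sign. -/
noncomputable def res (s u : T.S) (x : W₀.H (T.Y u)) : W₀.H (T.Y s) :=
  if h : T.sgn s u ≠ 0 then sPull W₀ (T.sgn s u) (T.incl s u h) x else 0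

/-- The image of the class `x` on the stratum `s` under the Gysin map to the stratum `u`, with its
sign. -/
noncomputable def gys (s u : T.S) (x : W₀.H (T.Y s)) : W₀.H (T.Y u) :=
  if h : T.sgn s u ≠ 0 then sPush W₀ (T.sgn s u) (T.incl s u h) x else 0

/-- The divisors are restricted to the strata. -/
def IsPolarized : Prop := ∀ s, (T.Y s).IsCyc 1 (T.D s) ∧ ∀ u (h : T.sgn s u ≠ 0),
  W₀.cl (T.Y s) (T.D s) = sPull W₀ 1 (T.incl s u h) (W₀.cl (T.Y u) (T.D u))

/-- The restrictions of the restrictions cancel. -/
def ResRes : Prop := ∀ s v x, sumC W₀ (fun u => T.res W₀ s u (T.res W₀ u v x)) = 0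

/-- For strata `s`, `s'` of the same rank `≥ 1` the sum of the maps `H(s') → H(v) → H(s)` over the
strata `v` containing both `s` and `s'` and of the maps `H(s') → H(u) → H(s)` over the strata `u`
contained in both `s` and `s'` is zero (for `s = s'` this is the fact that the sum of all the
components of the special fibre is a principal divisor). -/
def ResGys : Prop := ∀ s s', 1 ≤ T.rk s → T.rk s = T.rk s' → ∀ x,
  sumC W₀ (fun v => T.res W₀ s v (T.gys W₀ s' v x)) +
    sumC W₀ (fun u => T.gys W₀ u s (T.res W₀ u s' x)) = 0

/-- The properties of the strata of a strictly semistable scheme of relative dimension `n`. -/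
structure IsSemistable (n : ℕ) : Prop where
  dim_add : ∀ s, (T.Y s).dim + T.rk s = n
  rk_eq : ∀ s u, T.sgn s u ≠ 0 → T.rk s = T.rk u + 1
  pol : T.IsPolarized W₀
  res_res : T.ResRes W₀
  res_gys : T.ResGys W₀

/-- The family of the classes `z s` on the strata of rank zero is zero in the spectral sequence of
the weights: it is the boundary of a family of classes `y s k`, `0 ≤ k ≤ rk s`, where `y s k` is in
the `k`-th copy (twisted by `-k`) of the cohomology of the stratum `s` in the complex of Rapoport,
Zink and Steenbrink. -/
def IsCoboundary (z : ∀ s, W₀.H (T.Y s)) : Prop :=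
  ∃ y : ∀ s, ℕ → W₀.H (T.Y s), (∀ s k, T.rk s < k → y s k = 0) ∧
    ∀ s k, k ≤ T.rk s → (if k = 0 then 0 else sumC W₀ fun u => T.res W₀ s u (y u (k - 1))) +
      (sumC W₀ fun u => T.gys W₀ u s (y u k)) = if T.rk s = 0 then z s else 0

end Strata

section Specialization

variable (X : 𝒱.Obj) (W₀ : WeilCohomology.{u', v'} ops₀) (T : Strata 𝒱₀)
  (sp : ∀ s, X.Cycles → (T.Y s).Cycles)

/-- The classes of the specialization of the cycle `z`. -/
noncomputable def spC (z : X.Cycles) (s : T.S) : W₀.H (T.Y s) := W₀.cl (T.Y s) (sp s z)

/-- The restrictions of the specialization to the intersections of two components agree. -/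
def SpAgree : Prop := ∀ r z, X.IsCyc r z → ∀ s, T.rk s = 1 →
  (sumC W₀ fun u => T.res W₀ s u (spC X W₀ T sp z u)) = 0

/-- The specialization is compatible with the product with the divisor, up to coboundaries (for
example the classes of cycles on the special fibre). -/
def SpMul (ops : CycleOps 𝒱) (D : X.Cycles) : Prop := ∀ r z, X.IsCyc r z →
  T.IsCoboundary W₀ fun s => spC X W₀ T sp (ops.mul D z) s -
    W₀.cl (T.Y s) (T.D s) * spC X W₀ T sp z s

/-- The specialization is compatible with the intersection numbers. -/
def SpDeg (ops : CycleOps 𝒱) (ops₀ : CycleOps 𝒱₀) : Prop :=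
  ∀ p q z w, X.IsCyc p z → X.IsCyc q w → p + q = X.dim → X.V.degCycle (ops.mul z w) =
    ∑ s, if T.rk s = 0 then (T.Y s).V.degCycle (ops₀.mul (sp s z) (sp s w)) else 0

/-- A cycle is homologically equivalent to zero if and only if its specialization is zero in the
spectral sequence of the weights. -/
def SpExact (W : WeilCohomology.{u, v} ops) : Prop := ∀ r z, X.IsCyc r z →
  (W.cl X z = 0 ↔ T.IsCoboundary W₀ (spC X W₀ T sp z))

end Specialization

/-- The specialization of the cycles on the generic fibre `X` (with the divisor `D`) to cycles on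
the components (the strata of rank zero) of the special fibre: the restriction of an extension to
the model. -/
structure IsSpecialization (W : WeilCohomology.{u, v} ops) (X : 𝒱.Obj) (D : X.Cycles)
    (W₀ : WeilCohomology.{u', v'} ops₀) (T : Strata 𝒱₀)
    (sp : ∀ s, X.Cycles → (T.Y s).Cycles) : Prop where
  mem : ∀ r z, X.IsCyc r z → ∀ s, T.rk s = 0 → (T.Y s).IsCyc r (sp s z)
  agree : SpAgree X W₀ T sp
  mul_D : SpMul X W₀ T sp ops D
  deg : SpDeg X T sp ops ops₀
  exact : SpExact X W₀ T sp W

/-- Either hard Lefschetz holds for `X` and the divisor `D`, together with one of the conjectures A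
and D, or `IsLefschetz` holds: hard Lefschetz and the conjecture B, or the cohomology of `X` behaves
like that of an abelian variety and `D ^ dim X` is not zero. (In all the cases hard Lefschetz and
the conjecture A are true, see the files `DtoA` and `Lieb`.) -/
def SatisfiesA (W : WeilCohomology.{u, v} ops) (X : 𝒱.Obj) (D : X.Cycles) : Prop :=
  (HardLefschetz W X D ∧ (LefschetzA W X D ∨ HomEqNum W X)) ∨ IsLefschetz W X D

end Pool.Agent.K9h28
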