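import Pool.Agent.K9h28.GnInt
import Pool.Agent.K9h28.GnD

/-!
# Strictly semistable reduction: the spaces of algebraic classes
-/

set_option autoImplicit false
set_option linter.unusedSectionVars false

open CategoryTheory AlgebraicGeometry Finset

universe u u' v v'

namespace Pool.Agent.K9h28

open Pool.Agent.H914 Pool.Agent.H914.VarClass Pool.Agent.H914.VarClass.Obj
  Pool.Agent.H914.WeilCohomology Pool.Agent.H281R3.HT Pool.Agent.W552

variable {k₀ : Type u'} [Field k₀] {𝒱₀ : VarClass k₀} {ops₀ : CycleOps 𝒱₀}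
  {T : Strata 𝒱₀} {W₀ : WeilCohomology.{u', v'} ops₀} {n : ℕ}

namespace Strata

lemma res_of {s u : T.S} (h : T.sgn s u ≠ 0) (x : W₀.H (T.Y u)) :
    T.resL W₀ s u x = (T.sgn s u : W₀.K) • W₀.map (T.incl s u h) x := by
  rw [resL, dif_pos h]; rfl

lemma res_not {s u : T.S} (h : ¬ T.sgn s u ≠ 0) (x : W₀.H (T.Y u)) :
    T.resL W₀ s u x = 0 := by
  rw [resL, dif_neg h]; rfl

lemma gys_of {s u : T.S} (h : T.sgn s u ≠ 0) (x : W₀.H (T.Y s)) :
    T.gysL W₀ s u x = (T.sgn s u : W₀.K) • W₀.push (T.incl s u h) x := by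
  rw [gysL, dif_pos h]; rfl

lemma gys_not {s u : T.S} (h : ¬ T.sgn s u ≠ 0) (x : W₀.H (T.Y s)) :
    T.gysL W₀ s u x = 0 := by
  rw [gysL, dif_neg h]; rfl

lemma tr_gys {s u : T.S} (a : W₀.H (T.Y s)) (b : W₀.H (T.Y u)) :
    W₀.tr (T.Y u) (T.gysL W₀ s u a * b) = W₀.tr (T.Y s) (a * T.resL W₀ s u b) := by
  by_cases h : T.sgn s u ≠ 0
  · rw [gys_of h, res_of h, smul_mul_assoc, mul_smul_comm, map_smul, map_smul, W₀.tr_push]
  · rw [gys_not h, res_not h, zero_mul, mul_zero, map_zero, map_zero]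

lemma res_AS {s u : T.S} (x : W₀.H (T.Y u)) (hx : AS W₀ (T.Y u) x) :
    AS W₀ (T.Y s) (T.resL W₀ s u x) := by
  by_cases h : T.sgn s u ≠ 0
  · rw [res_of h]
    have := (hx.map (T.incl s u h)).smul (T.sgn s u : ℚ)
    rwa [Rat.cast_intCast] at this
  · rw [res_not h]; exact AS.zero

lemma gys_AS {s u : T.S} (x : W₀.H (T.Y s)) (hx : AS W₀ (T.Y s) x) :
    AS W₀ (T.Y u) (T.gysL W₀ s u x) := by
  by_cases h : T.sgn s u ≠ 0
  · rw [gys_of h]
    have := (hx.push (T.incl s u h)).smul (T.sgn s u : ℚ)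
    rwa [Rat.cast_intCast] at this
  · rw [gys_not h]; exact AS.zero

lemma tr_res {s u : T.S} {b : W₀.H (T.Y s)} (hb : AS W₀ (T.Y s) b) (a : W₀.H (T.Y u)) :
    W₀.tr (T.Y s) (T.resL W₀ s u a * b) = W₀.tr (T.Y u) (a * T.gysL W₀ s u b) := by
  rw [← hb.comm, ← tr_gys, (gys_AS _ hb).comm]

variable (h : T.IsSemi W₀ n)

include h

lemma gys_gys (s v : T.S) (x : W₀.H (T.Y s)) :
    ∑ u, T.gysL W₀ u v (T.gysL W₀ s u x) = 0 := by
  apply W₀.nondeg
  intro b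
  rw [Finset.sum_mul, map_sum]
  have h1 : ∀ u, W₀.tr (T.Y v) (T.gysL W₀ u v (T.gysL W₀ s u x) * b) =
      W₀.tr (T.Y s) (x * T.resL W₀ s u (T.resL W₀ u v b)) := by
    intro u
    rw [tr_gys, tr_gys]
  rw [Finset.sum_congr rfl (fun u _ => h1 u), ← map_sum, ← Finset.mul_sum, h.res_res, mul_zero,
    map_zero]

lemma dim_succ {s u : T.S} (hs : T.sgn s u ≠ 0) : (T.Y s).dim + 1 = (T.Y u).dim := by
  have h1 := h.dim_add s
  have h2 := h.dim_add u
  have h3 := h.rk_eq s u hs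
  omega

lemma res_L (s u : T.S) (x : W₀.H (T.Y u)) :
    W₀.cl (T.Y s) (T.D s) * T.resL W₀ s u x = T.resL W₀ s u (W₀.cl (T.Y u) (T.D u) * x) := by
  by_cases hs : T.sgn s u ≠ 0
  · rw [res_of hs, res_of hs, mul_smul_comm, map_L _ (h.cl_D s u hs)]
  · rw [res_not hs, res_not hs, mul_zero]

lemma gys_L {s u : T.S} {f : Module.End W₀.K (W₀.H (T.Y u))} (F : FA W₀ (T.Y u) (T.D u) f)
    (x : W₀.H (T.Y s)) :
    W₀.cl (T.Y u) (T.D u) * T.gysL W₀ s u x = T.gysL W₀ s u (W₀.cl (T.Y s) (T.D s) * x) := by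
  by_cases hs : T.sgn s u ≠ 0
  · rw [gys_of hs, gys_of hs, mul_smul_comm, push_L F _ (h.cl_D s u hs)]
  · rw [gys_not hs, gys_not hs, mul_zero]

lemma res_wt (s u : T.S) (x : W₀.H (T.Y u)) :
    wt (W₀.isInternal (T.Y s)) (T.Y s).dim (T.resL W₀ s u x) =
      T.resL W₀ s u (wt (W₀.isInternal (T.Y u)) (T.Y u).dim x) + T.resL W₀ s u x := by
  by_cases hs : T.sgn s u ≠ 0
  · rw [res_of hs, res_of hs, map_smul, map_wt _ (dim_succ h hs), smul_add]
  · rw [res_not hs, res_not hs, map_zero, add_zero]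

lemma gys_wt (s u : T.S) (x : W₀.H (T.Y s)) :
    wt (W₀.isInternal (T.Y u)) (T.Y u).dim (T.gysL W₀ s u x) =
      T.gysL W₀ s u (wt (W₀.isInternal (T.Y s)) (T.Y s).dim x) + T.gysL W₀ s u x := by
  by_cases hs : T.sgn s u ≠ 0
  · rw [gys_of hs, gys_of hs, map_smul, push_wt _ (dim_succ h hs), smul_add]
  · rw [gys_not hs, gys_not hs, map_zero, add_zero]

lemma bf_res {s u : T.S} {f : Module.End W₀.K (W₀.H (T.Y u))} (F : FA W₀ (T.Y u) (T.D u) f)
    {g : Module.End W₀.K (W₀.H (T.Y s))} (G : FA W₀ (T.Y s) (T.D s) g) {x : W₀.H (T.Y u)}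
    (hx : AS W₀ (T.Y u) x) {y : W₀.H (T.Y s)} (hy : AS W₀ (T.Y s) y) :
    bf W₀ (T.Y s) (T.D s) g (T.resL W₀ s u x) y =
      bf W₀ (T.Y u) (T.D u) f x (f (T.gysL W₀ s u y) - T.gysL W₀ s u (g y)) := by
  by_cases hs : T.sgn s u ≠ 0
  · rw [res_of hs, gys_of hs, gys_of hs, map_smul, map_smul, LinearMap.smul_apply,
      bf_map F G _ (dim_succ h hs) (h.cl_D s u hs) hx hy, ← smul_sub, map_smul]
  · rw [res_not hs, gys_not hs, gys_not hs, map_zero, map_zero, sub_zero, map_zero,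
      LinearMap.zero_apply]

lemma bf_gys {s u : T.S} {f : Module.End W₀.K (W₀.H (T.Y u))} (F : FA W₀ (T.Y u) (T.D u) f)
    {g : Module.End W₀.K (W₀.H (T.Y s))} (G : FA W₀ (T.Y s) (T.D s) g) {x : W₀.H (T.Y u)}
    (hx : AS W₀ (T.Y u) x) (y : W₀.H (T.Y s)) :
    bf W₀ (T.Y u) (T.D u) f (T.gysL W₀ s u y) x =
      -bf W₀ (T.Y s) (T.D s) g y (g (T.resL W₀ s u x) - T.resL W₀ s u (f x)) := by
  by_cases hs : T.sgn s u ≠ 0
  · rw [gys_of hs, res_of hs, res_of hs, map_smul, map_smul, LinearMap.smul_apply,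
      bf_push F G _ (dim_succ h hs) (h.cl_D s u hs) hx y, ← smul_sub, map_smul, smul_neg]
  · rw [res_not hs, gys_not hs, res_not hs, map_zero, map_zero, sub_zero, map_zero,
      LinearMap.zero_apply, neg_zero]

end Strata

section Real

open Strata

variable {f : ∀ s, Module.End W₀.K (W₀.H (T.Y s))} (F : ∀ s, FA W₀ (T.Y s) (T.D s) (f s))

lemma AS_L {X : 𝒱₀.Obj} {D : X.Cycles} (hD : X.IsCyc 1 D) (x : W₀.H X) (hx : AS W₀ X x) :
    AS W₀ X (LinearMap.mulLeft W₀.K (W₀.cl X D) x) := (AS.of ⟨D, hD, rfl⟩).mul hx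

/-- The weight operators. -/
noncomputable def hq (T : Strata 𝒱₀) (W₀ : WeilCohomology.{u', v'} ops₀) (s : T.S) :
    Module.End ℚ (AQ W₀ (T.Y s)) :=
  res (wt (W₀.isInternal (T.Y s)) (T.Y s).dim) (fun _ hx => AS_wt hx)

/-- The raising operators. -/
noncomputable def Lq (s : T.S) : Module.End ℚ (AQ W₀ (T.Y s)) :=
  res (LinearMap.mulLeft W₀.K (W₀.cl (T.Y s) (T.D s))) (AS_L (F s).hD)

/-- The lowering operators. -/
noncomputable def Λq (s : T.S) : Module.End ℚ (AQ W₀ (T.Y s)) :=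
  res (f s) (fun _ hx => (F s).pres hx)

/-- The restrictions. -/
noncomputable def Rq (T : Strata 𝒱₀) (W₀ : WeilCohomology.{u', v'} ops₀) (s u : T.S) :
    AQ W₀ (T.Y u) →ₗ[ℚ] AQ W₀ (T.Y s) := resL (T.resL W₀ s u) res_AS

/-- The Gysin maps. -/
noncomputable def Gq (T : Strata 𝒱₀) (W₀ : WeilCohomology.{u', v'} ops₀) (s u : T.S) :
    AQ W₀ (T.Y s) →ₗ[ℚ] AQ W₀ (T.Y u) := resL (T.gysL W₀ s u) gys_AS

lemma lad (h : T.IsSemi W₀ n) (hHL : ∀ s, HardLefschetz W₀ (T.Y s) (T.D s))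
    (hH : ∀ s, HodgeType W₀ (T.Y s) (T.D s)) :
    Lad T.rk (fun s => AQ W₀ (T.Y s)) (hq T W₀) (Lq F) (Λq F) (Rq T W₀) (Gq T W₀)
      (fun s => qf (F s)) where
  sl2 s := res_sl2 _ _ _ (F s).sl2
  R_rk s u hs x := Subtype.ext (res_not (fun h0 => hs (h.rk_eq s u h0)) _)
  G_rk s u hs x := Subtype.ext (gys_not (fun h0 => hs (h.rk_eq s u h0)) _)
  R_L s u x := Subtype.ext (res_L h s u x)
  G_L s u x := Subtype.ext (gys_L (s := s) h (F u) (x : W₀.H (T.Y s)))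
  R_h s u x := Subtype.ext (res_wt h s u x)
  G_h s u x := Subtype.ext (gys_wt h s u x)
  R_R s v x := by
    apply Subtype.ext
    rw [AddSubgroup.val_finsetSum]
    exact h.res_res s v x
  G_G s v x := by
    apply Subtype.ext
    rw [AddSubgroup.val_finsetSum]
    exact gys_gys h s v x
  R_G s s' hs hs' x := by
    apply Subtype.ext
    rw [AddSubgroup.coe_add, AddSubgroup.val_finsetSum, AddSubgroup.val_finsetSum]
    exact h.res_gys s s' hs hs' x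
  symm s x y := qf_symm (F s) (hHL s) x y
  pos s x hx := qf_pos (F s) (hH s) x hx
  adjR s u x y := by
    apply Rat.cast_injective (α := W₀.K)
    rw [qf_spec, qf_spec]
    exact bf_res h (F u) (F s) x.2 y.2
  adjG s u y x := by
    apply Rat.cast_injective (α := W₀.K)
    rw [Rat.cast_neg, qf_spec, qf_spec]
    exact bf_gys h (F u) (F s) x.2 y

end Real

end Pool.Agent.K9h28
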