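import Pool.Agent.K9h28.GnE

/-!
# Strictly semistable reduction: the pairing
-/

set_option autoImplicit false
set_option linter.unusedSectionVars false

open CategoryTheory AlgebraicGeometry Finset

universe u u' v v'

namespace Pool.Agent.K9h28

open Pool.Agent.H914 Pool.Agent.H914.VarClass Pool.Agent.H914.VarClass.Obj
  Pool.Agent.H914.WeilCohomology Pool.Agent.H281R3.HT Pool.Agent.W552

variable {k₀ : Type u'} [Field k₀] {𝒱₀ : VarClass k₀} {ops₀ : CycleOps 𝒱₀}
  {T : Strata 𝒱₀} {W₀ : WeilCohomology.{u', v'} ops₀} {n : ℕ}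

namespace Strata

variable (h : T.IsSemi W₀ n)

/-- The sign. -/
def eps (K : Type*) [Ring K] (p k : ℕ) : K := (sg p : K) * (-1) ^ k

lemma eps_one {K : Type*} [Field K] (p k : ℕ) : eps K (p + 1) (k + 1) = -eps K (p + 1) k := by
  rw [eps, eps]; ring

lemma eps_two {K : Type*} [Field K] (p k : ℕ) : eps K (p + 2) k = -eps K p k := by
  rw [eps, eps, sg_add]
  have h1 : sg 2 = -1 := by simp [sg]
  rw [h1]
  have h2 : (-1 : ℤ) ^ (p * 2) = 1 := by rw [mul_comm, pow_mul]; simp
  rw [h2]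
  push_cast
  ring

include h

lemma pair_R (y u : ∀ s, ℕ → W₀.H (T.Y s)) (hu : ∀ s k, AS W₀ (T.Y s) (u s k)) (s v : T.S) :
    ∑ k ∈ range (T.rk s + 1), (if k = 0 then 0 else eps W₀.K (T.rk s) k *
      W₀.tr (T.Y s) (T.resL W₀ s v (y v (k - 1)) * u s (T.rk s - k))) =
    ∑ k ∈ range (T.rk v + 1), -eps W₀.K (T.rk v + 1) k *
      W₀.tr (T.Y v) (y v k * T.gysL W₀ s v (u s (T.rk v - k))) := by
  by_cases h1 : T.rk s = T.rk v + 1
  · rw [h1, Finset.sum_range_succ', if_pos rfl, add_zero]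
    refine Finset.sum_congr rfl fun k _ => ?_
    rw [if_neg (by omega), Nat.add_sub_cancel, tr_res (hu _ _), eps_one,
      show T.rk v + 1 - (k + 1) = T.rk v - k by omega]
  · have h2 : ¬ T.sgn s v ≠ 0 := fun h0 => h1 (h.rk_eq s v h0)
    simp only [res_not h2, gys_not h2]
    simp

lemma pair_G (y u : ∀ s, ℕ → W₀.H (T.Y s)) (s v : T.S) :
    ∑ k ∈ range (T.rk s + 1), eps W₀.K (T.rk s) k *
      W₀.tr (T.Y s) (T.gysL W₀ v s (y v k) * u s (T.rk s - k)) =
    ∑ k ∈ range (T.rk v + 1), (if T.rk v - k = 0 then 0 else -eps W₀.K (T.rk v + 1) k *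
      W₀.tr (T.Y v) (y v k * T.resL W₀ v s (u s (T.rk v - k - 1)))) := by
  by_cases h1 : T.rk v = T.rk s + 1
  · rw [h1, Finset.sum_range_succ _ (T.rk s + 1), if_pos (by omega), add_zero]
    refine Finset.sum_congr rfl fun k hk => ?_
    have hk' := Finset.mem_range.1 hk
    rw [if_neg (by omega), tr_gys, eps_two, neg_neg,
      show T.rk s + 1 - k - 1 = T.rk s - k by omega]
  · have h2 : ¬ T.sgn v s ≠ 0 := fun h0 => h1 (h.rk_eq v s h0)
    simp only [res_not h2, gys_not h2]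
    simp

/-- **The orthogonality of coboundaries and cocycles.** -/
lemma orth {x : ∀ s, W₀.H (T.Y s)} (hx : T.IsCob W₀ x)
    {u : Vs T.rk fun s => AQ W₀ (T.Y s)} (hu : opd (Rq T W₀) (Gq T W₀) u = 0) :
    ∑ s, (if T.rk s = 0 then W₀.tr (T.Y s) (x s * (u.1 s 0 : W₀.H (T.Y s))) else 0) = 0 := by
  obtain ⟨y, hy, hxy⟩ := hx
  set w : ∀ s, ℕ → W₀.H (T.Y s) := fun s k => (u.1 s k : W₀.H (T.Y s)) with hw
  have hwA : ∀ s k, AS W₀ (T.Y s) (w s k) := fun s k => (u.1 s k).2
  have hwu : ∀ v k, k ≤ T.rk v → ∑ s, T.gysL W₀ s v (w s k) +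
      (if k = 0 then 0 else ∑ s, T.resL W₀ v s (w s (k - 1))) = 0 := by
    intro v k hk
    have h1 : (opd (Rq T W₀) (Gq T W₀) u).1 v k = 0 := by rw [hu]; rfl
    rw [opd_apply, if_pos hk] at h1
    have h2 := congrArg Subtype.val h1
    rw [AddSubgroup.coe_add, AddSubgroup.val_finsetSum] at h2
    by_cases h0 : k = 0
    · subst h0
      rw [if_neg (by omega)] at h2
      rw [if_pos rfl, add_zero]
      change 0 + _ = _ at h2
      rw [zero_add] at h2
      exact h2
    · rw [if_pos (by omega), AddSubgroup.val_finsetSum] at h2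
      rw [if_neg h0, add_comm]
      exact h2
  have e1 : ∑ s, (if T.rk s = 0 then W₀.tr (T.Y s) (x s * (u.1 s 0 : W₀.H (T.Y s))) else 0) =
      ∑ s, ∑ k ∈ range (T.rk s + 1), eps W₀.K (T.rk s) k * W₀.tr (T.Y s)
        (((if k = 0 then 0 else ∑ v, T.resL W₀ s v (y v (k - 1))) +
          ∑ v, T.gysL W₀ v s (y v k)) * w s (T.rk s - k)) := by
    refine Finset.sum_congr rfl fun s _ => ?_
    by_cases h0 : T.rk s = 0
    · rw [if_pos h0, Finset.sum_eq_single 0]
      · rw [hxy s 0 (by omega), if_pos h0, h0]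
        have : eps W₀.K 0 0 = 1 := by simp [eps, sg]
        rw [this, one_mul]
      · intro k hk hk0
        have := Finset.mem_range.1 hk
        omega
      · intro h1; exact absurd (Finset.mem_range.2 (by omega)) h1
    · rw [if_neg h0]
      symm
      refine Finset.sum_eq_zero fun k hk => ?_
      have := Finset.mem_range.1 hk
      rw [hxy s k (by omega), if_neg h0, zero_mul, map_zero, mul_zero]
  have e2 : ∀ s, ∑ k ∈ range (T.rk s + 1), eps W₀.K (T.rk s) k * W₀.tr (T.Y s)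
        (((if k = 0 then 0 else ∑ v, T.resL W₀ s v (y v (k - 1))) +
          ∑ v, T.gysL W₀ v s (y v k)) * w s (T.rk s - k)) =
      ∑ v, (∑ k ∈ range (T.rk s + 1), (if k = 0 then 0 else eps W₀.K (T.rk s) k *
        W₀.tr (T.Y s) (T.resL W₀ s v (y v (k - 1)) * w s (T.rk s - k))) +
        ∑ k ∈ range (T.rk s + 1), eps W₀.K (T.rk s) k *
          W₀.tr (T.Y s) (T.gysL W₀ v s (y v k) * w s (T.rk s - k))) := by
    intro s
    rw [Finset.sum_add_distrib, Finset.sum_comm (s := univ), Finset.sum_comm (s := univ),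
      ← Finset.sum_add_distrib]
    refine Finset.sum_congr rfl fun k _ => ?_
    rw [add_mul, map_add, mul_add]
    congr 1
    · by_cases h0 : k = 0
      · simp [h0]
      · simp only [if_neg h0]
        rw [Finset.sum_mul, map_sum, Finset.mul_sum]
    · rw [Finset.sum_mul, map_sum, Finset.mul_sum]
  rw [e1, Finset.sum_congr rfl (fun s _ => e2 s), Finset.sum_comm]
  refine Finset.sum_eq_zero fun v _ => ?_
  rw [Finset.sum_congr rfl (fun s _ => by rw [pair_R h y w hwA s v, pair_G h y w s v])]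
  rw [Finset.sum_add_distrib, Finset.sum_comm (s := univ), Finset.sum_comm (s := univ),
      ← Finset.sum_add_distrib]
  refine Finset.sum_eq_zero fun k hk => ?_
  have h3 := hwu v (T.rk v - k) (by omega)
  have h4 : ∑ s, -eps W₀.K (T.rk v + 1) k *
      W₀.tr (T.Y v) (y v k * T.gysL W₀ s v (w s (T.rk v - k))) +
      ∑ s, (if T.rk v - k = 0 then 0 else -eps W₀.K (T.rk v + 1) k *
      W₀.tr (T.Y v) (y v k * T.resL W₀ v s (w s (T.rk v - k - 1)))) =
      -eps W₀.K (T.rk v + 1) k * W₀.tr (T.Y v) (y v k *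
        (∑ s, T.gysL W₀ s v (w s (T.rk v - k)) +
      (if T.rk v - k = 0 then 0 else ∑ s, T.resL W₀ v s (w s (T.rk v - k - 1))))) := by
    rw [mul_add, map_add, mul_add]
    congr 1
    · rw [Finset.mul_sum, map_sum, Finset.mul_sum]
    · by_cases h0 : T.rk v - k = 0
      · simp [h0]
      · simp only [if_neg h0]
        rw [Finset.mul_sum, map_sum, Finset.mul_sum]
  rw [h4, h3, mul_zero, map_zero, mul_zero]

omit h in
lemma IsCob.add {x x' : ∀ s, W₀.H (T.Y s)} (hx : T.IsCob W₀ x)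
    (hx' : T.IsCob W₀ x') : T.IsCob W₀ fun s => x s + x' s := by
  obtain ⟨y, hy, hxy⟩ := hx
  obtain ⟨y', hy', hxy'⟩ := hx'
  refine ⟨fun s k => y s k + y' s k, fun s k hk => by
    dsimp only
    rw [hy s k hk, hy' s k hk, add_zero], fun s k hk => ?_⟩
  have h1 := hxy s k hk
  have h2 := hxy' s k hk
  have h3 : (if T.rk s = 0 then x s + x' s else 0) =
      (if T.rk s = 0 then x s else 0) + (if T.rk s = 0 then x' s else 0) := by
    split_ifs
    · rfl
    · rw [add_zero]
  rw [h3, ← h1, ← h2]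
  simp only [map_add, Finset.sum_add_distrib]
  split_ifs <;> abel

lemma IsCob.L {f : ∀ s, Module.End W₀.K (W₀.H (T.Y s))}
    (F : ∀ s, FA W₀ (T.Y s) (T.D s) (f s)) {x : ∀ s, W₀.H (T.Y s)}
    (hx : T.IsCob W₀ x) : T.IsCob W₀ fun s => W₀.cl (T.Y s) (T.D s) * x s := by
  obtain ⟨y, hy, hxy⟩ := hx
  refine ⟨fun s k => W₀.cl (T.Y s) (T.D s) * y s k, fun s k hk => by
    dsimp only
    rw [hy s k hk, mul_zero], fun s k hk => ?_⟩
  have h1 := hxy s k hk
  have h3 : (if T.rk s = 0 then W₀.cl (T.Y s) (T.D s) * x s else 0) =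
      W₀.cl (T.Y s) (T.D s) * (if T.rk s = 0 then x s else 0) := by
    split_ifs
    · rfl
    · rw [mul_zero]
  rw [h3, ← h1, mul_add, Finset.mul_sum]
  congr 1
  · split_ifs
    · rw [mul_zero]
    · rw [Finset.mul_sum]
      exact Finset.sum_congr rfl fun u _ => (res_L h s u _).symm
  · exact Finset.sum_congr rfl fun u _ => (gys_L h (F s) _).symm

end Strata

section Main

variable {k : Type u} [Field k] {𝒱 : VarClass k} {ops : CycleOps 𝒱}
  {W : WeilCohomology.{u, v} ops} {X : 𝒱.Obj} {D : X.Cycles}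
  {sp : ∀ s, X.Cycles → (T.Y s).Cycles}

open Strata

/-- The value of the form in terms of the intersection numbers. -/
lemma bf_wop {Y : 𝒱₀.Obj} {E : Y.Cycles} {g : Module.End W₀.K (W₀.H Y)} (G : FA W₀ Y E g)
    (hHL : HardLefschetz W₀ Y E) {c : ℕ} {x : W₀.H Y} (hx : x ∈ W₀.gr Y (2 * c)) {b : W₀.H Y}
    (hb : AS W₀ Y b) : bf W₀ Y E g x (wop W₀ Y E g b) =
      (-1) ^ (Y.dim + c) * W₀.tr Y (x * b) := by
  have t := G.lefStr hHL
  refine AS.ind (p := fun b => bf W₀ Y E g x (wop W₀ Y E g b) =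
      (-1) ^ (Y.dim + c) * W₀.tr Y (x * b)) ?_ ?_ hb
  · intro j b hb
    have hb' := alg_gr hb
    by_cases hj : j ≤ Y.dim
    · have h1 := G.w_mem (i := 2 * j) (by omega) hb'
      have h2 : wop W₀ Y E g (wop W₀ Y E g b) = (-1 : W₀.K) ^ (Y.dim + 2 * j) • b :=
        t.w_sq hb'
      rw [bf_apply, st_apply h1, h2, mul_smul_comm, mul_smul_comm, map_smul, map_smul,
        smul_eq_mul, smul_eq_mul, show 2 * Y.dim - 2 * j = 2 * (Y.dim - j) by omega,
        sg_two_mul]
      by_cases hc : c + j = Y.dim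
      · rw [show Y.dim - j = c by omega, ← hc]
        push_cast
        have e1 : (-1 : W₀.K) ^ (c + j + 2 * j) = (-1) ^ c * (-1) ^ j := by
          rw [pow_add, pow_mul]; simp [pow_add]
        have e2 : (-1 : W₀.K) ^ (c + j + c) = (-1) ^ c * (-1) ^ c * (-1) ^ j := by
          rw [pow_add, pow_add]; ring
        rw [e1, e2]
        ring
      · rw [W₀.tr_eq_zero (W₀.mul_mem hx hb') (by omega)]
        ring
    · rw [W₀.gr_eq_bot Y _ (by omega)] at hb'
      rw [(Submodule.mem_bot _).1 hb']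
      simp
  · intro a b ha hb
    rw [map_add, map_add, ha, hb, mul_add, map_add]
    ring

/-- The specialization of the products with powers of the divisor. -/
lemma sp_pow (h : T.IsSemi W₀ n) {f : ∀ s, Module.End W₀.K (W₀.H (T.Y s))}
    (F : ∀ s, FA W₀ (T.Y s) (T.D s) (f s)) (hD : X.IsCyc 1 D)
    (hsp : IsSpec W X D W₀ T sp) {r : ℕ} {z : X.Cycles} (hz : X.IsCyc r z) (m : ℕ) :
    T.IsCob W₀ fun s => W₀.cl (T.Y s) (sp s (divPow ops D m z)) -
      ((LinearMap.mulLeft W₀.K (W₀.cl (T.Y s) (T.D s))) ^ m) (W₀.cl (T.Y s) (sp s z)) := by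
  induction m with
  | zero =>
    refine ⟨0, fun _ _ _ => rfl, fun s k _ => ?_⟩
    simp [divPow]
  | succ m ih =>
    have h1 := hsp.mul_D (r + m) (divPow ops D m z) (divPow_mem (ops := ops) hD m hz)
    have h2 := h1.add (IsCob.L h F ih)
    have h3 : divPow ops D (m + 1) z = ops.mul D (divPow ops D m z) := by
      rw [divPow, Function.iterate_succ_apply']; rfl
    rw [h3]
    refine cast ?_ h2
    congr 1
    funext s
    rw [pow_succ', Module.End.mul_apply, LinearMap.mulLeft_apply]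
    noncomm_ring

end Main

end Pool.Agent.K9h28
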