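import Pool.Agent.K9h28.GnF
import Pool.Agent.K9h28.DtoA

/-!
# Strictly semistable reduction: the Hodge type
-/

set_option autoImplicit false
set_option linter.unusedSectionVars false

open CategoryTheory AlgebraicGeometry Finset

universe u u' v v'

namespace Pool.Agent.K9h28

open Pool.Agent.H914 Pool.Agent.H914.VarClass Pool.Agent.H914.VarClass.Obj
  Pool.Agent.H914.WeilCohomology Pool.Agent.H281R3.HT Pool.Agent.W552

variable {k₀ : Type u'} [Field k₀] {𝒱₀ : VarClass k₀} {ops₀ : CycleOps 𝒱₀}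
  {T : Strata 𝒱₀} {W₀ : WeilCohomology.{u', v'} ops₀}
  {k : Type u} [Field k] {𝒱 : VarClass k} {ops : CycleOps 𝒱}
  {W : WeilCohomology.{u, v} ops} {X : 𝒱.Obj} {D : X.Cycles}
  {sp : ∀ s, X.Cycles → (T.Y s).Cycles}

open Strata

lemma Strata.IsCob.sub {x x' : ∀ s, W₀.H (T.Y s)} (hx : T.IsCob W₀ x)
    (hx' : T.IsCob W₀ x') : T.IsCob W₀ fun s => x s - x' s := by
  obtain ⟨y, hy, hxy⟩ := hx
  obtain ⟨y', hy', hxy'⟩ := hx'
  refine ⟨fun s k => y s k - y' s k, fun s k hk => by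
    dsimp only
    rw [hy s k hk, hy' s k hk, sub_zero], fun s k hk => ?_⟩
  have h1 := hxy s k hk
  have h2 := hxy' s k hk
  have h3 : (if T.rk s = 0 then x s - x' s else 0) =
      (if T.rk s = 0 then x s else 0) - (if T.rk s = 0 then x' s else 0) := by
    split_ifs
    · rfl
    · rw [sub_zero]
  rw [h3, ← h1, ← h2]
  simp only [map_sub, Finset.sum_sub_distrib]
  split_ifs <;> abel

/-- **The conjecture of Hodge type for varieties with strictly semistable reduction.** -/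
theorem hodgeType_of_semistable (h : T.IsSemi W₀ X.dim) (hD : X.IsCyc 1 D)
    (hsp : IsSpec W X D W₀ T sp)
    (hHL : ∀ s, HardLefschetz W₀ (T.Y s) (T.D s)) (hA : ∀ s, LefschetzA W₀ (T.Y s) (T.D s))
    (hH : ∀ s, HodgeType W₀ (T.Y s) (T.D s)) : HodgeType W X D := by
  choose f F using fun s => exists_fa (h.isCyc s) (hHL s) (hA s)
  have hfin : ∀ s, Module.Finite ℚ (AQ W₀ (T.Y s)) := fun s => (F s).finite (hHL s) (hH s)
  have t := lad F h hHL hH
  intro r hr z hz hprim hz0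
  set m := X.dim - 2 * r with hm
  -- the cochain of the specialization
  set zs : ∀ s, AQ W₀ (T.Y s) := fun s => if h0 : T.rk s = 0 then
    ⟨W₀.cl (T.Y s) (sp s z), AS.of ⟨_, hsp.mem r z hz s h0, rfl⟩⟩ else 0 with hzs
  have zs_coe : ∀ s, T.rk s = 0 → (zs s : W₀.H (T.Y s)) = W₀.cl (T.Y s) (sp s z) := by
    intro s h0
    rw [hzs]
    dsimp only
    rw [dif_pos h0]
  have hdim : ∀ s, T.rk s = 0 → (T.Y s).dim = X.dim := by
    intro s h0
    have := h.dim_add s
    omega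
  have hzgr : ∀ j s, T.rk s = 0 → ((LinearMap.mulLeft W₀.K (W₀.cl (T.Y s) (T.D s))) ^ j)
      (W₀.cl (T.Y s) (sp s z)) ∈ W₀.gr (T.Y s) (2 * (r + j)) := by
    intro j s h0
    rw [← cl_divPow]
    exact W₀.cl_mem (divPow_mem (h.isCyc s) j (hsp.mem r z hz s h0))
  have hzgr0 : ∀ s, T.rk s = 0 → W₀.cl (T.Y s) (sp s z) ∈ W₀.gr (T.Y s) (2 * r) :=
    fun s h0 => W₀.cl_mem (hsp.mem r z hz s h0)
  have hLz : ∀ j s, T.rk s = 0 → (((Lq F s) ^ j) (zs s) : W₀.H (T.Y s)) =
      ((LinearMap.mulLeft W₀.K (W₀.cl (T.Y s) (T.D s))) ^ j) (W₀.cl (T.Y s) (sp s z)) := by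
    intro j s h0
    rw [Lq, res_pow, zs_coe s h0]
  have hcl : ∀ s, T.rk s = 1 → ∑ u, Rq T W₀ s u (zs u) = 0 := by
    intro s hs
    apply Subtype.ext
    rw [AddSubgroup.val_finsetSum]
    change _ = (0 : W₀.H (T.Y s))
    rw [← hsp.agree r z hz s hs]
    refine Finset.sum_congr rfl fun u _ => ?_
    change T.resL W₀ s u (zs u : W₀.H (T.Y u)) = _
    by_cases h0 : T.sgn s u ≠ 0
    · have h1 := h.rk_eq s u h0
      rw [zs_coe u (by omega)]
    · rw [res_not h0, res_not h0]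
  have hne : ∀ y, Lad.inc T.rk zs ≠ opd (Rq T W₀) (Gq T W₀) y := by
    intro y hy
    apply hz0
    rw [hsp.exact r z hz]
    refine ⟨fun s k => (y.1 s k : W₀.H (T.Y s)), fun s k hk => by
      dsimp only
      rw [vz y hk]; rfl, fun s k hk => ?_⟩
    have h1 : (Lad.inc T.rk zs).1 s k = (opd (Rq T W₀) (Gq T W₀) y).1 s k := by rw [hy]
    rw [opd_apply, if_pos hk, Lad.inc_apply] at h1
    have h2 := congrArg Subtype.val h1.symm
    rw [AddSubgroup.coe_add, AddSubgroup.val_finsetSum] at h2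
    have h3 : (((if 1 ≤ k then ∑ u, Rq T W₀ s u (y.1 u (k - 1)) else 0 : AQ W₀ (T.Y s))) :
        W₀.H (T.Y s)) = if k = 0 then 0 else ∑ u, T.resL W₀ s u (y.1 u (k - 1) :
          W₀.H (T.Y u)) := by
      by_cases h0 : k = 0
      · rw [if_neg (by omega), if_pos h0]; rfl
      · rw [if_pos (by omega), if_neg h0, AddSubgroup.val_finsetSum]; rfl
    rw [h3] at h2
    have h4 : ((if T.rk s = 0 ∧ k = 0 then zs s else 0 : AQ W₀ (T.Y s)) : W₀.H (T.Y s)) =
        if T.rk s = 0 then W₀.cl (T.Y s) (sp s z) else 0 := by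
      by_cases h0 : T.rk s = 0
      · rw [if_pos ⟨h0, by omega⟩, if_pos h0, zs_coe s h0]
      · rw [if_neg (by omega), if_neg h0]; rfl
    rw [h4] at h2
    exact h2
  -- the primitivity
  have hcob : T.IsCob W₀ fun s =>
      ((LinearMap.mulLeft W₀.K (W₀.cl (T.Y s) (T.D s))) ^ (m + 1)) (W₀.cl (T.Y s) (sp s z)) := by
    have h1 := (hsp.exact (r + (m + 1)) _ (divPow_mem (ops := ops) hD (m + 1) hz)).1 hprim
    have h2 := sp_pow h F hD hsp hz (m + 1)
    refine cast ?_ (h1.sub h2)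
    congr 1
    funext s
    abel
  have key := t.sign (m := m) hcl (fun s h0 => by
    apply Subtype.ext
    change wt (W₀.isInternal (T.Y s)) (T.Y s).dim (zs s : W₀.H (T.Y s)) =
      ((-(m : ℚ) : ℚ) : W₀.K) • (zs s : W₀.H (T.Y s))
    rw [zs_coe s h0, Fr.wt_gr (hzgr0 s h0)]
    congr 1
    rw [hdim s h0, hm, Nat.cast_sub hr]
    push_cast
    ring) (fun u hu => by
    apply Rat.cast_injective (α := W₀.K)
    have h1 := orth h hcob hu
    rw [Rat.cast_sum, Rat.cast_zero]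
    have h2 : ∀ s, (((if T.rk s = 0 then qf (F s) (((Lq F s) ^ (m + 1)) (zs s))
        ((weyl (Lq F s) (Λq F s)) (u.1 s 0)) else 0 : ℚ)) : W₀.K) =
        (-1) ^ (X.dim + (r + (m + 1))) * (if T.rk s = 0 then W₀.tr (T.Y s)
          (((LinearMap.mulLeft W₀.K (W₀.cl (T.Y s) (T.D s))) ^ (m + 1))
            (W₀.cl (T.Y s) (sp s z)) * (u.1 s 0 : W₀.H (T.Y s))) else 0) := by
      intro s
      by_cases h0 : T.rk s = 0
      · rw [if_pos h0, if_pos h0, qf_spec, hLz _ s h0]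
        have h3 := res_weyl (AS_L (W₀ := W₀) (F s).hD) (fun _ hx => (F s).pres hx)
          (F s).sl2.nil_e (F s).sl2.nil_f (u.1 s 0)
        change bf _ _ _ _ _ ((weyl (Lq F s) (Λq F s)) (u.1 s 0) : W₀.H (T.Y s)) = _
        rw [Lq, Λq, h3]
        have h4 := bf_wop (F s) (hHL s) (hzgr (m + 1) s h0) (u.1 s 0).2
        rw [hdim s h0] at h4
        exact h4
      · rw [if_neg h0, if_neg h0, mul_zero, Rat.cast_zero]
    rw [Finset.sum_congr rfl (fun s _ => h2 s), ← Finset.mul_sum, h1, mul_zero]) hne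
  -- the intersection number
  have hdeg := hsp.deg r (r + m) z (divPow ops D m z) hz (divPow_mem (ops := ops) hD m hz)
    (by omega)
  have hS : ((∑ s, if T.rk s = 0 then qf (F s) (zs s) ((weyl (Lq F s) (Λq F s))
      (((Lq F s) ^ m) (zs s))) else 0 : ℚ) : W₀.K) =
      (-1) ^ (X.dim + r) * (X.V.degCycle (ops.mul z (divPow ops D m z)) : W₀.K) := by
    have h1 := orth h (sp_pow h F hD hsp hz m) (t.opd_inc hcl)
    have h2 : ∀ s, (((if T.rk s = 0 then qf (F s) (zs s) ((weyl (Lq F s) (Λq F s))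
        (((Lq F s) ^ m) (zs s))) else 0 : ℚ)) : W₀.K) =
        (-1) ^ (X.dim + r) * (if T.rk s = 0 then W₀.tr (T.Y s) (W₀.cl (T.Y s) (sp s z) *
          ((LinearMap.mulLeft W₀.K (W₀.cl (T.Y s) (T.D s))) ^ m)
            (W₀.cl (T.Y s) (sp s z))) else 0) := by
      intro s
      by_cases h0 : T.rk s = 0
      · rw [if_pos h0, if_pos h0, qf_spec, zs_coe s h0]
        have h3 := res_weyl (AS_L (W₀ := W₀) (F s).hD) (fun _ hx => (F s).pres hx)
          (F s).sl2.nil_e (F s).sl2.nil_f (((Lq F s) ^ m) (zs s))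
        have h4 := bf_wop (F s) (hHL s) (hzgr0 s h0)
          (((Lq F s) ^ m) (zs s)).2
        rw [hdim s h0, hLz _ s h0] at h4
        change bf _ _ _ _ _ ((weyl (Lq F s) (Λq F s)) (((Lq F s) ^ m) (zs s)) :
          W₀.H (T.Y s)) = _
        rw [← h4, ← hLz _ s h0]
        exact congrArg _ h3
      · rw [if_neg h0, if_neg h0, mul_zero, Rat.cast_zero]
    rw [Rat.cast_sum, Finset.sum_congr rfl (fun s _ => h2 s), ← Finset.mul_sum]
    congr 1
    rw [hdeg, Rat.cast_sum, ← sub_eq_zero, ← Finset.sum_sub_distrib]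
    rw [← neg_eq_zero, ← Finset.sum_neg_distrib]
    refine Eq.trans (Finset.sum_congr rfl fun s _ => ?_) h1
    by_cases h0 : T.rk s = 0
    · rw [if_pos h0, if_pos h0, if_pos h0, Lad.inc_apply, if_pos ⟨h0, rfl⟩, zs_coe s h0,
        neg_sub, ← W₀.tr_cl, W₀.cl_mul, sub_mul, map_sub]
      · have h5 : AS W₀ (T.Y s) (W₀.cl (T.Y s) (sp s z)) :=
          AS.of ⟨_, hsp.mem r z hz s h0, rfl⟩
        rw [h5.comm, h5.comm]
      · have := ops₀.mul_mem (hsp.mem r z hz s h0)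
          (hsp.mem (r + m) _ (divPow_mem (ops := ops) hD m hz) s h0)
        rwa [show r + (r + m) = (T.Y s).dim by rw [hdim s h0]; omega] at this
    · simp only [if_neg h0, Rat.cast_zero, sub_zero, neg_zero]
  have hS' : (∑ s, if T.rk s = 0 then qf (F s) (zs s) ((weyl (Lq F s) (Λq F s))
      (((Lq F s) ^ m) (zs s))) else 0 : ℚ) =
      (-1) ^ (X.dim + r) * X.V.degCycle (ops.mul z (divPow ops D m z)) := by
    apply Rat.cast_injective (α := W₀.K)
    rw [hS]
    push_cast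
    rfl
  rw [hS'] at key
  rw [← mul_assoc, ← pow_add] at key
  have h9 : (-1 : ℚ) ^ (m + (X.dim + r)) = (-1) ^ r := by
    rw [show m + (X.dim + r) = 2 * (X.dim - r) + r by omega, pow_add, pow_mul]
    simp
  rwa [h9] at key

lemma SatisfiesA.out (h : SatisfiesA W X D) (hD : X.IsCyc 1 D) :
    HardLefschetz W X D ∧ LefschetzA W X D := by
  rcases h with ⟨h1, h2 | h2⟩ | h
  · exact ⟨h1, h2⟩
  · exact ⟨h1, lefschetzA_of_D hD h1 h2⟩
  · exact ⟨(h.out hD).1, h.A hD⟩

theorem semistable_final (h : T.IsSemistable W₀ X.dim) (hD : X.IsCyc 1 D)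
    (hsp : IsSpecialization W X D W₀ T sp) (hA : ∀ s, SatisfiesA W₀ (T.Y s) (T.D s))
    (hH : ∀ s, HodgeType W₀ (T.Y s) (T.D s)) :
    HodgeType W X D ∧ (LefschetzA W X D ∨ IsLefschetz W X D →
      HomEqNum W X ∧ ∀ Y, Dominates W X Y → HomEqNum W Y) := by
  have h1 := hodgeType_of_semistable h.semi hD hsp.spec
    (fun s => ((hA s).out (h.semi.isCyc s)).1)
    (fun s => ((hA s).out (h.semi.isCyc s)).2) hH
  refine ⟨h1, fun h2 => ?_⟩
  have h3 : LefschetzA W X D := by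
    rcases h2 with h2 | h2
    · exact h2
    · exact h2.A hD
  have h4 := homEqNum_of_A hD h3 h1
  exact ⟨h4, fun Y hY => h4.image hY⟩

end Pool.Agent.K9h28
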