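import Pool.Agent.K9h28.GnDefs

/-!
# Strictly semistable reduction: the linear maps
-/

set_option autoImplicit false

open CategoryTheory AlgebraicGeometry

universe u u' v v'

namespace Pool.Agent.K9h28

open Pool.Agent.H914 Pool.Agent.H914.VarClass Pool.Agent.H914.VarClass.Obj
  Pool.Agent.H914.WeilCohomology

variable {k : Type u} [Field k] {𝒱 : VarClass k} {ops : CycleOps 𝒱}
  {k₀ : Type u'} [Field k₀] {𝒱₀ : VarClass k₀} {ops₀ : CycleOps 𝒱₀}

namespace Strata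

variable (T : Strata 𝒱₀) (W₀ : WeilCohomology.{u', v'} ops₀)

/-- The restriction as a linear map. -/
noncomputable def resL (s u : T.S) : W₀.H (T.Y u) →ₗ[W₀.K] W₀.H (T.Y s) :=
  if h : T.sgn s u ≠ 0 then (T.sgn s u : W₀.K) • (W₀.map (T.incl s u h)).toLinearMap else 0

/-- The Gysin map as a linear map. -/
noncomputable def gysL (s u : T.S) : W₀.H (T.Y s) →ₗ[W₀.K] W₀.H (T.Y u) :=
  if h : T.sgn s u ≠ 0 then (T.sgn s u : W₀.K) • W₀.push (T.incl s u h) else 0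

lemma resL_eq (s u : T.S) (x : W₀.H (T.Y u)) : T.res W₀ s u x = T.resL W₀ s u x := by
  rw [res, resL]
  split_ifs
  · rw [sPull, ← Int.cast_smul_eq_zsmul W₀.K]
    rfl
  · rfl

lemma gysL_eq (s u : T.S) (x : W₀.H (T.Y s)) : T.gys W₀ s u x = T.gysL W₀ s u x := by
  rw [gys, gysL]
  split_ifs
  · rw [sPush, ← Int.cast_smul_eq_zsmul W₀.K]
    rfl
  · rfl

/-- The properties of the strata. -/
structure IsSemi (n : ℕ) : Prop where
  dim_add : ∀ s, (T.Y s).dim + T.rk s = n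
  rk_eq : ∀ s u, T.sgn s u ≠ 0 → T.rk s = T.rk u + 1
  isCyc : ∀ s, (T.Y s).IsCyc 1 (T.D s)
  cl_D : ∀ s u (h : T.sgn s u ≠ 0),
    W₀.cl (T.Y s) (T.D s) = W₀.map (T.incl s u h) (W₀.cl (T.Y u) (T.D u))
  res_res : ∀ s v x, ∑ u, T.resL W₀ s u (T.resL W₀ u v x) = 0
  res_gys : ∀ s s', 1 ≤ T.rk s → T.rk s = T.rk s' → ∀ x,
    ∑ v, T.resL W₀ s v (T.gysL W₀ s' v x) + ∑ u, T.gysL W₀ u s (T.resL W₀ u s' x) = 0

/-- Coboundaries. -/
def IsCob (z : ∀ s, W₀.H (T.Y s)) : Prop :=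
  ∃ y : ∀ s, ℕ → W₀.H (T.Y s), (∀ s k, T.rk s < k → y s k = 0) ∧
    ∀ s k, k ≤ T.rk s → (if k = 0 then 0 else ∑ u, T.resL W₀ s u (y u (k - 1))) +
      ∑ u, T.gysL W₀ u s (y u k) = if T.rk s = 0 then z s else 0

variable {T W₀}

lemma isCob_iff (z : ∀ s, W₀.H (T.Y s)) : T.IsCoboundary W₀ z ↔ T.IsCob W₀ z := by
  simp only [IsCoboundary, IsCob, sumC, resL_eq, gysL_eq]

lemma IsSemistable.semi {n : ℕ} (h : T.IsSemistable W₀ n) : T.IsSemi W₀ n where
  dim_add := h.dim_add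
  rk_eq := h.rk_eq
  isCyc s := (h.pol s).1
  cl_D s u hs := by
    have := (h.pol s).2 u hs
    rw [sPull, one_smul] at this
    exact this
  res_res s v x := by
    have := h.res_res s v x
    simp only [sumC, resL_eq] at this
    exact this
  res_gys s s' h1 h2 x := by
    have := h.res_gys s s' h1 h2 x
    simp only [sumC, resL_eq, gysL_eq] at this
    exact this

end Strata

/-- The specialization. -/
structure IsSpec (W : WeilCohomology.{u, v} ops) (X : 𝒱.Obj) (D : X.Cycles)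
    (W₀ : WeilCohomology.{u', v'} ops₀) (T : Strata 𝒱₀)
    (sp : ∀ s, X.Cycles → (T.Y s).Cycles) : Prop where
  mem : ∀ r z, X.IsCyc r z → ∀ s, T.rk s = 0 → (T.Y s).IsCyc r (sp s z)
  agree : ∀ r z, X.IsCyc r z → ∀ s, T.rk s = 1 →
    ∑ u, T.resL W₀ s u (W₀.cl (T.Y u) (sp u z)) = 0
  mul_D : ∀ r z, X.IsCyc r z → T.IsCob W₀ fun s =>
    W₀.cl (T.Y s) (sp s (ops.mul D z)) - W₀.cl (T.Y s) (T.D s) * W₀.cl (T.Y s) (sp s z)
  deg : ∀ p q z w, X.IsCyc p z → X.IsCyc q w → p + q = X.dim →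
    X.V.degCycle (ops.mul z w) =
      ∑ s, if T.rk s = 0 then (T.Y s).V.degCycle (ops₀.mul (sp s z) (sp s w)) else 0
  exact : ∀ r z, X.IsCyc r z →
    (W.cl X z = 0 ↔ T.IsCob W₀ fun s => W₀.cl (T.Y s) (sp s z))

lemma IsSpecialization.spec {W : WeilCohomology.{u, v} ops} {X : 𝒱.Obj} {D : X.Cycles}
    {W₀ : WeilCohomology.{u', v'} ops₀} {T : Strata 𝒱₀} {sp : ∀ s, X.Cycles → (T.Y s).Cycles}
    (h : IsSpecialization W X D W₀ T sp) : IsSpec W X D W₀ T sp where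
  mem := h.mem
  agree r z hz s hs := by
    have := h.agree r z hz s hs
    simp only [sumC, Strata.resL_eq] at this
    exact this
  mul_D r z hz := (Strata.isCob_iff _).1 (h.mul_D r z hz)
  deg := h.deg
  exact r z hz := (h.exact r z hz).trans (Strata.isCob_iff _)

end Pool.Agent.K9h28
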