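import Pool.Agent.R908.KqC
import Pool.Agent.R908.RatC

/-!
# Numerically trivial classes and rational coefficients; conjugate operators
-/

open CategoryTheory AlgebraicGeometry TensorProduct Polynomial

universe u v w w'

namespace Pool.Agent.K9h28

open Pool.Agent.H914 Pool.Agent.H914.VarClass Pool.Agent.H914.VarClass.Obj
  Pool.Agent.H914.WeilCohomology Pool.Agent.H281R3.HT Pool.Agent.R908

/-- Elements of a field of characteristic zero are combinations of elements independent over the
rational numbers. -/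
lemma exists_rat_coords {K : Type*} [Field K] [CharZero K] {κ : Type*} [Fintype κ] (c : κ → K) :
    ∃ (n : ℕ) (lam : Fin n → K) (q : κ → Fin n → ℚ), LinearIndependent ℚ lam ∧
      ∀ i, c i = ∑ t, (q i t : K) * lam t := by
  classical
  obtain ⟨S, hSr, hSspan, hSli⟩ := exists_linearIndependent ℚ (Set.range c)
  have hfin : S.Finite := (Set.finite_range c).subset hSr
  have := hfin.fintype
  set ε := Fintype.equivFin S with hε
  have h2 : ∀ i, ∃ r : Fin (Fintype.card S) → ℚ, ∑ l, r l • ((ε.symm l : S) : K) = c i := by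
    intro i
    have h3 : c i ∈ Submodule.span ℚ (Set.range (fun l => ((ε.symm l : S) : K))) := by
      have h4 : Set.range (fun l => ((ε.symm l : S) : K)) = S := by
        ext x
        constructor
        · rintro ⟨l, rfl⟩
          exact (ε.symm l).2
        · intro hx
          refine ⟨ε ⟨x, hx⟩, ?_⟩
          change ((ε.symm (ε ⟨x, hx⟩) : S) : K) = x
          rw [Equiv.symm_apply_apply]
      rw [h4, hSspan]
      exact Submodule.subset_span ⟨i, rfl⟩
    exact (Submodule.mem_span_range_iff_exists_fun ℚ).1 h3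
  choose r hr using h2
  refine ⟨Fintype.card S, fun l => ((ε.symm l : S) : K), r, hSli.comp ε.symm ε.symm.injective, ?_⟩
  intro i
  rw [← hr i]
  refine Finset.sum_congr rfl fun l _ => ?_
  rw [Algebra.smul_def, eq_ratCast]

variable {k : Type u} [Field k] {𝒱 : VarClass k} {ops : CycleOps 𝒱}
  {W : WeilCohomology.{u, v} ops} {X Y Z X' Y' : 𝒱.Obj}

/-- Numerically trivial combinations of algebraic classes are combinations of numerically trivial
classes of cycles. -/
theorem numTriv_span {j : ℤ} {x : W.H X} (hx : x ∈ spanCycles W X j) (hn : NumTriv W X x) :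
    x ∈ Submodule.span W.K {y | ∃ l : ℕ, y ∈ algClasses W X l ∧ NumTriv W X y} := by
  classical
  rcases lt_or_ge j 0 with hneg | hpos
  · have h1 := spanCycles_deg hx
    rw [grZ_of_neg (by omega)] at h1
    rw [(Submodule.mem_bot _).1 h1]
    exact Submodule.zero_mem _
  obtain ⟨l, rfl⟩ := Int.eq_ofNat_of_zero_le hpos
  have hx' : x ∈ Submodule.span W.K (algClasses W X l) := by
    rw [← spanCycles_eq]; exact hx
  obtain ⟨κ, _, c, a, rfl⟩ : ∃ (κ : Type v) (_ : Fintype κ) (c : κ → W.K)
      (a : κ → algClasses W X l), x = ∑ i, c i • (a i : W.H X) := by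
    obtain ⟨s, hs⟩ := (Finsupp.mem_span_iff_linearCombination W.K _ x).1 hx'
    refine ⟨s.support, inferInstance, fun i => s i, fun i => (i : algClasses W X l), ?_⟩
    rw [← hs, Finsupp.linearCombination_apply, Finsupp.sum, ← Finset.sum_coe_sort]
  obtain ⟨n, lam, q, hlam, hc⟩ := exists_rat_coords c
  have hq : ∀ t : Fin n, NumTriv W X (∑ i, (q i t : W.K) • (a i : W.H X)) := by
    intro t
    have hcyc : ∑ i, (q i t : W.K) • (a i : W.H X) ∈ algClasses W X l :=
      alg_sum Finset.univ _ (fun i => q i t) (fun i _ => (a i).2)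
    intro m g hg
    by_cases hm : m < 0
    · have h1 := spanCycles_deg hg
      rw [grZ_of_neg (by omega)] at h1
      rw [(Submodule.mem_bot _).1 h1, mul_zero, map_zero]
    obtain ⟨m, rfl⟩ := Int.eq_ofNat_of_zero_le (not_lt.1 hm)
    have hg' : g ∈ Submodule.span W.K (algClasses W X m) := by
      rw [← spanCycles_eq]; exact hg
    clear hg
    induction hg' using Submodule.span_induction with
    | mem b hb =>
      choose r hr using fun i : κ => alg_rat (a i).2 hb
      have e0 : ∑ i, c i * (r i : W.K) = 0 := by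
        have h1 := hn m b (alg_mem_span hb)
        rw [Finset.sum_mul, map_sum] at h1
        rw [← h1]
        refine Finset.sum_congr rfl fun i _ => ?_
        rw [smul_mul_assoc, map_smul, smul_eq_mul]
        congr 1
        exact (hr i).symm
      have e1 : ∑ t, (∑ i, r i * q i t) • lam t = 0 := by
        rw [← e0]
        simp only [Finset.sum_smul]
        rw [Finset.sum_comm]
        refine Finset.sum_congr rfl fun i _ => ?_
        rw [hc i, Finset.sum_mul]
        refine Finset.sum_congr rfl fun t _ => ?_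
        rw [Algebra.smul_def, eq_ratCast]
        push_cast
        ring
      have e2 := Fintype.linearIndependent_iff.1 hlam _ e1 t
      rw [Finset.sum_mul, map_sum]
      have e3 : ∀ i, W.tr X ((q i t : W.K) • (a i : W.H X) * b) = ((r i * q i t : ℚ) : W.K) := by
        intro i
        have h1 := hr i
        rw [bil_apply] at h1
        rw [smul_mul_assoc, map_smul, h1, smul_eq_mul, Rat.cast_mul, mul_comm]
      rw [Finset.sum_congr rfl (fun i _ => e3 i), ← Rat.cast_sum, e2, Rat.cast_zero]
    | zero => rw [mul_zero, map_zero]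
    | add x y _ _ hx hy => rw [mul_add, map_add, hx, hy, add_zero]
    | smul s x _ hx => rw [mul_smul_comm, map_smul, hx, smul_zero]
  have hsum : ∑ i, c i • (a i : W.H X) = ∑ t, lam t • ∑ i, (q i t : W.K) • (a i : W.H X) := by
    simp only [Finset.smul_sum]
    rw [Finset.sum_comm]
    refine Finset.sum_congr rfl fun i _ => ?_
    rw [hc i, Finset.sum_smul]
    refine Finset.sum_congr rfl fun t _ => ?_
    rw [smul_smul, mul_comm]
  rw [hsum]
  refine Submodule.sum_mem _ fun t _ => Submodule.smul_mem _ _ (Submodule.subset_span ⟨l, ?_, hq t⟩)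
  exact alg_sum Finset.univ _ (fun i => q i t) (fun i _ => (a i).2)

/-- The numbers `c`, `c'` of `K` are complex conjugate, for an embedding of the algebraic numbers of
an extension of `K`. -/
def KConj {K L : Type*} [Field K] [Field L] [CharZero L] [Algebra K L]
    (ι : algebraicClosure ℚ L →ₐ[ℚ] ℂ) (c c' : K) : Prop :=
  CConj ι (algebraMap K L c) (algebraMap K L c')

section KC

variable {L : Type*} [Field L] [CharZero L] {K : Type*} [Field K] [Algebra K L]
  {ι : algebraicClosure ℚ L →ₐ[ℚ] ℂ}

lemma KConj.mul {c c' d d' : K} (h : KConj ι c c') (h' : KConj ι d d') :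
    KConj ι (c * d) (c' * d') := by
  unfold KConj
  rw [map_mul, map_mul]
  exact CConj.mul h h'

lemma KConj.one : KConj (K := K) ι 1 1 := by
  unfold KConj
  rw [map_one]
  exact CConj.one

end KC

/-- The two operators are combinations of the same correspondences with rational coefficients,
with conjugate coefficients. -/
def KPair (W : WeilCohomology.{u, v} ops) {L : Type w} [Field L] [Algebra W.K L] [CharZero L]
    (ι : algebraicClosure ℚ L →ₐ[ℚ] ℂ) (X : 𝒱.Obj) (E E' : W.H X →ₗ[W.K] W.H X) : Prop :=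
  ∃ (κ : Type) (_ : Fintype κ) (c c' : κ → W.K) (ρ : κ → (W.H X →ₗ[W.K] W.H X)),
    (∀ i, KConj ι (c i) (c' i)) ∧ (∀ i, ρ i ∈ RatOp W X X) ∧
    E = ∑ i, c i • ρ i ∧ E' = ∑ i, c' i • ρ i

section KP

variable {L : Type w} [Field L] [Algebra W.K L] [CharZero L]
  {ι : algebraicClosure ℚ L →ₐ[ℚ] ℂ}

lemma KPair.self {φ : W.H X →ₗ[W.K] W.H X} (h : φ ∈ RatOp W X X) : KPair W ι X φ φ := by
  refine ⟨Unit, inferInstance, fun _ => 1, fun _ => 1, fun _ => φ, fun _ => KConj.one,
    fun _ => h, ?_, ?_⟩ <;> simp

lemma KPair.ext {E E' : W.H X →ₗ[W.K] W.H X} {F F' : W.H Y →ₗ[W.K] W.H Y}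
    (h : KPair W ι X E E') (h' : KPair W ι Y F F') :
    KPair W ι (X.prod Y) (extHom W E F) (extHom W E' F') := by
  obtain ⟨κ, _, c, c', ρ, h1, h2, rfl, rfl⟩ := h
  obtain ⟨κ', _, d, d', τ, h1', h2', rfl, rfl⟩ := h'
  have key : ∀ (c : κ → W.K) (d : κ' → W.K),
      extHom W (∑ i, c i • ρ i) (∑ i, d i • τ i) =
        ∑ x : κ × κ', (c x.1 * d x.2) • extHom W (ρ x.1) (τ x.2) := by
    intro c d
    rw [Fintype.sum_prod_type]
    apply ext_kunneth_lin
    intro a b
    rw [extHom_tmul, LinearMap.sum_apply, LinearMap.sum_apply, LinearMap.sum_apply, map_sum,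
      map_sum, Finset.sum_mul]
    apply Finset.sum_congr rfl
    intro i _
    rw [LinearMap.sum_apply, Finset.mul_sum]
    apply Finset.sum_congr rfl
    intro j _
    rw [LinearMap.smul_apply, LinearMap.smul_apply, LinearMap.smul_apply, extHom_tmul, map_smul,
      map_smul, smul_mul_smul_comm]
  refine ⟨κ × κ', inferInstance, fun x => c x.1 * d x.2, fun x => c' x.1 * d' x.2,
    fun x => extHom W (ρ x.1) (τ x.2), fun x => (h1 _).mul (h1' _),
    fun x => RatOp.ext (h2 _) (h2' _), key _ _, key _ _⟩

/-- **Transport to the conjugate.** -/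
lemma KPair.eq_zero {E E' : W.H Z →ₗ[W.K] W.H Z}
    (h : KPair W ι Z E E') (hI : InjectivityConj W Z) {j : ℕ} {x : W.H Z}
    (hx : x ∈ algClasses W Z j) (h0 : E' x = 0) : E x = 0 := by
  obtain ⟨κ, _, c, c', ρ, h1, h2, rfl, rfl⟩ := h
  obtain ⟨n, d, r, hd, hr⟩ := exists_rat_basis hI (fun i => ρ i x)
    (fun i => RatOp.alg (h2 i) hx)
  have key : ∀ c : κ → W.K, (∑ i, c i • ρ i) x = ∑ l, (∑ i, c i * (r i l : W.K)) • d l := by
    intro c
    rw [LinearMap.sum_apply]
    simp only [Finset.sum_smul]
    rw [Finset.sum_comm]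
    refine Finset.sum_congr rfl fun i _ => ?_
    rw [LinearMap.smul_apply, hr i, Finset.smul_sum]
    refine Finset.sum_congr rfl fun l _ => ?_
    rw [smul_smul]
  have h3 : ∀ l, ∑ i, c' i * (r i l : W.K) = 0 :=
    Fintype.linearIndependent_iff.1 hd _ ((key c').symm.trans h0)
  rw [key c]
  apply Finset.sum_eq_zero
  intro l _
  have h4 : CConj ι (algebraMap W.K L (∑ i, c i * (r i l : W.K)))
      (algebraMap W.K L (∑ i, c' i * (r i l : W.K))) := by
    rw [map_sum, map_sum]
    refine CConj.sum _ fun i _ => ?_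
    rw [map_mul, map_mul, map_ratCast]
    exact CConj.mul (h1 i) (CConj.rat _)
  rw [h3 l, map_zero] at h4
  have h5 := h4.left_zero rfl
  rw [(map_eq_zero_iff _ (algebraMap W.K L).injective).1 h5, zero_smul]

end KP

end Pool.Agent.K9h28
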