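import Pool.Agent.K9h28.HaA

/-!
# Numerically trivial classes and conjugate blocks
-/

open CategoryTheory AlgebraicGeometry TensorProduct Function

universe u v w w'

namespace Pool.Agent.K9h28

open Pool.Agent.H914 Pool.Agent.H914.VarClass Pool.Agent.H914.VarClass.Obj
  Pool.Agent.H914.WeilCohomology Pool.Agent.R908

variable {k : Type u} [Field k] {𝒱 : VarClass k} {ops : CycleOps 𝒱}
  {W : WeilCohomology.{u, v} ops} {X Y Z X' Y' Z' : 𝒱.Obj}

/-- The operators `p (l s)` in the slots. -/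
noncomputable def blockOp {Λ : Type w} (A B : Mot W) (p : Λ → (W.H A.X →ₗ[W.K] W.H A.X)) :
    ∀ m : ℕ, (Fin m → Λ) → (W.H (pX A.X B.X m) →ₗ[W.K] W.H (pX A.X B.X m))
  | 0, _ => B.e
  | m + 1, l => extHom W (p (l 0)) (blockOp A B p m (fun i => l i.succ))

lemma msl_blockOp {Λ : Type w} (A B : Mot W) (p : Λ → (W.H A.X →ₗ[W.K] W.H A.X)) :
    ∀ (m : ℕ) (l : Fin m → Λ) (f : Fin m → (W.H A.X →ₗ[W.K] W.K))
    (g : W.H B.X →ₗ[W.K] W.K),
    msl W m f g ∘ₗ blockOp A B p m l = msl W m (fun i => f i ∘ₗ p (l i)) (g ∘ₗ B.e) := by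
  intro m
  induction m with
  | zero => exact fun _ _ _ => rfl
  | succ m ih =>
    intro l f g
    change tens W (f 0) (msl W m (fun i => f i.succ) g) ∘ₗ
      extHom W (p (l 0)) (blockOp A B p m (fun i => l i.succ)) = _
    rw [tens_extHom, ih]
    rfl

section Main

variable {A : Mot W} {w : ℕ} {ε : W.K} {θ θ' : W.H A.X →ₗ[W.K] W.H A.X} {Q : Mot W → Prop}
  {Λ : Type w} [Fintype Λ] {bar : Λ → Λ} {p : Λ → (W.H A.X →ₗ[W.K] W.H A.X)}

/-- If all forms given by numerically trivial classes of cycles are zero, then all are. -/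
lemma FA_eq_zero_of {m : ℕ} (h : ∀ (B : Mot W) (q : ℕ) (g : W.H B.X →ₗ[W.K] W.K) (l : ℕ)
    (x : W.H (pX A.X B.X m)), Q B → Par W q g → g ∘ₗ B.e = g → x ∈ algClasses W _ l →
      NumTriv W _ x → (fun v : Fin m → TT A => msl W m (fun s => psi A θ (v s)) g x) = 0)
    {F : (Fin m → TT A) → W.K} (hF : F ∈ FA A θ Q m) : F = 0 := by
  induction hF using Submodule.span_induction with
  | mem F hF =>
    obtain ⟨B, q, g, j, x, hB, hq, hg, hx, hn, rfl⟩ := hF
    have hx' := numTriv_span hx hn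
    clear hn hx
    induction hx' using Submodule.span_induction with
    | mem y hy =>
      obtain ⟨l, hy, hyn⟩ := hy
      exact h B q g l y hB hq hg hy hyn
    | zero => funext v; exact map_zero _
    | add x y _ _ hx hy =>
      funext v
      have h1 := congrFun hx v
      have h2 := congrFun hy v
      beta_reduce at h1 h2 ⊢
      rw [map_add, h1, h2]
      exact add_zero _
    | smul c x _ hx =>
      funext v
      have h1 := congrFun hx v
      beta_reduce at h1 ⊢
      rw [map_smul, h1]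
      exact smul_zero _
  | zero => rfl
  | add F F' _ _ hF hF' => rw [hF, hF', add_zero]
  | smul c F _ hF => rw [hF, smul_zero]

/-- A nonzero form is nonzero on some elements of the blocks. -/
lemma exists_block_vec (hb : Blocks A θ Finset.univ bar p) {m : ℕ} {F : (Fin m → TT A) → W.K}
    (hF : F ∈ FA A θ Q m) (hne : F ≠ 0) :
    ∃ (r : Fin m → Λ) (x : Fin m → TT A), (∀ s, p (r s) (x s) = x s) ∧ F x ≠ 0 := by
  classical
  obtain ⟨g, hg⟩ := FA_multi hF
  obtain ⟨y, hy⟩ := Function.ne_iff.1 hne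
  have hp : ∀ l x, p l x ∈ TT A := fun l x => ⟨p l x, congrArg (fun F => F x) (hb.e_p l)⟩
  have e1 : ∀ s, y s = ∑ l, (⟨p l (y s), hp l (y s)⟩ : TT A) := by
    intro s
    apply Subtype.ext
    rw [AddSubmonoidClass.coe_finset_sum]
    have h2 := congrArg (fun F => F (y s : W.H A.X)) hb.sum
    beta_reduce at h2
    rw [LinearMap.sum_apply, TT_e] at h2
    exact h2.symm
  have e2 : g y = ∑ r : Fin m → Λ, g fun s => (⟨p (r s) (y s), hp (r s) (y s)⟩ : TT A) := by
    conv_lhs => rw [show y = fun s => ∑ l, (⟨p l (y s), hp l (y s)⟩ : TT A) from funext e1]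
    rw [MultilinearMap.map_sum]
  have e3 : ∃ r : Fin m → Λ, g (fun s => (⟨p (r s) (y s), hp (r s) (y s)⟩ : TT A)) ≠ 0 := by
    by_contra hcon
    push Not at hcon
    apply hy
    rw [← hg, e2]
    exact Finset.sum_eq_zero fun r _ => hcon r
  obtain ⟨r, hr⟩ := e3
  refine ⟨r, _, fun s => ?_, by rw [← hg]; exact hr⟩
  exact congrArg (fun F => F (y s : W.H A.X)) (hb.idem (r s))

/-- **The conjugation principle.** -/
theorem pM_num_conj (h : SelfDual A w ε θ θ') (hb : Blocks A θ Finset.univ bar p)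
    (hQt : ∀ B B', Q B → Q B' → Q (B.tensor B'))
    (hQ : ∀ B, Q B → B.Num) (𝒢 : Set (Symmetry W)) (hAS : ∀ S ∈ 𝒢, Comm S A)
    (hθS : ∀ S ∈ 𝒢, SimTheta S θ) (hQS : ∀ S ∈ 𝒢, ∀ B, Q B → Comm S B)
    (hirr : ∀ U : Submodule W.K (W.H A.X), U ≤ LinearMap.range A.e →
      (∀ (δ : ℤ) (φ : W.H A.X →ₗ[W.K] W.H A.X), φ ∈ KOp W A.X A.X δ → ∀ x ∈ U, A.e (φ x) ∈ U) →
      (∀ S ∈ 𝒢, ∀ x ∈ U, S.σ A.X x ∈ U) → ∀ l, (∃ x ∈ U, x ≠ 0 ∧ p l x = x) →
        ∀ y, p l y = y → y ∈ U)
    (hconj : ∀ B, Q B → ∀ (m : ℕ) (l : Fin m → Λ) (j : ℕ) (x : W.H (pX A.X B.X m)),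
      x ∈ algClasses W _ j → NumTriv W _ x →
        blockOp A B p m (fun s => bar (l s)) x = 0 → blockOp A B p m l x = 0)
    {B : Mot W} (hB : Q B) (m : ℕ) : (pM A B m).Num := by
  classical
  -- all forms are zero
  have hzero : ∀ (m : ℕ) (F : (Fin m → TT A) → W.K), F ∈ FA A θ Q m → F = 0 := by
    intro m F hF
    by_contra hne
    obtain ⟨v, hv1, hv2⟩ := hb.exists_wts h hQt hQ 𝒢 hAS hθS hQS hirr hF hne
    apply hne
    refine FA_eq_zero_of ?_ hF
    intro B q g l₀ x hB hq hg hx hn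
    by_contra hFx
    have hgen : IsGen A θ Q m (fun v : Fin m → TT A => msl W m (fun s => psi A θ (v s)) g x) :=
      ⟨B, q, g, _, x, hB, hq, hg, alg_mem_span hx, hn, rfl⟩
    obtain ⟨r, y, hry, hy⟩ := exists_block_vec hb (FA_gen hgen) hFx
    have hsum1 := hv2 _ (FA_gen hgen) y r hry hy
    -- the components of `x`
    have hb1 : blockOp A B p m (fun s => bar (r s)) x ≠ 0 := by
      intro h0
      apply hy
      have e1 : (fun s => psi A θ (y s : W.H A.X)) =
          fun s => psi A θ (y s : W.H A.X) ∘ₗ p (bar (r s)) := by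
        funext s
        apply LinearMap.ext
        intro z
        rw [LinearMap.comp_apply, ← hb.adj, hry]
      beta_reduce
      rw [e1]
      conv_lhs => rw [← hg]
      rw [← msl_blockOp, LinearMap.comp_apply, h0, map_zero]
    have hb2 : blockOp A B p m r x ≠ 0 := by
      intro h0
      apply hb1
      refine hconj B hB m (fun s => bar (r s)) l₀ x hx hn ?_
      have e1 : (fun s => bar (bar (r s))) = r := funext fun s => hb.bb (r s)
      rw [e1]
      exact h0
    obtain ⟨f, g', hfg⟩ : ∃ f g', msl W m f g' (blockOp A B p m r x) ≠ 0 := by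
      by_contra hcon
      push Not at hcon
      exact hb2 (msl_sep m _ hcon)
    have e2 : msl W m f g' (blockOp A B p m r x) =
        msl W m (fun i => f i ∘ₗ p (r i)) (g' ∘ₗ B.e) x := by
      rw [← msl_blockOp, LinearMap.comp_apply]
    have hsum := sum_proj (W.isInternal B.X) (N := 2 * B.X.dim + 1)
      (fun i hi => W.gr_eq_bot B.X i (by omega))
    have h3 : g' ∘ₗ B.e = ∑ i ∈ Finset.range (2 * B.X.dim + 1),
        g' ∘ₗ proj (W.isInternal B.X) i ∘ₗ B.e := by
      apply LinearMap.ext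
      intro y
      rw [LinearMap.comp_apply, LinearMap.sum_apply]
      have h4 := congrArg (fun F => F (B.e y)) hsum
      simp only [LinearMap.sum_apply, Module.End.one_apply] at h4
      conv_lhs => rw [← h4]
      rw [map_sum]
      rfl
    rw [e2, h3, msl_sum_g, LinearMap.sum_apply] at hfg
    obtain ⟨i, -, hi⟩ := Finset.exists_ne_zero_of_sum_ne_zero hfg
    choose t ht using fun s => h.exists_psi (f s)
    have hp : ∀ l x, p l x ∈ TT A := fun l x => ⟨p l x, congrArg (fun F => F x) (hb.e_p l)⟩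
    have e4 : (fun s => f s ∘ₗ p (r s)) =
        fun s => psi A θ ((⟨p (bar (r s)) (t s), hp _ _⟩ : TT A) : W.H A.X) := by
      funext s
      apply LinearMap.ext
      intro z
      have e5 : p (r s) z = A.e (p (r s) z) := (congrArg (fun F => F z) (hb.e_p (r s))).symm
      have e6 : f s (A.e (p (r s) z)) = psi A θ (t s) (p (r s) z) :=
        congrArg (fun F => F (p (r s) z)) (ht s)
      rw [LinearMap.comp_apply, e5, e6, hb.adj, hb.bb]
    rw [e4] at hi
    have hgen2 : IsGen A θ Q m (fun v : Fin m → TT A => msl W m (fun s => psi A θ (v s))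
        (g' ∘ₗ proj (W.isInternal B.X) i ∘ₗ B.e) x) :=
      ⟨B, i, g' ∘ₗ proj (W.isInternal B.X) i ∘ₗ B.e, _, x, hB, par_proj g' i B.mem, by
        rw [LinearMap.comp_assoc, LinearMap.comp_assoc, B.idem], alg_mem_span hx, hn, rfl⟩
    have hsum2 := hv2 _ (FA_gen hgen2) (fun s => ⟨p (bar (r s)) (t s), hp _ _⟩)
      (fun s => bar (r s)) (fun s => congrArg (fun F => F (t s : W.H A.X)) (hb.idem (bar (r s))))
      hi
    have hpn : ∀ s, p (r s) ≠ 0 := by
      intro s h0
      have h4 : y s = 0 := by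
        apply Subtype.ext
        rw [← hry s, h0]
        rfl
      obtain ⟨G, hG⟩ := FA_multi (FA_gen hgen)
      apply hy
      rw [← hG]
      exact G.map_coord_zero s h4
    have h7 : ∑ s, v (bar (r s)) = -∑ s, v (r s) := by
      rw [← Finset.sum_neg_distrib]
      exact Finset.sum_congr rfl fun s _ => hv1 _ (hpn s)
    linarith
  intro j (x : W.H (pX A.X B.X m)) hx hn
  change pE A B m x = 0
  apply msl_sep
  intro f g
  have h1 := congrArg (fun F => F x) (msl_pE A B m f g)
  beta_reduce at h1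
  rw [LinearMap.comp_apply] at h1
  rw [h1]
  choose t ht using fun s => h.exists_psi (f s)
  have h2 : (fun i => f i ∘ₗ A.e) = fun i => psi A θ (t i) := funext ht
  rw [h2]
  have hsum := sum_proj (W.isInternal B.X) (N := 2 * B.X.dim + 1)
    (fun i hi => W.gr_eq_bot B.X i (by omega))
  have h3 : g ∘ₗ B.e = ∑ i ∈ Finset.range (2 * B.X.dim + 1),
      g ∘ₗ proj (W.isInternal B.X) i ∘ₗ B.e := by
    apply LinearMap.ext
    intro y
    rw [LinearMap.comp_apply, LinearMap.sum_apply]
    have h4 := congrArg (fun F => F (B.e y)) hsum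
    simp only [LinearMap.sum_apply, Module.End.one_apply] at h4
    conv_lhs => rw [← h4]
    rw [map_sum]
    rfl
  rw [h3, msl_sum_g, LinearMap.sum_apply]
  apply Finset.sum_eq_zero
  intro i _
  have h4 := hzero m _ (FA_gen (A := A) (θ := θ) (Q := Q) ⟨B, i,
    g ∘ₗ proj (W.isInternal B.X) i ∘ₗ B.e, j, x, hB, par_proj g i B.mem, by
      rw [LinearMap.comp_assoc, LinearMap.comp_assoc, B.idem], hx, hn, rfl⟩)
  exact congrFun h4 t

end Main

end Pool.Agent.K9h28
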