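import Mathlib

/-!
# Idempotents of reduced Artinian rings with an involution
-/

open Polynomial

namespace Pool.Agent.K9h28

section Idem

variable (R : Type*) [CommRing R] [IsArtinianRing R] [IsReduced R]

/-- The primitive idempotents. -/
noncomputable def eps (l : MaximalSpectrum R) : R :=
  haveI := Classical.decEq (MaximalSpectrum R)
  (IsArtinianRing.equivPi R).symm (Pi.single l 1)

lemma eps_mk (l n : MaximalSpectrum R) [DecidableEq (MaximalSpectrum R)] :
    Ideal.Quotient.mk n.asIdeal (eps R l) = (Pi.single l 1 :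
      ∀ I : MaximalSpectrum R, R ⧸ I.asIdeal) n := by
  classical
  have h1 : IsArtinianRing.equivPi R (eps R l) n = (Pi.single l 1 :
      ∀ I : MaximalSpectrum R, R ⧸ I.asIdeal) n := by
    rw [eps, AlgEquiv.apply_symm_apply]
    congr
  exact h1

lemma eq_of_mk {x y : R} (h : ∀ n : MaximalSpectrum R, Ideal.Quotient.mk n.asIdeal x =
    Ideal.Quotient.mk n.asIdeal y) : x = y :=
  (IsArtinianRing.equivPi R).injective (funext h)

lemma eps_self (l : MaximalSpectrum R) : Ideal.Quotient.mk l.asIdeal (eps R l) = 1 := by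
  classical
  rw [eps_mk, Pi.single_eq_same]

lemma eps_ne {l n : MaximalSpectrum R} (h : n ≠ l) :
    Ideal.Quotient.mk n.asIdeal (eps R l) = 0 := by
  classical
  rw [eps_mk, Pi.single_eq_of_ne h]

lemma eps_idem (l : MaximalSpectrum R) : eps R l * eps R l = eps R l := by
  apply eq_of_mk
  intro n
  rw [map_mul]
  by_cases h : n = l
  · subst h
    rw [eps_self, mul_one]
  · rw [eps_ne R h, mul_zero]

lemma eps_ortho {l l' : MaximalSpectrum R} (hl : l ≠ l') : eps R l * eps R l' = 0 := by
  apply eq_of_mk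
  intro n
  rw [map_mul, map_zero]
  by_cases h : n = l
  · subst h
    rw [eps_ne R hl, mul_zero]
  · rw [eps_ne R h, zero_mul]

lemma eps_sum [Fintype (MaximalSpectrum R)] : ∑ l, eps R l = 1 := by
  classical
  apply eq_of_mk
  intro n
  rw [map_sum, map_one, Finset.sum_eq_single n, eps_self]
  · intro l _ hl
    exact eps_ne R (Ne.symm hl)
  · intro h
    exact absurd (Finset.mem_univ _) h

lemma eps_simple (l : MaximalSpectrum R) (x : R) :
    x * eps R l = 0 ∨ ∃ y, y * (x * eps R l) = eps R l := by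
  have := l.isMaximal
  by_cases hx : Ideal.Quotient.mk l.asIdeal x = 0
  · left
    apply eq_of_mk
    intro n
    rw [map_mul, map_zero]
    by_cases h : n = l
    · subst h
      rw [hx, zero_mul]
    · rw [eps_ne R h, mul_zero]
  · right
    let _ : Field (R ⧸ l.asIdeal) := Ideal.Quotient.field l.asIdeal
    obtain ⟨y, hy⟩ := Ideal.Quotient.mk_surjective (I := l.asIdeal)
      ((Ideal.Quotient.mk l.asIdeal x)⁻¹)
    refine ⟨y, ?_⟩
    apply eq_of_mk
    intro n
    rw [map_mul, map_mul]
    by_cases h : n = l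
    · subst h
      rw [eps_self, mul_one, hy, inv_mul_cancel₀ hx]
    · rw [eps_ne R h, mul_zero, mul_zero]

variable {R}

/-- The involution on the maximal ideals. -/
noncomputable def barM (τ : R →+* R) (hτ : ∀ x, τ (τ x) = x) (l : MaximalSpectrum R) :
    MaximalSpectrum R :=
  ⟨l.asIdeal.comap τ, by
    have := l.isMaximal
    exact Ideal.comap_isMaximal_of_surjective τ (fun x => ⟨τ x, hτ x⟩)⟩

omit [IsArtinianRing R] [IsReduced R] in
lemma barM_barM (τ : R →+* R) (hτ : ∀ x, τ (τ x) = x) (l : MaximalSpectrum R) :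
    barM τ hτ (barM τ hτ l) = l := by
  apply MaximalSpectrum.ext
  ext x
  change τ (τ x) ∈ l.asIdeal ↔ _
  rw [hτ]

lemma tau_eps (τ : R →+* R) (hτ : ∀ x, τ (τ x) = x) (l : MaximalSpectrum R) :
    τ (eps R l) = eps R (barM τ hτ l) := by
  apply eq_of_mk
  intro n
  have := n.isMaximal
  have hid : Ideal.Quotient.mk n.asIdeal (τ (eps R l)) *
      (Ideal.Quotient.mk n.asIdeal (τ (eps R l)) - 1) = 0 := by
    have h1 : τ (eps R l) * τ (eps R l) = τ (eps R l) := by rw [← map_mul, eps_idem]
    have h2 := congrArg (Ideal.Quotient.mk n.asIdeal) h1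
    rw [map_mul] at h2
    rw [mul_sub, mul_one, h2, sub_self]
  by_cases h : n = barM τ hτ l
  · have h1 : Ideal.Quotient.mk n.asIdeal (τ (eps R l)) ≠ 0 := by
      intro h0
      rw [Ideal.Quotient.eq_zero_iff_mem] at h0
      have h2 : eps R l ∈ (barM τ hτ n).asIdeal := h0
      rw [h, barM_barM, ← Ideal.Quotient.eq_zero_iff_mem, eps_self] at h2
      have := l.isMaximal
      have h3 := Ideal.Quotient.nontrivial_iff.2 l.isMaximal.ne_top
      exact one_ne_zero h2
    have h2 := (mul_eq_zero.1 hid).resolve_left h1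
    rw [sub_eq_zero] at h2
    rw [h2, ← h, eps_self]
  · have h1 : Ideal.Quotient.mk n.asIdeal (eps R (barM τ hτ l)) = 0 := eps_ne R h
    rw [h1, Ideal.Quotient.eq_zero_iff_mem]
    change eps R l ∈ (barM τ hτ n).asIdeal
    rw [← Ideal.Quotient.eq_zero_iff_mem]
    apply eps_ne
    intro h4
    apply h
    rw [← h4, barM_barM]

end Idem

section Poly

/-- Divisibility by a squarefree rational polynomial can be checked on the complex roots. -/
lemma dvd_of_complex_roots {P G : ℚ[X]} (hP : Squarefree P)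
    (h : ∀ z : ℂ, aeval z P = 0 → aeval z G = 0) : P ∣ G := by
  by_cases hG : G = 0
  · rw [hG]; exact dvd_zero _
  have hP0 : P ≠ 0 := hP.ne_zero
  rw [← map_dvd_map' (algebraMap ℚ ℂ)]
  have hsep : (P.map (algebraMap ℚ ℂ)).Separable :=
    (PerfectField.separable_iff_squarefree.2 hP).map
  have h1 : P.map (algebraMap ℚ ℂ) ≠ 0 := (Polynomial.map_ne_zero_iff
    (algebraMap ℚ ℂ).injective).2 hP0
  have h2 : G.map (algebraMap ℚ ℂ) ≠ 0 := (Polynomial.map_ne_zero_iff
    (algebraMap ℚ ℂ).injective).2 hG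
  refine Splits.dvd_of_roots_le_roots (IsAlgClosed.splits _) h1 ?_
  rw [Multiset.le_iff_subset (nodup_roots hsep)]
  intro z hz
  rw [mem_roots h1, IsRoot.def, eval_map_algebraMap] at hz
  rw [mem_roots h2, IsRoot.def, eval_map_algebraMap]
  exact h z hz

variable {P Q : ℚ[X]} (hP : Squarefree P)
  (hQ : ∀ z : ℂ, aeval z P = 0 → aeval z Q = starRingEnd ℂ z)

include hQ in
lemma aeval_conj {z : ℂ} (hz : aeval z P = 0) (G : ℚ[X]) :
    aeval (aeval z Q) G = starRingEnd ℂ (aeval z G) := by
  rw [hQ z hz]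
  have h1 : ∀ G : ℚ[X], aeval (starRingEnd ℂ z) G = starRingEnd ℂ (aeval z G) := by
    intro G
    rw [aeval_def, aeval_def, hom_eval₂]
    congr 1
    ext x
    simp
  exact h1 G

include hP hQ in
lemma dvd_comp : P ∣ P.comp Q := by
  apply dvd_of_complex_roots hP
  intro z hz
  rw [aeval_comp, aeval_conj hQ hz, hz, map_zero]

include hP hQ in
lemma dvd_comp_comp : P ∣ Q.comp Q - X := by
  apply dvd_of_complex_roots hP
  intro z hz
  rw [map_sub, aeval_comp, aeval_conj hQ hz, hQ z hz, aeval_X, Complex.conj_conj, sub_self]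

variable (K : Type*) [Field K] [CharZero K]

/-- The polynomial over `K`. -/
noncomputable abbrev upP (P : ℚ[X]) : K[X] := P.map (algebraMap ℚ K)

variable (P) in
/-- The algebra `K[X] / (P)`. -/
abbrev RP := AdjoinRoot (upP K P)

include hP in
lemma upP_ne : upP K P ≠ 0 :=
  (Polynomial.map_ne_zero_iff (algebraMap ℚ K).injective).2 hP.ne_zero

include hP in
lemma upP_squarefree : Squarefree (upP K P) :=
  ((PerfectField.separable_iff_squarefree.2 hP).map (f := algebraMap ℚ K)).squarefree

include hP in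
lemma isArtinian_RP : IsArtinianRing (RP P K) := by
  have : Module.Finite K (RP P K) := (AdjoinRoot.powerBasis (upP_ne hP K)).finite
  exact IsArtinianRing.of_finite K (RP P K)

include hP in
lemma isReduced_RP : IsReduced (RP P K) := by
  have h1 : (Ideal.span {upP K P}).IsRadical := by
    rw [← isRadical_iff_span_singleton, isRadical_iff_squarefree_of_ne_zero (upP_ne hP K)]
    exact upP_squarefree hP K
  exact (Ideal.isRadical_iff_quotient_reduced _).1 h1

include hP hQ in
lemma tau_aux : aeval (AdjoinRoot.mk (upP K P) (upP K Q)) (upP K P) = 0 := by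
  have h1 : aeval (AdjoinRoot.mk (upP K P) (upP K Q)) (upP K P) =
      AdjoinRoot.mk (upP K P) ((upP K P).comp (upP K Q)) := by
    rw [← AdjoinRoot.aeval_eq ((upP K P).comp (upP K Q)), aeval_comp, AdjoinRoot.aeval_eq]
  rw [h1, AdjoinRoot.mk_eq_zero, ← Polynomial.map_comp]
  exact (map_dvd_map' _).2 (dvd_comp hP hQ)

/-- The involution. -/
noncomputable def tauP : RP P K →ₐ[K] RP P K :=
  AdjoinRoot.liftAlgHom (upP K P) (Algebra.ofId K (RP P K))
    (AdjoinRoot.mk (upP K P) (upP K Q)) (tau_aux hP hQ K)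

lemma tauP_mk (f : K[X]) : tauP hP hQ K (AdjoinRoot.mk (upP K P) f) =
    AdjoinRoot.mk (upP K P) (f.comp (upP K Q)) := by
  have h1 : tauP hP hQ K (AdjoinRoot.root (upP K P)) = AdjoinRoot.mk (upP K P) (upP K Q) :=
    AdjoinRoot.liftAlgHom_root _ _ _ _
  have h2 : AdjoinRoot.mk (upP K P) f = aeval (AdjoinRoot.root (upP K P)) f :=
    (AdjoinRoot.aeval_eq f).symm
  have h3 : AdjoinRoot.mk (upP K P) (f.comp (upP K Q)) =
      aeval (AdjoinRoot.mk (upP K P) (upP K Q)) f := by
    rw [← AdjoinRoot.aeval_eq (f.comp (upP K Q)), aeval_comp, AdjoinRoot.aeval_eq]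
  rw [h2, h3, ← aeval_algHom_apply, h1]

lemma tauP_tauP (x : RP P K) : tauP hP hQ K (tauP hP hQ K x) = x := by
  obtain ⟨f, rfl⟩ := AdjoinRoot.mk_surjective x
  rw [tauP_mk, tauP_mk, AdjoinRoot.mk_eq_mk, comp_assoc, ← Polynomial.map_comp]
  have h1 : upP K P ∣ (Q.comp Q).map (algebraMap ℚ K) - X := by
    have h2 := (map_dvd_map' (algebraMap ℚ K)).2 (dvd_comp_comp hP hQ)
    rwa [Polynomial.map_sub, Polynomial.map_X] at h2
  have h3 : ((Q.comp Q).map (algebraMap ℚ K) - X) ∣
      f.comp ((Q.comp Q).map (algebraMap ℚ K)) - f := by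
    have h4 := Polynomial.sub_dvd_eval_sub ((Q.comp Q).map (algebraMap ℚ K)) X (f.map C)
    rw [eval_map, eval_map] at h4
    change _ ∣ f.comp _ - f.comp X at h4
    rwa [comp_X] at h4
  exact h1.trans h3

end Poly

end Pool.Agent.K9h28
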