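import Pool.Agent.K9h28.HaLin
import Pool.Agent.R908.BalDefs

/-!
# Abelian varieties and the centres of their endomorphism algebras: definitions
-/

set_option autoImplicit false

open CategoryTheory AlgebraicGeometry Polynomial

universe u v

namespace Pool.Agent.K9h28

open Pool.Agent.H914 Pool.Agent.H914.VarClass Pool.Agent.H914.VarClass.Obj
  Pool.Agent.H914.WeilCohomology Pool.Agent.R908

variable {k : Type u} [Field k] {𝒱 : VarClass k} {ops : CycleOps 𝒱} {W : WeilCohomology.{u, v} ops}

/-- The operators on the cohomology of `X` given by the cycles with rational coefficients on `X × X`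
(of degree `0`) and by the symmetries in `𝒢`. -/
def operators (𝒢 : Set (Symmetry W)) (X : 𝒱.Obj) : Set (W.H X → W.H X) :=
  {φ | ∃ ψ ∈ cycleOperators W X, φ = ψ} ∪ symmetryOperators 𝒢 X

/-- There is a cycle with rational coefficients on `A × A`, acting on `H^1(A)` by `e`, such that the
algebra `ℚ[e]` is semisimple and stable under the adjunction for the form
`x, y ↦ tr (x D ^ (dim A - 1) y)`, which induces the complex conjugation on it (for each complex
embedding); `H^1(A)` is semisimple under the cycles on `A × A` and the symmetries in `𝒢`; and the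
operators which commute with all of these are polynomials in `e` over the coefficient field. For an
abelian variety `e` is a generator of the centre of the endomorphism algebra. -/
def HasCentre (𝒢 : Set (Symmetry W)) (A : 𝒱.Obj) (D : A.Cycles) : Prop :=
  ∃ e ∈ cycleOperators W A,
    ConjugateAdjoint (W.gr A 1) (trForm (W.tr A) (W.cl A D) (A.dim - 1)) e ∧
    SemisimpleUnder (operators 𝒢 A) (W.gr A 1) ∧
    CommutantGeneratedBy (operators 𝒢 A) (W.gr A 1) e

/-- The variety `A` has the known properties of an abelian variety. -/
def IsAbelianWithCentre (𝒢 : Set (Symmetry W)) (A : 𝒱.Obj) : Prop :=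
  ∃ (m : A.prod A ⟶ A) (D : A.Cycles), IsAbelianType 𝒢 A m D ∧ HasCentre 𝒢 A D

end Pool.Agent.K9h28
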