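import Pool.Agent.K9h28.HaA
import Pool.Agent.K9h28.HaC
import Pool.Agent.K9h28.HaDefs

/-!
# The blocks given by the centre
-/

open CategoryTheory AlgebraicGeometry TensorProduct Polynomial

universe u v w w'

namespace Pool.Agent.K9h28

open Pool.Agent.R908

section Coef

variable {P Q : ℚ[X]} (hP : Squarefree P)
  (hQ : ∀ z : ℂ, aeval z P = 0 → aeval z Q = starRingEnd ℂ z)
  {K : Type*} [Field K] [CharZero K]

/-- Representatives of small degree. -/
lemma exists_rep (x : RP P K) : ∃ b : K[X], AdjoinRoot.mk (upP K P) b = x ∧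
    (upP K P ≠ 0 → b.degree < (upP K P).degree) := by
  obtain ⟨f, rfl⟩ := AdjoinRoot.mk_surjective x
  refine ⟨f % upP K P, ?_, fun h => EuclideanDomain.mod_lt f h⟩
  rw [AdjoinRoot.mk_eq_mk]
  refine ⟨-(f / upP K P), ?_⟩
  have h1 := EuclideanDomain.div_add_mod f (upP K P)
  linear_combination h1

/-- The polynomials representing the idempotents. -/
structure IsIdemPols {Λ : Type*} [Fintype Λ] (P Q : ℚ[X]) (bar : Λ → Λ) (b : Λ → K[X]) : Prop where
  deg : ∀ l, (b l).degree < (upP K P).degree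
  idem : ∀ l, upP K P ∣ b l * b l - b l
  ortho : ∀ l l', l ≠ l' → upP K P ∣ b l * b l'
  sum : upP K P ∣ ∑ l, b l - 1
  bb : ∀ l, bar (bar l) = l
  adj : ∀ l, upP K P ∣ (b l).comp (upP K Q) - b (bar l)
  simple : ∀ l f, upP K P ∣ f * b l ∨ ∃ g, upP K P ∣ g * (f * b l) - b l

include hP hQ in
variable (K) in
lemma exists_idemPols : ∃ (n : ℕ) (bar : Fin n → Fin n) (b : Fin n → K[X]),
    IsIdemPols P Q bar b := by
  classical
  have := isArtinian_RP hP K
  have := isReduced_RP hP K
  have := Fintype.ofFinite (MaximalSpectrum (RP P K))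
  set ε := Fintype.equivFin (MaximalSpectrum (RP P K)) with hε
  have hτ := tauP_tauP hP hQ K
  set τ : RP P K →+* RP P K := (tauP hP hQ K).toRingHom with hτd
  have hττ : ∀ x, τ (τ x) = x := hτ
  choose b hb hdeg using fun l : MaximalSpectrum (RP P K) => exists_rep (eps (RP P K) l)
  refine ⟨_, fun i => ε (barM τ hττ (ε.symm i)), fun i => b (ε.symm i), ?_⟩
  refine ⟨fun l => hdeg _ (upP_ne hP K), fun l => ?_, fun l l' hl => ?_, ?_, fun l => ?_,
    fun l => ?_, fun l f => ?_⟩
  · rw [← AdjoinRoot.mk_eq_mk, map_mul, hb, eps_idem]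
  · rw [← AdjoinRoot.mk_eq_zero, map_mul, hb, hb, eps_ortho]
    intro h
    exact hl (ε.symm.injective h)
  · rw [← AdjoinRoot.mk_eq_mk, map_sum, map_one, Equiv.sum_comp ε.symm (fun l =>
      AdjoinRoot.mk (upP K P) (b l)), Finset.sum_congr rfl fun l _ => hb l, eps_sum]
  · rw [Equiv.symm_apply_apply, barM_barM, Equiv.apply_symm_apply]
  · rw [Equiv.symm_apply_apply, ← AdjoinRoot.mk_eq_mk, hb, ← tau_eps, ← hb]
    exact (tauP_mk hP hQ K _).symm
  · rcases eps_simple (RP P K) (ε.symm l) (AdjoinRoot.mk (upP K P) f) with h1 | ⟨y, hy⟩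
    · left
      rw [← AdjoinRoot.mk_eq_zero, map_mul, hb, h1]
    · right
      obtain ⟨g, rfl⟩ := AdjoinRoot.mk_surjective y
      refine ⟨g, ?_⟩
      rw [← AdjoinRoot.mk_eq_mk, map_mul, map_mul, hb, hy]

/-- Interpolation. -/
lemma interp {L : Type*} [Field L] (R : Finset L) {f : L[X]} (hf : f.degree < R.card) :
    f = ∑ r ∈ R, C (f.eval r) * bas R r := by
  classical
  have h1 := Lagrange.eq_interpolate_of_eval_eq (s := R) (v := id) (fun r => f.eval r)
    (Set.injOn_id _) hf (fun i _ => rfl)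
  conv_lhs => rw [h1, Lagrange.interpolate_apply]
  refine Finset.sum_congr rfl fun r _ => ?_
  congr 1

variable {L : Type*} [Field L] [CharZero L] [IsAlgClosed L] [Algebra K L]

include hQ in
omit [IsAlgClosed L] in
lemma cConj_root (ι : algebraicClosure ℚ L →ₐ[ℚ] ℂ) (hP0 : P ≠ 0) {r : L}
    (hr : aeval r P = 0) : CConj ι r (aeval r Q) := by
  have hal : IsAlgebraic ℚ r := ⟨P, hP0, hr⟩
  obtain ⟨x, hx⟩ : ∃ x : algebraicClosure ℚ L, (x : L) = r :=
    ⟨⟨r, mem_algebraicClosure_iff.2 hal⟩, rfl⟩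
  have h1 : aeval x P = 0 := by
    have h2 : (((aeval x P : algebraicClosure ℚ L)) : L) = aeval (x : L) P :=
      (Polynomial.aeval_algebraMap_apply L x P).symm
    rw [hx, hr] at h2
    exact Subtype.ext h2
  refine ⟨x, aeval x Q, hx, ?_, ?_⟩
  · rw [← hx]
    exact (Polynomial.aeval_algebraMap_apply L x Q).symm
  · rw [← Polynomial.aeval_algHom_apply]
    apply hQ
    rw [Polynomial.aeval_algHom_apply, h1, map_zero]

include hP hQ in
/-- The coefficients of the polynomials of conjugate idempotents are conjugate. -/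
lemma IsIdemPols.conj {Λ : Type*} [Fintype Λ] {bar : Λ → Λ} {b : Λ → K[X]}
    (h : IsIdemPols P Q bar b) (ι : algebraicClosure ℚ L →ₐ[ℚ] ℂ) (l : Λ) (n : ℕ) :
    KConj ι ((b l).coeff n) ((b (bar l)).coeff n) := by
  classical
  have hP0 := hP.ne_zero
  set PL := P.map (algebraMap ℚ L) with hPL
  have hPL0 : PL ≠ 0 := (Polynomial.map_ne_zero_iff (algebraMap ℚ L).injective).2 hP0
  have hsep : PL.Separable := (PerfectField.separable_iff_squarefree.2 hP).map
  set R := PL.roots.toFinset with hR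
  have hmem : ∀ r, r ∈ R ↔ aeval r P = 0 := by
    intro r
    rw [hR, Multiset.mem_toFinset, mem_roots hPL0, IsRoot.def, hPL, eval_map_algebraMap]
  have hnd := nodup_roots hsep
  have hfac : PL = C PL.leadingCoeff * ∏ j ∈ R, (X - C j) := by
    have h1 := (IsAlgClosed.splits PL).eq_prod_roots
    have h2 : (PL.roots.map fun a => X - C a).prod = ∏ j ∈ R, (X - C j) := by
      rw [Finset.prod, hR, Multiset.toFinset_val, hnd.dedup]
    rw [← h2]
    exact h1
  have hc0 : PL.leadingCoeff ≠ 0 := leadingCoeff_ne_zero.2 hPL0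
  have hcard : PL.degree = R.card := by
    have h1 := (IsAlgClosed.splits PL).natDegree_eq_card_roots
    rw [degree_eq_natDegree hPL0, h1, hR, Multiset.toFinset_card_of_nodup hnd]
  have hup : (upP K P).map (algebraMap K L) = PL := by
    rw [upP, Polynomial.map_map, hPL]
    congr 1
    exact (Subsingleton.elim _ _)
  have hupQ : (upP K Q).map (algebraMap K L) = Q.map (algebraMap ℚ L) := by
    rw [upP, Polynomial.map_map]
    congr 1
    exact (Subsingleton.elim _ _)
  have hev : ∀ (f : K[X]), upP K P ∣ f → ∀ r ∈ R, (f.map (algebraMap K L)).eval r = 0 := by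
    rintro f ⟨g, rfl⟩ r hr
    have h1 := (hmem r).1 hr
    rw [Polynomial.map_mul, eval_mul, hup, hPL, eval_map_algebraMap, h1, zero_mul]
  have hdeg : ∀ l, ((b l).map (algebraMap K L)).degree < R.card := by
    intro l
    rw [degree_map, ← hcard, ← hup, degree_map]
    exact h.deg l
  set q : L → L := fun r => aeval r Q with hq
  have hq1 : ∀ r ∈ R, q r ∈ R := by
    intro r hr
    obtain ⟨g, hg⟩ := dvd_comp hP hQ
    have h1 := congrArg (aeval r) hg
    rw [aeval_comp, map_mul, (hmem r).1 hr, zero_mul] at h1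
    exact (hmem _).2 h1
  have hq2 : ∀ r ∈ R, q (q r) = r := by
    intro r hr
    obtain ⟨g, hg⟩ := dvd_comp_comp hP hQ
    have h1 := congrArg (aeval r) hg
    rw [map_sub, aeval_comp, aeval_X, map_mul, (hmem r).1 hr, zero_mul, sub_eq_zero] at h1
    exact h1
  have hbar : ∀ r ∈ R, ((b (bar l)).map (algebraMap K L)).eval r =
      ((b l).map (algebraMap K L)).eval (q r) := by
    intro r hr
    have h1 := hev _ (h.adj l) r hr
    rw [Polynomial.map_sub, eval_sub, sub_eq_zero, Polynomial.map_comp, eval_comp, hupQ] at h1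
    rw [← h1]
    congr 1
    exact eval_map_algebraMap _ _
  have h01 : ∀ r ∈ R, CConj ι (((b l).map (algebraMap K L)).eval r)
      (((b l).map (algebraMap K L)).eval r) := by
    intro r hr
    have h1 := hev _ (h.idem l) r hr
    rw [Polynomial.map_sub, eval_sub, Polynomial.map_mul, eval_mul] at h1
    have h2 : ((b l).map (algebraMap K L)).eval r * (((b l).map (algebraMap K L)).eval r - 1) = 0 := by
      linear_combination h1
    rcases mul_eq_zero.1 h2 with h3 | h3
    · rw [h3]; exact CConj.zero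
    · rw [sub_eq_zero] at h3
      rw [h3]; exact CConj.one
  have hcoef : ∀ l, algebraMap K L ((b l).coeff n) =
      ∑ r ∈ R, ((b l).map (algebraMap K L)).eval r * (bas R r).coeff n := by
    intro l
    have h1 := congrArg (fun f => f.coeff n) (interp R (hdeg l))
    beta_reduce at h1
    rw [coeff_map, finsetSum_coeff] at h1
    rw [h1]
    refine Finset.sum_congr rfl fun r _ => ?_
    rw [coeff_C_mul]
  unfold KConj
  rw [hcoef l, hcoef (bar l)]
  have hre : ∑ r ∈ R, ((b (bar l)).map (algebraMap K L)).eval r * (bas R r).coeff n =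
      ∑ r ∈ R, ((b l).map (algebraMap K L)).eval r * (bas R (q r)).coeff n := by
    refine Finset.sum_nbij' q q hq1 hq1 hq2 hq2 ?_
    intro r hr
    rw [hbar r hr, hq2 r hr]
  rw [hre]
  refine CConj.sum _ fun r hr => (h01 r hr).mul ?_
  exact cConj_bas hc0 hfac hr (hq1 r hr) (cConj_root hQ ι hP0 ((hmem r).1 hr)) n

end Coef

end Pool.Agent.K9h28
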