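import Pool.Agent.K9h28.HaB
import Pool.Agent.K9h28.HaD

/-!
# The first cohomology of an abelian variety and the blocks given by the centre
-/

open CategoryTheory AlgebraicGeometry TensorProduct Polynomial

universe u v w w'

namespace Pool.Agent.K9h28

open Pool.Agent.H914 Pool.Agent.H914.VarClass Pool.Agent.H914.VarClass.Obj
  Pool.Agent.H914.WeilCohomology Pool.Agent.H281R3.HT Pool.Agent.R908

variable {k : Type u} [Field k] {𝒱 : VarClass k} {ops : CycleOps 𝒱}
  {W : WeilCohomology.{u, v} ops} {A : 𝒱.Obj} {m : A.prod A ⟶ A} {D : A.Cycles}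
  {𝒢 : Set (Symmetry W)}

lemma RatOp.cast_smul (q : ℚ) {X Y : 𝒱.Obj} {φ : W.H X →ₗ[W.K] W.H Y} (h : φ ∈ RatOp W X Y) :
    (algebraMap ℚ W.K q) • φ ∈ RatOp W X Y := by
  rw [eq_ratCast]
  exact RatOp.smul q h

lemma RatOp.aeval {φ : Module.End W.K (W.H A)} (h : φ ∈ RatOp W A A) (f : ℚ[X]) :
    Polynomial.aeval φ (f.map (algebraMap ℚ W.K)) ∈ RatOp W A A := by
  rw [Polynomial.aeval_eq_sum_range]
  refine RatOp.sum _ (fun i _ => ?_)
  rw [coeff_map]
  exact RatOp.cast_smul _ (RatOp.pow h i)

/-- The projectors to the degrees are given by cycles with rational coefficients. -/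
theorem exists_ratProjs (hA : IsAbelianLike W A m) : ∃ π : ℕ → (W.H A →ₗ[W.K] W.H A),
    IsProjs W A π ∧ ∀ i, π i ∈ RatOp W A A := by
  classical
  set f : A ⟶ A := diag A ≫ m with hf
  have hf1 : ∀ x ∈ W.gr A 1, W.map f x = (2 : W.K) • x := by
    intro x hx
    have e1 : diag A ≫ fst A A = 𝟙 A := Obj.lift_fst _ _
    have e2 : diag A ≫ snd A A = 𝟙 A := Obj.lift_snd _ _
    rw [hf, W.map_comp, hA.add x hx, map_add, ← W.map_comp, ← W.map_comp, e1, e2, W.map_id,
      two_smul]
  have hfi : ∀ i, ∀ x ∈ W.gr A 1 ^ i, W.map f x = ((2 : W.K) ^ i) • x := by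
    intro i
    induction i with
    | zero =>
      intro x hx
      rw [pow_zero, Submodule.mem_one] at hx
      obtain ⟨c, rfl⟩ := hx
      rw [AlgHom.commutes, pow_zero, one_smul]
    | succ i ih =>
      intro x hx
      rw [pow_succ'] at hx
      refine Submodule.mul_induction_on hx ?_ ?_
      · intro a ha b hb
        rw [map_mul, hf1 a ha, ih b hb, smul_mul_smul_comm, pow_succ']
      · intro a b ha hb
        rw [map_add, ha, hb, smul_add]
  set v : ℕ → ℚ := fun j => (2 : ℚ) ^ j with hv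
  have hinj : Set.InjOn v (Finset.range (2 * A.dim + 1) : Set ℕ) := by
    intro i _ j _ hij
    have h1 : (2 : ℚ) ^ i = (2 : ℚ) ^ j := hij
    have h2 : ((2 ^ i : ℕ) : ℚ) = ((2 ^ j : ℕ) : ℚ) := by push_cast; exact h1
    exact Nat.pow_right_injective le_rfl (Nat.cast_injective h2)
  refine ⟨fun i => if i ≤ 2 * A.dim then
    Polynomial.aeval (W.map f).toLinearMap ((Lagrange.basis (Finset.range (2 * A.dim + 1)) v i).map
      (algebraMap ℚ W.K)) else 0, ?_, ?_⟩
  · intro i j x hx
    beta_reduce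
    by_cases hj : 2 * A.dim < j
    · rw [W.gr_eq_bot A j hj, Submodule.mem_bot] at hx
      rw [hx, map_zero]
      split_ifs <;> rfl
    · by_cases hi : i ≤ 2 * A.dim
      · rw [if_pos hi]
        have h1 : (W.map f).toLinearMap x = (algebraMap ℚ W.K (v j)) • x := by
          have h2 := hfi j x (hA.gen j hx)
          rw [hv, map_pow, map_ofNat]
          exact h2
        rw [R908.aeval_eig h1, eval_map_algebraMap, Polynomial.aeval_algebraMap_apply_eq_algebraMap_eval]
        by_cases hij : i = j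
        · subst hij
          rw [Lagrange.eval_basis_self hinj (Finset.mem_range.2 (by omega)), map_one, one_smul,
            if_pos rfl]
        · rw [Lagrange.eval_basis_of_ne hij (Finset.mem_range.2 (by omega)), map_zero, zero_smul,
            if_neg hij]
      · rw [if_neg hi, LinearMap.zero_apply, if_neg (by omega)]
  · intro i
    beta_reduce
    split_ifs
    · exact RatOp.aeval (RatOp.mapHom f) _
    · exact RatOp.zero

section Blk

lemma trForm_add_left {K B : Type*} [Field K] [Ring B] [Algebra K B] (tr : B →ₗ[K] K) (ξ : B)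
    (n : ℕ) (x x' y : B) : trForm tr ξ n (x + x') y = trForm tr ξ n x y + trForm tr ξ n x' y := by
  rw [trForm, trForm, trForm, add_mul, map_add]

lemma trForm_smul_left {K B : Type*} [Field K] [Ring B] [Algebra K B] (tr : B →ₗ[K] K) (ξ : B)
    (n : ℕ) (c : K) (x y : B) : trForm tr ξ n (c • x) y = c * trForm tr ξ n x y := by
  rw [trForm, trForm, smul_mul_assoc, map_smul, smul_eq_mul]

lemma trForm_add_right {K B : Type*} [Field K] [Ring B] [Algebra K B] (tr : B →ₗ[K] K) (ξ : B)
    (n : ℕ) (x y y' : B) : trForm tr ξ n x (y + y') = trForm tr ξ n x y + trForm tr ξ n x y' := by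
  rw [trForm, trForm, trForm, mul_add, mul_add, map_add]

lemma trForm_smul_right {K B : Type*} [Field K] [Ring B] [Algebra K B] (tr : B →ₗ[K] K) (ξ : B)
    (n : ℕ) (c : K) (x y : B) : trForm tr ξ n x (c • y) = c * trForm tr ξ n x y := by
  rw [trForm, trForm, mul_smul_comm, mul_smul_comm, map_smul, smul_eq_mul]

/-- **The block system given by the centre.** -/
theorem exists_blockSystem (hC : HasCentre 𝒢 A D) :
    ∃ (n : ℕ) (bar : Fin n → Fin n) (b : Fin n → W.K[X]) (e : Module.End W.K (W.H A)) (N : ℕ),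
      e ∈ RatOp W A A ∧ IsBlockSystemOne 𝒢 A D bar (fun i => Polynomial.aeval e (b i)) ∧
      (∀ l, (b l).natDegree < N) ∧
      ∀ (ι : algebraicClosure ℚ (AlgebraicClosure W.K) →ₐ[ℚ] ℂ) (l : Fin n) (i : ℕ),
        KConj ι ((b l).coeff i) ((b (bar l)).coeff i) := by
  classical
  obtain ⟨e, he, ⟨P, Q, hP, hQ, hann, hadj⟩, hss, hcomm⟩ := hC
  obtain ⟨n, bar, b, hb⟩ := exists_idemPols hP hQ W.K
  have heR : e ∈ RatOp W A A := he
  have heK : e ∈ KOp W A A 0 := RatOp.mem heR
  have hgr : ∀ (f : W.K[X]), ∀ x ∈ W.gr A 1, Polynomial.aeval e f x ∈ W.gr A 1 := fun f x hx =>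
    Mot.hom_deg0 (KOp.aeval heK f) hx
  have hz : ∀ f : W.K[X], upP W.K P ∣ f → ∀ x ∈ W.gr A 1, Polynomial.aeval e f x = 0 := by
    rintro f ⟨g, rfl⟩ x hx
    rw [mul_comm, map_mul, Module.End.mul_apply]
    have h1 : Polynomial.aeval e (upP W.K P) x = 0 := hann x hx
    rw [h1, map_zero]
  have heq : ∀ f g : W.K[X], upP W.K P ∣ f - g → ∀ x ∈ W.gr A 1,
      Polynomial.aeval e f x = Polynomial.aeval e g x := by
    intro f g hfg x hx
    have h1 := hz _ hfg x hx
    rw [map_sub, LinearMap.sub_apply, sub_eq_zero] at h1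
    exact h1
  set β := trForm (W.tr A) (W.cl A D) (A.dim - 1) with hβ
  have hadjp : ∀ (i : ℕ), ∀ x ∈ W.gr A 1, ∀ y ∈ W.gr A 1,
      β ((e ^ i) x) y = β x (((Polynomial.aeval e (upP W.K Q)) ^ i) y) := by
    intro i
    induction i with
    | zero => intro x _ y _; rw [pow_zero, pow_zero]; rfl
    | succ i ih =>
      intro x hx y hy
      have h1 : (e ^ i) x ∈ W.gr A 1 := Mot.hom_deg0 (KOp.pow heK i) hx
      rw [pow_succ' e, Module.End.mul_apply, hadj _ h1 y hy]
      have h2 : (Polynomial.aeval e (Q.map (algebraMap ℚ W.K))) y ∈ W.gr A 1 := hgr _ y hy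
      rw [ih x hx _ h2, pow_succ, Module.End.mul_apply]
  have hadjf : ∀ (f : W.K[X]), ∀ x ∈ W.gr A 1, ∀ y ∈ W.gr A 1,
      β (Polynomial.aeval e f x) y = β x (Polynomial.aeval e (f.comp (upP W.K Q)) y) := by
    intro f x hx y hy
    induction f using Polynomial.induction_on' with
    | add f g hf hg =>
      rw [map_add, LinearMap.add_apply, hβ, trForm_add_left, ← hβ, hf, hg, add_comp, map_add,
        LinearMap.add_apply, hβ, trForm_add_right]
    | monomial i a =>
      rw [aeval_monomial, Module.End.mul_apply, Module.algebraMap_end_apply, hβ,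
        trForm_smul_left, ← hβ, hadjp i x hx y hy, monomial_comp, map_mul, map_pow,
        aeval_C, Module.End.mul_apply, Module.algebraMap_end_apply, hβ, trForm_smul_right]
  have hmul : ∀ (f g : W.K[X]) (x : W.H A), Polynomial.aeval e f (Polynomial.aeval e g x) =
      Polynomial.aeval e (f * g) x := by
    intro f g x
    rw [map_mul, Module.End.mul_apply]
  refine ⟨n, bar, b, e, (upP W.K P).natDegree + 1, heR, ⟨?_, ?_, ?_, ?_, hb.bb, ?_, ?_⟩, ?_,
    fun ι l i => hb.conj hP hQ ι l i⟩
  · intro l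
    rw [Polynomial.aeval_eq_sum_range]
    exact Submodule.sum_mem _ fun i _ => Submodule.smul_mem _ _
      (Submodule.subset_span (RatOp.pow heR i))
  · intro x hx
    have h1 := heq _ _ hb.sum x hx
    rw [map_sum, LinearMap.sum_apply, map_one] at h1
    exact h1
  · intro l x hx
    rw [hmul]
    exact heq _ _ (hb.idem l) x hx
  · intro l l' hl x hx
    rw [hmul]
    exact hz _ (hb.ortho l l' hl) x hx
  · intro l x hx y hy
    change β _ _ = β _ _
    rw [hadjf (b l) x hx y hy, heq _ _ (hb.adj l) y hy]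
  · intro U hU h1 h2 l ⟨x, hxU, hx0, hxl⟩ y hy hyl
    have hst : StableUnder (operators 𝒢 A) U := by
      rintro φ (⟨ψ, hψ, rfl⟩ | hφ) x hx
      · exact h1 ψ hψ x hx
      · exact h2 φ hφ x hx
    obtain ⟨U', hU', hst', hinf, hsup⟩ := hss U hU hst
    obtain ⟨N', hN'⟩ := exists_isCompl (W.gr A 1)
    have hcompl : IsCompl U (U' ⊔ N') := by
      constructor
      · rw [Submodule.disjoint_def]
        intro a ha ha'
        obtain ⟨b', hb', c', hc', rfl⟩ := Submodule.mem_sup.1 ha'
        have h3 : c' ∈ W.gr A 1 := by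
          have h4 := Submodule.sub_mem _ (hU ha) (hU' hb')
          rwa [add_sub_cancel_left] at h4
        have h5 := Submodule.disjoint_def.1 hN'.disjoint c' h3 hc'
        rw [h5, add_zero] at ha ⊢
        have h6 : b' ∈ U ⊓ U' := ⟨ha, hb'⟩
        rw [hinf, Submodule.mem_bot] at h6
        exact h6
      · rw [codisjoint_iff, ← sup_assoc, hsup]
        exact hN'.codisjoint.eq_top
    set φ : Module.End W.K (W.H A) := U.subtype ∘ₗ Submodule.projectionOnto U (U' ⊔ N')
      hcompl with hφ
    have hφU : ∀ a ∈ U, φ a = a := by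
      intro a ha
      change ((Submodule.projectionOnto U (U' ⊔ N') hcompl a : U) : W.H A) = a
      rw [show a = ((⟨a, ha⟩ : U) : W.H A) from rfl, Submodule.projectionOnto_apply_left]
    have hφU' : ∀ a ∈ U', φ a = 0 := by
      intro a ha
      change ((Submodule.projectionOnto U (U' ⊔ N') hcompl a : U) : W.H A) = 0
      rw [(Submodule.projectionOnto_apply_eq_zero_iff hcompl).2 (Submodule.mem_sup_left ha)]
      rfl
    have hdec : ∀ a ∈ W.gr A 1, ∃ c ∈ U, ∃ d ∈ U', c + d = a := by
      intro a ha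
      rw [← hsup] at ha
      exact Submodule.mem_sup.1 ha
    have hadd : ∀ ψ ∈ operators 𝒢 A, ∀ a c, ψ (a + c) = ψ a + ψ c := by
      rintro ψ (⟨ψ, hψ, rfl⟩ | ⟨S, hS, rfl⟩) a c
      · exact map_add ψ a c
      · exact map_add (S.σ A) a c
    obtain ⟨f, hf⟩ := hcomm φ (by
        intro a ha
        obtain ⟨c, hc, d, hd, rfl⟩ := hdec a ha
        rw [map_add, hφU c hc, hφU' d hd, add_zero]
        exact hU hc) (by
        intro ψ hψ a ha
        obtain ⟨c, hc, d, hd, rfl⟩ := hdec a ha
        rw [hadd ψ hψ, map_add, map_add, hφU c hc, hφU' d hd, add_zero, hφU _ (hst ψ hψ c hc),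
          hφU' _ (hst' ψ hψ d hd), add_zero])
    rcases hb.simple l (1 - f) with h3 | ⟨g, hg⟩
    · have h4 := hz _ h3 y hy
      rw [← hmul, hyl, map_sub, map_one, LinearMap.sub_apply, ← hf y hy, sub_eq_zero] at h4
      rw [show y = φ y from h4]
      exact (Submodule.projectionOnto U (U' ⊔ N') hcompl y).2
    · exfalso
      apply hx0
      have hxgr := hU hxU
      have h4 := heq _ _ hg x hxgr
      rw [hxl, ← hmul, ← hmul, hxl] at h4
      have h5 : Polynomial.aeval e (1 - f) x = 0 := by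
        rw [map_sub, map_one, LinearMap.sub_apply, ← hf x hxgr, hφU x hxU]
        exact sub_self _
      rw [← h4, h5, map_zero]
  · intro l
    have h1 := natDegree_le_natDegree (hb.deg l).le
    omega

end Blk

end Pool.Agent.K9h28
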