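import Pool.Agent.K9h28.HaE
import Pool.Agent.R908.TInjDefs

/-!
# The conjecture D from the injectivity conjecture for products with abelian varieties
-/

open CategoryTheory AlgebraicGeometry TensorProduct Polynomial

universe u v w w'

namespace Pool.Agent.K9h28

open Pool.Agent.H914 Pool.Agent.H914.VarClass Pool.Agent.H914.VarClass.Obj
  Pool.Agent.H914.WeilCohomology Pool.Agent.H281R3.HT Pool.Agent.R908

variable {k : Type u} [Field k] {𝒱 : VarClass k} {ops : CycleOps 𝒱}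
  {W : WeilCohomology.{u, v} ops} {A : 𝒱.Obj} {m : A.prod A ⟶ A} {D : A.Cycles}
  {𝒢 : Set (Symmetry W)} {𝒴 : Set 𝒱.Obj}

/-- The base pieces with rational projectors. -/
def QQ (𝒢 : Set (Symmetry W)) (A : 𝒱.Obj) (𝒴 : Set 𝒱.Obj) (C : Mot W) : Prop :=
  C.e ∈ RatOp W C.X C.X ∧ IsProductOf ({A} ∪ 𝒴) C.X ∧ (∀ S ∈ 𝒢, Comm S C) ∧ BaseCls 𝒢 𝒴 C.m

lemma QQ.tensor (B C : Mot W) (hB : QQ 𝒢 A 𝒴 B) (hC : QQ 𝒢 A 𝒴 C) : QQ 𝒢 A 𝒴 (B.tensor C) := by
  obtain ⟨h1, h2, h3, h4⟩ := hB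
  obtain ⟨h1', h2', h3', h4'⟩ := hC
  exact ⟨RatOp.ext h1 h1', IsProductOf.prod h2 h2', fun S hS => (h3 S hS).tensor (h3' S hS),
    by rw [Mot.m_tensor]; exact BaseCls.mul _ _ h4 h4'⟩

/-- Products of powers of the piece `H` and of base pieces. -/
def PW (𝒢 : Set (Symmetry W)) (A : 𝒱.Obj) (𝒴 : Set 𝒱.Obj) (H B : Mot W) : Prop :=
  ∃ (n : ℕ) (y : Mon W), (y = 1 ∨ ∃ C, QQ 𝒢 A 𝒴 C ∧ y = C.m) ∧ B.m = H.m ^ n * y

lemma PW.tensor {H : Mot W} (B C : Mot W) (hB : PW 𝒢 A 𝒴 H B) (hC : PW 𝒢 A 𝒴 H C) :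
    PW 𝒢 A 𝒴 H (B.tensor C) := by
  obtain ⟨n, y, hy, hB⟩ := hB
  obtain ⟨n', y', hy', hC⟩ := hC
  refine ⟨n + n', y * y', ?_, by rw [Mot.m_tensor, hB, hC, pow_add, mul_mul_mul_comm]⟩
  rcases hy with rfl | ⟨E, hE, rfl⟩
  · rw [one_mul]; exact hy'
  · rcases hy' with rfl | ⟨E', hE', rfl⟩
    · rw [mul_one]; exact Or.inr ⟨E, hE, rfl⟩
    · exact Or.inr ⟨E.tensor E', QQ.tensor _ _ hE hE', rfl⟩

lemma PW.self (H : Mot W) : PW 𝒢 A 𝒴 H H := ⟨1, 1, Or.inl rfl, by rw [pow_one, mul_one]⟩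

lemma PW.base {H C : Mot W} (hC : QQ 𝒢 A 𝒴 C) : PW 𝒢 A 𝒴 H C :=
  ⟨0, C.m, Or.inr ⟨C, hC, rfl⟩, by rw [pow_zero, one_mul]⟩

lemma isProductOf_pX {X Y : 𝒱.Obj} {R : Set 𝒱.Obj} (hX : X ∈ R) (hY : IsProductOf R Y) (n : ℕ) :
    IsProductOf R (pX X Y n) := by
  induction n with
  | zero => exact hY
  | succ n ih => exact IsProductOf.prod (IsProductOf.base hX) ih

lemma blockOp_pair {L : Type w} [Field L] [Algebra W.K L] [CharZero L]
    {ι : algebraicClosure ℚ L →ₐ[ℚ] ℂ} {H B : Mot W} {Λ : Type w'} {bar : Λ → Λ}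
    {p : Λ → (W.H H.X →ₗ[W.K] W.H H.X)} (hp : ∀ l, KPair W ι H.X (p l) (p (bar l)))
    (hB : B.e ∈ RatOp W B.X B.X) : ∀ (n : ℕ) (l : Fin n → Λ),
      KPair W ι (pX H.X B.X n) (blockOp H B p n l) (blockOp H B p n (fun s => bar (l s))) := by
  intro n
  induction n with
  | zero => exact fun l => KPair.self hB
  | succ n ih => exact fun l => KPair.ext (hp (l 0)) (ih fun i => l i.succ)

/-- **Adding an abelian variety.** -/
theorem homEqNum_step (hA : IsAbelianWithCentre 𝒢 A)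
    (h𝒴 : ∀ Y, IsProductOf 𝒴 Y → HomEqNum W Y)
    (hI : ∀ Z, IsProductOf ({A} ∪ 𝒴) Z → InjectivityConj W Z) {Z : 𝒱.Obj}
    (hZ : IsProductOf ({A} ∪ 𝒴) Z) : HomEqNum W Z := by
  classical
  by_cases hone : (1 : W.H A) = 0
  · -- the cohomology of `A` is zero
    refine RetOp.homEqNum (P := fun B => ∃ Y, IsProductOf 𝒴 Y ∧ B = whole W Y) ?_ ?_
    · rintro B ⟨Y, hY, rfl⟩
      exact num_whole (h𝒴 Y hY)
    · induction hZ with
      | base hX =>
        rename_i X
        rcases hX with hX | hX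
        · rw [Set.mem_singleton_iff] at hX
          subst hX
          have h1 : (LinearMap.id : W.H X →ₗ[W.K] W.H X) = 0 := by
            apply LinearMap.ext
            intro x
            calc (LinearMap.id : W.H X →ₗ[W.K] W.H X) x = 1 * x := by rw [one_mul]; rfl
              _ = 0 := by rw [hone, zero_mul]
          rw [h1]
          exact Submodule.zero_mem _
        · exact RetOp.self (B := R908.whole W X) ⟨X, IsProductOf.base hX, rfl⟩
      | prod _ _ h1 h2 =>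
        rw [← extHom_id]
        refine RetOp.ext ?_ h1 h2
        rintro B C ⟨Y, hY, rfl⟩ ⟨Y', hY', rfl⟩
        exact ⟨Y.prod Y', IsProductOf.prod hY hY', whole_tensor Y Y'⟩
  obtain ⟨m, D, hA, hC⟩ := hA
  obtain ⟨π, hπ, hR⟩ := exists_ratProjs hA.abelianLike
  have hK : ∀ i, π i ∈ KOp W A A 0 := fun i => RatOp.mem (hR i)
  obtain ⟨θ', hself⟩ := exists_selfDual hA.abelianLike hA.divisor hA.lefschetz hπ hK hone
  obtain ⟨nn, bar, b, e, N, heR, hp, hN, hconj⟩ := exists_blockSystem hC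
  have hb := hp.blocks hA.divisor hπ hK
  -- an embedding of the algebraic numbers
  obtain ⟨ι⟩ := exists_emb (AlgebraicClosure W.K)
  have hpair : ∀ l, KPair W ι A (Polynomial.aeval e (b l) ∘ₗ π 1)
      (Polynomial.aeval e (b (bar l)) ∘ₗ π 1) := by
    intro l
    have key : ∀ l, Polynomial.aeval e (b l) ∘ₗ π 1 =
        ∑ i : Fin N, (b l).coeff i • ((e ^ (i : ℕ)) ∘ₗ π 1) := by
      intro l
      rw [Polynomial.aeval_eq_sum_range' (hN l)]
      apply LinearMap.ext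
      intro x
      rw [LinearMap.comp_apply, LinearMap.sum_apply, LinearMap.sum_apply, Finset.sum_range]
      rfl
    refine ⟨Fin N, inferInstance, fun i => (b l).coeff i, fun i => (b (bar l)).coeff i,
      fun i => (e ^ (i : ℕ)) ∘ₗ π 1, fun i => hconj ι l i,
      fun i => RatOp.comp (RatOp.pow heR _) (hR 1), key l, key (bar l)⟩
  have htop := tr_top_ne hA.lefschetz hA.divisor hone
  have hc0 : (W.cl A D) ^ A.dim ∈ spanCycles W A A.dim := by
    have h2 := KOp.map_span (lefP_mem (W := W) hA.divisor A.dim) (x := (1 : W.H A)) (j := 0)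
      (Submodule.subset_span ⟨0, rfl, A.V.fundCycle, A.V.fundCycle_mem, (W.cl_fund A)⟩)
    rw [zero_add, lefP_eq, mul_one] at h2
    exact h2
  have hH0 : QQ 𝒢 A 𝒴 (Hi hπ hK 0) := by
    refine ⟨hR 0, IsProductOf.base (Or.inl rfl), fun S _ => hπ.comm S 0, [Hi hπ hK 0], ?_, 1,
      Or.inl rfl, by rw [List.map_singleton, List.prod_singleton, mul_one]⟩
    intro B hB
    rw [List.mem_singleton] at hB
    rw [hB]
    refine ⟨⟨1, fun _ => (W.tr A ((W.cl A D) ^ A.dim))⁻¹ • (W.cl A D) ^ A.dim, fun _ => 1,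
      fun _ => A.dim, fun _ => Submodule.smul_mem _ _ hc0, fun x => ?_⟩,
      fun S _ => hπ.comm S 0⟩
    rw [Finset.univ_unique, Finset.sum_singleton]
    refine projs_zero_alg hπ (Submodule.smul_mem _ _ hc0) ?_ x
    rw [map_smul, smul_eq_mul, inv_mul_cancel₀ htop]
  have hwhole : ∀ Y, Y ∈ 𝒴 → QQ 𝒢 A 𝒴 (whole W Y) := by
    intro Y hY
    refine ⟨RatOp.id Y, IsProductOf.base (Or.inr hY), fun S _ a => rfl, [],
      fun B hB => absurd hB List.not_mem_nil, _, Or.inr ⟨Y, IsProductOf.base hY, rfl⟩, ?_⟩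
    rw [List.map_nil, List.prod_nil, one_mul]
  have hmain : ∀ C, QQ 𝒢 A 𝒴 C → ∀ n, (pM (Hi hπ hK 1) C n).Num := by
    intro C hC n
    refine pM_num_conj (Q := QQ 𝒢 A 𝒴) hself hb QQ.tensor ?_ 𝒢 (fun S _ => hπ.comm S 1) ?_ ?_ ?_
      ?_ hC n
    · rintro B ⟨-, -, -, hB⟩
      exact mnum_m.1 (BaseCls.mnum h𝒴 _ hB)
    · intro S hS
      obtain ⟨c, hc, hcD⟩ := hA.scaled S hS
      have key : ∀ a : W.H A, lefP W A D (A.dim - 1) (π 1 (S.σ A a)) =
          (c ^ (A.dim - 1))⁻¹ • S.σ A (lefP W A D (A.dim - 1) (π 1 a)) := by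
        intro a
        rw [lefP_eq, lefP_eq, map_mul, map_pow, hcD, _root_.smul_pow, smul_mul_assoc, smul_smul,
          inv_mul_cancel₀ (pow_ne_zero _ hc), one_smul, hπ.comm]
      exact ⟨(c ^ (A.dim - 1))⁻¹, inv_ne_zero (pow_ne_zero _ hc), key⟩
    · rintro S hS B ⟨-, -, hB, -⟩
      exact hB S hS
    · intro (U : Submodule W.K (W.H A)) hU hst' hS' l hl (y : W.H A) hy'
      have hst : ∀ (δ : ℤ) (φ : W.H A →ₗ[W.K] W.H A), φ ∈ KOp W A A δ → ∀ x ∈ U,
        π 1 (φ x) ∈ U := hst'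
      have hfix : ∀ x ∈ U, π 1 x = x := by
        intro x hx
        obtain ⟨y, hy⟩ := hU hx
        rw [← hy]
        exact congrArg (fun F => F y) (hπ.idem 1)
      have hgr : ∀ x ∈ U, x ∈ W.gr A 1 := by
        intro x hx
        rw [← hfix x hx]
        exact hπ.mem_gr 1 x
      obtain ⟨x, hx, hx0, hxl⟩ := hl
      have hy : Polynomial.aeval e (b l) (π 1 y) = y := hy'
      have hxl' : Polynomial.aeval e (b l) (π 1 x) = x := hxl
      have hygr : y ∈ W.gr A 1 := by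
        rw [← hy]
        exact Mot.hom_deg0 (hp.mem l) (hπ.mem_gr 1 y)
      refine hp.irreducible U hgr ?_ ?_ l ⟨x, hx, hx0, ?_⟩ y hygr ?_
      · rintro _ ⟨z, hz, rfl⟩ x hx
        have hφ0 : W.corr (W.cl _ z) ∈ KOp W A A 0 := KOp.gen (by rw [add_zero]) hz
        have h1 : π 1 (W.corr (W.cl _ z) x) = W.corr (W.cl _ z) x :=
          hπ.self (Mot.hom_deg0 hφ0 (hgr x hx))
        rw [← h1]
        exact hst _ _ hφ0 x hx
      · rintro _ ⟨S, hS, rfl⟩ x hx
        exact hS' S hS x hx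
      · rwa [hfix x hx] at hxl'
      · rwa [hπ.self hygr] at hy
    · rintro B ⟨hBe, hBX, -, -⟩ n l j x hx - h0
      exact (blockOp_pair (bar := bar) (H := Hi hπ hK 1) (B := B)
        (p := fun l => Polynomial.aeval e (b l) ∘ₗ π 1) hpair hBe n l).eq_zero
        (hI _ (isProductOf_pX (Or.inl rfl) hBX n)) hx h0
  refine RetOp.homEqNum (P := PW 𝒢 A 𝒴 (Hi hπ hK 1)) ?_ ?_
  · rintro B ⟨n, y, hy, hB⟩
    rcases hy with rfl | ⟨C, hC, rfl⟩
    · rw [mul_one] at hB
      have h1 := hmain _ hH0 n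
      rw [← mnum_m, pM_m, ← hB, ← Mot.m_tensor, mnum_m] at h1
      refine Mot.Num.of_unit (C := Hi hπ hK 0) (j := 0) (c := (1 : W.H A))
        (Submodule.subset_span ⟨0, rfl, A.V.fundCycle, A.V.fundCycle_mem, W.cl_fund A⟩) ?_ h1
      change π 0 (1 : W.H A) ≠ 0
      rw [hπ.self (W.one_mem A)]
      exact hone
    · have h1 := hmain C hC n
      rw [← mnum_m, pM_m, ← hB, mnum_m] at h1
      exact h1
  · induction hZ with
    | base hX =>
      rename_i X
      rcases hX with hX | hX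
      · rw [Set.mem_singleton_iff] at hX
        subst hX
        exact id_mem_retOp hA.abelianLike hπ hK PW.tensor
          (RetOp.self (B := Hi hπ hK 0) (PW.base hH0)) (RetOp.self (B := Hi hπ hK 1) (PW.self _))
      · exact RetOp.self (B := R908.whole W X) (PW.base (hwhole X hX))
    | prod _ _ h1 h2 =>
      rw [← extHom_id]
      exact RetOp.ext PW.tensor h1 h2

lemma exists_finite_prod {P : Set 𝒱.Obj} {Z : 𝒱.Obj} (hZ : IsProductOf (P ∪ 𝒴) Z) :
    ∃ F : List 𝒱.Obj, (∀ X ∈ F, X ∈ P) ∧ IsProductOf ({X | X ∈ F} ∪ 𝒴) Z := by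
  induction hZ with
  | base hX =>
    rename_i X
    rcases hX with hX | hX
    · refine ⟨(X :: []), fun Y hY => ?_, IsProductOf.base (Or.inl (List.mem_singleton.2 rfl))⟩
      rw [List.mem_singleton] at hY
      rwa [hY]
    · exact ⟨[], fun Y hY => absurd hY List.not_mem_nil, IsProductOf.base (Or.inr hX)⟩
  | prod _ _ h1 h2 =>
    obtain ⟨F, hF, h1⟩ := h1
    obtain ⟨F', hF', h2⟩ := h2
    refine ⟨F ++ F', fun X hX => ?_, IsProductOf.prod (isProductOf_mono ?_ h1)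
      (isProductOf_mono ?_ h2)⟩
    · rcases List.mem_append.1 hX with h | h
      · exact hF X h
      · exact hF' X h
    · rintro X (hX | hX)
      · exact Or.inl (List.mem_append_left _ hX)
      · exact Or.inr hX
    · rintro X (hX | hX)
      · exact Or.inl (List.mem_append_right _ hX)
      · exact Or.inr hX

/-- **The conjecture D for products with abelian varieties, from the injectivity conjecture.** -/
theorem homEqNum_of_injectivity {P : Set 𝒱.Obj} (hP : ∀ A ∈ P, IsAbelianWithCentre 𝒢 A)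
    (h𝒴 : ∀ Y, IsProductOf 𝒴 Y → HomEqNum W Y)
    (hI : ∀ Z, IsProductOf (P ∪ 𝒴) Z → InjectivityConj W Z) {Z : 𝒱.Obj}
    (hZ : IsProductOf (P ∪ 𝒴) Z) : HomEqNum W Z := by
  have key : ∀ F : List 𝒱.Obj, (∀ X ∈ F, X ∈ P) → ∀ Z, IsProductOf ({X | X ∈ F} ∪ 𝒴) Z →
      HomEqNum W Z := by
    intro F
    induction F with
    | nil =>
      intro _ Z hZ
      refine h𝒴 Z (isProductOf_mono ?_ hZ)
      rintro X (hX | hX)
      · exact absurd hX List.not_mem_nil
      · exact hX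
    | cons A F ih =>
      intro hF Z hZ
      have h1 := ih fun X hX => hF X (List.mem_cons_of_mem _ hX)
      refine homEqNum_step (A := A) (𝒴 := {X | X ∈ F} ∪ 𝒴) (hP A (hF A List.mem_cons_self)) h1
        ?_ (isProductOf_mono ?_ hZ)
      · intro Z hZ
        refine hI Z (isProductOf_mono ?_ hZ)
        rintro X (hX | hX | hX)
        · rw [Set.mem_singleton_iff] at hX
          rw [hX]
          exact Or.inl (hF A List.mem_cons_self)
        · exact Or.inl (hF X (List.mem_cons_of_mem _ hX))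
        · exact Or.inr hX
      · rintro X (hX | hX)
        · rcases List.mem_cons.1 hX with h | h
          · exact Or.inl h
          · exact Or.inr (Or.inl h)
        · exact Or.inr (Or.inr hX)
  obtain ⟨F, hF, h1⟩ := exists_finite_prod hZ
  exact key F hF Z h1

end Pool.Agent.K9h28
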