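import Pool.Agent.K9h28.HaSpDefs
import Pool.Agent.K9h28.HaA
import Pool.Agent.R908.TInjDefs

/-!
# The injectivity conjecture from a degeneration
-/

open CategoryTheory AlgebraicGeometry

universe u u' v v'

namespace Pool.Agent.K9h28

open Pool.Agent.H914 Pool.Agent.H914.VarClass Pool.Agent.H914.VarClass.Obj
  Pool.Agent.H914.WeilCohomology Pool.Agent.H281R3.HT Pool.Agent.R908

section Phi

variable {k : Type u} [Field k] {𝒱 : VarClass k} {ops : CycleOps 𝒱}
  {W : WeilCohomology.{u, v} ops} {X Y : 𝒱.Obj} (φ : W.K →ₗ[ℚ] ℚ)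

/-- Sums of algebraic classes of several codimensions. -/
def AQs (W : WeilCohomology.{u, v} ops) (X : 𝒱.Obj) (a : W.H X) : Prop :=
  ∃ (N : ℕ) (f : ℕ → W.H X), (∀ j, f j ∈ algClasses W X j) ∧ a = ∑ j ∈ Finset.range N, f j

lemma AQs.of {j : ℕ} {a : W.H X} (ha : a ∈ algClasses W X j) : AQs W X a := by
  classical
  refine ⟨j + 1, fun i => if i = j then a else 0, fun i => ?_, ?_⟩
  · beta_reduce
    split_ifs with h
    · rw [h]; exact ha
    · exact alg_zero i
  · rw [Finset.sum_eq_single j, if_pos rfl]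
    · intro i _ hi
      rw [if_neg hi]
    · intro h
      exact absurd (Finset.mem_range.2 (Nat.lt_succ_self j)) h

lemma AQs.zero : AQs W X 0 := ⟨0, fun _ => 0, fun j => alg_zero j, rfl⟩

/-- One may enlarge the range. -/
lemma AQs.large {a : W.H X} (ha : AQs W X a) : ∃ (N : ℕ) (f : ℕ → W.H X),
    (∀ j, f j ∈ algClasses W X j) ∧ ∀ M, N ≤ M → a = ∑ j ∈ Finset.range M, f j := by
  classical
  obtain ⟨N, f, hf, rfl⟩ := ha
  refine ⟨N, fun j => if j < N then f j else 0, fun j => ?_, fun M hM => ?_⟩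
  · beta_reduce
    split_ifs
    · exact hf j
    · exact alg_zero j
  · rw [Finset.sum_ite, Finset.sum_const_zero, add_zero]
    refine Finset.sum_congr ?_ fun _ _ => rfl
    ext j
    simp only [Finset.mem_filter, Finset.mem_range]
    omega

lemma AQs.add {a b : W.H X} (ha : AQs W X a) (hb : AQs W X b) : AQs W X (a + b) := by
  obtain ⟨N, f, hf, h1⟩ := ha.large
  obtain ⟨M, g, hg, h2⟩ := hb.large
  refine ⟨max N M, fun j => f j + g j, fun j => alg_add (hf j) (hg j), ?_⟩
  rw [Finset.sum_add_distrib, ← h1 _ (le_max_left _ _), ← h2 _ (le_max_right _ _)]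

lemma AQs.sum {ι : Type*} (s : Finset ι) {f : ι → W.H X} (h : ∀ i ∈ s, AQs W X (f i)) :
    AQs W X (∑ i ∈ s, f i) := by
  classical
  induction s using Finset.induction_on with
  | empty => rw [Finset.sum_empty]; exact AQs.zero
  | insert a s ha ih =>
    rw [Finset.sum_insert ha]
    exact (h a (Finset.mem_insert_self _ _)).add
      (ih fun i hi => h i (Finset.mem_insert_of_mem hi))

lemma AQs.smul (q : ℚ) {a : W.H X} (ha : AQs W X a) : AQs W X ((q : W.K) • a) := by
  obtain ⟨N, f, hf, rfl⟩ := ha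
  exact ⟨N, fun j => (q : W.K) • f j, fun j => alg_smul q (hf j), Finset.smul_sum⟩

lemma AQs.comm {a : W.H X} (ha : AQs W X a) (b : W.H X) : a * b = b * a := by
  obtain ⟨N, f, hf, rfl⟩ := ha
  rw [Finset.sum_mul, Finset.mul_sum]
  exact Finset.sum_congr rfl fun j _ => alg_even_comm (hf j) b

lemma AQs.map (g : X ⟶ Y) {a : W.H Y} (ha : AQs W Y a) : AQs W X (W.map g a) := by
  obtain ⟨N, f, hf, rfl⟩ := ha
  exact ⟨N, fun j => W.map g (f j), fun j => alg_map g (hf j), map_sum _ _ _⟩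

lemma AQs.push (g : X ⟶ Y) {a : W.H X} (ha : AQs W X a) : AQs W Y (W.push g a) := by
  obtain ⟨N, f, hf, rfl⟩ := ha
  rw [map_sum]
  refine AQs.sum _ fun j _ => ?_
  by_cases h : X.dim ≤ j + Y.dim
  · exact AQs.of (alg_push g (hf j) (i := j + Y.dim - X.dim) (by omega))
  · rw [alg_push_zero (hf j) (by omega)]
    exact AQs.zero

/-- If `D` holds, then a sum of algebraic classes orthogonal to all algebraic classes is zero. -/
lemma AQs.eq_zero (hD : HomEqNum W X) {a : W.H X} (ha : AQs W X a)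
    (h : ∀ l, ∀ b ∈ algClasses W X l, W.tr X (a * b) = 0) : a = 0 := by
  obtain ⟨N, f, hf, rfl⟩ := ha
  refine Finset.sum_eq_zero fun j hj => ?_
  by_cases hj' : j ≤ X.dim
  · apply eq_zero_of_D hD hj' (hf j)
    intro d hd
    rw [← h _ d hd, Finset.sum_mul, map_sum, Finset.sum_eq_single j]
    · intro i _ hi
      exact W.tr_eq_zero (W.mul_mem (alg_gr (hf i)) (alg_gr hd)) (by omega)
    · intro h0
      exact absurd hj h0
  · have h1 := alg_gr (hf j)
    rw [W.gr_eq_bot X _ (by omega), Submodule.mem_bot] at h1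
    exact h1

/-- The class `a` represents the functional `b ↦ φ(tr (x b))` on the algebraic classes. -/
def IsPhi (φ : W.K →ₗ[ℚ] ℚ) (X : 𝒱.Obj) (x a : W.H X) : Prop :=
  AQs W X a ∧ ∀ l, ∀ b ∈ algClasses W X l, W.tr X (a * b) = ((φ (W.tr X (x * b)) : ℚ) : W.K)

variable {φ}

lemma IsPhi.unique (hD : HomEqNum W X) {x a a' : W.H X} (h : IsPhi φ X x a)
    (h' : IsPhi φ X x a') : a = a' := by
  have h1 : AQs W X (a + ((-1 : ℚ) : W.K) • a') := h.1.add (h'.1.smul (-1))
  have h2 : a + ((-1 : ℚ) : W.K) • a' = a - a' := by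
    push_cast
    rw [neg_one_smul, sub_eq_add_neg]
  rw [h2] at h1
  rw [← sub_eq_zero]
  apply h1.eq_zero hD
  intro l b hb
  rw [sub_mul, map_sub, h.2 l b hb, h'.2 l b hb, sub_self]

lemma IsPhi.zero : IsPhi φ X 0 0 := by
  refine ⟨AQs.zero, fun l b _ => ?_⟩
  rw [zero_mul, map_zero, map_zero, Rat.cast_zero]

lemma IsPhi.add {x y a b : W.H X} (h : IsPhi φ X x a) (h' : IsPhi φ X y b) :
    IsPhi φ X (x + y) (a + b) := by
  refine ⟨h.1.add h'.1, fun l c hc => ?_⟩
  rw [add_mul, map_add, h.2 l c hc, h'.2 l c hc, add_mul, map_add, map_add, Rat.cast_add]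

lemma IsPhi.sum {ι : Type*} (s : Finset ι) {x a : ι → W.H X} (h : ∀ i ∈ s, IsPhi φ X (x i) (a i)) :
    IsPhi φ X (∑ i ∈ s, x i) (∑ i ∈ s, a i) := by
  classical
  induction s using Finset.induction_on with
  | empty => rw [Finset.sum_empty, Finset.sum_empty]; exact IsPhi.zero
  | insert j s hj ih =>
    rw [Finset.sum_insert hj, Finset.sum_insert hj]
    exact (h j (Finset.mem_insert_self _ _)).add
      (ih fun i hi => h i (Finset.mem_insert_of_mem hi))

lemma IsPhi.zsmul (n : ℤ) {x a : W.H X} (h : IsPhi φ X x a) : IsPhi φ X (n • x) (n • a) := by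
  have e : ∀ x : W.H X, n • x = (((n : ℚ)) : W.K) • x := by
    intro x
    push_cast
    exact (Int.cast_smul_eq_zsmul W.K n x).symm
  refine ⟨?_, fun l b hb => ?_⟩
  · rw [e]
    exact h.1.smul n
  · rw [e, e, smul_mul_assoc, map_smul, h.2 l b hb, smul_mul_assoc, map_smul, smul_eq_mul,
      smul_eq_mul]
    have h1 : φ (((n : ℚ) : W.K) * W.tr X (x * b)) = (n : ℚ) * φ (W.tr X (x * b)) := by
      have h2 : ((n : ℚ) : W.K) * W.tr X (x * b) = (n : ℚ) • W.tr X (x * b) := by
        rw [Algebra.smul_def, eq_ratCast]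
      rw [h2, map_smul, smul_eq_mul]
    rw [h1, Rat.cast_mul]

lemma IsPhi.map (g : X ⟶ Y) {x a : W.H Y} (h : IsPhi φ Y x a) :
    IsPhi φ X (W.map g x) (W.map g a) := by
  refine ⟨h.1.map g, fun l b hb => ?_⟩
  have e : ∀ c : W.H Y, W.tr X (W.map g c * b) = W.tr Y (c * W.push g b) := by
    intro c
    have h1 : W.tr X (b * W.map g c) = W.tr Y (W.push g b * c) := (W.tr_push g b c).symm
    have h2 : W.push g b * c = c * W.push g b := (AQs.push g (AQs.of hb)).comm c
    rw [← alg_even_comm hb, h1, h2]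
  rw [e, e]
  by_cases hd : X.dim ≤ l + Y.dim
  · exact h.2 _ _ (alg_push g hb (i := l + Y.dim - X.dim) (by omega))
  · rw [alg_push_zero hb (by omega), mul_zero, mul_zero, map_zero, map_zero, Rat.cast_zero]

lemma IsPhi.push (g : X ⟶ Y) {x a : W.H X} (h : IsPhi φ X x a) :
    IsPhi φ Y (W.push g x) (W.push g a) := by
  refine ⟨h.1.push g, fun l b hb => ?_⟩
  rw [W.tr_push, W.tr_push]
  exact h.2 _ _ (alg_map g hb)

lemma IsPhi.smul_alg {j : ℕ} {a : W.H X} (ha : a ∈ algClasses W X j) (c : W.K) :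
    IsPhi φ X (c • a) (((φ c : ℚ) : W.K) • a) := by
  refine ⟨(AQs.of ha).smul _, fun l b hb => ?_⟩
  obtain ⟨s, hs⟩ := alg_rat ha hb
  rw [bil_apply] at hs
  rw [smul_mul_assoc, map_smul, smul_mul_assoc, map_smul, hs, smul_eq_mul, smul_eq_mul]
  have h1 : c * (s : W.K) = s • c := by
    rw [Algebra.smul_def, eq_ratCast, mul_comm]
  rw [h1, map_smul, smul_eq_mul, Rat.cast_mul, mul_comm]

lemma exists_isPhi (hD : HomEqNum W X) (x : W.H X) : ∃ a, IsPhi φ X x a := by
  classical
  have hcomp : ∀ j : ℕ, ∃ a ∈ algClasses W X j, j ≤ X.dim →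
      ∀ b ∈ algClasses W X (X.dim - j), W.tr X (a * b) = ((φ (W.tr X (x * b)) : ℚ) : W.K) := by
    intro j
    by_cases hj : j ≤ X.dim
    swap
    · exact ⟨0, alg_zero j, fun h => absurd h hj⟩
    obtain ⟨n, s, c, hs, hc, h1, h2⟩ := exists_rat_dual hD hj
    refine ⟨∑ i, ((φ (W.tr X (x * c i)) : ℚ) : W.K) • s i,
      alg_sum Finset.univ _ (fun i => φ (W.tr X (x * c i))) (fun i _ => hs i), fun _ b hb => ?_⟩
    choose r hr using fun i => alg_rat (hs i) hb
    have h3 : b = ∑ i, (r i : W.K) • c i := by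
      have h4 := h2 b (Submodule.subset_span hb)
      conv_lhs => rw [← h4]
      exact Finset.sum_congr rfl fun i _ => by rw [hr]
    rw [Finset.sum_mul, map_sum]
    have h5 : W.tr X (x * b) = ∑ i, r i • W.tr X (x * c i) := by
      conv_lhs => rw [h3]
      rw [Finset.mul_sum, map_sum]
      refine Finset.sum_congr rfl fun i _ => ?_
      rw [mul_smul_comm, map_smul, smul_eq_mul, Algebra.smul_def, eq_ratCast]
    rw [h5, map_sum, Rat.cast_sum]
    refine Finset.sum_congr rfl fun i _ => ?_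
    have h6 := hr i
    rw [bil_apply] at h6
    rw [smul_mul_assoc, map_smul, h6, map_smul, smul_eq_mul, smul_eq_mul, Rat.cast_mul, mul_comm]
  choose a ha h using hcomp
  refine ⟨∑ j ∈ Finset.range (X.dim + 1), a j, ⟨X.dim + 1, a, ha, rfl⟩, fun l b hb => ?_⟩
  by_cases hl : l ≤ X.dim
  · rw [Finset.sum_mul, map_sum, Finset.sum_eq_single (X.dim - l)]
    · exact h (X.dim - l) (by omega) b (by
        rw [show X.dim - (X.dim - l) = l by omega]
        exact hb)
    · intro j hj hne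
      have h3 := Finset.mem_range.1 hj
      exact W.tr_eq_zero (W.mul_mem (alg_gr (ha j)) (alg_gr hb)) (by omega)
    · intro h0
      exact absurd (Finset.mem_range.2 (by omega)) h0
  · have h1 := alg_gr hb
    rw [W.gr_eq_bot X _ (by omega), Submodule.mem_bot] at h1
    rw [h1, mul_zero, mul_zero, map_zero, map_zero, Rat.cast_zero]

end Phi

section Spec

variable {k : Type u} [Field k] {𝒱 : VarClass k} {ops : CycleOps 𝒱}
  {W : WeilCohomology.{u, v} ops} {X : 𝒱.Obj}
  {k₀ : Type u'} [Field k₀] {𝒱₀ : VarClass k₀} {ops₀ : CycleOps 𝒱₀}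
  {W₀ : WeilCohomology.{u', v'} ops₀} {σ : W.K →+* W₀.K} {T : Strata 𝒱₀}
  {sp : ∀ s, X.Cycles → (T.Y s).Cycles}

lemma isPhi_res {φ : W₀.K →ₗ[ℚ] ℚ} {s u : T.S} {x a : W₀.H (T.Y u)} (h : IsPhi φ _ x a) :
    IsPhi φ _ (T.res W₀ s u x) (T.res W₀ s u a) := by
  unfold Strata.res
  split_ifs with h1
  · exact (h.map _).zsmul _
  · exact IsPhi.zero

lemma isPhi_gys {φ : W₀.K →ₗ[ℚ] ℚ} {s u : T.S} {x a : W₀.H (T.Y s)} (h : IsPhi φ _ x a) :
    IsPhi φ _ (T.gys W₀ s u x) (T.gys W₀ s u a) := by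
  unfold Strata.gys
  split_ifs with h1
  · exact (h.push _).zsmul _
  · exact IsPhi.zero

/-- **The injectivity conjecture from a degeneration** whose strata satisfy the conjecture D. -/
theorem injectivity_of_specializesTo (h : SpecializesTo W X W₀ σ T sp)
    (hD : ∀ s, HomEqNum W₀ (T.Y s)) : InjectivityConj W X := by
  classical
  intro r n z hz hq
  rw [Fintype.linearIndependent_iff]
  intro g hg i₀
  by_contra hne
  have hσ : σ (g i₀) ≠ 0 := fun h0 => hne ((map_eq_zero σ).1 h0)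
  obtain ⟨φ, hφ⟩ := Module.Projective.exists_dual_eq_one ℚ hσ
  have h1 : combine W X z g = 0 := hg
  obtain ⟨y, hy0, hy⟩ := (h.exact r n z g hz).1 h1
  choose y' hy' using fun s k => exists_isPhi (φ := φ) (hD s) (y s k)
  have h2 : T.IsCoboundary W₀ fun s =>
      combine W₀ (T.Y s) (fun i => sp s (z i)) (fun i => σ ((φ (σ (g i)) : ℚ) : W.K)) := by
    refine ⟨y', fun s k hk => ?_, fun s k hk => ?_⟩
    · have h3 := hy' s k
      rw [hy0 s k hk] at h3
      exact h3.unique (hD s) IsPhi.zero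
    · have h3 := hy s k hk
      have h4 : IsPhi φ (T.Y s) ((if k = 0 then 0 else sumC W₀ fun u => T.res W₀ s u
          (y u (k - 1))) + (sumC W₀ fun u => T.gys W₀ u s (y u k)))
          ((if k = 0 then 0 else sumC W₀ fun u => T.res W₀ s u (y' u (k - 1))) +
            (sumC W₀ fun u => T.gys W₀ u s (y' u k))) := by
        refine IsPhi.add ?_ ?_
        · split_ifs
          · exact IsPhi.zero
          · exact IsPhi.sum _ fun u _ => isPhi_res (hy' u (k - 1))
        · exact IsPhi.sum _ fun u _ => isPhi_gys (hy' u k)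
      rw [h3] at h4
      refine h4.unique (hD s) ?_
      split_ifs with hrk
      · unfold combine
        refine IsPhi.sum _ fun i _ => ?_
        beta_reduce
        rw [map_ratCast]
        exact IsPhi.smul_alg ⟨sp s (z i), h.mem r _ (hz i) s hrk, rfl⟩ _
      · exact IsPhi.zero
  have h3 := (h.exact r n z (fun i => ((φ (σ (g i)) : ℚ) : W.K)) hz).2 h2
  have h4 : W.cl X (∑ i, (φ (σ (g i))) • z i) = 0 := by
    rw [map_sum, ← h3]
    unfold combine
    exact Finset.sum_congr rfl fun i _ => W.cl_smul _ _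
  have h5 := hq (fun i => φ (σ (g i))) h4 i₀
  rw [h5] at hφ
  exact zero_ne_one hφ

end Spec

end Pool.Agent.K9h28
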