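import Pool.Agent.K9h28.HaF
import Pool.Agent.K9h28.HaG
import Pool.Agent.R908.MainK

/-!
# The conjecture D goes up from the special fibre for abelian varieties: the main theorem
-/

open CategoryTheory AlgebraicGeometry

universe u u' v v'

namespace Pool.Agent.K9h28

open Pool.Agent.H914 Pool.Agent.H914.VarClass Pool.Agent.H914.VarClass.Obj
  Pool.Agent.H914.WeilCohomology Pool.Agent.R908

variable {k : Type u} [Field k] {𝒱 : VarClass k} {ops : CycleOps 𝒱}
  {W : WeilCohomology.{u, v} ops}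

/-- The injectivity conjecture passes to dominated varieties. -/
theorem injectivity_image {X Y : 𝒱.Obj} (hX : InjectivityConj W X) (hXY : Dominates W X Y) :
    InjectivityConj W Y := by
  obtain ⟨g, p, w, c, hw, hc, hpush⟩ := hXY
  have inj : ∀ x : W.H Y, W.map g x = 0 → x = 0 := by
    intro x hx
    have h1 := W.push_mul g (W.cl X w) x
    rw [hx, mul_zero, map_zero, hpush, smul_mul_assoc, one_mul] at h1
    exact (smul_eq_zero.1 h1.symm).resolve_left hc
  intro j n z hz hq
  have h2 : LinearIndependent W.K (fun i => W.cl X (ops.pull g (z i))) := by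
    refine hX j n (fun i => ops.pull g (z i)) (fun i => ops.pull_mem g (hz i)) ?_
    intro q h0
    refine hq q (inj _ ?_)
    rw [map_sum, map_sum]
    rw [map_sum] at h0
    rw [← h0]
    refine Finset.sum_congr rfl fun i _ => ?_
    rw [W.cl_smul, W.cl_smul, map_smul, W.cl_pull]
  rw [Fintype.linearIndependent_iff] at h2 ⊢
  intro a ha
  refine h2 a ?_
  have h3 := congrArg (W.map g) ha
  rw [map_zero, map_sum] at h3
  rw [← h3]
  refine Finset.sum_congr rfl fun i _ => ?_
  rw [W.cl_pull, map_smul]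

/-- **The conjecture D goes up from the special fibre for abelian varieties.** -/
theorem specialFibre_final {𝒢 : Set (Symmetry W)} {P 𝒴 : Set 𝒱.Obj}
    (hP : ∀ A ∈ P, IsAbelianWithCentre 𝒢 A) (h𝒴 : ∀ Y, IsProductOf 𝒴 Y → HomEqNum W Y)
    {k₀ : Type u'} [Field k₀] {𝒱₀ : VarClass k₀} {ops₀ : CycleOps 𝒱₀}
    {W₀ : WeilCohomology.{u', v'} ops₀} {σ : W.K →+* W₀.K}
    (h : ∀ Z, IsProductOf (P ∪ 𝒴) Z → ∃ X, Dominates W X Z ∧ (InjectivityConj W X ∨
      ∃ (T : Strata 𝒱₀) (sp : ∀ s, X.Cycles → (T.Y s).Cycles),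
        SpecializesTo W X W₀ σ T sp ∧ ∀ s, HomEqNum W₀ (T.Y s)))
    (Z : 𝒱.Obj) (hZ : IsProductOf (P ∪ 𝒴) Z) (V : 𝒱.Obj) (hV : Dominates W Z V) :
    HomEqNum W V ∧ ∀ D, V.IsCyc 1 D → HardLefschetz W V D → LefschetzB W V D := by
  refine dominated_of_products (fun Z hZ => homEqNum_of_injectivity hP h𝒴 (fun Z hZ => ?_) hZ)
    Z hZ V hV
  obtain ⟨X, hX, hX'⟩ := h Z hZ
  refine injectivity_image ?_ hX
  rcases hX' with h1 | ⟨T, sp, h1, h2⟩
  · exact h1
  · exact injectivity_of_specializesTo h1 h2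

end Pool.Agent.K9h28
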