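import Mathlib

/-!
# Stable subspaces, commutants and adjoint operators: definitions
-/

set_option autoImplicit false

open Polynomial

namespace Pool.Agent.K9h28

variable {K : Type*} [Field K] {V : Type*} [AddCommGroup V] [Module K V]

/-- The subspace `U` is stable under all the maps in `C`. -/
def StableUnder (C : Set (V → V)) (U : Submodule K V) : Prop := ∀ φ ∈ C, ∀ x ∈ U, φ x ∈ U

/-- The subspace `N` is semisimple for the maps in `C`: each stable subspace of `N` has a stable
complement in `N`. -/
def SemisimpleUnder (C : Set (V → V)) (N : Submodule K V) : Prop :=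
  ∀ U ≤ N, StableUnder C U → ∃ U' ≤ N, StableUnder C U' ∧ U ⊓ U' = ⊥ ∧ U ⊔ U' = N

/-- Every `K`-linear map which preserves the subspace `N` and commutes on `N` with the maps in `C`
is on `N` a polynomial in `e` with coefficients in `K`. -/
def CommutantGeneratedBy (C : Set (V → V)) (N : Submodule K V) (e : Module.End K V) : Prop :=
  ∀ φ : Module.End K V, (∀ x ∈ N, φ x ∈ N) → (∀ ψ ∈ C, ∀ x ∈ N, φ (ψ x) = ψ (φ x)) →
    ∃ f : K[X], ∀ x ∈ N, φ x = aeval e f x

/-- On the subspace `N` the operator `e` is annihilated by a squarefree polynomial `P` with rational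
coefficients, and its adjoint for the form `β` is `Q(e)`, where `Q` has rational coefficients and
`Q(z)` is the complex conjugate of `z` for all complex roots `z` of `P`. -/
def ConjugateAdjoint [CharZero K] (N : Submodule K V) (β : V → V → K) (e : Module.End K V) :
    Prop :=
  ∃ P Q : ℚ[X], Squarefree P ∧ (∀ z : ℂ, aeval z P = 0 → aeval z Q = starRingEnd ℂ z) ∧
    (∀ x ∈ N, aeval e (P.map (algebraMap ℚ K)) x = 0) ∧
    ∀ x ∈ N, ∀ y ∈ N, β (e x) y = β x (aeval e (Q.map (algebraMap ℚ K)) y)

end Pool.Agent.K9h28
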