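import Pool.Agent.K9h28.GnDefs

/-!
# Specialization to the strata of a special fibre, with coefficients: definition
-/

set_option autoImplicit false

open CategoryTheory AlgebraicGeometry

universe u u' v v'

namespace Pool.Agent.K9h28

open Pool.Agent.H914 Pool.Agent.H914.VarClass Pool.Agent.H914.VarClass.Obj
  Pool.Agent.H914.WeilCohomology

variable {k : Type u} [Field k] {𝒱 : VarClass k} {ops : CycleOps 𝒱}
  {k₀ : Type u'} [Field k₀] {𝒱₀ : VarClass k₀} {ops₀ : CycleOps 𝒱₀}

/-- The linear combination of the classes of the cycles `z i` with the coefficients `c i`. -/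
noncomputable def combine (W : WeilCohomology.{u, v} ops) (X : 𝒱.Obj) {n : ℕ}
    (z : Fin n → X.Cycles) (c : Fin n → W.K) : W.H X := ∑ i, c i • W.cl X (z i)

/-- A linear combination of classes of cycles on `X` vanishes if and only if the combination of the
classes of the specializations vanishes in the spectral sequence of the weights. -/
def SpExactK (W : WeilCohomology.{u, v} ops) (X : 𝒱.Obj) (W₀ : WeilCohomology.{u', v'} ops₀)
    (σ : W.K →+* W₀.K) (T : Strata 𝒱₀) (sp : ∀ s, X.Cycles → (T.Y s).Cycles) : Prop :=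
  ∀ (r n : ℕ) (z : Fin n → X.Cycles) (c : Fin n → W.K), (∀ i, X.IsCyc r (z i)) →
    (combine W X z c = 0 ↔ T.IsCoboundary W₀ fun s =>
      combine W₀ (T.Y s) (fun i => sp s (z i)) (fun i => σ (c i)))

/-- The specialization of the cycles on `X` to cycles on the strata of rank zero. -/
structure SpecializesTo (W : WeilCohomology.{u, v} ops) (X : 𝒱.Obj)
    (W₀ : WeilCohomology.{u', v'} ops₀) (σ : W.K →+* W₀.K) (T : Strata 𝒱₀)
    (sp : ∀ s, X.Cycles → (T.Y s).Cycles) : Prop where
  mem : ∀ r z, X.IsCyc r z → ∀ s, T.rk s = 0 → (T.Y s).IsCyc r (sp s z)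
  exact : SpExactK W X W₀ σ T sp

end Pool.Agent.K9h28
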