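import Pool.Agent.H914R2.Core2

/-!
# Systems of operators with rational traces: ranks can only grow, and projectors on images
-/

set_option autoImplicit false

open Module

namespace Pool.Agent.K9h28.Il

section Reg

variable {K : Type*} [Field K] [CharZero K] {V : Type*} [AddCommGroup V] [Module K V]
  [Module.Finite K V]

/-- A subring of operators, stable under rational multiples, with rational traces. -/
structure RatRing (K V : Type*) [Field K] [AddCommGroup V] [Module K V] (R : Set (End K V)) :
    Prop where
  one : 1 ∈ R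
  add : ∀ {x y}, x ∈ R → y ∈ R → x + y ∈ R
  mul : ∀ {x y}, x ∈ R → y ∈ R → x * y ∈ R
  smul : ∀ (q : ℚ) {x}, x ∈ R → (q : K) • x ∈ R
  tr : ∀ x ∈ R, ∃ q : ℚ, LinearMap.trace K V x = q

variable {R : Set (End K V)}

omit [CharZero K] [Module.Finite K V] in
lemma RatRing.neg (h : RatRing K V R) {x : End K V} (hx : x ∈ R) : -x ∈ R := by
  have h1 := h.smul (-1) hx
  rwa [Rat.cast_neg, Rat.cast_one, neg_one_smul] at h1

/-- The subring. -/
def RatRing.toSubring (h : RatRing K V R) : Subring (End K V) where
  carrier := R
  mul_mem' := h.mul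
  one_mem' := h.one
  add_mem' := h.add
  zero_mem' := by
    have h1 := h.add h.one (h.neg h.one)
    rwa [add_neg_cancel] at h1
  neg_mem' := h.neg

/-- The rational multiples of one. -/
def RatRing.ratMap (h : RatRing K V R) : ℚ →+* h.toSubring where
  toFun q := ⟨(q : K) • 1, h.smul q h.one⟩
  map_one' := by
    ext1
    simp
  map_mul' a b := by
    ext1
    simp [mul_smul, smul_comm (a : K) (b : K)]
  map_zero' := by
    ext1
    simp
  map_add' a b := by
    ext1
    simp [add_smul]

/-- **A ring of operators with rational traces and nondegenerate trace form is von Neumann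
regular.** -/
theorem RatRing.regular (h : RatRing K V R)
    (hD : ∀ x ∈ R, (∀ y ∈ R, LinearMap.trace K V (x * y) = 0) → x = 0) {f : End K V}
    (hf : f ∈ R) : ∃ g ∈ R, f * g * f = f := by
  classical
  let S := h.toSubring
  let _ : Algebra ℚ S := RingHom.toAlgebra' h.ratMap (fun q x => by
    ext1
    change ((q : K) • (1 : End K V)) * (x : End K V) = (x : End K V) * ((q : K) • 1)
    rw [smul_mul_assoc, one_mul, mul_smul_comm, mul_one])
  have hsmul : ∀ (q : ℚ) (x : S), ((q • x : S) : End K V) = (q : K) • (x : End K V) := by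
    intro q x
    change ((q : K) • (1 : End K V)) * (x : End K V) = _
    rw [smul_mul_assoc, one_mul]
  -- a finite set spanning the same space over `K`
  obtain ⟨b, hbR, hbspan, hbli⟩ := exists_linearIndependent K R
  have : Finite b := (hbli.setFinite).to_subtype
  let _ : Fintype b := Fintype.ofFinite b
  -- the values of the trace form
  let Φ : S →ₗ[ℚ] (b → K) :=
    { toFun := fun x r => LinearMap.trace K V ((x : End K V) * r)
      map_add' := fun x y => by
        funext r
        change LinearMap.trace K V (((x : End K V) + (y : End K V)) * r) = _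
        rw [add_mul, map_add]
        rfl
      map_smul' := fun q x => by
        funext r
        change LinearMap.trace K V (((q • x : S) : End K V) * r) = _
        rw [hsmul, smul_mul_assoc, map_smul, smul_eq_mul]
        change _ = q • LinearMap.trace K V ((x : End K V) * r)
        rw [Algebra.smul_def, eq_ratCast] }
  have hΦ : Function.Injective Φ := by
    rw [injective_iff_map_eq_zero]
    intro x hx
    ext1
    refine hD x x.2 fun y hy => ?_
    have h1 : y ∈ Submodule.span K b := by
      rw [hbspan]
      exact Submodule.subset_span hy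
    refine Submodule.span_induction (p := fun y _ => LinearMap.trace K V ((x : End K V) * y) = 0)
      ?_ ?_ ?_ ?_ h1
    · intro r hr
      exact congrFun hx ⟨r, hr⟩
    · rw [mul_zero, map_zero]
    · intro y z _ _ hy hz
      rw [mul_add, map_add, hy, hz, add_zero]
    · intro c y _ hy
      rw [mul_smul_comm, map_smul, hy, smul_zero]
  -- the rational vectors
  let incl : (b → ℚ) →ₗ[ℚ] (b → K) :=
    LinearMap.pi fun r => (Algebra.linearMap ℚ K).comp (LinearMap.proj r)
  have hrange : ∀ x, Φ x ∈ LinearMap.range incl := by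
    intro x
    choose q hq using fun r : b => h.tr ((x : End K V) * r) (h.mul x.2 (hbR r.2))
    refine ⟨q, ?_⟩
    funext r
    change algebraMap ℚ K (q r) = LinearMap.trace K V ((x : End K V) * r)
    rw [hq, eq_ratCast]
  have hfin : Module.Finite ℚ S := by
    have h1 : Module.Finite ℚ (LinearMap.range incl) := inferInstance
    refine Module.Finite.of_injective (Φ.codRestrict (LinearMap.range incl) hrange) ?_
    intro x y hxy
    exact hΦ (congrArg Subtype.val hxy)
  have : IsArtinianRing S := IsArtinianRing.of_finite ℚ S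
  have hss : IsSemisimpleRing S := by
    rw [IsArtinianRing.isSemisimpleRing_iff_jacobson, eq_bot_iff]
    intro x hx
    rw [Ideal.mem_bot]
    ext1
    refine hD x x.2 fun y hy => ?_
    have h1 : x * (⟨y, hy⟩ : S) ∈ Ring.jacobson S := Ideal.mul_mem_right _ _ hx
    obtain ⟨n, hn⟩ := IsSemiprimaryRing.isNilpotent (R := S)
    have h2 : (x * (⟨y, hy⟩ : S)) ^ n = 0 := by
      have h3 := Ideal.pow_mem_pow h1 n
      rw [hn] at h3
      exact (Ideal.mem_bot).1 h3
    have h3 : IsNilpotent ((x : End K V) * y) := ⟨n, congrArg Subtype.val h2⟩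
    exact (LinearMap.isNilpotent_trace_of_isNilpotent h3).eq_zero
  obtain ⟨e, he, hspan⟩ := IsSemisimpleRing.ideal_eq_span_idempotent
    (Ideal.span {(⟨f, hf⟩ : S)})
  have h1 : (⟨f, hf⟩ : S) ∈ Ideal.span {e} := by
    rw [← hspan]
    exact Ideal.subset_span rfl
  have h2 : e ∈ Ideal.span {(⟨f, hf⟩ : S)} := by
    rw [hspan]
    exact Ideal.subset_span rfl
  obtain ⟨c, hc⟩ := Ideal.mem_span_singleton'.1 h1
  obtain ⟨g, hg⟩ := Ideal.mem_span_singleton'.1 h2
  refine ⟨g, g.2, ?_⟩
  have h3 : (⟨f, hf⟩ : S) * g * ⟨f, hf⟩ = ⟨f, hf⟩ := by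
    rw [mul_assoc, hg]
    conv_lhs => rw [← hc]
    rw [mul_assoc, he.eq, hc]
  exact congrArg Subtype.val h3

end Reg

end Pool.Agent.K9h28.Il
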