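import Pool.Agent.K9h28.IlA

/-!
# Systems of operators with rational traces: ranks can only grow, and projectors on images
-/

set_option autoImplicit false

open Module Polynomial Pool.Agent.H914

namespace Pool.Agent.K9h28.Il

section Poly

/-- The polynomial `1 - (1 - X ^ N) ^ N`. -/
noncomputable def liftP (N : ℕ) : ℚ[X] := 1 - (1 - X ^ N) ^ N

lemma X_pow_dvd_liftP (N : ℕ) : X ^ N ∣ liftP N := by
  have h1 := sub_dvd_pow_sub_pow (1 : ℚ[X]) (1 - X ^ N) N
  rw [one_pow, sub_sub_cancel] at h1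
  exact h1

lemma liftP_idem (N : ℕ) : (X * X - X) ^ N ∣ liftP N * liftP N - liftP N := by
  have h1 := X_pow_dvd_liftP N
  have h2 : (1 - X : ℚ[X]) ^ N ∣ 1 - liftP N := by
    have h3 := sub_dvd_pow_sub_pow (1 : ℚ[X]) X N
    rw [one_pow] at h3
    rw [liftP, sub_sub_cancel]
    exact pow_dvd_pow_of_dvd h3 N
  have h3 : liftP N * liftP N - liftP N = -(liftP N * (1 - liftP N)) := by ring
  rw [h3, dvd_neg]
  have h4 : (X * X - X : ℚ[X]) ^ N = (-1) ^ N * (X ^ N * (1 - X) ^ N) := by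
    rw [← mul_pow, ← mul_pow]
    ring
  rw [h4]
  have h5 := mul_dvd_mul h1 h2
  exact (IsUnit.mul_left_dvd ((isUnit_one.neg).pow N)).2 h5

lemma liftP_sub (N : ℕ) (hN : 1 ≤ N) : (X * X - X) ∣ liftP N - X := by
  obtain ⟨n, rfl⟩ := Nat.exists_eq_add_of_le' hN
  have hX : (X * X - X : ℚ[X]) = (-X) * (1 - X) := by ring
  have hdiv : ∀ P : ℚ[X], P.eval 0 = 0 → P.eval 1 = 0 → (X * X - X : ℚ[X]) ∣ P := by
    intro P h0 h1
    have e0 : X ∣ P := by
      rw [X_dvd_iff, coeff_zero_eq_eval_zero, h0]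
    have e1 : (X - C 1) ∣ P := dvd_iff_isRoot.2 h1
    have hco : IsCoprime (X : ℚ[X]) (X - C 1) := ⟨1, -1, by rw [C_1]; ring⟩
    have h2 := hco.mul_dvd e0 e1
    have h3 : (X * X - X : ℚ[X]) = X * (X - C 1) := by rw [C_1]; ring
    rw [h3]
    exact h2
  apply hdiv
  · simp [liftP]
  · simp [liftP]

end Poly

variable {ι : Type*} {K : ι → Type*} [∀ i, Field (K i)] [∀ i, CharZero (K i)] {V : ι → Type*}
  [∀ i, AddCommGroup (V i)] [∀ i, Module (K i) (V i)] [∀ i, Module.Finite (K i) (V i)]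

/-- A set of families of operators which is stable under the operations, and such that the traces
are rational and independent of the index. -/
structure IsSystem (A : Set (∀ i, End (K i) (V i))) : Prop where
  one : (fun _ => 1) ∈ A
  add : ∀ {a b}, a ∈ A → b ∈ A → (fun i => a i + b i) ∈ A
  mul : ∀ {a b}, a ∈ A → b ∈ A → (fun i => a i * b i) ∈ A
  smul : ∀ (q : ℚ) {a}, a ∈ A → (fun i => (q : K i) • a i) ∈ A
  tr : ∀ a ∈ A, ∃ q : ℚ, ∀ i, LinearMap.trace (K i) (V i) (a i) = q

/-- The trace form is nondegenerate at the index `l`. -/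
def NonDeg (A : Set (∀ i, End (K i) (V i))) (l : ι) : Prop :=
  ∀ a ∈ A, (∀ b ∈ A, LinearMap.trace (K l) (V l) (a l * b l) = 0) → a l = 0

/-- The subspaces `U i` are the images of projectors in the system. -/
def Split (A : Set (∀ i, End (K i) (V i))) (U : ∀ i, Submodule (K i) (V i)) : Prop :=
  ∃ e ∈ A, ∀ i, e i * e i = e i ∧ LinearMap.range (e i) = U i

variable {A : Set (∀ i, End (K i) (V i))}

namespace IsSystem

omit [∀ i, CharZero (K i)] [∀ i, Module.Finite (K i) (V i)] in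
lemma neg (hA : IsSystem A) {a : ∀ i, End (K i) (V i)} (ha : a ∈ A) : (fun i => -a i) ∈ A := by
  have h1 := hA.smul (-1) ha
  simpa using h1

omit [∀ i, CharZero (K i)] [∀ i, Module.Finite (K i) (V i)] in
lemma sub (hA : IsSystem A) {a b : ∀ i, End (K i) (V i)} (ha : a ∈ A) (hb : b ∈ A) :
    (fun i => a i - b i) ∈ A := by
  have h1 := hA.add ha (hA.neg hb)
  simpa [sub_eq_add_neg] using h1

omit [∀ i, CharZero (K i)] [∀ i, Module.Finite (K i) (V i)] in
lemma pow (hA : IsSystem A) {a : ∀ i, End (K i) (V i)} (ha : a ∈ A) (n : ℕ) :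
    (fun i => a i ^ n) ∈ A := by
  induction n with
  | zero => simpa using hA.one
  | succ n ih => simpa [pow_succ] using hA.mul ih ha

omit [∀ i, Module.Finite (K i) (V i)] in
lemma ev_mem (hA : IsSystem A) {a : ∀ i, End (K i) (V i)} (ha : a ∈ A) (f : ℚ[X]) :
    (fun i => ev (a i) f) ∈ A := by
  induction f using Polynomial.induction_on' with
  | add p q hp hq => simpa using hA.add hp hq
  | monomial r c =>
    have h1 := hA.smul c (hA.pow ha r)
    refine (congrArg (· ∈ A) (funext fun i => ?_)).mpr h1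
    rw [← C_mul_X_pow_eq_monomial, map_mul, map_pow, ev_C, ev_X, smul_mul_assoc, one_mul]

lemma finrank_eq (hA : IsSystem A) (i j : ι) : finrank (K i) (V i) = finrank (K j) (V j) := by
  obtain ⟨q, hq⟩ := hA.tr _ hA.one
  have h1 : ∀ i, q = finrank (K i) (V i) := by
    intro i
    have h2 := hq i
    rw [LinearMap.trace_one] at h2
    exact_mod_cast h2.symm
  exact_mod_cast (h1 i).symm.trans (h1 j)

omit [∀ i, CharZero (K i)] [∀ i, Module.Finite (K i) (V i)] in
lemma ratRing (hA : IsSystem A) (l : ι) : RatRing (K l) (V l) {x | ∃ a ∈ A, a l = x} where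
  one := ⟨_, hA.one, rfl⟩
  add := by
    rintro _ _ ⟨a, ha, rfl⟩ ⟨b, hb, rfl⟩
    exact ⟨_, hA.add ha hb, rfl⟩
  mul := by
    rintro _ _ ⟨a, ha, rfl⟩ ⟨b, hb, rfl⟩
    exact ⟨_, hA.mul ha hb, rfl⟩
  smul := by
    rintro q _ ⟨a, ha, rfl⟩
    exact ⟨_, hA.smul q ha, rfl⟩
  tr := by
    rintro _ ⟨a, ha, rfl⟩
    obtain ⟨q, hq⟩ := hA.tr a ha
    exact ⟨q, hq l⟩

/-- Von Neumann regularity at the good index. -/
lemma regular (hA : IsSystem A) {l : ι} (hl : NonDeg A l) {f : ∀ i, End (K i) (V i)}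
    (hf : f ∈ A) : ∃ g ∈ A, f l * g l * f l = f l := by
  obtain ⟨_, ⟨g, hg, rfl⟩, h⟩ := (hA.ratRing l).regular (fun x hx h0 => by
    obtain ⟨a, ha, rfl⟩ := hx
    exact hl a ha fun b hb => h0 _ ⟨b, hb, rfl⟩) ⟨f, hf, rfl⟩
  exact ⟨g, hg, h⟩

/-- Lifting of idempotents. -/
lemma lift (hA : IsSystem A) {l : ι} {p : ∀ i, End (K i) (V i)} (hp : p ∈ A)
    (hpl : p l * p l = p l) : ∃ e ∈ A, e l = p l ∧ (∀ i, e i * e i = e i) ∧
      (∀ i, ∃ c, e i = p i * c) ∧ ∀ i, ∃ c, e i = c * p i := by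
  set N := finrank (K l) (V l) + 1 with hN
  have hq : ∀ i, (p i * p i - p i) ^ N = 0 := by
    intro i
    refine pow_eq_zero_of_nilp (isNilpotent_of_trace_pow _ fun r => ?_)
      (by rw [hA.finrank_eq i l]; omega)
    obtain ⟨q, hq⟩ := hA.tr _ (hA.pow (hA.sub (hA.mul hp hp) hp) (r + 1))
    have h1 := hq l
    rw [hpl, sub_self, pow_succ, mul_zero, map_zero] at h1
    have h2 : q = 0 := by exact_mod_cast h1.symm
    rw [hq i, h2, Rat.cast_zero]
  refine ⟨_, hA.ev_mem hp (liftP N), ?_, fun i => ?_, fun i => ?_, fun i => ?_⟩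
  · have h1 : ev (p l) (liftP N - X) = 0 := by
      refine ev_eq_zero_of_dvd (liftP_sub N (by omega)) ?_
      rw [map_sub, map_mul, ev_X, hpl, sub_self]
    rw [map_sub, ev_X, sub_eq_zero] at h1
    exact h1
  · have h1 : ev (p i) (liftP N * liftP N - liftP N) = 0 := by
      refine ev_eq_zero_of_dvd (liftP_idem N) ?_
      rw [map_pow, map_sub, map_mul, ev_X, hq i]
    rw [map_sub, map_mul, sub_eq_zero] at h1
    exact h1
  · obtain ⟨c, hc⟩ := (dvd_pow_self (X : ℚ[X]) (by omega : N ≠ 0)).trans (X_pow_dvd_liftP N)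
    refine ⟨ev (p i) c, ?_⟩
    rw [hc, map_mul, ev_X]
  · obtain ⟨c, hc⟩ := (dvd_pow_self (X : ℚ[X]) (by omega : N ≠ 0)).trans (X_pow_dvd_liftP N)
    refine ⟨ev (p i) c, ?_⟩
    rw [hc, mul_comm, map_mul, ev_X]

/-- The rank of a family of idempotents is constant. -/
lemma rank_idem (hA : IsSystem A) {e : ∀ i, End (K i) (V i)} (he : e ∈ A)
    (hi : ∀ i, e i * e i = e i) (i j : ι) :
    finrank (K i) (LinearMap.range (e i)) = finrank (K j) (LinearMap.range (e j)) := by
  obtain ⟨q, hq⟩ := hA.tr e he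
  have h1 : ∀ i, q = finrank (K i) (LinearMap.range (e i)) := by
    intro i
    have h2 := hq i
    rw [trace_idem (hi i)] at h2
    exact_mod_cast h2.symm
  exact_mod_cast (h1 i).symm.trans (h1 j)

/-- **Projectors into images.** -/
theorem range_proj (hA : IsSystem A) {l : ι} (hl : NonDeg A l) {f : ∀ i, End (K i) (V i)}
    (hf : f ∈ A) : ∃ e ∈ A, (∀ i, e i * e i = e i) ∧
      (∀ i, LinearMap.range (e i) ≤ LinearMap.range (f i)) ∧
      LinearMap.range (e l) = LinearMap.range (f l) := by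
  obtain ⟨g, hg, hfg⟩ := hA.regular hl hf
  obtain ⟨e, he, hel, hidem, h1, -⟩ := hA.lift (l := l) (hA.mul hf hg) (by
    rw [← mul_assoc, hfg])
  refine ⟨e, he, hidem, fun i => ?_, ?_⟩
  · obtain ⟨c, hc⟩ := h1 i
    rintro _ ⟨x, rfl⟩
    rw [hc]
    exact ⟨_, rfl⟩
  · rw [hel]
    apply le_antisymm
    · rintro _ ⟨x, rfl⟩
      exact ⟨g l x, rfl⟩
    · rintro _ ⟨x, rfl⟩
      refine ⟨f l x, ?_⟩
      exact congrArg (fun F => F x) hfg

/-- **Projectors with larger kernels.** -/
theorem ker_proj (hA : IsSystem A) {l : ι} (hl : NonDeg A l) {f : ∀ i, End (K i) (V i)}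
    (hf : f ∈ A) : ∃ e ∈ A, (∀ i, e i * e i = e i) ∧
      (∀ i, LinearMap.ker (f i) ≤ LinearMap.ker (e i)) ∧
      LinearMap.ker (e l) = LinearMap.ker (f l) := by
  obtain ⟨g, hg, hfg⟩ := hA.regular hl hf
  obtain ⟨e, he, hel, hidem, -, h1⟩ := hA.lift (l := l) (hA.mul hg hf) (by
    rw [mul_assoc, ← mul_assoc (f l), hfg])
  refine ⟨e, he, hidem, fun i => ?_, ?_⟩
  · obtain ⟨c, hc⟩ := h1 i
    intro x hx
    rw [LinearMap.mem_ker] at hx ⊢
    rw [hc, Module.End.mul_apply, Module.End.mul_apply, hx, map_zero, map_zero]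
  · rw [hel]
    apply le_antisymm
    · intro x hx
      rw [LinearMap.mem_ker] at hx ⊢
      have h2 := congrArg (fun F => F x) hfg
      beta_reduce at h2
      rw [← h2, mul_assoc, Module.End.mul_apply, hx, map_zero]
    · intro x hx
      rw [LinearMap.mem_ker] at hx ⊢
      rw [Module.End.mul_apply, hx, map_zero]

/-- **The rank at the good index is the smallest.** -/
theorem rank_le (hA : IsSystem A) {l : ι} (hl : NonDeg A l) {f : ∀ i, End (K i) (V i)}
    (hf : f ∈ A) (i : ι) :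
    finrank (K l) (LinearMap.range (f l)) ≤ finrank (K i) (LinearMap.range (f i)) := by
  obtain ⟨e, he, hidem, h1, h2⟩ := hA.range_proj hl hf
  rw [← h2, hA.rank_idem he hidem l i]
  exact Submodule.finrank_mono (h1 i)

/-- If the rank is constant then the images are split. -/
theorem split_range (hA : IsSystem A) {l : ι} (hl : NonDeg A l) {f : ∀ i, End (K i) (V i)}
    (hf : f ∈ A) (hr : ∀ i, finrank (K i) (LinearMap.range (f i)) ≤
      finrank (K l) (LinearMap.range (f l))) : Split A fun i => LinearMap.range (f i) := by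
  obtain ⟨e, he, hidem, h1, h2⟩ := hA.range_proj hl hf
  refine ⟨e, he, fun i => ⟨hidem i, ?_⟩⟩
  refine Submodule.eq_of_le_of_finrank_le (h1 i) ?_
  rw [hA.rank_idem he hidem i l, h2]
  exact hr i

/-- If the rank is constant then the kernels are split. -/
theorem split_ker (hA : IsSystem A) {l : ι} (hl : NonDeg A l) {f : ∀ i, End (K i) (V i)}
    (hf : f ∈ A) (hr : ∀ i, finrank (K i) (LinearMap.range (f i)) ≤
      finrank (K l) (LinearMap.range (f l))) : Split A fun i => LinearMap.ker (f i) := by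
  obtain ⟨e, he, hidem, h1, h2⟩ := hA.ker_proj hl hf
  have h3 : ∀ i, LinearMap.ker (e i) = LinearMap.ker (f i) := by
    intro i
    refine (Submodule.eq_of_le_of_finrank_le (h1 i) ?_).symm
    have e1 := LinearMap.finrank_range_add_finrank_ker (e i)
    have e2 := LinearMap.finrank_range_add_finrank_ker (f i)
    have e3 := LinearMap.finrank_range_add_finrank_ker (e l)
    have e4 := LinearMap.finrank_range_add_finrank_ker (f l)
    rw [h2] at e3
    have e5 := hA.rank_idem he hidem i l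
    have e6 := hA.finrank_eq i l
    have e7 := hr i
    omega
  refine ⟨_, hA.sub hA.one he, fun i => ⟨?_, ?_⟩⟩
  · have h4 := hidem i
    have h5 : (1 - e i) * (1 - e i) = 1 - e i - e i + e i * e i := by noncomm_ring
    rw [h5, h4]
    abel
  · beta_reduce
    rw [← h3]
    apply le_antisymm
    · rintro _ ⟨x, rfl⟩
      rw [LinearMap.mem_ker]
      have h4 := congrArg (fun F => F x) (hidem i)
      beta_reduce at h4
      rw [Module.End.mul_apply] at h4
      rw [LinearMap.sub_apply, Module.End.one_apply, map_sub, h4, sub_self]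
    · intro x hx
      rw [LinearMap.mem_ker] at hx
      exact ⟨x, by rw [LinearMap.sub_apply, Module.End.one_apply, hx, sub_zero]⟩

end IsSystem

section Trace

omit [∀ i, CharZero (K i)] in
lemma trace_restrict_of_split {i : ι} {e g : End (K i) (V i)} (he : e * e = e)
    (hg : ∀ x ∈ LinearMap.range e, g x ∈ LinearMap.range e) :
    LinearMap.trace (K i) (LinearMap.range e) (g.restrict hg) =
      LinearMap.trace (K i) (V i) (g * e) := by
  have h1 : ∀ x, (g * e) x ∈ LinearMap.range e := fun x => hg _ ⟨x, rfl⟩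
  rw [← LinearMap.trace_restrict_eq_of_forall_mem (LinearMap.range e) (g * e) h1]
  congr 1
  ext ⟨x, hx⟩
  rw [LinearMap.restrict_apply, LinearMap.restrict_apply]
  change g x = g (e x)
  obtain ⟨y, rfl⟩ := hx
  have h2 := congrArg (fun F => F y) he
  beta_reduce at h2
  rw [Module.End.mul_apply] at h2
  rw [h2]

end Trace

end Pool.Agent.K9h28.Il
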