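import Pool.Agent.K9h28.IlStm
import Pool.Agent.H914R2.DDefs
import Pool.Agent.H914R2.Graded

/-!
# The weight spectral sequence: the form of the definitions which is used in the proofs
-/

set_option autoImplicit false

open CategoryTheory AlgebraicGeometry Polynomial

universe u v

namespace Pool.Agent.K9h28.Il

open Pool.Agent.H914 Pool.Agent.H914.VarClass Pool.Agent.H914.VarClass.Obj
  Pool.Agent.H914.WeilCohomology

variable {k : Type u} [Field k] {𝒱 : VarClass k} {ops : CycleOps 𝒱}

namespace Strata

variable (T : Strata 𝒱)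

/-- The pairs of a stratum `s` and an integer `0 ≤ k ≤ rk s`. In the weight spectral sequence of
Rapoport, Zink and Steenbrink there are `rk s + 1` copies of the cohomology of the stratum `s`. -/
abbrev Copy : Type := Σ s : T.S, Fin (T.rk s + 1)

variable (W : WeilCohomology.{u, v} ops)

/-- The sum of all the terms `E_1^{a,b}` of the weight spectral sequence. -/
abbrev E1 : Type v := ∀ p : T.Copy, W.H (T.Y p.1)

/-- The term `E_1^{a,b}`: the sum of the `H^{b - 2 (rk s - k)}(Y_s)` for the copies `(s, k)` with
`2 k - rk s = a`. -/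
noncomputable def piece (a b : ℤ) : Submodule W.K (T.E1 W) :=
  Submodule.pi Set.univ fun p => if 2 * (p.2.1 : ℤ) - T.rk p.1 = a
    then grZ (W.gr (T.Y p.1)) (b - 2 * ((T.rk p.1 : ℤ) - p.2.1)) else ⊥

/-- The restriction to the stratum `s` of the cohomology of the stratum `u`, with its sign. -/
noncomputable def res (s u : T.S) : W.H (T.Y u) →ₗ[W.K] W.H (T.Y s) :=
  if h : T.sgn s u ≠ 0 then (T.sgn s u : W.K) • (W.map (T.incl s u h)).toLinearMap else 0

/-- The Gysin map from the cohomology of the stratum `s` to that of the stratum `u`, with its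
sign. -/
noncomputable def gys (s u : T.S) : W.H (T.Y s) →ₗ[W.K] W.H (T.Y u) :=
  if h : T.sgn s u ≠ 0 then (T.sgn s u : W.K) • W.push (T.incl s u h) else 0

/-- The operator on the `E_1` term with the given entries. -/
noncomputable def ofEntries (M : ∀ p q : T.Copy, W.H (T.Y q.1) →ₗ[W.K] W.H (T.Y p.1)) :
    Module.End W.K (T.E1 W) :=
  LinearMap.pi fun p => ∑ q, M p q ∘ₗ LinearMap.proj q

/-- The differential of the `E_1` term: the restriction from the copy `(u, k)` to the copy
`(s, k + 1)` for `s ⊂ u`, and the Gysin map from the copy `(s, k)` to the copy `(u, k)`. -/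
noncomputable def diff : Module.End W.K (T.E1 W) :=
  T.ofEntries W fun p q => (if p.2.1 = q.2.1 + 1 then T.res W p.1 q.1 else 0) +
    if p.2.1 = q.2.1 then T.gys W q.1 p.1 else 0

/-- The monodromy operator `N`: the identity map from the copy `(s, k)` to the copy
`(s, k + 1)`. -/
noncomputable def mono : Module.End W.K (T.E1 W) :=
  LinearMap.pi fun p => if h : 0 < p.2.1 then
    LinearMap.proj (φ := fun p : T.Copy => W.H (T.Y p.1)) ⟨p.1, ⟨p.2.1 - 1, by omega⟩⟩ else 0

/-- The cycles in `E_1^{a,b}`. -/
noncomputable def Z (a b : ℤ) : Submodule W.K (T.E1 W) :=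
  LinearMap.ker (T.diff W) ⊓ T.piece W a b

/-- The boundaries in `E_1^{a,b}`. The quotient `Z a b / B a b` is the term `E_2^{a,b}` of the
spectral sequence; it degenerates, and this is the graded piece of weight `b` of the cohomology in
degree `a + b` of the geometric generic fibre. -/
noncomputable def B (a b : ℤ) : Submodule W.K (T.E1 W) := (T.piece W (a - 1) b).map (T.diff W)

/-- The cycles `x` in `E_1^{a,b}` such that `N x` is a boundary. The quotient `Z' a b / B a b` is the
kernel of `N` on `E_2^{a,b}`. If the monodromy-weight conjecture is true then this is the graded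
piece of weight `b` of the subspace of the elements fixed by the inertia group in the cohomology
in degree `a + b` of the geometric generic fibre. -/
noncomputable def Z' (a b : ℤ) : Submodule W.K (T.E1 W) :=
  T.Z W a b ⊓ (T.B W (a + 2) (b - 2)).comap (T.mono W)

/-- The monodromy-weight conjecture in degree `q`: the `m`-th power of `N` is an isomorphism
`E_2^{-m,q+m} → E_2^{m,q-m}` for all `m ≥ 1`. -/
def MonodromyWeight (q : ℤ) : Prop :=
  ∀ m : ℕ, 1 ≤ m → IsIsoAt (T.mono W ^ m) (T.Z W (-m) (q + m)) (T.B W (-m) (q + m))
    (T.Z W m (q - m)) (T.B W m (q - m))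

/-- The dimension of the cohomology of the complex `E_1`, in all degrees together. (It is the sum of
the Betti numbers of the geometric generic fibre.) -/
noncomputable def totalBetti : ℕ :=
  Module.finrank W.K (LinearMap.ker (T.diff W)) - Module.finrank W.K (LinearMap.range (T.diff W))

end Strata

/-- The family of all the `ℓ`-adic cohomology theories, and the strata of a strictly semistable
scheme of relative dimension `n`. -/
structure IsSemistableO {ι : Type} (W : ι → WeilCohomology.{u, v} ops) (T : Strata 𝒱) (n : ℕ) :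
    Prop where
  dim_add : ∀ s, (T.Y s).dim + T.rk s = n
  rk_eq : ∀ s u, T.sgn s u ≠ 0 → T.rk s = T.rk u + 1
  kunneth : ∀ s, HasKunneth W (T.Y s)
  diff_sq : ∀ i, T.diff (W i) * T.diff (W i) = 0
  betti : ∀ i j, T.totalBetti (W i) = T.totalBetti (W j)

/-- The family `g` of endomorphisms of the `E_1` term, one for every cohomology theory, is given by
algebraic correspondences between the strata which are the same for all the theories. It commutes
with the differential, preserves the bidegrees, and commutes with `N` up to a factor. (For example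
the action of an element of the Weil group, given by a power of the Frobenius morphism, composed
with that of an algebraic cycle on the product of the generic fibre with itself, for example a
projector `π` which defines a motive.) -/
structure IsActionO {ι : Type} (W : ι → WeilCohomology.{u, v} ops) (T : Strata 𝒱)
    (g : ∀ i, Module.End (W i).K (T.E1 (W i))) : Prop where
  algebraic : ∃ z : ∀ p q : T.Copy, ((T.Y q.1).prod (T.Y p.1)).Cycles,
    (∀ p q, ∃ r, ((T.Y q.1).prod (T.Y p.1)).IsCyc r (z p q)) ∧
    ∀ i, g i = T.ofEntries (W i) fun p q => (W i).corr ((W i).cl _ (z p q))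
  comm : ∀ i, g i * T.diff (W i) = T.diff (W i) * g i
  piece : ∀ i a b, ∀ x ∈ T.piece (W i) a b, g i x ∈ T.piece (W i) a b
  mono : ∀ i, ∃ c : (W i).K, T.mono (W i) * g i = c • (g i * T.mono (W i))

/-- The space `V` (the cohomology in degree `q` of the geometric generic fibre), with the increasing
filtration `F` (by the weights), the monodromy operator `N` and the endomorphism `φ`, is the limit
in degree `q` of the weight spectral sequence with the endomorphism `g`: there are isomorphisms
`F b / F (b - 1) ≅ E_2^{q-b,b}` which are compatible with `N` and with `φ` and `g`. Here `R b` is the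
set of all the pairs `(v, z)` of an element `v` of `F b` and a cycle `z` in `E_1^{q-b,b}` such that
the class of `v` is mapped to that of `z`. -/
structure IsLimitO (W : WeilCohomology.{u, v} ops) (T : Strata 𝒱) (n : ℕ) (q : ℤ)
    (g : Module.End W.K (T.E1 W)) {V : Type*} [AddCommGroup V] [Module W.K V]
    (F : ℤ → Submodule W.K V) (R : ℤ → Submodule W.K (V × T.E1 W)) (N φ : Module.End W.K V) :
    Prop where
  bot : F (q - n - 1) = ⊥
  top : F (q + n) = ⊤
  mono : ∀ b, F (b - 1) ≤ F b
  mem : ∀ b, ∀ x ∈ R b, x.1 ∈ F b ∧ x.2 ∈ T.Z W (q - b) b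
  left : ∀ b, ∀ v ∈ F b, ∃ z, (v, z) ∈ R b
  right : ∀ b, ∀ z ∈ T.Z W (q - b) b, ∃ v, (v, z) ∈ R b
  zero : ∀ b, ∀ x ∈ R b, (x.1 ∈ F (b - 1) ↔ x.2 ∈ T.B W (q - b) b)
  full : ∀ b, ∀ v ∈ F (b - 1), ∀ z ∈ T.B W (q - b) b, (v, z) ∈ R b
  map_N : ∀ b, ∀ x ∈ R b, (N x.1, T.mono W x.2) ∈ R (b - 2)
  map_φ : ∀ b, ∀ x ∈ R b, (φ x.1, g x.2) ∈ R b
  comm : ∃ c : W.K, N * φ = c • (φ * N)

end Pool.Agent.K9h28.Il
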