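import Pool.Agent.K9h28.IlB
import Pool.Agent.K9h28.IlDefs

/-!
# Split families of subspaces, subquotients, and isomorphisms at one index
-/

set_option autoImplicit false

open Module Pool.Agent.H914

namespace Pool.Agent.K9h28.Il

variable {ι : Type*} {K : ι → Type*} [∀ i, Field (K i)] [∀ i, CharZero (K i)] {V : ι → Type*}
  [∀ i, AddCommGroup (V i)] [∀ i, Module (K i) (V i)] [∀ i, Module.Finite (K i) (V i)]
  {A : Set (∀ i, End (K i) (V i))}

lemma idem_apply {K : Type*} [Field K] {V : Type*} [AddCommGroup V] [Module K V] {e : End K V}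
    (he : e * e = e) {x : V} (hx : x ∈ LinearMap.range e) : e x = x := by
  obtain ⟨y, rfl⟩ := hx
  exact congrArg (fun F => F y) he

lemma idem_of {K : Type*} [Field K] {V : Type*} [AddCommGroup V] [Module K V] {e : End K V}
    {U : Submodule K V} (h1 : ∀ x, e x ∈ U) (h2 : ∀ x ∈ U, e x = x) :
    e * e = e ∧ LinearMap.range e = U := by
  constructor
  · apply LinearMap.ext
    intro x
    rw [Module.End.mul_apply, h2 _ (h1 x)]
  · apply le_antisymm
    · rintro _ ⟨x, rfl⟩
      exact h1 x
    · intro x hx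
      exact ⟨x, h2 x hx⟩

omit [∀ i, CharZero (K i)] in
/-- The traces of the operators on a split family of subspaces are rational and independent of the
index. -/
theorem Split.trace (hA : IsSystem A) {U : ∀ i, Submodule (K i) (V i)} (hU : Split A U)
    {g : ∀ i, End (K i) (V i)} (hg : g ∈ A) : ∃ q : ℚ, ∀ i (h : ∀ x ∈ U i, g i x ∈ U i),
      LinearMap.trace (K i) (U i) ((g i).restrict h) = q := by
  obtain ⟨e, he, h1⟩ := hU
  obtain ⟨q, hq⟩ := hA.tr _ (hA.mul hg he)
  refine ⟨q, fun i h => ?_⟩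
  obtain ⟨h2, h3⟩ := h1 i
  obtain rfl : U = fun i => LinearMap.range (e i) := funext fun i => (h1 i).2.symm
  exact (trace_restrict_of_split h2 h).trans (hq i)

lemma Split.finrank_eq (hA : IsSystem A) {U : ∀ i, Submodule (K i) (V i)} (hU : Split A U)
    (i j : ι) : finrank (K i) (U i) = finrank (K j) (U j) := by
  obtain ⟨e, he, h1⟩ := hU
  rw [← (h1 i).2, ← (h1 j).2]
  exact hA.rank_idem he (fun i => (h1 i).1) i j

omit [∀ i, CharZero (K i)] [∀ i, Module.Finite (K i) (V i)] in
/-- A graded piece of a split family. -/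
lemma Split.inf_range (hA : IsSystem A) {U : ∀ i, Submodule (K i) (V i)} (hU : Split A U)
    {P : ∀ i, End (K i) (V i)} (hP : P ∈ A) (hPi : ∀ i, P i * P i = P i)
    (hPU : ∀ i, ∀ x ∈ U i, P i x ∈ U i) : Split A fun i => U i ⊓ LinearMap.range (P i) := by
  obtain ⟨e, he, h1⟩ := hU
  refine ⟨_, hA.mul hP (hA.mul he hP), fun i => idem_of (fun x => ?_) fun x hx => ?_⟩
  · refine ⟨hPU i _ ?_, ⟨_, rfl⟩⟩
    rw [← (h1 i).2]
    exact ⟨_, rfl⟩
  · obtain ⟨h2, h3⟩ := hx
    rw [Module.End.mul_apply, Module.End.mul_apply, idem_apply (hPi i) h3]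
    rw [← (h1 i).2] at h2
    rw [idem_apply (h1 i).1 h2, idem_apply (hPi i) h3]

section Quot

variable {U B' : ∀ i, Submodule (K i) (V i)} {eU eB' : ∀ i, End (K i) (V i)}
  {f : ∀ i, End (K i) (V i)}

/-- The part of a split family which is mapped by an operator in the system into another split
family is split, if the rank is constant. -/
lemma split_comap (hA : IsSystem A) {l : ι} (hl : NonDeg A l) (hU : ∀ i, eU i * eU i = eU i ∧
      LinearMap.range (eU i) = U i) (heU : eU ∈ A)
    (hB' : ∀ i, eB' i * eB' i = eB' i ∧ LinearMap.range (eB' i) = B' i) (heB' : eB' ∈ A)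
    (hf : f ∈ A) (hr : ∀ i, finrank (K i) (LinearMap.range ((1 - eB' i) * (f i * eU i))) ≤
      finrank (K l) (LinearMap.range ((1 - eB' l) * (f l * eU l)))) :
    Split A fun i => U i ⊓ (B' i).comap (f i) := by
  obtain ⟨h, hh, h1⟩ := hA.split_ker hl (hA.mul (hA.sub hA.one heB') (hA.mul hf heU)) hr
  replace h1 : ∀ i, h i * h i = h i ∧
    LinearMap.range (h i) = LinearMap.ker ((1 - eB' i) * (f i * eU i)) := h1
  have key : ∀ i, ∀ x, x ∈ LinearMap.ker ((1 - eB' i) * (f i * eU i)) ↔ f i (eU i x) ∈ B' i := by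
    intro i x
    rw [LinearMap.mem_ker, Module.End.mul_apply, Module.End.mul_apply, LinearMap.sub_apply,
      Module.End.one_apply, sub_eq_zero, ← (hB' i).2]
    constructor
    · intro h0
      exact ⟨_, h0.symm⟩
    · intro h0
      exact (idem_apply (hB' i).1 h0).symm
  refine ⟨_, hA.mul heU hh, fun i => idem_of (fun x => ?_) fun x hx => ?_⟩
  · have h2 : h i x ∈ LinearMap.ker ((1 - eB' i) * (f i * eU i)) := by
      rw [← (h1 i).2]
      exact ⟨_, rfl⟩
    refine ⟨?_, (key i _).1 h2⟩
    rw [← (hU i).2]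
    exact ⟨_, rfl⟩
  · obtain ⟨h2, h3⟩ := hx
    have h2' : x ∈ LinearMap.range (eU i) := by
      rw [(hU i).2]
      exact h2
    have h4 := idem_apply (hU i).1 h2'
    have h5 : x ∈ LinearMap.range (h i) := by
      rw [(h1 i).2]
      refine (key i x).2 ?_
      rw [h4]
      exact h3
    rw [Module.End.mul_apply, idem_apply (h1 i).1 h5, h4]

omit [∀ i, CharZero (K i)] in
/-- The dimension of the image of `(1 - e) U'`, `e` a projector onto `B' ≤ U'`. -/
lemma finrank_map_sub {i : ι} {e : End (K i) (V i)} {U' B' : Submodule (K i) (V i)}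
    (he : e * e = e ∧ LinearMap.range e = B') (hB : B' ≤ U') :
    finrank (K i) (U'.map (1 - e)) + finrank (K i) B' = finrank (K i) U' := by
  have h1 := LinearMap.finrank_range_add_finrank_ker ((1 - e).domRestrict U')
  rw [LinearMap.range_domRestrict] at h1
  rw [← h1]
  congr 1
  have h2 : LinearMap.ker ((1 - e).domRestrict U') = B'.comap U'.subtype := by
    ext x
    rw [LinearMap.mem_ker, LinearMap.domRestrict_apply, LinearMap.sub_apply,
      Module.End.one_apply, sub_eq_zero, Submodule.mem_comap, Submodule.subtype_apply, ← he.2]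
    constructor
    · intro h0
      exact ⟨_, h0.symm⟩
    · intro h0
      exact (idem_apply he.1 h0).symm
  rw [h2]
  exact ((Submodule.comapSubtypeEquivOfLe hB).finrank_eq).symm

omit [∀ i, CharZero (K i)] [∀ i, Module.Finite (K i) (V i)] in
lemma range_le_map {i : ι} {e f eU : End (K i) (V i)} {U U' : Submodule (K i) (V i)}
    (hU : LinearMap.range eU = U) (hf : ∀ x ∈ U, f x ∈ U') :
    LinearMap.range ((1 - e) * (f * eU)) ≤ U'.map (1 - e) := by
  rintro _ ⟨x, rfl⟩
  refine ⟨f (eU x), hf _ ?_, rfl⟩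
  rw [← hU]
  exact ⟨_, rfl⟩

omit [∀ i, CharZero (K i)] [∀ i, Module.Finite (K i) (V i)] in
/-- Surjectivity of the induced map is a statement on the rank. -/
lemma range_eq_map {i : ι} {e f eU : End (K i) (V i)} {U U' B' : Submodule (K i) (V i)}
    (he : e * e = e ∧ LinearMap.range e = B') (hU : eU * eU = eU ∧ LinearMap.range eU = U)
    (hf : ∀ x ∈ U, f x ∈ U') (hs : ∀ y ∈ U', ∃ x ∈ U, y - f x ∈ B') :
    LinearMap.range ((1 - e) * (f * eU)) = U'.map (1 - e) := by
  apply le_antisymm (range_le_map hU.2 hf)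
  rintro _ ⟨y, hy, rfl⟩
  obtain ⟨x, hx, h1⟩ := hs y hy
  have hx' := hx
  rw [← hU.2] at hx
  rw [← he.2] at h1
  refine ⟨x, ?_⟩
  rw [Module.End.mul_apply, Module.End.mul_apply, idem_apply hU.1 hx]
  have h2 := idem_apply he.1 h1
  rw [map_sub] at h2
  rw [LinearMap.sub_apply, LinearMap.sub_apply, Module.End.one_apply, Module.End.one_apply]
  have h3 : y - f x - (e y - e (f x)) = 0 := by rw [h2, sub_self]
  have h4 : y - e y - (f x - e (f x)) = 0 := by
    rw [← h3]
    abel
  exact (sub_eq_zero.1 h4).symm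

omit [∀ i, CharZero (K i)] [∀ i, Module.Finite (K i) (V i)] in
lemma surj_of_range_eq {i : ι} {e f eU : End (K i) (V i)} {U U' B' : Submodule (K i) (V i)}
    (he : e * e = e ∧ LinearMap.range e = B') (hU : eU * eU = eU ∧ LinearMap.range eU = U)
    (h : LinearMap.range ((1 - e) * (f * eU)) = U'.map (1 - e)) :
    ∀ y ∈ U', ∃ x ∈ U, y - f x ∈ B' := by
  intro y hy
  have h1 : (1 - e) y ∈ LinearMap.range ((1 - e) * (f * eU)) := by
    rw [h]
    exact ⟨y, hy, rfl⟩
  obtain ⟨x, hx⟩ := h1
  refine ⟨eU x, by rw [← hU.2]; exact ⟨_, rfl⟩, ?_⟩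
  rw [Module.End.mul_apply, Module.End.mul_apply, LinearMap.sub_apply, LinearMap.sub_apply,
    Module.End.one_apply, Module.End.one_apply] at hx
  rw [← he.2]
  refine ⟨y - f (eU x), ?_⟩
  rw [map_sub]
  have h4 : y - e y - (f (eU x) - e (f (eU x))) = 0 := by rw [hx, sub_self]
  have h5 : y - f (eU x) - (e y - e (f (eU x))) = 0 := by
    rw [← h4]
    abel
  exact (sub_eq_zero.1 h5).symm

/-- **An isomorphism at the good index is an isomorphism at all indices.** -/
theorem isIso_transfer (hA : IsSystem A) {l : ι} (hl : NonDeg A l)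
    {U B U' B' : ∀ i, Submodule (K i) (V i)} (hU : Split A U) (hB : Split A B)
    (hU' : Split A U') (hB' : Split A B') (hBU : ∀ i, B i ≤ U i) (hBU' : ∀ i, B' i ≤ U' i)
    (hf : f ∈ A) (hfU : ∀ i, ∀ x ∈ U i, f i x ∈ U' i) (hfB : ∀ i, ∀ x ∈ B i, f i x ∈ B' i)
    (h : IsIsoAt (f l) (U l) (B l) (U' l) (B' l)) (i : ι) :
    IsIsoAt (f i) (U i) (B i) (U' i) (B' i) := by
  obtain ⟨eU, heU, hU1⟩ := id hU
  obtain ⟨eB', heB', hB1⟩ := id hB'
  have hw := hA.mul (hA.sub hA.one heB') (hA.mul hf heU)
  have e1 := hA.rank_le hl hw i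
  beta_reduce at e1
  have e2 := range_eq_map (hB1 l) (hU1 l) (hfU l) h.2
  have e3 := finrank_map_sub (hB1 l) (hBU' l)
  have e4 := finrank_map_sub (hB1 i) (hBU' i)
  have e5 := hU'.finrank_eq hA i l
  have e6 := hB'.finrank_eq hA i l
  rw [e2] at e1
  have e7 : LinearMap.range ((1 - eB' i) * (f i * eU i)) = (U' i).map (1 - eB' i) := by
    refine Submodule.eq_of_le_of_finrank_le (range_le_map (hU1 i).2 (hfU i)) ?_
    omega
  have hsurj := surj_of_range_eq (hB1 i) (hU1 i) e7
  refine ⟨?_, hsurj⟩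
  -- injectivity: dimension count
  have hker : ∀ j, LinearMap.range ((1 - eB' j) * (f j * eU j)) = (U' j).map (1 - eB' j) →
      finrank (K j) (U j ⊓ (B' j).comap (f j) : Submodule (K j) (V j)) + finrank (K j) (U' j) =
        finrank (K j) (U j) + finrank (K j) (B' j) := by
    intro j hj
    have h1 := LinearMap.finrank_range_add_finrank_ker
      (((1 - eB' j) * f j : End (K j) (V j)).domRestrict (U j))
    rw [LinearMap.range_domRestrict] at h1
    have h2 : (U j).map ((1 - eB' j) * f j) = (U' j).map (1 - eB' j) := by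
      rw [← hj]
      ext y
      constructor
      · rintro ⟨x, hx, rfl⟩
        refine ⟨x, ?_⟩
        have hx' : x ∈ LinearMap.range (eU j) := by
          rw [(hU1 j).2]
          exact hx
        rw [Module.End.mul_apply, Module.End.mul_apply, Module.End.mul_apply,
          idem_apply (hU1 j).1 hx']
      · rintro ⟨x, rfl⟩
        refine ⟨eU j x, ?_, rfl⟩
        change eU j x ∈ U j
        rw [← (hU1 j).2]
        exact ⟨_, rfl⟩
    have h3 : finrank (K j) (LinearMap.ker
        (((1 - eB' j) * f j : End (K j) (V j)).domRestrict (U j))) =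
        finrank (K j) (U j ⊓ (B' j).comap (f j) : Submodule (K j) (V j)) := by
      have h4 : LinearMap.ker (((1 - eB' j) * f j : End (K j) (V j)).domRestrict (U j)) =
          (U j ⊓ (B' j).comap (f j)).comap (U j).subtype := by
        ext x
        rw [LinearMap.mem_ker, LinearMap.domRestrict_apply, Module.End.mul_apply,
          LinearMap.sub_apply, Module.End.one_apply, sub_eq_zero, Submodule.mem_comap,
          Submodule.subtype_apply, Submodule.mem_inf, Submodule.mem_comap]
        constructor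
        · intro h0
          refine ⟨x.2, ?_⟩
          rw [← (hB1 j).2]
          exact ⟨_, h0.symm⟩
        · rintro ⟨-, h0⟩
          rw [← (hB1 j).2] at h0
          exact (idem_apply (hB1 j).1 h0).symm
      rw [h4]
      exact (Submodule.comapSubtypeEquivOfLe inf_le_left).finrank_eq
    have h5 := finrank_map_sub (hB1 j) (hBU' j)
    rw [h2, h3] at h1
    omega
  have hBle : ∀ j, B j ≤ U j ⊓ (B' j).comap (f j) := fun j x hx => ⟨hBU j hx, hfB j x hx⟩
  have k1 := hker l e2
  have k2 := hker i e7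
  have k3 : U l ⊓ (B' l).comap (f l) = B l := by
    apply le_antisymm
    · rintro x ⟨h1, h2⟩
      exact h.1 x h1 h2
    · exact hBle l
  rw [k3] at k1
  have k4 := hU.finrank_eq hA i l
  have k5 := hB.finrank_eq hA i l
  have k6 : B i = U i ⊓ (B' i).comap (f i) := by
    refine Submodule.eq_of_le_of_finrank_le (hBle i) ?_
    omega
  intro x hx hfx
  rw [k6]
  exact ⟨hx, hfx⟩

/-- If the induced map is surjective at all indices then its kernel is split. -/
theorem split_kernel_of_surj (hA : IsSystem A) {l : ι} (hl : NonDeg A l)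
    {U U' B' : ∀ i, Submodule (K i) (V i)} (hU : Split A U)
    (hU' : Split A U') (hB' : Split A B') (hBU' : ∀ i, B' i ≤ U' i)
    (hf : f ∈ A) (hfU : ∀ i, ∀ x ∈ U i, f i x ∈ U' i)
    (hs : ∀ i, ∀ y ∈ U' i, ∃ x ∈ U i, y - f i x ∈ B' i) :
    Split A fun i => U i ⊓ (B' i).comap (f i) := by
  obtain ⟨eU, heU, hU1⟩ := id hU
  obtain ⟨eB', heB', hB1⟩ := id hB'
  refine split_comap hA hl hU1 heU hB1 heB' hf fun i => ?_
  rw [range_eq_map (hB1 i) (hU1 i) (hfU i) (hs i), range_eq_map (hB1 l) (hU1 l) (hfU l) (hs l)]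
  have e3 := finrank_map_sub (hB1 l) (hBU' l)
  have e4 := finrank_map_sub (hB1 i) (hBU' i)
  have e5 := hU'.finrank_eq hA i l
  have e6 := hB'.finrank_eq hA i l
  omega

end Quot

end Pool.Agent.K9h28.Il
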