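import Pool.Agent.K9h28.IlC

/-!
# Bigraded complexes with a monodromy operator in a system of operators
-/

set_option autoImplicit false

open Module Pool.Agent.H914

namespace Pool.Agent.K9h28.Il

section Defs

variable {K : Type*} [Field K] {V : Type*} [AddCommGroup V] [Module K V]

/-- The cycles of bidegree `(a, b)`. -/
def Zc (d : End K V) (P : ℤ → ℤ → End K V) (a b : ℤ) : Submodule K V :=
  LinearMap.ker d ⊓ LinearMap.range (P a b)

/-- The boundaries of bidegree `(a, b)`. -/
def Bc (d : End K V) (P : ℤ → ℤ → End K V) (a b : ℤ) : Submodule K V :=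
  LinearMap.range d ⊓ LinearMap.range (P a b)

/-- The relations between the differential, the monodromy operator and the projectors. -/
structure IsBigraded (d N : End K V) (P : ℤ → ℤ → End K V) : Prop where
  d_sq : d * d = 0
  comm : N * d = d * N
  idem : ∀ a b, P a b * P a b = P a b
  dP : ∀ a b, d * P a b = P (a + 1) b * d
  NP : ∀ a b, N * P a b = P (a + 2) (b - 2) * N

/-- The powers of `N` induce isomorphisms on the cohomology in degree `q`. -/
def IsMonodromyWeight (d N : End K V) (P : ℤ → ℤ → End K V) (q : ℤ) : Prop :=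
  ∀ (m : ℕ), 1 ≤ m → IsIsoAt (N ^ m) (Zc d P (-m) (q + m)) (Bc d P (-m) (q + m))
    (Zc d P m (q - m)) (Bc d P m (q - m))

/-- The kernel of `N` on the cohomology of bidegree `(a, b)`, together with the boundaries. -/
def Uc (d N : End K V) (P : ℤ → ℤ → End K V) (a b : ℤ) : Submodule K V :=
  Zc d P a b ⊓ (LinearMap.range d).comap N

variable {d N : End K V} {P : ℤ → ℤ → End K V}

lemma Bc_le (h : IsBigraded d N P) (a b : ℤ) : Bc d P a b ≤ Zc d P a b := by
  rintro x ⟨⟨y, rfl⟩, h2⟩
  refine ⟨?_, h2⟩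
  change d (d y) = 0
  exact congrArg (fun F => F y) h.d_sq

lemma N_mem_Z (h : IsBigraded d N P) {a b : ℤ} {x : V} (hx : x ∈ Zc d P a b) :
    N x ∈ Zc d P (a + 2) (b - 2) := by
  obtain ⟨h1, h2⟩ := hx
  refine ⟨?_, ?_⟩
  · change d (N x) = 0
    have h3 := congrArg (fun F => F x) h.comm
    change N (d x) = d (N x) at h3
    change d x = 0 at h1
    rw [← h3, h1, map_zero]
  · refine ⟨N x, ?_⟩
    have h3 := congrArg (fun F => F x) (h.NP a b)
    change N (P a b x) = P (a + 2) (b - 2) (N x) at h3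
    rw [← h3, idem_apply (h.idem a b) h2]

lemma N_mem_B (h : IsBigraded d N P) {a b : ℤ} {x : V} (hx : x ∈ Bc d P a b) :
    N x ∈ Bc d P (a + 2) (b - 2) := by
  refine ⟨?_, (N_mem_Z h (Bc_le h a b hx)).2⟩
  obtain ⟨⟨y, rfl⟩, h2⟩ := hx
  exact ⟨N y, (congrArg (fun F => F y) h.comm).symm⟩

lemma Npow_mem_Z (h : IsBigraded d N P) (m : ℕ) {a b : ℤ} {x : V} (hx : x ∈ Zc d P a b) :
    (N ^ m) x ∈ Zc d P (a + 2 * m) (b - 2 * m) := by
  induction m with
  | zero => simpa using hx
  | succ m ih =>
    rw [pow_succ', Module.End.mul_apply]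
    have h1 := N_mem_Z h ih
    convert h1 using 2 <;> push_cast <;> ring

lemma Npow_mem_B (h : IsBigraded d N P) (m : ℕ) {a b : ℤ} {x : V} (hx : x ∈ Bc d P a b) :
    (N ^ m) x ∈ Bc d P (a + 2 * m) (b - 2 * m) := by
  induction m with
  | zero => simpa using hx
  | succ m ih =>
    rw [pow_succ', Module.End.mul_apply]
    have h1 := N_mem_B h ih
    convert h1 using 2 <;> push_cast <;> ring

/-- The kernel of `N` in negative degrees. -/
lemma Uc_eq_B (h : IsBigraded d N P) {a b : ℤ} (hM : IsMonodromyWeight d N P (a + b))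
    (ha : a ≤ -1) : Uc d N P a b = Bc d P a b := by
  apply le_antisymm
  · rintro x ⟨h1, h2⟩
    obtain ⟨m, hm⟩ : ∃ m : ℕ, a = -((m + 1 : ℕ) : ℤ) := ⟨(-a - 1).toNat, by omega⟩
    subst hm
    have h4 := hM (m + 1) (by omega)
    rw [show -((m + 1 : ℕ) : ℤ) + b + ((m + 1 : ℕ) : ℤ) = b by ring] at h4
    refine h4.1 x h1 ?_
    rw [pow_succ, Module.End.mul_apply]
    have h3 := Npow_mem_B h m (⟨h2, (N_mem_Z h h1).2⟩ : N x ∈ Bc d P _ _)
    convert h3 using 2 <;> push_cast <;> ring
  · intro x hx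
    exact ⟨Bc_le h a b hx, (N_mem_B h hx).1⟩

/-- The surjectivity of `N` in positive degrees. -/
lemma N_surj (h : IsBigraded d N P) {a b : ℤ} (hM : IsMonodromyWeight d N P (a + b))
    (ha : -1 ≤ a) :
    ∀ y ∈ Zc d P (a + 2) (b - 2), ∃ x ∈ Zc d P a b, y - N x ∈ Bc d P (a + 2) (b - 2) := by
  intro y hy
  obtain ⟨m, hm⟩ : ∃ m : ℕ, a + 2 = ((m + 1 : ℕ) : ℤ) := ⟨(a + 1).toNat, by omega⟩
  have ha' : a = (m : ℤ) - 1 := by omega
  obtain ⟨x, hx, h1⟩ := (hM (m + 1) (by omega)).2 y (by
    convert hy using 2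
    · exact hm.symm
    · push_cast; linarith)
  refine ⟨(N ^ m) x, ?_, ?_⟩
  · have h3 := Npow_mem_Z h m hx
    convert h3 using 2
    · push_cast; linarith
    · push_cast; linarith
  · rw [pow_succ', Module.End.mul_apply] at h1
    have e2 : a + b - ((m + 1 : ℕ) : ℤ) = b - 2 := by linarith
    rw [e2, ← hm] at h1
    exact h1

end Defs

variable {ι : Type*} {K : ι → Type*} [∀ i, Field (K i)] [∀ i, CharZero (K i)] {V : ι → Type*}
  [∀ i, AddCommGroup (V i)] [∀ i, Module (K i) (V i)] [∀ i, Module.Finite (K i) (V i)]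

variable {A : Set (∀ i, End (K i) (V i))} {d N : ∀ i, End (K i) (V i)}
  {P : ℤ → ℤ → ∀ i, End (K i) (V i)}

section Main

variable (hA : IsSystem A) {l : ι} (hl : NonDeg A l) (hd : d ∈ A) (hN : N ∈ A)
  (hP : ∀ a b, P a b ∈ A) (hB : ∀ i, IsBigraded (d i) (N i) (fun a b => P a b i))
  (hr : ∀ i, finrank (K i) (LinearMap.ker (d i)) - finrank (K i) (LinearMap.range (d i)) =
    finrank (K l) (LinearMap.ker (d l)) - finrank (K l) (LinearMap.range (d l)))

include hA hB hr in
lemma rank_const (i : ι) : finrank (K i) (LinearMap.range (d i)) ≤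
    finrank (K l) (LinearMap.range (d l)) := by
  have h1 := LinearMap.finrank_range_add_finrank_ker (d i)
  have h2 := LinearMap.finrank_range_add_finrank_ker (d l)
  have h3 := hA.finrank_eq i l
  have h4 : ∀ i, LinearMap.range (d i) ≤ LinearMap.ker (d i) := by
    rintro i _ ⟨x, rfl⟩
    exact congrArg (fun F => F x) (hB i).d_sq
  have h5 := Submodule.finrank_mono (h4 i)
  have h6 := Submodule.finrank_mono (h4 l)
  have h7 := hr i
  omega

include hA hl hd hP hB hr

theorem split_Z (a b : ℤ) : Split A fun i => Zc (d i) (fun a b => P a b i) a b := by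
  refine Split.inf_range hA (hA.split_ker hl hd (rank_const hA hB hr)) (hP a b)
    (fun i => (hB i).idem a b) fun i x hx => ?_
  have h1 := congrArg (fun F => F x) ((hB i).dP a b)
  change d i (P a b i x) = P (a + 1) b i (d i x) at h1
  change d i x = 0 at hx
  change d i (P a b i x) = 0
  rw [h1, hx, map_zero]

theorem split_B (a b : ℤ) : Split A fun i => Bc (d i) (fun a b => P a b i) a b := by
  refine Split.inf_range hA (hA.split_range hl hd (rank_const hA hB hr)) (hP a b)
    (fun i => (hB i).idem a b) fun i x hx => ?_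
  obtain ⟨y, rfl⟩ := hx
  have h1 := congrArg (fun F => F y) ((hB i).dP (a - 1) b)
  change d i (P (a - 1) b i y) = P (a - 1 + 1) b i (d i y) at h1
  rw [sub_add_cancel] at h1
  exact ⟨_, h1⟩

include hN

/-- **The monodromy-weight property at the good index implies the property at all indices.** -/
theorem monodromyWeight_transfer {q : ℤ}
    (h : IsMonodromyWeight (d l) (N l) (fun a b => P a b l) q) (i : ι) :
    IsMonodromyWeight (d i) (N i) (fun a b => P a b i) q := by
  intro m hm
  refine isIso_transfer hA hl (U := fun i => Zc (d i) (fun a b => P a b i) (-m) (q + m))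
    (B := fun i => Bc (d i) (fun a b => P a b i) (-m) (q + m))
    (U' := fun i => Zc (d i) (fun a b => P a b i) m (q - m))
    (B' := fun i => Bc (d i) (fun a b => P a b i) m (q - m)) (f := fun i => N i ^ m)
    (split_Z hA hl hd hP hB hr _ _) (split_B hA hl hd hP hB hr _ _)
    (split_Z hA hl hd hP hB hr _ _) (split_B hA hl hd hP hB hr _ _)
    (fun i => Bc_le (hB i) _ _) (fun i => Bc_le (hB i) _ _) (hA.pow hN m) (fun i x hx => ?_)
    (fun i x hx => ?_) (h m hm) i
  · have h1 := Npow_mem_Z (hB i) m hx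
    convert h1 using 2 <;> ring
  · have h1 := Npow_mem_B (hB i) m hx
    convert h1 using 2 <;> ring

/-- The kernels of `N` are split. -/
theorem split_U (a b : ℤ)
    (h : ∀ i, IsMonodromyWeight (d i) (N i) (fun a b => P a b i) (a + b)) :
    Split A fun i => Uc (d i) (N i) (fun a b => P a b i) a b := by
  by_cases ha : a ≤ -1
  · have h1 : (fun i => Uc (d i) (N i) (fun a b => P a b i) a b) =
        fun i => Bc (d i) (fun a b => P a b i) a b := funext fun i => Uc_eq_B (hB i) (h i) ha
    rw [h1]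
    exact split_B hA hl hd hP hB hr a b
  · have h1 : (fun i => Uc (d i) (N i) (fun a b => P a b i) a b) = fun i =>
        Zc (d i) (fun a b => P a b i) a b ⊓
          (Bc (d i) (fun a b => P a b i) (a + 2) (b - 2)).comap (N i) := by
      funext i
      apply le_antisymm
      · rintro x ⟨h2, h3⟩
        exact ⟨h2, h3, (N_mem_Z (hB i) h2).2⟩
      · rintro x ⟨h2, h3⟩
        exact ⟨h2, h3.1⟩
    rw [h1]
    exact split_kernel_of_surj hA hl (U' := fun i => Zc (d i) (fun a b => P a b i) (a + 2) (b - 2))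
      (split_Z hA hl hd hP hB hr _ _) (split_Z hA hl hd hP hB hr _ _)
      (split_B hA hl hd hP hB hr _ _) (fun i => Bc_le (hB i) _ _) hN
      (fun i x hx => N_mem_Z (hB i) hx) fun i => N_surj (hB i) (h i) (by omega)

end Main

end Pool.Agent.K9h28.Il
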