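import Pool.Agent.K9h28.IlDefs
import Pool.Agent.K9h28.IlB
import Pool.Agent.H914R2.KCorr

/-!
# Families of maps given by algebraic correspondences
-/

set_option autoImplicit false

open CategoryTheory AlgebraicGeometry Module

universe u v

namespace Pool.Agent.K9h28.Il

open Pool.Agent.H914 Pool.Agent.H914.VarClass Pool.Agent.H914.VarClass.Obj
  Pool.Agent.H914.WeilCohomology

variable {k : Type u} [Field k] {𝒱 : VarClass k} {ops : CycleOps 𝒱}

section One

variable {W : WeilCohomology.{u, v} ops} {X Y Z : 𝒱.Obj}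

/-- The operator induced by the transpose of an external product. -/
lemma corr_swap_tmul' {i j : ℕ} {a : W.H X} (ha : a ∈ W.gr X i) {b : W.H Y} (hb : b ∈ W.gr Y j) :
    W.corr (W.map (swap Y X) (W.map (fst X Y) a * W.map (snd X Y) b)) =
      (W.tr Y ∘ₗ LinearMap.mulLeft W.K b).smulRight a := by
  apply gr_ext (W.isInternal Y)
  intro l y hy
  rw [corr_apply, map_mul (W.map (swap Y X)), ← W.map_comp, ← W.map_comp, swap_fst, swap_snd,
    mul_assoc, ← map_mul (W.map (fst Y X)),
    W.comm (W.map_mem (snd Y X) ha) (W.map_mem (fst Y X) (W.mul_mem hb hy)), map_smul, push_snd,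
    LinearMap.smulRight_apply, LinearMap.comp_apply, LinearMap.mulLeft_apply]
  by_cases hl : j + l = 2 * Y.dim
  · rw [hl, mul_comm i, mul_assoc, pow_mul]
    simp
  · rw [W.tr_eq_zero (W.mul_mem hb hy) hl]
    simp

/-- The intersection number of two correspondences is a trace. -/
theorem tr_mul_eq_trace' {p : ℕ} {c : W.H (X.prod Y)} (hc : c ∈ W.gr _ (2 * p))
    (d : W.H (X.prod Y)) :
    W.tr (X.prod Y) (c * d) = LinearMap.trace W.K (W.H Y)
      (par (W.isInternal Y) ∘ₗ (W.corr c ∘ₗ W.corr (W.map (swap Y X) d))) := by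
  refine W.kunneth_induction (p := fun d => W.tr (X.prod Y) (c * d) =
    LinearMap.trace W.K (W.H Y)
      (par (W.isInternal Y) ∘ₗ (W.corr c ∘ₗ W.corr (W.map (swap Y X) d)))) ?_ ?_ d
  · intro a b ha hb
    rw [mul_add, map_add, map_add, corr_add, LinearMap.comp_add, LinearMap.comp_add, map_add, ha,
      hb]
  · intro i j a ha b hb
    rw [corr_swap_tmul' ha hb]
    have h1 : par (W.isInternal Y) ∘ₗ (W.corr c ∘ₗ
        (W.tr Y ∘ₗ LinearMap.mulLeft W.K b).smulRight a) =
        (W.tr Y ∘ₗ LinearMap.mulLeft W.K b).smulRight (par (W.isInternal Y) (W.corr c a)) := by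
      apply LinearMap.ext
      intro y
      rw [LinearMap.comp_apply, LinearMap.comp_apply, LinearMap.smulRight_apply,
        LinearMap.smulRight_apply, map_smul, map_smul]
    rw [h1, LinearMap.trace_smulRight, LinearMap.comp_apply, LinearMap.mulLeft_apply]
    have e1 : W.tr (X.prod Y) (c * (W.map (fst X Y) a * W.map (snd X Y) b)) =
        W.tr Y (W.corr c a * b) := by
      rw [corr_apply, W.tr_push, mul_assoc]
    rw [e1]
    have h2 := W.push_mem (snd X Y) (W.mul_mem hc (W.map_mem (fst X Y) ha))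
    rw [← corr_apply] at h2
    by_cases hm : ∃ m : ℕ, (m : ℤ) = ((2 * p + i : ℕ) : ℤ) + 2 * ((Y.dim : ℤ) - (X.prod Y).dim)
    · obtain ⟨m, hm⟩ := hm
      rw [← hm, grZ_natCast] at h2
      rw [par, scal_apply _ _ h2, mul_smul_comm, map_smul, W.comm hb h2, map_smul, smul_eq_mul,
        smul_eq_mul]
      by_cases hj : m + j = 2 * Y.dim
      · have hev : Even (m + j * m) := by
          have : m + j * m = m * (j + 1) := by ring
          rw [this]
          rcases Nat.even_or_odd m with h | h
          · exact h.mul_right _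
          · apply Even.mul_left
            have : Odd j := by
              rcases Nat.even_or_odd j with h' | h'
              · exfalso
                have := h.add_even h'
                rw [hj] at this
                exact (Nat.not_even_iff_odd.2 this) (even_two_mul _)
              · exact h'
            exact this.add_one
        rw [← mul_assoc, ← pow_add, hev.neg_one_pow, one_mul]
      · rw [W.tr_eq_zero (W.mul_mem h2 hb) hj, mul_zero, mul_zero]
    · push Not at hm
      by_cases hneg : ((2 * p + i : ℕ) : ℤ) + 2 * ((Y.dim : ℤ) - (X.prod Y).dim) < 0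
      · rw [grZ_of_neg hneg] at h2
        rw [(Submodule.mem_bot _).1 h2]
        simp
      · exact absurd (Int.toNat_of_nonneg (by omega)) (hm _)

/-- Correspondences with support in a subvariety. -/
lemma corr_push_one (γ : Z ⟶ X.prod Y) (a : W.H X) :
    W.corr (W.push γ 1) a = W.push (γ ≫ snd X Y) (W.map (γ ≫ fst X Y) a) := by
  rw [corr_apply, ← W.push_mul, one_mul, ← W.push_comp, ← W.map_comp]

end One

variable {ι : Type} (W : ι → WeilCohomology.{u, v} ops)

/-- The families of maps given by algebraic correspondences. -/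
def Corrs (X Y : 𝒱.Obj) : AddSubmonoid (∀ i, (W i).H X →ₗ[(W i).K] (W i).H Y) :=
  AddSubmonoid.closure {F | ∃ r z, (X.prod Y).IsCyc r z ∧ ∀ i, F i = (W i).corr ((W i).cl _ z)}

variable {W} {X Y Z : 𝒱.Obj}

namespace Corrs

lemma gen {r : ℕ} {z : (X.prod Y).Cycles} (hz : (X.prod Y).IsCyc r z) :
    (fun i => (W i).corr ((W i).cl _ z)) ∈ Corrs W X Y :=
  AddSubmonoid.subset_closure ⟨r, z, hz, fun _ => rfl⟩

lemma of_eq {r : ℕ} {z : (X.prod Y).Cycles} (hz : (X.prod Y).IsCyc r z)
    {F : ∀ i, (W i).H X →ₗ[(W i).K] (W i).H Y} (hF : ∀ i, F i = (W i).corr ((W i).cl _ z)) :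
    F ∈ Corrs W X Y := AddSubmonoid.subset_closure ⟨r, z, hz, hF⟩

lemma zero : (fun _ => 0) ∈ Corrs W X Y := (Corrs W X Y).zero_mem

lemma add {F G : ∀ i, (W i).H X →ₗ[(W i).K] (W i).H Y} (hF : F ∈ Corrs W X Y)
    (hG : G ∈ Corrs W X Y) : (fun i => F i + G i) ∈ Corrs W X Y :=
  (Corrs W X Y).add_mem hF hG

lemma sum {κ : Type*} {s : Finset κ} {F : κ → ∀ i, (W i).H X →ₗ[(W i).K] (W i).H Y}
    (hF : ∀ t ∈ s, F t ∈ Corrs W X Y) : (fun i => ∑ t ∈ s, F t i) ∈ Corrs W X Y := by
  have h1 := (Corrs W X Y).sum_mem hF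
  refine (congrArg (· ∈ Corrs W X Y) (funext fun i => ?_)).mpr h1
  rw [Finset.sum_apply]

lemma smul (q : ℚ) {F : ∀ i, (W i).H X →ₗ[(W i).K] (W i).H Y} (hF : F ∈ Corrs W X Y) :
    (fun i => (q : (W i).K) • F i) ∈ Corrs W X Y := by
  induction hF using AddSubmonoid.closure_induction with
  | mem F hF =>
    obtain ⟨r, z, hz, hF⟩ := hF
    refine of_eq (hz.smul q) fun i => ?_
    rw [hF, (W i).cl_smul, corr_smul]
  | zero => simpa using zero
  | add F G _ _ hF hG => simpa using add hF hG

/-- Two pure correspondences: the composite is zero if the degree is too small. -/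
lemma comp_eq_zero {V : WeilCohomology.{u, v} ops} {p q : ℕ} {z : (X.prod Y).Cycles}
    {w : (Y.prod Z).Cycles} (hz : (X.prod Y).IsCyc p z) (hw : (Y.prod Z).IsCyc q w)
    (h : p + q < Y.dim) : V.corr (V.cl _ w) ∘ₗ V.corr (V.cl _ z) = 0 := by
  apply gr_ext (V.isInternal X)
  intro i a ha
  rw [LinearMap.comp_apply, LinearMap.zero_apply]
  by_cases hi : 2 * X.dim < i
  · rw [V.gr_eq_bot X i hi] at ha
    rw [(Submodule.mem_bot _).1 ha, map_zero, map_zero]
  · have h2 := V.push_mem (snd X Y) (V.mul_mem (V.cl_mem hz) (V.map_mem (fst X Y) ha))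
    rw [← corr_apply] at h2
    by_cases hneg : ((2 * p + i : ℕ) : ℤ) + 2 * ((Y.dim : ℤ) - (X.prod Y).dim) < 0
    · rw [grZ_of_neg hneg] at h2
      rw [(Submodule.mem_bot _).1 h2, map_zero]
    · obtain ⟨m, hm⟩ := Int.eq_ofNat_of_zero_le (not_lt.1 hneg)
      rw [hm] at h2
      have h2' : V.corr (V.cl _ z) a ∈ V.gr Y m := by
        have h3 := h2
        rwa [grZ_natCast] at h3
      have h4 := V.push_mem (snd Y Z) (V.mul_mem (V.cl_mem hw) (V.map_mem (fst Y Z) h2'))
      rw [← corr_apply, grZ_of_neg] at h4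
      · exact (Submodule.mem_bot _).1 h4
      · simp only [dim_prod] at hm ⊢
        omega

lemma comp {F : ∀ i, (W i).H X →ₗ[(W i).K] (W i).H Y} (hF : F ∈ Corrs W X Y)
    {G : ∀ i, (W i).H Y →ₗ[(W i).K] (W i).H Z} (hG : G ∈ Corrs W Y Z) :
    (fun i => G i ∘ₗ F i) ∈ Corrs W X Z := by
  induction hF using AddSubmonoid.closure_induction with
  | mem F hF =>
    obtain ⟨p, z, hz, hF⟩ := hF
    induction hG using AddSubmonoid.closure_induction with
    | mem G hG =>
      obtain ⟨q, w, hw, hG⟩ := hG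
      by_cases h : p + q < Y.dim
      · have h1 : (fun i => G i ∘ₗ F i) = fun i => (0 : (W i).H X →ₗ[(W i).K] (W i).H Z) := by
          funext i
          rw [hF, hG, comp_eq_zero hz hw h]
        rw [h1]
        exact zero
      · refine of_eq (compCyc_mem (ops := ops) (r := p + q - Y.dim) hz hw (by omega)) fun i => ?_
        rw [corr_compCyc (W i) hw, hF, hG]
    | zero => simpa using zero
    | add G G' _ _ hG hG' =>
      have h1 := add hG hG'
      simpa [LinearMap.add_comp] using h1
  | zero => simpa using zero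
  | add F F' _ _ hF hF' =>
    have h1 := add hF hF'
    simpa [LinearMap.comp_add] using h1

lemma push (f : X ⟶ Y) : (fun i => (W i).push f) ∈ Corrs W X Y := by
  refine of_eq (ops.push_mem (Obj.lift (𝟙 X) f) X.V.fundCycle_mem (q := Y.dim)
    (by simp only [dim_prod]; omega)) fun i => ?_
  apply LinearMap.ext
  intro a
  rw [(W i).cl_push, (W i).cl_fund, corr_push_one, Obj.lift_fst, Obj.lift_snd, (W i).map_id]

lemma map (f : X ⟶ Y) : (fun i => ((W i).map f).toLinearMap) ∈ Corrs W Y X := by
  refine of_eq (ops.push_mem (Obj.lift f (𝟙 X)) X.V.fundCycle_mem (q := Y.dim)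
    (by simp only [dim_prod]; omega)) fun i => ?_
  apply LinearMap.ext
  intro a
  rw [(W i).cl_push, (W i).cl_fund, corr_push_one, Obj.lift_fst, Obj.lift_snd, (W i).push_id]
  rfl

lemma id : (fun i => (LinearMap.id : (W i).H X →ₗ[(W i).K] (W i).H X)) ∈ Corrs W X X := by
  have h1 := push (W := W) (𝟙 X)
  refine (congrArg (· ∈ Corrs W X X) (funext fun i => ?_)).mpr h1
  apply LinearMap.ext
  intro a
  rw [(W i).push_id]
  rfl

/-- The decomposition in the parts of the different codimensions. -/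
lemma decomp {F : ∀ i, (W i).H X →ₗ[(W i).K] (W i).H Y} (hF : F ∈ Corrs W X Y) :
    ∃ z : ℕ → (X.prod Y).Cycles, (∀ n, (X.prod Y).IsCyc n (z n)) ∧
      ∀ i, F i = (W i).corr (∑ n ∈ Finset.range ((X.prod Y).dim + 1), (W i).cl _ (z n)) := by
  induction hF using AddSubmonoid.closure_induction with
  | mem F hF =>
    obtain ⟨r, z, hz, hF⟩ := hF
    refine ⟨fun n => if n = r then z else 0, fun n => ?_, fun i => ?_⟩
    · beta_reduce
      split_ifs with h
      · subst h
        exact hz
      · exact SmVar.IsCyc.zero _ _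
    · rw [hF]
      by_cases h : r ≤ (X.prod Y).dim
      · rw [Finset.sum_eq_single r]
        · beta_reduce
          rw [if_pos rfl]
        · intro n _ hn
          beta_reduce
          rw [if_neg hn, map_zero]
        · intro h1
          exact absurd (Finset.mem_range.2 (by omega)) h1
      · rw [Finset.sum_eq_zero]
        · have h1 := (W i).cl_mem hz
          rw [(W i).gr_eq_bot _ _ (by omega)] at h1
          rw [(Submodule.mem_bot _).1 h1]
        · intro n hn
          rw [Finset.mem_range] at hn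
          beta_reduce
          rw [if_neg (by omega), map_zero]
  | zero =>
    refine ⟨fun _ => 0, fun n => SmVar.IsCyc.zero _ _, fun i => ?_⟩
    simp [corr_zero]
  | add F G _ _ hF hG =>
    obtain ⟨z, hz, hF⟩ := hF
    obtain ⟨w, hw, hG⟩ := hG
    refine ⟨fun n => z n + w n, fun n => (hz n).add (hw n), fun i => ?_⟩
    rw [Pi.add_apply, hF, hG, ← corr_add, ← Finset.sum_add_distrib]
    congr 1
    refine Finset.sum_congr rfl fun n _ => ?_
    rw [map_add]

end Corrs

section Kunneth

variable {X : 𝒱.Obj}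

lemma HasKunneth.proj_mem (h : HasKunneth W X) (j : ℕ) :
    (fun i => proj ((W i).isInternal X) j) ∈ Corrs W X X := by
  obtain ⟨z, hz, h1⟩ := h j
  refine Corrs.of_eq hz fun i => ?_
  apply gr_ext ((W i).isInternal X)
  intro l x hx
  change _ = corrOf (W i) z x
  rw [h1 i l x hx]
  split_ifs with h2
  · subst h2
    rw [proj_same _ hx]
  · rw [proj_ne _ hx h2]

lemma HasKunneth.par_mem (h : HasKunneth W X) :
    (fun i => par ((W i).isInternal X)) ∈ Corrs W X X := by
  have h1 : (fun i => ∑ j ∈ Finset.range (2 * X.dim + 1), (((-1 : ℚ) ^ j : ℚ) : (W i).K) •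
      proj ((W i).isInternal X) j) ∈ Corrs W X X :=
    Corrs.sum fun j _ => Corrs.smul _ (h.proj_mem j)
  refine (congrArg (· ∈ Corrs W X X) (funext fun i => ?_)).mpr h1
  rw [par, scal_eq_sum ((W i).isInternal X) (N := 2 * X.dim + 1)
    (fun l hl => (W i).gr_eq_bot X l (by omega))]
  refine Finset.sum_congr rfl fun j _ => ?_
  push_cast
  rfl

/-- The alternating trace. -/
lemma Corrs.trace_par {F : ∀ i, (W i).H X →ₗ[(W i).K] (W i).H X} (hF : F ∈ Corrs W X X) :
    ∃ q : ℚ, ∀ i, LinearMap.trace (W i).K ((W i).H X) (par ((W i).isInternal X) * F i) = q := by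
  induction hF using AddSubmonoid.closure_induction with
  | mem F hF =>
    obtain ⟨r, z, hz, hF⟩ := hF
    by_cases h : r = X.dim
    · subst h
      refine ⟨X.V.degCycle (ops.pull (diag X) z), fun i => ?_⟩
      rw [hF, trace_par_corr, ← cl_pull, tr_cl _ (ops.pull_mem _ hz)]
    · refine ⟨0, fun i => ?_⟩
      rw [hF, trace_par_corr, ← cl_pull, (W i).tr_eq_zero ((W i).cl_mem (ops.pull_mem _ hz))
        (by omega), Rat.cast_zero]
  | zero =>
    refine ⟨0, fun i => ?_⟩
    rw [Pi.zero_apply, mul_zero, map_zero, Rat.cast_zero]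
  | add F G _ _ hF hG =>
    obtain ⟨q, hq⟩ := hF
    obtain ⟨q', hq'⟩ := hG
    refine ⟨q + q', fun i => ?_⟩
    rw [Pi.add_apply, mul_add, map_add, hq, hq', Rat.cast_add]

/-- The traces are rational and independent of the theory. -/
lemma Corrs.trace (h : HasKunneth W X) {F : ∀ i, (W i).H X →ₗ[(W i).K] (W i).H X}
    (hF : F ∈ Corrs W X X) :
    ∃ q : ℚ, ∀ i, LinearMap.trace (W i).K ((W i).H X) (F i) = q := by
  obtain ⟨q, hq⟩ := Corrs.trace_par (Corrs.comp hF h.par_mem)
  refine ⟨q, fun i => ?_⟩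
  rw [← hq i]
  congr 1
  change F i = par ((W i).isInternal X) * (par ((W i).isInternal X) * F i)
  rw [← mul_assoc, par_mul_par, one_mul]

end Kunneth

/-- **Nondegeneracy of the trace form.** -/
theorem Corrs.nondeg {l : ι} (hD : HomEqNum (W l) (X.prod Y)) (hY : HasKunneth W Y)
    {F : ∀ i, (W i).H X →ₗ[(W i).K] (W i).H Y} (hF : F ∈ Corrs W X Y)
    (h : ∀ G ∈ Corrs W Y X, LinearMap.trace (W l).K ((W l).H X) (G l ∘ₗ F l) = 0) : F l = 0 := by
  obtain ⟨z, hz, hF1⟩ := Corrs.decomp hF
  rw [hF1]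
  have key : ∀ n ∈ Finset.range ((X.prod Y).dim + 1), (W l).cl _ (z n) = 0 := by
    intro n hn
    rw [Finset.mem_range] at hn
    refine hD n (by omega) (z n) (hz n) fun w hw => ?_
    have h1 := h _ (Corrs.comp hY.par_mem (Corrs.gen (ops.pull_mem (swap Y X) hw)))
    beta_reduce at h1
    rw [(W l).cl_pull, LinearMap.comp_assoc, LinearMap.trace_comp_comm', LinearMap.comp_assoc,
      hF1] at h1
    have h2 : (W l).tr (X.prod Y)
        ((∑ n ∈ Finset.range ((X.prod Y).dim + 1), (W l).cl _ (z n)) * (W l).cl _ w) = 0 := by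
      rw [← h1, Finset.sum_mul, map_sum]
      have h3 : (W l).corr (∑ n ∈ Finset.range ((X.prod Y).dim + 1), (W l).cl _ (z n)) =
          ∑ n ∈ Finset.range ((X.prod Y).dim + 1), (W l).corr ((W l).cl _ (z n)) := by
        apply LinearMap.ext
        intro a
        rw [corr_apply, Finset.sum_mul, map_sum, LinearMap.sum_apply]
        rfl
      have h5 : par ((W l).isInternal Y) ∘ₗ ((∑ n ∈ Finset.range ((X.prod Y).dim + 1),
          (W l).corr ((W l).cl _ (z n))) ∘ₗ (W l).corr ((W l).map (swap Y X) ((W l).cl _ w))) =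
          ∑ n ∈ Finset.range ((X.prod Y).dim + 1), par ((W l).isInternal Y) ∘ₗ
            ((W l).corr ((W l).cl _ (z n)) ∘ₗ
              (W l).corr ((W l).map (swap Y X) ((W l).cl _ w))) := by
        apply LinearMap.ext
        intro a
        rw [LinearMap.comp_apply, LinearMap.comp_apply, LinearMap.sum_apply, LinearMap.sum_apply,
          map_sum]
        rfl
      rw [h3, h5, map_sum]
      refine Finset.sum_congr rfl fun m _ => ?_
      exact tr_mul_eq_trace' ((W l).cl_mem (hz m)) _
    rw [Finset.sum_mul, map_sum, Finset.sum_eq_single n] at h2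
    · rw [← (W l).cl_mul, (W l).tr_cl] at h2
      · exact_mod_cast h2
      · have h4 := ops.mul_mem (hz n) hw
        rwa [Nat.add_sub_cancel' (by omega : n ≤ (X.prod Y).dim)] at h4
    · intro m hm hmn
      rw [Finset.mem_range] at hm
      refine (W l).tr_eq_zero ((W l).mul_mem ((W l).cl_mem (hz m)) ((W l).cl_mem hw)) ?_
      omega
    · intro h4
      exact absurd (Finset.mem_range.2 hn) h4
  rw [Finset.sum_eq_zero key, corr_zero]

end Pool.Agent.K9h28.Il
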