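import Pool.Agent.K9h28.IlE

/-!
# Matrices of correspondences form a system of operators
-/

set_option autoImplicit false

open CategoryTheory AlgebraicGeometry Module

universe u v

namespace Pool.Agent.K9h28.Il

open Pool.Agent.H914 Pool.Agent.H914.VarClass Pool.Agent.H914.VarClass.Obj
  Pool.Agent.H914.WeilCohomology

section Pi

variable {K : Type*} [Field K] {J : Type*} [Fintype J] {M : J → Type*}
  [∀ p, AddCommGroup (M p)] [∀ p, Module K (M p)]

/-- The entry of an operator on a direct sum. -/
noncomputable def entry (a : End K (∀ p, M p)) (p q : J) : M q →ₗ[K] M p :=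
  letI := Classical.decEq J
  LinearMap.proj p ∘ₗ a ∘ₗ LinearMap.single K M q

omit [Fintype J] in
lemma entry_def [DecidableEq J] (a : End K (∀ p, M p)) (p q : J) :
    entry a p q = LinearMap.proj p ∘ₗ a ∘ₗ LinearMap.single K M q := by
  rename_i inst
  obtain rfl : inst = Classical.decEq J := Subsingleton.elim _ _
  rfl

omit [Fintype J] in
lemma entry_add (a b : End K (∀ p, M p)) (p q : J) :
    entry (a + b) p q = entry a p q + entry b p q := by
  classical
  rw [entry_def, entry_def, entry_def, LinearMap.add_comp, LinearMap.comp_add]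

omit [Fintype J] in
lemma entry_smul (c : K) (a : End K (∀ p, M p)) (p q : J) :
    entry (c • a) p q = c • entry a p q := by
  classical
  rw [entry_def, entry_def, LinearMap.smul_comp, LinearMap.comp_smul]

lemma sum_single_proj [DecidableEq J] (x : ∀ p, M p) :
    x = ∑ r, LinearMap.single K M r (x r) := by
  conv_lhs => rw [← Finset.univ_sum_single x]
  rfl

lemma apply_eq_sum (a : End K (∀ p, M p)) (x : ∀ p, M p) (p : J) :
    a x p = ∑ q, entry a p q (x q) := by
  classical
  conv_lhs => rw [sum_single_proj (K := K) x, map_sum, Finset.sum_apply]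
  refine Finset.sum_congr rfl fun q _ => ?_
  rw [entry_def]
  rfl

lemma entry_mul (a b : End K (∀ p, M p)) (p q : J) :
    entry (a * b) p q = ∑ r, entry a p r ∘ₗ entry b r q := by
  classical
  apply LinearMap.ext
  intro x
  rw [LinearMap.sum_apply, entry_def, LinearMap.comp_apply, LinearMap.comp_apply]
  change a (b (LinearMap.single K M q x)) p = _
  rw [apply_eq_sum]
  refine Finset.sum_congr rfl fun r _ => ?_
  rw [LinearMap.comp_apply, entry_def b]
  rfl

lemma eq_zero_of_entry {a : End K (∀ p, M p)} (h : ∀ p q, entry a p q = 0) : a = 0 := by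
  apply LinearMap.ext
  intro x
  funext p
  rw [apply_eq_sum, LinearMap.zero_apply, Pi.zero_apply]
  exact Finset.sum_eq_zero fun q _ => by rw [h, LinearMap.zero_apply]

lemma trace_eq_sum [∀ p, Module.Finite K (M p)] (a : End K (∀ p, M p)) :
    LinearMap.trace K (∀ p, M p) a = ∑ p, LinearMap.trace K (M p) (entry a p p) := by
  classical
  have h1 : a = ∑ r, (a ∘ₗ LinearMap.single K M r) ∘ₗ LinearMap.proj r := by
    apply LinearMap.ext
    intro x
    rw [LinearMap.sum_apply]
    conv_lhs => rw [sum_single_proj (K := K) x, map_sum]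
    rfl
  conv_lhs => rw [h1, map_sum]
  refine Finset.sum_congr rfl fun r _ => ?_
  rw [LinearMap.trace_comp_comm', entry_def]

/-- The operator with only one nonzero entry. -/
noncomputable def unit (p q : J) (G : M q →ₗ[K] M p) : End K (∀ p, M p) :=
  letI := Classical.decEq J
  LinearMap.single K M p ∘ₗ G ∘ₗ LinearMap.proj q

omit [Fintype J] in
lemma unit_def [DecidableEq J] (p q : J) (G : M q →ₗ[K] M p) :
    unit p q G = LinearMap.single K M p ∘ₗ G ∘ₗ LinearMap.proj q := by
  rename_i inst
  obtain rfl : inst = Classical.decEq J := Subsingleton.elim _ _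
  rfl

lemma trace_mul_unit [∀ p, Module.Finite K (M p)] (a : End K (∀ p, M p)) (p q : J)
    (G : M p →ₗ[K] M q) : LinearMap.trace K (∀ p, M p) (a * unit q p G) =
      LinearMap.trace K (M q) (G ∘ₗ entry a p q) := by
  classical
  rw [unit_def, entry_def]
  exact LinearMap.trace_comp_comm' (G ∘ₗ LinearMap.proj p) (a ∘ₗ LinearMap.single K M q)

end Pi

variable {k : Type u} [Field k] {𝒱 : VarClass k} {ops : CycleOps 𝒱}
variable {ι : Type} (W : ι → WeilCohomology.{u, v} ops) {J : Type} [Fintype J] (X : J → 𝒱.Obj)

/-- The families of operators on the sum of the cohomology of the `X p` given by matrices of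
correspondences. -/
def MatSys : Set (∀ i, End (W i).K (∀ p, (W i).H (X p))) :=
  {a | ∀ p q, (fun i => entry (a i) p q) ∈ Corrs W (X q) (X p)}

variable {W X}

omit [Fintype J] in
lemma entry_one_mem (p q : J) : (fun i => entry (1 : End (W i).K (∀ p, (W i).H (X p))) p q) ∈
    Corrs W (X q) (X p) := by
  classical
  by_cases h : p = q
  · subst h
    refine (congrArg (· ∈ Corrs W (X p) (X p)) (funext fun i => ?_)).mpr Corrs.id
    apply LinearMap.ext
    intro x
    rw [entry_def]
    change LinearMap.single (W i).K (fun p => (W i).H (X p)) p x p = x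
    rw [LinearMap.coe_single, Pi.single_eq_same]
  · refine (congrArg (· ∈ Corrs W (X q) (X p)) (funext fun i => ?_)).mpr Corrs.zero
    apply LinearMap.ext
    intro x
    rw [entry_def]
    change LinearMap.single (W i).K (fun p => (W i).H (X p)) q x p = 0
    rw [LinearMap.coe_single, Pi.single_eq_of_ne h]

/-- Matrices of correspondences form a system. -/
theorem isSystem_mat (hK : ∀ p, HasKunneth W (X p)) : IsSystem (MatSys W X) where
  one := entry_one_mem
  add := by
    intro a b ha hb p q
    refine (congrArg (· ∈ Corrs W (X q) (X p)) (funext fun i => ?_)).mpr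
      (Corrs.add (ha p q) (hb p q))
    exact entry_add _ _ p q
  mul := by
    intro a b ha hb p q
    refine (congrArg (· ∈ Corrs W (X q) (X p)) (funext fun i => ?_)).mpr
      (Corrs.sum (s := Finset.univ) fun r _ => Corrs.comp (hb r q) (ha p r))
    exact entry_mul _ _ p q
  smul := by
    intro c a ha p q
    refine (congrArg (· ∈ Corrs W (X q) (X p)) (funext fun i => ?_)).mpr
      (Corrs.smul c (ha p q))
    exact entry_smul _ _ p q
  tr := by
    intro a ha
    choose t ht using fun p => Corrs.trace (hK p) (ha p p)
    refine ⟨∑ p, t p, fun i => ?_⟩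
    rw [trace_eq_sum, Rat.cast_sum]
    exact Finset.sum_congr rfl fun p _ => ht p i

omit [Fintype J] in
lemma unit_mem {p q : J} {G : ∀ i, (W i).H (X q) →ₗ[(W i).K] (W i).H (X p)}
    (hG : G ∈ Corrs W (X q) (X p)) :
    (fun i => unit (M := fun p => (W i).H (X p)) p q (G i)) ∈ MatSys W X := by
  classical
  intro p' q'
  beta_reduce
  by_cases hp : p' = p
  · subst hp
    by_cases hq : q' = q
    · subst hq
      refine (congrArg (· ∈ Corrs W (X q') (X p')) (funext fun i => ?_)).mpr hG
      apply LinearMap.ext
      intro x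
      rw [entry_def, unit_def]
      simp
    · refine (congrArg (· ∈ Corrs W (X q') (X p')) (funext fun i => ?_)).mpr Corrs.zero
      apply LinearMap.ext
      intro x
      rw [entry_def, unit_def]
      simp [Ne.symm hq]
  · refine (congrArg (· ∈ Corrs W (X q') (X p')) (funext fun i => ?_)).mpr Corrs.zero
    apply LinearMap.ext
    intro x
    rw [entry_def, unit_def]
    simp [hp]

/-- The trace form is nondegenerate if the conjecture D is true for the products. -/
theorem nonDeg_mat (hK : ∀ p, HasKunneth W (X p)) {l : ι}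
    (hD : ∀ p q, HomEqNum (W l) ((X p).prod (X q))) : NonDeg (MatSys W X) l := by
  intro a ha h
  refine eq_zero_of_entry fun p q => ?_
  refine Corrs.nondeg (W := W) (hD q p) (hK p) (ha p q) fun G hG => ?_
  have h1 := h _ (unit_mem hG)
  beta_reduce at h1
  rw [trace_mul_unit] at h1
  exact h1

end Pool.Agent.K9h28.Il
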