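import Pool.Agent.K9h28.IlF
import Pool.Agent.K9h28.IlD

/-!
# The weight spectral sequence as a bigraded complex in the system of correspondences
-/

set_option autoImplicit false

open CategoryTheory AlgebraicGeometry Module

universe u v

namespace Pool.Agent.K9h28.Il

open Pool.Agent.H914 Pool.Agent.H914.VarClass Pool.Agent.H914.VarClass.Obj
  Pool.Agent.H914.WeilCohomology

section Graded

variable {K : Type*} [Field K] {V : Type*} [AddCommGroup V] [Module K V]
  {gr : ℕ → Submodule K V} {V' : Type*} [AddCommGroup V'] [Module K V']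
  {gr' : ℕ → Submodule K V'}

/-- The projector onto the graded piece of degree `j : ℤ`. -/
noncomputable def projZ (h : DirectSum.IsInternal gr) (j : ℤ) : End K V :=
  if 0 ≤ j then proj h j.toNat else 0

lemma projZ_mem (h : DirectSum.IsInternal gr) (j : ℤ) (x : V) : projZ h j x ∈ grZ gr j := by
  unfold projZ grZ
  split_ifs
  · exact proj_mem h _ x
  · exact Submodule.zero_mem _

lemma projZ_same (h : DirectSum.IsInternal gr) {j : ℤ} {x : V} (hx : x ∈ grZ gr j) :
    projZ h j x = x := by
  unfold projZ grZ at *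
  split_ifs at *
  · exact proj_same h hx
  · rw [(Submodule.mem_bot _).1 hx]
    rfl

lemma projZ_ne (h : DirectSum.IsInternal gr) {i j : ℤ} (hij : i ≠ j) {x : V}
    (hx : x ∈ grZ gr i) : projZ h j x = 0 := by
  unfold projZ
  split_ifs with h1
  · by_cases h2 : 0 ≤ i
    · lift i to ℕ using h2
      rw [grZ_natCast] at hx
      exact proj_ne h hx (by omega)
    · rw [grZ_of_neg (by omega)] at hx
      rw [(Submodule.mem_bot _).1 hx, map_zero]
  · rfl

/-- Homogeneous maps commute with the projectors. -/
lemma projZ_comm (h : DirectSum.IsInternal gr) (h' : DirectSum.IsInternal gr') {c : ℤ}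
    {F : V →ₗ[K] V'} (hF : ∀ i : ℕ, ∀ x ∈ gr i, F x ∈ grZ gr' (i + c)) (j : ℤ) (x : V) :
    F (projZ h j x) = projZ h' (j + c) (F x) := by
  refine gr_induction h (p := fun x => F (projZ h j x) = projZ h' (j + c) (F x)) ?_ ?_ x
  · intro i x hx
    have hx' : x ∈ grZ gr (i : ℤ) := by
      rw [grZ_natCast]
      exact hx
    by_cases h1 : (i : ℤ) = j
    · subst h1
      rw [projZ_same h hx', projZ_same h' (hF i x hx)]
    · rw [projZ_ne h h1 hx', map_zero, projZ_ne h' (by omega) (hF i x hx)]
  · intro x y hx hy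
    simp only [map_add, hx, hy]

end Graded

variable {k : Type u} [Field k] {𝒱 : VarClass k} {ops : CycleOps 𝒱}

section One

variable {W : WeilCohomology.{u, v} ops} {T : Strata 𝒱}

lemma entry_ofEntries (M : ∀ p q : T.Copy, W.H (T.Y q.1) →ₗ[W.K] W.H (T.Y p.1)) (p q : T.Copy) :
    entry (T.ofEntries W M) p q = M p q := by
  classical
  apply LinearMap.ext
  intro x
  rw [entry_def, LinearMap.comp_apply, LinearMap.comp_apply, Strata.ofEntries,
    LinearMap.proj_apply, LinearMap.pi_apply, LinearMap.sum_apply, Finset.sum_eq_single q]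
  · rw [LinearMap.comp_apply, LinearMap.proj_apply, LinearMap.coe_single, Pi.single_eq_same]
  · intro r _ hr
    rw [LinearMap.comp_apply, LinearMap.proj_apply, LinearMap.coe_single,
      Pi.single_eq_of_ne hr, map_zero]
  · intro h
    exact absurd (Finset.mem_univ q) h

/-- The entries of the projector onto `E_1^{a,b}`. -/
noncomputable def diagP (W : WeilCohomology.{u, v} ops) (T : Strata 𝒱) (a b : ℤ) (p : T.Copy) :
    End W.K (W.H (T.Y p.1)) :=
  if 2 * (p.2.1 : ℤ) - T.rk p.1 = a
    then projZ (W.isInternal (T.Y p.1)) (b - 2 * ((T.rk p.1 : ℤ) - p.2.1)) else 0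

/-- The projector onto `E_1^{a,b}`. -/
noncomputable def PP (W : WeilCohomology.{u, v} ops) (T : Strata 𝒱) (a b : ℤ) :
    End W.K (T.E1 W) := LinearMap.pi fun p => diagP W T a b p ∘ₗ LinearMap.proj p

lemma PP_apply (a b : ℤ) (x : T.E1 W) (p : T.Copy) : PP W T a b x p = diagP W T a b p (x p) := rfl

lemma diagP_mem (a b : ℤ) (p : T.Copy) (x : W.H (T.Y p.1)) : diagP W T a b p x ∈
    if 2 * (p.2.1 : ℤ) - T.rk p.1 = a
      then grZ (W.gr (T.Y p.1)) (b - 2 * ((T.rk p.1 : ℤ) - p.2.1)) else ⊥ := by
  unfold diagP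
  split_ifs
  · exact projZ_mem _ _ x
  · exact Submodule.zero_mem _

lemma diagP_same {a b : ℤ} {p : T.Copy} {x : W.H (T.Y p.1)}
    (hx : x ∈ if 2 * (p.2.1 : ℤ) - T.rk p.1 = a
      then grZ (W.gr (T.Y p.1)) (b - 2 * ((T.rk p.1 : ℤ) - p.2.1)) else ⊥) :
    diagP W T a b p x = x := by
  unfold diagP
  split_ifs at *
  · exact projZ_same _ hx
  · rw [(Submodule.mem_bot _).1 hx]
    rfl

lemma PP_mem (a b : ℤ) (x : T.E1 W) : PP W T a b x ∈ T.piece W a b := by
  rw [Strata.piece, Submodule.mem_pi]
  intro p _
  exact diagP_mem a b p (x p)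

lemma PP_same {a b : ℤ} {x : T.E1 W} (hx : x ∈ T.piece W a b) : PP W T a b x = x := by
  rw [Strata.piece, Submodule.mem_pi] at hx
  funext p
  exact diagP_same (hx p (Set.mem_univ p))

lemma range_PP (a b : ℤ) : LinearMap.range (PP W T a b) = T.piece W a b := by
  apply le_antisymm
  · rintro _ ⟨x, rfl⟩
    exact PP_mem a b x
  · intro x hx
    exact ⟨x, PP_same hx⟩

lemma mono_apply (x : T.E1 W) (p : T.Copy) : T.mono W x p =
    if h : 0 < p.2.1 then x ⟨p.1, ⟨p.2.1 - 1, by omega⟩⟩ else 0 := by
  unfold Strata.mono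
  rw [LinearMap.pi_apply]
  split_ifs <;> rfl

lemma diff_apply (x : T.E1 W) (p : T.Copy) : T.diff W x p =
    ∑ q, ((if p.2.1 = q.2.1 + 1 then T.res W p.1 q.1 (x q) else 0) +
      if p.2.1 = q.2.1 then T.gys W q.1 p.1 (x q) else 0) := by
  unfold Strata.diff Strata.ofEntries
  rw [LinearMap.pi_apply, LinearMap.sum_apply]
  refine Finset.sum_congr rfl fun q _ => ?_
  rw [LinearMap.comp_apply, LinearMap.add_apply]
  split_ifs <;> rfl

/-- The monodromy operator and the projectors. -/
lemma mono_PP (a b : ℤ) (x : T.E1 W) : T.mono W (PP W T a b x) =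
    PP W T (a + 2) (b - 2) (T.mono W x) := by
  funext p
  rw [PP_apply, mono_apply, mono_apply]
  split_ifs with h
  · rw [PP_apply]
    unfold diagP
    have e1 : ((p.2.1 - 1 : ℕ) : ℤ) = (p.2.1 : ℤ) - 1 := by omega
    dsimp only
    rw [e1]
    by_cases h1 : 2 * (p.2.1 : ℤ) - T.rk p.1 = a + 2
    · rw [if_pos (by omega), if_pos h1]
      congr 2
      ring
    · rw [if_neg (by omega), if_neg h1]
  · rw [map_zero]

variable {n : ℕ} (hdim : ∀ s, (T.Y s).dim + T.rk s = n)
  (hrk : ∀ s u, T.sgn s u ≠ 0 → T.rk s = T.rk u + 1)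

include hdim hrk in
/-- The differential and the projectors. -/
lemma diff_PP (a b : ℤ) (x : T.E1 W) : T.diff W (PP W T a b x) =
    PP W T (a + 1) b (T.diff W x) := by
  funext p
  rw [PP_apply, diff_apply, diff_apply, map_sum]
  refine Finset.sum_congr rfl fun q _ => ?_
  rw [map_add, PP_apply]
  congr 1
  · split_ifs with h
    · unfold Strata.res
      split_ifs with h1
      · have h2 := hrk _ _ h1
        rw [LinearMap.smul_apply, LinearMap.smul_apply, map_smul]
        congr 1
        unfold diagP
        by_cases h3 : 2 * (q.2.1 : ℤ) - T.rk q.1 = a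
        · rw [if_pos h3, if_pos (by omega)]
          have h4 := projZ_comm (W.isInternal (T.Y q.1)) (W.isInternal (T.Y p.1)) (c := 0)
            (F := (W.map (T.incl p.1 q.1 h1)).toLinearMap) (fun i y hy => by
              rw [add_zero, grZ_natCast]
              exact W.map_mem _ hy) (b - 2 * ((T.rk q.1 : ℤ) - q.2.1)) (x q)
          rw [h4]
          congr 2
          omega
        · rw [if_neg h3, if_neg (by omega), LinearMap.zero_apply, LinearMap.zero_apply, map_zero]
      · rw [LinearMap.zero_apply, LinearMap.zero_apply, map_zero]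
    · rw [map_zero]
  · split_ifs with h
    · unfold Strata.gys
      split_ifs with h1
      · have h2 := hrk _ _ h1
        have h5 := hdim q.1
        have h6 := hdim p.1
        rw [LinearMap.smul_apply, LinearMap.smul_apply, map_smul]
        congr 1
        unfold diagP
        by_cases h3 : 2 * (q.2.1 : ℤ) - T.rk q.1 = a
        · rw [if_pos h3, if_pos (by omega)]
          have h4 := projZ_comm (W.isInternal (T.Y q.1)) (W.isInternal (T.Y p.1)) (c := 2)
            (F := W.push (T.incl q.1 p.1 h1)) (fun i y hy => by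
              have h7 := W.push_mem (T.incl q.1 p.1 h1) hy
              rwa [show (2 : ℤ) * (((T.Y p.1).dim : ℤ) - (T.Y q.1).dim) = 2 by omega] at h7)
            (b - 2 * ((T.rk q.1 : ℤ) - q.2.1)) (x q)
          rw [h4]
          congr 2
          omega
        · rw [if_neg h3, if_neg (by omega), LinearMap.zero_apply, LinearMap.zero_apply, map_zero]
      · rw [LinearMap.zero_apply, LinearMap.zero_apply, map_zero]
    · rw [map_zero]

lemma sum_ite_fin {m : ℕ} {M : Type*} [AddCommMonoid M] (c : ℕ) (F : Fin m → M) :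
    (∑ l : Fin m, if c = l.1 then F l else 0) = if h : c < m then F ⟨c, h⟩ else 0 := by
  split_ifs with h
  · rw [Finset.sum_eq_single ⟨c, h⟩]
    · rw [if_pos rfl]
    · intro l _ hl
      rw [if_neg]
      intro h1
      exact hl (Fin.ext h1.symm)
    · intro h1
      exact absurd (Finset.mem_univ _) h1
  · refine Finset.sum_eq_zero fun l _ => if_neg ?_
    have := l.2
    omega

omit hdim in
include hrk in
/-- The monodromy operator commutes with the differential. -/
lemma mono_diff (x : T.E1 W) : T.mono W (T.diff W x) = T.diff W (T.mono W x) := by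
  funext p
  obtain ⟨s, ⟨c, hc⟩⟩ := p
  rw [mono_apply, diff_apply]
  rcases c with _ | c
  · rw [dif_neg (lt_irrefl 0)]
    refine (Finset.sum_eq_zero fun q _ => ?_).symm
    dsimp only
    rw [if_neg (by omega), zero_add]
    split_ifs with h
    · rw [mono_apply, dif_neg (by omega), map_zero]
    · rfl
  · rw [dif_pos (Nat.succ_pos c), diff_apply, Fintype.sum_sigma, Fintype.sum_sigma]
    refine Finset.sum_congr rfl fun u _ => ?_
    dsimp only
    rw [Finset.sum_add_distrib, Finset.sum_add_distrib]
    congr 1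
    · by_cases hs : T.sgn s u ≠ 0
      · have h1 := hrk s u hs
        rcases c with _ | c
        · rw [Finset.sum_eq_zero, Finset.sum_eq_zero]
          · intro l _
            split_ifs with h
            · rw [mono_apply, dif_neg (by dsimp only; omega), map_zero]
            · rfl
          · intro l _
            rw [if_neg (by omega)]
        · have e1 : ∀ l : Fin (T.rk u + 1), (if c + 1 + 1 - 1 = l.1 + 1 then
              T.res W s u (x ⟨u, l⟩) else 0) = if c = l.1 then T.res W s u (x ⟨u, l⟩) else 0 := by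
            intro l
            congr 1
            simp
          have e2 : ∀ l : Fin (T.rk u + 1), (if c + 1 + 1 = l.1 + 1 then
              T.res W s u (T.mono W x ⟨u, l⟩) else 0) =
                if c + 1 = l.1 then T.res W s u (T.mono W x ⟨u, l⟩) else 0 := by
            intro l
            congr 1
            simp
          rw [Finset.sum_congr rfl fun l _ => e1 l, Finset.sum_congr rfl fun l _ => e2 l,
            sum_ite_fin c fun l => T.res W s u (x ⟨u, l⟩),
            sum_ite_fin (c + 1) fun l => T.res W s u (T.mono W x ⟨u, l⟩), dif_pos (by omega),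
            dif_pos (by omega), mono_apply, dif_pos (Nat.succ_pos c)]
          rfl
      · have h1 : T.res W s u = 0 := by
          unfold Strata.res
          rw [dif_neg hs]
        rw [h1]
        rw [Finset.sum_eq_zero fun l _ => ?_, Finset.sum_eq_zero fun l _ => ?_]
        · split_ifs <;> rfl
        · split_ifs <;> rfl
    · by_cases hs : T.sgn u s ≠ 0
      · have h1 := hrk u s hs
        rw [sum_ite_fin (c + 1 - 1) fun l => T.gys W u s (x ⟨u, l⟩),
          sum_ite_fin (c + 1) fun l => T.gys W u s (T.mono W x ⟨u, l⟩), dif_pos (by omega),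
          dif_pos (by omega), mono_apply, dif_pos (Nat.succ_pos c)]
      · have h1 : T.gys W u s = 0 := by
          unfold Strata.gys
          rw [dif_neg hs]
        rw [h1]
        rw [Finset.sum_eq_zero fun l _ => ?_, Finset.sum_eq_zero fun l _ => ?_]
        · split_ifs <;> rfl
        · split_ifs <;> rfl

end One

section Family

variable {ι : Type} {W : ι → WeilCohomology.{u, v} ops} {T : Strata 𝒱}

lemma ofEntries_mem {M : ∀ i, ∀ p q : T.Copy, (W i).H (T.Y q.1) →ₗ[(W i).K] (W i).H (T.Y p.1)}
    (h : ∀ p q, (fun i => M i p q) ∈ Corrs W (T.Y q.1) (T.Y p.1)) :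
    (fun i => T.ofEntries (W i) (M i)) ∈ MatSys W (fun p : T.Copy => T.Y p.1) := by
  intro p q
  refine (congrArg (· ∈ Corrs W (T.Y q.1) (T.Y p.1)) (funext fun i => ?_)).mpr (h p q)
  exact entry_ofEntries _ p q

lemma res_mem (s u : T.S) : (fun i => T.res (W i) s u) ∈ Corrs W (T.Y u) (T.Y s) := by
  unfold Strata.res
  split_ifs with h
  · have h1 := Corrs.smul (W := W) (T.sgn s u : ℚ) (Corrs.map (T.incl s u h))
    simpa using h1
  · exact Corrs.zero

lemma gys_mem (s u : T.S) : (fun i => T.gys (W i) s u) ∈ Corrs W (T.Y s) (T.Y u) := by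
  unfold Strata.gys
  split_ifs with h
  · have h1 := Corrs.smul (W := W) (T.sgn s u : ℚ) (Corrs.push (T.incl s u h))
    simpa using h1
  · exact Corrs.zero

lemma diff_mem : (fun i => T.diff (W i)) ∈ MatSys W (fun p : T.Copy => T.Y p.1) := by
  refine ofEntries_mem fun p q => Corrs.add (F := fun i => if p.2.1 = q.2.1 + 1 then
    T.res (W i) p.1 q.1 else 0) (G := fun i => if p.2.1 = q.2.1 then
    T.gys (W i) q.1 p.1 else 0) ?_ ?_
  · split_ifs
    · exact res_mem _ _
    · exact Corrs.zero
  · split_ifs
    · exact gys_mem _ _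
    · exact Corrs.zero

lemma mono_mem : (fun i => T.mono (W i)) ∈ MatSys W (fun p : T.Copy => T.Y p.1) := by
  classical
  intro p q
  by_cases h : 0 < p.2.1
  · by_cases h1 : q = ⟨p.1, ⟨p.2.1 - 1, by omega⟩⟩
    · subst h1
      refine (congrArg (· ∈ Corrs W (T.Y p.1) (T.Y p.1)) (funext fun i => ?_)).mpr Corrs.id
      apply LinearMap.ext
      intro x
      rw [entry_def, LinearMap.comp_apply, LinearMap.comp_apply, LinearMap.proj_apply, mono_apply,
        dif_pos h, LinearMap.coe_single, Pi.single_eq_same]
      rfl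
    · refine (congrArg (· ∈ Corrs W (T.Y q.1) (T.Y p.1)) (funext fun i => ?_)).mpr Corrs.zero
      apply LinearMap.ext
      intro x
      rw [entry_def, LinearMap.comp_apply, LinearMap.comp_apply, LinearMap.proj_apply, mono_apply,
        dif_pos h, LinearMap.coe_single, Pi.single_eq_of_ne (Ne.symm h1)]
      rfl
  · refine (congrArg (· ∈ Corrs W (T.Y q.1) (T.Y p.1)) (funext fun i => ?_)).mpr Corrs.zero
    apply LinearMap.ext
    intro x
    rw [entry_def, LinearMap.comp_apply, LinearMap.comp_apply, LinearMap.proj_apply, mono_apply,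
      dif_neg h]
    rfl

lemma PP_mem_sys (hK : ∀ s, HasKunneth W (T.Y s)) (a b : ℤ) :
    (fun i => PP (W i) T a b) ∈ MatSys W (fun p : T.Copy => T.Y p.1) := by
  classical
  intro p q
  by_cases h1 : q = p
  · subst h1
    by_cases h2 : 2 * (q.2.1 : ℤ) - T.rk q.1 = a
    · by_cases h3 : 0 ≤ b - 2 * ((T.rk q.1 : ℤ) - q.2.1)
      · refine (congrArg (· ∈ Corrs W (T.Y q.1) (T.Y q.1)) (funext fun i => ?_)).mpr
          ((hK q.1).proj_mem (b - 2 * ((T.rk q.1 : ℤ) - q.2.1)).toNat)
        apply LinearMap.ext
        intro x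
        rw [entry_def, LinearMap.comp_apply, LinearMap.comp_apply, LinearMap.proj_apply, PP_apply,
          LinearMap.coe_single, Pi.single_eq_same, diagP, if_pos h2, projZ, if_pos h3]
      · refine (congrArg (· ∈ Corrs W (T.Y q.1) (T.Y q.1)) (funext fun i => ?_)).mpr Corrs.zero
        apply LinearMap.ext
        intro x
        rw [entry_def, LinearMap.comp_apply, LinearMap.comp_apply, LinearMap.proj_apply, PP_apply,
          LinearMap.coe_single, Pi.single_eq_same, diagP, if_pos h2, projZ, if_neg h3]
    · refine (congrArg (· ∈ Corrs W (T.Y q.1) (T.Y q.1)) (funext fun i => ?_)).mpr Corrs.zero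
      apply LinearMap.ext
      intro x
      rw [entry_def, LinearMap.comp_apply, LinearMap.comp_apply, LinearMap.proj_apply, PP_apply,
        LinearMap.coe_single, Pi.single_eq_same, diagP, if_neg h2]
  · refine (congrArg (· ∈ Corrs W (T.Y q.1) (T.Y p.1)) (funext fun i => ?_)).mpr Corrs.zero
    apply LinearMap.ext
    intro x
    rw [entry_def, LinearMap.comp_apply, LinearMap.comp_apply, LinearMap.proj_apply, PP_apply,
      LinearMap.coe_single, Pi.single_eq_of_ne (Ne.symm h1), map_zero]
    rfl

end Family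

end Pool.Agent.K9h28.Il
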