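import Pool.Agent.K9h28.IlG
import Pool.Agent.K9h28.IlNewt

/-!
# Characteristic polynomials on subquotients, and the main theorem
-/

set_option autoImplicit false

open CategoryTheory AlgebraicGeometry Module Polynomial

universe u v

namespace Pool.Agent.K9h28.Il

open Pool.Agent.H914 Pool.Agent.H914.VarClass Pool.Agent.H914.VarClass.Obj
  Pool.Agent.H914.WeilCohomology

section TraceAdd

variable {R V : Type*} [CommRing R] [AddCommGroup V] [Module R V] [Module.Finite R V]
    (W : Submodule R V) [Module.Free R W] [Module.Finite R W] [Module.Free R (V ⧸ W)]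

open Module.Basis in
/-- Additivity of the trace (this is `Pool.Agent.V11211.trace_eq_add`). -/
theorem trace_eq_add (e : V →ₗ[R] V) (he : W ≤ W.comap e) :
    LinearMap.trace R V e = LinearMap.trace R W (e.restrict he) +
      LinearMap.trace R (V ⧸ W) (W.mapQ W e he) := by
  classical
  let m := Module.Free.ChooseBasisIndex R W
  let bW : Module.Basis m R W := Module.Free.chooseBasis R W
  let n := Module.Free.ChooseBasisIndex R (V ⧸ W)
  let bQ : Module.Basis n R (V ⧸ W) := Module.Free.chooseBasis R (V ⧸ W)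
  let b := sumQuot bW bQ
  let A : Matrix m m R := LinearMap.toMatrix bW bW (e.restrict he)
  let B : Matrix m n R := Matrix.of fun i l ↦
    ((sumQuot bW bQ).repr (e ((sumQuot bW bQ) (Sum.inr l)))) (Sum.inl i)
  let D : Matrix n n R := LinearMap.toMatrix bQ bQ (W.mapQ W e he)
  suffices LinearMap.toMatrix b b e = Matrix.fromBlocks A B 0 D by
    rw [LinearMap.trace_eq_matrix_trace R b, this, LinearMap.trace_eq_matrix_trace R bW,
      LinearMap.trace_eq_matrix_trace R bQ]
    simp [Matrix.trace, Fintype.sum_sum_type, A, D]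
  ext u v
  cases u with
  | inl i =>
    cases v with
    | inl k =>
      simp only [b, sumQuot_inl, Matrix.fromBlocks_apply₁₁, A, LinearMap.toMatrix_apply]
      apply sumQuot_repr_inl_of_mem
    | inr l => simp [b, LinearMap.toMatrix_apply, Matrix.fromBlocks_apply₁₂, B]
  | inr j =>
    cases v with
    | inl k =>
      suffices W.mkQ (e (bW k)) = 0 by simp [LinearMap.toMatrix_apply, b, this]
      rw [← LinearMap.mem_ker, Submodule.ker_mkQ]
      exact he (Submodule.coe_mem (bW k))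
    | inr l =>
      simp only [LinearMap.toMatrix_apply, sumQuot_repr_inr,
        Matrix.fromBlocks_apply₂₂, b, D]
      rw [← sumQuot_inr bW bQ l, W.mapQ_apply]
      simp

end TraceAdd

section Field

variable {K : Type*} [Field K] {V : Type*} [AddCommGroup V] [Module K V] [Module.Finite K V]

lemma trace_induced (g : End K V) {U B : Submodule K V} (hBU : B ≤ U)
    (hU : ∀ x ∈ U, g x ∈ U) (hB : ∀ x ∈ B, g x ∈ B) :
    LinearMap.trace K _ (induced g U B hU hB) =
      LinearMap.trace K U (g.restrict hU) - LinearMap.trace K B (g.restrict hB) := by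
  have h1 := trace_eq_add (B.comap U.subtype) (g.restrict hU) (fun x hx => hB x hx)
  have h2 : LinearMap.trace K _ ((g.restrict hU).restrict
      (p := B.comap U.subtype) (q := B.comap U.subtype) (fun x hx => hB x hx)) =
      LinearMap.trace K B (g.restrict hB) := by
    rw [← LinearMap.trace_conj' _ (Submodule.comapSubtypeEquivOfLe hBU)]
    congr 1
  rw [← h2, induced]
  exact eq_sub_of_add_eq' h1.symm

omit [Module.Finite K V] in
lemma induced_pow (g : End K V) {U B : Submodule K V} (hU : ∀ x ∈ U, g x ∈ U)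
    (hB : ∀ x ∈ B, g x ∈ B) (n : ℕ) (hU' : ∀ x ∈ U, (g ^ n) x ∈ U)
    (hB' : ∀ x ∈ B, (g ^ n) x ∈ B) : induced g U B hU hB ^ n = induced (g ^ n) U B hU' hB' := by
  induction n with
  | zero =>
    apply LinearMap.ext
    intro x
    obtain ⟨y, rfl⟩ := Submodule.mkQ_surjective _ x
    rfl
  | succ n ih =>
    have h1 : ∀ x ∈ U, (g ^ n) x ∈ U := by
      intro x hx
      exact Module.End.pow_apply_mem_of_forall_mem n hU x hx
    have h2 : ∀ x ∈ B, (g ^ n) x ∈ B := by
      intro x hx
      exact Module.End.pow_apply_mem_of_forall_mem n hB x hx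
    rw [pow_succ, ih h1 h2]
    apply LinearMap.ext
    intro x
    obtain ⟨y, rfl⟩ := Submodule.mkQ_surjective _ x
    rfl

end Field

section System

variable {ι : Type*} {K : ι → Type*} [∀ i, Field (K i)] [∀ i, CharZero (K i)] {V : ι → Type*}
  [∀ i, AddCommGroup (V i)] [∀ i, Module (K i) (V i)] [∀ i, Module.Finite (K i) (V i)]
  {A : Set (∀ i, End (K i) (V i))}

/-- The characteristic polynomial on a subquotient. -/
theorem exists_hasCharpoly (hA : IsSystem A) {U B : ∀ i, Submodule (K i) (V i)} (hU : Split A U)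
    (hB : Split A B) (hBU : ∀ i, B i ≤ U i) {g : ∀ i, End (K i) (V i)} (hg : g ∈ A)
    (h1 : ∀ i, ∀ x ∈ U i, g i x ∈ U i) (h2 : ∀ i, ∀ x ∈ B i, g i x ∈ B i) :
    ∃ P : ℚ[X], ∀ i, HasCharpoly (g i) (U i) (B i) P := by
  obtain ⟨P, hP⟩ := Newt.exists_charpoly (fun i => induced (g i) (U i) (B i) (h1 i) (h2 i))
    (fun n => by
      have e1 : ∀ i, ∀ x ∈ U i, (g i ^ n) x ∈ U i := fun i x hx =>
        Module.End.pow_apply_mem_of_forall_mem n (h1 i) x hx
      have e2 : ∀ i, ∀ x ∈ B i, (g i ^ n) x ∈ B i := fun i x hx =>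
        Module.End.pow_apply_mem_of_forall_mem n (h2 i) x hx
      obtain ⟨q, hq⟩ := hU.trace hA (hA.pow hg n)
      obtain ⟨q', hq'⟩ := hB.trace hA (hA.pow hg n)
      refine ⟨q - q', fun i => ?_⟩
      rw [induced_pow (g i) (h1 i) (h2 i) n (e1 i) (e2 i), trace_induced _ (hBU i), hq i (e1 i),
        hq' i (e2 i), Rat.cast_sub])
  exact ⟨P, fun i => ⟨h1 i, h2 i, hP i⟩⟩

end System

variable {k : Type u} [Field k] {𝒱 : VarClass k} {ops : CycleOps 𝒱} {ι : Type}
  {W : ι → WeilCohomology.{u, v} ops} {T : Strata 𝒱} {n : ℕ}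

section Main

lemma isBigraded (hT : IsSemistableO W T n) (i : ι) :
    IsBigraded (T.diff (W i)) (T.mono (W i)) (fun a b => PP (W i) T a b) where
  d_sq := hT.diff_sq i
  comm := LinearMap.ext fun x => mono_diff hT.rk_eq x
  idem a b := LinearMap.ext fun x => PP_same (PP_mem a b x)
  dP a b := LinearMap.ext fun x => diff_PP hT.dim_add hT.rk_eq a b x
  NP a b := LinearMap.ext fun x => mono_PP a b x

lemma Z_eq (i : ι) (a b : ℤ) : T.Z (W i) a b =
    Zc (T.diff (W i)) (fun a b => PP (W i) T a b) a b := by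
  rw [Strata.Z, Zc, range_PP]

lemma B_eq (hT : IsSemistableO W T n) (i : ι) (a b : ℤ) : T.B (W i) a b =
    Bc (T.diff (W i)) (fun a b => PP (W i) T a b) a b := by
  rw [Strata.B, Bc]
  apply le_antisymm
  · rintro _ ⟨x, hx, rfl⟩
    refine ⟨⟨x, rfl⟩, ?_⟩
    rw [range_PP]
    have h1 := diff_PP (W := W i) hT.dim_add hT.rk_eq (a - 1) b x
    rw [PP_same hx, sub_add_cancel] at h1
    rw [h1]
    exact PP_mem a b _
  · rintro _ ⟨⟨x, rfl⟩, hx⟩
    rw [range_PP] at hx
    refine ⟨PP (W i) T (a - 1) b x, PP_mem _ _ x, ?_⟩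
    rw [diff_PP hT.dim_add hT.rk_eq, sub_add_cancel, PP_same hx]

lemma Z'_eq (hT : IsSemistableO W T n) (i : ι) (a b : ℤ) : T.Z' (W i) a b =
    Uc (T.diff (W i)) (T.mono (W i)) (fun a b => PP (W i) T a b) a b := by
  rw [Strata.Z', Uc, Z_eq, B_eq hT]
  apply le_antisymm
  · rintro x ⟨h1, h2⟩
    exact ⟨h1, h2.1⟩
  · rintro x ⟨h1, h2⟩
    exact ⟨h1, h2, (N_mem_Z (isBigraded hT i) h1).2⟩

lemma monodromyWeight_iff (hT : IsSemistableO W T n) (i : ι) (q : ℤ) :
    T.MonodromyWeight (W i) q ↔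
      IsMonodromyWeight (T.diff (W i)) (T.mono (W i)) (fun a b => PP (W i) T a b) q := by
  unfold Strata.MonodromyWeight IsMonodromyWeight
  simp only [Z_eq, B_eq hT]

lemma action_mem {g : ∀ i, Module.End (W i).K (T.E1 (W i))} (hg : IsActionO W T g) :
    g ∈ MatSys W (fun p : T.Copy => T.Y p.1) := by
  obtain ⟨z, hz, h1⟩ := hg.algebraic
  have h2 : (fun i => T.ofEntries (W i) fun p q => (W i).corr ((W i).cl _ (z p q))) ∈
      MatSys W (fun p : T.Copy => T.Y p.1) := ofEntries_mem fun p q => by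
    obtain ⟨r, hr⟩ := hz p q
    exact Corrs.gen hr
  refine (congrArg (· ∈ MatSys W (fun p : T.Copy => T.Y p.1)) (funext fun i => ?_)).mpr h2
  exact h1 i

lemma action_Z {g : ∀ i, Module.End (W i).K (T.E1 (W i))} (hg : IsActionO W T g) (i : ι)
    (a b : ℤ) : ∀ x ∈ T.Z (W i) a b, g i x ∈ T.Z (W i) a b := by
  rintro x ⟨h1, h2⟩
  refine ⟨?_, hg.piece i a b x h2⟩
  have h3 := congrArg (fun F => F x) (hg.comm i)
  change g i (T.diff (W i) x) = T.diff (W i) (g i x) at h3
  change T.diff (W i) (g i x) = 0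
  change T.diff (W i) x = 0 at h1
  rw [← h3, h1, map_zero]

lemma action_B {g : ∀ i, Module.End (W i).K (T.E1 (W i))} (hg : IsActionO W T g) (i : ι)
    (a b : ℤ) : ∀ x ∈ T.B (W i) a b, g i x ∈ T.B (W i) a b := by
  rintro _ ⟨x, hx, rfl⟩
  refine ⟨g i x, hg.piece i _ b x hx, ?_⟩
  exact (congrArg (fun F => F x) (hg.comm i)).symm

/-- The split families in the weight spectral sequence. -/
structure AllSplit (W : ι → WeilCohomology.{u, v} ops) (T : Strata 𝒱) (q : ℤ) : Prop where
  sys : IsSystem (MatSys W (fun p : T.Copy => T.Y p.1))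
  Z : ∀ a b, Split (MatSys W (fun p : T.Copy => T.Y p.1)) fun i => T.Z (W i) a b
  B : ∀ a b, Split (MatSys W (fun p : T.Copy => T.Y p.1)) fun i => T.B (W i) a b
  B_le_Z : ∀ i a b, T.B (W i) a b ≤ T.Z (W i) a b
  mw : ∀ l, (∀ s t, HomEqNum (W l) ((T.Y s).prod (T.Y t))) → T.MonodromyWeight (W l) q →
    (∀ i, T.MonodromyWeight (W i) q) ∧ ∀ a b, a + b = q →
      Split (MatSys W (fun p : T.Copy => T.Y p.1)) fun i => T.Z' (W i) a b

theorem allSplit (hT : IsSemistableO W T n) {l : ι}
    (hD : ∀ s t, HomEqNum (W l) ((T.Y s).prod (T.Y t))) (q : ℤ) : AllSplit W T q := by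
  have hA := isSystem_mat (W := W) (X := fun p : T.Copy => T.Y p.1) fun p => hT.kunneth p.1
  have hl := nonDeg_mat (W := W) (X := fun p : T.Copy => T.Y p.1) (fun p => hT.kunneth p.1)
    (l := l) fun p q => hD p.1 q.1
  have hd := diff_mem (W := W) (T := T)
  have hN := mono_mem (W := W) (T := T)
  have hP := fun a b => PP_mem_sys (W := W) (T := T) hT.kunneth a b
  have hB := isBigraded hT
  have hr : ∀ l i, finrank (W i).K (LinearMap.ker (T.diff (W i))) -
      finrank (W i).K (LinearMap.range (T.diff (W i))) =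
      finrank (W l).K (LinearMap.ker (T.diff (W l))) -
      finrank (W l).K (LinearMap.range (T.diff (W l))) := fun l i => hT.betti i l
  refine ⟨hA, fun a b => ?_, fun a b => ?_, fun i a b => ?_, fun l hD hq => ?_⟩
  · have h1 := split_Z (P := fun a b i => PP (W i) T a b) hA hl hd hP hB (hr l) a b
    refine (congrArg _ (funext fun i => ?_)).mpr h1
    exact Z_eq i a b
  · have h1 := split_B (P := fun a b i => PP (W i) T a b) hA hl hd hP hB (hr l) a b
    refine (congrArg _ (funext fun i => ?_)).mpr h1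
    exact B_eq hT i a b
  · rw [B_eq hT, Z_eq]
    exact Bc_le (hB i) a b
  · have hl := nonDeg_mat (W := W) (X := fun p : T.Copy => T.Y p.1) (fun p => hT.kunneth p.1)
      (l := l) fun p q => hD p.1 q.1
    rw [monodromyWeight_iff hT] at hq
    have hq' : ∀ i, IsMonodromyWeight (T.diff (W i)) (T.mono (W i))
        (fun a b => PP (W i) T a b) q := fun i =>
      monodromyWeight_transfer (P := fun a b i => PP (W i) T a b) hA hl hd hN hP hB (hr l) hq i
    refine ⟨fun i => (monodromyWeight_iff hT i q).2 (hq' i), ?_⟩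
    rintro a b rfl
    have h1 := split_U (P := fun a b i => PP (W i) T a b) hA hl hd hN hP hB (hr l) a b hq'
    refine (congrArg _ (funext fun i => ?_)).mpr h1
    exact Z'_eq hT i a b

lemma B_le_Z' (hT : IsSemistableO W T n) (i : ι) (a b : ℤ) : T.B (W i) a b ≤ T.Z' (W i) a b := by
  intro x hx
  rw [Z'_eq hT]
  rw [B_eq hT] at hx
  exact ⟨Bc_le (isBigraded hT i) a b hx, (N_mem_B (isBigraded hT i) hx).1⟩

lemma action_Z' {g : ∀ i, Module.End (W i).K (T.E1 (W i))} (hg : IsActionO W T g) (i : ι)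
    (a b : ℤ) : ∀ x ∈ T.Z' (W i) a b, g i x ∈ T.Z' (W i) a b := by
  rintro x ⟨h1, h2⟩
  refine ⟨action_Z hg i a b x h1, ?_⟩
  obtain ⟨c, hc⟩ := hg.mono i
  have h3 := congrArg (fun F => F x) hc
  change T.mono (W i) (g i x) = c • g i (T.mono (W i) x) at h3
  change T.mono (W i) (g i x) ∈ T.B (W i) (a + 2) (b - 2)
  rw [h3]
  exact Submodule.smul_mem _ _ (action_B hg i _ _ _ h2)

end Main

end Pool.Agent.K9h28.Il
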