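import Pool.Agent.K9h28.IlH

/-!
# The limit of the weight spectral sequence
-/

set_option autoImplicit false

open CategoryTheory AlgebraicGeometry Module Polynomial

universe u v

namespace Pool.Agent.K9h28.Il

open Pool.Agent.H914 Pool.Agent.H914.VarClass Pool.Agent.H914.VarClass.Obj
  Pool.Agent.H914.WeilCohomology

section Rel

variable {K : Type*} [Field K] {V : Type*} [AddCommGroup V] [Module K V] [Module.Finite K V]
  {V' : Type*} [AddCommGroup V'] [Module K V'] [Module.Finite K V']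

omit [Module.Finite K V] [Module.Finite K V'] in
/-- Subquotients which correspond to each other under a relation. -/
lemma trace_rel {U B : Submodule K V} {U' B' : Submodule K V'} (R : Submodule K (V × V'))
    (hmem : ∀ x ∈ R, x.1 ∈ U ∧ x.2 ∈ U') (left : ∀ v ∈ U, ∃ z, (v, z) ∈ R)
    (right : ∀ z ∈ U', ∃ v, (v, z) ∈ R) (zero : ∀ x ∈ R, (x.1 ∈ B ↔ x.2 ∈ B'))
    {φ : End K V} {g : End K V'} (hφ : ∀ x ∈ R, (φ x.1, g x.2) ∈ R)
    (hU : ∀ x ∈ U, φ x ∈ U) (hB : ∀ x ∈ B, φ x ∈ B) (hU' : ∀ x ∈ U', g x ∈ U')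
    (hB' : ∀ x ∈ B', g x ∈ B') : LinearMap.trace K _ (induced φ U B hU hB) =
      LinearMap.trace K _ (induced g U' B' hU' hB') := by
  set α : R →ₗ[K] U ⧸ B.comap U.subtype := (B.comap U.subtype).mkQ ∘ₗ
    (LinearMap.codRestrict U (LinearMap.fst K V V' ∘ₗ R.subtype) fun x => (hmem x x.2).1) with hα
  set β : R →ₗ[K] U' ⧸ B'.comap U'.subtype := (B'.comap U'.subtype).mkQ ∘ₗ
    (LinearMap.codRestrict U' (LinearMap.snd K V V' ∘ₗ R.subtype) fun x => (hmem x x.2).2) with hβ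
  have hαs : Function.Surjective α := by
    intro y
    obtain ⟨⟨v, hv⟩, rfl⟩ := Submodule.mkQ_surjective _ y
    obtain ⟨z, hz⟩ := left v hv
    exact ⟨⟨(v, z), hz⟩, rfl⟩
  have hβs : Function.Surjective β := by
    intro y
    obtain ⟨⟨z, hz⟩, rfl⟩ := Submodule.mkQ_surjective _ y
    obtain ⟨v, hv⟩ := right z hz
    exact ⟨⟨(v, z), hv⟩, rfl⟩
  have hker : LinearMap.ker α = LinearMap.ker β := by
    ext x
    rw [LinearMap.mem_ker, LinearMap.mem_ker, hα, hβ, LinearMap.comp_apply, LinearMap.comp_apply,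
      Submodule.mkQ_apply, Submodule.mkQ_apply, Submodule.Quotient.mk_eq_zero,
      Submodule.Quotient.mk_eq_zero]
    exact zero x x.2
  set e : (U ⧸ B.comap U.subtype) ≃ₗ[K] U' ⧸ B'.comap U'.subtype :=
    (LinearMap.quotKerEquivOfSurjective α hαs).symm ≪≫ₗ
      (Submodule.quotEquivOfEq _ _ hker ≪≫ₗ LinearMap.quotKerEquivOfSurjective β hβs) with he
  have he1 : ∀ x, e (α x) = β x := by
    intro x
    have h1 : (LinearMap.quotKerEquivOfSurjective α hαs).symm (α x) =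
        (LinearMap.ker α).mkQ x := by
      rw [LinearEquiv.symm_apply_eq]
      rfl
    rw [he, LinearEquiv.trans_apply, h1]
    rfl
  rw [← LinearMap.trace_conj' _ e]
  congr 1
  apply LinearMap.ext
  intro y
  obtain ⟨x, rfl⟩ := hβs y
  have h1 : e.symm (β x) = α x := by rw [← he1, LinearEquiv.symm_apply_apply]
  rw [LinearEquiv.conj_apply_apply, h1]
  have h2 : induced φ U B hU hB (α x) = α ⟨(φ x.1.1, g x.1.2), hφ x.1 x.2⟩ := rfl
  rw [h2, he1]
  rfl

omit [Module.Finite K V] in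
lemma trace_restrict_congr {U U' : Submodule K V} (h : U = U') {φ : End K V}
    (hU : ∀ x ∈ U, φ x ∈ U) (hU' : ∀ x ∈ U', φ x ∈ U') :
    LinearMap.trace K U (φ.restrict hU) = LinearMap.trace K U' (φ.restrict hU') := by
  subst h
  rfl

omit [Module.Finite K V] in
lemma trace_restrict_bot {U : Submodule K V} (h : U = ⊥) {φ : End K V}
    (hU : ∀ x ∈ U, φ x ∈ U) : LinearMap.trace K U (φ.restrict hU) = 0 := by
  have h1 : φ.restrict hU = 0 := by
    apply LinearMap.ext
    rintro ⟨x, hx⟩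
    apply Subtype.ext
    have hx' := hU x hx
    rw [h, Submodule.mem_bot] at hx'
    exact hx'
  rw [h1, map_zero]

end Rel

variable {k : Type u} [Field k] {𝒱 : VarClass k} {ops : CycleOps 𝒱}

section One

variable {W : WeilCohomology.{u, v} ops} {T : Strata 𝒱} {n : ℕ} {q : ℤ}
  {g : Module.End W.K (T.E1 W)} {V : Type*} [AddCommGroup V] [Module W.K V]
  [Module.Finite W.K V] {F : ℤ → Submodule W.K V} {R : ℤ → Submodule W.K (V × T.E1 W)}
  {N φ : Module.End W.K V}

omit [Module.Finite W.K V] in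
lemma IsLimitO.stable (h : IsLimitO W T n q g F R N φ) (b : ℤ) : ∀ v ∈ F b, φ v ∈ F b := by
  intro v hv
  obtain ⟨z, hz⟩ := h.left b v hv
  exact (h.mem b _ (h.map_φ b _ hz)).1

omit [Module.Finite W.K V] in
lemma IsLimitO.pow (h : IsLimitO W T n q g F R N φ) (m : ℕ) (b : ℤ) :
    ∀ x ∈ R b, ((φ ^ m) x.1, (g ^ m) x.2) ∈ R b := by
  induction m with
  | zero => exact fun x hx => hx
  | succ m ih =>
    intro x hx
    have h1 := h.map_φ b _ (ih x hx)
    rw [pow_succ', pow_succ']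
    exact h1

omit [Module.Finite W.K V] in
lemma IsLimitO.eq_bot (h : IsLimitO W T n q g F R N φ) (j : ℕ) : F (q - n - 1 - j) = ⊥ := by
  induction j with
  | zero =>
    have h1 := h.bot
    simpa using h1
  | succ j ih =>
    rw [eq_bot_iff, ← ih]
    have h1 := h.mono (q - n - 1 - j)
    rwa [show q - n - 1 - (j : ℤ) - 1 = q - n - 1 - ((j + 1 : ℕ) : ℤ) by push_cast; ring] at h1

omit [Module.Finite W.K V] in
/-- The images of `N`. -/
lemma IsLimitO.surj (h : IsLimitO W T n q g F R N φ)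
    (hN : ∀ a b, a + b = q → -1 ≤ a → ∀ y ∈ T.Z W (a + 2) (b - 2), ∃ x ∈ T.Z W a b,
      y - T.mono W x ∈ T.B W (a + 2) (b - 2)) (j : ℕ) :
    q - n - 1 + (j : ℤ) ≤ q - 1 → ∀ w ∈ F (q - n - 1 + j), ∃ v ∈ F (q - n - 1 + j + 2), N v = w := by
  induction j with
  | zero =>
    intro _ w hw
    rw [Nat.cast_zero, add_zero, h.bot, Submodule.mem_bot] at hw
    exact ⟨0, Submodule.zero_mem _, by rw [map_zero, hw]⟩
  | succ j ih =>
    intro hj w hw
    set c : ℤ := q - n - 1 + ((j + 1 : ℕ) : ℤ) with hc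
    have hc1 : q - n - 1 + (j : ℤ) = c - 1 := by rw [hc]; push_cast; ring
    obtain ⟨z, hz⟩ := h.left c w hw
    have hz1 := (h.mem c _ hz).2
    obtain ⟨x, hx, h1⟩ := hN (q - (c + 2)) (c + 2) (by ring) (by omega) z (by
      convert hz1 using 2 <;> ring)
    obtain ⟨v, hv⟩ := h.right (c + 2) x hx
    have h2 := h.map_N _ _ hv
    rw [show c + 2 - 2 = c by ring] at h2 h1
    have h3 := (R c).sub_mem hz h2
    have h4 : (w - N v) ∈ F (c - 1) := by
      refine (h.zero c _ h3).2 ?_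
      rw [show q - (c + 2) + 2 = q - c by ring] at h1
      exact h1
    rw [hc1] at ih
    obtain ⟨v', hv', h5⟩ := ih (by omega) _ h4
    refine ⟨v + v', Submodule.add_mem _ (h.mem _ _ hv).1 ?_, ?_⟩
    · have h6 := h.mono (c + 2)
      rw [show c + 2 - 1 = c - 1 + 2 by ring] at h6
      exact h6 hv'
    · rw [map_add, h5]
      abel

omit [Module.Finite W.K V] in
/-- Strictness. -/
lemma IsLimitO.strict (h : IsLimitO W T n q g F R N φ)
    (hN : ∀ a b, a + b = q → -1 ≤ a → ∀ y ∈ T.Z W (a + 2) (b - 2), ∃ x ∈ T.Z W a b,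
      y - T.mono W x ∈ T.B W (a + 2) (b - 2))
    (hN' : ∀ a b, a + b = q → a ≤ -1 → ∀ x ∈ T.Z' W a b, x ∈ T.B W a b) (b : ℤ) :
    ∀ z ∈ T.Z' W (q - b) b, ∃ v, N v = 0 ∧ (v, z) ∈ R b := by
  intro z hz
  obtain ⟨v, hv⟩ := h.right b z hz.1
  by_cases hb : q - b ≤ -1
  · have h1 := hN' (q - b) b (by ring) hb z hz
    exact ⟨0, map_zero N, h.full b 0 (Submodule.zero_mem _) z h1⟩
  · have h1 := h.map_N b _ hv
    have h2 : N v ∈ F (b - 2 - 1) := by
      refine (h.zero (b - 2) _ h1).2 ?_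
      have h3 : T.mono W z ∈ T.B W (q - b + 2) (b - 2) := hz.2
      rwa [show q - b + 2 = q - (b - 2) by ring] at h3
    have h3 : ∃ y ∈ F (b - 1), N y = N v := by
      by_cases hc : q - n - 1 ≤ b - 2 - 1
      · obtain ⟨j, hj⟩ := Int.eq_ofNat_of_zero_le (sub_nonneg.2 hc)
        have hj' : b - 2 - 1 = q - n - 1 + (j : ℤ) := by omega
        rw [hj'] at h2
        obtain ⟨y, hy, h4⟩ := h.surj hN j (by omega) _ h2
        refine ⟨y, ?_, h4⟩
        rwa [show q - n - 1 + (j : ℤ) + 2 = b - 1 by omega] at hy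
      · obtain ⟨j, hj⟩ := Int.eq_ofNat_of_zero_le (show 0 ≤ q - n - 1 - (b - 2 - 1) by omega)
        rw [show b - 2 - 1 = q - n - 1 - (j : ℤ) by omega, h.eq_bot, Submodule.mem_bot] at h2
        exact ⟨0, Submodule.zero_mem _, by rw [map_zero, h2]⟩
    obtain ⟨y, hy, h4⟩ := h3
    refine ⟨v - y, by rw [map_sub, h4, sub_self], ?_⟩
    have h5 := (R b).sub_mem hv (h.full b y hy 0 (Submodule.zero_mem _))
    simpa using h5

/-- The trace on a subspace which is compatible with the filtration. -/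
lemma IsLimitO.trace (h : IsLimitO W T n q g F R N φ) {U : Submodule W.K V}
    {Zb : ℤ → Submodule W.K (T.E1 W)} (hmem : ∀ b, ∀ x ∈ R b, x.1 ∈ U → x.2 ∈ Zb b)
    (hright : ∀ b, ∀ z ∈ Zb b, ∃ v ∈ U, (v, z) ∈ R b)
    (hBZ : ∀ b, T.B W (q - b) b ≤ Zb b) (m : ℕ) (hU' : ∀ x ∈ U, (φ ^ m) x ∈ U)
    (hZ' : ∀ b, ∀ x ∈ Zb b, (g ^ m) x ∈ Zb b)
    (hB' : ∀ b, ∀ x ∈ T.B W (q - b) b, (g ^ m) x ∈ T.B W (q - b) b) :
    LinearMap.trace W.K U ((φ ^ m).restrict hU') =
      ∑ t ∈ Finset.range (2 * n + 1), (LinearMap.trace W.K (Zb (q - n + t))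
        ((g ^ m).restrict (hZ' _)) - LinearMap.trace W.K (T.B W (q - (q - n + t)) (q - n + t))
          ((g ^ m).restrict (hB' _))) := by
  have hF : ∀ b, ∀ x ∈ U ⊓ F b, (φ ^ m) x ∈ U ⊓ F b := fun b x hx =>
    ⟨hU' x hx.1, Module.End.pow_apply_mem_of_forall_mem m (h.stable b) x hx.2⟩
  have key : ∀ b, LinearMap.trace W.K (U ⊓ F b : Submodule W.K V) ((φ ^ m).restrict (hF b)) -
      LinearMap.trace W.K (U ⊓ F (b - 1) : Submodule W.K V) ((φ ^ m).restrict (hF (b - 1))) =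
      LinearMap.trace W.K (Zb b) ((g ^ m).restrict (hZ' _)) -
        LinearMap.trace W.K (T.B W (q - b) b) ((g ^ m).restrict (hB' _)) := by
    intro b
    rw [← trace_induced _ (inf_le_inf_left U (h.mono b)), ← trace_induced _ (hBZ b)]
    refine trace_rel (R b ⊓ U.comap (LinearMap.fst W.K V (T.E1 W))) ?_ ?_ ?_ ?_ ?_ _ _ _ _
    · rintro x ⟨h1, h2⟩
      exact ⟨⟨h2, (h.mem b x h1).1⟩, hmem b x h1 h2⟩
    · rintro v ⟨h1, h2⟩
      obtain ⟨z, hz⟩ := h.left b v h2
      exact ⟨z, hz, h1⟩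
    · intro z hz
      obtain ⟨v, h1, h2⟩ := hright b z hz
      exact ⟨v, h2, h1⟩
    · rintro x ⟨h1, h2⟩
      constructor
      · rintro ⟨-, h3⟩
        exact (h.zero b x h1).1 h3
      · intro h3
        exact ⟨h2, (h.zero b x h1).2 h3⟩
    · rintro x ⟨h1, h2⟩
      exact ⟨h.pow m b x h1, hU' _ h2⟩
  have hsum : ∀ j : ℕ, LinearMap.trace W.K (U ⊓ F (q - n - 1 + j) : Submodule W.K V)
      ((φ ^ m).restrict (hF _)) = ∑ t ∈ Finset.range j, (LinearMap.trace W.K (Zb (q - n + t))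
        ((g ^ m).restrict (hZ' _)) - LinearMap.trace W.K (T.B W (q - (q - n + t)) (q - n + t))
          ((g ^ m).restrict (hB' _))) := by
    intro j
    induction j with
    | zero =>
      rw [Finset.sum_range_zero]
      apply trace_restrict_bot
      rw [Nat.cast_zero, add_zero, h.bot, inf_bot_eq]
    | succ j ih =>
      rw [Finset.sum_range_succ, ← ih, ← key (q - n + j)]
      have e1 := trace_restrict_congr (φ := φ ^ m) (show U ⊓ F (q - n - 1 + ((j + 1 : ℕ) : ℤ)) =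
        U ⊓ F (q - n + j) by congr 2; push_cast; ring) (hF _) (hF _)
      have e2 := trace_restrict_congr (φ := φ ^ m) (show U ⊓ F (q - n - 1 + (j : ℤ)) =
        U ⊓ F (q - n + j - 1) by congr 2; ring) (hF _) (hF _)
      rw [e1, e2]
      ring
  rw [← hsum]
  apply trace_restrict_congr
  rw [show q - n - 1 + ((2 * n + 1 : ℕ) : ℤ) = q + n by push_cast; ring, h.top, inf_top_eq]

end One

variable {ι : Type} {W : ι → WeilCohomology.{u, v} ops} {T : Strata 𝒱} {n : ℕ} {q : ℤ}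
  {g : ∀ i, Module.End (W i).K (T.E1 (W i))} {V : ι → Type*} [∀ i, AddCommGroup (V i)]
  [∀ i, Module (W i).K (V i)] [∀ i, Module.Finite (W i).K (V i)]
  {F : ∀ i, ℤ → Submodule (W i).K (V i)} {R : ∀ i, ℤ → Submodule (W i).K (V i × T.E1 (W i))}
  {N φ : ∀ i, Module.End (W i).K (V i)}

/-- The characteristic polynomial on a family of subspaces of the limits. -/
theorem limit_charpoly (hs : AllSplit W T q) (hg : IsActionO W T g)
    (h : ∀ i, IsLimitO (W i) T n q (g i) (F i) (R i) (N i) (φ i))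
    {U : ∀ i, Submodule (W i).K (V i)} {Zb : ∀ i, ℤ → Submodule (W i).K (T.E1 (W i))}
    (hZs : ∀ b, Split (MatSys W (fun p : T.Copy => T.Y p.1)) fun i => Zb i b)
    (hmem : ∀ i b, ∀ x ∈ R i b, x.1 ∈ U i → x.2 ∈ Zb i b)
    (hright : ∀ i b, ∀ z ∈ Zb i b, ∃ v ∈ U i, (v, z) ∈ R i b) (hU : ∀ i, ∀ x ∈ U i, φ i x ∈ U i)
    (hZ : ∀ i b, ∀ x ∈ Zb i b, g i x ∈ Zb i b) (hBZ : ∀ i b, T.B (W i) (q - b) b ≤ Zb i b) :
    ∃ P : ℚ[X], ∀ i, ((φ i).restrict (hU i)).charpoly = P.map (algebraMap ℚ (W i).K) := by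
  refine Newt.exists_charpoly (fun i => (φ i).restrict (hU i)) fun m => ?_
  have e0 : ∀ i, ∀ x ∈ U i, (φ i ^ m) x ∈ U i := fun i x hx =>
    Module.End.pow_apply_mem_of_forall_mem m (hU i) x hx
  have e1 : ∀ i b, ∀ x ∈ Zb i b, (g i ^ m) x ∈ Zb i b := fun i b x hx =>
    Module.End.pow_apply_mem_of_forall_mem m (hZ i b) x hx
  have e2 : ∀ i b, ∀ x ∈ T.B (W i) (q - b) b, (g i ^ m) x ∈ T.B (W i) (q - b) b := fun i b x hx =>
    Module.End.pow_apply_mem_of_forall_mem m (action_B hg i _ b) x hx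
  choose τ hτ using fun b => (hZs b).trace hs.sys (hs.sys.pow (action_mem hg) m)
  choose τ' hτ' using fun b => (hs.B (q - b) b).trace hs.sys (hs.sys.pow (action_mem hg) m)
  refine ⟨∑ t ∈ Finset.range (2 * n + 1), (τ (q - n + t) - τ' (q - n + t)), fun i => ?_⟩
  have h1 := (h i).trace (hmem i) (hright i) (hBZ i) m (e0 i) (e1 i) (e2 i)
  have h2 : (φ i).restrict (hU i) ^ m = (φ i ^ m).restrict (e0 i) :=
    Module.End.pow_restrict m (hU i) (e0 i)
  rw [h2, h1]
  push_cast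
  refine Finset.sum_congr rfl fun t _ => ?_
  rw [hτ _ i (e1 i _), hτ' _ i (e2 i _)]

/-- **The characteristic polynomials on the limit and on the kernel of `N`.** -/
theorem limit_main (hT : IsSemistableO W T n) {l : ι}
    (hD : ∀ s t, HomEqNum (W l) ((T.Y s).prod (T.Y t))) (hg : IsActionO W T g)
    (h : ∀ i, IsLimitO (W i) T n q (g i) (F i) (R i) (N i) (φ i)) :
    (∃ P : ℚ[X], ∀ i, (φ i).charpoly = P.map (algebraMap ℚ (W i).K)) ∧
      (T.MonodromyWeight (W l) q → ∃ P : ℚ[X], ∀ i,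
        ∃ hU : ∀ x ∈ LinearMap.ker (N i), φ i x ∈ LinearMap.ker (N i),
          ((φ i).restrict hU).charpoly = P.map (algebraMap ℚ (W i).K)) := by
  have hs := allSplit hT hD q
  constructor
  · obtain ⟨P, hP⟩ := limit_charpoly hs hg h (U := fun _ => ⊤)
      (Zb := fun i b => T.Z (W i) (q - b) b) (fun b => hs.Z (q - b) b)
      (fun i b x hx _ => ((h i).mem b x hx).2)
      (fun i b z hz => by
        obtain ⟨v, hv⟩ := (h i).right b z hz
        exact ⟨v, Submodule.mem_top, hv⟩)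
      (fun i x _ => Submodule.mem_top) (fun i b => action_Z hg i _ b)
      (fun i b => hs.B_le_Z i _ b)
    refine ⟨P, fun i => ?_⟩
    rw [← hP i]
    have h1 : (φ i) = ((Submodule.topEquiv : (⊤ : Submodule (W i).K (V i)) ≃ₗ[(W i).K] V i).conj
        ((φ i).restrict (p := ⊤) (q := ⊤) fun x _ => Submodule.mem_top)) := by
      apply LinearMap.ext
      intro x
      rw [LinearEquiv.conj_apply_apply]
      rfl
    conv_lhs => rw [h1, LinearEquiv.charpoly_conj]
  · intro hq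
    obtain ⟨hq', hU⟩ := hs.mw l hD hq
    have hcomm : ∀ i, ∀ x ∈ LinearMap.ker (N i), φ i x ∈ LinearMap.ker (N i) := by
      intro i x hx
      obtain ⟨c, hc⟩ := (h i).comm
      rw [LinearMap.mem_ker] at hx ⊢
      have h1 := congrArg (fun G => G x) hc
      change N i (φ i x) = c • φ i (N i x) at h1
      rw [h1, hx, map_zero, smul_zero]
    obtain ⟨P, hP⟩ := limit_charpoly hs hg h (U := fun i => LinearMap.ker (N i))
      (Zb := fun i b => T.Z' (W i) (q - b) b) (fun b => hU (q - b) b (by ring))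
      (fun i b x hx h1 => by
        refine ⟨((h i).mem b x hx).2, ?_⟩
        have h2 := (h i).map_N b x hx
        have h3 := ((h i).zero (b - 2) _ h2).1 (by
          rw [LinearMap.mem_ker] at h1
          rw [h1]
          exact Submodule.zero_mem _)
        change T.mono (W i) x.2 ∈ T.B (W i) (q - b + 2) (b - 2)
        rwa [show q - b + 2 = q - (b - 2) by ring])
      (fun i b z hz => by
        have hb := isBigraded hT i
        have hmw := (monodromyWeight_iff hT i q).1 (hq' i)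
        obtain ⟨v, h1, h2⟩ := (h i).strict (fun a b hab ha => by
          subst hab
          rw [Z_eq, Z_eq, B_eq hT]
          exact N_surj hb hmw ha) (fun a b hab ha x hx => by
          subst hab
          rw [Z'_eq hT, Uc_eq_B hb hmw ha] at hx
          rw [B_eq hT]
          exact hx) b z hz
        exact ⟨v, h1, h2⟩)
      hcomm (fun i b => action_Z' hg i _ b) (fun i b => B_le_Z' hT i _ b)
    exact ⟨P, fun i => ⟨hcomm i, hP i⟩⟩

end Pool.Agent.K9h28.Il
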