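import Pool.Agent.K9h28.IlI

/-!
# The main theorem in the form of the definitions of `IlStm`
-/

set_option autoImplicit false

open CategoryTheory AlgebraicGeometry Module Polynomial

universe u v

namespace Pool.Agent.K9h28.Il

open Pool.Agent.H914 Pool.Agent.H914.VarClass Pool.Agent.H914.VarClass.Obj
  Pool.Agent.H914.WeilCohomology

variable {k : Type u} [Field k] {𝒱 : VarClass k} {ops : CycleOps 𝒱}

section One

variable {W : WeilCohomology.{u, v} ops} {T : Strata 𝒱}

lemma cx_Z (a b : ℤ) : (T.cx W).Z a b = T.Z W a b := rfl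

lemma cx_B (a b : ℤ) : (T.cx W).B a b = T.B W a b := rfl

lemma cx_MW (q : ℤ) : (T.cx W).MonodromyWeight q ↔ T.MonodromyWeight W q := Iff.rfl

end One

variable {ι : Type} {W : ι → WeilCohomology.{u, v} ops} {T : Strata 𝒱} {n : ℕ}

lemma IsSemistable.old (h : IsSemistable W T n) : IsSemistableO W T n where
  dim_add := h.dim_add
  rk_eq := h.rk_eq
  kunneth := h.kunneth
  diff_sq := h.diff_sq
  betti := h.betti

lemma IsAction.old {g : ∀ i, Module.End (W i).K (T.cx (W i)).V} (h : IsAction W T g) :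
    IsActionO W T g where
  algebraic := h.algebraic
  comm i := (h.comm i).comm
  piece i := (h.comm i).piece
  mono i := (h.comm i).mono

/-- The relations as subspaces. -/
def relSub {V : WeilCohomology.{u, v} ops} {q : ℤ} (L : Limit (T.cx V)) (h : L.IsGraded q) (b : ℤ) :
    Submodule V.K (L.V × T.E1 V) where
  carrier := {x | L.R b x.1 x.2}
  add_mem' := fun {x y} hx hy => h.add b x.1 x.2 y.1 y.2 hx hy
  zero_mem' := h.full b 0 (Submodule.zero_mem _) 0 (Submodule.zero_mem _)
  smul_mem' := fun c x hx => h.smul b x.1 x.2 c hx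

lemma Limit.IsLimit.old {V : WeilCohomology.{u, v} ops} {q : ℤ} {L : Limit (T.cx V)}
    {g : Module.End V.K (T.cx V).V} (h : L.IsLimit n q g) :
    IsLimitO V T n q g L.F (relSub L h.graded) L.N L.φ where
  bot := h.filtered.bot
  top := h.filtered.top
  mono := h.filtered.mono
  mem b x hx := h.graded.mem b x.1 x.2 hx
  left b v hv := h.graded.left b v hv
  right b z hz := h.graded.right b z hz
  zero b x hx := h.graded.zero b x.1 x.2 hx
  full b v hv z hz := h.graded.full b v hv z hz
  map_N b x hx := h.map_N b x.1 x.2 hx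
  map_φ b x hx := h.map_φ b x.1 x.2 hx
  comm := h.comm

/-- The main theorem. -/
theorem new_main (hT : IsSemistable W T n) {l : ι}
    (hD : ∀ s t, ConjectureD (W l) ((T.Y s).prod (T.Y t)))
    {g : ∀ i, Module.End (W i).K (T.cx (W i)).V} (hg : IsAction W T g) :
    (∀ a b, ∃ P : ℚ[X], ∀ i, (T.cx (W i)).CharpolyOnE2 (g i) a b P) ∧
    ∀ q (L : ∀ i, Limit (T.cx (W i))), (∀ i, (L i).IsLimit n q (g i)) →
      (∃ P : ℚ[X], ∀ i, (L i).CharpolyOnV P) ∧
      ((T.cx (W l)).MonodromyWeight q → ∃ P : ℚ[X], ∀ i, (L i).CharpolyOnKer P) := by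
  have hg' := hg.old
  refine ⟨fun a b => ?_, fun q L h => ?_⟩
  · have hs := allSplit hT.old hD (a + b)
    obtain ⟨P, hP⟩ := exists_hasCharpoly hs.sys (hs.Z a b) (hs.B a b) (fun i => hs.B_le_Z i a b)
      (action_mem hg') (fun i => action_Z hg' i a b) fun i => action_B hg' i a b
    exact ⟨P, fun i => hP i⟩
  · obtain ⟨⟨P, hP⟩, h2⟩ := limit_main (V := fun i => (L i).V) hT.old hD hg' fun i => (h i).old
    refine ⟨⟨P, fun i => ⟨fun _ _ => Submodule.mem_top, ?_⟩⟩, fun hq => ?_⟩
    · rw [← hP i]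
      have h1 : (L i).φ = ((Submodule.topEquiv :
          (⊤ : Submodule (W i).K (L i).V) ≃ₗ[(W i).K] (L i).V).conj
          ((L i).φ.restrict (p := ⊤) (q := ⊤) fun x _ => Submodule.mem_top)) := by
        apply LinearMap.ext
        intro x
        rw [LinearEquiv.conj_apply_apply]
        rfl
      conv_rhs => rw [h1, LinearEquiv.charpoly_conj]
    · obtain ⟨P', hP'⟩ := h2 hq
      exact ⟨P', fun i => hP' i⟩

/-- The monodromy-weight property is transferred. -/
theorem new_transfer (hT : IsSemistable W T n) {l : ι}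
    (hD : ∀ s t, ConjectureD (W l) ((T.Y s).prod (T.Y t))) {q : ℤ}
    (hq : (T.cx (W l)).MonodromyWeight q) (i : ι) : (T.cx (W i)).MonodromyWeight q :=
  ((allSplit hT.old hD q).mw l hD hq).1 i

end Pool.Agent.K9h28.Il
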