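import Pool.Agent.K9h28.IlStmB
import Pool.Agent.K9h28.IlJ

/-!
# The transfer degree by degree
-/

set_option autoImplicit false

open CategoryTheory AlgebraicGeometry Module Polynomial

universe u v

namespace Pool.Agent.K9h28.Il

open Pool.Agent.H914 Pool.Agent.H914.VarClass Pool.Agent.H914.VarClass.Obj
  Pool.Agent.H914.WeilCohomology

section Single

variable {K : Type*} [Field K] {V : Type*} [AddCommGroup V] [Module K V]
  {d N : End K V} {P : ℤ → ℤ → End K V}

lemma Zc_eq' (h : IsBigraded d N P) (a b : ℤ) :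
    Zc d P a b = LinearMap.ker (d * P a b) ⊓ LinearMap.range (P a b) := by
  apply le_antisymm
  · rintro x ⟨h1, h2⟩
    refine ⟨?_, h2⟩
    change d (P a b x) = 0
    rw [idem_apply (h.idem a b) h2]
    exact h1
  · rintro x ⟨h1, h2⟩
    refine ⟨?_, h2⟩
    change d (P a b x) = 0 at h1
    rw [idem_apply (h.idem a b) h2] at h1
    exact h1

lemma Bc_eq' (h : IsBigraded d N P) (a b : ℤ) :
    Bc d P a b = LinearMap.range (d * P (a - 1) b) := by
  have h0 : ∀ x, d (P (a - 1) b x) = P a b (d x) := by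
    intro x
    have h1 := congrArg (fun F => F x) (h.dP (a - 1) b)
    rw [sub_add_cancel] at h1
    exact h1
  apply le_antisymm
  · rintro _ ⟨⟨x, rfl⟩, h2⟩
    refine ⟨x, ?_⟩
    change d (P (a - 1) b x) = d x
    rw [h0, idem_apply (h.idem a b) h2]
  · rintro _ ⟨x, rfl⟩
    refine ⟨⟨_, rfl⟩, d x, (h0 x).symm⟩

lemma finrank_Zc [Module.Finite K V] (h : IsBigraded d N P) (a b : ℤ) :
    finrank K (Zc d P a b) + finrank K (LinearMap.range (d * P a b)) =
      finrank K (LinearMap.range (P a b)) := by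
  have h1 := LinearMap.finrank_range_add_finrank_ker (d.domRestrict (LinearMap.range (P a b)))
  rw [LinearMap.range_domRestrict] at h1
  have h2 : (LinearMap.range (P a b)).map d = LinearMap.range (d * P a b) := by
    ext y
    constructor
    · rintro ⟨_, ⟨x, rfl⟩, rfl⟩
      exact ⟨x, rfl⟩
    · rintro ⟨x, rfl⟩
      exact ⟨_, ⟨x, rfl⟩, rfl⟩
  have h3 : finrank K (LinearMap.ker (d.domRestrict (LinearMap.range (P a b)))) =
      finrank K (Zc d P a b) := by
    have h4 : LinearMap.ker (d.domRestrict (LinearMap.range (P a b))) =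
        (Zc d P a b).comap (LinearMap.range (P a b)).subtype := by
      ext x
      constructor
      · intro h5
        exact ⟨h5, x.2⟩
      · intro h5
        exact h5.1
    rw [h4]
    exact (Submodule.comapSubtypeEquivOfLe inf_le_right).finrank_eq
  rw [h2, h3] at h1
  omega

end Single

section Family

variable {ι : Type*} {K : ι → Type*} [∀ i, Field (K i)] [∀ i, CharZero (K i)] {V : ι → Type*}
  [∀ i, AddCommGroup (V i)] [∀ i, Module (K i) (V i)] [∀ i, Module.Finite (K i) (V i)]
  {A : Set (∀ i, End (K i) (V i))} {d N : ∀ i, End (K i) (V i)}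
  {P : ℤ → ℤ → ∀ i, End (K i) (V i)}
  (hA : IsSystem A) {l : ι} (hl : NonDeg A l) (hd : d ∈ A) (hN : N ∈ A)
  (hP : ∀ a b, P a b ∈ A) (hB : ∀ i, IsBigraded (d i) (N i) (fun a b => P a b i))

include hA hl hd hP

lemma rank_dP (a b : ℤ) (i : ι) : finrank (K l) (LinearMap.range (d l * P a b l)) ≤
    finrank (K i) (LinearMap.range (d i * P a b i)) := hA.rank_le hl (hA.mul hd (hP a b)) i

include hB

lemma split_Z' (a b : ℤ) (hr : ∀ i, finrank (K i) (LinearMap.range (d i * P a b i)) ≤
      finrank (K l) (LinearMap.range (d l * P a b l))) :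
    Split A fun i => Zc (d i) (fun a b => P a b i) a b := by
  have h1 := (hA.split_ker hl (hA.mul hd (hP a b)) hr).inf_range hA (hP a b)
    (fun i => (hB i).idem a b) (fun i x hx => by
      change d i (P a b i (P a b i x)) = 0
      change d i (P a b i x) = 0 at hx
      have h2 := congrArg (fun F => F x) ((hB i).idem a b)
      change P a b i (P a b i x) = P a b i x at h2
      rw [h2, hx])
  refine (congrArg _ (funext fun i => ?_)).mpr h1
  exact Zc_eq' (hB i) a b

lemma split_B' (a b : ℤ) (hr : ∀ i, finrank (K i) (LinearMap.range (d i * P (a - 1) b i)) ≤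
      finrank (K l) (LinearMap.range (d l * P (a - 1) b l))) :
    Split A fun i => Bc (d i) (fun a b => P a b i) a b := by
  have h1 := hA.split_range hl (hA.mul hd (hP (a - 1) b)) hr
  refine (congrArg _ (funext fun i => ?_)).mpr h1
  exact Bc_eq' (hB i) a b

/-- The dimension of `E_2^{a,b}` is largest at the good index. -/
lemma dim_le (a b : ℤ) (i : ι) :
    finrank (K i) (Zc (d i) (fun a b => P a b i) a b) -
      finrank (K i) (Bc (d i) (fun a b => P a b i) a b) ≤
    finrank (K l) (Zc (d l) (fun a b => P a b l) a b) -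
      finrank (K l) (Bc (d l) (fun a b => P a b l) a b) := by
  have h1 := finrank_Zc (hB i) a b
  have h2 := finrank_Zc (hB l) a b
  have h3 := rank_dP hA hl hd hP a b i
  have h4 := rank_dP hA hl hd hP (a - 1) b i
  have h5 := hA.rank_idem (hP a b) (fun i => (hB i).idem a b) i l
  rw [Bc_eq' (hB i), Bc_eq' (hB l)]
  omega

/-- If the dimensions are equal then the ranks are equal. -/
lemma rank_of_dim (a b : ℤ) (i : ι)
    (h : finrank (K i) (Zc (d i) (fun a b => P a b i) a b) -
      finrank (K i) (Bc (d i) (fun a b => P a b i) a b) =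
    finrank (K l) (Zc (d l) (fun a b => P a b l) a b) -
      finrank (K l) (Bc (d l) (fun a b => P a b l) a b)) :
    finrank (K i) (LinearMap.range (d i * P a b i)) ≤
      finrank (K l) (LinearMap.range (d l * P a b l)) ∧
    finrank (K i) (LinearMap.range (d i * P (a - 1) b i)) ≤
      finrank (K l) (LinearMap.range (d l * P (a - 1) b l)) := by
  have h1 := finrank_Zc (hB i) a b
  have h2 := finrank_Zc (hB l) a b
  have h3 := rank_dP hA hl hd hP a b i
  have h4 := rank_dP hA hl hd hP (a - 1) b i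
  have h5 := hA.rank_idem (hP a b) (fun i => (hB i).idem a b) i l
  rw [Bc_eq' (hB i), Bc_eq' (hB l)] at h
  have h6 : finrank (K i) (Bc (d i) (fun a b => P a b i) a b) ≤
      finrank (K i) (Zc (d i) (fun a b => P a b i) a b) := Submodule.finrank_mono (Bc_le (hB i) a b)
  have h7 : finrank (K l) (Bc (d l) (fun a b => P a b l) a b) ≤
      finrank (K l) (Zc (d l) (fun a b => P a b l) a b) := Submodule.finrank_mono (Bc_le (hB l) a b)
  rw [Bc_eq' (hB i)] at h6
  rw [Bc_eq' (hB l)] at h7
  beta_reduce at h1 h2 h6 h7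
  omega

include hN

/-- The transfer in one degree. -/
theorem transfer_degree {q : ℤ} (hr : ∀ i a b, a + b = q →
      finrank (K i) (LinearMap.range (d i * P a b i)) ≤
        finrank (K l) (LinearMap.range (d l * P a b l)) ∧
      finrank (K i) (LinearMap.range (d i * P (a - 1) b i)) ≤
        finrank (K l) (LinearMap.range (d l * P (a - 1) b l)))
    (h : IsMonodromyWeight (d l) (N l) (fun a b => P a b l) q) (i : ι) :
    IsMonodromyWeight (d i) (N i) (fun a b => P a b i) q := by
  intro m hm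
  refine isIso_transfer hA hl (U := fun i => Zc (d i) (fun a b => P a b i) (-m) (q + m))
    (B := fun i => Bc (d i) (fun a b => P a b i) (-m) (q + m))
    (U' := fun i => Zc (d i) (fun a b => P a b i) m (q - m))
    (B' := fun i => Bc (d i) (fun a b => P a b i) m (q - m)) (f := fun i => N i ^ m)
    (split_Z' hA hl hd hP hB _ _ fun i => (hr i _ _ (by ring)).1)
    (split_B' hA hl hd hP hB _ _ fun i => (hr i _ _ (by ring)).2)
    (split_Z' hA hl hd hP hB _ _ fun i => (hr i _ _ (by ring)).1)
    (split_B' hA hl hd hP hB _ _ fun i => (hr i _ _ (by ring)).2)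
    (fun i => Bc_le (hB i) _ _) (fun i => Bc_le (hB i) _ _) (hA.pow hN m) (fun i x hx => ?_)
    (fun i x hx => ?_) (h m hm) i
  · have h1 := Npow_mem_Z (hB i) m hx
    convert h1 using 2 <;> ring
  · have h1 := Npow_mem_B (hB i) m hx
    convert h1 using 2 <;> ring

end Family

variable {k : Type u} [Field k] {𝒱 : VarClass k} {ops : CycleOps 𝒱} {ι : Type}
  {W : ι → WeilCohomology.{u, v} ops} {T : Strata 𝒱} {n : ℕ}

lemma IsSNCL.bigraded (hT : IsSNCL W T n) (i : ι) :
    IsBigraded (T.diff (W i)) (T.mono (W i)) (fun a b => PP (W i) T a b) where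
  d_sq := hT.diff_sq i
  comm := LinearMap.ext fun x => mono_diff hT.rk_eq x
  idem a b := LinearMap.ext fun x => PP_same (PP_mem a b x)
  dP a b := LinearMap.ext fun x => diff_PP hT.dim_add hT.rk_eq a b x
  NP a b := LinearMap.ext fun x => mono_PP a b x

lemma IsSNCL.B_eq (hT : IsSNCL W T n) (i : ι) (a b : ℤ) : T.B (W i) a b =
    Bc (T.diff (W i)) (fun a b => PP (W i) T a b) a b := by
  rw [Strata.B, Bc_eq' (hT.bigraded i)]
  apply le_antisymm
  · rintro _ ⟨x, hx, rfl⟩
    refine ⟨x, ?_⟩
    change T.diff (W i) (PP (W i) T (a - 1) b x) = T.diff (W i) x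
    rw [PP_same hx]
  · rintro _ ⟨x, rfl⟩
    exact ⟨PP (W i) T (a - 1) b x, PP_mem _ _ x, rfl⟩

lemma IsSNCL.dim_eq (hT : IsSNCL W T n) (i : ι) (a b : ℤ) : (T.cx (W i)).dimE2 a b =
    finrank (W i).K (Zc (T.diff (W i)) (fun a b => PP (W i) T a b) a b) -
      finrank (W i).K (Bc (T.diff (W i)) (fun a b => PP (W i) T a b) a b) := by
  rw [← hT.B_eq, ← Z_eq]
  rfl

lemma IsSNCL.mw_iff (hT : IsSNCL W T n) (i : ι) (q : ℤ) :
    (T.cx (W i)).MonodromyWeight q ↔
      IsMonodromyWeight (T.diff (W i)) (T.mono (W i)) (fun a b => PP (W i) T a b) q := by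
  rw [cx_MW]
  unfold Strata.MonodromyWeight IsMonodromyWeight
  simp only [Z_eq, hT.B_eq]

lemma IsSNCL.comp (hT : IsSNCL W T n) {κ : Type} (f : κ → ι) : IsSNCL (fun j => W (f j)) T n where
  dim_add := hT.dim_add
  rk_eq := hT.rk_eq
  kunneth s j := by
    obtain ⟨z, hz, h⟩ := hT.kunneth s j
    exact ⟨z, hz, fun i => h (f i)⟩
  diff_sq i := hT.diff_sq (f i)

/-- The dimension of `E_2^{a,b}` is largest for the good theory. -/
theorem sncl_dim_le (hT : IsSNCL W T n) {l : ι}
    (hD : ∀ s t, ConjectureD (W l) ((T.Y s).prod (T.Y t))) (a b : ℤ) (i : ι) :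
    (T.cx (W i)).dimE2 a b ≤ (T.cx (W l)).dimE2 a b := by
  have hA := isSystem_mat (W := W) (X := fun p : T.Copy => T.Y p.1) fun p => hT.kunneth p.1
  have hl := nonDeg_mat (W := W) (X := fun p : T.Copy => T.Y p.1) (fun p => hT.kunneth p.1)
    (l := l) fun p q => hD p.1 q.1
  rw [hT.dim_eq, hT.dim_eq]
  exact dim_le (P := fun a b i => PP (W i) T a b) hA hl (diff_mem (W := W) (T := T))
    (fun a b => PP_mem_sys (W := W) (T := T) hT.kunneth a b) hT.bigraded a b i

/-- The transfer if the dimensions are equal for all the theories. -/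
theorem sncl_transfer_all (hT : IsSNCL W T n) {l : ι}
    (hD : ∀ s t, ConjectureD (W l) ((T.Y s).prod (T.Y t))) {q : ℤ}
    (hr : ∀ i a b, a + b = q → (T.cx (W i)).dimE2 a b = (T.cx (W l)).dimE2 a b)
    (h : (T.cx (W l)).MonodromyWeight q) (i : ι) : (T.cx (W i)).MonodromyWeight q := by
  have hA := isSystem_mat (W := W) (X := fun p : T.Copy => T.Y p.1) fun p => hT.kunneth p.1
  have hl := nonDeg_mat (W := W) (X := fun p : T.Copy => T.Y p.1) (fun p => hT.kunneth p.1)
    (l := l) fun p q => hD p.1 q.1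
  rw [hT.mw_iff] at h ⊢
  refine transfer_degree (P := fun a b i => PP (W i) T a b) hA hl (diff_mem (W := W) (T := T))
    (mono_mem (W := W) (T := T)) (fun a b => PP_mem_sys (W := W) (T := T) hT.kunneth a b)
    hT.bigraded (fun i a b hab => ?_) h i
  have h1 := hr i a b hab
  rw [hT.dim_eq, hT.dim_eq] at h1
  exact rank_of_dim (P := fun a b i => PP (W i) T a b) hA hl (diff_mem (W := W) (T := T))
    (fun a b => PP_mem_sys (W := W) (T := T) hT.kunneth a b) hT.bigraded a b i h1

/-- The pieces vanish outside of the range. -/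
lemma dimE2_eq_zero (hT : IsSNCL W T n) (i : ι) {a : ℤ} (ha : a ∉ Finset.Icc (-(n : ℤ)) n)
    (b : ℤ) : (T.cx (W i)).dimE2 a b = 0 := by
  have h1 : T.piece (W i) a b = ⊥ := by
    rw [eq_bot_iff]
    intro x hx
    rw [Strata.piece, Submodule.mem_pi] at hx
    rw [Submodule.mem_bot]
    funext p
    have h2 := hx p (Set.mem_univ p)
    have h3 : ¬ 2 * (p.2.1 : ℤ) - T.rk p.1 = a := by
      intro h4
      apply ha
      have h5 := hT.dim_add p.1
      have h6 := p.2.2
      rw [Finset.mem_Icc]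
      omega
    rw [if_neg h3] at h2
    exact (Submodule.mem_bot _).1 h2
  have h2 : (T.cx (W i)).Z a b = ⊥ := by
    rw [cx_Z, Strata.Z, h1]
    exact inf_bot_eq _
  rw [Cx.dimE2, h2, finrank_bot, Nat.zero_sub]

/-- **The transfer.** -/
theorem sncl_main (hT : IsSNCL W T n) {l : ι}
    (hD : ∀ s t, ConjectureD (W l) ((T.Y s).prod (T.Y t))) (i : ι) :
    (∀ a b, (T.cx (W i)).dimE2 a b ≤ (T.cx (W l)).dimE2 a b) ∧
    ∀ q, (T.cx (W i)).betti n q = (T.cx (W l)).betti n q →
      (∀ a b, a + b = q → (T.cx (W i)).dimE2 a b = (T.cx (W l)).dimE2 a b) ∧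
      ((T.cx (W l)).MonodromyWeight q → (T.cx (W i)).MonodromyWeight q) := by
  refine ⟨fun a b => sncl_dim_le hT hD a b i, fun q hq => ?_⟩
  have key : ∀ a b, a + b = q → (T.cx (W i)).dimE2 a b = (T.cx (W l)).dimE2 a b := by
    rintro a b rfl
    by_cases ha : a ∈ Finset.Icc (-(n : ℤ)) n
    · have h1 := (Finset.sum_eq_sum_iff_of_le (s := Finset.Icc (-(n : ℤ)) n)
        (f := fun a' => (T.cx (W i)).dimE2 a' (a + b - a'))
        (g := fun a' => (T.cx (W l)).dimE2 a' (a + b - a'))
        (fun a' _ => sncl_dim_le hT hD _ _ i)).1 hq a ha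
      beta_reduce at h1
      rwa [add_sub_cancel_left] at h1
    · rw [dimE2_eq_zero hT i ha, dimE2_eq_zero hT l ha]
  refine ⟨key, fun h => ?_⟩
  -- the family of the two theories
  have h1 := sncl_transfer_all (hT.comp (fun c : Bool => cond c i l)) (l := false) hD (q := q)
    (fun c a b hab => by
      cases c
      · rfl
      · exact key a b hab) h true
  exact h1

end Pool.Agent.K9h28.Il
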