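import Pool.Agent.H914R2.CorrDefs

/-!
# The weight spectral sequence of a strictly semistable scheme, for many cohomology theories
-/

set_option autoImplicit false

open CategoryTheory AlgebraicGeometry Polynomial

universe u v

namespace Pool.Agent.K9h28.Il

open Pool.Agent.H914 Pool.Agent.H914.VarClass Pool.Agent.H914.VarClass.Obj
  Pool.Agent.H914.WeilCohomology

section Linear

variable {K : Type*} [Field K] {V : Type*} [AddCommGroup V] [Module K V]

/-- The endomorphism of `U / B` which is induced by the endomorphism `g`. -/
noncomputable def induced (g : Module.End K V) (U B : Submodule K V) (hU : ∀ x ∈ U, g x ∈ U)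
    (hB : ∀ x ∈ B, g x ∈ B) : Module.End K (U ⧸ B.comap U.subtype) :=
  Submodule.mapQ _ _ (g.restrict hU) fun x hx => hB x hx

/-- The endomorphism `g` preserves the subspaces `U` and `B` (with `B ≤ U` in all the applications),
and the characteristic polynomial of the endomorphism of `U / B` induced by `g` is the polynomial
`P` with rational coefficients. -/
def HasCharpoly [Module.Finite K V] [CharZero K] (g : Module.End K V) (U B : Submodule K V)
    (P : ℚ[X]) : Prop :=
  ∃ (hU : ∀ x ∈ U, g x ∈ U) (hB : ∀ x ∈ B, g x ∈ B),
    (induced g U B hU hB).charpoly = P.map (algebraMap ℚ K)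

/-- The endomorphism `g` preserves the subspace `U`, and its characteristic polynomial on `U` is the
polynomial `P` with rational coefficients. -/
def HasCharpolyOn [Module.Finite K V] [CharZero K] (g : Module.End K V) (U : Submodule K V)
    (P : ℚ[X]) : Prop :=
  ∃ hU : ∀ x ∈ U, g x ∈ U, (g.restrict hU).charpoly = P.map (algebraMap ℚ K)

/-- The endomorphism `f` induces an isomorphism `U / B → U' / B'`. -/
def IsIsoAt (f : Module.End K V) (U B U' B' : Submodule K V) : Prop :=
  (∀ x ∈ U, f x ∈ B' → x ∈ B) ∧ ∀ y ∈ U', ∃ x ∈ U, y - f x ∈ B'

variable {V' : Type*} [AddCommGroup V'] [Module K V']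

/-- The product of a linear map and an integer. -/
noncomputable def signed (m : ℤ) (F : V →ₗ[K] V') : V →ₗ[K] V' := (m : K) • F

/-- The linear map `F` if the condition `c` is satisfied, and the zero map otherwise. -/
noncomputable def onlyIf (c : Prop) [Decidable c] (F : c → (V →ₗ[K] V')) : V →ₗ[K] V' :=
  if h : c then F h else 0

/-- The sum of two linear maps. -/
noncomputable def plus (F G : V →ₗ[K] V') : V →ₗ[K] V' := F + G

/-- The graded pieces of `V`, indexed by the integers. -/
def degree (gr : ℕ → Submodule K V) (i : ℤ) : Submodule K V := if 0 ≤ i then gr i.toNat else ⊥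

/-- The endomorphism `F` is the projector onto the graded piece `gr j`. -/
def IsProj (gr : ℕ → Submodule K V) (j : ℕ) (F : V →ₗ[K] V) : Prop :=
  ∀ l, ∀ x ∈ gr l, F x = if l = j then x else 0

/-- The endomorphism of a direct sum with the given entries. -/
noncomputable def matrixOp {J : Type} [Fintype J] {M : J → Type*} [∀ p, AddCommGroup (M p)]
    [∀ p, Module K (M p)] (A : ∀ p q, M q →ₗ[K] M p) : Module.End K (∀ p, M p) :=
  LinearMap.pi fun p => ∑ q, A p q ∘ₗ LinearMap.proj q

end Linear

section Complex

variable (K : Type v) [Field K]

/-- A complex of finite-dimensional vector spaces with a bigrading (given by the subspaces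
`piece a b`) and a monodromy operator `N`. -/
structure Cx where
  /-- the sum of all the terms -/
  V : Type v
  [grp : AddCommGroup V]
  [mod : Module K V]
  [fin : Module.Finite K V]
  /-- the term of bidegree `(a, b)` -/
  piece : ℤ → ℤ → Submodule K V
  /-- the differential -/
  d : Module.End K V
  /-- the monodromy operator -/
  N : Module.End K V

attribute [instance] Cx.grp Cx.mod Cx.fin

variable {K}

namespace Cx

variable (C : Cx K)

/-- The cycles in `E_1^{a,b}`. -/
noncomputable def Z (a b : ℤ) : Submodule K C.V := LinearMap.ker C.d ⊓ C.piece a b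

/-- The boundaries in `E_1^{a,b}`. The quotient `Z a b / B a b` is the term `E_2^{a,b}`. For the
complex of a semistable scheme (see below) the spectral sequence degenerates, and `E_2^{a,b}` is the
graded piece of weight `b` of the cohomology in degree `a + b` of the geometric generic fibre. -/
noncomputable def B (a b : ℤ) : Submodule K C.V := (C.piece (a - 1) b).map C.d

/-- The monodromy-weight property in degree `q`: the `m`-th power of `N` is an isomorphism
`E_2^{-m,q+m} → E_2^{m,q-m}` for all `m ≥ 1`. -/
def MonodromyWeight (q : ℤ) : Prop :=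
  ∀ m : ℕ, 1 ≤ m → IsIsoAt (C.N ^ m) (C.Z (-m) (q + m)) (C.B (-m) (q + m)) (C.Z m (q - m))
    (C.B m (q - m))

/-- The differential has square zero. -/
def IsComplex : Prop := C.d * C.d = 0

/-- The dimension of the cohomology of the complex, in all degrees together. -/
noncomputable def totalBetti : ℕ :=
  Module.finrank K (LinearMap.ker C.d) - Module.finrank K (LinearMap.range C.d)

/-- The endomorphism `g` commutes with the differential, preserves the bidegrees, and commutes with
`N` up to a factor. -/
structure Commutes (g : Module.End K C.V) : Prop where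
  comm : g * C.d = C.d * g
  piece : ∀ a b, ∀ x ∈ C.piece a b, g x ∈ C.piece a b
  mono : ∃ c : K, C.N * g = c • (g * C.N)

/-- The characteristic polynomial of `g` on `E_2^{a,b}` is the polynomial `P` with rational
coefficients. -/
def CharpolyOnE2 [CharZero K] (g : Module.End K C.V) (a b : ℤ) (P : ℚ[X]) : Prop :=
  HasCharpoly g (C.Z a b) (C.B a b) P

end Cx

/-- A space `V` (the cohomology in some degree `q` of the geometric generic fibre), with an increasing
filtration `F` (by the weights), an operator `N` (the monodromy), an endomorphism `φ`, and relations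
`R b` between `V` and the complex `C`. -/
structure Limit (C : Cx K) where
  /-- the cohomology in degree `q` -/
  V : Type v
  [grp : AddCommGroup V]
  [mod : Module K V]
  [fin : Module.Finite K V]
  /-- the filtration by the weights -/
  F : ℤ → Submodule K V
  /-- the monodromy operator -/
  N : Module.End K V
  /-- the endomorphism -/
  φ : Module.End K V
  /-- the relations -/
  R : ℤ → V → C.V → Prop

attribute [instance] Limit.grp Limit.mod Limit.fin

namespace Limit

variable {C : Cx K} (L : Limit C)

/-- The filtration is increasing, and the weights of `V` lie between `q - n` and `q + n`. -/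
structure IsFiltered (n : ℕ) (q : ℤ) : Prop where
  bot : L.F (q - n - 1) = ⊥
  top : L.F (q + n) = ⊤
  mono : ∀ b, L.F (b - 1) ≤ L.F b

/-- The relations `R b` describe isomorphisms `F b / F (b - 1) ≅ E_2^{q-b,b}`: `R b v z` says that `v`
is in `F b`, that `z` is a cycle in `E_1^{q-b,b}`, and that the class of `v` is mapped to that
of `z`. -/
structure IsGraded (q : ℤ) : Prop where
  add : ∀ b v z v' z', L.R b v z → L.R b v' z' → L.R b (v + v') (z + z')
  smul : ∀ b v z (c : K), L.R b v z → L.R b (c • v) (c • z)
  mem : ∀ b v z, L.R b v z → v ∈ L.F b ∧ z ∈ C.Z (q - b) b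
  left : ∀ b, ∀ v ∈ L.F b, ∃ z, L.R b v z
  right : ∀ b, ∀ z ∈ C.Z (q - b) b, ∃ v, L.R b v z
  zero : ∀ b v z, L.R b v z → (v ∈ L.F (b - 1) ↔ z ∈ C.B (q - b) b)
  full : ∀ b, ∀ v ∈ L.F (b - 1), ∀ z ∈ C.B (q - b) b, L.R b v z

/-- `V` is the limit in degree `q` of the spectral sequence of the complex `C`, and the monodromy
operators and the endomorphisms `φ` and `g` correspond to each other. -/
structure IsLimit (n : ℕ) (q : ℤ) (g : Module.End K C.V) : Prop where
  filtered : L.IsFiltered n q
  graded : L.IsGraded q
  map_N : ∀ b v z, L.R b v z → L.R (b - 2) (L.N v) (C.N z)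
  map_φ : ∀ b v z, L.R b v z → L.R b (L.φ v) (g z)
  comm : ∃ c : K, L.N * L.φ = c • (L.φ * L.N)

/-- The characteristic polynomial of `φ` on `V` is the polynomial `P` with rational coefficients. -/
def CharpolyOnV [CharZero K] (P : ℚ[X]) : Prop := HasCharpolyOn L.φ ⊤ P

/-- The characteristic polynomial of `φ` on the kernel of `N` is the polynomial `P` with rational
coefficients. -/
def CharpolyOnKer [CharZero K] (P : ℚ[X]) : Prop := HasCharpolyOn L.φ (LinearMap.ker L.N) P

end Limit

/-- Spaces `H s` (the cohomology of the strata) with subspaces `gr s j` (the cohomology in degree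
`j`), restriction maps `H u → H s` and Gysin maps `H s → H u` for all `s`, `u` with `sgn s u ≠ 0`. -/
structure Coh (K : Type v) [Field K] {S : Type} (sgn : S → S → ℤ) where
  /-- the cohomology of the strata -/
  H : S → Type v
  [grp : ∀ s, AddCommGroup (H s)]
  [mod : ∀ s, Module K (H s)]
  [fin : ∀ s, Module.Finite K (H s)]
  /-- the cohomology in degree `j` -/
  gr : ∀ s, ℕ → Submodule K (H s)
  /-- the restriction maps -/
  pull : ∀ s u, sgn s u ≠ 0 → (H u →ₗ[K] H s)
  /-- the Gysin maps -/
  push : ∀ s u, sgn s u ≠ 0 → (H s →ₗ[K] H u)

attribute [instance] Coh.grp Coh.mod Coh.fin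

/-- The pairs of a stratum `s` and an integer `0 ≤ k ≤ rk s`. In the weight spectral sequence of
Rapoport, Zink and Steenbrink there are `rk s + 1` copies of the cohomology of the stratum `s`. -/
abbrev Copy {S : Type} (rk : S → ℕ) : Type := Σ s : S, Fin (rk s + 1)

namespace Coh

variable {S : Type} [Fintype S] {sgn : S → S → ℤ} (C : Coh K sgn) (rk : S → ℕ)

/-- The restriction map `H u → H s` with its sign (zero if `sgn s u = 0`). -/
noncomputable def res (s u : S) : C.H u →ₗ[K] C.H s :=
  onlyIf (sgn s u ≠ 0) fun h => signed (sgn s u) (C.pull s u h)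

/-- The Gysin map `H s → H u` with its sign (zero if `sgn s u = 0`). -/
noncomputable def gys (s u : S) : C.H s →ₗ[K] C.H u :=
  onlyIf (sgn s u ≠ 0) fun h => signed (sgn s u) (C.push s u h)

/-- The sum of all the terms `E_1^{a,b}` of the weight spectral sequence. -/
abbrev E1 : Type v := ∀ p : Copy rk, C.H p.1

/-- The term `E_1^{a,b}`: the sum of the `H^{b - 2 (rk s - k)}(Y_s)` for the copies `(s, k)` with
`2 k - rk s = a`. -/
noncomputable def piece (a b : ℤ) : Submodule K (C.E1 rk) :=
  Submodule.pi Set.univ fun p => if 2 * (p.2.1 : ℤ) - rk p.1 = a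
    then degree (C.gr p.1) (b - 2 * ((rk p.1 : ℤ) - p.2.1)) else ⊥

/-- The entries of the differential: the restriction from the copy `(u, k)` to the copy
`(s, k + 1)` for `s ⊂ u`, and the Gysin map from the copy `(s, k)` to the copy `(u, k)`. -/
noncomputable def entry (p q : Copy rk) : C.H q.1 →ₗ[K] C.H p.1 :=
  plus (onlyIf (p.2.1 = q.2.1 + 1) fun _ => C.res p.1 q.1)
    (onlyIf (p.2.1 = q.2.1) fun _ => C.gys q.1 p.1)

/-- The differential of the `E_1` term. -/
noncomputable def diff : Module.End K (C.E1 rk) := matrixOp (C.entry rk)

/-- The monodromy operator `N`: the identity map from the copy `(s, k)` to the copy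
`(s, k + 1)`. -/
noncomputable def mono : Module.End K (C.E1 rk) :=
  LinearMap.pi fun p => onlyIf (0 < p.2.1) fun _ =>
    LinearMap.proj (φ := fun p : Copy rk => C.H p.1)
      ⟨p.1, ⟨p.2.1 - 1, lt_of_le_of_lt (Nat.sub_le _ _) p.2.2⟩⟩

/-- The `E_1` term. -/
noncomputable def cx : Cx K where
  V := C.E1 rk
  piece := C.piece rk
  d := C.diff rk
  N := C.mono rk

end Coh

end Complex

/-- The strata of the special fibre of a strictly semistable scheme with the components
`Y_1, ..., Y_N`: the set `S` of all connected components of all the nonempty intersections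
`Y_{i_0} ∩ ... ∩ Y_{i_p}`, `i_0 < ... < i_p`, with the number `p = rk s`, and for `s ⊂ u` with
`rk s = rk u + 1` the inclusion and the sign `(-1)^a` if `u` is contained in the intersection of the
`Y_{i_b}` with `b ≠ a` (in all the other cases the integer `sgn s u` is zero). -/
structure Strata {k : Type u} [Field k] (𝒱 : VarClass k) where
  /-- the set of the strata -/
  S : Type
  [fin : Fintype S]
  /-- the rank (the codimension in the special fibre) -/
  rk : S → ℕ
  /-- the strata -/
  Y : S → 𝒱.Obj
  /-- the signs -/
  sgn : S → S → ℤ
  /-- the inclusions -/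
  incl : ∀ s u, sgn s u ≠ 0 → (Y s ⟶ Y u)

attribute [instance] Strata.fin

variable {k : Type u} [Field k] {𝒱 : VarClass k} {ops : CycleOps 𝒱}

/-- The map in cohomology which is given by a cycle on the product. -/
noncomputable def corrOf (W : WeilCohomology.{u, v} ops) {X Y : 𝒱.Obj} (z : (X.prod Y).Cycles) :
    W.H X →ₗ[W.K] W.H Y := W.corr (W.cl _ z)

namespace Strata

variable (T : Strata 𝒱) (W : WeilCohomology.{u, v} ops)

/-- The cohomology of the strata. -/
noncomputable def coh : Coh W.K T.sgn where
  H s := W.H (T.Y s)
  gr s := W.gr (T.Y s)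
  pull s u h := (W.map (T.incl s u h)).toLinearMap
  push s u h := W.push (T.incl s u h)

/-- The weight spectral sequence of Rapoport, Zink and Steenbrink. -/
noncomputable def cx : Cx W.K := (T.coh W).cx T.rk

/-- Cycles on the products of two strata, one for every pair of copies. -/
abbrev CycleMatrix : Type u := ∀ p q : Copy T.rk, ((T.Y q.1).prod (T.Y p.1)).Cycles

/-- The operator on the `E_1` term which is given by cycles on the products of two strata. -/
noncomputable def ofCycles (z : T.CycleMatrix) : Module.End W.K (T.cx W).V :=
  matrixOp (M := fun p : Copy T.rk => (T.coh W).H p.1) fun p q => corrOf W (z p q)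

end Strata

/-- For every `j` the projector onto `H^j(X)` is given by an algebraic cycle, which is the same for
all the cohomology theories in the family. -/
def HasKunneth {ι : Type} (W : ι → WeilCohomology.{u, v} ops) (X : 𝒱.Obj) : Prop :=
  ∀ j : ℕ, ∃ z, (X.prod X).IsCyc X.dim z ∧ ∀ i, IsProj ((W i).gr X) j (corrOf (W i) z)

/-- The standard conjecture D for `X`: a cycle of codimension `j` all of whose intersection numbers
with cycles of the complementary codimension vanish is homologically equivalent to zero. -/
def ConjectureD (W : WeilCohomology.{u, v} ops) (X : 𝒱.Obj) : Prop :=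
  ∀ j ≤ X.dim, ∀ z, X.IsCyc j z →
    (∀ w, X.IsCyc (X.dim - j) w → X.V.degCycle (ops.mul z w) = 0) → W.cl X z = 0

/-- The family of all the `ℓ`-adic cohomology theories, and the strata of a strictly semistable
scheme of relative dimension `n`. (The number `totalBetti` is the sum of the Betti numbers of the
geometric generic fibre.) -/
structure IsSemistable {ι : Type} (W : ι → WeilCohomology.{u, v} ops) (T : Strata 𝒱) (n : ℕ) :
    Prop where
  dim_add : ∀ s, (T.Y s).dim + T.rk s = n
  rk_eq : ∀ s u, T.sgn s u ≠ 0 → T.rk s = T.rk u + 1
  kunneth : ∀ s, HasKunneth W (T.Y s)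
  diff_sq : ∀ i, (T.cx (W i)).IsComplex
  betti : ∀ i j, (T.cx (W i)).totalBetti = (T.cx (W j)).totalBetti

/-- The family `g` of endomorphisms of the `E_1` term, one for every cohomology theory, is given by
algebraic correspondences between the strata which are the same for all the theories. It commutes
with the differential, preserves the bidegrees, and commutes with `N` up to a factor. (For example
the action of an element of the Weil group, given by a power of the Frobenius morphism, composed
with that of an algebraic cycle on the product of the generic fibre with itself, for example a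
projector `π` which defines a motive.) -/
structure IsAction {ι : Type} (W : ι → WeilCohomology.{u, v} ops) (T : Strata 𝒱)
    (g : ∀ i, Module.End (W i).K (T.cx (W i)).V) : Prop where
  algebraic : ∃ z : T.CycleMatrix, (∀ p q, ∃ r, ((T.Y q.1).prod (T.Y p.1)).IsCyc r (z p q)) ∧
    ∀ i, g i = T.ofCycles (W i) z
  comm : ∀ i, (T.cx (W i)).Commutes (g i)

end Pool.Agent.K9h28.Il
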