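import Pool.Agent.K9h28.IlStm

/-!
# Betti numbers and simple normal crossing log schemes: definitions
-/

set_option autoImplicit false

universe u v

namespace Pool.Agent.K9h28.Il

open Pool.Agent.H914 Pool.Agent.H914.VarClass

/-- The dimension of the term `E_2^{a,b}`. -/
noncomputable def Cx.dimE2 {K : Type v} [Field K] (C : Cx K) (a b : ℤ) : ℕ :=
  Module.finrank K (C.Z a b) - Module.finrank K (C.B a b)

/-- The sum of the dimensions of the terms `E_2^{a,q-a}`, `-n ≤ a ≤ n`: the dimension of the log
cohomology in degree `q`. -/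
noncomputable def Cx.betti {K : Type v} [Field K] (C : Cx K) (n : ℕ) (q : ℤ) : ℕ :=
  ∑ a ∈ Finset.Icc (-(n : ℤ)) n, C.dimE2 a (q - a)

/-- The family of all the `ℓ`-adic cohomology theories, and the strata of a projective simple normal
crossing log scheme of dimension `n` over a log point. -/
structure IsSNCL {k : Type u} [Field k] {𝒱 : VarClass k} {ops : CycleOps 𝒱} {ι : Type}
    (W : ι → WeilCohomology.{u, v} ops) (T : Strata 𝒱) (n : ℕ) : Prop where
  dim_add : ∀ s, (T.Y s).dim + T.rk s = n
  rk_eq : ∀ s u, T.sgn s u ≠ 0 → T.rk s = T.rk u + 1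
  kunneth : ∀ s, HasKunneth W (T.Y s)
  diff_sq : ∀ i, (T.cx (W i)).IsComplex

end Pool.Agent.K9h28.Il
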