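import Pool.Agent.R908.KoB
import Pool.Agent.H447R3.AoC
import Pool.Agent.W552.Fr

/-!
# Hard Lefschetz and the conjecture B for abelian varieties (Lieberman)
-/

set_option autoImplicit false
set_option linter.unusedSectionVars false

open CategoryTheory AlgebraicGeometry TensorProduct Polynomial

universe u v

namespace Pool.Agent.K9h28

open Pool.Agent.H914 Pool.Agent.H914.VarClass Pool.Agent.H914.VarClass.Obj
  Pool.Agent.H914.WeilCohomology Pool.Agent.H281R3.HT Pool.Agent.R908 Pool.Agent.H447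

variable {k : Type u} [Field k] {𝒱 : VarClass k} {ops : CycleOps 𝒱}
  {W : WeilCohomology.{u, v} ops} {A : 𝒱.Obj} {m : A.prod A ⟶ A} {D : A.Cycles}

lemma sl_comp (F : W.H A →ₗ[W.K] W.K) (p : W.H A →ₗ[W.K] W.H A) (z : W.H (A.prod A)) :
    sl W (F ∘ₗ p) z = sl W F (extHom W p LinearMap.id z) := by
  refine W.kunneth_induction (p := fun z => sl W (F ∘ₗ p) z =
    sl W F (extHom W p LinearMap.id z)) ?_ ?_ z
  · intro z z' h1 h2
    rw [map_add, map_add, map_add, h1, h2]
  · intro i j u _ v _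
    rw [extHom_tmul, sl_tmul, sl_tmul, LinearMap.comp_apply, LinearMap.id_apply]

lemma sl_fst (F : W.H A →ₗ[W.K] W.K) (a : W.H A) (z : W.H (A.prod A)) :
    sl W F (W.map (fst A A) a * z) = sl W (F ∘ₗ LinearMap.mulLeft W.K a) z := by
  refine W.kunneth_induction (p := fun z => sl W F (W.map (fst A A) a * z) =
    sl W (F ∘ₗ LinearMap.mulLeft W.K a) z) ?_ ?_ z
  · intro z z' h1 h2
    rw [mul_add, map_add, map_add, h1, h2]
  · intro i j u _ v _
    rw [← mul_assoc, ← map_mul, sl_tmul, sl_tmul, LinearMap.comp_apply,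
      LinearMap.mulLeft_apply]

lemma sl_right (F : W.H A →ₗ[W.K] W.K) (z : W.H (A.prod A)) (y : W.H A) :
    sl W F (z * W.map (snd A A) y) = sl W F z * y := by
  refine W.kunneth_induction (p := fun z => sl W F (z * W.map (snd A A) y) =
    sl W F z * y) ?_ ?_ z
  · intro z z' h1 h2
    rw [add_mul, map_add, map_add, h1, h2, add_mul]
  · intro i j u _ v _
    rw [mul_assoc, ← map_mul, sl_tmul, sl_tmul, smul_mul_assoc]

/-- The functional vanishes outside the degree `p`. -/
def OnDeg (W : WeilCohomology.{u, v} ops) (A : 𝒱.Obj) (F : W.H A →ₗ[W.K] W.K) (p : ℕ) : Prop :=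
  ∀ i, i ≠ p → ∀ u ∈ W.gr A i, F u = 0

lemma OnDeg.comp {π : ℕ → (W.H A →ₗ[W.K] W.H A)} (hπ : IsProjs W A π)
    {F : W.H A →ₗ[W.K] W.K} {p : ℕ} (h : OnDeg W A F p) : F ∘ₗ π p = F := by
  apply LinearMap.ext
  intro u
  refine gr_induction (W.isInternal A) (p := fun u => (F ∘ₗ π p) u = F u) ?_ ?_ u
  · intro i u hu
    rw [LinearMap.comp_apply]
    by_cases hi : i = p
    · subst hi; rw [hπ.self hu]
    · rw [hπ.ne hu (Ne.symm hi), map_zero, h i hi u hu]
  · intro u u' h1 h2
    rw [map_add, map_add, h1, h2]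

lemma OnDeg.mul {F : W.H A →ₗ[W.K] W.K} {p q : ℕ} (h : OnDeg W A F (p + q)) {a : W.H A}
    (ha : a ∈ W.gr A q) : OnDeg W A (F ∘ₗ LinearMap.mulLeft W.K a) p := by
  intro i hi u hu
  exact h (q + i) (by omega) _ (W.mul_mem ha hu)

/-- Slices of even degree are compatible with the multiplication on the second factor. -/
lemma OnDeg.sl_snd {F : W.H A →ₗ[W.K] W.K} {p : ℕ} (h : OnDeg W A F (2 * p)) {x : W.H A}
    {j : ℕ} (hx : x ∈ W.gr A j) (z : W.H (A.prod A)) :
    sl W F (W.map (snd A A) x * z) = x * sl W F z := by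
  refine W.kunneth_induction (p := fun z => sl W F (W.map (snd A A) x * z) =
    x * sl W F z) ?_ ?_ z
  · intro z z' h1 h2
    rw [mul_add, map_add, map_add, h1, h2, mul_add]
  · intro i l u hu v _
    rw [← mul_assoc, W.comm (W.map_mem (snd A A) hx) (W.map_mem (fst A A) hu), smul_mul_assoc,
      mul_assoc, ← map_mul, map_smul, sl_tmul, sl_tmul]
    by_cases hi : i = 2 * p
    · subst hi
      rw [show j * (2 * p) = 2 * (j * p) by ring, pow_mul]
      simp
    · rw [h i hi u hu, zero_smul, smul_zero, zero_smul, mul_zero]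

section Lef

variable {π : ℕ → (W.H A →ₗ[W.K] W.H A)} (hπ : IsProjs W A π)
include hπ

/-- The component of bidegree `(1, *)` of the coproduct. -/
noncomputable def d1 (W : WeilCohomology.{u, v} ops) (m : A.prod A ⟶ A)
    (π : ℕ → (W.H A →ₗ[W.K] W.H A)) (z : W.H A) : W.H (A.prod A) :=
  extHom W (π 1) LinearMap.id (W.map m z)

lemma d1_mul (hA : IsAbelianLike W A m) {x y : W.H A} (hx : x ∈ W.gr A 1)
    (hy : y ∈ W.gr A 1) : d1 W m π (x * y) = W.map (fst A A) x * W.map (snd A A) y +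
      W.map (snd A A) x * W.map (fst A A) y := by
  have h1 : extHom W (π 0) LinearMap.id (W.map m y) = W.map (snd A A) y :=
    hπ.zero_id hA 1 y (by rwa [pow_one])
  have h2 : extHom W (π 1) LinearMap.id (W.map m y) = W.map (fst A A) y := by
    rw [hA.add y hy, map_add]
    have e1 := hπ.fst_one' hy (1 : W.H (A.prod A))
    have e2 := hπ.snd_id hy 1 (1 : W.H (A.prod A))
    rw [mul_one, hπ.one', mul_one] at e1
    have e3 : extHom W (π 1) LinearMap.id (1 : W.H (A.prod A)) = 0 := by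
      have h1 := extHom_tmul (W := W) (π 1) (LinearMap.id : W.H A →ₗ[W.K] W.H A) (1 : W.H A)
        (1 : W.H A)
      rw [hπ.ne (W.one_mem A) one_ne_zero, LinearMap.id_apply, map_one, map_one, one_mul,
        map_zero, zero_mul] at h1
      exact h1
    rw [mul_one, e3, mul_zero] at e2
    rw [e1, e2, add_zero]
  rw [d1, map_mul, hA.add x hx, add_mul, map_add, hπ.fst_one' hx, hπ.snd_id hx, h1, h2]

lemma d1_mem (hA : IsAbelianLike W A m) {z : W.H A} (hz : z ∈ W.gr A 2) :
    d1 W m π z ∈ W.gr (A.prod A) 2 := by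
  have h1 := hA.gen 2 hz
  rw [pow_two] at h1
  refine Submodule.mul_induction_on h1 ?_ ?_
  · intro x hx y hy
    rw [d1_mul hπ hA hx hy]
    exact Submodule.add_mem _ (W.mul_mem (W.map_mem _ hx) (W.map_mem _ hy))
      (W.mul_mem (W.map_mem _ hx) (W.map_mem _ hy))
  · intro x y hx hy
    rw [d1, map_add, map_add]
    exact Submodule.add_mem _ hx hy

/-- The coproduct of a class of degree two. -/
lemma map_two (hA : IsAbelianLike W A m) {z : W.H A} (hz : z ∈ W.gr A 2) :
    W.map m z = W.map (fst A A) z + d1 W m π z + W.map (snd A A) z := by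
  have h1 := hA.gen 2 hz
  rw [pow_two] at h1
  refine Submodule.mul_induction_on h1 ?_ ?_
  · intro x hx y hy
    rw [d1_mul hπ hA hx hy, map_mul, hA.add x hx, hA.add y hy, map_mul, map_mul]
    noncomm_ring
  · intro x y hx hy
    rw [map_add, hx, hy, map_add, map_add]
    have : d1 W m π (x + y) = d1 W m π x + d1 W m π y := by rw [d1, d1, d1, map_add, map_add]
    rw [this]
    abel

/-- The product with the component of bidegree `(1, 1)`. -/
lemma d1_proj (hA : IsAbelianLike W A m) {z : W.H A} (hz : z ∈ W.gr A 2)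
    (M : W.H (A.prod A)) : extHom W (π 1) LinearMap.id (d1 W m π z * M) =
      d1 W m π z * extHom W (π 0) LinearMap.id M := by
  have h1 := hA.gen 2 hz
  rw [pow_two] at h1
  refine Submodule.mul_induction_on h1 ?_ ?_
  · intro x hx y hy
    have h2 : W.map (snd A A) x * W.map (fst A A) y =
        -(W.map (fst A A) y * W.map (snd A A) x) := by
      rw [W.comm (W.map_mem (snd A A) hx) (W.map_mem (fst A A) hy)]
      simp
    rw [d1_mul hπ hA hx hy, h2, add_mul, map_add, neg_mul, map_neg, mul_assoc, mul_assoc,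
      hπ.fst_one' hx, hπ.fst_one' hy, hπ.snd_id hy, hπ.snd_id hx, add_mul, neg_mul, mul_assoc,
      mul_assoc]
  · intro x y hx hy
    have : d1 W m π (x + y) = d1 W m π x + d1 W m π y := by rw [d1, d1, d1, map_add, map_add]
    rw [this, add_mul, map_add, hx, hy, add_mul]

omit hπ in
lemma xi_onDeg {ξ : W.H A} (hξ : ξ ∈ W.gr A 2) {g : ℕ} (hg : A.dim = g + 1) :
    OnDeg W A (W.tr A ∘ₗ LinearMap.mulLeft W.K (ξ ^ g)) 2 := by
  intro i hi u hu
  exact W.tr_eq_zero (W.mul_mem (gr_pow hξ g) hu) (by omega)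

/-- The basic identity, without hard Lefschetz. -/
lemma lieberman' (hA : IsAbelianLike W A m) {ξ : W.H A} (hξ : ξ ∈ W.gr A 2) {g : ℕ}
    (hg : A.dim = g + 1) (htop : W.tr A (ξ ^ (g + 1)) ≠ 0) {x : W.H A} (hx : x ∈ W.gr A 1) :
    ((g + 1 : ℕ) : W.K) • dv W m π (W.tr A ∘ₗ LinearMap.mulLeft W.K (ξ ^ g * x)) ξ =
      -(W.tr A (ξ ^ (g + 1))) • x := by
  set f : W.H A →ₗ[W.K] W.K := W.tr A ∘ₗ LinearMap.mulLeft W.K (ξ ^ g * x) with hf
  have hdv : dv W m π f ξ ∈ W.gr A 1 := by
    have h1 := hA.gen 2 hξ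
    rw [pow_two] at h1
    refine Submodule.mul_induction_on h1 ?_ ?_
    · intro y hy z hz
      have e1 := hπ.dv_mul hA f hz 1
      rw [mul_one, hπ.dv_one hA, mul_zero, sub_zero] at e1
      rw [hπ.dv_mul hA f hy, e1, mul_smul_comm, mul_one]
      exact Submodule.sub_mem _ (Submodule.smul_mem _ _ hz) (Submodule.smul_mem _ _ hy)
    · intro y z hy hz
      rw [map_add]
      exact Submodule.add_mem _ hy hz
  have key : ∀ y ∈ W.gr A 1, W.tr A (((g + 1 : ℕ) : W.K) • (ξ ^ g * dv W m π f ξ) * y +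
      (W.tr A (ξ ^ (g + 1))) • (ξ ^ g * x) * y) = 0 := by
    intro y hy
    have h1 : y * ξ ^ (g + 1) = 0 := by
      have h2 := W.mul_mem hy (gr_pow hξ (g + 1))
      rw [W.gr_eq_bot A _ (by omega), Submodule.mem_bot] at h2
      exact h2
    have h2 := hπ.dv_mul hA f hy (ξ ^ (g + 1))
    rw [h1, map_zero, hπ.dv_pow hA f hξ] at h2
    have h3 := congrArg (W.tr A) h2
    rw [map_zero, map_sub, map_smul, mul_smul_comm, map_smul] at h3
    have h4 : f y = W.tr A (ξ ^ g * x * y) := rfl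
    have h5 : y * (ξ ^ g * dv W m π f ξ) = -(ξ ^ g * dv W m π f ξ * y) := by
      rw [← mul_assoc, R908.pow_comm hξ, mul_assoc, W.comm hy hdv, mul_smul_comm, mul_assoc,
        mul_one, pow_one, neg_smul, one_smul]
    rw [h4, h5, map_neg, smul_eq_mul, smul_eq_mul] at h3
    rw [map_add, smul_mul_assoc, smul_mul_assoc, map_smul, map_smul, smul_eq_mul, smul_eq_mul]
    linear_combination -h3
  set u := ((g + 1 : ℕ) : W.K) • dv W m π f ξ + (W.tr A (ξ ^ (g + 1))) • x with hu
  have hu1 : u ∈ W.gr A 1 := Submodule.add_mem _ (Submodule.smul_mem _ _ hdv)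
    (Submodule.smul_mem _ _ hx)
  have hu2 : ξ ^ g * u = 0 := by
    apply W.nondeg
    intro b
    refine gr_induction (W.isInternal A) (p := fun b => W.tr A (ξ ^ g * u * b) = 0) ?_ ?_ b
    · intro i b hb
      by_cases hi : i = 1
      · subst hi
        have h8 := key b hb
        rw [← add_mul, ← mul_smul_comm, ← mul_smul_comm, ← mul_add] at h8
        exact h8
      · refine W.tr_eq_zero (W.mul_mem (W.mul_mem (gr_pow hξ g) hu1) hb) ?_
        omega
    · intro b b' h1 h2
      rw [mul_add, map_add, h1, h2, add_zero]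
  have hu3 : ∀ F : W.H A →ₗ[W.K] W.K, F u = 0 := by
    intro F
    have h1 : u * ξ ^ (g + 1) = 0 := by
      have h2 := W.mul_mem hu1 (gr_pow hξ (g + 1))
      rw [W.gr_eq_bot A _ (by omega), Submodule.mem_bot] at h2
      exact h2
    have h2 := hπ.dv_mul hA F hu1 (ξ ^ (g + 1))
    have h3 : u * (ξ ^ g * dv W m π F ξ) = 0 := by
      rw [← mul_assoc, R908.pow_comm hξ, hu2, zero_mul]
    rw [h1, map_zero, hπ.dv_pow hA F hξ, mul_smul_comm, h3, smul_zero, sub_zero] at h2
    have h4 := congrArg (W.tr A) h2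
    rw [map_zero, map_smul, smul_eq_mul] at h4
    rcases mul_eq_zero.1 h4.symm with h5 | h5
    · exact h5
    · exact absurd h5 htop
  have hu4 : u = 0 := (Module.forall_dual_apply_eq_zero_iff W.K u).1 hu3
  rw [neg_smul, eq_neg_iff_add_eq_zero]
  exact hu4

/-- The derivation of degree zero. -/
lemma T_apply (hA : IsAbelianLike W A m) {ξ : W.H A} (hξ : ξ ∈ W.gr A 2) {g : ℕ}
    (hg : A.dim = g + 1) (htop : W.tr A (ξ ^ (g + 1)) ≠ 0) (i : ℕ) :
    ∀ y ∈ W.gr A 1 ^ i, sl W (W.tr A ∘ₗ LinearMap.mulLeft W.K (ξ ^ g)) (d1 W m π ξ * W.map m y) =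
      ((i : W.K) * (-(W.tr A (ξ ^ (g + 1))) / ((g + 1 : ℕ) : W.K))) • y := by
  have hF := xi_onDeg hξ hg
  have hg0 : ((g + 1 : ℕ) : W.K) ≠ 0 := by exact_mod_cast Nat.succ_ne_zero g
  induction i with
  | zero =>
    intro y hy
    rw [pow_zero, Submodule.mem_one] at hy
    obtain ⟨c, rfl⟩ := hy
    have h1 : sl W (W.tr A ∘ₗ LinearMap.mulLeft W.K (ξ ^ g)) (d1 W m π ξ) = 0 := by
      rw [← hF.comp hπ, sl_comp, d1]
      have : extHom W (π 2) LinearMap.id (extHom W (π 1) LinearMap.id (W.map m ξ)) = 0 := by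
        refine W.kunneth_induction (p := fun z => extHom W (π 2) LinearMap.id
          (extHom W (π 1) LinearMap.id z) = 0) ?_ ?_ (W.map m ξ)
        · intro z z' h1 h2
          rw [map_add, map_add, h1, h2, add_zero]
        · intro i j u hu v _
          rw [extHom_tmul, extHom_tmul]
          by_cases hi : i = 1
          · subst hi
            rw [hπ.self hu, hπ.ne hu (by omega), map_zero, zero_mul]
          · rw [hπ.ne hu (Ne.symm hi), map_zero, map_zero, zero_mul]
      rw [this, map_zero]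
    rw [Algebra.algebraMap_eq_smul_one, map_smul, map_one, mul_smul_comm, mul_one, map_smul, h1,
      smul_zero, Nat.cast_zero, zero_mul, zero_smul]
  | succ i ih =>
    intro y hy
    rw [pow_succ'] at hy
    refine Submodule.mul_induction_on hy ?_ ?_
    · intro x hx y hy
      have hdm : ∀ M, d1 W m π ξ * M = M * d1 W m π ξ := fun M =>
        W.even_comm (p := 1) (d1_mem hπ hA hξ) M
      have e1 : sl W (W.tr A ∘ₗ LinearMap.mulLeft W.K (ξ ^ g))
          (d1 W m π ξ * (W.map (fst A A) x * W.map m y)) =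
          (-(W.tr A (ξ ^ (g + 1))) / ((g + 1 : ℕ) : W.K)) • (x * y) := by
        have hFx := hF.mul (p := 1) (q := 1) hx
        rw [← mul_assoc, hdm, mul_assoc, sl_fst, ← hFx.comp hπ, sl_comp,
          d1_proj hπ hA hξ, hπ.zero_id hA i y hy, sl_right]
        have h2 : (W.tr A ∘ₗ LinearMap.mulLeft W.K (ξ ^ g)) ∘ₗ LinearMap.mulLeft W.K x =
            W.tr A ∘ₗ LinearMap.mulLeft W.K (ξ ^ g * x) := by
          apply LinearMap.ext
          intro u
          simp only [LinearMap.comp_apply, LinearMap.mulLeft_apply, mul_assoc]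
        have h3 := lieberman' hπ hA hξ hg htop hx
        have h4 : sl W (W.tr A ∘ₗ LinearMap.mulLeft W.K (ξ ^ g * x)) (d1 W m π ξ) =
            dv W m π (W.tr A ∘ₗ LinearMap.mulLeft W.K (ξ ^ g * x)) ξ := rfl
        rw [h2, h4]
        have h5 : dv W m π (W.tr A ∘ₗ LinearMap.mulLeft W.K (ξ ^ g * x)) ξ =
            (-(W.tr A (ξ ^ (g + 1))) / ((g + 1 : ℕ) : W.K)) • x := by
          rw [div_eq_inv_mul, mul_smul, ← h3, smul_smul, inv_mul_cancel₀ hg0, one_smul]
        rw [h5, smul_mul_assoc]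
      have e2 : sl W (W.tr A ∘ₗ LinearMap.mulLeft W.K (ξ ^ g))
          (d1 W m π ξ * (W.map (snd A A) x * W.map m y)) =
          x * sl W (W.tr A ∘ₗ LinearMap.mulLeft W.K (ξ ^ g)) (d1 W m π ξ * W.map m y) := by
        rw [← mul_assoc, hdm, mul_assoc]
        exact OnDeg.sl_snd (p := 1) hF hx _
      rw [map_mul (W.map m), hA.add x hx, add_mul, mul_add, map_add, e1, e2, ih y hy,
        mul_smul_comm, ← add_smul]
      congr 1
      push_cast
      ring
    · intro x y hx hy
      rw [map_add, mul_add, map_add, hx, hy, smul_add]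

/-- The operator `y ↦ (pr_2)_* (pr_1^* ξ^g · m^* y)`. -/
noncomputable def Th (W : WeilCohomology.{u, v} ops) (m : A.prod A ⟶ A) (ζ : W.H A) :
    Module.End W.K (W.H A) :=
  sl W (W.tr A ∘ₗ LinearMap.mulLeft W.K ζ) ∘ₗ (W.map m).toLinearMap

omit hπ in
lemma Th_apply (ζ y : W.H A) : Th W m ζ y =
    sl W (W.tr A ∘ₗ LinearMap.mulLeft W.K ζ) (W.map m y) := rfl

/-- The commutator with the Lefschetz operator. -/
lemma Th_comm (hA : IsAbelianLike W A m) {ξ : W.H A} (hξ : ξ ∈ W.gr A 2) {g : ℕ}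
    (hg : A.dim = g + 1) (htop : W.tr A (ξ ^ (g + 1)) ≠ 0) {i : ℕ} {y : W.H A}
    (hy : y ∈ W.gr A i) : Th W m (ξ ^ g) (ξ * y) - ξ * Th W m (ξ ^ g) y =
      (W.tr A (ξ ^ (g + 1)) / ((g + 1 : ℕ) : W.K) * ((A.dim : W.K) - i)) • y := by
  have hF := xi_onDeg hξ hg
  have hg0 : ((g + 1 : ℕ) : W.K) ≠ 0 := by exact_mod_cast Nat.succ_ne_zero g
  have h1 := T_apply hπ hA hξ hg htop i y (hA.gen i hy)
  have h2 : sl W (W.tr A ∘ₗ LinearMap.mulLeft W.K (ξ ^ g)) (W.map (snd A A) ξ * W.map m y) =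
      ξ * Th W m (ξ ^ g) y := OnDeg.sl_snd (p := 1) hF hξ _
  have h3 : sl W (W.tr A ∘ₗ LinearMap.mulLeft W.K (ξ ^ g)) (W.map (fst A A) ξ * W.map m y) =
      (W.tr A (ξ ^ (g + 1))) • y := by
    have hFx := hF.mul (p := 0) (q := 2) hξ
    rw [sl_fst, ← hFx.comp hπ, sl_comp, hπ.zero_id hA i y (hA.gen i hy)]
    have h4 := sl_right (W := W) (A := A)
      ((W.tr A ∘ₗ LinearMap.mulLeft W.K (ξ ^ g)) ∘ₗ LinearMap.mulLeft W.K ξ) 1 y
    rw [one_mul] at h4
    rw [h4]
    have h5 := sl_tmul (W := W) ((W.tr A ∘ₗ LinearMap.mulLeft W.K (ξ ^ g)) ∘ₗ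
      LinearMap.mulLeft W.K ξ) (1 : W.H A) (1 : W.H A)
    rw [map_one, map_one, one_mul] at h5
    rw [h5]
    simp only [LinearMap.comp_apply, LinearMap.mulLeft_apply, mul_one, smul_mul_assoc, one_mul]
    rw [pow_succ]
  rw [Th_apply, map_mul, map_two hπ hA hξ, add_mul, add_mul, map_add, map_add, h1, h2, h3,
    add_sub_cancel_right, ← add_smul]
  congr 1
  rw [hg]
  push_cast at hg0 ⊢
  field_simp
  ring

end Lef

/-- The operator is algebraic. -/
lemma Th_rop (hD : A.IsCyc 1 D) {g : ℕ} (hg : A.dim = g + 1) :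
    ROp W A (-1) (Th W m ((W.cl A D) ^ g)) := by
  set G : A.prod A ⟶ A.prod A := Obj.lift m (snd A A) with hG
  set z : (A.prod A).Cycles :=
    ops.push G (ops.pull (fst A A) (divPow ops D g A.V.fundCycle)) with hz
  have hz1 : A.IsCyc g (divPow ops D g A.V.fundCycle) := by
    have := divPow_mem (ops := ops) hD g A.V.fundCycle_mem
    rwa [zero_add] at this
  have hzc : (A.prod A).IsCyc g z := ops.push_mem _ (ops.pull_mem _ hz1) rfl
  have hcl : W.cl A (divPow ops D g A.V.fundCycle) = (W.cl A D) ^ g := by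
    rw [cl_divPow, W.cl_fund]
    have := lefP_eq (W := W) (D := D) g (1 : W.H A)
    rw [mul_one] at this
    exact this
  have hfst : G ≫ fst A A = m := Obj.lift_fst _ _
  have hsnd : G ≫ snd A A = snd A A := Obj.lift_snd _ _
  refine ⟨fun W => W.corr (W.cl _ z), Or.inl ⟨g, by omega, z, hzc, fun _ => rfl⟩, ?_⟩
  apply LinearMap.ext
  intro y
  rw [Th_apply]
  apply W.tr_ext
  intro c
  have h1 : W.corr (W.cl (A.prod A) z) y = W.push (snd A A) (W.cl _ z * W.map (fst A A) y) := rfl
  have h2 : W.cl (A.prod A) z = W.push G (W.map (fst A A) ((W.cl A D) ^ g)) := by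
    rw [hz, W.cl_push, W.cl_pull, hcl]
  have hev : ∀ M : W.H (A.prod A), W.map (fst A A) ((W.cl A D) ^ g) * M =
      M * W.map (fst A A) ((W.cl A D) ^ g) := fun M =>
    W.even_comm (p := g) (W.map_mem _ (gr_pow (W.cl_mem hD) g)) M
  rw [h1, h2, W.tr_push, mul_assoc, W.tr_push, map_mul (W.map G), ← W.map_comp, ← W.map_comp,
    hfst, hsnd]
  have h3 : ∀ M : W.H (A.prod A), W.tr (A.prod A) (W.map (fst A A) ((W.cl A D) ^ g) *
      (M * W.map (snd A A) c)) =
      W.tr A (sl W (W.tr A ∘ₗ LinearMap.mulLeft W.K ((W.cl A D) ^ g)) M * c) := by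
    intro M
    refine W.kunneth_induction (p := fun M => W.tr (A.prod A)
      (W.map (fst A A) ((W.cl A D) ^ g) * (M * W.map (snd A A) c)) =
      W.tr A (sl W (W.tr A ∘ₗ LinearMap.mulLeft W.K ((W.cl A D) ^ g)) M * c)) ?_ ?_ M
    · intro z z' h1 h2
      rw [add_mul, mul_add, map_add, h1, h2, map_add, add_mul, map_add]
    · intro i j u _ v _
      rw [mul_assoc, ← map_mul (W.map (snd A A)), ← mul_assoc, ← map_mul, W.tr_prod, sl_tmul,
        smul_mul_assoc, map_smul]
      rfl
  exact h3 _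

/-- **Hard Lefschetz and the conjecture B for abelian varieties** (Lieberman): it suffices that
the self-intersection number of the divisor is not zero. -/
theorem lefschetz_of_abelian (hA : IsAbelianLike W A m) (hD : A.IsCyc 1 D)
    (htop : A.V.degCycle (divPow ops D A.dim A.V.fundCycle) ≠ 0) :
    HardLefschetz W A D ∧ LefschetzB W A D := by
  by_cases hdim : A.dim = 0
  · have hHL : HardLefschetz W A D := by
      intro i hi
      have hi0 : i = 0 := by omega
      subst hi0
      rw [hdim]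
      exact ⟨fun a _ h => by simpa using h, fun b hb => ⟨b, by simpa using hb, by simp⟩⟩
    refine ⟨hHL, lefschetzB_iff_rop.2 ⟨0, rop_opAlg.zero _, ?_⟩⟩
    intro i hi a _ _
    exact ⟨rfl, fun j hj => by omega⟩
  obtain ⟨g, hg⟩ : ∃ g, A.dim = g + 1 := ⟨A.dim - 1, by omega⟩
  obtain ⟨π, hπ, -⟩ := exists_projs hA
  set ξ := W.cl A D with hξd
  have hξ : ξ ∈ W.gr A 2 := W.cl_mem hD
  have hcl : W.cl A (divPow ops D A.dim A.V.fundCycle) = ξ ^ A.dim := by
    rw [cl_divPow, W.cl_fund]
    have := lefP_eq (W := W) (D := D) A.dim (1 : W.H A)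
    rw [mul_one] at this
    exact this
  set δ := A.V.degCycle (divPow ops D A.dim A.V.fundCycle) with hδ
  have hcyc : A.IsCyc A.dim (divPow ops D A.dim A.V.fundCycle) := by
    have := divPow_mem (ops := ops) hD A.dim A.V.fundCycle_mem
    rwa [zero_add] at this
  have htr : W.tr A (ξ ^ (g + 1)) = (δ : W.K) := by
    rw [← hg, ← hcl, W.tr_cl hcyc]
  have hne : W.tr A (ξ ^ (g + 1)) ≠ 0 := by
    rw [htr]; exact_mod_cast htop
  have hδ0 : (δ : W.K) ≠ 0 := by exact_mod_cast htop
  have hg0 : ((g + 1 : ℕ) : W.K) ≠ 0 := by exact_mod_cast Nat.succ_ne_zero g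
  set q : ℚ := (g + 1 : ℕ) / δ with hq
  set f : Module.End W.K (W.H A) := (q : W.K) • Th W m (ξ ^ g) with hf
  have hfR : ROp W A (-1) f := rop_opAlg.smul q (Th_rop hD hg)
  have hfh : IsHom (W.gr A) (-2) f := by simpa using rop_opAlg.hom hfR
  have hLh : IsHom (W.gr A) 2 (LinearMap.mulLeft W.K ξ) := by
    simpa using rop_opAlg.hom (rop_mulLeft (W := W) hD)
  have t : Sl2 (wt (W.isInternal A) A.dim) (LinearMap.mulLeft W.K ξ) f := by
    refine ⟨?_, ?_, ?_⟩
    · apply gr_ext (W.isInternal A)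
      intro i y hy
      have h1 := Th_comm hπ hA hξ hg hne hy
      rw [LinearMap.sub_apply, Module.End.mul_apply, Module.End.mul_apply, hf,
        LinearMap.smul_apply, LinearMap.smul_apply, LinearMap.mulLeft_apply,
        LinearMap.mulLeft_apply, mul_smul_comm, ← smul_sub, ← neg_sub, h1, smul_neg, smul_smul,
        wt, scal_apply _ _ hy, node, ← neg_smul]
      congr 1
      rw [htr, hq]
      push_cast at hg0 ⊢
      field_simp
      ring
    · rw [hLh.wt_comm (W.isInternal A) A.dim, add_sub_cancel_left]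
      rw [two_mul, ← two_smul W.K]
      norm_num
    · rw [hfh.wt_comm (W.isInternal A) A.dim, add_sub_cancel_left]
      rw [two_mul, ← two_smul W.K, ← neg_smul]
      congr 1
      push_cast
      ring
  have hwt : ∀ {i : ℕ} {a : W.H A}, a ∈ W.gr A i →
      wt (W.isInternal A) A.dim a = ((i : W.K) - A.dim) • a := by
    intro i a ha
    rw [wt, scal_apply _ _ ha, node]
    push_cast
    rfl
  have hHL : HardLefschetz W A D := by
    intro i hi
    constructor
    · intro a ha h0
      by_contra ha0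
      have h1 : wt (W.isInternal A) A.dim a = -((A.dim - i : ℕ) : W.K) • a := by
        rw [hwt ha, Nat.cast_sub hi]
        congr 1
        ring
      have h2 : f a = 0 := by
        apply t.f_eq_zero h1
        rw [pow_succ', Module.End.mul_apply, h0, map_zero]
      exact Sl2.e_pow_ne t h2 h1 ha0 le_rfl h0
    · intro b hb
      obtain ⟨a, ha, hab⟩ := W552.exists_preimage' t
        (P := fun d x => x = 0 ∨ ∃ c : ℕ, (c : ℤ) = A.dim + d ∧ x ∈ W.gr A c)
        (fun d => Or.inl rfl)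
        (by
          rintro d x y (rfl | ⟨c, hc, hx⟩) (rfl | ⟨c', hc', hy⟩)
          · exact Or.inl (add_zero 0)
          · rw [zero_add]; exact Or.inr ⟨c', hc', hy⟩
          · rw [add_zero]; exact Or.inr ⟨c, hc, hx⟩
          · obtain rfl : c = c' := by omega
            exact Or.inr ⟨c, hc, Submodule.add_mem _ hx hy⟩)
        (by
          rintro r d x (rfl | ⟨c, hc, hx⟩)
          · exact Or.inl (smul_zero _)
          · exact Or.inr ⟨c, hc, Submodule.smul_mem _ _ hx⟩)
        (by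
          rintro d x (rfl | ⟨c, hc, hx⟩)
          · exact Or.inl (map_zero _)
          · refine Or.inr ⟨2 + c, by push_cast; omega, ?_⟩
            exact W.mul_mem hξ hx)
        (by
          rintro d x (rfl | ⟨c, hc, hx⟩)
          · exact Or.inl (map_zero _)
          · have h1 := hfh c x (by rw [grZ_natCast]; exact hx)
            rcases Nat.lt_or_ge c 2 with h0 | h0
            · rw [grZ_of_neg (by omega)] at h1
              exact Or.inl ((Submodule.mem_bot _).1 h1)
            · refine Or.inr ⟨c - 2, by omega, ?_⟩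
              rw [show (c : ℤ) + -2 = ((c - 2 : ℕ) : ℤ) by omega, grZ_natCast] at h1
              exact h1)
        (by
          rintro d x (rfl | ⟨c, hc, hx⟩)
          · rw [map_zero, smul_zero]
          · rw [hwt hx]
            congr 1
            have : ((c : ℤ) : W.K) = ((A.dim + d : ℤ) : W.K) := by rw [hc]
            push_cast at this ⊢
            linear_combination this)
        (A.dim - i) (y := b) (Or.inr ⟨2 * A.dim - i, by omega, hb⟩)
      rcases ha with rfl | ⟨c, hc, ha⟩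
      · exact ⟨0, Submodule.zero_mem _, hab⟩
      · obtain rfl : c = i := by omega
        exact ⟨a, ha, hab⟩
  exact ⟨hHL, lefschetzB_of_lower hD hHL t hfR⟩

end Pool.Agent.K9h28
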