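import Pool.Agent.K9h28.GnE
import Pool.Agent.K9h28.IlK

/-!
# The monodromy-weight property for the rational algebraic cochains
-/

set_option autoImplicit false
set_option linter.unusedSectionVars false

open CategoryTheory AlgebraicGeometry Finset

universe u v

namespace Pool.Agent.K9h28

open Pool.Agent.H914 Pool.Agent.H914.VarClass Pool.Agent.H914.VarClass.Obj
  Pool.Agent.H914.WeilCohomology Pool.Agent.H281R3.HT Pool.Agent.W552

namespace Harm

variable {V : Type*} [AddCommGroup V] [Module ℚ V] [Module.Finite ℚ V]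
  {Q : V →ₗ[ℚ] V →ₗ[ℚ] ℚ} {h L Λ H N M d ds : Module.End ℚ V}
  (t : Harm Q h L Λ H N M d ds)

include t

/-- **The monodromy-weight property.** -/
theorem mw {x : V} {m : ℕ} (hx : d x = 0) (hH : H x = -(m : ℚ) • x) {η : V}
    (hN : (N ^ m) x = d η) : ∃ ω, x = d ω := by
  obtain ⟨g, y, hxg, hg⟩ := t.exists_decomp x
  have hgx : g = x - d y := by rw [hxg]; abel
  have hd2 : ∀ z, d (d z) = 0 := fun z => congrArg (fun F => F z) t.d_sq
  have hdg : d g = 0 := by rw [hgx, map_sub, hx, hd2, sub_zero]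
  have hlap : (d * ds + ds * d) g = 0 := by
    rw [LinearMap.add_apply, Module.End.mul_apply, Module.End.mul_apply, hg, hdg, map_zero,
      map_zero, add_zero]
  have hNd : ∀ z, N (d z) = d (N z) := fun z => congrArg (fun F => F z) t.Nd
  have hNpd : ∀ k z, (N ^ k) (d z) = d ((N ^ k) z) := by
    intro k
    induction k with
    | zero => intro z; simp
    | succ k ih => intro z; rw [pow_succ, Module.End.mul_apply, Module.End.mul_apply, hNd, ih]
  have hHg : H g = -(m : ℚ) • g := by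
    have h1 : ds (H g + (m : ℚ) • g) = 0 := by
      have := congrArg (fun F => F g) t.H_ds
      simp only [LinearMap.sub_apply, Module.End.mul_apply, LinearMap.neg_apply, hg, map_zero,
        zero_sub, neg_zero] at this
      rw [map_add, map_smul, hg, smul_zero, add_zero]
      exact neg_eq_zero.1 this
    have h3 : H g + (m : ℚ) • g = 0 := by
      apply t.eq_zero_of h1 (y := -(H y) - y - (m : ℚ) • y)
      have h2 := congrArg (fun F => F y) t.Hd
      simp only [LinearMap.sub_apply, Module.End.mul_apply] at h2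
      rw [hgx, map_sub, hH, map_sub, map_sub, map_neg, map_smul, sub_eq_iff_eq_add.1 h2,
        smul_sub, neg_smul]
      abel
    rw [neg_smul]
    exact eq_neg_of_add_eq_zero_left h3
  have hNg : (N ^ m) g = 0 := by
    have h1 : (d * ds + ds * d) ((N ^ m) g) = 0 := by
      have h2 : (N ^ m) * (d * ds + ds * d) = (d * ds + ds * d) * N ^ m :=
        (Commute.pow_left t.lap_N m).eq
      have := congrArg (fun F => F g) h2
      simp only [Module.End.mul_apply] at this
      rw [← this]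
      change (N ^ m) ((d * ds + ds * d) g) = 0
      rw [hlap, map_zero]
    apply t.eq_zero_of (t.closed_of_lap h1).2 (y := η - (N ^ m) y)
    rw [hgx, map_sub, hN, hNpd, map_sub]
  have hg0 : g = 0 := by
    by_contra h0
    exact t.tN.e_pow_inj (K := ℚ) hHg h0 le_rfl hNg
  exact ⟨y, by rw [hxg, hg0, zero_add]⟩

end Harm

section Alg

variable {k : Type u} [Field k] {𝒱 : VarClass k} {ops : CycleOps 𝒱}
  {T : Strata 𝒱} {W : WeilCohomology.{u, v} ops} {n : ℕ}

lemma pow_opN_apply {S : Type} [Fintype S] {rk : S → ℕ} {A : S → Type v}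
    [∀ s, AddCommGroup (A s)] [∀ s, Module ℚ (A s)] (m : ℕ) (x : Vs rk A) (s : S) (c : ℕ)
    (hc : c ≤ rk s) : ((opN ^ m) x).1 s c = if m ≤ c then x.1 s (c - m) else 0 := by
  induction m generalizing x with
  | zero => simp
  | succ m ih =>
    rw [pow_succ, Module.End.mul_apply, ih]
    by_cases h1 : m ≤ c
    · rw [if_pos h1, opN_apply]
      by_cases h2 : m + 1 ≤ c
      · rw [if_pos (by omega), if_pos h2]
        congr 1
      · rw [if_neg (by omega), if_neg h2]
    · rw [if_neg h1, if_neg (by omega)]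

/-- **The monodromy-weight property for families of algebraic classes.** -/
theorem alg_mw (h : T.IsSemi W n) {f : ∀ s, Module.End W.K (W.H (T.Y s))}
    (F : ∀ s, FA W (T.Y s) (T.D s) (f s))
    (hHL : ∀ s, HardLefschetz W (T.Y s) (T.D s)) (hH : ∀ s, HodgeType W (T.Y s) (T.D s))
    {m : ℕ} {x η : ∀ s, ℕ → W.H (T.Y s)} (hx : ∀ s c, AS W (T.Y s) (x s c))
    (hη : ∀ s c, AS W (T.Y s) (η s c)) (hx0 : ∀ s c, T.rk s < c → x s c = 0)
    (hη0 : ∀ s c, T.rk s < c → η s c = 0)
    (hw : ∀ s c, c ≤ T.rk s → x s c ≠ 0 → 2 * c + m = T.rk s)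
    (hcl : ∀ s c, c ≤ T.rk s → (if 1 ≤ c then ∑ u, T.resL W s u (x u (c - 1)) else 0) +
      ∑ u, T.gysL W u s (x u c) = 0)
    (hN : ∀ s c, c ≤ T.rk s → (if m ≤ c then x s (c - m) else 0) =
      (if 1 ≤ c then ∑ u, T.resL W s u (η u (c - 1)) else 0) + ∑ u, T.gysL W u s (η u c)) :
    ∃ ω : ∀ s, ℕ → W.H (T.Y s), (∀ s c, AS W (T.Y s) (ω s c)) ∧
      ∀ s c, c ≤ T.rk s → x s c =
        (if 1 ≤ c then ∑ u, T.resL W s u (ω u (c - 1)) else 0) + ∑ u, T.gysL W u s (ω u c) := by
  have hfin : ∀ s, Module.Finite ℚ (AQ W (T.Y s)) := fun s => (F s).finite (hHL s) (hH s)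
  have t := lad F h hHL hH
  have th := t.harm
  let xs : Vs T.rk (fun s => AQ W (T.Y s)) :=
    ⟨fun s c => ⟨x s c, hx s c⟩, fun s c hc => Subtype.ext (hx0 s c hc)⟩
  let ηs : Vs T.rk (fun s => AQ W (T.Y s)) :=
    ⟨fun s c => ⟨η s c, hη s c⟩, fun s c hc => Subtype.ext (hη0 s c hc)⟩
  have hd : ∀ (y : Vs T.rk (fun s => AQ W (T.Y s))) (s : T.S) (c : ℕ), c ≤ T.rk s →
      (((opd (Rq T W) (Gq T W) y).1 s c : AQ W (T.Y s)) : W.H (T.Y s)) =
      (if 1 ≤ c then ∑ u, T.resL W s u (y.1 u (c - 1) : W.H (T.Y u)) else 0) +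
        ∑ u, T.gysL W u s (y.1 u c : W.H (T.Y u)) := by
    intro y s c hc
    rw [opd_apply, if_pos hc, AddSubgroup.coe_add, AddSubgroup.val_finsetSum]
    congr 1
    by_cases h0 : 1 ≤ c
    · rw [if_pos h0, if_pos h0, AddSubgroup.val_finsetSum]
      rfl
    · rw [if_neg h0, if_neg h0]
      rfl
  obtain ⟨ω, hω⟩ := th.mw (x := xs) (m := m) (η := ηs) (by
    apply Vs.ext
    intro s c hc
    apply Subtype.ext
    rw [hd _ _ _ hc]
    exact hcl s c hc) (by
    apply Vs.ext
    intro s c hc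
    rw [opH_apply]
    change _ = -(m : ℚ) • xs.1 s c
    by_cases h0 : x s c = 0
    · have h1 : xs.1 s c = 0 := Subtype.ext h0
      rw [h1, smul_zero, smul_zero]
    · congr 1
      have h1 := hw s c hc h0
      have h2 : (T.rk s : ℚ) = 2 * c + m := by exact_mod_cast h1.symm
      rw [h2]
      ring) (by
    apply Vs.ext
    intro s c hc
    apply Subtype.ext
    rw [hd _ _ _ hc, pow_opN_apply _ _ _ _ hc]
    rw [← hN s c hc]
    split_ifs <;> rfl)
  refine ⟨fun s c => (ω.1 s c : W.H (T.Y s)), fun s c => (ω.1 s c).2, fun s c hc => ?_⟩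
  have h1 := congrArg (fun y : Vs T.rk (fun s => AQ W (T.Y s)) => ((y.1 s c : AQ W (T.Y s)) :
    W.H (T.Y s))) hω
  beta_reduce at h1
  rw [hd _ _ _ hc] at h1
  exact h1

end Alg

end Pool.Agent.K9h28
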