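import Pool.Agent.K9h28.MdP

/-!
# The weight spectral sequence and families of classes indexed by the strata and the integers
-/

set_option autoImplicit false
set_option linter.unusedSectionVars false

open CategoryTheory AlgebraicGeometry Module

universe u v

namespace Pool.Agent.K9h28.Il

open Pool.Agent.H914 Pool.Agent.H914.VarClass Pool.Agent.H914.VarClass.Obj
  Pool.Agent.H914.WeilCohomology Pool.Agent.W552

variable {k : Type u} [Field k] {𝒱 : VarClass k} {ops : CycleOps 𝒱}
  {W : WeilCohomology.{u, v} ops} {T : Strata 𝒱} {n : ℕ}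

/-- The value at the copy `(s, c)`. -/
def val (x : T.E1 W) (s : T.S) (c : ℕ) : W.H (T.Y s) :=
  if h : c < T.rk s + 1 then x ⟨s, ⟨c, h⟩⟩ else 0

/-- The element with the given values. -/
def ofVal (W : WeilCohomology.{u, v} ops) (T : Strata 𝒱) (y : ∀ s, ℕ → W.H (T.Y s)) : T.E1 W :=
  fun p => y p.1 p.2.1

lemma val_ofVal (y : ∀ s, ℕ → W.H (T.Y s)) {s : T.S} {c : ℕ} (h : c ≤ T.rk s) :
    val (ofVal W T y) s c = y s c := by
  unfold val
  rw [dif_pos (by omega)]
  rfl

lemma val_of_lt (x : T.E1 W) {s : T.S} {c : ℕ} (h : T.rk s < c) : val x s c = 0 := by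
  unfold val
  rw [dif_neg (by omega)]

lemma val_coe (x : T.E1 W) (p : T.Copy) : val x p.1 p.2.1 = x p := by
  unfold val
  rw [dif_pos p.2.2]

lemma E1_ext {x y : T.E1 W} (h : ∀ s c, c ≤ T.rk s → val x s c = val y s c) : x = y := by
  funext p
  rw [← val_coe x, ← val_coe y]
  exact h _ _ (by have := p.2.2; omega)

lemma val_add (x y : T.E1 W) (s : T.S) (c : ℕ) : val (x + y) s c = val x s c + val y s c := by
  unfold val
  split_ifs
  · rfl
  · rw [add_zero]

lemma val_sub (x y : T.E1 W) (s : T.S) (c : ℕ) : val (x - y) s c = val x s c - val y s c := by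
  unfold val
  split_ifs
  · rfl
  · rw [sub_zero]

lemma val_smul (q : W.K) (x : T.E1 W) (s : T.S) (c : ℕ) :
    val (q • x) s c = q • val x s c := by
  unfold val
  split_ifs
  · rfl
  · rw [smul_zero]

lemma val_zero (s : T.S) (c : ℕ) : val (0 : T.E1 W) s c = 0 := by
  unfold val
  split_ifs <;> rfl

lemma sum_fin_val (x : T.E1 W) (u : T.S) (c : ℕ) {M : Type*} [AddCommGroup M] [Module W.K M]
    (F : W.H (T.Y u) →ₗ[W.K] M) :
    (∑ l : Fin (T.rk u + 1), if c = l.1 then F (x ⟨u, l⟩) else 0) = F (val x u c) := by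
  rw [sum_ite_fin c fun l => F (x ⟨u, l⟩)]
  unfold val
  split_ifs
  · rfl
  · rw [map_zero]

/-- The values of the differential. -/
lemma val_diff (x : T.E1 W) (s : T.S) (c : ℕ) (hc : c ≤ T.rk s) :
    val (T.diff W x) s c = (if 1 ≤ c then ∑ u, T.res W s u (val x u (c - 1)) else 0) +
      ∑ u, T.gys W u s (val x u c) := by
  unfold val
  rw [dif_pos (by omega), diff_apply, Fintype.sum_sigma]
  dsimp only
  have h1 : ∀ u : T.S, (∑ l : Fin (T.rk u + 1), ((if c = l.1 + 1 then
      T.res W s u (x ⟨u, l⟩) else 0) + if c = l.1 then T.gys W u s (x ⟨u, l⟩) else 0)) =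
      (if 1 ≤ c then T.res W s u (val x u (c - 1)) else 0) + T.gys W u s (val x u c) := by
    intro u
    rw [Finset.sum_add_distrib, sum_fin_val x u c (T.gys W u s)]
    congr 1
    by_cases h0 : 1 ≤ c
    · rw [if_pos h0, ← sum_fin_val x u (c - 1) (T.res W s u)]
      refine Finset.sum_congr rfl fun l _ => ?_
      congr 1
      simp only [eq_iff_iff]
      omega
    · rw [if_neg h0]
      refine Finset.sum_eq_zero fun l _ => if_neg ?_
      omega
  rw [Finset.sum_congr rfl fun u _ => h1 u, Finset.sum_add_distrib]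
  congr 1
  split_ifs
  · rfl
  · exact Finset.sum_const_zero

/-- The values of the monodromy operator. -/
lemma val_mono (x : T.E1 W) (s : T.S) (c : ℕ) (hc : c ≤ T.rk s) :
    val (T.mono W x) s c = if 1 ≤ c then val x s (c - 1) else 0 := by
  unfold val
  rw [dif_pos (by omega), mono_apply]
  dsimp only
  by_cases h : 0 < c
  · rw [dif_pos h, if_pos (by omega), dif_pos (by omega)]
  · rw [dif_neg h, if_neg (by omega)]

lemma val_mono_pow (m : ℕ) (x : T.E1 W) (s : T.S) (c : ℕ) (hc : c ≤ T.rk s) :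
    val ((T.mono W ^ m) x) s c = if m ≤ c then val x s (c - m) else 0 := by
  induction m generalizing x with
  | zero => simp
  | succ m ih =>
    rw [pow_succ, Module.End.mul_apply, ih]
    by_cases h1 : m ≤ c
    · rw [if_pos h1, val_mono _ _ _ (by omega)]
      by_cases h2 : m + 1 ≤ c
      · rw [if_pos (by omega), if_pos h2]
        congr 1
      · rw [if_neg (by omega), if_neg h2]
    · rw [if_neg h1, if_neg (by omega)]

/-- The elements of `E_1^{a,b}`. -/
lemma mem_piece {x : T.E1 W} {a b : ℤ} : x ∈ T.piece W a b ↔ ∀ s c, c ≤ T.rk s →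
    (2 * (c : ℤ) - T.rk s = a → val x s c ∈ grZ (W.gr (T.Y s)) (b - 2 * ((T.rk s : ℤ) - c))) ∧
    (2 * (c : ℤ) - T.rk s ≠ a → val x s c = 0) := by
  rw [Strata.piece, Submodule.mem_pi]
  constructor
  · intro h s c hc
    have h1 := h ⟨s, ⟨c, by omega⟩⟩ (Set.mem_univ _)
    have h2 : val x s c = x ⟨s, ⟨c, by omega⟩⟩ := by
      unfold val
      rw [dif_pos (by omega)]
    rw [h2]
    dsimp only at h1
    constructor
    · intro h3
      rw [if_pos h3] at h1
      exact h1
    · intro h3
      rw [if_neg h3] at h1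
      exact (Submodule.mem_bot _).1 h1
  · intro h p _
    obtain ⟨h1, h2⟩ := h p.1 p.2.1 (by have := p.2.2; omega)
    rw [val_coe] at h1 h2
    split_ifs with h3
    · exact h1 h3
    · rw [Submodule.mem_bot]
      exact h2 h3

section Semi

variable {ι : Type} {W : ι → WeilCohomology.{u, v} ops}

/-- The strata with divisors. -/
def toGn (T : Strata 𝒱) (D : ∀ s, (T.Y s).Cycles) : K9h28.Strata 𝒱 where
  S := T.S
  rk := T.rk
  Y := T.Y
  D := D
  sgn := T.sgn
  incl := T.incl

lemma toGn_res (T : Strata 𝒱) (D : ∀ s, (T.Y s).Cycles) (W : WeilCohomology.{u, v} ops)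
    (s u : T.S) : (toGn T D).resL W s u = T.res W s u := rfl

lemma toGn_gys (T : Strata 𝒱) (D : ∀ s, (T.Y s).Cycles) (W : WeilCohomology.{u, v} ops)
    (s u : T.S) : (toGn T D).gysL W s u = T.gys W s u := rfl

lemma res_zero_of {V : WeilCohomology.{u, v} ops} {s u : T.S} (h : T.sgn s u = 0) :
    T.res V s u = 0 := by
  unfold Strata.res
  rw [dif_neg (by simpa using h)]

lemma gys_zero_of {V : WeilCohomology.{u, v} ops} {s u : T.S} (h : T.sgn s u = 0) :
    T.gys V s u = 0 := by
  unfold Strata.gys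
  rw [dif_neg (by simpa using h)]

lemma IsSNCL.res_res (hT : IsSNCL W T n) (l : ι) (s v : T.S) (x : (W l).H (T.Y v)) :
    ∑ u, T.res (W l) s u (T.res (W l) u v x) = 0 := by
  classical
  by_cases h0 : T.rk s = T.rk v + 2
  · let X : T.E1 (W l) := ofVal (W l) T fun u c => if h : u = v ∧ c = 0 then
      h.1 ▸ x else 0
    have hX : ∀ u c, c ≠ 0 ∨ u ≠ v → val X u c = 0 := by
      intro u c h1
      by_cases h2 : c ≤ T.rk u
      · rw [val_ofVal _ h2]
        exact dif_neg (by tauto)
      · exact val_of_lt _ (by omega)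
    have hX0 : val X v 0 = x := by
      rw [val_ofVal _ (Nat.zero_le _)]
      exact dif_pos ⟨rfl, rfl⟩
    have h1 : ∀ u, T.sgn s u ≠ 0 → val (T.diff (W l) X) u 1 = T.res (W l) u v x := by
      intro u hu
      have h2 := hT.rk_eq s u hu
      have h3 : ∑ w, T.gys (W l) w u (val X w 1) = 0 := by
        refine Finset.sum_eq_zero fun w _ => ?_
        rw [hX w 1 (Or.inl one_ne_zero), map_zero]
      rw [val_diff _ _ _ (by omega), if_pos le_rfl, h3, add_zero, Finset.sum_eq_single v,
        Nat.sub_self, hX0]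
      · intro w _ hw
        rw [hX w _ (Or.inr hw), map_zero]
      · intro h3
        exact absurd (Finset.mem_univ _) h3
    have h2 := congrArg (fun F => val (F X) s 2) (hT.diff_sq l)
    change val (T.diff (W l) (T.diff (W l) X)) s 2 = val 0 s 2 at h2
    have h4 : ∑ u, T.gys (W l) u s (val (T.diff (W l) X) u 2) = 0 := by
      refine Finset.sum_eq_zero fun u _ => ?_
      by_cases hu : T.sgn u s = 0
      · rw [gys_zero_of hu, LinearMap.zero_apply]
      · have h3 := hT.rk_eq u s hu
        have e1 : ∑ w, T.res (W l) u w (val X w (2 - 1)) = 0 := by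
          refine Finset.sum_eq_zero fun w _ => ?_
          rw [hX w _ (Or.inl (by norm_num)), map_zero]
        have e2 : ∑ w, T.gys (W l) w u (val X w 2) = 0 := by
          refine Finset.sum_eq_zero fun w _ => ?_
          rw [hX w 2 (Or.inl two_ne_zero), map_zero]
        rw [val_diff _ _ _ (by omega), if_pos (by norm_num), e1, e2, add_zero, map_zero]
    rw [val_zero, val_diff _ _ _ (by omega), if_pos (by norm_num), h4, add_zero] at h2
    rw [← h2]
    refine Finset.sum_congr rfl fun u _ => ?_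
    by_cases hu : T.sgn s u = 0
    · rw [res_zero_of hu, LinearMap.zero_apply, LinearMap.zero_apply]
    · rw [← h1 u hu]
  · refine Finset.sum_eq_zero fun u _ => ?_
    by_cases hu : T.sgn s u = 0
    · rw [res_zero_of hu, LinearMap.zero_apply]
    · by_cases hv : T.sgn u v = 0
      · rw [res_zero_of hv, LinearMap.zero_apply, map_zero]
      · have h1 := hT.rk_eq s u hu
        have h2 := hT.rk_eq u v hv
        omega

lemma IsSNCL.res_gys (hT : IsSNCL W T n) (l : ι) (s s' : T.S) (hs : 1 ≤ T.rk s)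
    (hs' : T.rk s = T.rk s') (x : (W l).H (T.Y s')) :
    ∑ v, T.res (W l) s v (T.gys (W l) s' v x) +
      ∑ u, T.gys (W l) u s (T.res (W l) u s' x) = 0 := by
  classical
  let X : T.E1 (W l) := ofVal (W l) T fun u c => if h : u = s' ∧ c = 0 then
    h.1 ▸ x else 0
  have hX : ∀ u c, c ≠ 0 ∨ u ≠ s' → val X u c = 0 := by
    intro u c h1
    by_cases h2 : c ≤ T.rk u
    · rw [val_ofVal _ h2]
      exact dif_neg (by tauto)
    · exact val_of_lt _ (by omega)
  have hX0 : val X s' 0 = x := by
    rw [val_ofVal _ (Nat.zero_le _)]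
    exact dif_pos ⟨rfl, rfl⟩
  have h1 : ∀ v, val (T.diff (W l) X) v 0 = T.gys (W l) s' v x := by
    intro v
    rw [val_diff _ _ _ (by omega), if_neg (by omega), zero_add, Finset.sum_eq_single s', hX0]
    · intro w _ hw
      rw [hX w _ (Or.inr hw), map_zero]
    · intro h3
      exact absurd (Finset.mem_univ _) h3
  have h2 : ∀ u, 1 ≤ T.rk u → val (T.diff (W l) X) u 1 = T.res (W l) u s' x := by
    intro u hu
    have h3 : ∑ w, T.gys (W l) w u (val X w 1) = 0 := by
      refine Finset.sum_eq_zero fun w _ => ?_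
      rw [hX w 1 (Or.inl one_ne_zero), map_zero]
    rw [val_diff _ _ _ (by omega), if_pos le_rfl, h3, add_zero, Finset.sum_eq_single s',
      Nat.sub_self, hX0]
    · intro w _ hw
      rw [hX w _ (Or.inr hw), map_zero]
    · intro h3
      exact absurd (Finset.mem_univ _) h3
  have h3 := congrArg (fun F => val (F X) s 1) (hT.diff_sq l)
  change val (T.diff (W l) (T.diff (W l) X)) s 1 = val 0 s 1 at h3
  rw [val_zero, val_diff _ _ _ (by omega), if_pos le_rfl] at h3
  rw [← h3]
  congr 1
  · refine Finset.sum_congr rfl fun v _ => ?_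
    rw [Nat.sub_self, h1]
  · refine Finset.sum_congr rfl fun u _ => ?_
    by_cases hu : T.sgn u s = 0
    · rw [gys_zero_of hu, LinearMap.zero_apply, LinearMap.zero_apply]
    · have h4 := hT.rk_eq u s hu
      rw [h2 u (by omega)]

/-- The relations of the restrictions and the Gysin maps. -/
lemma IsSNCL.semi (hT : IsSNCL W T n) {l : ι} {D : ∀ s, (T.Y s).Cycles}
    (hD : ∀ s, (T.Y s).IsCyc 1 (D s)) (hres : ∀ s u (h : T.sgn s u ≠ 0),
      (W l).cl (T.Y s) (D s) = (W l).map (T.incl s u h) ((W l).cl (T.Y u) (D u))) :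
    (toGn T D).IsSemi (W l) n where
  dim_add := hT.dim_add
  rk_eq := hT.rk_eq
  isCyc := hD
  cl_D := hres
  res_res := hT.res_res l
  res_gys := hT.res_gys l

end Semi

/-- The conjecture D for the square implies the conjecture D. -/
lemma homEqNum_of_sq {X : 𝒱.Obj} (h : HomEqNum W (X.prod X)) : HomEqNum W X := by
  refine h.image ⟨fst X X, X.dim, ops.push (diag X) X.V.fundCycle, 1, ?_, one_ne_zero, ?_⟩
  · have h1 := ops.push_mem (diag X) X.V.fundCycle_mem (q := X.dim)
      (by simp only [dim_prod]; omega)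
    exact h1
  · rw [W.cl_push, W.cl_fund, ← W.push_comp, one_smul]
    have h1 : diag X ≫ fst X X = 𝟙 X := by
      unfold diag
      rw [Obj.lift_fst]
    rw [h1, W.push_id]

/-- The lowering operators. -/
lemma exists_fa_of {D : ∀ s, (T.Y s).Cycles} (hP : IsPolarization W T D)
    (hD : ∀ s t, ConjectureD W ((T.Y s).prod (T.Y t))) (s : T.S) :
    ∃ f, FA W (T.Y s) (D s) f :=
  exists_fa (hP.mem s) (hP.hl s)
    (lefschetzA_of_D (hP.mem s) (hP.hl s) (homEqNum_of_sq (hD s s)))

end Pool.Agent.K9h28.Il
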