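import Pool.Agent.K9h28.MdB

/-!
# The kernel of the powers of `N`, up to boundaries
-/

set_option autoImplicit false
set_option linter.unusedSectionVars false

open CategoryTheory AlgebraicGeometry Module

universe u v

namespace Pool.Agent.K9h28.Il

open Pool.Agent.H914 Pool.Agent.H914.VarClass Pool.Agent.H914.VarClass.Obj
  Pool.Agent.H914.WeilCohomology Pool.Agent.W552

variable {k : Type u} [Field k] {𝒱 : VarClass k} {ops : CycleOps 𝒱} {ι : Type}
  {W : ι → WeilCohomology.{u, v} ops} {T : Strata 𝒱} {n : ℕ}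

lemma diff_diff (hT : IsSNCL W T n) (l : ι) (x : T.E1 (W l)) :
    T.diff (W l) (T.diff (W l) x) = 0 := congrArg (fun F => F x) (hT.diff_sq l)

lemma diff_mem_piece (hT : IsSNCL W T n) (l : ι) {x : T.E1 (W l)} {a b : ℤ}
    (hx : x ∈ T.piece (W l) a b) : T.diff (W l) x ∈ T.piece (W l) (a + 1) b := by
  rw [← PP_same hx, diff_PP hT.dim_add hT.rk_eq]
  exact PP_mem _ _ _

lemma mono_pow_diff (hT : IsSNCL W T n) (l : ι) (m : ℕ) (x : T.E1 (W l)) :
    (T.mono (W l) ^ m) (T.diff (W l) x) = T.diff (W l) ((T.mono (W l) ^ m) x) := by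
  induction m generalizing x with
  | zero => rfl
  | succ m ih =>
    rw [pow_succ, Module.End.mul_apply, Module.End.mul_apply, mono_diff hT.rk_eq, ih]

/-- **The kernel of `N ^ m`.** -/
theorem kernel_decomp (hT : IsSNCL W T n) (l : ι) {q : ℤ} {m : ℕ} (hm : 1 ≤ m)
    {x : T.E1 (W l)} (hx : x ∈ T.Z (W l) (-m) (q + m))
    (hN : (T.mono (W l) ^ m) x ∈ T.B (W l) m (q - m)) :
    ∃ (y : T.E1 (W l)) (X w : ∀ s, (W l).H (T.Y s)), y ∈ T.piece (W l) (-m - 1) (q + m) ∧
      (∀ s, T.rk s = m → X s ∈ grZ ((W l).gr (T.Y s)) (q - m)) ∧ (∀ s, T.rk s ≠ m → X s = 0) ∧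
      (∀ s, T.rk s + 1 = m → w s ∈ grZ ((W l).gr (T.Y s)) (q - m)) ∧
      (∀ s, T.rk s + 1 ≠ m → w s = 0) ∧
      (∀ s, X s = ∑ u, T.res (W l) s u (w u)) ∧ (∀ u, ∑ s, T.gys (W l) s u (X s) = 0) ∧
      x - T.diff (W l) y = ofVal (W l) T fun s c => if c = 0 then X s else 0 := by
  obtain ⟨hx1, hx2⟩ := hx
  obtain ⟨w₀, hw₀, hw₀'⟩ := hN
  change w₀ ∈ T.piece (W l) ((m : ℤ) - 1) (q - m) at hw₀
  rw [mem_piece] at hw₀
  set y : T.E1 (W l) := ofVal (W l) T fun s c => val w₀ s (c + m) with hy
  have hyv : ∀ s c, val y s c = val w₀ s (c + m) := by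
    intro s c
    by_cases h : c ≤ T.rk s
    · rw [hy, val_ofVal _ h]
    · rw [val_of_lt _ (by omega), val_of_lt _ (by omega)]
  have hyp : y ∈ T.piece (W l) (-m - 1) (q + m) := by
    rw [mem_piece]
    intro s c hc
    rw [hyv]
    by_cases h : c + m ≤ T.rk s
    · obtain ⟨h1, h2⟩ := hw₀ s (c + m) h
      constructor
      · intro h3
        have h4 := h1 (by push_cast; omega)
        convert h4 using 2
        push_cast
        ring
      · intro h3
        refine h2 fun h4 => h3 ?_
        push_cast at h4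
        omega
    · rw [val_of_lt _ (by omega)]
      exact ⟨fun _ => Submodule.zero_mem _, fun _ => rfl⟩
  set x' := x - T.diff (W l) y with hx'
  have hx'p : x' ∈ T.piece (W l) (-m) (q + m) := by
    refine Submodule.sub_mem _ hx2 ?_
    have h1 := diff_mem_piece hT l hyp
    rwa [sub_add_cancel] at h1
  have hx'd : T.diff (W l) x' = 0 := by
    rw [hx', map_sub, diff_diff hT, sub_zero]
    exact hx1
  rw [mem_piece] at hx'p
  set t := w₀ - (T.mono (W l) ^ m) y with ht
  have hNx' : (T.mono (W l) ^ m) x' = T.diff (W l) t := by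
    rw [hx', map_sub, mono_pow_diff hT, ← hw₀', ht, map_sub]
  set w : ∀ s, (W l).H (T.Y s) := fun s => if T.rk s + 1 = m then val w₀ s (m - 1) else 0 with hw
  have htv : ∀ s c, val t s c = if c + 1 = m then w s else 0 := by
    intro s c
    by_cases hc : c ≤ T.rk s
    · rw [ht, val_sub, val_mono_pow _ _ _ _ hc, hyv]
      by_cases h1 : m ≤ c
      · rw [if_pos h1, if_neg (by omega), Nat.sub_add_cancel h1, sub_self]
      · rw [if_neg h1, sub_zero]
        by_cases h2 : 2 * (c : ℤ) - T.rk s = m - 1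
        · have h3 : c + 1 = m := by omega
          have h4 : T.rk s + 1 = m := by omega
          rw [if_pos h3, hw]
          dsimp only
          rw [if_pos h4]
          congr 1
          omega
        · rw [(hw₀ s c hc).2 h2]
          by_cases h3 : c + 1 = m
          · rw [if_pos h3, hw]
            dsimp only
            rw [if_neg (by omega)]
          · rw [if_neg h3]
    · rw [val_of_lt _ (by omega)]
      by_cases h3 : c + 1 = m
      · rw [if_pos h3, hw]
        dsimp only
        rw [if_neg (by omega)]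
      · rw [if_neg h3]
  have hkey : ∀ s c, c ≤ T.rk s → 2 * (c : ℤ) - T.rk s = -m →
      val x' s c = if c = 0 then ∑ u, T.res (W l) s u (w u) else 0 := by
    intro s c hc h1
    have h2 : c + m ≤ T.rk s := by omega
    have h3 : val x' s c = val ((T.mono (W l) ^ m) x') s (c + m) := by
      rw [val_mono_pow _ _ _ _ h2, if_pos (by omega), Nat.add_sub_cancel]
    rw [h3, hNx', val_diff _ _ _ h2, if_pos (by omega)]
    have e1 : ∑ u, T.gys (W l) u s (val t u (c + m)) = 0 := by
      refine Finset.sum_eq_zero fun u _ => ?_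
      rw [htv, if_neg (by omega), map_zero]
    rw [e1, add_zero]
    by_cases h0 : c = 0
    · rw [if_pos h0]
      refine Finset.sum_congr rfl fun u _ => ?_
      rw [htv, if_pos (by omega)]
    · rw [if_neg h0]
      refine Finset.sum_eq_zero fun u _ => ?_
      rw [htv, if_neg (by omega), map_zero]
  refine ⟨y, fun s => val x' s 0, w, hyp, ?_, ?_, ?_, ?_, ?_, ?_, ?_⟩
  · intro s hs
    have h1 := (hx'p s 0 (Nat.zero_le _)).1 (by push_cast; omega)
    convert h1 using 2
    push_cast
    omega
  · intro s hs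
    exact (hx'p s 0 (Nat.zero_le _)).2 (by push_cast; omega)
  · intro s hs
    rw [hw]
    dsimp only
    rw [if_pos hs]
    have h1 := (hw₀ s (m - 1) (by omega)).1 (by omega)
    convert h1 using 2
    omega
  · intro s hs
    rw [hw]
    dsimp only
    rw [if_neg hs]
  · intro s
    dsimp only
    by_cases h0 : T.rk s = m
    · rw [hkey s 0 (Nat.zero_le _) (by push_cast; omega), if_pos rfl]
    · rw [(hx'p s 0 (Nat.zero_le _)).2 (by push_cast; omega)]
      symm
      refine Finset.sum_eq_zero fun u _ => ?_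
      by_cases hu : T.sgn s u = 0
      · rw [res_zero_of hu, LinearMap.zero_apply]
      · have h1 := hT.rk_eq s u hu
        rw [hw]
        dsimp only
        rw [if_neg (by omega), map_zero]
  · intro u
    have h1 := val_diff x' u 0 (Nat.zero_le _)
    rw [hx'd, val_zero, if_neg (by omega), zero_add] at h1
    exact h1.symm
  · apply E1_ext
    intro s c hc
    rw [val_ofVal _ hc]
    by_cases h0 : c = 0
    · rw [if_pos h0, h0]
    · rw [if_neg h0]
      by_cases h1 : 2 * (c : ℤ) - T.rk s = -m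
      · rw [hkey s c hc h1, if_neg h0]
      · exact (hx'p s c hc).2 h1

end Pool.Agent.K9h28.Il
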