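import Pool.Agent.K9h28.MdC

/-!
# Families of algebraic classes in the kernel of the powers of `N`
-/

set_option autoImplicit false
set_option linter.unusedSectionVars false

open CategoryTheory AlgebraicGeometry Module

universe u v

namespace Pool.Agent.K9h28.Il

open Pool.Agent.H914 Pool.Agent.H914.VarClass Pool.Agent.H914.VarClass.Obj
  Pool.Agent.H914.WeilCohomology Pool.Agent.W552

variable {k : Type u} [Field k] {𝒱 : VarClass k} {ops : CycleOps 𝒱} {ι : Type}
  {W : ι → WeilCohomology.{u, v} ops} {T : Strata 𝒱} {n : ℕ}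

/-- The element of the `E_1` term concentrated in the copies `(s, 0)`. -/
def base (V : WeilCohomology.{u, v} ops) (T : Strata 𝒱) (X : ∀ s, V.H (T.Y s)) : T.E1 V :=
  ofVal V T fun s c => if c = 0 then X s else 0

/-- The families `X` of classes on the strata of rank `m` (of degree `j`) which are restrictions of
families on the strata of rank `m - 1`, and whose Gysin images vanish. -/
structure IsObstruction (V : WeilCohomology.{u, v} ops) (T : Strata 𝒱) (m : ℕ) (j : ℤ)
    (X w : ∀ s, V.H (T.Y s)) : Prop where
  gr : ∀ s, T.rk s = m → X s ∈ grZ (V.gr (T.Y s)) j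
  gr' : ∀ s, T.rk s + 1 = m → w s ∈ grZ (V.gr (T.Y s)) j
  ne : ∀ s, T.rk s ≠ m → X s = 0
  ne' : ∀ s, T.rk s + 1 ≠ m → w s = 0
  res : ∀ s, X s = ∑ u, T.res V s u (w u)
  gys : ∀ u, ∑ s, T.gys V s u (X s) = 0

lemma base_mem_piece {V : WeilCohomology.{u, v} ops} {m : ℕ} {q : ℤ} {X w : ∀ s, V.H (T.Y s)}
    (h : IsObstruction V T m (q - m) X w) : base V T X ∈ T.piece V (-m) (q + m) := by
  rw [mem_piece]
  intro s c hc
  rw [base, val_ofVal _ hc]
  by_cases h0 : c = 0
  · rw [if_pos h0]
    subst h0
    constructor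
    · intro h1
      have h2 : T.rk s = m := by push_cast at h1; omega
      have h3 := h.gr s h2
      convert h3 using 2
      push_cast
      omega
    · intro h1
      exact h.ne s (by push_cast at h1; omega)
  · rw [if_neg h0]
    exact ⟨fun _ => Submodule.zero_mem _, fun _ => rfl⟩

lemma alg_mw' (hT : IsSNCL W T n) (l : ι) {D : ∀ s, (T.Y s).Cycles}
    (hP : IsPolarization (W l) T D) (hD : ∀ s t, ConjectureD (W l) ((T.Y s).prod (T.Y t)))
    {m : ℕ} {x η : ∀ s, ℕ → (W l).H (T.Y s)} (hx : ∀ s c, AS (W l) (T.Y s) (x s c))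
    (hη : ∀ s c, AS (W l) (T.Y s) (η s c)) (hx0 : ∀ s c, T.rk s < c → x s c = 0)
    (hη0 : ∀ s c, T.rk s < c → η s c = 0)
    (hw : ∀ s c, c ≤ T.rk s → x s c ≠ 0 → 2 * c + m = T.rk s)
    (hcl : ∀ s c, c ≤ T.rk s → (if 1 ≤ c then ∑ u, T.res (W l) s u (x u (c - 1)) else 0) +
      ∑ u, T.gys (W l) u s (x u c) = 0)
    (hN : ∀ s c, c ≤ T.rk s → (if m ≤ c then x s (c - m) else 0) =
      (if 1 ≤ c then ∑ u, T.res (W l) s u (η u (c - 1)) else 0) + ∑ u, T.gys (W l) u s (η u c)) :
    ∃ ω : ∀ s, ℕ → (W l).H (T.Y s), ∀ s c, c ≤ T.rk s → x s c =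
        (if 1 ≤ c then ∑ u, T.res (W l) s u (ω u (c - 1)) else 0) +
          ∑ u, T.gys (W l) u s (ω u c) := by
  choose f hf using exists_fa_of hP hD
  obtain ⟨ω, -, hω⟩ := alg_mw (T := toGn T D) (hT.semi hP.mem hP.restrict) hf hP.hl
    hP.ht hx hη hx0 hη0 hw hcl hN
  exact ⟨ω, hω⟩

/-- **Families of algebraic classes which obstruct the monodromy-weight property are
boundaries.** -/
theorem alg_mem_B (hT : IsSNCL W T n) (l : ι) {D : ∀ s, (T.Y s).Cycles}
    (hP : IsPolarization (W l) T D) (hD : ∀ s t, ConjectureD (W l) ((T.Y s).prod (T.Y t)))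
    {q : ℤ} {m : ℕ} (hm : 1 ≤ m) {X w : ∀ s, (W l).H (T.Y s)}
    (hX : ∀ s, AS (W l) (T.Y s) (X s)) (hw : ∀ s, AS (W l) (T.Y s) (w s))
    (h : IsObstruction (W l) T m (q - m) X w) :
    base (W l) T X ∈ T.B (W l) (-m) (q + m) := by
  obtain ⟨ω, hω⟩ := alg_mw' hT l hP hD (m := m) (x := fun s c => if c = 0 then X s else 0)
    (η := fun s c => if c + 1 = m then w s else 0) (fun s c => by
      split_ifs
      · exact hX s
      · exact AS.zero) (fun s c => by
      split_ifs
      · exact hw s
      · exact AS.zero) (fun s c hc => by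
      rw [if_neg]
      rintro rfl
      exact Nat.not_lt_zero _ hc) (fun s c hc => by
      split_ifs with h0
      · refine h.ne' s ?_
        omega
      · rfl) (fun s c hc hne => by
      by_cases h0 : c = 0
      · rw [if_pos h0] at hne
        subst h0
        have h1 : T.rk s = m := by
          by_contra h2
          exact hne (h.ne s h2)
        omega
      · rw [if_neg h0] at hne
        exact absurd rfl hne) (fun s c hc => by
      rcases c with _ | c
      · rw [if_neg (by omega), zero_add]
        simpa using h.gys s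
      · have e1 : ∑ u, T.gys (W l) u s (if c + 1 = 0 then X u else 0) = 0 := by
          refine Finset.sum_eq_zero fun u _ => ?_
          rw [if_neg (by omega), map_zero]
        rw [if_pos (by omega), e1, add_zero, Nat.add_sub_cancel]
        by_cases h0 : c = 0
        · have e2 : ∀ u, T.res (W l) s u (if c = 0 then X u else 0) =
              ∑ v, T.res (W l) s u (T.res (W l) u v (w v)) := by
            intro u
            rw [if_pos h0, h.res u, map_sum]
          rw [Finset.sum_congr rfl fun u _ => e2 u, Finset.sum_comm]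
          exact Finset.sum_eq_zero fun v _ => hT.res_res l s v (w v)
        · refine Finset.sum_eq_zero fun u _ => ?_
          rw [if_neg h0, map_zero]) (fun s c hc => by
      have e1 : ∑ u, T.gys (W l) u s (if c + 1 = m then w u else 0) = 0 := by
        refine Finset.sum_eq_zero fun u _ => ?_
        by_cases hu : T.sgn u s = 0
        · rw [gys_zero_of hu, LinearMap.zero_apply]
        · have h1 := hT.rk_eq u s hu
          by_cases h0 : c + 1 = m
          · rw [if_pos h0, h.ne' u (by omega), map_zero]
          · rw [if_neg h0, map_zero]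
      rw [e1, add_zero]
      by_cases h0 : c = m
      · rw [if_pos (by omega), if_pos (by omega), if_pos (by omega), h.res s]
        refine Finset.sum_congr rfl fun u _ => ?_
        rw [if_pos (by omega)]
      · have e2 : (if 1 ≤ c then ∑ u, T.res (W l) s u (if c - 1 + 1 = m then w u else 0)
            else 0) = 0 := by
          by_cases h1 : 1 ≤ c
          · rw [if_pos h1]
            refine Finset.sum_eq_zero fun u _ => ?_
            rw [if_neg (by omega), map_zero]
          · rw [if_neg h1]
        rw [e2]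
        by_cases h1 : m ≤ c
        · rw [if_pos h1, if_neg (by omega)]
        · rw [if_neg h1])
  have h1 : base (W l) T X = T.diff (W l) (ofVal (W l) T ω) := by
    apply E1_ext
    intro s c hc
    rw [base, val_ofVal _ hc, val_diff _ _ _ hc]
    refine (hω s c hc).trans ?_
    congr 1
    · split_ifs with h0
      · refine Finset.sum_congr rfl fun u _ => ?_
        by_cases hu : T.sgn s u = 0
        · rw [res_zero_of hu, LinearMap.zero_apply, LinearMap.zero_apply]
        · have h2 := hT.rk_eq s u hu
          rw [val_ofVal _ (by omega)]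
      · rfl
    · refine Finset.sum_congr rfl fun u _ => ?_
      by_cases hu : T.sgn u s = 0
      · rw [gys_zero_of hu, LinearMap.zero_apply, LinearMap.zero_apply]
      · have h2 := hT.rk_eq u s hu
        rw [val_ofVal _ (by omega)]
  have h2 := diff_PP hT.dim_add hT.rk_eq (-m - 1) (q + m) (ofVal (W l) T ω)
  rw [sub_add_cancel, ← h1, PP_same (base_mem_piece h)] at h2
  exact ⟨_, PP_mem _ _ _, h2⟩

end Pool.Agent.K9h28.Il
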