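import Pool.Agent.K9h28.MdD

/-!
# The projector onto the obstructions is given by algebraic correspondences
-/

set_option autoImplicit false
set_option linter.unusedSectionVars false

open CategoryTheory AlgebraicGeometry Module

universe u v

namespace Pool.Agent.K9h28.Il

open Pool.Agent.H914 Pool.Agent.H914.VarClass Pool.Agent.H914.VarClass.Obj
  Pool.Agent.H914.WeilCohomology Pool.Agent.W552

section Mat

variable {K : Type*} [Field K] {J : Type} [Fintype J] {M : J → Type*}
  [∀ p, AddCommGroup (M p)] [∀ p, Module K (M p)]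

lemma entry_matrixOp (A : ∀ p q, M q →ₗ[K] M p) (p q : J) : entry (matrixOp A) p q = A p q := by
  classical
  apply LinearMap.ext
  intro x
  rw [entry_def, LinearMap.comp_apply, LinearMap.comp_apply, matrixOp,
    LinearMap.proj_apply, LinearMap.pi_apply, LinearMap.sum_apply, Finset.sum_eq_single q]
  · rw [LinearMap.comp_apply, LinearMap.proj_apply, LinearMap.coe_single, Pi.single_eq_same]
  · intro r _ hr
    rw [LinearMap.comp_apply, LinearMap.proj_apply, LinearMap.coe_single,
      Pi.single_eq_of_ne hr, map_zero]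
  · intro h
    exact absurd (Finset.mem_univ q) h

lemma matrixOp_apply (A : ∀ p q, M q →ₗ[K] M p) (x : ∀ p, M p) (p : J) :
    matrixOp A x p = ∑ q, A p q (x q) := by
  rw [matrixOp, LinearMap.pi_apply, LinearMap.sum_apply]
  rfl

end Mat

variable {k : Type u} [Field k] {𝒱 : VarClass k} {ops : CycleOps 𝒱}

section One

variable {W : WeilCohomology.{u, v} ops} {X Y : 𝒱.Obj}

lemma tr_gys' {T : Strata 𝒱} {s u : T.S} (a : W.H (T.Y s)) (b : W.H (T.Y u)) :
    W.tr (T.Y u) (T.gys W s u a * b) = W.tr (T.Y s) (a * T.res W s u b) := by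
  unfold Strata.gys Strata.res
  split_ifs with h
  · rw [LinearMap.smul_apply, LinearMap.smul_apply, smul_mul_assoc, mul_smul_comm, map_smul,
      map_smul, W.tr_push]
    rfl
  · rw [LinearMap.zero_apply, LinearMap.zero_apply, zero_mul, mul_zero, map_zero, map_zero]

lemma gys_pow {T : Strata 𝒱} {D : ∀ s, (T.Y s).Cycles} (hP : IsPolarization W T D) {s u : T.S}
    (r : ℕ) (a : W.H (T.Y s)) : T.gys W s u (W.cl (T.Y s) (D s) ^ r * a) =
      W.cl (T.Y u) (D u) ^ r * T.gys W s u a := by
  unfold Strata.gys
  split_ifs with h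
  · rw [LinearMap.smul_apply, LinearMap.smul_apply, mul_smul_comm,
      W.mul_push (T.incl s u h) (mulLeft_even' (W.cl_mem (hP.mem u)) r), map_pow,
      ← hP.restrict s u h]
  · rw [LinearMap.zero_apply, LinearMap.zero_apply, mul_zero]

lemma res_gr {T : Strata 𝒱} {s u : T.S} {j : ℤ} {a : W.H (T.Y u)}
    (ha : a ∈ grZ (W.gr (T.Y u)) j) : T.res W s u a ∈ grZ (W.gr (T.Y s)) j := by
  unfold Strata.res
  split_ifs with h
  · rw [LinearMap.smul_apply]
    refine Submodule.smul_mem _ _ ?_
    by_cases hj : 0 ≤ j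
    · lift j to ℕ using hj
      rw [grZ_natCast] at ha ⊢
      exact W.map_mem _ ha
    · rw [grZ_of_neg (by omega)] at ha ⊢
      rw [(Submodule.mem_bot _).1 ha]
      exact map_zero (W.map (T.incl s u h))
  · rw [LinearMap.zero_apply]
    exact Submodule.zero_mem _

/-- A correspondence of codimension `dim X` is the part of degree zero. -/
lemma proj_corr {z : ℕ → (X.prod Y).Cycles} (hz : ∀ n, (X.prod Y).IsCyc n (z n)) {j : ℕ}
    {a : W.H X} (ha : a ∈ W.gr X j) : proj (W.isInternal Y) j
      (W.corr (∑ n ∈ Finset.range ((X.prod Y).dim + 1), W.cl _ (z n)) a) =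
      W.corr (W.cl _ (z X.dim)) a := by
  rw [corr_apply, Finset.sum_mul, map_sum, map_sum, Finset.sum_eq_single X.dim]
  · have h1 := W.push_mem (snd X Y) (W.mul_mem (W.cl_mem (hz X.dim)) (W.map_mem (fst X Y) ha))
    rw [← corr_apply, show ((2 * X.dim + j : ℕ) : ℤ) + 2 * ((Y.dim : ℤ) - (X.prod Y).dim) =
      (j : ℤ) by simp only [dim_prod]; push_cast; ring, grZ_natCast] at h1
    rw [← corr_apply, proj_same _ h1]
  · intro n _ hn
    have h1 := W.push_mem (snd X Y) (W.mul_mem (W.cl_mem (hz n)) (W.map_mem (fst X Y) ha))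
    have h2 := projZ_ne (W.isInternal Y) (j := (j : ℤ)) (by
      simp only [dim_prod]
      push_cast
      omega) h1
    unfold projZ at h2
    rw [if_pos (by omega), Int.toNat_natCast] at h2
    exact h2
  · intro h
    exact absurd (Finset.mem_range.2 (by simp only [dim_prod]; omega)) h

end One

variable {ι : Type} {W : ι → WeilCohomology.{u, v} ops} {T : Strata 𝒱} {n : ℕ}

/-- The operators in the system preserve the families of sums of algebraic classes. -/
lemma mat_AS {a : ∀ i, End (W i).K (∀ s, (W i).H (T.Y s))} (ha : a ∈ MatSys W T.Y) (l : ι)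
    {x : ∀ s, (W l).H (T.Y s)} (hx : ∀ s, AS (W l) (T.Y s) (x s)) (s : T.S) :
    AS (W l) (T.Y s) (a l x s) := by
  rw [apply_eq_sum]
  have h1 : ∀ t, AS (W l) (T.Y s) (entry (a l) s t (x t)) := by
    intro t
    obtain ⟨z, hz, h2⟩ := Corrs.decomp (ha s t)
    rw [h2 l]
    refine AS.corr ?_ (hx t)
    have h3 : ∀ m, AS (W l) ((T.Y t).prod (T.Y s)) (∑ n ∈ Finset.range m, (W l).cl _ (z n)) := by
      intro m
      induction m with
      | zero => simpa using AS.zero
      | succ m ih =>
        rw [Finset.sum_range_succ]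
        exact ih.add (AS.of ⟨_, hz m, rfl⟩)
    exact h3 _
  exact Finset.sum_induction _ (AS (W l) (T.Y s)) (fun _ _ => AS.add) AS.zero fun t _ => h1 t

/-- The sum of all the restrictions. -/
noncomputable def resO (W : WeilCohomology.{u, v} ops) (T : Strata 𝒱) :
    End W.K (∀ s, W.H (T.Y s)) :=
  matrixOp (M := fun s => W.H (T.Y s)) fun s u => T.res W s u

/-- The sum of all the Gysin maps. -/
noncomputable def gysO (W : WeilCohomology.{u, v} ops) (T : Strata 𝒱) :
    End W.K (∀ s, W.H (T.Y s)) :=
  matrixOp (M := fun s => W.H (T.Y s)) fun u s => T.gys W s u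

/-- The entries of the projector onto the cohomology in degree `j` of the strata of rank `r`. -/
noncomputable def diagO (W : WeilCohomology.{u, v} ops) (T : Strata 𝒱) (r : ℕ) (j : ℤ) (s : T.S) :
    End W.K (W.H (T.Y s)) := if T.rk s = r then projZ (W.isInternal (T.Y s)) j else 0

/-- The projector onto the cohomology in degree `j` of the strata of rank `r`. -/
noncomputable def piO (W : WeilCohomology.{u, v} ops) (T : Strata 𝒱) (r : ℕ) (j : ℤ) :
    End W.K (∀ s, W.H (T.Y s)) := LinearMap.pi fun s => diagO W T r j s ∘ₗ LinearMap.proj s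

lemma piO_apply' {V : WeilCohomology.{u, v} ops} (r : ℕ) (j : ℤ) (x : ∀ s, V.H (T.Y s))
    (s : T.S) : piO V T r j x s = diagO V T r j s (x s) := rfl

lemma resO_mem : (fun i => resO (W i) T) ∈ MatSys W T.Y := by
  intro s u
  refine (congrArg (· ∈ Corrs W (T.Y u) (T.Y s)) (funext fun i => ?_)).mpr (res_mem s u)
  exact entry_matrixOp _ s u

lemma gysO_mem : (fun i => gysO (W i) T) ∈ MatSys W T.Y := by
  intro s u
  refine (congrArg (· ∈ Corrs W (T.Y u) (T.Y s)) (funext fun i => ?_)).mpr (gys_mem u s)
  exact entry_matrixOp _ s u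

lemma piO_mem (hK : ∀ s, HasKunneth W (T.Y s)) (r : ℕ) (j : ℤ) :
    (fun i => piO (W i) T r j) ∈ MatSys W T.Y := by
  classical
  intro p q
  by_cases h1 : q = p
  · subst h1
    by_cases h2 : T.rk q = r
    · by_cases h3 : 0 ≤ j
      · refine (congrArg (· ∈ Corrs W (T.Y q) (T.Y q)) (funext fun i => ?_)).mpr
          ((hK q).proj_mem j.toNat)
        apply LinearMap.ext
        intro x
        rw [entry_def, LinearMap.comp_apply, LinearMap.comp_apply, LinearMap.proj_apply,
          piO_apply', LinearMap.coe_single, Pi.single_eq_same, diagO, if_pos h2, projZ, if_pos h3]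
      · refine (congrArg (· ∈ Corrs W (T.Y q) (T.Y q)) (funext fun i => ?_)).mpr Corrs.zero
        apply LinearMap.ext
        intro x
        rw [entry_def, LinearMap.comp_apply, LinearMap.comp_apply, LinearMap.proj_apply,
          piO_apply', LinearMap.coe_single, Pi.single_eq_same, diagO, if_pos h2, projZ, if_neg h3]
    · refine (congrArg (· ∈ Corrs W (T.Y q) (T.Y q)) (funext fun i => ?_)).mpr Corrs.zero
      apply LinearMap.ext
      intro x
      rw [entry_def, LinearMap.comp_apply, LinearMap.comp_apply, LinearMap.proj_apply,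
        piO_apply', LinearMap.coe_single, Pi.single_eq_same, diagO, if_neg h2]
  · refine (congrArg (· ∈ Corrs W (T.Y q) (T.Y p)) (funext fun i => ?_)).mpr Corrs.zero
    apply LinearMap.ext
    intro x
    rw [entry_def, LinearMap.comp_apply, LinearMap.comp_apply, LinearMap.proj_apply,
      piO_apply', LinearMap.coe_single, Pi.single_eq_of_ne (Ne.symm h1), map_zero]
    rfl

lemma piO_apply {V : WeilCohomology.{u, v} ops} (r : ℕ) (j : ℤ) (x : ∀ s, V.H (T.Y s)) (s : T.S) :
    piO V T r j x s = if T.rk s = r then projZ (V.isInternal (T.Y s)) j (x s) else 0 := by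
  change diagO V T r j s (x s) = _
  unfold diagO
  split_ifs <;> rfl

/-- **The projector onto the obstructions.** -/
theorem exists_projector (hT : IsSNCL W T n) {l : ι}
    (hD : ∀ s t, ConjectureD (W l) ((T.Y s).prod (T.Y t))) {m : ℕ} (hm : 1 ≤ m) (j : ℤ) :
    ∃ e ∈ MatSys W T.Y, ∃ g ∈ MatSys W T.Y,
      (∀ x, IsObstruction (W l) T m j (e l x) (g l x)) ∧
      ∀ X w, IsObstruction (W l) T m j X w → e l X = X := by
  have hA := isSystem_mat (W := W) (X := T.Y) hT.kunneth
  have hl := nonDeg_mat (W := W) (X := T.Y) hT.kunneth (l := l) fun p q => hD p q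
  have ha := hA.mul (resO_mem (W := W) (T := T)) (piO_mem (T := T) hT.kunneth (m - 1) j)
  have hh := gysO_mem (W := W) (T := T)
  obtain ⟨c, hc, hc1⟩ := hA.regular hl (hA.mul hh ha)
  have hf := hA.mul ha (hA.sub hA.one (hA.mul hc (hA.mul hh ha)))
  obtain ⟨g, hg, hg1⟩ := hA.regular hl hf
  -- the operators at the index `l`
  set a : ∀ i, End (W i).K (∀ s, (W i).H (T.Y s)) :=
    fun i => resO (W i) T * piO (W i) T (m - 1) j with ha_def
  set h : ∀ i, End (W i).K (∀ s, (W i).H (T.Y s)) := fun i => gysO (W i) T with hh_def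
  set b : ∀ i, End (W i).K (∀ s, (W i).H (T.Y s)) := fun i => 1 - c i * (h i * a i) with hb_def
  have hhf : ∀ x, h l (a l (b l x)) = 0 := by
    intro x
    have h1 := congrArg (fun F => F x) hc1
    change (h l) (a l (c l (h l (a l x)))) = h l (a l x) at h1
    change (h l) (a l (x - c l (h l (a l x)))) = 0
    rw [map_sub, map_sub, h1, sub_self]
  have hapi : ∀ x, a l x = resO (W l) T (piO (W l) T (m - 1) j x) := fun x => rfl
  have hobs : ∀ y, IsObstruction (W l) T m j (a l (b l y)) (piO (W l) T (m - 1) j (b l y)) := by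
    intro y
    have hres : ∀ s, a l (b l y) s =
        ∑ u, T.res (W l) s u (piO (W l) T (m - 1) j (b l y) u) := by
      intro s
      rw [hapi, resO, matrixOp_apply]
    refine ⟨?_, fun s hs => ?_, ?_, ?_, hres, ?_⟩
    rotate_left
    · rw [piO_apply, if_pos (by omega)]
      exact projZ_mem _ _ _
    rotate_left
    rotate_left
    rotate_left
    · intro s _
      rw [hres]
      refine Submodule.sum_mem _ fun u _ => res_gr ?_
      rw [piO_apply]
      split_ifs
      · exact projZ_mem _ _ _
      · exact Submodule.zero_mem _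
    · intro s hs
      rw [hres]
      refine Finset.sum_eq_zero fun u _ => ?_
      by_cases hu : T.sgn s u = 0
      · rw [res_zero_of hu, LinearMap.zero_apply]
      · have h1 := hT.rk_eq s u hu
        rw [piO_apply, if_neg (by omega), map_zero]
    · intro s hs
      rw [piO_apply, if_neg (by omega)]
    · intro u
      have h1 := congrFun (hhf y) u
      rw [Pi.zero_apply] at h1
      rw [← h1]
      change _ = gysO (W l) T _ u
      rw [gysO, matrixOp_apply]
  refine ⟨_, hA.mul hf hg, _, hA.mul (piO_mem (T := T) hT.kunneth (m - 1) j)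
    (hA.mul (hA.sub hA.one (hA.mul hc (hA.mul hh ha))) hg), fun x => hobs (g l x), ?_⟩
  intro X w hX
  have h1 : a l w = X := by
    funext s
    rw [hapi, resO, matrixOp_apply, hX.res s]
    refine Finset.sum_congr rfl fun u _ => ?_
    rw [piO_apply]
    by_cases hu : T.rk u + 1 = m
    · rw [if_pos (by omega), projZ_same _ (hX.gr' u hu)]
    · rw [hX.ne' u hu, map_zero]
      split_ifs <;> rw [map_zero]
  have h2 : h l X = 0 := by
    funext u
    change gysO (W l) T X u = 0
    rw [gysO, matrixOp_apply]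
    exact hX.gys u
  have h3 : a l (b l w) = X := by
    change a l (w - c l (h l (a l w))) = X
    rw [h1, h2, map_zero, sub_zero, h1]
  have h4 := congrArg (fun F => F w) hg1
  change a l (b l (g l (a l (b l w)))) = a l (b l w) at h4
  rw [h3] at h4
  exact h4

end Pool.Agent.K9h28.Il
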