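import Pool.Agent.K9h28.MdE

/-!
# Injectivity of the powers of `N`
-/

set_option autoImplicit false
set_option linter.unusedSectionVars false

open CategoryTheory AlgebraicGeometry Module

universe u v

namespace Pool.Agent.K9h28.Il

open Pool.Agent.H914 Pool.Agent.H914.VarClass Pool.Agent.H914.VarClass.Obj
  Pool.Agent.H914.WeilCohomology Pool.Agent.W552

variable {k : Type u} [Field k] {𝒱 : VarClass k} {ops : CycleOps 𝒱}
  {ι : Type} {W : ι → WeilCohomology.{u, v} ops} {T : Strata 𝒱} {n : ℕ}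

/-- The extension by zero. -/
def extZ (V : WeilCohomology.{u, v} ops) (T : Strata 𝒱) (m : ℕ) (x : T.HRank V m) :
    ∀ s, V.H (T.Y s) := fun s => if h : T.rk s = m then x ⟨s, h⟩ else 0

lemma sum_rank {m : ℕ} {M : Type*} [AddCommMonoid M]
    (F : T.S → M) (hF : ∀ s, T.rk s ≠ m → F s = 0) : ∑ s, F s = ∑ s : T.OfRank m, F s.el := by
  classical
  have h1 : ∑ s : T.OfRank m, F s.el = ∑ s : {s : T.S // T.rk s = m}, F s.1 := rfl
  rw [h1, ← Finset.sum_subtype (Finset.univ.filter fun s => T.rk s = m) (fun s => by simp) F]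
  symm
  apply Finset.sum_subset (Finset.filter_subset _ _)
  intro s _ hs
  apply hF
  intro h
  exact hs (by simp [h])

/-- The obstructions are isotropic. -/
lemma form_zero {V : WeilCohomology.{u, v} ops} {D : ∀ s, (T.Y s).Cycles}
    (hP : IsPolarization V T D) {m r : ℕ} {j : ℤ} {X w X' w' : ∀ s, V.H (T.Y s)}
    (h : IsObstruction V T m j X w) (h' : IsObstruction V T m j X' w') :
    ∑ s : T.OfRank m, V.tr (T.Y s.el) (V.cl (T.Y s.el) (D s.el) ^ r * (X s.el * X' s.el)) = 0 := by
  rw [← sum_rank (fun s => V.tr (T.Y s) (V.cl (T.Y s) (D s) ^ r * (X s * X' s))) fun s hs => by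
    rw [h.ne s hs, zero_mul, mul_zero, map_zero]]
  have h1 : ∀ s, V.tr (T.Y s) (V.cl (T.Y s) (D s) ^ r * (X s * X' s)) =
      ∑ u, V.tr (T.Y u) (V.cl (T.Y u) (D u) ^ r * T.gys V s u (X s) * w' u) := by
    intro s
    rw [← mul_assoc, h'.res s, Finset.mul_sum, map_sum]
    refine Finset.sum_congr rfl fun u _ => ?_
    rw [← tr_gys', gys_pow hP]
  rw [Finset.sum_congr rfl fun s _ => h1 s, Finset.sum_comm]
  refine Finset.sum_eq_zero fun u _ => ?_
  rw [← map_sum, ← Finset.sum_mul, ← Finset.mul_sum, h.gys u, mul_zero, zero_mul, map_zero]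

/-- **The obstructions are linear combinations of algebraic classes.** -/
theorem obstruction_algebraic (hT : IsSNCL W T n) {l : ι}
    (hD : ∀ s t, ConjectureD (W l) ((T.Y s).prod (T.Y t))) {D : ∀ s, (T.Y s).Cycles}
    (hP : IsPolarization (W l) T D) {q : ℕ} (hI : T.IsotropicAlgebraic (W l) n q D) {m : ℕ}
    (hm : 1 ≤ m) {X w : ∀ s, (W l).H (T.Y s)}
    (h : IsObstruction (W l) T m ((q : ℤ) - m) X w) (s : T.S) :
    IsAlgebraic (W l) (X s) := by
  by_cases hs : T.rk s = m
  swap
  · rw [h.ne s hs]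
    exact Submodule.zero_mem _
  by_cases hmq : m < q
  swap
  · have h1 := h.gr s hs
    by_cases h0 : m = q
    · rw [h0, sub_self, show (0 : ℤ) = ((0 : ℕ) : ℤ) by rfl, grZ_natCast, (W l).gr_zero] at h1
      refine Submodule.span_mono ?_ h1
      rintro _ rfl
      exact Set.mem_iUnion.2 ⟨0, (T.Y s).V.fundCycle, (T.Y s).V.fundCycle_mem, (W l).cl_fund _⟩
    · rw [grZ_of_neg (by omega)] at h1
      rw [(Submodule.mem_bot _).1 h1]
      exact Submodule.zero_mem _
  obtain ⟨j, hj⟩ : ∃ j : ℕ, j = q - m := ⟨_, rfl⟩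
  have hjz : (q : ℤ) - m = (j : ℤ) := by omega
  rw [hjz] at h
  obtain ⟨e, he, g, -, heg, hfix⟩ := exists_projector hT hD hm (j : ℤ)
  choose z hz hz' using fun s t => Corrs.decomp (he s t)
  let z' : T.CyclesRank m := fun s t => z s.el t.el (T.Y t.el).dim
  have hgr : ∀ x s, T.rk s = m → e l x s ∈ (W l).gr (T.Y s) j := by
    intro x s hs
    have h1 := (heg x).gr s hs
    rwa [grZ_natCast] at h1
  have key : ∀ x : T.HRank (W l) m, T.AreDeg (W l) j x → ∀ s : T.OfRank m,
      T.opRank (W l) z' x s = e l (extZ (W l) T m x) s.el := by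
    intro x hx s
    rw [← proj_same ((W l).isInternal (T.Y s.el)) (hgr _ s.el s.2),
      apply_eq_sum, map_sum, sum_rank (m := m)]
    · refine Finset.sum_congr rfl fun t _ => ?_
      rw [hz' s.el t.el l]
      have h2 : extZ (W l) T m x t.el = x t := by
        rw [extZ]
        exact dif_pos t.2
      rw [h2, proj_corr (hz s.el t.el) (hx t)]
      rfl
    · intro t ht
      rw [extZ, dif_neg ht, map_zero, map_zero]
  have hext : ∀ x : T.HRank (W l) m, T.AreDeg (W l) j x →
      extZ (W l) T m (T.opRank (W l) z' x) = e l (extZ (W l) T m x) := by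
    intro x hx
    funext s
    rw [extZ]
    split_ifs with h0
    · exact key x hx ⟨s, h0⟩
    · rw [(heg _).ne s h0]
  have hmem : ∀ x : T.HRank (W l) m, T.AreDeg (W l) j x →
      T.AreDeg (W l) j (T.opRank (W l) z' x) := by
    intro x hx s
    rw [key x hx s]
    exact hgr _ s.el s.2
  have hiso : T.IsIsotropic (W l) D (n - q) j z' := by
    refine ⟨fun s t => hz s.el t.el _, fun x hx => ?_, fun x y hx hy => ?_⟩
    · funext s
      rw [key _ (hmem x hx) s, hext x hx, hfix _ _ (heg _), ← key x hx s]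
    · have h1 := form_zero (r := n - q) hP (heg (extZ (W l) T m x)) (heg (extZ (W l) T m y))
      rw [← h1]
      refine Finset.sum_congr rfl fun s _ => ?_
      beta_reduce
      rw [key x hx s, key y hy s]
      rfl
  subst hj
  have hx : T.AreDeg (W l) (q - m) (fun s : T.OfRank m => X s.el) := by
    intro s
    have h1 := h.gr s.el s.2
    rwa [grZ_natCast] at h1
  have h1 := hI m hm hmq z' hiso (fun s : T.OfRank m => X s.el) hx ⟨s, hs⟩
  rw [key _ hx] at h1
  have h2 : extZ (W l) T m (fun s : T.OfRank m => X s.el) = X := by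
    funext s
    rw [extZ]
    split_ifs with h0
    · rfl
    · rw [h.ne s h0]
  rw [h2, hfix _ _ h] at h1
  exact h1

lemma base_add {V : WeilCohomology.{u, v} ops} (X X' : ∀ s, V.H (T.Y s)) :
    base V T (X + X') = base V T X + base V T X' := by
  funext p
  change (if p.2.1 = 0 then X p.1 + X' p.1 else 0) = (if p.2.1 = 0 then X p.1 else 0) +
    (if p.2.1 = 0 then X' p.1 else 0)
  split_ifs
  · rfl
  · rw [add_zero]

lemma base_smul {V : WeilCohomology.{u, v} ops} (c : V.K) (X : ∀ s, V.H (T.Y s)) :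
    base V T (c • X) = c • base V T X := by
  funext p
  change (if p.2.1 = 0 then c • X p.1 else 0) = c • (if p.2.1 = 0 then X p.1 else 0)
  split_ifs
  · rfl
  · rw [smul_zero]

/-- The element of the `E_1` term concentrated in the copies `(s, 0)`, as a linear map. -/
def baseL (V : WeilCohomology.{u, v} ops) (T : Strata 𝒱) :
    (∀ s, V.H (T.Y s)) →ₗ[V.K] T.E1 V where
  toFun := base V T
  map_add' := base_add
  map_smul' := base_smul

/-- **The obstructions are boundaries.** -/
theorem obstruction_boundary (hT : IsSNCL W T n) {l : ι}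
    (hD : ∀ s t, ConjectureD (W l) ((T.Y s).prod (T.Y t))) {D : ∀ s, (T.Y s).Cycles}
    (hP : IsPolarization (W l) T D) {q : ℕ} (hI : T.IsotropicAlgebraic (W l) n q D) {m : ℕ}
    (hm : 1 ≤ m) {X w : ∀ s, (W l).H (T.Y s)}
    (h : IsObstruction (W l) T m ((q : ℤ) - m) X w) :
    base (W l) T X ∈ T.B (W l) (-m) (q + m) := by
  classical
  obtain ⟨e, he, g, hg, heg, hfix⟩ := exists_projector hT hD hm ((q : ℤ) - m)
  have key : ∀ s (y : (W l).H (T.Y s)), IsAlgebraic (W l) y →
      baseL (W l) T (e l (LinearMap.single (W l).K (fun s => (W l).H (T.Y s)) s y)) ∈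
        T.B (W l) (-m) (q + m) := by
    intro s y hy
    refine Submodule.span_induction (p := fun y _ =>
      baseL (W l) T (e l (LinearMap.single (W l).K (fun s => (W l).H (T.Y s)) s y)) ∈
        T.B (W l) (-m) (q + m)) ?_ ?_ ?_ ?_ hy
    · intro y hy
      obtain ⟨c, z, hz, rfl⟩ := Set.mem_iUnion.1 hy
      have hAS : ∀ t, AS (W l) (T.Y t) (LinearMap.single (W l).K (fun s => (W l).H (T.Y s)) s
          ((W l).cl (T.Y s) z) t) := by
        intro t
        by_cases ht : t = s
        · subst ht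
          rw [LinearMap.coe_single, Pi.single_eq_same]
          exact AS.of ⟨z, hz, rfl⟩
        · rw [LinearMap.coe_single, Pi.single_eq_of_ne ht]
          exact AS.zero
      exact alg_mem_B hT l hP hD hm (fun t => mat_AS he l hAS t) (fun t => mat_AS hg l hAS t)
        (heg _)
    · rw [map_zero, map_zero, map_zero]
      exact Submodule.zero_mem _
    · intro x y _ _ hx hy
      rw [map_add, map_add, map_add]
      exact Submodule.add_mem _ hx hy
    · intro c x _ hx
      rw [map_smul, map_smul, map_smul]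
      exact Submodule.smul_mem _ _ hx
  have h1 : X = e l (∑ s, LinearMap.single (W l).K (fun s => (W l).H (T.Y s)) s (X s)) := by
    rw [← sum_single_proj, hfix _ _ h]
  change baseL (W l) T X ∈ _
  rw [h1, map_sum, map_sum]
  exact Submodule.sum_mem _ fun s _ => key s (X s) (obstruction_algebraic hT hD hP hI hm h s)

/-- The powers of `N` are injective on the terms `E_2^{-m,q+m}`. -/
def IsInjectiveAt {K : Type v} [Field K] (C : Cx K) (q : ℤ) : Prop :=
  ∀ m : ℕ, 1 ≤ m → ∀ x ∈ C.Z (-m) (q + m), (C.N ^ m) x ∈ C.B m (q - m) → x ∈ C.B (-m) (q + m)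

/-- **Injectivity.** -/
theorem injective_main (hT : IsSNCL W T n) {l : ι}
    (hD : ∀ s t, ConjectureD (W l) ((T.Y s).prod (T.Y t))) {D : ∀ s, (T.Y s).Cycles}
    (hP : IsPolarization (W l) T D) {q : ℕ} (hI : T.IsotropicAlgebraic (W l) n q D) :
    IsInjectiveAt (T.cx (W l)) q := by
  intro m hm x hx hN
  obtain ⟨y, X, w, hy, h1, h2, h3, h4, h5, h6, h7⟩ := kernel_decomp hT l (q := q) hm hx hN
  have h8 := obstruction_boundary hT hD hP hI hm (X := X) (w := w) ⟨h1, h3, h2, h4, h5, h6⟩
  have h9 : x = base (W l) T X + T.diff (W l) y := by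
    rw [base, ← h7, sub_add_cancel]
  change x ∈ T.B (W l) (-m) (q + m)
  rw [h9]
  exact Submodule.add_mem _ h8 ⟨y, hy, rfl⟩

end Pool.Agent.K9h28.Il
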