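import Pool.Agent.K9h28.MdF

/-!
# Duality for the weight spectral sequence
-/

set_option autoImplicit false
set_option linter.unusedSectionVars false

open CategoryTheory AlgebraicGeometry Module

universe u v

namespace Pool.Agent.K9h28.Il

open Pool.Agent.H914 Pool.Agent.H914.VarClass Pool.Agent.H914.VarClass.Obj
  Pool.Agent.H914.WeilCohomology Pool.Agent.W552

section Lin

variable {K : Type*} [Field K] {V : Type*} [AddCommGroup V] [Module K V] [Module.Finite K V]

/-- Injectivity and the equality of the dimensions imply the surjectivity. -/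
lemma surj_of_dim {f : End K V} {U B U' B' : Submodule K V} (hB : B ≤ U) (hB' : B' ≤ U')
    (hfU : ∀ x ∈ U, f x ∈ U') (hfB : ∀ x ∈ B, f x ∈ B') (hinj : ∀ x ∈ U, f x ∈ B' → x ∈ B)
    (hdim : finrank K U - finrank K B = finrank K U' - finrank K B') :
    ∀ y ∈ U', ∃ x ∈ U, y - f x ∈ B' := by
  let φ : U →ₗ[K] V ⧸ B' := B'.mkQ ∘ₗ f ∘ₗ U.subtype
  have h1 := LinearMap.finrank_range_add_finrank_ker φ
  have h2 : LinearMap.ker φ = B.comap U.subtype := by
    ext x
    rw [LinearMap.mem_ker]
    change B'.mkQ (f x) = 0 ↔ (x : V) ∈ B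
    rw [Submodule.mkQ_apply, Submodule.Quotient.mk_eq_zero]
    exact ⟨hinj x x.2, hfB x⟩
  have h3 : finrank K (LinearMap.ker φ) = finrank K B := by
    rw [h2]
    exact (Submodule.comapSubtypeEquivOfLe hB).finrank_eq
  have h4 : LinearMap.range φ ≤ U'.map B'.mkQ := by
    rintro _ ⟨x, rfl⟩
    exact ⟨f x, hfU x x.2, rfl⟩
  have h5 : finrank K (U'.map B'.mkQ) + finrank K B' = finrank K U' := by
    have h6 := LinearMap.finrank_range_add_finrank_ker (B'.mkQ.domRestrict U')
    rw [LinearMap.range_domRestrict] at h6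
    have h7 : LinearMap.ker (B'.mkQ.domRestrict U') = B'.comap U'.subtype := by
      ext x
      rw [LinearMap.mem_ker, LinearMap.domRestrict_apply, Submodule.mkQ_apply,
        Submodule.Quotient.mk_eq_zero]
      rfl
    rw [h7, (Submodule.comapSubtypeEquivOfLe hB').finrank_eq] at h6
    exact h6
  have h6 : LinearMap.range φ = U'.map B'.mkQ := by
    refine Submodule.eq_of_le_of_finrank_le h4 ?_
    have h7 := Submodule.finrank_mono hB
    omega
  intro y hy
  have h7 : B'.mkQ y ∈ LinearMap.range φ := by
    rw [h6]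
    exact ⟨y, hy, rfl⟩
  obtain ⟨x, hx⟩ := h7
  refine ⟨x, x.2, ?_⟩
  rw [← Submodule.Quotient.mk_eq_zero, Submodule.Quotient.mk_sub]
  change B'.mkQ (f x) = B'.mkQ y at hx
  rw [Submodule.mkQ_apply, Submodule.mkQ_apply] at hx
  rw [hx, sub_self]

end Lin

variable {k : Type u} [Field k] {𝒱 : VarClass k} {ops : CycleOps 𝒱}

section Sign

variable {W : WeilCohomology.{u, v} ops} {X Y : 𝒱.Obj}

/-- Commuting the factors under the trace. -/
lemma tr_comm_par (a b : W.H X) : W.tr X (a * b) = W.tr X (b * par (W.isInternal X) a) := by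
  refine gr_induction (W.isInternal X) (p := fun a =>
    W.tr X (a * b) = W.tr X (b * par (W.isInternal X) a)) ?_ ?_ a
  · intro i a ha
    refine gr_induction (W.isInternal X) (p := fun b =>
      W.tr X (a * b) = W.tr X (b * par (W.isInternal X) a)) ?_ ?_ b
    · intro j b hb
      rw [par, scal_apply _ _ ha, mul_smul_comm, map_smul, W.comm ha hb, map_smul]
      by_cases hij : i + j = 2 * X.dim
      · congr 1
        have h1 : Even (i * j + i) := by
          have : i * j + i = i * (j + 1) := by ring
          rw [this]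
          rcases Nat.even_or_odd i with h | h
          · exact h.mul_right _
          · apply Even.mul_left
            rcases Nat.even_or_odd j with h' | h'
            · exfalso
              have := h.add_even h'
              rw [hij] at this
              exact (Nat.not_even_iff_odd.2 this) (even_two_mul _)
            · exact h'.add_one
        have h2 : (-1 : W.K) ^ (i * j) * (-1) ^ i = 1 := by
          rw [← pow_add, h1.neg_one_pow]
        have h3 : (-1 : W.K) ^ i * (-1) ^ i = 1 := by
          rw [← pow_add, (Even.add_self i).neg_one_pow]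
        exact mul_right_cancel₀ (pow_ne_zero i (neg_ne_zero.2 one_ne_zero)) (h2.trans h3.symm)
      · rw [W.tr_eq_zero (W.mul_mem hb ha) (by omega), smul_zero, smul_zero]
    · intro b b' hb hb'
      rw [mul_add, map_add, add_mul, map_add, hb, hb']
  · intro a a' ha ha'
    rw [add_mul, map_add, map_add, mul_add, map_add, ha, ha']

lemma par_map (f : X ⟶ Y) (a : W.H Y) :
    par (W.isInternal X) (W.map f a) = W.map f (par (W.isInternal Y) a) := by
  refine gr_induction (W.isInternal Y) (p := fun a =>
    par (W.isInternal X) (W.map f a) = W.map f (par (W.isInternal Y) a)) ?_ ?_ a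
  · intro i a ha
    rw [par, par, scal_apply _ _ (W.map_mem f ha), scal_apply _ _ ha, map_smul]
  · intro a b ha hb
    simp only [map_add, ha, hb]

/-- The projection formula for the restriction. -/
lemma tr_map' (f : X ⟶ Y) (a : W.H Y) (b : W.H X) :
    W.tr X (W.map f a * b) = W.tr Y (a * W.push f b) := by
  rw [tr_comm_par, par_map, ← W.tr_push, ← tr_comm_par]

lemma tr_res' {T : Strata 𝒱} {s u : T.S} (a : W.H (T.Y u)) (b : W.H (T.Y s)) :
    W.tr (T.Y s) (T.res W s u a * b) = W.tr (T.Y u) (a * T.gys W s u b) := by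
  unfold Strata.gys Strata.res
  split_ifs with h
  · rw [LinearMap.smul_apply, LinearMap.smul_apply, smul_mul_assoc, mul_smul_comm, map_smul,
      map_smul]
    congr 1
    exact tr_map' _ _ _
  · rw [LinearMap.zero_apply, LinearMap.zero_apply, zero_mul, mul_zero, map_zero, map_zero]

end Sign

section Dual

variable {W : WeilCohomology.{u, v} ops} {T : Strata 𝒱} {n : ℕ}

/-- The duality of the `E_1` term. -/
noncomputable def dualE (W : WeilCohomology.{u, v} ops) (T : Strata 𝒱) :
    T.E1 W →ₗ[W.K] Module.Dual W.K (T.E1 W) :=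
  LinearMap.mk₂ W.K (fun x y => ∑ s, ∑ c ∈ Finset.range (T.rk s + 1),
      W.tr (T.Y s) (val x s c * val y s (T.rk s - c)))
    (fun x x' y => by
      rw [← Finset.sum_add_distrib]
      refine Finset.sum_congr rfl fun s _ => ?_
      rw [← Finset.sum_add_distrib]
      exact Finset.sum_congr rfl fun p _ => by rw [val_add, add_mul, map_add])
    (fun c x y => by
      rw [Finset.smul_sum]
      refine Finset.sum_congr rfl fun s _ => ?_
      rw [Finset.smul_sum]
      exact Finset.sum_congr rfl fun p _ => by rw [val_smul, smul_mul_assoc, map_smul])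
    (fun x y y' => by
      rw [← Finset.sum_add_distrib]
      refine Finset.sum_congr rfl fun s _ => ?_
      rw [← Finset.sum_add_distrib]
      exact Finset.sum_congr rfl fun p _ => by rw [val_add, mul_add, map_add])
    (fun c x y => by
      rw [Finset.smul_sum]
      refine Finset.sum_congr rfl fun s _ => ?_
      rw [Finset.smul_sum]
      exact Finset.sum_congr rfl fun p _ => by rw [val_smul, mul_smul_comm, map_smul])

lemma dualE_apply (x y : T.E1 W) :
    dualE W T x y = ∑ s, ∑ c ∈ Finset.range (T.rk s + 1),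
      W.tr (T.Y s) (val x s c * val y s (T.rk s - c)) := rfl

lemma dualE_injective : Function.Injective (dualE W T) := by
  classical
  rw [injective_iff_map_eq_zero]
  intro x hx
  apply E1_ext
  intro s c hc
  rw [val_zero]
  apply W.nondeg
  intro b
  let y : T.E1 W := ofVal W T fun u c' => if h : u = s ∧ c' = T.rk s - c then h.1 ▸ b else 0
  have hy : ∀ u c', u ≠ s ∨ c' ≠ T.rk s - c → val y u c' = 0 := by
    intro u c' h1
    by_cases h2 : c' ≤ T.rk u
    · rw [val_ofVal _ h2]
      exact dif_neg (by tauto)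
    · exact val_of_lt _ (by omega)
  have hy0 : val y s (T.rk s - c) = b := by
    rw [val_ofVal _ (Nat.sub_le _ _)]
    exact dif_pos ⟨rfl, rfl⟩
  have h1 := congrArg (fun F => F y) hx
  change dualE W T x y = 0 at h1
  rw [dualE_apply, Finset.sum_eq_single s, Finset.sum_eq_single c, hy0] at h1
  · exact h1
  · intro c' hc' hne
    rw [Finset.mem_range] at hc'
    rw [hy s _ (Or.inr (by omega)), mul_zero, map_zero]
  · intro h2
    exact absurd (Finset.mem_range.2 (by omega)) h2
  · intro u _ hu
    refine Finset.sum_eq_zero fun c' _ => ?_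
    rw [hy u _ (Or.inl hu), mul_zero, map_zero]
  · intro h2
    exact absurd (Finset.mem_univ _) h2

/-- The differential is selfadjoint. -/
lemma dualE_diff (hrk : ∀ s u, T.sgn s u ≠ 0 → T.rk s = T.rk u + 1) (x y : T.E1 W) :
    dualE W T (T.diff W x) y = dualE W T x (T.diff W y) := by
  set A : T.S → T.S → W.K := fun s u => ∑ c ∈ Finset.range (T.rk s + 1),
    if 1 ≤ c then W.tr (T.Y u) (val x u (c - 1) * T.gys W s u (val y s (T.rk s - c))) else 0
    with hA
  set B : T.S → T.S → W.K := fun s u => ∑ c ∈ Finset.range (T.rk s + 1),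
    W.tr (T.Y u) (val x u c * T.res W u s (val y s (T.rk s - c))) with hB
  set A' : T.S → T.S → W.K := fun s u => ∑ c ∈ Finset.range (T.rk u + 1),
    W.tr (T.Y u) (val x u c * T.gys W s u (val y s (T.rk u - c))) with hA'
  set B' : T.S → T.S → W.K := fun s u => ∑ c ∈ Finset.range (T.rk u + 1),
    if 1 ≤ T.rk u - c then W.tr (T.Y u) (val x u c * T.res W u s (val y s (T.rk u - c - 1)))
      else 0 with hB'
  have h1 : dualE W T (T.diff W x) y = ∑ s, ∑ u, (A s u + B s u) := by
    rw [dualE_apply]
    refine Finset.sum_congr rfl fun s _ => ?_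
    rw [Finset.sum_add_distrib, hA, hB]
    dsimp only
    rw [Finset.sum_comm (s := Finset.univ) (t := Finset.range (T.rk s + 1)),
      Finset.sum_comm (s := Finset.univ) (t := Finset.range (T.rk s + 1)),
      ← Finset.sum_add_distrib]
    refine Finset.sum_congr rfl fun c hc => ?_
    rw [Finset.mem_range] at hc
    rw [val_diff _ _ _ (by omega), add_mul, map_add, Finset.sum_mul, map_sum]
    congr 1
    · by_cases h0 : 1 ≤ c
      · rw [if_pos h0, Finset.sum_mul, map_sum]
        refine Finset.sum_congr rfl fun u _ => ?_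
        rw [if_pos h0, tr_res']
      · rw [if_neg h0, zero_mul, map_zero]
        symm
        exact Finset.sum_eq_zero fun u _ => if_neg h0
    · exact Finset.sum_congr rfl fun u _ => tr_gys' _ _
  have h2 : dualE W T x (T.diff W y) = ∑ u, ∑ s, (A' s u + B' s u) := by
    rw [dualE_apply]
    refine Finset.sum_congr rfl fun u _ => ?_
    rw [Finset.sum_add_distrib, hA', hB']
    dsimp only
    rw [Finset.sum_comm (s := Finset.univ) (t := Finset.range (T.rk u + 1)),
      Finset.sum_comm (s := Finset.univ) (t := Finset.range (T.rk u + 1)),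
      ← Finset.sum_add_distrib]
    refine Finset.sum_congr rfl fun c hc => ?_
    rw [val_diff _ _ _ (Nat.sub_le _ _), mul_add, map_add, add_comm, Finset.mul_sum, map_sum]
    congr 1
    by_cases h0 : 1 ≤ T.rk u - c
    · rw [if_pos h0, Finset.mul_sum, map_sum]
      refine Finset.sum_congr rfl fun s _ => ?_
      rw [if_pos h0]
    · rw [if_neg h0, mul_zero, map_zero]
      symm
      exact Finset.sum_eq_zero fun u _ => if_neg h0
  have h3 : ∀ s u, A s u = A' s u := by
    intro s u
    rw [hA, hA']
    dsimp only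
    by_cases h0 : T.sgn s u = 0
    · rw [gys_zero_of h0, Finset.sum_eq_zero, Finset.sum_eq_zero]
      · intro c _
        rw [LinearMap.zero_apply, mul_zero, map_zero]
      · intro c _
        rw [LinearMap.zero_apply, mul_zero, map_zero, ite_self]
    · have h4 := hrk s u h0
      rw [Finset.sum_range_succ', if_neg (by omega), add_zero, h4]
      refine Finset.sum_congr rfl fun c _ => ?_
      rw [if_pos (by omega), Nat.add_sub_cancel, Nat.add_sub_add_right]
  have h4 : ∀ s u, B s u = B' s u := by
    intro s u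
    rw [hB, hB']
    dsimp only
    by_cases h0 : T.sgn u s = 0
    · rw [res_zero_of h0, Finset.sum_eq_zero, Finset.sum_eq_zero]
      · intro c _
        rw [LinearMap.zero_apply, mul_zero, map_zero, ite_self]
      · intro c _
        rw [LinearMap.zero_apply, mul_zero, map_zero]
    · have h4 := hrk u s h0
      rw [h4, Finset.sum_range_succ (n := T.rk s + 1), if_neg (by omega), add_zero]
      refine Finset.sum_congr rfl fun c hc => ?_
      rw [Finset.mem_range] at hc
      rw [if_pos (by omega), show T.rk s + 1 - c - 1 = T.rk s - c by omega]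
  rw [h1, h2, Finset.sum_comm]
  refine Finset.sum_congr rfl fun u _ => Finset.sum_congr rfl fun s _ => ?_
  rw [h3, h4]

/-- The powers of the monodromy operator are selfadjoint. -/
lemma dualE_mono (x y : T.E1 W) :
    dualE W T (T.mono W x) y = dualE W T x (T.mono W y) := by
  rw [dualE_apply, dualE_apply]
  refine Finset.sum_congr rfl fun s _ => ?_
  rw [Finset.sum_range_succ', Finset.sum_range_succ (n := T.rk s)]
  congr 1
  · refine Finset.sum_congr rfl fun c hc => ?_
    rw [Finset.mem_range] at hc
    rw [val_mono _ _ _ (by omega), val_mono _ _ _ (Nat.sub_le _ _), if_pos (by omega),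
      if_pos (by omega), Nat.add_sub_cancel, Nat.sub_sub]
  · rw [val_mono _ _ _ (Nat.zero_le _), val_mono _ _ _ (Nat.sub_le _ _), if_neg (by omega),
      if_neg (by omega), zero_mul, mul_zero]

lemma val_PP (a b : ℤ) (x : T.E1 W) (s : T.S) (c : ℕ) (hc : c ≤ T.rk s) :
    val (PP W T a b x) s c = if 2 * (c : ℤ) - T.rk s = a
      then projZ (W.isInternal (T.Y s)) (b - 2 * ((T.rk s : ℤ) - c)) (val x s c) else 0 := by
  have h1 : ∀ y : T.E1 W, val y s c = y ⟨s, ⟨c, by omega⟩⟩ := by
    intro y
    unfold val
    rw [dif_pos (by omega)]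
  rw [h1, h1, PP_apply, diagP]
  dsimp only
  split_ifs <;> rfl

/-- The adjoint of the projector. -/
lemma dualE_PP (hdim : ∀ s, (T.Y s).dim + T.rk s = n) (a b : ℤ) (x y : T.E1 W) :
    dualE W T (PP W T a b x) y = dualE W T x (PP W T (-a) (2 * n - b) y) := by
  rw [dualE_apply, dualE_apply]
  refine Finset.sum_congr rfl fun s _ => Finset.sum_congr rfl fun c hc => ?_
  rw [Finset.mem_range] at hc
  rw [val_PP _ _ _ _ _ (by omega), val_PP _ _ _ _ _ (Nat.sub_le _ _)]
  have h1 := hdim s
  by_cases h0 : 2 * (c : ℤ) - T.rk s = a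
  · rw [if_pos h0, if_pos (by omega)]
    exact tr_projZ (by omega) _ _
  · rw [if_neg h0, if_neg (by omega), zero_mul, mul_zero]

end Dual

section Main

variable {ι : Type} {W : ι → WeilCohomology.{u, v} ops} {T : Strata 𝒱} {n : ℕ}

/-- **Duality.** -/
theorem dimE2_dual (hT : IsSNCL W T n) (l : ι) (a b : ℤ) :
    (T.cx (W l)).dimE2 a b = (T.cx (W l)).dimE2 (-a) (2 * n - b) := by
  have hB := hT.bigraded l
  have hr : ∀ a b, finrank (W l).K (LinearMap.range (PP (W l) T a b)) =
      finrank (W l).K (LinearMap.range (PP (W l) T (-a) (2 * n - b))) := fun a b =>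
    rank_adjoint dualE_injective (dualE_PP hT.dim_add a b)
  have hd : ∀ a b, finrank (W l).K (LinearMap.range (T.diff (W l) * PP (W l) T a b)) =
      finrank (W l).K (LinearMap.range (T.diff (W l) * PP (W l) T (-a - 1) (2 * n - b))) := by
    intro a b
    refine rank_adjoint dualE_injective fun x y => ?_
    change dualE (W l) T (T.diff (W l) (PP (W l) T a b x)) y =
      dualE (W l) T x (T.diff (W l) (PP (W l) T (-a - 1) (2 * n - b) y))
    rw [dualE_diff hT.rk_eq, dualE_PP hT.dim_add, diff_PP hT.dim_add hT.rk_eq, sub_add_cancel]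
  rw [hT.dim_eq, hT.dim_eq, Bc_eq' hB, Bc_eq' hB]
  have h1 := finrank_Zc hB a b
  have h2 := finrank_Zc hB (-a) (2 * n - b)
  have h3 := hr a b
  have h4 := hd a b
  have h5 := hd (a - 1) b
  rw [show -(a - 1) - 1 = -a by ring] at h5
  beta_reduce at h1 h2 ⊢
  omega

/-- Injectivity, and the equality of the dimensions, imply the monodromy-weight property. -/
theorem mw_of_injective (hT : IsSNCL W T n) (l : ι) {q : ℤ} (hq : IsInjectiveAt (T.cx (W l)) q)
    (hs : (T.cx (W l)).IsSymmetricAt n q) : (T.cx (W l)).MonodromyWeight q := by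
  have hB := hT.bigraded l
  intro m hm
  have hdim : (T.cx (W l)).dimE2 (-m) (q + m) = (T.cx (W l)).dimE2 m (q - m) := by
    rw [dimE2_dual hT, hs m (q - m) (by ring)]
    congr 1 <;> ring
  have hZ : ∀ a b, (T.cx (W l)).Z a b =
      Zc (T.diff (W l)) (fun a b => PP (W l) T a b) a b := fun a b => by rw [cx_Z, Z_eq]
  have hBB : ∀ a b, (T.cx (W l)).B a b =
      Bc (T.diff (W l)) (fun a b => PP (W l) T a b) a b := fun a b => by rw [cx_B, hT.B_eq]
  have hle : ∀ a b, (T.cx (W l)).B a b ≤ (T.cx (W l)).Z a b := by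
    intro a b
    rw [hZ, hBB]
    exact Bc_le hB a b
  refine ⟨hq m hm, surj_of_dim (hle _ _) (hle _ _) (fun x hx => ?_) (fun x hx => ?_) (hq m hm)
    hdim⟩
  · rw [hZ] at hx ⊢
    have h1 := Npow_mem_Z hB m hx
    rw [show -(m : ℤ) + 2 * m = m by ring, show q + m - 2 * (m : ℤ) = q - m by ring] at h1
    exact h1
  · rw [hBB] at hx ⊢
    have h1 := Npow_mem_B hB m hx
    rw [show -(m : ℤ) + 2 * m = m by ring, show q + m - 2 * (m : ℤ) = q - m by ring] at h1
    exact h1

end Main

end Pool.Agent.K9h28.Il
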