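import Pool.Agent.K9h28.MdG

/-!
# The dual degrees, and the limit of the spectral sequence
-/

set_option autoImplicit false
set_option linter.unusedSectionVars false

open CategoryTheory AlgebraicGeometry Module

universe u v

namespace Pool.Agent.K9h28.Il

open Pool.Agent.H914 Pool.Agent.H914.VarClass Pool.Agent.H914.VarClass.Obj
  Pool.Agent.H914.WeilCohomology Pool.Agent.W552

section Lin

variable {K : Type*} [Field K] {V : Type*} [AddCommGroup V] [Module K V] [Module.Finite K V]

/-- An isomorphism implies the equality of the dimensions. -/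
lemma dim_of_iso {f : End K V} {U B U' B' : Submodule K V} (hB : B ≤ U) (hB' : B' ≤ U')
    (hfU : ∀ x ∈ U, f x ∈ U') (hfB : ∀ x ∈ B, f x ∈ B') (h : IsIsoAt f U B U' B') :
    finrank K U - finrank K B = finrank K U' - finrank K B' := by
  let φ : U →ₗ[K] V ⧸ B' := B'.mkQ ∘ₗ f ∘ₗ U.subtype
  have h1 := LinearMap.finrank_range_add_finrank_ker φ
  have h2 : LinearMap.ker φ = B.comap U.subtype := by
    ext x
    rw [LinearMap.mem_ker]
    change B'.mkQ (f x) = 0 ↔ (x : V) ∈ B
    rw [Submodule.mkQ_apply, Submodule.Quotient.mk_eq_zero]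
    exact ⟨h.1 x x.2, hfB x⟩
  have h3 : finrank K (LinearMap.ker φ) = finrank K B := by
    rw [h2]
    exact (Submodule.comapSubtypeEquivOfLe hB).finrank_eq
  have h4 : LinearMap.range φ = U'.map B'.mkQ := by
    apply le_antisymm
    · rintro _ ⟨x, rfl⟩
      exact ⟨f x, hfU x x.2, rfl⟩
    · rintro _ ⟨y, hy, rfl⟩
      obtain ⟨x, hx, hxy⟩ := h.2 y hy
      refine ⟨⟨x, hx⟩, ?_⟩
      change B'.mkQ (f x) = B'.mkQ y
      rw [← Submodule.Quotient.mk_eq_zero, Submodule.Quotient.mk_sub, sub_eq_zero] at hxy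
      exact hxy.symm
  have h5 : finrank K (U'.map B'.mkQ) + finrank K B' = finrank K U' := by
    have h6 := LinearMap.finrank_range_add_finrank_ker (B'.mkQ.domRestrict U')
    rw [LinearMap.range_domRestrict] at h6
    have h7 : LinearMap.ker (B'.mkQ.domRestrict U') = B'.comap U'.subtype := by
      ext x
      rw [LinearMap.mem_ker, LinearMap.domRestrict_apply, Submodule.mkQ_apply,
        Submodule.Quotient.mk_eq_zero]
      rfl
    rw [h7, (Submodule.comapSubtypeEquivOfLe hB').finrank_eq] at h6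
    exact h6
  rw [h4] at h1
  omega

/-- The image of a selfadjoint operator is the orthogonal complement of the kernel. -/
lemma mem_range_of_adjoint {Φ : V →ₗ[K] Module.Dual K V} (hΦ : Function.Injective Φ)
    {F : End K V} (h : ∀ x y, Φ (F x) y = Φ x (F y)) {x : V}
    (hx : ∀ y, F y = 0 → Φ x y = 0) : x ∈ LinearMap.range F := by
  have hs : Function.Surjective Φ :=
    (LinearMap.injective_iff_surjective_of_finrank_eq_finrank
      (Subspace.dual_finrank_eq (K := K) (V := V)).symm).1 hΦ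
  have h1 : Φ x ∈ LinearMap.range F.dualMap := by
    rw [LinearMap.range_dualMap_eq_dualAnnihilator_ker, Submodule.mem_dualAnnihilator]
    exact fun y hy => hx y hy
  obtain ⟨ψ, hψ⟩ := h1
  obtain ⟨z, rfl⟩ := hs ψ
  refine ⟨z, hΦ ?_⟩
  rw [← hψ]
  apply LinearMap.ext
  intro y
  exact h z y

end Lin

variable {k : Type u} [Field k] {𝒱 : VarClass k} {ops : CycleOps 𝒱} {ι : Type}
  {W : ι → WeilCohomology.{u, v} ops} {T : Strata 𝒱} {n : ℕ}

lemma dualE_mono_pow (l : ι) (m : ℕ) (x y : T.E1 (W l)) :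
    dualE (W l) T ((T.mono (W l) ^ m) x) y = dualE (W l) T x ((T.mono (W l) ^ m) y) := by
  induction m generalizing x y with
  | zero => rfl
  | succ m ih =>
    rw [pow_succ, Module.End.mul_apply, Module.End.mul_apply, ih, dualE_mono,
      ← Module.End.mul_apply, ← Module.End.mul_apply, ← pow_succ', ← pow_succ]

/-- **The monodromy-weight property in the dual degree.** -/
theorem mw_dual (hT : IsSNCL W T n) (l : ι) {q : ℤ} (h : (T.cx (W l)).MonodromyWeight q) :
    (T.cx (W l)).MonodromyWeight (2 * n - q) := by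
  have hB := hT.bigraded l
  have hZ : ∀ a b, (T.cx (W l)).Z a b =
      Zc (T.diff (W l)) (fun a b => PP (W l) T a b) a b := fun a b => by rw [cx_Z, Z_eq]
  have hBB : ∀ a b, (T.cx (W l)).B a b =
      Bc (T.diff (W l)) (fun a b => PP (W l) T a b) a b := fun a b => by rw [cx_B, hT.B_eq]
  have hle : ∀ a b, (T.cx (W l)).B a b ≤ (T.cx (W l)).Z a b := by
    intro a b
    rw [hZ, hBB]
    exact Bc_le hB a b
  have hNZ : ∀ (m : ℕ) (q : ℤ), ∀ x ∈ (T.cx (W l)).Z (-m) (q + m),
      ((T.cx (W l)).N ^ m) x ∈ (T.cx (W l)).Z m (q - m) := by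
    intro m q x hx
    rw [hZ] at hx ⊢
    have h1 := Npow_mem_Z hB m hx
    rw [show -(m : ℤ) + 2 * m = m by ring, show q + m - 2 * (m : ℤ) = q - m by ring] at h1
    exact h1
  have hNB : ∀ (m : ℕ) (q : ℤ), ∀ x ∈ (T.cx (W l)).B (-m) (q + m),
      ((T.cx (W l)).N ^ m) x ∈ (T.cx (W l)).B m (q - m) := by
    intro m q x hx
    rw [hBB] at hx ⊢
    have h1 := Npow_mem_B hB m hx
    rw [show -(m : ℤ) + 2 * m = m by ring, show q + m - 2 * (m : ℤ) = q - m by ring] at h1
    exact h1
  intro m hm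
  have hinj : ∀ x ∈ (T.cx (W l)).Z (-m) (2 * n - q + m), ((T.cx (W l)).N ^ m) x ∈
      (T.cx (W l)).B m (2 * n - q - m) → x ∈ (T.cx (W l)).B (-m) (2 * n - q + m) := by
    intro x hx hN
    obtain ⟨w, -, hw⟩ := hN
    have hxP : x ∈ T.piece (W l) (-m) (2 * n - q + m) := hx.2
    have hxd : T.diff (W l) x = 0 := hx.1
    have hr : x ∈ LinearMap.range (T.diff (W l)) := by
      refine mem_range_of_adjoint dualE_injective (dualE_diff hT.rk_eq) fun y hy => ?_
      have e1 : dualE (W l) T x y = dualE (W l) T x (PP (W l) T m (q - m) y) := by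
        conv_lhs => rw [← PP_same hxP, dualE_PP hT.dim_add]
        rw [neg_neg, show 2 * (n : ℤ) - (2 * n - q + m) = q - m by ring]
      have hy' : PP (W l) T m (q - m) y ∈ (T.cx (W l)).Z m (q - m) := by
        refine ⟨?_, PP_mem _ _ _⟩
        change T.diff (W l) _ = 0
        rw [diff_PP hT.dim_add hT.rk_eq, hy, map_zero]
      obtain ⟨z, hz, hz'⟩ := (h m hm).2 _ hy'
      obtain ⟨t, -, ht⟩ := hz'
      have hzd : T.diff (W l) z = 0 := hz.1
      have e2 : PP (W l) T m (q - m) y = (T.mono (W l) ^ m) z + T.diff (W l) t := by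
        change T.diff (W l) t = PP (W l) T m (q - m) y - (T.mono (W l) ^ m) z at ht
        rw [ht]
        abel
      change T.diff (W l) w = (T.mono (W l) ^ m) x at hw
      rw [e1, e2, map_add, ← dualE_mono_pow, ← hw, dualE_diff hT.rk_eq, hzd, map_zero, zero_add,
        ← dualE_diff hT.rk_eq, hxd, map_zero, LinearMap.zero_apply]
    rw [hBB]
    exact ⟨hr, by rw [range_PP]; exact hxP⟩
  refine ⟨hinj, surj_of_dim (hle _ _) (hle _ _) (hNZ m _) (hNB m _) hinj ?_⟩
  have h1 := dim_of_iso (hle _ _) (hle _ _) (hNZ m q) (hNB m q) (h m hm)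
  have h2 := dimE2_dual hT l (-m) (2 * n - q + m)
  have h3 := dimE2_dual hT l m (2 * n - q - m)
  rw [neg_neg, show 2 * (n : ℤ) - (2 * n - q + m) = q - m by ring] at h2
  rw [show 2 * (n : ℤ) - (2 * n - q - m) = q + m by ring] at h3
  exact h2.trans (h1.symm.trans h3.symm)

/-- The monodromy-weight property for the limit. -/
theorem IsAbutment.pure {K : Type v} [Field K] {V : Type v} [AddCommGroup V] [Module K V]
    {C : Cx K} {q : ℤ} {F : ℤ → Submodule K V} {N : Module.End K V} {R : ℤ → V → C.V → Prop}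
    (A : IsAbutment C n q F N R) (h : C.MonodromyWeight q) : IsMonodromyFiltration F N q := by
  have hpow : ∀ (m : ℕ) b v z, R b v z → R (b - 2 * m) ((N ^ m) v) ((C.N ^ m) z) := by
    intro m
    induction m with
    | zero =>
      intro b v z hv
      simpa using hv
    | succ m ih =>
      intro b v z hv
      rw [pow_succ', pow_succ', Module.End.mul_apply, Module.End.mul_apply]
      have h1 := A.map_N _ _ _ (ih b v z hv)
      rwa [show b - 2 * (m : ℤ) - 2 = b - 2 * ((m + 1 : ℕ) : ℤ) by push_cast; ring] at h1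
  have hpow' : ∀ (m : ℕ) v z, R (q + m) v z → R (q - m) ((N ^ m) v) ((C.N ^ m) z) := by
    intro m v z hv
    have h1 := hpow m _ v z hv
    rwa [show q + m - 2 * (m : ℤ) = q - m by ring] at h1
  refine ⟨fun b v hv => ?_, fun m hm => ⟨fun v hv hN => ?_, fun y hy => ?_⟩⟩
  · obtain ⟨z, hz⟩ := A.left b v hv
    exact (A.mem _ _ _ (A.map_N b v z hz)).1
  · obtain ⟨z, hz⟩ := A.left _ v hv
    have h1 := (A.mem _ _ _ hz).2
    rw [show q - (q + (m : ℤ)) = -m by ring] at h1
    have h2 := (A.zero _ _ _ (hpow' m v z hz)).1 hN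
    rw [show q - (q - (m : ℤ)) = m by ring] at h2
    have h3 := (h m hm).1 z h1 h2
    refine (A.zero _ _ _ hz).2 ?_
    rw [show q - (q + (m : ℤ)) = -m by ring]
    exact h3
  · obtain ⟨z', hz'⟩ := A.left _ y hy
    have h1 := (A.mem _ _ _ hz').2
    rw [show q - (q - (m : ℤ)) = m by ring] at h1
    obtain ⟨z, hz, h2⟩ := (h m hm).2 z' h1
    obtain ⟨v, hv⟩ := A.right (q + m) z (by
      rw [show q - (q + (m : ℤ)) = -m by ring]
      exact hz)
    refine ⟨v, (A.mem _ _ _ hv).1, ?_⟩
    have h3 := A.smul _ _ _ (-1) (hpow' m v z hv)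
    have h4 := A.add _ _ _ _ _ hz' h3
    rw [neg_one_smul, neg_one_smul, ← sub_eq_add_neg, ← sub_eq_add_neg] at h4
    refine (A.zero _ _ _ h4).2 ?_
    rw [show q - (q - (m : ℤ)) = m by ring]
    exact h2

lemma IsSemistable.sncl (hT : IsSemistable W T n) : IsSNCL W T n :=
  ⟨hT.dim_add, hT.rk_eq, hT.kunneth, hT.diff_sq⟩

/-- **The main theorem.** -/
theorem md_main (hT : IsSemistable W T n) {l : ι}
    (hD : ∀ s t, ConjectureD (W l) ((T.Y s).prod (T.Y t))) {D : ∀ s, (T.Y s).Cycles}
    (hP : IsPolarization (W l) T D) {q : ℕ} (hI : T.IsotropicAlgebraic (W l) n q D)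
    (hL : (T.cx (W l)).IsSymmetricAt n q) (i : ι) {r : ℤ} (hr : r = q ∨ r = 2 * n - q)
    {V : Type v} [AddCommGroup V] [Module (W i).K V] {F : ℤ → Submodule (W i).K V}
    {N : Module.End (W i).K V} {R : ℤ → V → (T.cx (W i)).V → Prop}
    (A : IsAbutment (T.cx (W i)) n r F N R) : IsMonodromyFiltration F N r := by
  have h1 := mw_of_injective hT.sncl l (injective_main hT.sncl hD hP hI) hL
  apply A.pure
  rcases hr with rfl | rfl
  · exact new_transfer hT hD h1 i
  · exact mw_dual hT.sncl i (new_transfer hT hD h1 i)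

end Pool.Agent.K9h28.Il
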