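import Pool.Agent.K9h28.MdH

/-!
# The main theorem for simple normal crossing log schemes
-/

set_option autoImplicit false

open CategoryTheory AlgebraicGeometry Module

universe u v

namespace Pool.Agent.K9h28.Il

open Pool.Agent.H914 Pool.Agent.H914.VarClass Pool.Agent.H914.VarClass.Obj
  Pool.Agent.H914.WeilCohomology Pool.Agent.W552

variable {k : Type u} [Field k] {𝒱 : VarClass k} {ops : CycleOps 𝒱} {ι : Type}
  {W : ι → WeilCohomology.{u, v} ops} {T : Strata 𝒱} {n : ℕ}

/-- **The main theorem for simple normal crossing log schemes.** -/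
theorem md_sncl (hT : IsSNCL W T n) {l : ι}
    (hD : ∀ s t, ConjectureD (W l) ((T.Y s).prod (T.Y t))) {D : ∀ s, (T.Y s).Cycles}
    (hP : IsPolarization (W l) T D) {q : ℕ} (hI : T.IsotropicAlgebraic (W l) n q D)
    (hL : (T.cx (W l)).IsSymmetricAt n q) (i : ι)
    (hb : (T.cx (W i)).betti n q = (T.cx (W l)).betti n q) {r : ℤ} (hr : r = q ∨ r = 2 * n - q)
    {V : Type v} [AddCommGroup V] [Module (W i).K V] {F : ℤ → Submodule (W i).K V}
    {N : Module.End (W i).K V} {R : ℤ → V → (T.cx (W i)).V → Prop}
    (A : IsAbutment (T.cx (W i)) n r F N R) : IsMonodromyFiltration F N r := by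
  have h1 := mw_of_injective hT l (injective_main hT hD hP hI) hL
  have h2 := ((sncl_main hT hD i).2 q hb).2 h1
  apply A.pure
  rcases hr with rfl | rfl
  · exact h2
  · exact mw_dual hT i h2

end Pool.Agent.K9h28.Il
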