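import Pool.Agent.K9h28.IlStmB

/-!
# Isotropic motives in the cohomology of the strata: definitions
-/

set_option autoImplicit false

open CategoryTheory

universe u v

namespace Pool.Agent.K9h28.Il

open Pool.Agent.H914 Pool.Agent.H914.VarClass Pool.Agent.H914.VarClass.Obj

section Linear

variable {K : Type v} [Field K] {V : Type v} [AddCommGroup V] [Module K V]

/-- The filtration `F` is the monodromy filtration of `N`, up to the shift by `q`: the operator `N`
maps `F b` to `F (b - 2)`, and `N ^ m` induces isomorphisms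
`F (q + m) / F (q + m - 1) → F (q - m) / F (q - m - 1)` for all `m ≥ 1`. -/
def IsMonodromyFiltration (F : ℤ → Submodule K V) (N : Module.End K V) (q : ℤ) : Prop :=
  (∀ b, ∀ v ∈ F b, N v ∈ F (b - 2)) ∧
  ∀ m : ℕ, 1 ≤ m → IsIsoAt (N ^ m) (F (q + m)) (F (q + m - 1)) (F (q - m)) (F (q - m - 1))

/-- The space `V` is the cohomology in degree `q` of the geometric generic fibre, with the filtration
`F` by the weights and the monodromy operator `N`. It is the limit of the weight spectral sequence
`C`, which degenerates: the relations `R b` describe isomorphisms `F b / F (b - 1) ≅ E_2^{q-b,b}`,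
where `R b v z` says that `v` is in `F b`, that `z` is a cycle in `E_1^{q-b,b}`, and that the class of
`v` is mapped to that of `z`; the isomorphisms are compatible with the monodromy operators. -/
structure IsAbutment (C : Cx K) (n : ℕ) (q : ℤ) (F : ℤ → Submodule K V) (N : Module.End K V)
    (R : ℤ → V → C.V → Prop) : Prop where
  bot : F (q - n - 1) = ⊥
  top : F (q + n) = ⊤
  mono : ∀ b, F (b - 1) ≤ F b
  add : ∀ b v z v' z', R b v z → R b v' z' → R b (v + v') (z + z')
  smul : ∀ b v z (c : K), R b v z → R b (c • v) (c • z)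
  mem : ∀ b v z, R b v z → v ∈ F b ∧ z ∈ C.Z (q - b) b
  left : ∀ b, ∀ v ∈ F b, ∃ z, R b v z
  right : ∀ b, ∀ z ∈ C.Z (q - b) b, ∃ v, R b v z
  zero : ∀ b v z, R b v z → (v ∈ F (b - 1) ↔ z ∈ C.B (q - b) b)
  map_N : ∀ b v z, R b v z → R (b - 2) (N v) (C.N z)

/-- The terms `E_2^{a,b}`, `a + b = q`, and `E_2^{a,b'}`, `a + b' = 2 n - q`, have the same
dimensions. (This is a consequence of the hard Lefschetz theorem for the generic fibre.) -/
def Cx.IsSymmetricAt (C : Cx K) (n q : ℤ) : Prop :=
  ∀ a b, a + b = q → C.dimE2 a b = C.dimE2 a (b + 2 * (n - q))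

end Linear

section Algebra

variable {K : Type*} [Field K] {A : Type*} [Ring A] [Algebra K A] {I : Type} [Fintype I]

/-- The number `tr (D ^ r x y)`. -/
def trD (tr : A →ₗ[K] K) (D : A) (r : ℕ) (x y : A) : K := tr (D ^ r * (x * y))

/-- Hard Lefschetz: the multiplication by `D ^ (n - i)` is injective on `gr i`. (By Poincare duality
it is then an isomorphism from `gr i` to `gr (2 n - i)`.) -/
def HardLefInj (gr : ℕ → Submodule K A) (n : ℕ) (D : A) : Prop :=
  ∀ i ≤ n, ∀ a ∈ gr i, D ^ (n - i) * a = 0 → a = 0

/-- Hodge type: for `2 j ≤ n` and every primitive element `a ≠ 0` of the set `C j` the number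
`tr (D ^ (n - 2 j) a a)` is rational of the sign `(-1) ^ j`. -/
def HodgeIndex (C : ℕ → Set A) (tr : A →ₗ[K] K) (n : ℕ) (D : A) : Prop :=
  ∀ j, 2 * j ≤ n → ∀ a ∈ C j, D ^ (n - 2 * j + 1) * a = 0 → a ≠ 0 →
    ∃ r : ℚ, 0 < (-1) ^ j * r ∧ trD tr D (n - 2 * j) a a = r

/-- The element `x` has degree `j`. -/
def InDeg (gr : ℕ → Submodule K A) (j : ℕ) (x : A) : Prop := x ∈ gr j

/-- The element `x` is in the span of the sets `C j`. -/
def InSpan (K : Type*) [Field K] {A : Type*} [Ring A] [Algebra K A] (C : ℕ → Set A) (x : A) :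
    Prop := x ∈ Submodule.span K (⋃ j, C j)

/-- The value of a linear map. -/
def value {B : Type*} [Ring B] [Algebra K B] (f : A →ₗ[K] B) (x : A) : B := f x

/-- The sum of the elements `x i`. -/
def sumA (x : I → A) : A := ∑ i, x i

/-- The sum of the numbers `x i`. -/
def sumK (x : I → K) : K := ∑ i, x i

end Algebra

variable {k : Type u} [Field k] {𝒱 : VarClass k} {ops : CycleOps 𝒱}

section Classes

variable (W : WeilCohomology.{u, v} ops) {X Y : 𝒱.Obj}

/-- The classes of algebraic cycles of codimension `j`. -/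
def cyc (X : 𝒱.Obj) (j : ℕ) : Set (W.H X) := {y | ∃ z, X.IsCyc j z ∧ W.cl X z = y}

/-- The class `x` has degree `j`. -/
def IsDeg (j : ℕ) (x : W.H X) : Prop := InDeg (W.gr X) j x

/-- The class `x` is a linear combination of classes of algebraic cycles. -/
def IsAlgebraic (x : W.H X) : Prop := InSpan W.K (cyc W X) x

/-- The number `tr (D ^ r x y)`. -/
noncomputable def pairD (D : X.Cycles) (r : ℕ) (x y : W.H X) : W.K :=
  trD (W.tr X) (W.cl X D) r x y

/-- The image of the class `x` under the correspondence `z`. -/
noncomputable def corrOn (z : (X.prod Y).Cycles) (x : W.H X) : W.H Y := value (corrOf W z) x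

/-- The class of the divisor `D` is the restriction of the class of `E`. -/
def Restricts (f : X ⟶ Y) (D : X.Cycles) (E : Y.Cycles) : Prop := W.cl X D = W.map f (W.cl Y E)

/-- Hard Lefschetz for the divisor `D` on `X`. -/
def HardLefAt (D : X.Cycles) : Prop := HardLefInj (W.gr X) X.dim (W.cl X D)

/-- The standard conjecture of Hodge type for the divisor `D` on `X`. -/
def HodgeAt (D : X.Cycles) : Prop := HodgeIndex (cyc W X) (W.tr X) X.dim (W.cl X D)

end Classes

/-- The divisors `D s` on the strata are compatible with the restrictions, and the hard Lefschetz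
theorem and the standard conjecture of Hodge type are true for them. -/
structure IsPolarization (W : WeilCohomology.{u, v} ops) (T : Strata 𝒱)
    (D : ∀ s, (T.Y s).Cycles) : Prop where
  mem : ∀ s, (T.Y s).IsCyc 1 (D s)
  restrict : ∀ s u (h : T.sgn s u ≠ 0), Restricts W (T.incl s u h) (D s) (D u)
  lefschetz : ∀ s, HardLefAt W (D s)
  hodge : ∀ s, HodgeAt W (D s)

namespace Strata

variable (T : Strata 𝒱) (W : WeilCohomology.{u, v} ops) (m : ℕ)

/-- The strata of rank `m`. -/
def OfRank : Type := {s : T.S // T.rk s = m}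

/-- The stratum as an element of `T.S`. -/
def OfRank.el {T : Strata 𝒱} {m : ℕ} (s : T.OfRank m) : T.S := s.1

noncomputable instance : Fintype (T.OfRank m) :=
  inferInstanceAs (Fintype {s : T.S // T.rk s = m})

/-- The cohomology of the strata of rank `m`. -/
abbrev HRank : Type v := ∀ s : T.OfRank m, W.H (T.Y s.el)

/-- Cycles on the products of two strata of rank `m`. -/
abbrev CyclesRank : Type u := ∀ s t : T.OfRank m, ((T.Y t.el).prod (T.Y s.el)).Cycles

variable {m}

/-- The family `x` has degree `j`. -/
def AreDeg (j : ℕ) (x : T.HRank W m) : Prop := ∀ s, IsDeg W j (x s)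

/-- The operator on the cohomology of the strata of rank `m` which is given by cycles on the
products of two strata. -/
noncomputable def opRank (z : T.CyclesRank m) (x : T.HRank W m) : T.HRank W m :=
  fun s => sumA fun t => corrOn W (z s t) (x t)

/-- The form `(x, y) ↦ ∑ tr (D ^ r x y)` on the cohomology of the strata of rank `m`. -/
noncomputable def formRank (D : ∀ s, (T.Y s).Cycles) (r : ℕ) (x y : T.HRank W m) : W.K :=
  sumK fun s => pairD W (D s.el) r (x s) (y s)

/-- The cycles `z` are correspondences of degree zero. -/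
def IsCorr (z : T.CyclesRank m) : Prop :=
  ∀ s t, ((T.Y t.el).prod (T.Y s.el)).IsCyc (T.Y t.el).dim (z s t)

/-- The cycles `z` are correspondences of degree zero, which give a projector on the cohomology in
degree `j` of the strata of rank `m` whose image is isotropic for the form
`(x, y) ↦ ∑ tr (D ^ r x y)`. -/
structure IsIsotropic (D : ∀ s, (T.Y s).Cycles) (r j : ℕ) (z : T.CyclesRank m) : Prop where
  mem : T.IsCorr z
  idem : ∀ x, T.AreDeg W j x → T.opRank W z (T.opRank W z x) = T.opRank W z x
  isotropic : ∀ x y, T.AreDeg W j x → T.AreDeg W j y →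
    T.formRank W D r (T.opRank W z x) (T.opRank W z y) = 0

/-- The isotropic motives in degree `q`: for `1 ≤ m < q` every isotropic algebraic projector on the
cohomology in degree `q - m` of the strata of rank `m` (for the form
`(x, y) ↦ ∑ tr (D ^ (n - q) x y)`) has an image which consists of linear combinations of classes
of algebraic cycles. -/
def IsotropicAlgebraic (n q : ℕ) (D : ∀ s, (T.Y s).Cycles) : Prop :=
  ∀ m, 1 ≤ m → m < q → ∀ z : T.CyclesRank m, T.IsIsotropic W D (n - q) (q - m) z →
    ∀ x, T.AreDeg W (q - m) x → ∀ s, IsAlgebraic W (T.opRank W z x s)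

end Strata

end Pool.Agent.K9h28.Il
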