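import Pool.Agent.K9h28.MdA
import Pool.Agent.K9h28.MdStm
import Pool.Agent.K9h28.DtoA

/-!
# Hard Lefschetz and Hodge type
-/

set_option autoImplicit false
set_option linter.unusedSectionVars false

open CategoryTheory AlgebraicGeometry Module

universe u v

namespace Pool.Agent.K9h28.Il

open Pool.Agent.H914 Pool.Agent.H914.VarClass Pool.Agent.H914.VarClass.Obj
  Pool.Agent.H914.WeilCohomology Pool.Agent.W552

section Lin

variable {K : Type*} [Field K] {V : Type*} [AddCommGroup V] [Module K V] [Module.Finite K V]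

/-- The rank of the adjoint operator. -/
lemma rank_adjoint {Φ : V →ₗ[K] Module.Dual K V} (hΦ : Function.Injective Φ) {F G : End K V}
    (h : ∀ x y, Φ (F x) y = Φ x (G y)) :
    finrank K (LinearMap.range F) = finrank K (LinearMap.range G) := by
  have hs : Function.Surjective Φ :=
    (LinearMap.injective_iff_surjective_of_finrank_eq_finrank
      (Subspace.dual_finrank_eq (K := K) (V := V)).symm).1 hΦ
  have h1 : Φ ∘ₗ F = G.dualMap ∘ₗ Φ := by
    apply LinearMap.ext
    intro x
    apply LinearMap.ext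
    intro y
    exact h x y
  have h2 : finrank K (LinearMap.range (Φ ∘ₗ F)) = finrank K (LinearMap.range F) := by
    rw [LinearMap.range_comp]
    exact (Submodule.equivMapOfInjective Φ hΦ _).finrank_eq.symm
  rw [← h2, h1, LinearMap.range_comp_of_range_eq_top _ (LinearMap.range_eq_top.2 hs),
    LinearMap.finrank_range_dualMap_eq_finrank_range]

end Lin

variable {k : Type u} [Field k] {𝒱 : VarClass k} {ops : CycleOps 𝒱}
  {W : WeilCohomology.{u, v} ops} {X : 𝒱.Obj}

lemma tr_projZ {X : 𝒱.Obj} {j j' : ℤ} (hj : j + j' = 2 * X.dim) (a b : W.H X) :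
    W.tr X (projZ (W.isInternal X) j a * b) = W.tr X (a * projZ (W.isInternal X) j' b) := by
  refine gr_induction (W.isInternal X) (p := fun a =>
    W.tr X (projZ (W.isInternal X) j a * b) = W.tr X (a * projZ (W.isInternal X) j' b)) ?_ ?_ a
  · intro i a ha
    refine gr_induction (W.isInternal X) (p := fun b =>
      W.tr X (projZ (W.isInternal X) j a * b) = W.tr X (a * projZ (W.isInternal X) j' b)) ?_ ?_ b
    · intro i' b hb
      have ha' : a ∈ grZ (W.gr X) (i : ℤ) := by rwa [grZ_natCast]
      have hb' : b ∈ grZ (W.gr X) (i' : ℤ) := by rwa [grZ_natCast]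
      by_cases h0 : (i : ℤ) = j
      · subst h0
        rw [projZ_same _ ha']
        by_cases h1 : (i' : ℤ) = j'
        · subst h1
          rw [projZ_same _ hb']
        · rw [projZ_ne _ h1 hb', mul_zero, map_zero,
            W.tr_eq_zero (W.mul_mem ha hb) (by omega)]
      · rw [projZ_ne _ h0 ha', zero_mul, map_zero]
        by_cases h1 : (i' : ℤ) = j'
        · subst h1
          rw [projZ_same _ hb', W.tr_eq_zero (W.mul_mem ha hb) (by omega)]
        · rw [projZ_ne _ h1 hb', mul_zero, map_zero]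
    · intro b b' hb hb'
      rw [mul_add, map_add, map_add, mul_add, map_add, hb, hb']
  · intro a a' ha ha'
    rw [map_add, add_mul, map_add, add_mul, map_add, ha, ha']

/-- The duality of the cohomology. -/
noncomputable def dualH (W : WeilCohomology.{u, v} ops) (X : 𝒱.Obj) :
    W.H X →ₗ[W.K] Module.Dual W.K (W.H X) :=
  LinearMap.mk₂ W.K (fun x y => W.tr X (x * y))
    (fun x x' y => by rw [add_mul, map_add]) (fun c x y => by rw [smul_mul_assoc, map_smul])
    (fun x y y' => by rw [mul_add, map_add]) (fun c x y => by rw [mul_smul_comm, map_smul])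

lemma dualH_injective : Function.Injective (dualH W X) := by
  rw [injective_iff_map_eq_zero]
  intro x hx
  exact W.nondeg x fun b => congrArg (fun F => F b) hx

/-- Poincare duality for the dimensions. -/
lemma finrank_gr_dual {i : ℕ} (hi : i ≤ 2 * X.dim) :
    finrank W.K (W.gr X i) = finrank W.K (W.gr X (2 * X.dim - i)) := by
  have h1 : ∀ j : ℕ, LinearMap.range (projZ (W.isInternal X) (j : ℤ)) = W.gr X j := by
    intro j
    apply le_antisymm
    · rintro _ ⟨x, rfl⟩
      have h2 := projZ_mem (W.isInternal X) (j : ℤ) x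
      rwa [grZ_natCast] at h2
    · intro x hx
      exact ⟨x, projZ_same _ (by rwa [grZ_natCast])⟩
  have h2 := rank_adjoint (K := W.K) (Φ := dualH W X) dualH_injective
    (F := projZ (W.isInternal X) (i : ℤ))
    (G := projZ (W.isInternal X) ((2 * X.dim - i : ℕ) : ℤ)) fun x y =>
      tr_projZ (by omega) x y
  rwa [h1, h1] at h2

lemma mulLeft_even' {p : ℕ} {c : W.H X} (hc : c ∈ W.gr X (2 * p)) (r : ℕ) :
    c ^ r ∈ W.gr X (2 * (p * r)) := by
  induction r with
  | zero => simpa using W.one_mem X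
  | succ r ih =>
    rw [pow_succ]
    have h1 := W.mul_mem ih hc
    rwa [← mul_add, ← Nat.mul_succ] at h1

/-- Hard Lefschetz. -/
lemma HardLefAt.hl {D : X.Cycles} (hD : X.IsCyc 1 D) (h : HardLefAt W D) :
    HardLefschetz W X D := by
  intro i hi
  have hpow : ∀ (r : ℕ) (a : W.H X), ((LinearMap.mulLeft W.K (W.cl X D)) ^ r) a =
      W.cl X D ^ r * a := by
    intro r a
    rw [LinearMap.pow_mulLeft, LinearMap.mulLeft_apply]
  have hinj : ∀ a ∈ W.gr X i, ((LinearMap.mulLeft W.K (W.cl X D)) ^ (X.dim - i)) a = 0 →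
      a = 0 := by
    intro a ha h0
    rw [hpow] at h0
    exact h i hi a ha h0
  refine ⟨hinj, ?_⟩
  have hmem : ∀ a ∈ W.gr X i, ((LinearMap.mulLeft W.K (W.cl X D)) ^ (X.dim - i)) a ∈
      W.gr X (2 * X.dim - i) := by
    intro a ha
    rw [hpow]
    have h1 := W.mul_mem (mulLeft_even' (W.cl_mem hD) (X.dim - i)) ha
    rwa [show 2 * (1 * (X.dim - i)) + i = 2 * X.dim - i by omega] at h1
  let φ : W.gr X i →ₗ[W.K] W.gr X (2 * X.dim - i) :=
    ((LinearMap.mulLeft W.K (W.cl X D)) ^ (X.dim - i)).restrict hmem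
  have hφ : Function.Injective φ := by
    rw [injective_iff_map_eq_zero]
    intro a ha
    exact Subtype.ext (hinj a a.2 (congrArg Subtype.val ha))
  have hs := (LinearMap.injective_iff_surjective_of_finrank_eq_finrank
    (finrank_gr_dual (W := W) (X := X) (i := i) (by omega))).1 hφ
  intro b hb
  obtain ⟨a, ha⟩ := hs ⟨b, hb⟩
  exact ⟨a, a.2, congrArg Subtype.val ha⟩

/-- Hodge type. -/
lemma HodgeAt.ht {D : X.Cycles} (hD : X.IsCyc 1 D) (h : HodgeAt W D) : HodgeType W X D := by
  intro j hj z hz h0 hne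
  rw [cl_divPow, LinearMap.pow_mulLeft, LinearMap.mulLeft_apply] at h0
  obtain ⟨r, hr, hr'⟩ := h j hj (W.cl X z) ⟨z, hz, rfl⟩ h0 hne
  have h1 : (X.V.degCycle (ops.mul z (divPow ops D (X.dim - 2 * j) z)) : W.K) = (r : W.K) := by
    have h2 := divPow_mem (ops := ops) hD (X.dim - 2 * j) hz
    have h3 := ops.mul_mem hz h2
    rw [show j + (j + (X.dim - 2 * j)) = X.dim by omega] at h3
    rw [← W.tr_cl h3, W.cl_mul, cl_divPow, LinearMap.pow_mulLeft, LinearMap.mulLeft_apply, ← hr',
      trD, ← mul_assoc, ← mul_assoc,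
      W.even_comm (mulLeft_even' (W.cl_mem hD) (X.dim - 2 * j)) (W.cl X z)]
  have h2 : X.V.degCycle (ops.mul z (divPow ops D (X.dim - 2 * j) z)) = r := by
    exact_mod_cast h1
  rw [h2]
  exact hr

variable {T : Strata 𝒱}

lemma IsPolarization.hl {D : ∀ s, (T.Y s).Cycles} (hP : IsPolarization W T D) (s : T.S) :
    HardLefschetz W (T.Y s) (D s) := HardLefAt.hl (hP.mem s) (hP.lefschetz s)

lemma IsPolarization.ht {D : ∀ s, (T.Y s).Cycles} (hP : IsPolarization W T D) (s : T.S) :
    HodgeType W (T.Y s) (D s) := HodgeAt.ht (hP.mem s) (hP.hodge s)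

end Pool.Agent.K9h28.Il
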