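import Pool.Agent.K9h28.MinDefs
import Pool.Agent.K9h28.HaH

/-!
# The conjecture D goes up from the special fibre for abelian varieties: translation
-/

set_option autoImplicit false

open CategoryTheory AlgebraicGeometry

universe u u' v v'

namespace Pool.Agent.K9h28.Min

open Pool.Agent.H914 Pool.Agent.H914.VarClass Pool.Agent.H914.VarClass.Obj
  Pool.Agent.H914.WeilCohomology

variable {k : Type u} [Field k] {𝒱 : VarClass k} {ops : CycleOps 𝒱} {W : WeilCohomology.{u, v} ops}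

lemma classes_eq (X : 𝒱.Obj) (p : ℕ) : classes W X p = algClasses W X p := rfl

lemma mem_cycOps {X : 𝒱.Obj} {p : ℕ} {e : Module.End W.K (W.H X)} :
    e ∈ cycOps W X p ↔ ∃ z, (X.prod X).IsCyc p z ∧ W.corr (W.cl (X.prod X) z) = e := by
  constructor
  · rintro ⟨_, ⟨z, hz, rfl⟩, rfl⟩
    exact ⟨z, hz, rfl⟩
  · rintro ⟨z, hz, rfl⟩
    exact ⟨_, ⟨z, hz, rfl⟩, rfl⟩

lemma cycOps_eq (X : 𝒱.Obj) : cycOps W X X.dim = Pool.Agent.R908.cycleOperators W X := by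
  ext e
  exact mem_cycOps

/-- A symmetry in the sense of this file is a symmetry in the sense of `R908`. -/
noncomputable def Sym.toSymmetry (S : Sym W) : Pool.Agent.R908.Symmetry W where
  σ := S.σ
  c X := (S.sym X).tr.choose
  sim X := ⟨(S.sym X).tr.choose_spec.1, (S.sym X).gr, (S.sym X).tr.choose_spec.2⟩
  monoidal X Y := ⟨S.fst X Y, S.snd X Y⟩
  cycles X p a := by
    rw [spanCycles_eq]
    exact (S.sym X).span p a

lemma symmetryOperators_eq (𝒢 : Set (Sym W)) (X : 𝒱.Obj) :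
    Pool.Agent.R908.symmetryOperators (Sym.toSymmetry '' 𝒢) X =
      {φ : W.H X → W.H X | ∃ s ∈ Values (Sym.σ · X) (· ∈ 𝒢), φ = s} := by
  ext φ
  constructor
  · rintro ⟨_, ⟨S, hS, rfl⟩, rfl⟩
    exact ⟨_, ⟨S, hS, rfl⟩, rfl⟩
  · rintro ⟨_, ⟨S, hS, rfl⟩, rfl⟩
    exact ⟨_, ⟨S, hS, rfl⟩, rfl⟩

lemma operators_eq (𝒢 : Set (Sym W)) (X : 𝒱.Obj) : operators (Sym.toSymmetry '' 𝒢) X =
    actions (cycOps W X X.dim) (Values (Sym.σ · X) (· ∈ 𝒢)) := by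
  rw [operators, symmetryOperators_eq, cycOps_eq]
  rfl

/-- The translation of the properties of abelian varieties. -/
theorem IsAbelian.withCentre {𝒢 : Set (Sym W)} {A : 𝒱.Obj} (h : IsAbelian W 𝒢 A) :
    IsAbelianWithCentre (Sym.toSymmetry '' 𝒢) A := by
  obtain ⟨m, _, ⟨D, hD, rfl⟩, h⟩ := h
  refine ⟨m, D, ⟨⟨h.add, h.gen⟩, hD, h.lefschetz, ?_⟩, ?_⟩
  · rintro _ ⟨S, hS, rfl⟩
    exact h.scaled _ ⟨S, hS, rfl⟩
  · obtain ⟨e, he, h1, h2, h3⟩ := h.centre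
    refine ⟨e, ?_, h1, ?_, ?_⟩
    · rw [← cycOps_eq]
      exact he
    · rw [operators_eq]
      exact h2
    · rw [operators_eq]
      exact h3

lemma dominates_iff {X Y : 𝒱.Obj} : Dominates W X Y ↔ Pool.Agent.H914.Dominates W X Y := by
  constructor
  · rintro ⟨g, p, _, ⟨z, hz, rfl⟩, c, hc, h⟩
    exact ⟨g, p, z, c, hz, hc, h⟩
  · rintro ⟨g, p, z, c, hz, hc, h⟩
    exact ⟨g, p, _, ⟨z, hz, rfl⟩, c, hc, h⟩

lemma InjectivityConj.translate {X : 𝒱.Obj} (h : InjectivityConj W X) :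
    Pool.Agent.R908.InjectivityConj W X := by
  intro p n z hz hq
  rw [Fintype.linearIndependent_iff]
  refine h p n (fun i => W.cl X (z i)) (fun i => ⟨z i, hz i, rfl⟩) fun q h0 => hq q ?_
  rw [map_sum, ← h0, lin]
  exact Finset.sum_congr rfl fun i _ => W.cl_smul _ _

variable {k₀ : Type u'} [Field k₀] {𝒱₀ : VarClass k₀} {ops₀ : CycleOps 𝒱₀}
  {W₀ : WeilCohomology.{u', v'} ops₀} {σ : W.K →+* W₀.K}

lemma SpecializesTo.translate {X : 𝒱.Obj} {T : Strata 𝒱₀}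
    {sp : ∀ s, X.Cycles → (T.Y s).Cycles} (h : SpecializesTo W X W₀ σ T sp) :
    Pool.Agent.K9h28.SpecializesTo W X W₀ σ T sp :=
  ⟨h.mem, h.exact⟩

/-- **The conjecture D goes up from the special fibre for abelian varieties.** -/
theorem main {𝒢 : Set (Sym W)} {P 𝒴 : Set 𝒱.Obj} (hP : ∀ A ∈ P, IsAbelian W 𝒢 A)
    (h𝒴 : ∀ Y, IsProductOf 𝒴 Y → HomEqNum W Y)
    (h : ∀ Z, IsProductOf (P ∪ 𝒴) Z → ∃ X, Dominates W X Z ∧ (InjectivityConj W X ∨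
      ∃ (T : Strata 𝒱₀) (sp : ∀ s, X.Cycles → (T.Y s).Cycles),
        SpecializesTo W X W₀ σ T sp ∧ ∀ s, HomEqNum W₀ (T.Y s)))
    (Z : 𝒱.Obj) (hZ : IsProductOf (P ∪ 𝒴) Z) (V : 𝒱.Obj) (hV : Dominates W Z V) :
    HomEqNum W V ∧ SatisfiesB W V := by
  have h1 := specialFibre_final (𝒢 := Sym.toSymmetry '' 𝒢) (P := P) (𝒴 := 𝒴) (W₀ := W₀) (σ := σ)
    (fun A hA => (hP A hA).withCentre) h𝒴 (fun Z hZ => ?_) Z hZ V (dominates_iff.1 hV)
  · refine ⟨h1.1, ?_⟩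
    rintro _ ⟨D, hD, rfl⟩ hHL
    obtain ⟨z, hz, h2⟩ := h1.2 D hD hHL
    exact ⟨_, mem_cycOps.2 ⟨z, hz, rfl⟩, h2⟩
  · obtain ⟨X, hX, h2⟩ := h Z hZ
    refine ⟨X, dominates_iff.1 hX, ?_⟩
    rcases h2 with h2 | ⟨T, sp, h2, h3⟩
    · exact Or.inl h2.translate
    · exact Or.inr ⟨T, sp, h2.translate, h3⟩

end Pool.Agent.K9h28.Min
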