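import Pool.Agent.K9h28.HaLin
import Pool.Agent.K9h28.GnDefs

/-!
# Abelian varieties, symmetries, and the specialization of cycles: definitions
-/

set_option autoImplicit false

open CategoryTheory AlgebraicGeometry

universe u u' v v'

namespace Pool.Agent.K9h28.Min

open Pool.Agent.H914 Pool.Agent.H914.VarClass Pool.Agent.H914.VarClass.Obj
  Pool.Agent.H914.WeilCohomology

section Alg

/-- The values of the map `f` on the elements with the property `P`. -/
def Values {α β : Type*} (f : α → β) (P : α → Prop) : Set β := {b | ∃ a, P a ∧ f a = b}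

variable {K : Type*} [Field K] {B C : Type*} [Ring B] [Algebra K B] [Ring C] [Algebra K C]

/-- The element `b` is a nonzero multiple of `1`. -/
def IsConstant (K : Type*) [Field K] {B : Type*} [Ring B] [Algebra K B] (b : B) : Prop :=
  ∃ c : K, c ≠ 0 ∧ b = c • 1

/-- The linear combination of the elements `x i` with the coefficients `c i`. -/
def lin {n : ℕ} (c : Fin n → K) (x : Fin n → B) : B := ∑ i, c i • x i

/-- If the elements `x i` are linearly independent over `ℚ`, then they are linearly independent over
the field `K`. -/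
def IsRigid (K : Type*) [Field K] {B : Type*} [Ring B] [Algebra K B] {n : ℕ} (x : Fin n → B) :
    Prop :=
  (∀ q : Fin n → ℚ, lin (fun i => (q i : K)) x = 0 → ∀ i, q i = 0) →
    ∀ c : Fin n → K, lin c x = 0 → ∀ i, c i = 0

/-- The automorphism `s` preserves the degrees and the spans of the sets `U p`, and it multiplies the
orientation by a nonzero constant. -/
structure IsSymmetryOf (gr : ℕ → Submodule K B) (tr : B →ₗ[K] K) (U : ℕ → Set B)
    (s : B ≃ₐ[K] B) : Prop where
  gr : ∀ i x, s x ∈ gr i ↔ x ∈ gr i
  tr : ∃ c : K, c ≠ 0 ∧ ∀ x, tr (s x) = c * tr x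
  span : ∀ p x, s x ∈ Submodule.span K (U p) ↔ x ∈ Submodule.span K (U p)

/-- The homomorphism `f` commutes with the automorphisms. -/
def Commutes (s : B ≃ₐ[K] B) (t : C ≃ₐ[K] C) (f : B →ₐ[K] C) : Prop := ∀ x, f (s x) = t (f x)

/-- The operators in `E` and the automorphisms in `G`. -/
def actions (E : Set (Module.End K B)) (G : Set (B ≃ₐ[K] B)) : Set (B → B) :=
  {φ | (∃ e ∈ E, φ = e) ∨ ∃ s ∈ G, φ = s}

/-- The properties of the cohomology of an abelian variety `A` of dimension `n`, with the addition
`m : A × A → A`, the projections `p`, `q`, the class `ξ` of an ample divisor, the set `E` of operators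
given by cycles of codimension `n` on `A × A`, and the set `G` of symmetries (for instance the Galois
group):
* on `H^1(A)` the pull-back by `m` is the sum of those by `p` and `q`, and `H^i(A)` is spanned by
  products of `i` elements of `H^1(A)`;
* hard Lefschetz holds for `ξ`, and the symmetries multiply `ξ` by constants;
* some operator `e` in `E` acts on `H^1(A)` like a generator of the centre of `End(A) ⊗ ℚ`: the
  algebra `ℚ[e]` is semisimple and the Rosati involution induces the complex conjugation on it;
* `H^1(A)` is semisimple under `E` and `G`, and the operators which commute with `E` and `G` are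
  polynomials in `e` over the coefficient field. -/
structure IsAbelianAlgebra [CharZero K] (gr : ℕ → Submodule K B) (n : ℕ) (tr : B →ₗ[K] K)
    (m p q : B →ₐ[K] C) (ξ : B) (E : Set (Module.End K B)) (G : Set (B ≃ₐ[K] B)) : Prop where
  add : ∀ x ∈ gr 1, m x = p x + q x
  gen : ∀ i, gr i ≤ gr 1 ^ i
  lefschetz : HardLef gr n (LinearMap.mulLeft K ξ)
  scaled : ∀ s ∈ G, ∃ c : K, c ≠ 0 ∧ s ξ = c • ξ
  centre : ∃ e ∈ E, ConjugateAdjoint (gr 1) (fun x y => tr (x * (ξ ^ (n - 1) * y))) e ∧
    SemisimpleUnder (actions E G) (gr 1) ∧ CommutantGeneratedBy (actions E G) (gr 1) e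

/-- If hard Lefschetz holds for `ξ`, then the operator `Λ` belongs to `E`. -/
def LambdaIn (gr : ℕ → Submodule K B) (n : ℕ) (ξ : B) (E : Set (Module.End K B)) : Prop :=
  HardLef gr n (LinearMap.mulLeft K ξ) → ∃ e ∈ E, IsLam gr n (LinearMap.mulLeft K ξ) e

end Alg

variable {k : Type u} [Field k] {𝒱 : VarClass k} {ops : CycleOps 𝒱} (W : WeilCohomology.{u, v} ops)

/-- The classes of the cycles of codimension `p` with rational coefficients. -/
def classes (X : 𝒱.Obj) (p : ℕ) : Set (W.H X) := Values (W.cl X) (X.IsCyc p)

/-- The operators on `H(X)` given by the cycles of codimension `p` on `X × X`. -/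
def cycOps (X : 𝒱.Obj) (p : ℕ) : Set (Module.End W.K (W.H X)) :=
  Values (corrOp (W.map (fst X X)) (W.push (snd X X))) (· ∈ classes W (X.prod X) p)

/-- A symmetry of a Weil cohomology theory: automorphisms `σ` of the graded algebras `H(X)` over the
coefficient field, compatible with the two projections of a product, which preserve the spans of
the classes of the cycles of codimension `p`, and multiply the orientations by nonzero constants. For
instance all varieties in the class have models over a subfield `k₁` of `k`, and `σ` is the action of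
an element of the Galois group of `k₁` on the `ℓ`-adic cohomology. -/
structure Sym where
  /-- the automorphisms -/
  σ : ∀ X : 𝒱.Obj, W.H X ≃ₐ[W.K] W.H X
  sym : ∀ X : 𝒱.Obj, IsSymmetryOf (W.gr X) (W.tr X) (classes W X) (σ X)
  fst : ∀ X Y : 𝒱.Obj, Commutes (σ X) (σ (X.prod Y)) (W.map (fst X Y))
  snd : ∀ X Y : 𝒱.Obj, Commutes (σ Y) (σ (X.prod Y)) (W.map (snd X Y))

/-- The variety `A` has the known properties of an abelian variety, for some addition and some ample
divisor. -/
def IsAbelian (𝒢 : Set (Sym W)) (A : 𝒱.Obj) : Prop :=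
  ∃ m : A.prod A ⟶ A, ∃ ξ ∈ classes W A 1, IsAbelianAlgebra (W.gr A) A.dim (W.tr A) (W.map m)
    (W.map (fst A A)) (W.map (snd A A)) ξ (cycOps W A A.dim) (Values (Sym.σ · A) (· ∈ 𝒢))

/-- The injectivity conjecture for `X`: cycles of the same codimension, the classes of which are
linearly independent over `ℚ`, have linearly independent classes over the coefficient field. -/
def InjectivityConj (X : 𝒱.Obj) : Prop :=
  ∀ p n, ∀ x : Fin n → W.H X, (∀ i, x i ∈ classes W X p) → IsRigid W.K x

/-- The variety `Y` is dominated by `X`: the push-forward of the class of some cycle on `X` is a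
nonzero multiple of `1`. -/
def Dominates (X Y : 𝒱.Obj) : Prop :=
  ∃ (g : X ⟶ Y) (p : ℕ), ∃ x ∈ classes W X p, IsConstant W.K (W.push g x)

/-- The Lefschetz standard conjecture B for all divisors on `X` which satisfy hard Lefschetz: the
operator `Λ` is induced by a cycle with rational coefficients. -/
def SatisfiesB (X : 𝒱.Obj) : Prop :=
  ∀ ξ ∈ classes W X 1, LambdaIn (W.gr X) X.dim ξ (cycOps W X (X.dim - 1))

variable {k₀ : Type u'} [Field k₀] {𝒱₀ : VarClass k₀} {ops₀ : CycleOps 𝒱₀}

/-- The specialization of the cycles on `X` to cycles on the strata of rank zero: a linear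
combination of classes of cycles on `X` vanishes if and only if the combination of the classes of the
specializations vanishes in the spectral sequence of the weights. -/
structure SpecializesTo (X : 𝒱.Obj) (W₀ : WeilCohomology.{u', v'} ops₀) (σ : W.K →+* W₀.K)
    (T : Strata 𝒱₀) (sp : ∀ s, X.Cycles → (T.Y s).Cycles) : Prop where
  mem : ∀ p z, X.IsCyc p z → ∀ s, T.rk s = 0 → (T.Y s).IsCyc p (sp s z)
  exact : ∀ (p n : ℕ) (z : Fin n → X.Cycles) (c : Fin n → W.K), (∀ i, X.IsCyc p (z i)) →
    (lin c (fun i => W.cl X (z i)) = 0 ↔ T.IsCoboundary W₀ fun s =>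
      lin (fun i => σ (c i)) (fun i => W₀.cl (T.Y s) (sp s (z i))))

end Pool.Agent.K9h28.Min
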