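import Pool.Agent.K9h28.Core

/-!
# Monomials in elements of degree one of a graded-commutative algebra
-/

set_option autoImplicit false
set_option linter.unusedSectionVars false

open Finset

namespace Pool.Agent.K9h28

/-- The monomial `e ^ a * f ^ b` at the site `i`. -/
def fac {R : Type*} [Monoid R] {I : Type} (e f : I → R) (i : I) (u : St) : R :=
  (if u.1 then e i else 1) * (if u.2 then f i else 1)

/-- The product of the monomials at the sites in a list. -/
def monL {R : Type*} [Monoid R] {I : Type} (e f : I → R) (l : List I) (s : I → St) : R :=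
  (l.map fun i => fac e f i (s i)).prod

/-- The degree of a state. -/
def dg (u : St) : ℕ := (if u.1 then 1 else 0) + (if u.2 then 1 else 0)

/-- The sign of the product of two states. -/
def sgS (u u' : St) : ℤ :=
  if (u.1 && u'.1) || (u.2 && u'.2) then 0 else if u.2 && u'.1 then -1 else 1

/-- The union of two states. -/
def jn {I : Type} (s s' : I → St) : I → St := fun i => ((s i).1 || (s' i).1, (s i).2 || (s' i).2)

/-- The sum of the degrees. -/
def dgL {I : Type} (l : List I) (s : I → St) : ℕ := (l.map fun i => dg (s i)).sum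

/-- The sign of the product of two monomials. -/
def sgL {I : Type} : List I → (I → St) → (I → St) → ℤ
  | [], _, _ => 1
  | i :: l, s, s' => (-1) ^ (dgL l s * dg (s' i)) * sgS (s i) (s' i) * sgL l s s'

section

variable {K : Type*} [Field K] [CharZero K] {R : Type*} [Ring R] [Algebra K R]
  {gr : ℕ → Submodule K R} {I : Type} {e f : I → R}

/-- Graded-commutative multiplication, and elements `e i`, `f i` of degree one. -/
structure Odd1 (gr : ℕ → Submodule K R) (e f : I → R) : Prop where
  one_mem : (1 : R) ∈ gr 0
  mul_mem : ∀ {i j : ℕ} {a b : R}, a ∈ gr i → b ∈ gr j → a * b ∈ gr (i + j)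
  comm : ∀ {i j : ℕ} {a b : R}, a ∈ gr i → b ∈ gr j → a * b = (-1 : K) ^ (i * j) • (b * a)
  he : ∀ i, e i ∈ gr 1
  hf : ∀ i, f i ∈ gr 1

namespace Odd1

variable (h : Odd1 gr e f)

include h

lemma sq {x : R} (hx : x ∈ gr 1) : x * x = 0 := by
  have h1 := h.comm hx hx
  simp only [mul_one, pow_one, neg_smul, one_smul] at h1
  have h2 : (2 : K) • (x * x) = 0 := by
    rw [two_smul]
    nth_rewrite 1 [h1]
    exact neg_add_cancel _
  rcases smul_eq_zero.1 h2 with h3 | h3
  · exact absurd h3 two_ne_zero
  · exact h3

lemma anti {x y : R} (hx : x ∈ gr 1) (hy : y ∈ gr 1) : x * y = -(y * x) := by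
  have h1 := h.comm hx hy
  simpa using h1

lemma even_comm {p : ℕ} {x : R} (hx : x ∈ gr (2 * p)) {j : ℕ} {y : R} (hy : y ∈ gr j) :
    x * y = y * x := by
  have h1 := h.comm hx hy
  rw [mul_assoc, pow_mul] at h1
  simpa using h1

lemma fac_mem (i : I) (u : St) : fac e f i u ∈ gr (dg u) := by
  obtain ⟨a, b⟩ := u
  have he := h.he i
  have hf := h.hf i
  have h1 := h.one_mem
  cases a <;> cases b
  · simpa [fac, dg] using h1
  · simpa [fac, dg] using hf
  · simpa [fac, dg] using he
  · simpa [fac, dg] using h.mul_mem he hf

lemma fac_mul (i : I) (u u' : St) :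
    fac e f i u * fac e f i u' = sgS u u' • fac e f i (u.1 || u'.1, u.2 || u'.2) := by
  obtain ⟨a, b⟩ := u
  obtain ⟨a', b'⟩ := u'
  have h1 := h.sq (h.he i)
  have h2 := h.sq (h.hf i)
  have h3 := h.anti (h.hf i) (h.he i)
  have h4 : f i * (e i * f i) = 0 := by rw [← mul_assoc, h3, neg_mul, mul_assoc, h2]; simp
  have h5 : e i * (e i * f i) = 0 := by rw [← mul_assoc, h1, zero_mul]
  have h6 : e i * f i * e i = 0 := by rw [mul_assoc, h3, mul_neg, ← mul_assoc, h1]; simp
  have h7 : e i * f i * f i = 0 := by rw [mul_assoc, h2, mul_zero]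
  have h8 : e i * f i * (e i * f i) = 0 := by rw [← mul_assoc, h6, zero_mul]
  cases a <;> cases b <;> cases a' <;> cases b' <;> simp [fac, sgS, h1, h2, h3, h4, h5, h6, h7, h8]

lemma monL_mem (l : List I) (s : I → St) : monL e f l s ∈ gr (dgL l s) := by
  induction l with
  | nil => simpa [monL, dgL] using h.one_mem
  | cons i l ih =>
    have : monL e f (i :: l) s = fac e f i (s i) * monL e f l s := by simp [monL]
    rw [this]
    have h2 : dgL (i :: l) s = dg (s i) + dgL l s := by simp [dgL]
    rw [h2]
    exact h.mul_mem (h.fac_mem i _) ih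

omit h in
lemma monL_cons (i : I) (l : List I) (s : I → St) :
    monL e f (i :: l) s = fac e f i (s i) * monL e f l s := by simp [monL]

lemma monL_mul (l : List I) (s s' : I → St) :
    monL e f l s * monL e f l s' = sgL l s s' • monL e f l (jn s s') := by
  induction l with
  | nil => simp [monL, sgL]
  | cons i l ih =>
    rw [monL_cons, monL_cons, monL_cons, sgL]
    have h1 := h.comm (h.monL_mem l s) (h.fac_mem i (s' i))
    have h2 : ((-1 : K) ^ (dgL l s * dg (s' i))) • (fac e f i (s' i) * monL e f l s) =
        ((-1 : ℤ) ^ (dgL l s * dg (s' i))) • (fac e f i (s' i) * monL e f l s) := by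
      rw [← Int.cast_smul_eq_zsmul K]
      push_cast
      rfl
    rw [h2] at h1
    calc fac e f i (s i) * monL e f l s * (fac e f i (s' i) * monL e f l s')
        = fac e f i (s i) * (monL e f l s * fac e f i (s' i)) * monL e f l s' := by
          simp only [mul_assoc]
      _ = ((-1 : ℤ) ^ (dgL l s * dg (s' i))) • (fac e f i (s i) * fac e f i (s' i) *
          (monL e f l s * monL e f l s')) := by
          rw [h1]
          simp only [mul_smul_comm, smul_mul_assoc, mul_assoc]
      _ = _ := by
          rw [ih, h.fac_mul]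
          simp only [mul_smul_comm, smul_mul_assoc, smul_smul, jn]
          congr 1
          ring

end Odd1

lemma monL_congr {l : List I} {s s' : I → St} (h : ∀ i ∈ l, s i = s' i) :
    monL e f l s = monL e f l s' := by
  rw [monL, monL]
  congr 1
  exact List.map_congr_left fun i hi => by rw [h i hi]

/-- The action of a derivation. -/
lemma der_monL [DecidableEq I] (N : R →ₗ[K] R) (hN : ∀ x y, N (x * y) = N x * y + x * N y)
    (he : ∀ i, N (e i) = 0) (hf : ∀ i, N (f i) = e i) (hee : ∀ i, e i * e i = 0)
    {l : List I} (hl : l.Nodup) (s : I → St) :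
    N (monL e f l s) = (l.map fun i => if s i = sF then monL e f l (Function.update s i sE)
      else 0).sum := by
  have h1 : N 1 = 0 := by
    have := hN 1 1
    simp only [mul_one, one_mul] at this
    simpa using this
  have hfac : ∀ i (u : St), N (fac e f i u) = if u = sF then fac e f i sE else 0 := by
    rintro i ⟨a, b⟩
    cases a <;> cases b
    · simp [fac, h1]
    · simp [fac, hf]
    · simp [fac, he]
    · simp [fac, hN, he, hf, hee]
  induction l with
  | nil => simpa [monL] using h1
  | cons i l ih =>
    have hi : i ∉ l := (List.nodup_cons.1 hl).1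
    rw [Odd1.monL_cons, hN, ih (List.nodup_cons.1 hl).2, hfac, List.map_cons, List.sum_cons]
    congr 1
    · split_ifs with h
      · rw [Odd1.monL_cons, Function.update_self]
        congr 1
        apply monL_congr
        intro j hj
        rw [Function.update_of_ne (by rintro rfl; exact hi hj)]
      · rw [zero_mul]
    · rw [← List.sum_map_mul_left]
      congr 1
      apply List.map_congr_left
      intro j hj
      split_ifs with h
      · rw [Odd1.monL_cons, Function.update_of_ne (by rintro rfl; exact hi hj)]
      · rw [mul_zero]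

/-- Multiplication with `e i * f i`. -/
lemma mul_monL [DecidableEq I] (h : Odd1 gr e f) {l : List I} (hl : l.Nodup) {i : I}
    (hi : i ∈ l) (s : I → St) : e i * f i * monL e f l s =
      if s i = sO then monL e f l (Function.update s i sW) else 0 := by
  have hef : e i * f i ∈ gr (2 * 1) := by
    have := h.mul_mem (h.he i) (h.hf i)
    exact this
  have hfac : ∀ (u : St), e i * f i * (fac e f i u) = if u = sO then fac e f i sW else 0 := by
    intro u
    have h1 := h.fac_mul i sW u
    have h2 : fac e f i sW = e i * f i := by simp [fac]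
    rw [h2] at h1
    rw [h1]
    obtain ⟨a, b⟩ := u
    cases a <;> cases b <;> simp [fac, sgS]
  induction l with
  | nil => simp at hi
  | cons j l ih =>
    have hj : j ∉ l := (List.nodup_cons.1 hl).1
    rw [Odd1.monL_cons]
    by_cases hij : i = j
    · subst hij
      rw [← mul_assoc, hfac]
      split_ifs with hs
      · rw [Odd1.monL_cons, Function.update_self]
        congr 1
        apply monL_congr
        intro k hk
        rw [Function.update_of_ne (by rintro rfl; exact hj hk)]
      · rw [zero_mul]
    · have hil : i ∈ l := by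
        rcases List.mem_cons.1 hi with h1 | h1
        · exact absurd h1 hij
        · exact h1
      rw [← mul_assoc, h.even_comm hef (h.fac_mem j _), mul_assoc,
        ih (List.nodup_cons.1 hl).2 hil]
      split_ifs with hs
      · rw [Odd1.monL_cons, Function.update_of_ne (Ne.symm hij)]
      · rw [mul_zero]

end

section Signs

variable {I : Type}

/-- The number of sites with an odd state. -/
def od (l : List I) (s : I → St) : ℕ := (l.map fun i => if (s i).1 = (s i).2 then 0 else 1).sum

/-- The number of sites with the state `f`. -/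
def nf (l : List I) (s : I → St) : ℕ := (l.map fun i => if s i = sF then 1 else 0).sum

lemma dg_parity (u : St) : ((-1 : ℤ)) ^ dg u = (-1) ^ (if u.1 = u.2 then 0 else 1) := by
  obtain ⟨a, b⟩ := u
  cases a <;> cases b <;> simp [dg]

lemma neg_pow_congr {a b c d : ℕ} (h1 : (-1 : ℤ) ^ a = (-1) ^ b) (h2 : (-1 : ℤ) ^ c = (-1) ^ d) :
    (-1 : ℤ) ^ (a * c) = (-1) ^ (b * d) := by
  rw [pow_mul, h1, ← pow_mul, mul_comm, pow_mul, h2, ← pow_mul, mul_comm]

lemma dgL_parity (l : List I) (s : I → St) : ((-1 : ℤ)) ^ dgL l s = (-1) ^ od l s := by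
  induction l with
  | nil => simp [dgL, od]
  | cons i l ih =>
    have h1 : dgL (i :: l) s = dg (s i) + dgL l s := by simp [dgL]
    have h2 : od (i :: l) s = (if (s i).1 = (s i).2 then 0 else 1) + od l s := by simp [od]
    rw [h1, h2, pow_add, pow_add, ih, dg_parity]

lemma sgL_cpl (l : List I) (s : I → St) :
    sgL l s (cpl s) = (-1) ^ ((od l s).choose 2 + nf l s) := by
  induction l with
  | nil => simp [sgL, od, nf]
  | cons i l ih =>
    rw [sgL, ih]
    have h1 : od (i :: l) s = (if (s i).1 = (s i).2 then 0 else 1) + od l s := by simp [od]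
    have h2 : nf (i :: l) s = (if s i = sF then 1 else 0) + nf l s := by simp [nf]
    have h3 : (-1 : ℤ) ^ (dgL l s * dg (cpl s i)) =
        (-1) ^ (od l s * (if (s i).1 = (s i).2 then 0 else 1)) := by
      apply neg_pow_congr (dgL_parity l s)
      rw [dg_parity]
      have h0 : ∀ u : St, (-1 : ℤ) ^ (if (!u.1) = (!u.2) then 0 else 1) =
          (-1) ^ (if u.1 = u.2 then 0 else 1) := by
        rintro ⟨a, b⟩
        cases a <;> cases b <;> simp
      exact h0 (s i)
    rw [h3, h1, h2]
    have h4 : sgS (s i) (cpl s i) = (-1) ^ (if s i = sF then 1 else 0) := by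
      have h0 : ∀ u : St, sgS u (!u.1, !u.2) = (-1) ^ (if u = sF then 1 else 0) := by
        rintro ⟨a, b⟩
        cases a <;> cases b <;> simp [sgS]
      exact h0 (s i)
    rw [h4]
    by_cases h5 : (s i).1 = (s i).2
    · rw [if_pos h5]
      rw [zero_add, mul_zero, pow_zero, one_mul, ← pow_add]
      congr 1
      ring
    · rw [if_neg h5]
      rw [mul_one, add_comm 1 (od l s), Nat.choose_succ_succ' (od l s) 1, Nat.choose_one_right,
        ← pow_add, ← pow_add]
      congr 1
      ring

end Signs

end Pool.Agent.K9h28
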