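import Pool.Agent.K9h28.GnDefs

/-!
# Strictly semistable models over rings of integers: definitions
-/

set_option autoImplicit false
set_option linter.checkUnivs false

open CategoryTheory AlgebraicGeometry

universe u v

namespace Pool.Agent.K9h28.Ort

open Pool.Agent.H914 Pool.Agent.H914.VarClass Pool.Agent.H914.VarClass.Obj

section Linear

variable {Z Z' : Type u} [AddCommGroup Z] [Module ℚ Z] [AddCommGroup Z'] [Module ℚ Z']

/-- `f` maps `S` to `S'`. -/
def Maps (f : Z →ₗ[ℚ] Z') (S : Submodule ℚ Z) (S' : Submodule ℚ Z') : Prop := ∀ a ∈ S, f a ∈ S'

/-- The pairing is additive in both variables (hence bilinear over `ℚ`). -/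
def IsBiadditive (p : Z → Z → ℝ) : Prop :=
  ∀ a b c, p (a + b) c = p a c + p b c ∧ p c (a + b) = p c a + p c b

/-- The homomorphisms `f` and `g` between `Z'` and `Z` are adjoint for the pairings of the elements
of `Z₀` with the elements of `V`. -/
def AdjointFor (Z₀ : Submodule ℚ Z') (V : Submodule ℚ Z) (p : Z → Z → ℝ) (p' : Z' → Z' → ℝ)
    (f : Z' →ₗ[ℚ] Z) (g : Z →ₗ[ℚ] Z') : Prop := ∀ z ∈ Z₀, ∀ y ∈ V, p (f z) y = p' z (g y)

end Linear

/-- The cycles on a regular scheme `𝒳`, proper and flat over the ring of integers of a number field,
and on its generic fibre `X`: the Chow groups `Z = Ch^*(𝒳)` and `C = Ch^*(X)` with rational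
coefficients, the restriction `res`, the homologically trivial cycles on `X`, and the pairing of
Gillet and Soulé, which is defined for the cycles which are homologically trivial on `X`
(`pairing` is any biadditive extension of it to all cycles; only its values at these cycles are
used). -/
structure CyclesOn where
  /-- cycles on `𝒳` -/
  Z : Type u
  [grpZ : AddCommGroup Z]
  [modZ : Module ℚ Z]
  /-- cycles on `X` -/
  C : Type u
  [grpC : AddCommGroup C]
  [modC : Module ℚ C]
  /-- cycles of given codimension on `𝒳` -/
  codimZ : ℕ → Submodule ℚ Z
  /-- cycles of given codimension on `X` -/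
  codimC : ℕ → Submodule ℚ C
  /-- restriction to the generic fibre -/
  res : Z →ₗ[ℚ] C
  /-- homologically trivial cycles on `X` -/
  homTriv : Submodule ℚ C
  /-- the arithmetic intersection numbers -/
  pairing : Z → Z → ℝ
  biadditive : IsBiadditive pairing

attribute [instance] CyclesOn.grpZ CyclesOn.modZ CyclesOn.grpC CyclesOn.modC

/-- **The assertion of Beilinson and Bloch for `𝒳` of relative dimension `d` and codimension `i`**:
every homologically trivial cycle `c` of codimension `i` on `X` has an extension `z` of codimension
`i` to `𝒳` which is orthogonal to all vertical cycles of codimension `d + 1 - i`. -/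
def LiftsOrthogonally (M : CyclesOn.{u}) (d i : ℕ) : Prop :=
  ∀ c ∈ M.homTriv, c ∈ M.codimC i → ∃ z ∈ M.codimZ i, M.res z = c ∧
    ∀ g ∈ M.codimZ (d + 1 - i), M.res g = 0 → M.pairing z g = 0

section Fibre

variable {k : Type u} [Field k] {𝒱 : VarClass k} {ops : CycleOps 𝒱}

/-- Direct and inverse images of cycles for the components `Y_s` (the strata of rank `0`) of a fibre
of `𝒳`, where `Z = Ch^*(𝒳)`; the inverse image is a cycle on `Y_s` which represents the inverse image
of the class. -/
structure Images (T : Strata 𝒱) (Z : Type u) [AddCommGroup Z] [Module ℚ Z] where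
  /-- direct images -/
  push : ∀ s, (T.Y s).Cycles →ₗ[ℚ] Z
  /-- inverse images -/
  pull : ∀ s, Z →ₗ[ℚ] (T.Y s).Cycles

variable {T : Strata 𝒱} {Z : Type u} [AddCommGroup Z] [Module ℚ Z] (F : Images T Z)

/-- The direct images of cycles of codimension `j` on the components. -/
def Images.verticals (j : ℕ) : Set Z :=
  {g | ∃ s, T.rk s = 0 ∧ ∃ a, (T.Y s).IsCyc j a ∧ F.push s a = g}

/-- The codimension in `𝒳` of the direct image of a cycle on `Y_s` is its codimension in `Y_s` plus
one, and inverse images preserve the codimension. -/
def PreservesCodim (codimZ : ℕ → Submodule ℚ Z) : Prop :=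
  ∀ s j, T.rk s = 0 → (∀ a, (T.Y s).IsCyc j a → F.push s a ∈ codimZ (j + 1)) ∧
    ∀ z ∈ codimZ j, (T.Y s).IsCyc j (F.pull s z)

variable (W : WeilCohomology.{u, v} ops)

/-- The sum over the strata `u` of rank `1` of the images of the class `x` on `Y_s` under the
restriction to `u` and the Gysin map to `Y_t`. -/
noncomputable def resGys (s t : T.S) (x : W.H (T.Y s)) : W.H (T.Y t) :=
  sumC W fun u => T.gys W u t (T.res W u s x)

/-- The class of the inverse image on the component `Y_t` of the direct image of the cycle `a` on the
component `Y_s`: up to the sign, it is the image of the class of `a` under the restrictions to the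
strata of rank `1` and the Gysin maps to `Y_t` (for `s = t` one uses that the sum of all the
components is a principal divisor near the fibre). -/
def SelfIntersection : Prop := ∀ s t j a, T.rk s = 0 → T.rk t = 0 → (T.Y s).IsCyc j a →
  W.cl _ (F.pull t (F.push s a)) = -resGys W s t (W.cl _ a)

/-- The pairing of a cycle `z` in `Z₀` (a cycle on `𝒳` which is homologically trivial on `X`) with a
vertical cycle of complementary codimension is the intersection number on the component, times the
logarithm `r` of the norm. -/
def PairingFormula (ops : CycleOps 𝒱) (codimZ : ℕ → Submodule ℚ Z) (Z₀ : Submodule ℚ Z)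
    (p : Z → Z → ℝ) (d : ℕ) (r : ℝ) : Prop :=
  ∀ i j, i + j = d → ∀ z ∈ codimZ i, z ∈ Z₀ → ∀ s a, T.rk s = 0 → (T.Y s).IsCyc j a →
    p z (F.push s a) = ((T.Y s).V.degCycle (ops.mul (F.pull s z) a) : ℝ) * r

/-- If the cycle `z` is in `Z₀` (it is homologically trivial on `X`), then the classes of its
restrictions to the components of the fibre are zero in the spectral sequence of the weights. -/
def SpecializationZero (codimZ : ℕ → Submodule ℚ Z) (Z₀ : Submodule ℚ Z) : Prop :=
  ∀ i, ∀ z ∈ codimZ i, z ∈ Z₀ → T.IsCoboundary W fun s => W.cl _ (F.pull s z)

/-- The known properties of a strictly semistable fibre. -/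
structure IsFibre (codimZ : ℕ → Submodule ℚ Z) (Z₀ : Submodule ℚ Z)
    (p : Z → Z → ℝ) (d : ℕ) (r : ℝ) : Prop where
  strata : T.IsSemistable W d
  codim : PreservesCodim F codimZ
  self : SelfIntersection F W
  pairing_push : PairingFormula F ops codimZ Z₀ p d r
  special : SpecializationZero F W codimZ Z₀

/-- The inverse images on the components of the fibre of the vertical cycles `g` over a different
point are zero. -/
def Kills (V : Set Z) : Prop := ∀ t, T.rk t = 0 → ∀ g ∈ V, W.cl _ (F.pull t g) = 0

/-- The Hodge index theorem for divisors (and the ample divisor `D`): the degree of `D ^ n`, where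
`n = dim X`, is positive; and if `n ≥ 2`, then `z · z · D ^ (n - 2) < 0` for every divisor `z` which
is primitive (`D ^ (n - 1) · z = 0`) and whose class is not zero. -/
structure HodgeIndexTheorem (X : 𝒱.Obj) (D : X.Cycles) : Prop where
  pos : 0 < X.V.degCycle (divPow ops D X.dim X.V.fundCycle)
  index : 2 ≤ X.dim → ∀ z, X.IsCyc 1 z → W.cl X (divPow ops D (X.dim - 1) z) = 0 →
    W.cl X z ≠ 0 → X.V.degCycle (ops.mul z (divPow ops D (X.dim - 2) z)) < 0

/-- The Hodge index theorem for divisors on all the strata of a fibre. -/
def IndexOnStrata (T : Strata 𝒱) : Prop := ∀ s, HodgeIndexTheorem W (T.Y s) (T.D s)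

/-- The fibre is smooth. -/
def IsSmooth (T : Strata 𝒱) : Prop := ∀ s, T.rk s = 0

end Fibre

/-- The fibre of `𝒳` over a closed point `v` of the base: the logarithm of the norm of `v`, the
residue field, the strata of the fibre (assumed to be geometrically irreducible), a Weil cohomology
for varieties over the residue field (the `ℓ`-adic cohomology, for one prime `ℓ` which can depend on
`v`), and the direct and inverse images for the components. -/
structure Fibre (Z : Type u) [AddCommGroup Z] [Module ℚ Z] where
  /-- the logarithm of the norm -/
  logN : ℝ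
  /-- the residue field -/
  k : Type u
  [field : Field k]
  /-- the varieties over `k` -/
  𝒱 : VarClass k
  /-- the operations on cycles -/
  ops : CycleOps 𝒱
  /-- the cohomology -/
  W : WeilCohomology.{u, v} ops
  /-- the strata of the fibre -/
  T : Strata 𝒱
  /-- direct and inverse images -/
  F : Images T Z

attribute [instance] Fibre.field

/-- A regular projective scheme `𝒳` over the ring of integers of a number field, all of whose
singular fibres are strictly semistable: its cycles and its fibres over the closed points of the
base. -/
structure Model extends CyclesOn.{u} where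
  /-- closed points of the base -/
  P : Type u
  /-- the points with singular fibre -/
  bad : Finset P
  /-- the fibres -/
  fib : P → Fibre.{u, v} Z

section

variable (M : Model.{u, v})

/-- The cycles which are homologically trivial on `X`. -/
def homTrivZ : Submodule ℚ M.Z := M.homTriv.comap M.res

/-- Vertical cycles over `v`: direct images of cycles of codimension `j` on the components. -/
def vert (v : M.P) (j : ℕ) : Set M.Z := (M.fib v).F.verticals j

/-- Cycles on `X` extend to `𝒳`. -/
def CyclesExtend : Prop := ∀ j, ∀ c ∈ M.codimC j, ∃ z ∈ M.codimZ j, M.res z = c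

/-- A cycle of codimension `j + 1` on `𝒳` which is zero on `X` is a sum of direct images of cycles
of codimension `j` on the components of the fibres. -/
def KernelVertical : Prop :=
  ∀ j, ∀ z ∈ M.codimZ (j + 1), M.res z = 0 → z ∈ Submodule.span ℚ (⋃ v, vert M v j)

/-- The known properties of regular projective models of relative dimension `d` with strictly
semistable singular fibres. -/
structure IsModel (d : ℕ) : Prop where
  surj : CyclesExtend M
  ker : KernelVertical M
  res_vert : ∀ v j, ∀ g ∈ vert M v j, M.res g = 0
  disjoint : ∀ v v' j, v ≠ v' → Kills (M.fib v).F (M.fib v).W (vert M v' j)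
  fibre : ∀ v, IsFibre (M.fib v).F (M.fib v).W M.codimZ (homTrivZ M) M.pairing d (M.fib v).logN
  smooth : ∀ v, v ∉ M.bad → IsSmooth (M.fib v).T

/-- The Hodge index theorem for divisors on all the strata of the singular fibres. -/
def HodgeIndexOnStrata : Prop := ∀ v ∈ M.bad, IndexOnStrata (M.fib v).W (M.fib v).T

end

section

variable (M M' : CyclesOn.{u})

/-- The regular model `𝒳'` (of relative dimension `d'`, with the cycles `M'`) dominates the regular
model `𝒳` (of relative dimension `d`, with the cycles `M`) in the codimensions `i'` and `i`: there are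
homomorphisms `f` from `Ch^*(𝒳')` to `Ch^*(𝒳)` and `g` in the other direction, adjoint for the
pairings with vertical cycles, such that if `z'` extends the image `pb c` in `Ch^*(X')` of the cycle
`c` on `X`, then `f z'` extends a nonzero multiple of `c`; they preserve the vertical and the
homologically trivial cycles, and `pb` maps cycles of codimension `i` to cycles of codimension `i'`.
For example let `X'` be an alteration of `X` (and `i' = i`): then `pb` is the inverse image, and `f`
and `g` are given by direct and inverse images for morphisms from a regular alteration of the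
closure of the graph. If `X'` dominates `X` with fibres of dimension `r = i' - i`, then `pb` is the
inverse image, composed with the product with the `r`-th power of a relatively ample divisor. The
ring of integers can be larger for `𝒳'`. -/
structure IsDominated (d d' i i' : ℕ) (f : M'.Z →ₗ[ℚ] M.Z) (g : M.Z →ₗ[ℚ] M'.Z)
    (pb : M.C →ₗ[ℚ] M'.C) (N : ℚ) : Prop where
  ne : N ≠ 0
  adj : AdjointFor (M'.homTriv.comap M'.res) (LinearMap.ker M.res) M.pairing M'.pairing f g
  ext : ∀ z c, M'.res z = pb c → M.res (f z) = N • c
  vert : Maps g (LinearMap.ker M.res) (LinearMap.ker M'.res)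
  hom : Maps pb M.homTriv M'.homTriv
  pb_mem : Maps pb (M.codimC i) (M'.codimC i')
  f_mem : Maps f (M'.codimZ i') (M.codimZ i)
  g_mem : Maps g (M.codimZ (d + 1 - i)) (M'.codimZ (d' + 1 - i'))

/-- The regular model with the cycles `M'` dominates the regular model with the cycles `M`. -/
def Dominates (d d' i i' : ℕ) : Prop := ∃ f g pb N, IsDominated M M' d d' i i' f g pb N

end

end Pool.Agent.K9h28.Ort
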