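import Pool.Agent.K9h28.MdA
import Pool.Agent.K9h28.GnG
import Pool.Agent.K9h28.OrtDefs

/-!
# Vertical cycles whose restrictions to the components vanish
-/

set_option autoImplicit false
set_option linter.unusedSectionVars false

open CategoryTheory AlgebraicGeometry Finset

universe u v

namespace Pool.Agent.K9h28

open Pool.Agent.H914 Pool.Agent.H914.VarClass Pool.Agent.H914.VarClass.Obj
  Pool.Agent.H914.WeilCohomology Pool.Agent.H281R3.HT Pool.Agent.W552

variable {k : Type u} [Field k] {𝒱 : VarClass k} {ops : CycleOps 𝒱}
  {T : Strata 𝒱} {W : WeilCohomology.{u, v} ops} {n : ℕ}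

namespace Strata

/-- **Orthogonality.** Let `w` be a family of algebraic classes on the components such that the
inverse images on the components of the sum of their direct images are zero. Then `w` is orthogonal to
the coboundaries. -/
theorem orth_of_gys_res (h : T.IsSemi W n) {f : ∀ s, Module.End W.K (W.H (T.Y s))}
    (F : ∀ s, FA W (T.Y s) (T.D s) (f s))
    (hHL : ∀ s, HardLefschetz W (T.Y s) (T.D s)) (hH : ∀ s, HodgeType W (T.Y s) (T.D s))
    {x : ∀ s, W.H (T.Y s)} (hx : T.IsCob W x) {w : ∀ s, W.H (T.Y s)}
    (hw : ∀ s, AS W (T.Y s) (w s)) (hw0 : ∀ s, T.rk s ≠ 0 → w s = 0)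
    (hg : ∀ t, T.rk t = 0 → ∑ u, T.gysL W u t (∑ s, T.resL W u s (w s)) = 0) :
    ∑ s, (if T.rk s = 0 then W.tr (T.Y s) (x s * w s) else 0) = 0 := by
  classical
  -- the classes on the strata of rank one
  set X : ∀ s, W.H (T.Y s) := fun s => ∑ u, T.resL W s u (w u) with hX
  have hXA : ∀ s, AS W (T.Y s) (X s) := fun s =>
    AS.ratSub.sum _ fun u _ => res_AS _ (hw u)
  have hX0 : ∀ s, T.rk s ≠ 1 → X s = 0 := by
    intro s hs
    rw [hX]
    refine Finset.sum_eq_zero fun u _ => ?_
    by_cases h0 : T.sgn s u ≠ 0
    · have h1 := h.rk_eq s u h0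
      rw [hw0 u (by omega), map_zero]
    · rw [res_not h0]
  have hgw : ∀ s, ∑ u, T.gysL W u s (w u) = 0 := by
    intro s
    refine Finset.sum_eq_zero fun u _ => ?_
    by_cases h0 : T.sgn u s ≠ 0
    · have h1 := h.rk_eq u s h0
      rw [hw0 u (by omega), map_zero]
    · rw [gys_not h0]
  obtain ⟨ω, hωA, hω⟩ := alg_mw (T := T) (W := W) h F hHL hH (m := 1)
    (x := fun s c => if c = 0 then X s else 0) (η := fun s c => if c = 0 then w s else 0)
    (fun s c => by
      split_ifs
      · exact hXA s
      · exact AS.zero)
    (fun s c => by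
      split_ifs
      · exact hw s
      · exact AS.zero)
    (fun s c hc => if_neg (by omega))
    (fun s c hc => if_neg (by omega))
    (fun s c hc hne => by
      by_cases h0 : c = 0
      · rw [if_pos h0] at hne
        by_contra h1
        exact hne (hX0 s (by omega))
      · exact absurd (if_neg h0) hne)
    (fun s c hc => by
      by_cases h0 : c = 0
      · subst h0
        rw [if_neg (by omega), zero_add]
        simp only [if_true]
        by_cases h1 : T.rk s = 0
        · exact hg s h1
        · refine Finset.sum_eq_zero fun u _ => ?_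
          by_cases h2 : T.sgn u s ≠ 0
          · have h3 := h.rk_eq u s h2
            rw [hX0 u (by omega), map_zero]
          · rw [gys_not h2]
      · rw [if_pos (by omega)]
        have e1 : ∑ u, T.gysL W u s (if c = 0 then X u else 0) = 0 :=
          Finset.sum_eq_zero fun u _ => by rw [if_neg h0, map_zero]
        rw [e1, add_zero]
        by_cases h1 : c = 1
        · subst h1
          simp only [Nat.sub_self, if_true]
          have e2 : ∀ u, T.resL W s u (X u) = ∑ v, T.resL W s u (T.resL W u v (w v)) := by
            intro u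
            rw [hX]
            exact map_sum _ _ _
          rw [Finset.sum_congr rfl fun u _ => e2 u, Finset.sum_comm]
          exact Finset.sum_eq_zero fun v _ => h.res_res s v (w v)
        · refine Finset.sum_eq_zero fun u _ => ?_
          rw [if_neg (by omega), map_zero])
    (fun s c hc => by
      rcases c with _ | _ | c
      · simp only [if_false, if_true, hgw, add_zero, Nat.le_zero_eq, one_ne_zero]
      · simp only [Nat.sub_self, le_refl, zero_add, if_true, one_ne_zero, if_false, map_zero,
          Finset.sum_const_zero, add_zero]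
        rfl
      · have e1 : c + 1 + 1 ≠ 0 := by omega
        have e2 : c + 1 + 1 - 1 ≠ 0 := by omega
        simp only [e1, e2, if_false, map_zero, Finset.sum_const_zero, add_zero, ite_self])
  -- the closed cochain
  set us : ∀ s, ℕ → W.H (T.Y s) := fun s c => if c ≤ T.rk s then
    (if c = 0 then w s else -ω s (c - 1)) else 0 with hus
  have husA : ∀ s c, AS W (T.Y s) (us s c) := by
    intro s c
    rw [hus]
    dsimp only
    split_ifs
    · exact hw s
    · exact AS.ratSub.neg (hωA s _)
    · exact AS.zero
  let U : Vs T.rk fun s => AQ W (T.Y s) :=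
    ⟨fun s c => ⟨us s c, husA s c⟩, fun s c hc => Subtype.ext (by
      change us s c = 0
      rw [hus]
      exact if_neg (by omega))⟩
  have hU : opd (Rq T W) (Gq T W) U = 0 := by
    apply Vs.ext
    intro s c hc
    apply Subtype.ext
    rw [opd_apply, if_pos hc, AddSubgroup.coe_add, AddSubgroup.val_finsetSum]
    have e0 : ((if 1 ≤ c then ∑ u, Rq T W s u (U.1 u (c - 1)) else 0 : AQ W (T.Y s)) :
        W.H (T.Y s)) = if 1 ≤ c then ∑ u, T.resL W s u (us u (c - 1)) else 0 := by
      by_cases h0 : 1 ≤ c
      · rw [if_pos h0, if_pos h0, AddSubgroup.val_finsetSum]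
        rfl
      · rw [if_neg h0, if_neg h0]
        rfl
    rw [e0]
    change _ + ∑ u, T.gysL W u s (us u c) = 0
    have h1 := hω s
    by_cases h0 : c = 0
    · subst h0
      rw [if_neg (by omega), zero_add]
      rw [← hgw s]
      refine Finset.sum_congr rfl fun u _ => ?_
      rw [hus]
      simp
    · rw [if_pos (by omega)]
      obtain ⟨c, rfl⟩ : ∃ c', c = c' + 1 := ⟨c - 1, by omega⟩
      have h2 := h1 c (by omega)
      have e1 : ∑ u, T.gysL W u s (us u (c + 1)) = -∑ u, T.gysL W u s (ω u c) := by
        rw [← Finset.sum_neg_distrib]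
        refine Finset.sum_congr rfl fun u _ => ?_
        by_cases h3 : T.sgn u s ≠ 0
        · have h4 := h.rk_eq u s h3
          rw [hus]
          dsimp only
          rw [if_pos (by omega), if_neg (by omega), Nat.add_sub_cancel, map_neg]
        · rw [gys_not h3, gys_not h3, neg_zero]
      have e2 : ∑ u, T.resL W s u (us u (c + 1 - 1)) = if c = 0 then X s else
          -∑ u, T.resL W s u (ω u (c - 1)) := by
        rw [Nat.add_sub_cancel]
        by_cases h3 : c = 0
        · subst h3
          rw [if_pos rfl, hX]
          refine Finset.sum_congr rfl fun u _ => ?_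
          rw [hus]
          simp
        · rw [if_neg h3, ← Finset.sum_neg_distrib]
          refine Finset.sum_congr rfl fun u _ => ?_
          by_cases h4 : T.sgn s u ≠ 0
          · have h5 := h.rk_eq s u h4
            rw [hus]
            dsimp only
            rw [if_pos (by omega), if_neg h3, map_neg]
          · rw [res_not h4, res_not h4, neg_zero]
      rw [e1, e2]
      by_cases h3 : c = 0
      · subst h3
        rw [if_pos rfl] at h2 ⊢
        rw [if_neg (by omega), zero_add] at h2
        rw [h2, add_neg_cancel]
      · rw [if_neg h3] at h2 ⊢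
        rw [if_pos (by omega)] at h2
        rw [← neg_add, ← h2, neg_zero]
  have key := orth h hx hU
  refine Eq.trans (Finset.sum_congr rfl fun s _ => ?_) key
  by_cases h0 : T.rk s = 0
  · rw [if_pos h0, if_pos h0]
    congr 2
  · rw [if_neg h0, if_neg h0]

end Strata

end Pool.Agent.K9h28
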