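import Mathlib

/-!
# The complex of the strata in low degrees
-/

set_option autoImplicit false
set_option linter.unusedSectionVars false

open Finset

universe v

namespace Pool.Agent.K9h28.Ort

/-- Representation of a functional. -/
lemma exists_rep {K : Type*} [Field K] {F G V : Type*} [AddCommGroup F] [Module ℚ F]
    [AddCommGroup G] [Module ℚ G] [CharZero K] [AddCommGroup V] [Module K V] [Module.Finite K V]
    (b : F →ₗ[ℚ] G →ₗ[ℚ] ℚ) (α : F → V)
    (hb : ∀ g, ∃ φ : V →ₗ[K] K, ∀ f, φ (α f) = (b f g : K))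
    (l : G →ₗ[ℚ] ℚ) (hl : ∀ g, (∀ f, b f g = 0) → l g = 0) : ∃ f, ∀ g, b f g = l g := by
  classical
  have hfg : (Submodule.span K (Set.range α)).FG := IsNoetherian.noetherian _
  obtain ⟨t, ht, htspan⟩ := Submodule.fg_span_iff_fg_span_finset_subset _ |>.1 hfg
  choose f hf using fun x : t => ht x.2
  have hmem : l ∈ Submodule.span ℚ (Set.range fun x : t => b (f x)) := by
    apply mem_span_of_iInf_ker_le_ker
    intro g hg
    rw [Submodule.mem_iInf] at hg
    rw [LinearMap.mem_ker]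
    apply hl
    intro f'
    obtain ⟨φ, hφ⟩ := hb g
    have h1 : α f' ∈ Submodule.span K (t : Set V) := by
      rw [← htspan]
      exact Submodule.subset_span ⟨f', rfl⟩
    have h2 : Submodule.span K (t : Set V) ≤ LinearMap.ker φ := by
      rw [Submodule.span_le]
      intro x hx
      have h3 := hφ (f ⟨x, hx⟩)
      rw [hf ⟨x, hx⟩] at h3
      have h4 : b (f ⟨x, hx⟩) g = 0 := hg ⟨x, hx⟩
      rw [h4, Rat.cast_zero] at h3
      exact h3
    have h5 := hφ f'
    rw [LinearMap.mem_ker.1 (h2 h1)] at h5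
    exact_mod_cast h5.symm
  rw [Submodule.mem_span_range_iff_exists_fun] at hmem
  obtain ⟨c, hc⟩ := hmem
  refine ⟨∑ x, c x • f x, fun g => ?_⟩
  rw [← hc, map_sum, LinearMap.sum_apply, LinearMap.sum_apply]
  exact Finset.sum_congr rfl fun x _ => by rw [map_smul]

/-- The same for finite-dimensional rational vector spaces. -/
lemma exists_rep' {F G : Type*} [AddCommGroup F] [Module ℚ F] [Module.Finite ℚ F]
    [AddCommGroup G] [Module ℚ G] (b : F →ₗ[ℚ] G →ₗ[ℚ] ℚ)
    (l : G →ₗ[ℚ] ℚ) (hl : ∀ g, (∀ f, b f g = 0) → l g = 0) : ∃ f, ∀ g, b f g = l g :=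
  exists_rep (K := ℚ) b (fun f => f) (fun g => ⟨b.flip g, fun f => by simp⟩) l hl

variable {S : Type} [Fintype S]

/-- The spaces attached to the strata in low degrees. -/
structure Low (rk : S → ℕ) (A : S → Type v) [∀ s, AddCommGroup (A s)] [∀ s, Module ℚ (A s)]
    (L : ∀ s, Module.End ℚ (A s)) (R : ∀ s u, A u →ₗ[ℚ] A s) (G : ∀ s u, A s →ₗ[ℚ] A u)
    (q : ∀ s, A s →ₗ[ℚ] A s →ₗ[ℚ] ℚ) (o : ∀ s, A s) (ε : S → S → ℚ)
    (C : ∀ s, Submodule ℚ (A s)) (n : ℕ) : Prop where
  R_rk : ∀ s u, rk s ≠ rk u + 1 → ∀ x, R s u x = 0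
  G_rk : ∀ s u, rk s ≠ rk u + 1 → ∀ x, G s u x = 0
  R_L : ∀ s u x, L s (R s u x) = R s u (L u x)
  symm : ∀ s x y, q s x y = q s y x
  q_L : ∀ s x y, q s (L s x) y = q s x (L s y)
  adj : ∀ s u x y, q u (G s u x) y = q s x (R s u y)
  R_R : ∀ s v x, ∑ u, R s u (R u v x) = 0
  G_G : ∀ s v x, ∑ u, G u v (G s u x) = 0
  R_G : ∀ s s', 1 ≤ rk s → rk s = rk s' → ∀ x,
    ∑ v, R s v (G s' v x) + ∑ u, G u s (R u s' x) = 0
  R_o : ∀ s u, R s u (o u) = ε s u • o s
  R_C : ∀ s u, ∀ x ∈ C u, R s u x ∈ C s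
  G_C : ∀ s u, G s u (o s) ∈ C u
  pos : ∀ s, 1 ≤ rk s → rk s ≤ 2 → 0 < q s ((L s ^ (n - rk s)) (o s)) (o s)
  hodge : ∀ s, rk s ≤ 1 → ∀ x ∈ C s, q s ((L s ^ (n - rk s - 1)) x) (o s) = 0 → x ≠ 0 →
    q s ((L s ^ (n - rk s - 2)) x) x < 0

namespace Low

variable {rk : S → ℕ} {A : S → Type v} [∀ s, AddCommGroup (A s)] [∀ s, Module ℚ (A s)]
    {L : ∀ s, Module.End ℚ (A s)} {R : ∀ s u, A u →ₗ[ℚ] A s} {G : ∀ s u, A s →ₗ[ℚ] A u}
    {q : ∀ s, A s →ₗ[ℚ] A s →ₗ[ℚ] ℚ} {o : ∀ s, A s} {ε : S → S → ℚ}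
    {C : ∀ s, Submodule ℚ (A s)} {n : ℕ} (t : Low rk A L R G q o ε C n)

/-- Functions on the strata of rank `r`. -/
def Fn (rk : S → ℕ) (r : ℕ) : Submodule ℚ (S → ℚ) where
  carrier := {f | ∀ s, rk s ≠ r → f s = 0}
  zero_mem' := fun _ _ => rfl
  add_mem' := fun hf hg s h => by rw [Pi.add_apply, hf s h, hg s h, add_zero]
  smul_mem' := fun c _ hf s h => by rw [Pi.smul_apply, hf s h, smul_zero]

/-- The restriction of the classes `f s • o s`. -/
def cob (R : ∀ s u, A u →ₗ[ℚ] A s) (o : ∀ s, A s) (f : S → ℚ) (s : S) : A s :=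
  ∑ u, R s u (f u • o u)

/-- The coboundary of functions. -/
def dF (ε : S → S → ℚ) : (S → ℚ) →ₗ[ℚ] (S → ℚ) where
  toFun f s := ∑ u, ε s u * f u
  map_add' f g := by
    funext s
    simp only [Pi.add_apply, mul_add, Finset.sum_add_distrib]
  map_smul' c f := by
    funext s
    simp only [Pi.smul_apply, smul_eq_mul, RingHom.id_apply, Finset.mul_sum]
    exact Finset.sum_congr rfl fun u _ => by ring

lemma dF_apply (f : S → ℚ) (s : S) : dF ε f s = ∑ u, ε s u * f u := rfl

include t

lemma cob_eq (f : S → ℚ) (s : S) : cob R o f s = dF ε f s • o s := by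
  rw [cob, dF_apply, Finset.sum_smul]
  refine Finset.sum_congr rfl fun u _ => ?_
  rw [map_smul, t.R_o, smul_smul, mul_comm]

lemma q_L_pow (s : S) (m : ℕ) (x y : A s) : q s ((L s ^ m) x) y = q s x ((L s ^ m) y) := by
  induction m generalizing x y with
  | zero => rfl
  | succ m ih =>
    have h1 : (L s ^ (m + 1)) x = (L s ^ m) (L s x) := by rw [pow_succ, Module.End.mul_apply]
    have h2 : (L s ^ (m + 1)) y = L s ((L s ^ m) y) := by rw [pow_succ', Module.End.mul_apply]
    rw [h1, h2, ih, t.q_L]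

lemma R_L_pow (s u : S) (m : ℕ) (x : A u) : (L s ^ m) (R s u x) = R s u ((L u ^ m) x) := by
  induction m with
  | zero => rfl
  | succ m ih => rw [pow_succ', Module.End.mul_apply, ih, t.R_L, pow_succ', Module.End.mul_apply]

lemma o_ne {s : S} (h1 : 1 ≤ rk s) (h2 : rk s ≤ 2) : o s ≠ 0 := by
  intro h0
  have := t.pos s h1 h2
  rw [h0, map_zero] at this
  exact lt_irrefl _ this

/-- The restriction of a function on the strata of rank `r` has rank `r + 1`. -/
lemma cob_supp {r : ℕ} {f : S → ℚ} (hf : f ∈ Fn rk r) {s : S} (hs : rk s ≠ r + 1) :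
    cob R o f s = 0 := by
  refine Finset.sum_eq_zero fun u _ => ?_
  by_cases h : rk u = r
  · exact t.R_rk s u (by omega) _
  · rw [hf u h, zero_smul, map_zero]

lemma cob_cob (f : S → ℚ) (s : S) : ∑ u, R s u (cob R o f u) = 0 := by
  have h1 : ∀ u, R s u (cob R o f u) = ∑ v, R s u (R u v (f v • o v)) := fun u => map_sum _ _ _
  rw [Finset.sum_congr rfl fun u _ => h1 u, Finset.sum_comm]
  exact Finset.sum_eq_zero fun v _ => t.R_R s v _

/-- Moving the restriction to the other side. -/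
lemma sum_R (m : ℕ) (X w : ∀ s, A s) :
    ∑ s, q s ((L s ^ m) (X s)) (∑ u, R s u (w u)) =
      ∑ u, q u (∑ s, G s u (X s)) ((L u ^ m) (w u)) := by
  have h1 : ∀ s, q s ((L s ^ m) (X s)) (∑ u, R s u (w u)) =
      ∑ u, q u (G s u (X s)) ((L u ^ m) (w u)) := by
    intro s
    rw [map_sum]
    refine Finset.sum_congr rfl fun u _ => ?_
    rw [t.q_L_pow, t.R_L_pow, t.adj]
  rw [Finset.sum_congr rfl fun s _ => h1 s, Finset.sum_comm]
  refine Finset.sum_congr rfl fun u _ => ?_
  rw [map_sum, LinearMap.sum_apply]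

/-- Moving the Gysin map to the other side. -/
lemma sum_G (m : ℕ) (X w : ∀ s, A s) :
    ∑ s, q s ((L s ^ m) (X s)) (∑ u, G u s (w u)) =
      ∑ u, q u (∑ s, R u s (X s)) ((L u ^ m) (w u)) := by
  have h1 : ∀ s, q s ((L s ^ m) (X s)) (∑ u, G u s (w u)) =
      ∑ u, q u (R u s (X s)) ((L u ^ m) (w u)) := by
    intro s
    rw [map_sum]
    refine Finset.sum_congr rfl fun u _ => ?_
    rw [t.symm, t.adj, t.symm, ← t.R_L_pow, t.q_L_pow]
  rw [Finset.sum_congr rfl fun s _ => h1 s, Finset.sum_comm]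
  refine Finset.sum_congr rfl fun u _ => ?_
  rw [map_sum, LinearMap.sum_apply]

/-- **Harmonic representatives in rank one.** -/
lemma lemmaA {φ : S → ℚ} (hφ : φ ∈ Fn rk 1) (hd : ∀ s, cob R o φ s = 0) :
    ∃ β ∈ Fn rk 0, ∀ s, ∑ u, G u s (φ u • o u - cob R o β u) = 0 := by
  classical
  set μ : S → ℚ := fun s => q s ((L s ^ (n - rk s)) (o s)) (o s) with hμ
  -- the form
  let b : Fn rk 0 →ₗ[ℚ] Fn rk 0 →ₗ[ℚ] ℚ := LinearMap.mk₂ ℚ
    (fun β β' => ∑ s, if rk s = 1 then μ s * dF ε β.1 s * dF ε β'.1 s else 0)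
    (fun β β' γ => by
      rw [← Finset.sum_add_distrib]
      refine Finset.sum_congr rfl fun s _ => ?_
      rw [Submodule.coe_add, map_add, Pi.add_apply]
      split_ifs <;> ring)
    (fun c β γ => by
      rw [smul_eq_mul, Finset.mul_sum]
      refine Finset.sum_congr rfl fun s _ => ?_
      rw [Submodule.coe_smul, map_smul, Pi.smul_apply, smul_eq_mul]
      split_ifs <;> ring)
    (fun β γ γ' => by
      rw [← Finset.sum_add_distrib]
      refine Finset.sum_congr rfl fun s _ => ?_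
      rw [Submodule.coe_add, map_add, Pi.add_apply]
      split_ifs <;> ring)
    (fun c β γ => by
      rw [smul_eq_mul, Finset.mul_sum]
      refine Finset.sum_congr rfl fun s _ => ?_
      rw [Submodule.coe_smul, map_smul, Pi.smul_apply, smul_eq_mul]
      split_ifs <;> ring)
  let l : Fn rk 0 →ₗ[ℚ] ℚ :=
    { toFun := fun β => ∑ s, if rk s = 1 then μ s * φ s * dF ε β.1 s else 0
      map_add' := fun γ γ' => by
        rw [← Finset.sum_add_distrib]
        refine Finset.sum_congr rfl fun s _ => ?_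
        rw [Submodule.coe_add, map_add, Pi.add_apply]
        split_ifs <;> ring
      map_smul' := fun c γ => by
        rw [RingHom.id_apply, smul_eq_mul, Finset.mul_sum]
        refine Finset.sum_congr rfl fun s _ => ?_
        rw [Submodule.coe_smul, map_smul, Pi.smul_apply, smul_eq_mul]
        split_ifs <;> ring }
  have hba : ∀ β β', b β β' = ∑ s, if rk s = 1 then μ s * dF ε β.1 s * dF ε β'.1 s else 0 :=
    fun β β' => rfl
  obtain ⟨β, hβ⟩ := exists_rep' b l (fun γ hγ => by
    have h1 := hγ γ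
    rw [hba] at h1
    have h2 : ∀ s, rk s = 1 → dF ε γ.1 s = 0 := by
      intro s hs
      have h3 := (Finset.sum_eq_zero_iff_of_nonneg (fun s _ => by
        split_ifs with h
        · have := t.pos s (by omega) (by omega)
          rw [mul_assoc]
          exact mul_nonneg this.le (mul_self_nonneg _)
        · exact le_rfl)).1 h1 s (Finset.mem_univ s)
      rw [if_pos hs, mul_assoc] at h3
      have := t.pos s (by omega) (by omega)
      rcases mul_eq_zero.1 h3 with h4 | h4
      · exact absurd h4 this.ne'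
      · exact mul_self_eq_zero.1 h4
    change (∑ s, if rk s = 1 then μ s * φ s * dF ε γ.1 s else 0) = 0
    refine Finset.sum_eq_zero fun s _ => ?_
    split_ifs with h
    · rw [h2 s h, mul_zero]
    · rfl)
  refine ⟨β.1, β.2, ?_⟩
  -- the classes of degree one
  set φ' : ∀ u, A u := fun u => φ u • o u - cob R o β.1 u with hφ'
  set D : ∀ s, A s := fun s => ∑ u, G u s (φ' u) with hDef
  have hφ'o : ∀ u, φ' u = (φ u - dF ε β.1 u) • o u := by
    intro u
    rw [hφ']
    dsimp only
    rw [t.cob_eq, sub_smul]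
  have hφ'1 : ∀ u, rk u ≠ 1 → φ' u = 0 := by
    intro u hu
    rw [hφ']
    dsimp only
    rw [hφ u hu, zero_smul, t.cob_supp β.2 hu, sub_zero]
  have hDC : ∀ s, D s ∈ C s := by
    intro s
    refine Submodule.sum_mem _ fun u _ => ?_
    rw [hφ'o, map_smul]
    exact Submodule.smul_mem _ _ (t.G_C u s)
  have hDz : ∀ s, rk s ≠ 0 → D s = 0 := by
    intro s hs
    refine Finset.sum_eq_zero fun u _ => ?_
    by_cases h : rk u = 1
    · exact t.G_rk u s (by omega) _
    · rw [hφ'1 u h, map_zero]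
  have hRD : ∀ s, 1 ≤ rk s → ∑ v, R s v (D v) = 0 := by
    intro s hs
    have h1 : ∀ v, R s v (D v) = ∑ u, R s v (G u v (φ' u)) := fun v => map_sum _ _ _
    rw [Finset.sum_congr rfl fun v _ => h1 v, Finset.sum_comm]
    by_cases hs1 : rk s = 1
    · have h2 : ∀ u, ∑ v, R s v (G u v (φ' u)) = -∑ c, G c s (R c u (φ' u)) := by
        intro u
        by_cases hu : rk u = 1
        · exact eq_neg_of_add_eq_zero_left (t.R_G s u hs (by omega) _)
        · rw [hφ'1 u hu]
          simp
      rw [Finset.sum_congr rfl fun u _ => h2 u, Finset.sum_neg_distrib, neg_eq_zero,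
        Finset.sum_comm]
      refine Finset.sum_eq_zero fun c _ => ?_
      rw [← map_sum]
      have h3 : ∑ u, R c u (φ' u) = 0 := by
        have h4 : ∀ u, R c u (φ' u) = R c u (φ u • o u) - R c u (cob R o β.1 u) :=
          fun u => map_sub _ _ _
        rw [Finset.sum_congr rfl fun u _ => h4 u, Finset.sum_sub_distrib, t.cob_cob, sub_zero]
        exact hd c
      rw [h3, map_zero]
    · refine Finset.sum_eq_zero fun u _ => Finset.sum_eq_zero fun v _ => ?_
      by_cases hv : rk v = 0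
      · exact t.R_rk s v (by omega) _
      · by_cases hu : rk u = 1
        · rw [t.G_rk u v (by omega), map_zero]
        · rw [hφ'1 u hu, map_zero, map_zero]
  -- primitive
  have hprim : ∀ s, rk s = 0 → q s ((L s ^ (n - rk s - 1)) (D s)) (o s) = 0 := by
    intro s hs
    have h1 := hβ ⟨Pi.single s 1, fun u hu => by
      rw [Pi.single_eq_of_ne]
      rintro rfl
      exact hu hs⟩
    rw [hba] at h1
    change _ = ∑ u, (if rk u = 1 then μ u * φ u * dF ε (Pi.single s 1) u else 0) at h1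
    have h2 : ∀ u, dF ε (Pi.single s 1 : S → ℚ) u = ε u s := by
      intro u
      rw [dF_apply, Finset.sum_eq_single s]
      · rw [Pi.single_eq_same, mul_one]
      · intro v _ hv
        rw [Pi.single_eq_of_ne hv, mul_zero]
      · intro h
        exact absurd (Finset.mem_univ s) h
    rw [t.q_L_pow, map_sum, LinearMap.sum_apply]
    have h3 : ∀ u, q s (G u s (φ' u)) ((L s ^ (n - rk s - 1)) (o s)) =
        (if rk u = 1 then μ u * φ u * ε u s else 0) -
          if rk u = 1 then μ u * dF ε β.1 u * ε u s else 0 := by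
      intro u
      by_cases hu : rk u = 1
      · rw [if_pos hu, if_pos hu, t.adj, ← t.R_L_pow, t.R_o, hφ'o, map_smul,
          LinearMap.smul_apply, map_smul, map_smul, smul_eq_mul, smul_eq_mul, hs, hμ]
        dsimp only
        rw [hu, Nat.sub_zero, ← t.q_L_pow]
        ring
      · rw [if_neg hu, if_neg hu, hφ'1 u hu]
        simp
    rw [Finset.sum_congr rfl fun u _ => h3 u, Finset.sum_sub_distrib]
    simp only [h2] at h1
    rw [← h1, sub_self]
  -- the sum of the squares
  have hsum : ∑ s, q s ((L s ^ (n - 2)) (D s)) (D s) = 0 := by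
    have h1 := t.sum_G (n - 2) D φ'
    rw [hDef] at h1 ⊢
    rw [h1]
    refine Finset.sum_eq_zero fun u _ => ?_
    by_cases hu : rk u = 1
    · have := hRD u (by omega)
      rw [hDef] at this
      rw [this, map_zero, LinearMap.zero_apply]
    · rw [hφ'1 u hu, map_zero, map_zero]
  have hneg : ∀ s, q s ((L s ^ (n - 2)) (D s)) (D s) ≤ 0 := by
    intro s
    by_cases hs : rk s = 0
    · by_cases h0 : D s = 0
      · rw [h0, map_zero]
      · have := t.hodge s (by omega) (D s) (hDC s) (hprim s hs) h0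
        rw [hs, Nat.sub_zero] at this
        exact this.le
    · rw [hDz s hs, map_zero]
  intro s
  change D s = 0
  by_contra h0
  by_cases hs : rk s = 0
  · have h1 := t.hodge s (by omega) (D s) (hDC s) (hprim s hs) h0
    rw [hs, Nat.sub_zero] at h1
    have h2 := Finset.sum_lt_sum (fun s _ => hneg s) ⟨s, Finset.mem_univ s, h1⟩
    rw [hsum, Finset.sum_const_zero] at h2
    exact lt_irrefl _ h2
  · exact h0 (hDz s hs)

/-- **The image of the Laplace operator in rank one.** -/
lemma lemmaB {δ : S → ℚ} (hδ : ∀ φ ∈ Fn rk 1, (∀ s, cob R o φ s = 0) →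
    ∑ s, (if rk s = 1 then φ s * δ s else 0) = 0) :
    ∃ ψ ∈ Fn rk 1, ∀ s, rk s = 1 → ∑ c, (if rk c = 2 then
      q c ((L c ^ (n - 2)) (o c)) (o c) * dF ε ψ c * ε c s else 0) = δ s := by
  classical
  set μ : S → ℚ := fun c => q c ((L c ^ (n - 2)) (o c)) (o c) with hμ
  have hμ0 : ∀ c, rk c = 2 → 0 < μ c := by
    intro c hc
    have := t.pos c (by omega) (by omega)
    rwa [hc] at this
  let b : Fn rk 1 →ₗ[ℚ] Fn rk 1 →ₗ[ℚ] ℚ := LinearMap.mk₂ ℚ
    (fun β β' => ∑ s, if rk s = 2 then μ s * dF ε β.1 s * dF ε β'.1 s else 0)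
    (fun β β' γ => by
      rw [← Finset.sum_add_distrib]
      refine Finset.sum_congr rfl fun s _ => ?_
      rw [Submodule.coe_add, map_add, Pi.add_apply]
      split_ifs <;> ring)
    (fun c β γ => by
      rw [smul_eq_mul, Finset.mul_sum]
      refine Finset.sum_congr rfl fun s _ => ?_
      rw [Submodule.coe_smul, map_smul, Pi.smul_apply, smul_eq_mul]
      split_ifs <;> ring)
    (fun β γ γ' => by
      rw [← Finset.sum_add_distrib]
      refine Finset.sum_congr rfl fun s _ => ?_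
      rw [Submodule.coe_add, map_add, Pi.add_apply]
      split_ifs <;> ring)
    (fun c β γ => by
      rw [smul_eq_mul, Finset.mul_sum]
      refine Finset.sum_congr rfl fun s _ => ?_
      rw [Submodule.coe_smul, map_smul, Pi.smul_apply, smul_eq_mul]
      split_ifs <;> ring)
  let l : Fn rk 1 →ₗ[ℚ] ℚ :=
    { toFun := fun φ => ∑ s, if rk s = 1 then φ.1 s * δ s else 0
      map_add' := fun γ γ' => by
        rw [← Finset.sum_add_distrib]
        refine Finset.sum_congr rfl fun s _ => ?_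
        rw [Submodule.coe_add, Pi.add_apply]
        split_ifs <;> ring
      map_smul' := fun c γ => by
        rw [RingHom.id_apply, smul_eq_mul, Finset.mul_sum]
        refine Finset.sum_congr rfl fun s _ => ?_
        rw [Submodule.coe_smul, Pi.smul_apply, smul_eq_mul]
        split_ifs <;> ring }
  have hba : ∀ β β', b β β' = ∑ s, if rk s = 2 then μ s * dF ε β.1 s * dF ε β'.1 s else 0 :=
    fun β β' => rfl
  obtain ⟨ψ, hψ⟩ := exists_rep' b l (fun γ hγ => by
    have h1 := hγ γ
    rw [hba] at h1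
    have h2 : ∀ s, rk s = 2 → dF ε γ.1 s = 0 := by
      intro s hs
      have h3 := (Finset.sum_eq_zero_iff_of_nonneg (fun s _ => by
        split_ifs with h
        · rw [mul_assoc]
          exact mul_nonneg (hμ0 s h).le (mul_self_nonneg _)
        · exact le_rfl)).1 h1 s (Finset.mem_univ s)
      rw [if_pos hs, mul_assoc] at h3
      rcases mul_eq_zero.1 h3 with h4 | h4
      · exact absurd h4 (hμ0 s hs).ne'
      · exact mul_self_eq_zero.1 h4
    refine hδ γ.1 γ.2 fun s => ?_
    by_cases hs : rk s = 2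
    · rw [t.cob_eq, h2 s hs, zero_smul]
    · exact t.cob_supp γ.2 hs)
  refine ⟨ψ.1, ψ.2, fun s hs => ?_⟩
  have h1 := hψ ⟨Pi.single s 1, fun u hu => by
    rw [Pi.single_eq_of_ne]
    rintro rfl
    exact hu hs⟩
  rw [hba] at h1
  change _ = ∑ u, (if rk u = 1 then (Pi.single s 1 : S → ℚ) u * δ u else 0) at h1
  have h2 : ∀ u, dF ε (Pi.single s 1 : S → ℚ) u = ε u s := by
    intro u
    rw [dF_apply, Finset.sum_eq_single s]
    · rw [Pi.single_eq_same, mul_one]
    · intro v _ hv
      rw [Pi.single_eq_of_ne hv, mul_zero]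
    · intro h
      exact absurd (Finset.mem_univ s) h
  simp only [h2] at h1
  rw [h1, Finset.sum_eq_single s, if_pos hs, Pi.single_eq_same, one_mul]
  · intro u _ hu
    rw [Pi.single_eq_of_ne hu, zero_mul, ite_self]
  · intro h
    exact absurd (Finset.mem_univ s) h

lemma q_swap (s : S) (m : ℕ) (x y : A s) : q s ((L s ^ m) x) y = q s ((L s ^ m) y) x := by
  rw [t.q_L_pow, t.symm]

/-- **The obstruction comes from the strata of rank two.** -/
theorem main (hn : 3 ≤ n) {w : ∀ s, A s} (hw : ∀ s, w s ∈ C s) (hw0 : ∀ s, rk s ≠ 0 → w s = 0)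
    (h1 : ∀ s, rk s = 0 →
      q s (∑ u, G u s (∑ v, R u v (w v))) ((L s ^ (n - 2)) (o s)) = 0)
    (h2 : ∀ s, rk s = 0 →
      q s (∑ u, G u s (∑ v, R u v (w v))) ((L s ^ (n - 3)) (w s)) = 0) :
    ∃ ψ ∈ Fn rk 1, ∀ s, ∑ v, R s v (w v) = ∑ c, G c s (cob R o ψ c) := by
  classical
  set X : ∀ s, A s := fun s => ∑ v, R s v (w v) with hX
  have hXC : ∀ s, X s ∈ C s := fun s => Submodule.sum_mem _ fun v _ => t.R_C s v _ (hw v)
  have hX0 : ∀ s, rk s ≠ 1 → X s = 0 := by
    intro s hs
    refine Finset.sum_eq_zero fun v _ => ?_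
    by_cases hv : rk v = 0
    · exact t.R_rk s v (by omega) _
    · rw [hw0 v hv, map_zero]
  have hRX : ∀ c, ∑ s, R c s (X s) = 0 := by
    intro c
    have e1 : ∀ s, R c s (X s) = ∑ v, R c s (R s v (w v)) := fun s => map_sum _ _ _
    rw [Finset.sum_congr rfl fun s _ => e1 s, Finset.sum_comm]
    exact Finset.sum_eq_zero fun v _ => t.R_R c v _
  obtain ⟨ψ, hψ, hψδ⟩ := t.lemmaB (δ := fun s => q s ((L s ^ (n - 2)) (X s)) (o s)) (by
    intro φ hφ hd
    obtain ⟨β, hβ, hβG⟩ := t.lemmaA hφ hd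
    have e1 : ∀ s, (if rk s = 1 then φ s * q s ((L s ^ (n - 2)) (X s)) (o s) else 0) =
        q s ((L s ^ (n - 2)) (φ s • o s - cob R o β s)) (∑ u, R s u (w u)) +
          q s ((L s ^ (n - 2)) (X s)) (∑ u, R s u (β u • o u)) := by
      intro s
      change _ = q s ((L s ^ (n - 2)) (φ s • o s - cob R o β s)) (X s) +
        q s ((L s ^ (n - 2)) (X s)) (cob R o β s)
      rw [t.q_swap s (n - 2) (φ s • o s - cob R o β s) (X s), ← map_add, sub_add_cancel,
        map_smul, smul_eq_mul]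
      by_cases hs : rk s = 1
      · rw [if_pos hs]
      · rw [if_neg hs, hX0 s hs]
        simp
    rw [Finset.sum_congr rfl fun s _ => e1 s, Finset.sum_add_distrib,
      t.sum_R (n - 2) (fun s => φ s • o s - cob R o β s) w,
      t.sum_R (n - 2) X (fun u => β u • o u)]
    rw [Finset.sum_eq_zero, Finset.sum_eq_zero, add_zero]
    · intro u _
      by_cases hu : rk u = 0
      · rw [map_smul, map_smul, smul_eq_mul]
        have := h1 u hu
        rw [this, mul_zero]
      · rw [hβ u hu, zero_smul, map_zero, map_zero]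
    · intro u _
      rw [hβG u, map_zero, LinearMap.zero_apply])
  refine ⟨ψ, hψ, ?_⟩
  set Y : ∀ s, A s := fun s => ∑ c, G c s (cob R o ψ c) with hY
  have hYC : ∀ s, Y s ∈ C s := by
    intro s
    refine Submodule.sum_mem _ fun c _ => ?_
    rw [t.cob_eq, map_smul]
    exact Submodule.smul_mem _ _ (t.G_C c s)
  have hY0 : ∀ s, rk s ≠ 1 → Y s = 0 := by
    intro s hs
    refine Finset.sum_eq_zero fun c _ => ?_
    by_cases hc : rk c = 2
    · exact t.G_rk c s (by omega) _
    · rw [t.cob_supp hψ hc, map_zero]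
  have hGY : ∀ u, ∑ s, G s u (Y s) = 0 := by
    intro u
    have e1 : ∀ s, G s u (Y s) = ∑ c, G s u (G c s (cob R o ψ c)) := fun s => map_sum _ _ _
    rw [Finset.sum_congr rfl fun s _ => e1 s, Finset.sum_comm]
    exact Finset.sum_eq_zero fun v _ => t.G_G v u _
  have hRY : ∀ c, rk c = 2 → ∑ s, R c s (Y s) = 0 := by
    intro c hc
    have e1 : ∀ s, R c s (Y s) = ∑ c', R c s (G c' s (cob R o ψ c')) := fun s => map_sum _ _ _
    rw [Finset.sum_congr rfl fun s _ => e1 s, Finset.sum_comm]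
    have e2 : ∀ c', ∑ s, R c s (G c' s (cob R o ψ c')) =
        -∑ p, G p c (R p c' (cob R o ψ c')) := by
      intro c'
      by_cases hc' : rk c' = 2
      · exact eq_neg_of_add_eq_zero_left (t.R_G c c' (by omega) (by omega) _)
      · rw [t.cob_supp hψ hc']
        simp
    rw [Finset.sum_congr rfl fun c' _ => e2 c', Finset.sum_neg_distrib, neg_eq_zero,
      Finset.sum_comm]
    refine Finset.sum_eq_zero fun p _ => ?_
    rw [← map_sum, t.cob_cob, map_zero]
  have hprim : ∀ s, rk s = 1 → q s ((L s ^ (n - rk s - 1)) (X s - Y s)) (o s) = 0 := by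
    intro s hs
    rw [hs, show n - 1 - 1 = n - 2 by omega, map_sub, map_sub, LinearMap.sub_apply,
      ← hψδ s hs, sub_eq_zero, t.q_L_pow, map_sum, LinearMap.sum_apply]
    refine Finset.sum_congr rfl fun c _ => ?_
    by_cases hc : rk c = 2
    · rw [if_pos hc, t.adj, ← t.R_L_pow, t.R_o, t.cob_eq, map_smul, LinearMap.smul_apply,
        map_smul, map_smul, smul_eq_mul, smul_eq_mul, ← t.q_L_pow]
      ring
    · rw [if_neg hc, t.cob_supp hψ hc, map_zero, map_zero, LinearMap.zero_apply]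
  have hsum : ∑ s, q s ((L s ^ (n - 3)) (X s - Y s)) (X s - Y s) = 0 := by
    have e1 : ∀ s, q s ((L s ^ (n - 3)) (X s - Y s)) (X s - Y s) =
        q s ((L s ^ (n - 3)) (X s - Y s)) (∑ u, R s u (w u)) -
          q s ((L s ^ (n - 3)) (X s - Y s)) (∑ c, G c s (cob R o ψ c)) :=
      fun s => map_sub _ _ _
    rw [Finset.sum_congr rfl fun s _ => e1 s, Finset.sum_sub_distrib,
      t.sum_R (n - 3) (fun s => X s - Y s) w, t.sum_G (n - 3) (fun s => X s - Y s) (cob R o ψ),
      Finset.sum_eq_zero, Finset.sum_eq_zero, sub_zero]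
    · intro c _
      by_cases hc : rk c = 2
      · have e2 : ∑ s, R c s (X s - Y s) = 0 := by
          simp only [map_sub, Finset.sum_sub_distrib]
          rw [hRX, hRY c hc, sub_zero]
        rw [e2, map_zero, LinearMap.zero_apply]
      · rw [t.cob_supp hψ hc, map_zero, map_zero]
    · intro u _
      by_cases hu : rk u = 0
      · have e2 : ∑ s, G s u (X s - Y s) = ∑ s, G s u (X s) := by
          simp only [map_sub, Finset.sum_sub_distrib]
          rw [hGY, sub_zero]
        rw [e2]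
        exact h2 u hu
      · rw [hw0 u hu, map_zero, map_zero]
  have hneg : ∀ s, q s ((L s ^ (n - 3)) (X s - Y s)) (X s - Y s) ≤ 0 := by
    intro s
    by_cases hs : rk s = 1
    · by_cases h0 : X s - Y s = 0
      · rw [h0, map_zero]
      · have := t.hodge s (by omega) _ (Submodule.sub_mem _ (hXC s) (hYC s)) (hprim s hs) h0
        rw [hs, show n - 1 - 2 = n - 3 by omega] at this
        exact this.le
    · rw [hX0 s hs, hY0 s hs, sub_zero, map_zero]
  intro s
  change X s = Y s
  rw [← sub_eq_zero]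
  by_contra h0
  by_cases hs : rk s = 1
  · have h3 := t.hodge s (by omega) _ (Submodule.sub_mem _ (hXC s) (hYC s)) (hprim s hs) h0
    rw [hs, show n - 1 - 2 = n - 3 by omega] at h3
    have h4 := Finset.sum_lt_sum (fun s _ => hneg s) ⟨s, Finset.mem_univ s, h3⟩
    rw [hsum, Finset.sum_const_zero] at h4
    exact lt_irrefl _ h4
  · exact h0 (by rw [hX0 s hs, hY0 s hs, sub_zero])

end Low

end Pool.Agent.K9h28.Ort
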