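import Pool.Agent.K9h28.OrtA
import Pool.Agent.K9h28.OrtLin

/-!
# Correction by vertical cycles
-/

set_option autoImplicit false
set_option linter.unusedSectionVars false

open CategoryTheory AlgebraicGeometry Finset

universe u v

namespace Pool.Agent.K9h28.Ort

open Pool.Agent.H914 Pool.Agent.H914.VarClass Pool.Agent.H914.VarClass.Obj
  Pool.Agent.H914.WeilCohomology Pool.Agent.H281R3.HT Pool.Agent.W552

variable {k : Type u} [Field k] {𝒱 : VarClass k} {ops : CycleOps 𝒱}
  {T : Strata 𝒱} {W : WeilCohomology.{u, v} ops} {d : ℕ}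

/-- Families of cycles of codimension `p` on the components. -/
def fam (T : Strata 𝒱) (p : ℕ) : Submodule ℚ (∀ s, (T.Y s).Cycles) where
  carrier := {f | ∀ s, (T.Y s).IsCyc p (f s) ∧ (T.rk s ≠ 0 → f s = 0)}
  zero_mem' := fun s => ⟨SmVar.IsCyc.zero _ _, fun _ => rfl⟩
  add_mem' := fun hf hg s => ⟨(hf s).1.add (hg s).1, fun h => by
    rw [Pi.add_apply, (hf s).2 h, (hg s).2 h, add_zero]⟩
  smul_mem' := fun q _ hf s => ⟨(hf s).1.smul q, fun h => by
    rw [Pi.smul_apply, (hf s).2 h, smul_zero]⟩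

/-- The family concentrated at one component. -/
noncomputable def one (T : Strata 𝒱) {s : T.S} (hs : T.rk s = 0) {p : ℕ} {a : (T.Y s).Cycles}
    (ha : (T.Y s).IsCyc p a) : fam T p := by
  classical
  exact ⟨Pi.single s a, fun t => by
    by_cases h : t = s
    · subst h
      rw [Pi.single_eq_same]
      exact ⟨ha, fun h0 => absurd hs h0⟩
    · rw [Pi.single_eq_of_ne h]
      exact ⟨SmVar.IsCyc.zero _ _, fun _ => rfl⟩⟩

lemma one_same {s : T.S} (hs : T.rk s = 0) {p : ℕ} {a : (T.Y s).Cycles}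
    (ha : (T.Y s).IsCyc p a) : (one T hs ha).1 s = a := by
  classical
  unfold one
  exact Pi.single_eq_same (M := fun t => (T.Y t).Cycles) s a

lemma one_ne {s t : T.S} (hs : T.rk s = 0) {p : ℕ} {a : (T.Y s).Cycles}
    (ha : (T.Y s).IsCyc p a) (h : t ≠ s) : (one T hs ha).1 t = 0 := by
  classical
  unfold one
  exact Pi.single_eq_of_ne (M := fun t => (T.Y t).Cycles) h a

section Local

variable {Z : Type u} [AddCommGroup Z] [Module ℚ Z]

/-- The fibre over one point. -/
structure Local (T : Strata 𝒱) (W : WeilCohomology.{u, v} ops) (d : ℕ)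
    (codimZ : ℕ → Submodule ℚ Z) (push : ∀ s, (T.Y s).Cycles →ₗ[ℚ] Z)
    (pull : ∀ s, Z →ₗ[ℚ] (T.Y s).Cycles) : Prop where
  semi : T.IsSemi W d
  push_mem : ∀ s j a, T.rk s = 0 → (T.Y s).IsCyc j a → push s a ∈ codimZ (j + 1)
  pull_mem : ∀ s j, ∀ z ∈ codimZ j, T.rk s = 0 → (T.Y s).IsCyc j (pull s z)
  self : ∀ s t j a, T.rk s = 0 → T.rk t = 0 → (T.Y s).IsCyc j a →
    W.cl _ (pull t (push s a)) = -∑ u, T.gysL W u t (T.resL W u s (W.cl _ a))

variable {codimZ : ℕ → Submodule ℚ Z} {push : ∀ s, (T.Y s).Cycles →ₗ[ℚ] Z}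
  {pull : ∀ s, Z →ₗ[ℚ] (T.Y s).Cycles}

/-- The vertical cycle. -/
noncomputable def vsum (push : ∀ s, (T.Y s).Cycles →ₗ[ℚ] Z) : (∀ s, (T.Y s).Cycles) →ₗ[ℚ] Z :=
  ∑ s, push s ∘ₗ LinearMap.proj s

lemma vsum_apply (f : ∀ s, (T.Y s).Cycles) : vsum push f = ∑ s, push s (f s) := by
  rw [vsum, LinearMap.sum_apply]
  rfl

lemma vsum_one {s : T.S} (hs : T.rk s = 0) {p : ℕ} {a : (T.Y s).Cycles}
    (ha : (T.Y s).IsCyc p a) : vsum push (one T hs ha).1 = push s a := by
  classical
  rw [vsum_apply, Finset.sum_eq_single s]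
  · rw [one_same]
  · intro t _ hts
    rw [one_ne hs ha hts, map_zero]
  · intro h
    exact absurd (Finset.mem_univ s) h

/-- The intersection numbers on the components. -/
noncomputable def num (T : Strata 𝒱) (ops : CycleOps 𝒱) (y g : ∀ s, (T.Y s).Cycles) : ℚ :=
  ∑ s, if T.rk s = 0 then (T.Y s).V.degCycle (ops.mul (y s) (g s)) else 0

lemma num_cast (hS : T.IsSemi W d) {p q : ℕ} (hpq : p + q = d) {y g : ∀ s, (T.Y s).Cycles}
    (hy : ∀ s, T.rk s = 0 → (T.Y s).IsCyc p (y s)) (hg : ∀ s, T.rk s = 0 → (T.Y s).IsCyc q (g s)) :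
    (num T ops y g : W.K) =
      ∑ s, if T.rk s = 0 then W.tr _ (W.cl _ (y s) * W.cl _ (g s)) else 0 := by
  rw [num, Rat.cast_sum]
  refine Finset.sum_congr rfl fun s _ => ?_
  by_cases h0 : T.rk s = 0
  · rw [if_pos h0, if_pos h0, ← W.cl_mul, W.tr_cl]
    have h1 := hS.dim_add s
    have h2 := ops.mul_mem (hy s h0) (hg s h0)
    rwa [show p + q = (T.Y s).dim by omega] at h2
  · rw [if_neg h0, if_neg h0, Rat.cast_zero]

lemma num_one (T : Strata 𝒱) (hS : T.IsSemi W d) {p q : ℕ} (hpq : p + q = d)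
    {y : ∀ s, (T.Y s).Cycles} (hy : ∀ s, T.rk s = 0 → (T.Y s).IsCyc p (y s)) {s : T.S}
    (hs : T.rk s = 0) {a : (T.Y s).Cycles} (ha : (T.Y s).IsCyc q a) :
    (num T ops y (one T hs ha).1 : W.K) = W.tr _ (W.cl _ (y s) * W.cl _ a) := by
  classical
  rw [num_cast hS hpq hy fun t _ => ((one T hs ha).2 t).1, Finset.sum_eq_single s, if_pos hs,
    one_same]
  · intro t _ hts
    rw [one_ne hs ha hts, map_zero, mul_zero, map_zero, ite_self]
  · intro h
    exact absurd (Finset.mem_univ s) h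

/-- The families `g` such that the inverse images on the components of the sum of their direct images
are numerically trivial are orthogonal to the coboundaries. -/
def Orthogonal (T : Strata 𝒱) (W : WeilCohomology.{u, v} ops)
    (push : ∀ s, (T.Y s).Cycles →ₗ[ℚ] Z) (pull : ∀ s, Z →ₗ[ℚ] (T.Y s).Cycles) (p q : ℕ) : Prop :=
  ∀ g : fam T q, (∀ t, T.rk t = 0 → ∀ w, (T.Y t).IsCyc p w →
    W.tr _ (W.cl _ (pull t (vsum push g.1)) * W.cl _ w) = 0) →
  ∀ x : ∀ s, W.H (T.Y s), T.IsCob W x →
    ∑ s, (if T.rk s = 0 then W.tr _ (x s * W.cl _ (g.1 s)) else 0) = 0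

namespace Local

variable (hL : Local T W d codimZ push pull)

include hL

lemma vsum_mem {p : ℕ} (f : fam T p) : vsum push f.1 ∈ codimZ (p + 1) := by
  rw [vsum_apply]
  refine Submodule.sum_mem _ fun s _ => ?_
  by_cases h0 : T.rk s = 0
  · exact hL.push_mem s p _ h0 (f.2 s).1
  · rw [(f.2 s).2 h0, map_zero]
    exact Submodule.zero_mem _

lemma cl_pull_vsum {q : ℕ} (g : fam T q) {t : T.S} (ht : T.rk t = 0) :
    W.cl _ (pull t (vsum push g.1)) =
      -∑ s, ∑ u, T.gysL W u t (T.resL W u s (W.cl _ (g.1 s))) := by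
  rw [vsum_apply, map_sum, map_sum, ← Finset.sum_neg_distrib]
  refine Finset.sum_congr rfl fun s _ => ?_
  by_cases h0 : T.rk s = 0
  · exact hL.self s t q _ h0 ht (g.2 s).1
  · rw [(g.2 s).2 h0]
    simp

/-- The symmetry. -/
lemma symm {p q : ℕ} (g : fam T q) {t : T.S} (ht : T.rk t = 0) {w : (T.Y t).Cycles}
    (hw : (T.Y t).IsCyc p w) : W.tr _ (W.cl _ (pull t (vsum push g.1)) * W.cl _ w) =
      ∑ s, if T.rk s = 0 then W.tr _ (W.cl _ (pull s (push t w)) * W.cl _ (g.1 s)) else 0 := by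
  rw [hL.cl_pull_vsum g ht, neg_mul, map_neg, Finset.sum_mul, map_sum, ← Finset.sum_neg_distrib]
  refine Finset.sum_congr rfl fun s _ => ?_
  by_cases h0 : T.rk s = 0
  · rw [if_pos h0, hL.self t s p w ht h0 hw, neg_mul, map_neg, Finset.sum_mul, Finset.sum_mul,
      map_sum, map_sum]
    congr 1
    refine Finset.sum_congr rfl fun u _ => ?_
    rw [Strata.tr_gys, Strata.tr_gys,
      (Strata.res_AS (T := T) (s := u) _ (AS.of ⟨w, hw, rfl⟩)).comm]
  · rw [if_neg h0, (g.2 s).2 h0]
    simp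

/-- **Correction of `z` by vertical cycles.** -/
theorem exists_correction {p q : ℕ} (hO : Orthogonal T W push pull p q)
    (hpq : p + q + 1 = d) {z : Z} (hz : z ∈ codimZ (p + 1))
    (hx : T.IsCob W fun s => W.cl _ (pull s z)) :
    ∃ f : fam T p, ∀ s, T.rk s = 0 → ∀ a, (T.Y s).IsCyc q a →
      W.tr _ (W.cl _ (pull s (z + vsum push f.1)) * W.cl _ a) = 0 := by
  classical
  have hpull : ∀ (f : fam T p) s, T.rk s = 0 →
      (T.Y s).IsCyc (p + 1) ((fun s => pull s (vsum push f.1)) s) :=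
    fun f s hs => hL.pull_mem s _ _ (hL.vsum_mem f) hs
  have hpq' : p + 1 + q = d := by omega
  have hgq : ∀ (g : fam T q) s, T.rk s = 0 → (T.Y s).IsCyc q (g.1 s) := fun g s _ => (g.2 s).1
  have hcast : ∀ (f : fam T p) (g : fam T q),
      (num T ops (fun s => pull s (vsum push f.1)) g.1 : W.K) =
      ∑ s, if T.rk s = 0 then W.tr _ (W.cl _ (pull s (vsum push f.1)) * W.cl _ (g.1 s)) else 0 :=
    fun f g => num_cast hL.semi hpq' (hpull f) (hgq g)
  let b : fam T p →ₗ[ℚ] fam T q →ₗ[ℚ] ℚ := LinearMap.mk₂ ℚ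
    (fun f g => num T ops (fun s => pull s (vsum push f.1)) g.1)
    (fun f f' g => by
      apply Rat.cast_injective (α := W.K)
      rw [Rat.cast_add, hcast, hcast, hcast, ← Finset.sum_add_distrib]
      refine Finset.sum_congr rfl fun s _ => ?_
      split_ifs
      · rw [Submodule.coe_add, map_add, map_add, map_add, add_mul, map_add]
      · rw [add_zero])
    (fun c f g => by
      apply Rat.cast_injective (α := W.K)
      rw [smul_eq_mul, Rat.cast_mul, hcast, hcast, Finset.mul_sum]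
      refine Finset.sum_congr rfl fun s _ => ?_
      split_ifs
      · rw [Submodule.coe_smul, map_smul, map_smul, cl_smul, smul_mul_assoc, map_smul,
          smul_eq_mul]
      · rw [mul_zero])
    (fun f g g' => by
      apply Rat.cast_injective (α := W.K)
      rw [Rat.cast_add, hcast, hcast, hcast, ← Finset.sum_add_distrib]
      refine Finset.sum_congr rfl fun s _ => ?_
      split_ifs
      · rw [Submodule.coe_add, Pi.add_apply, map_add, mul_add, map_add]
      · rw [add_zero])
    (fun c f g => by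
      apply Rat.cast_injective (α := W.K)
      rw [smul_eq_mul, Rat.cast_mul, hcast, hcast, Finset.mul_sum]
      refine Finset.sum_congr rfl fun s _ => ?_
      split_ifs
      · rw [Submodule.coe_smul, Pi.smul_apply, cl_smul, mul_smul_comm, map_smul, smul_eq_mul]
      · rw [mul_zero])
  have hba : ∀ f g, b f g = num T ops (fun s => pull s (vsum push f.1)) g.1 := fun f g => rfl
  have hzc : ∀ s, T.rk s = 0 → (T.Y s).IsCyc (p + 1) ((fun s => pull s z) s) :=
    fun s hs => hL.pull_mem s _ _ hz hs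
  have hcastz : ∀ g : fam T q, (num T ops (fun s => pull s z) g.1 : W.K) =
      ∑ s, if T.rk s = 0 then W.tr _ (W.cl _ (pull s z) * W.cl _ (g.1 s)) else 0 :=
    fun g => num_cast hL.semi hpq' hzc (hgq g)
  let l : fam T q →ₗ[ℚ] ℚ :=
    { toFun := fun g => -num T ops (fun s => pull s z) g.1
      map_add' := fun g g' => by
        apply Rat.cast_injective (α := W.K)
        rw [Rat.cast_add, Rat.cast_neg, Rat.cast_neg, Rat.cast_neg, hcastz, hcastz, hcastz,
          ← neg_add, ← Finset.sum_add_distrib]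
        congr 1
        refine Finset.sum_congr rfl fun s _ => ?_
        split_ifs
        · rw [Submodule.coe_add, Pi.add_apply, map_add, mul_add, map_add]
        · rw [add_zero]
      map_smul' := fun c g => by
        apply Rat.cast_injective (α := W.K)
        rw [RingHom.id_apply, smul_eq_mul, Rat.cast_mul, Rat.cast_neg, Rat.cast_neg, hcastz,
          hcastz, mul_neg, Finset.mul_sum]
        congr 1
        refine Finset.sum_congr rfl fun s _ => ?_
        split_ifs
        · rw [Submodule.coe_smul, Pi.smul_apply, cl_smul, mul_smul_comm, map_smul, smul_eq_mul]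
        · rw [mul_zero] }
  obtain ⟨f, hf⟩ := exists_rep (K := W.K) (V := ∀ s, W.H (T.Y s)) b
    (fun f s => W.cl _ (pull s (vsum push f.1))) (fun g => by
      refine ⟨∑ s, if T.rk s = 0 then W.tr (T.Y s) ∘ₗ LinearMap.mulRight W.K (W.cl _ (g.1 s)) ∘ₗ
        LinearMap.proj s else 0, fun f => ?_⟩
      rw [hba, hcast, LinearMap.sum_apply]
      refine Finset.sum_congr rfl fun s _ => ?_
      split_ifs
      · rfl
      · rfl) l (fun g hg => by
      have h2 := hO g (fun t ht w hw => by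
        rw [hL.symm g ht hw]
        have h3 := hg (one T ht hw)
        rw [hba] at h3
        have h4 := hcast (one T ht hw) g
        rw [h3, Rat.cast_zero, vsum_one ht hw] at h4
        exact h4.symm) _ hx
      apply Rat.cast_injective (α := W.K)
      change ((-num T ops (fun s => pull s z) g.1 : ℚ) : W.K) = _
      rw [Rat.cast_neg, hcastz, h2, neg_zero, Rat.cast_zero])
  refine ⟨f, fun s hs a ha => ?_⟩
  have h1 := hf (one T hs ha)
  change num T ops (fun s => pull s (vsum push f.1)) (one T hs ha).1 =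
    -num T ops (fun s => pull s z) (one T hs ha).1 at h1
  have h2 := congrArg (Rat.cast : ℚ → W.K) h1
  rw [Rat.cast_neg, num_one T hL.semi hpq' (hpull f) hs ha,
    num_one T hL.semi hpq' hzc hs ha] at h2
  rw [map_add, map_add, add_mul, map_add, h2, add_neg_cancel]

/-- **Orthogonality from the conjectures D and of Hodge type.** -/
theorem orthogonal_of_D (hHL : ∀ s, HardLefschetz W (T.Y s) (T.D s))
    (hD : ∀ s, HomEqNum W (T.Y s)) (hH : ∀ s, HodgeType W (T.Y s) (T.D s)) {p q : ℕ}
    (hpq : p + q + 1 = d) : Orthogonal T W push pull p q := by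
  classical
  choose f₀ F using fun s => exists_fa (hL.semi.isCyc s) (hHL s)
    (lefschetzA_of_D (hL.semi.isCyc s) (hHL s) (hD s))
  intro g hg x hx
  have h1 : ∀ t, T.rk t = 0 → W.cl _ (pull t (vsum push g.1)) = 0 := by
    intro t ht
    have hdt := hL.semi.dim_add t
    refine hD t (q + 1) (by omega) _ (hL.pull_mem t _ _ (hL.vsum_mem g) ht) fun w hw => ?_
    have hw' : (T.Y t).IsCyc p w := by rwa [show (T.Y t).dim - (q + 1) = p by omega] at hw
    apply Rat.cast_injective (α := W.K)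
    have h2 := ops.mul_mem (hL.pull_mem t _ _ (hL.vsum_mem g) ht) hw'
    rw [show q + 1 + p = (T.Y t).dim by omega] at h2
    rw [← W.tr_cl h2, W.cl_mul, hg t ht w hw', Rat.cast_zero]
  exact Strata.orth_of_gys_res hL.semi F hHL hH hx (w := fun s => W.cl _ (g.1 s))
    (fun s => AS.of ⟨g.1 s, (g.2 s).1, rfl⟩) (fun s hs => by
      rw [(g.2 s).2 hs, map_zero]) (fun t ht => by
      have h3 := h1 t ht
      rw [hL.cl_pull_vsum g ht, neg_eq_zero, Finset.sum_comm] at h3
      rw [← h3]
      exact Finset.sum_congr rfl fun u _ => map_sum _ _ _)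

end Local

end Local

end Pool.Agent.K9h28.Ort
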