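import Pool.Agent.K9h28.OrtB

/-!
# Lifting cycles orthogonally to the vertical cycles: strictly semistable models
-/

set_option autoImplicit false
set_option linter.unusedSectionVars false

open CategoryTheory AlgebraicGeometry Finset

universe u v

namespace Pool.Agent.K9h28.Ort

open Pool.Agent.H914 Pool.Agent.H914.VarClass Pool.Agent.H914.VarClass.Obj
  Pool.Agent.H914.WeilCohomology Pool.Agent.H281R3.HT Pool.Agent.W552

section

variable {k : Type u} [Field k] {𝒱 : VarClass k} {ops : CycleOps 𝒱} {T : Strata 𝒱}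
  {Z : Type u} [AddCommGroup Z] [Module ℚ Z] {F : Images T Z} {W : WeilCohomology.{u, v} ops}
  {codimZ : ℕ → Submodule ℚ Z} {Z₀ : Submodule ℚ Z} {pairing : Z → Z → ℝ} {d : ℕ} {r : ℝ}

lemma IsFibre.loc (h : IsFibre F W codimZ Z₀ pairing d r) :
    Local T W d codimZ F.push F.pull where
  semi := h.strata.semi
  push_mem s j a hs ha := (h.codim s j hs).1 a ha
  pull_mem s j z hz hs := (h.codim s j hs).2 z hz
  self s t j a hs ht ha := by
    have := h.self s t j a hs ht ha
    simp only [resGys, sumC, Strata.resL_eq, Strata.gysL_eq] at this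
    exact this

/-- The pairing as a linear map. -/
noncomputable def IsBiadditive.lin {p : Z → Z → ℝ} (h : IsBiadditive p) (z : Z) : Z →ₗ[ℚ] ℝ :=
  (AddMonoidHom.mk' (p z) fun a b => (h a b z).2).toRatLinearMap

lemma IsBiadditive.smul {p : Z → Z → ℝ} (h : IsBiadditive p) (q : ℚ) (z y : Z) :
    p (q • z) y = q • p z y :=
  map_smul (AddMonoidHom.mk' (fun z => p z y) fun a b => (h a b y).1).toRatLinearMap q z

end

variable {M : Model.{u, v}} {d : ℕ}

lemma mem_vert {v : M.P} {s : (M.fib v).T.S} (hs : (M.fib v).T.rk s = 0) {j : ℕ}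
    {a : ((M.fib v).T.Y s).Cycles} (ha : ((M.fib v).T.Y s).IsCyc j a) :
    (M.fib v).F.push s a ∈ vert M v j := ⟨s, hs, a, ha, rfl⟩

lemma IsModel.res_vsum (hM : IsModel M d) (v : M.P) {p : ℕ} (f : fam (M.fib v).T p) :
    M.res (vsum (M.fib v).F.push f.1) = 0 := by
  rw [vsum_apply, map_sum]
  refine Finset.sum_eq_zero fun s _ => ?_
  by_cases h0 : (M.fib v).T.rk s = 0
  · exact hM.res_vert v p _ (mem_vert h0 (f.2 s).1)
  · rw [(f.2 s).2 h0, map_zero, map_zero]

lemma IsModel.pull_vsum (hM : IsModel M d) {v v' : M.P} (hv : v ≠ v') {p : ℕ}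
    (f : fam (M.fib v').T p) {t : (M.fib v).T.S} (ht : (M.fib v).T.rk t = 0) :
    (M.fib v).W.cl _ ((M.fib v).F.pull t (vsum (M.fib v').F.push f.1)) = 0 := by
  rw [vsum_apply, map_sum, map_sum]
  refine Finset.sum_eq_zero fun s _ => ?_
  by_cases h0 : (M.fib v').T.rk s = 0
  · exact hM.disjoint v v' p hv t ht _ (mem_vert h0 (f.2 s).1)
  · rw [(f.2 s).2 h0, map_zero, map_zero, map_zero]

/-- **The criterion for strictly semistable models.** -/
theorem lifts_of_orthogonal (hM : IsModel M d) {p q : ℕ} (hq : p + q + 1 = d)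
    (hO : ∀ v ∈ M.bad, Orthogonal (M.fib v).T (M.fib v).W (M.fib v).F.push (M.fib v).F.pull p q) :
    LiftsOrthogonally M.toCyclesOn d (p + 1) := by
  classical
  intro c hc hci
  obtain ⟨z₀, hz₀, hres⟩ := hM.surj (p + 1) c hci
  have hz₀' : z₀ ∈ homTrivZ M := Submodule.mem_comap.2 (by rw [hres]; exact hc)
  have hcob : ∀ v, (M.fib v).T.IsCob (M.fib v).W
      fun s => (M.fib v).W.cl _ ((M.fib v).F.pull s z₀) :=
    fun v => (Strata.isCob_iff _).1 ((hM.fibre v).special (p + 1) z₀ hz₀ hz₀')
  have hcorr : ∀ v, ∃ f : fam (M.fib v).T p, v ∈ M.bad → ∀ s, (M.fib v).T.rk s = 0 → ∀ a,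
      ((M.fib v).T.Y s).IsCyc q a → (M.fib v).W.tr _
        ((M.fib v).W.cl _ ((M.fib v).F.pull s (z₀ + vsum (M.fib v).F.push f.1)) *
          (M.fib v).W.cl _ a) = 0 := by
    intro v
    by_cases hv : v ∈ M.bad
    · obtain ⟨f, hf⟩ := (hM.fibre v).loc.exists_correction (hO v hv) hq hz₀ (hcob v)
      exact ⟨f, fun _ => hf⟩
    · exact ⟨0, fun h => absurd h hv⟩
  choose f hf using hcorr
  set z := z₀ + ∑ v ∈ M.bad, vsum (M.fib v).F.push (f v).1 with hz
  have hzc : M.res z = c := by
    rw [hz, map_add, hres, map_sum, Finset.sum_eq_zero fun v _ => hM.res_vsum v (f v), add_zero]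
  have hzm : z ∈ M.codimZ (p + 1) :=
    Submodule.add_mem _ hz₀ (Submodule.sum_mem _ fun v _ => (hM.fibre v).loc.vsum_mem (f v))
  refine ⟨z, hzm, hzc, fun g hg hg0 => ?_⟩
  rw [show d + 1 - (p + 1) = q + 1 by omega] at hg
  have hle : Submodule.span ℚ (⋃ v, vert M v q) ≤ LinearMap.ker (M.biadditive.lin z) := by
    rw [Submodule.span_le]
    intro g hg
    obtain ⟨v, s, hs, a, ha, rfl⟩ := Set.mem_iUnion.1 hg
    change M.pairing z ((M.fib v).F.push s a) = 0
    have hzh : z ∈ homTrivZ M := Submodule.mem_comap.2 (by rw [hzc]; exact hc)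
    rw [(hM.fibre v).pairing_push (p + 1) q (by omega) z hzm hzh s a hs ha]
    have h0 : ((M.fib v).T.Y s).V.degCycle ((M.fib v).ops.mul ((M.fib v).F.pull s z) a) = 0 := by
      apply Rat.cast_injective (α := (M.fib v).W.K)
      have h1 := (M.fib v).ops.mul_mem (((hM.fibre v).codim s (p + 1) hs).2 z hzm) ha
      have h2 := (hM.fibre v).strata.dim_add s
      rw [show p + 1 + q = ((M.fib v).T.Y s).dim by omega] at h1
      rw [← (M.fib v).W.tr_cl h1, (M.fib v).W.cl_mul, Rat.cast_zero]
      by_cases hv : v ∈ M.bad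
      · have h3 : (M.fib v).W.cl _ ((M.fib v).F.pull s z) =
            (M.fib v).W.cl _ ((M.fib v).F.pull s (z₀ + vsum (M.fib v).F.push (f v).1)) := by
          rw [hz, map_add, map_add, map_add, map_add, map_sum, map_sum,
            Finset.sum_eq_single v (fun v' _ hne => hM.pull_vsum (Ne.symm hne) (f v') hs)
              (fun h => absurd hv h)]
        rw [h3]
        exact hf v hv s hs a ha
      · have h3 : (M.fib v).W.cl _ ((M.fib v).F.pull s z) =
            (M.fib v).W.cl _ ((M.fib v).F.pull s z₀) := by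
          rw [hz, map_add, map_add, map_sum, map_sum, Finset.sum_eq_zero, add_zero]
          intro v' hv'
          refine hM.pull_vsum ?_ (f v') hs
          rintro rfl
          exact hv hv'
        obtain ⟨y, -, hy⟩ := hcob v
        have h4 := hy s 0 (Nat.zero_le _)
        rw [if_pos rfl, zero_add, if_pos hs, Finset.sum_eq_zero] at h4
        · rw [h3]
          change (M.fib v).W.tr _
            ((fun s => (M.fib v).W.cl _ ((M.fib v).F.pull s z₀)) s * _) = 0
          rw [← h4, zero_mul, map_zero]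
        intro u _
        by_cases h5 : (M.fib v).T.sgn u s ≠ 0
        · have h6 := (hM.fibre v).strata.rk_eq u s h5
          have h7 := hM.smooth v hv u
          omega
        · exact Strata.gys_not h5 _
    rw [h0, Rat.cast_zero, zero_mul]
  exact hle (hM.ker q g hg hg0)

/-- **Transfer to other models.** -/
theorem lifts_of_dominates {M M' : CyclesOn.{u}} {d d' i i' : ℕ} (h : Dominates M M' d d' i i')
    (hL : LiftsOrthogonally M' d' i') : LiftsOrthogonally M d i := by
  obtain ⟨f, g, pb, N, h⟩ := h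
  intro c hc hci
  obtain ⟨z, hz, hzc, horth⟩ := hL (pb c) (h.hom c hc) (h.pb_mem c hci)
  refine ⟨N⁻¹ • f z, Submodule.smul_mem _ _ (h.f_mem z hz), ?_, fun y hy hy0 => ?_⟩
  · rw [map_smul, h.ext z c hzc, smul_smul, inv_mul_cancel₀ h.ne, one_smul]
  · rw [M.biadditive.smul,
      h.adj z (Submodule.mem_comap.2 (by rw [hzc]; exact h.hom c hc)) y (LinearMap.mem_ker.2 hy0),
      horth _ (h.g_mem y hy) (LinearMap.mem_ker.1 (h.vert y (LinearMap.mem_ker.2 hy0))), smul_zero]

/-- Every model dominates itself. -/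
lemma dominates_self (M : CyclesOn.{u}) (d i : ℕ) : Dominates M M d d i i :=
  ⟨LinearMap.id, LinearMap.id, LinearMap.id, 1,
    { ne := one_ne_zero
      adj := fun _ _ _ _ => rfl
      ext := fun z c h => by rw [one_smul]; exact h
      vert := fun _ h => h
      hom := fun _ h => h
      pb_mem := fun _ h => h
      f_mem := fun _ h => h
      g_mem := fun _ h => h }⟩

end Pool.Agent.K9h28.Ort
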