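import Pool.Agent.K9h28.OrtDefs

/-!
# The index property of the double varieties: definitions
-/

set_option autoImplicit false
set_option linter.checkUnivs false

open CategoryTheory AlgebraicGeometry

universe u v

namespace Pool.Agent.K9h28.Ort

open Pool.Agent.H914 Pool.Agent.H914.VarClass Pool.Agent.H914.VarClass.Obj

variable {k : Type u} [Field k] {𝒱 : VarClass k} {ops : CycleOps 𝒱}
  (W : WeilCohomology.{u, v} ops)

/-- The index property in codimension `q` of the variety `X` with the ample divisor `D`: if `z` is a
cycle of codimension `q` with `D ^ p · z = 0`, `p + q = dim X`, whose class is not zero, then `q ≤ p` and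
`(-1) ^ q (z · z · D ^ (p - q)) > 0`. For `q = 1` (and `p ≥ 1`) this is the Hodge index theorem. -/
def IndexProperty (X : 𝒱.Obj) (D : X.Cycles) (q : ℕ) : Prop := ∀ p z, p + q = X.dim →
  X.IsCyc q z → W.cl X (divPow ops D p z) = 0 → W.cl X z ≠ 0 →
    q ≤ p ∧ 0 < (-1) ^ q * X.V.degCycle (ops.mul (divPow ops D (p - q) z) z)

/-- The intersections of two components of a singular fibre of the model have the `IndexProperty` in
codimension `q`. -/
def DoubleVarieties (M : Model.{u, v}) (q : ℕ) : Prop :=
  ∀ v ∈ M.bad, ∀ s, (M.fib v).T.rk s = 1 →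
    IndexProperty (M.fib v).W ((M.fib v).T.Y s) ((M.fib v).T.D s) q

end Pool.Agent.K9h28.Ort
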