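import Pool.Agent.K9h28.OrtLin

/-!
# The complex of the strata: the differences of the restrictions in arbitrary codimension
-/

set_option autoImplicit false
set_option linter.unusedSectionVars false

open Finset

universe v

namespace Pool.Agent.K9h28.Ort

namespace Low

variable {S : Type} [Fintype S]
  {rk : S → ℕ} {A : S → Type v} [∀ s, AddCommGroup (A s)] [∀ s, Module ℚ (A s)]
  {L : ∀ s, Module.End ℚ (A s)} {R : ∀ s u, A u →ₗ[ℚ] A s} {G : ∀ s u, A s →ₗ[ℚ] A u}
  {q : ∀ s, A s →ₗ[ℚ] A s →ₗ[ℚ] ℚ} {o : ∀ s, A s} {ε : S → S → ℚ}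
  {C : ∀ s, Submodule ℚ (A s)} {n : ℕ} (t : Low rk A L R G q o ε C n)

include t

/-- **The obstruction comes from the strata of rank two.** -/
theorem main_gen {p m : ℕ} (hm : 1 ≤ m) (hpm : p + m + 1 = n) {C' : ∀ s, Submodule ℚ (A s)}
    {w : ∀ s, A s} (hw0 : ∀ s, rk s ≠ 0 → w s = 0)
    (hX' : ∀ s, ∑ v, R s v (w v) ∈ C' s)
    (hY' : ∀ s, ∀ ψ ∈ Fn rk 1, ∑ c, G c s ((L c ^ (m - 1)) (cob R o ψ c)) ∈ C' s)
    (hidx : ∀ s, rk s = 1 → ∀ x ∈ C' s, q s ((L s ^ p) x) (o s) = 0 → x ≠ 0 →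
      m ≤ p ∧ 0 < (-1) ^ m * q s ((L s ^ (p - m)) x) x)
    (h1 : ∀ s, rk s = 0 →
      q s (∑ u, G u s (∑ v, R u v (w v))) ((L s ^ p) (o s)) = 0)
    (h2 : m ≤ p → ∀ s, rk s = 0 →
      q s (∑ u, G u s (∑ v, R u v (w v))) ((L s ^ (p - m)) (w s)) = 0) :
    ∃ ψ ∈ Fn rk 1, ∀ s, ∑ v, R s v (w v) =
      ∑ c, G c s ((L c ^ (m - 1)) (cob R o ψ c)) := by
  classical
  set X : ∀ s, A s := fun s => ∑ v, R s v (w v) with hX
  have hX0 : ∀ s, rk s ≠ 1 → X s = 0 := by
    intro s hs
    refine Finset.sum_eq_zero fun v _ => ?_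
    by_cases hv : rk v = 0
    · exact t.R_rk s v (by omega) _
    · rw [hw0 v hv, map_zero]
  have hRX : ∀ c, ∑ s, R c s (X s) = 0 := by
    intro c
    have e1 : ∀ s, R c s (X s) = ∑ v, R c s (R s v (w v)) := fun s => map_sum _ _ _
    rw [Finset.sum_congr rfl fun s _ => e1 s, Finset.sum_comm]
    exact Finset.sum_eq_zero fun v _ => t.R_R c v _
  obtain ⟨ψ, hψ, hψδ⟩ := t.lemmaB (δ := fun s => q s ((L s ^ p) (X s)) (o s)) (by
    intro φ hφ hd
    obtain ⟨β, hβ, hβG⟩ := t.lemmaA hφ hd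
    have e1 : ∀ s, (if rk s = 1 then φ s * q s ((L s ^ p) (X s)) (o s) else 0) =
        q s ((L s ^ p) (φ s • o s - cob R o β s)) (∑ u, R s u (w u)) +
          q s ((L s ^ p) (X s)) (∑ u, R s u (β u • o u)) := by
      intro s
      change _ = q s ((L s ^ p) (φ s • o s - cob R o β s)) (X s) +
        q s ((L s ^ p) (X s)) (cob R o β s)
      rw [t.q_swap s p (φ s • o s - cob R o β s) (X s), ← map_add, sub_add_cancel,
        map_smul, smul_eq_mul]
      by_cases hs : rk s = 1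
      · rw [if_pos hs]
      · rw [if_neg hs, hX0 s hs]
        simp
    rw [Finset.sum_congr rfl fun s _ => e1 s, Finset.sum_add_distrib,
      t.sum_R p (fun s => φ s • o s - cob R o β s) w,
      t.sum_R p X (fun u => β u • o u)]
    rw [Finset.sum_eq_zero, Finset.sum_eq_zero, add_zero]
    · intro u _
      by_cases hu : rk u = 0
      · rw [map_smul, map_smul, smul_eq_mul]
        have := h1 u hu
        rw [this, mul_zero]
      · rw [hβ u hu, zero_smul, map_zero, map_zero]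
    · intro u _
      rw [hβG u, map_zero, LinearMap.zero_apply])
  refine ⟨ψ, hψ, ?_⟩
  set E : ∀ c, A c := fun c => (L c ^ (m - 1)) (cob R o ψ c) with hE
  have hE0 : ∀ c, rk c ≠ 2 → E c = 0 := fun c hc => by
    rw [hE]
    dsimp only
    rw [t.cob_supp hψ hc, map_zero]
  have hRE : ∀ c, ∑ u, R c u (E u) = 0 := by
    intro c
    have e1 : ∀ u, R c u (E u) = (L c ^ (m - 1)) (R c u (cob R o ψ u)) := fun u =>
      (t.R_L_pow c u (m - 1) _).symm
    rw [Finset.sum_congr rfl fun u _ => e1 u, ← map_sum, t.cob_cob, map_zero]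
  set Y : ∀ s, A s := fun s => ∑ c, G c s (E c) with hY
  have hY0 : ∀ s, rk s ≠ 1 → Y s = 0 := by
    intro s hs
    refine Finset.sum_eq_zero fun c _ => ?_
    by_cases hc : rk c = 2
    · exact t.G_rk c s (by omega) _
    · rw [hE0 c hc, map_zero]
  have hGY : ∀ u, ∑ s, G s u (Y s) = 0 := by
    intro u
    have e1 : ∀ s, G s u (Y s) = ∑ c, G s u (G c s (E c)) := fun s => map_sum _ _ _
    rw [Finset.sum_congr rfl fun s _ => e1 s, Finset.sum_comm]
    exact Finset.sum_eq_zero fun v _ => t.G_G v u _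
  have hRY : ∀ c, rk c = 2 → ∑ s, R c s (Y s) = 0 := by
    intro c hc
    have e1 : ∀ s, R c s (Y s) = ∑ c', R c s (G c' s (E c')) := fun s => map_sum _ _ _
    rw [Finset.sum_congr rfl fun s _ => e1 s, Finset.sum_comm]
    have e2 : ∀ c', ∑ s, R c s (G c' s (E c')) = -∑ p, G p c (R p c' (E c')) := by
      intro c'
      by_cases hc' : rk c' = 2
      · exact eq_neg_of_add_eq_zero_left (t.R_G c c' (by omega) (by omega) _)
      · rw [hE0 c' hc']
        simp
    rw [Finset.sum_congr rfl fun c' _ => e2 c', Finset.sum_neg_distrib, neg_eq_zero,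
      Finset.sum_comm]
    refine Finset.sum_eq_zero fun p _ => ?_
    rw [← map_sum, hRE, map_zero]
  have hprim : ∀ s, rk s = 1 → q s ((L s ^ p) (X s - Y s)) (o s) = 0 := by
    intro s hs
    rw [map_sub, map_sub, LinearMap.sub_apply,
      ← hψδ s hs, sub_eq_zero, t.q_L_pow, map_sum, LinearMap.sum_apply]
    refine Finset.sum_congr rfl fun c _ => ?_
    by_cases hc : rk c = 2
    · rw [if_pos hc, t.adj, ← t.R_L_pow, t.R_o]
      have e3 : E c = (L c ^ (m - 1)) (cob R o ψ c) := rfl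
      rw [e3, t.cob_eq, ← t.q_L_pow, ← Module.End.mul_apply, ← pow_add,
        show p + (m - 1) = n - 2 by omega, map_smul, map_smul, map_smul, LinearMap.smul_apply,
        smul_eq_mul, smul_eq_mul]
      ring
    · rw [if_neg hc, hE0 c hc, map_zero, map_zero, LinearMap.zero_apply]
  have hXC : ∀ s, X s - Y s ∈ C' s := fun s => Submodule.sub_mem _ (hX' s) (hY' s ψ hψ)
  have hsum : m ≤ p → ∑ s, q s ((L s ^ (p - m)) (X s - Y s)) (X s - Y s) = 0 := by
    intro hmp
    have e1 : ∀ s, q s ((L s ^ (p - m)) (X s - Y s)) (X s - Y s) =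
        q s ((L s ^ (p - m)) (X s - Y s)) (∑ u, R s u (w u)) -
          q s ((L s ^ (p - m)) (X s - Y s)) (∑ c, G c s (E c)) :=
      fun s => map_sub _ _ _
    rw [Finset.sum_congr rfl fun s _ => e1 s, Finset.sum_sub_distrib,
      t.sum_R (p - m) (fun s => X s - Y s) w, t.sum_G (p - m) (fun s => X s - Y s) E,
      Finset.sum_eq_zero, Finset.sum_eq_zero, sub_zero]
    · intro c _
      by_cases hc : rk c = 2
      · have e2 : ∑ s, R c s (X s - Y s) = 0 := by
          simp only [map_sub, Finset.sum_sub_distrib]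
          rw [hRX, hRY c hc, sub_zero]
        rw [e2, map_zero, LinearMap.zero_apply]
      · rw [hE0 c hc, map_zero, map_zero]
    · intro u _
      by_cases hu : rk u = 0
      · have e2 : ∑ s, G s u (X s - Y s) = ∑ s, G s u (X s) := by
          simp only [map_sub, Finset.sum_sub_distrib]
          rw [hGY, sub_zero]
        rw [e2]
        exact h2 hmp u hu
      · rw [hw0 u hu, map_zero, map_zero]
  intro s
  change X s = Y s
  rw [← sub_eq_zero]
  by_contra h0
  have hs : rk s = 1 := by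
    by_contra hs
    exact h0 (by rw [hX0 s hs, hY0 s hs, sub_zero])
  obtain ⟨hmp, h3⟩ := hidx s hs _ (hXC s) (hprim s hs) h0
  have hnn : ∀ u ∈ Finset.univ,
      0 ≤ (-1 : ℚ) ^ m * q u ((L u ^ (p - m)) (X u - Y u)) (X u - Y u) := by
    intro u _
    by_cases hu : X u - Y u = 0
    · rw [hu, map_zero, mul_zero]
    · have hu1 : rk u = 1 := by
        by_contra hu1
        exact hu (by rw [hX0 u hu1, hY0 u hu1, sub_zero])
      exact (hidx u hu1 _ (hXC u) (hprim u hu1) hu).2.le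
  have h4 := Finset.sum_pos' hnn ⟨s, Finset.mem_univ s, h3⟩
  rw [← Finset.mul_sum, hsum hmp, mul_zero] at h4
  exact lt_irrefl _ h4

end Low

end Pool.Agent.K9h28.Ort
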