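import Pool.Agent.K9h28.OrtC

/-!
# One-dimensional cycles
-/

set_option autoImplicit false
set_option linter.unusedSectionVars false

open CategoryTheory AlgebraicGeometry Finset

universe u v

namespace Pool.Agent.K9h28.Ort

open Pool.Agent.H914 Pool.Agent.H914.VarClass Pool.Agent.H914.VarClass.Obj
  Pool.Agent.H914.WeilCohomology Pool.Agent.H281R3.HT Pool.Agent.W552

variable {k : Type u} [Field k] {𝒱 : VarClass k} {ops : CycleOps 𝒱}
  {T : Strata 𝒱} {W : WeilCohomology.{u, v} ops} {d : ℕ}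

/-- The product with the divisor. -/
noncomputable def LD (h : T.IsSemi W d) (s : T.S) : Module.End ℚ (AQ W (T.Y s)) :=
  res (LinearMap.mulLeft W.K (W.cl (T.Y s) (T.D s))) (AS_L (h.isCyc s))

lemma LD_pow (h : T.IsSemi W d) (s : T.S) (m : ℕ) (x : AQ W (T.Y s)) :
    ((LD h s ^ m) x : W.H (T.Y s)) =
      (LinearMap.mulLeft W.K (W.cl (T.Y s) (T.D s)) ^ m) (x : W.H (T.Y s)) :=
  res_pow _ _ _ _

/-- The unit class. -/
def oneQ (W : WeilCohomology.{u, v} ops) (X : 𝒱.Obj) : AQ W X := ⟨1, AS.one⟩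

lemma psiL_symm {X : 𝒱.Obj} (x y : AQ W X) : psiL W X x y = psiL W X y x := by
  apply Rat.cast_injective (α := W.K)
  rw [psiL_spec, psiL_spec, x.2.comm]

lemma sgn_res_one (s u : T.S) : T.resL W s u 1 = (T.sgn s u : W.K) • 1 := by
  by_cases hs : T.sgn s u ≠ 0
  · rw [Strata.res_of hs, map_one]
  · rw [Strata.res_not hs, not_not.1 hs, Int.cast_zero, zero_smul]

/-- **The structure.** -/
lemma low (h : T.IsSemi W d) (hd : 3 ≤ d) (hI : ∀ s, HodgeIndexTheorem W (T.Y s) (T.D s)) :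
    Low T.rk (fun s => AQ W (T.Y s)) (LD h) (Rq T W) (Gq T W) (fun s => psiL W (T.Y s))
      (fun s => oneQ W (T.Y s)) (fun s u => (T.sgn s u : ℚ)) (fun s => Aj W (T.Y s) 1) d where
  R_rk s u hs x := Subtype.ext (Strata.res_not (fun h0 => hs (h.rk_eq s u h0)) _)
  G_rk s u hs x := Subtype.ext (Strata.gys_not (fun h0 => hs (h.rk_eq s u h0)) _)
  R_L s u x := Subtype.ext (Strata.res_L h s u x)
  symm s x y := psiL_symm x y
  q_L s x y := by
    apply Rat.cast_injective (α := W.K)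
    rw [psiL_spec, psiL_spec]
    change W.tr _ (W.cl _ (T.D s) * (x : W.H (T.Y s)) * (y : W.H (T.Y s))) =
      W.tr _ ((x : W.H (T.Y s)) * (W.cl _ (T.D s) * (y : W.H (T.Y s))))
    rw [(AS.of ⟨T.D s, h.isCyc s, rfl⟩ : AS W (T.Y s) (W.cl _ (T.D s))).comm, mul_assoc]
  adj s u x y := by
    apply Rat.cast_injective (α := W.K)
    rw [psiL_spec, psiL_spec]
    exact Strata.tr_gys (T := T) (s := s) (u := u) (x : W.H (T.Y s)) (y : W.H (T.Y u))
  R_R s v x := by
    apply Subtype.ext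
    rw [AddSubgroup.val_finsetSum]
    exact h.res_res s v x
  G_G s v x := by
    apply Subtype.ext
    rw [AddSubgroup.val_finsetSum]
    exact Strata.gys_gys h s v x
  R_G s s' hs hs' x := by
    apply Subtype.ext
    rw [AddSubgroup.coe_add, AddSubgroup.val_finsetSum, AddSubgroup.val_finsetSum]
    exact h.res_gys s s' hs hs' x
  R_o s u := by
    apply Subtype.ext
    change T.resL W s u 1 = ((T.sgn s u : ℚ) : W.K) • 1
    rw [sgn_res_one, Rat.cast_intCast]
  R_C s u x hx := by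
    change T.resL W s u (x : W.H (T.Y u)) ∈ algClasses W (T.Y s) 1
    by_cases hs : T.sgn s u ≠ 0
    · rw [Strata.res_of hs]
      have := alg_smul (W := W) (T.sgn s u : ℚ) (alg_map (T.incl s u hs) hx)
      rwa [Rat.cast_intCast] at this
    · rw [Strata.res_not hs]
      exact alg_zero 1
  G_C s u := by
    change T.gysL W s u 1 ∈ algClasses W (T.Y u) 1
    by_cases hs : T.sgn s u ≠ 0
    · rw [Strata.gys_of hs]
      have h1 := Strata.dim_succ h hs
      have h2 : W.push (T.incl s u hs) 1 ∈ algClasses W (T.Y u) 1 :=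
        ⟨ops.push (T.incl s u hs) (T.Y s).V.fundCycle,
          ops.push_mem _ (T.Y s).V.fundCycle_mem (by omega), by rw [W.cl_push, W.cl_fund]⟩
      have := alg_smul (W := W) (T.sgn s u : ℚ) h2
      rwa [Rat.cast_intCast] at this
    · rw [Strata.gys_not hs]
      exact alg_zero 1
  pos s h1 h2 := by
    have h3 := h.dim_add s
    have h4 := (hI s).pos
    have h5 : ((psiL W (T.Y s) ((LD h s ^ (d - T.rk s)) (oneQ W (T.Y s))) (oneQ W (T.Y s)) : ℚ) :
        W.K) = ((T.Y s).V.degCycle (divPow ops (T.D s) (T.Y s).dim (T.Y s).V.fundCycle) :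
          ℚ) := by
      rw [psiL_spec, LD_pow, show d - T.rk s = (T.Y s).dim by omega, ← W.tr_cl, cl_divPow,
        W.cl_fund]
      · change W.tr _ ((LinearMap.mulLeft W.K (W.cl (T.Y s) (T.D s)) ^ (T.Y s).dim) 1 * 1) = _
        rw [mul_one]
      · have := divPow_mem (ops := ops) (h.isCyc s) (T.Y s).dim (T.Y s).V.fundCycle_mem
        rwa [zero_add] at this
    have h6 := Rat.cast_injective h5
    rw [h6]
    exact h4
  hodge s hs x hx hprim hx0 := by
    have h3 := h.dim_add s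
    obtain ⟨z, hz, hzx⟩ := hx
    have hz1 := divPow_mem (ops := ops) (h.isCyc s) ((T.Y s).dim - 1) hz
    have hz2 := divPow_mem (ops := ops) (h.isCyc s) ((T.Y s).dim - 2) hz
    rw [show 1 + ((T.Y s).dim - 1) = (T.Y s).dim by omega] at hz1
    have h4 : W.cl _ (divPow ops (T.D s) ((T.Y s).dim - 1) z) = 0 := by
      apply eq_zero_of_top (W.cl_mem hz1)
      have h5 := congrArg (Rat.cast : ℚ → W.K) hprim
      rw [psiL_spec, LD_pow, show d - T.rk s - 1 = (T.Y s).dim - 1 by omega, Rat.cast_zero] at h5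
      rw [cl_divPow, hzx]
      change W.tr _ (_ * 1) = 0 at h5
      rwa [mul_one] at h5
    have h5 : W.cl _ z ≠ 0 := by
      rw [hzx]
      intro h0
      exact hx0 (Subtype.ext h0)
    have h6 := (hI s).index (by omega) z hz h4 h5
    have h7 : ((psiL W (T.Y s) ((LD h s ^ (d - T.rk s - 2)) x) x : ℚ) : W.K) =
        ((T.Y s).V.degCycle (ops.mul z (divPow ops (T.D s) ((T.Y s).dim - 2) z)) : ℚ) := by
      have h8 := ops.mul_mem hz hz2
      rw [show 1 + (1 + ((T.Y s).dim - 2)) = (T.Y s).dim by omega] at h8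
      rw [psiL_spec, LD_pow, show d - T.rk s - 2 = (T.Y s).dim - 2 by omega, ← W.tr_cl h8,
        W.cl_mul, cl_divPow, hzx, x.2.comm]
    rw [Rat.cast_injective h7]
    exact h6

section Local

variable {Z : Type u} [AddCommGroup Z] [Module ℚ Z]
  {codimZ : ℕ → Submodule ℚ Z} {push : ∀ s, (T.Y s).Cycles →ₗ[ℚ] Z}
  {pull : ∀ s, Z →ₗ[ℚ] (T.Y s).Cycles}

/-- **Orthogonality from the Hodge index theorem.** -/
theorem Local.orthogonal_of_index (hL : Local T W d codimZ push pull) (hd : 3 ≤ d)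
    (hI : ∀ s, HodgeIndexTheorem W (T.Y s) (T.D s)) : Orthogonal T W push pull (d - 2) 1 := by
  classical
  have h := hL.semi
  have t := low h hd hI
  intro g hg x hx
  -- the classes
  set w : ∀ s, AQ W (T.Y s) := fun s => ⟨W.cl _ (g.1 s), AS.of ⟨g.1 s, (g.2 s).1, rfl⟩⟩ with hw
  have hwC : ∀ s, w s ∈ Aj W (T.Y s) 1 := fun s => ⟨g.1 s, (g.2 s).1, rfl⟩
  have hw0 : ∀ s, T.rk s ≠ 0 → w s = 0 := by
    intro s hs
    apply Subtype.ext
    change W.cl _ (g.1 s) = 0
    rw [(g.2 s).2 hs, map_zero]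
  have hGR : ∀ s, T.rk s = 0 → ∀ y : AQ W (T.Y s), (y : W.H (T.Y s)) ∈
      algClasses W (T.Y s) (d - 2) →
      psiL W (T.Y s) (∑ u, Gq T W u s (∑ v, Rq T W u v (w v))) y = 0 := by
    rintro s hs y ⟨f, hf, hfy⟩
    apply Rat.cast_injective (α := W.K)
    rw [psiL_spec, Rat.cast_zero, AddSubgroup.val_finsetSum]
    have h1 := hg s hs f hf
    rw [hL.cl_pull_vsum g hs, Finset.sum_comm, neg_mul, map_neg, neg_eq_zero, hfy] at h1
    rw [← h1]
    congr 2
    refine Finset.sum_congr rfl fun u _ => ?_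
    rw [← map_sum]
    change T.gysL W u s ((∑ v, Rq T W u v (w v) : AQ W (T.Y u)) : W.H (T.Y u)) = _
    rw [AddSubgroup.val_finsetSum]
    rfl
  have hpow : ∀ s, T.rk s = 0 → ∀ (j m : ℕ) (y : AQ W (T.Y s)), (y : W.H (T.Y s)) ∈
      algClasses W (T.Y s) j → (((LD h s ^ m) y : AQ W (T.Y s)) : W.H (T.Y s)) ∈
        algClasses W (T.Y s) (j + m) := by
    rintro s _ j m y ⟨f, hf, hfy⟩
    refine ⟨divPow ops (T.D s) m f, divPow_mem (ops := ops) (h.isCyc s) m hf, ?_⟩
    rw [cl_divPow, LD_pow, hfy]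
  obtain ⟨ψ, hψ, hψX⟩ := t.main hd hwC hw0 (fun s hs => hGR s hs _ (by
    have := hpow s hs 0 (d - 2) (oneQ W (T.Y s)) alg_one
    rwa [zero_add] at this)) (fun s hs => hGR s hs _ (by
    have := hpow s hs 1 (d - 3) (w s) (hwC s)
    rwa [show 1 + (d - 3) = d - 2 by omega] at this))
  -- the closed cochain
  set cψ : ∀ s, AQ W (T.Y s) := fun s => Low.cob (Rq T W) (fun s => oneQ W (T.Y s)) ψ s with hcψ
  have hcψ0 : ∀ s, T.rk s ≠ 2 → cψ s = 0 := fun s hs => t.cob_supp hψ hs
  set us : ∀ s, ℕ → AQ W (T.Y s) := fun s c => if c = 0 then w s else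
    if c = 1 then -cψ s else 0 with hus
  let U : Vs T.rk fun s => AQ W (T.Y s) :=
    ⟨fun s c => us s c, fun s c hc => by
      rw [hus]
      dsimp only
      rw [if_neg (by omega)]
      split_ifs with h1
      · rw [hcψ0 s (by omega), neg_zero]
      · rfl⟩
  have hU : opd (Rq T W) (Gq T W) U = 0 := by
    apply Vs.ext
    intro s c hc
    rw [opd_apply, if_pos hc]
    change (if 1 ≤ c then ∑ u, Rq T W s u (us u (c - 1)) else 0) +
      ∑ u, Gq T W u s (us u c) = 0
    rcases c with _ | _ | _ | c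
    · rw [if_neg (by omega), zero_add]
      refine Finset.sum_eq_zero fun u _ => ?_
      rw [hus]
      dsimp only
      rw [if_pos rfl]
      by_cases hu : T.rk u = 0
      · exact t.G_rk u s (by omega) _
      · rw [hw0 u hu, map_zero]
    · rw [if_pos (by omega)]
      have e1 : ∑ u, Rq T W s u (us u (0 + 1 - 1)) = ∑ u, Rq T W s u (w u) :=
        Finset.sum_congr rfl fun u _ => by rw [hus]; simp
      have e2 : ∑ u, Gq T W u s (us u (0 + 1)) = -∑ u, Gq T W u s (cψ u) := by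
        rw [← Finset.sum_neg_distrib]
        exact Finset.sum_congr rfl fun u _ => by rw [hus]; simp
      rw [e1, e2, hψX s, add_neg_cancel]
    · rw [if_pos (by omega)]
      have e1 : ∑ u, Rq T W s u (us u (0 + 1 + 1 - 1)) = -∑ u, Rq T W s u (cψ u) := by
        rw [← Finset.sum_neg_distrib]
        exact Finset.sum_congr rfl fun u _ => by rw [hus]; simp
      have e2 : ∑ u, Gq T W u s (us u (0 + 1 + 1)) = 0 :=
        Finset.sum_eq_zero fun u _ => by rw [hus]; simp
      rw [e1, e2, t.cob_cob, neg_zero, add_zero]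
    · rw [if_pos (by omega)]
      have e1 : ∑ u, Rq T W s u (us u (c + 1 + 1 + 1 - 1)) = 0 :=
        Finset.sum_eq_zero fun u _ => by rw [hus]; simp
      have e2 : ∑ u, Gq T W u s (us u (c + 1 + 1 + 1)) = 0 :=
        Finset.sum_eq_zero fun u _ => by rw [hus]; simp
      rw [e1, e2, add_zero]
  have key := Strata.orth h hx hU
  refine Eq.trans (Finset.sum_congr rfl fun s _ => ?_) key
  by_cases h0 : T.rk s = 0
  · rw [if_pos h0, if_pos h0]
    congr 2
  · rw [if_neg h0, if_neg h0]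

end Local

/-- **One-dimensional cycles.** -/
theorem lifts_of_index {M : Model.{u, v}} (hM : IsModel M d) (hd : 3 ≤ d)
    (hI : HodgeIndexOnStrata M) : LiftsOrthogonally M.toCyclesOn d (d - 1) := by
  have h1 := lifts_of_orthogonal hM (p := d - 2) (q := 1) (by omega) fun v hv =>
    (hM.fibre v).loc.orthogonal_of_index hd (hI v hv)
  rwa [show d - 2 + 1 = d - 1 by omega] at h1

end Pool.Agent.K9h28.Ort
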