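import Pool.Agent.K9h28.OrtN
import Pool.Agent.K9h28.OrtLow3
import Pool.Agent.K9h28.OrtDefs3

/-!
# Models whose double varieties have the index property
-/

set_option autoImplicit false
set_option linter.unusedSectionVars false

open CategoryTheory AlgebraicGeometry Finset

universe u v

namespace Pool.Agent.K9h28.Ort

open Pool.Agent.H914 Pool.Agent.H914.VarClass Pool.Agent.H914.VarClass.Obj
  Pool.Agent.H914.WeilCohomology Pool.Agent.H281R3.HT Pool.Agent.W552

variable {k : Type u} [Field k] {𝒱 : VarClass k} {ops : CycleOps 𝒱}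
  {T : Strata 𝒱} {W : WeilCohomology.{u, v} ops} {d : ℕ}

lemma Rq_mem' (s u : T.S) {j : ℕ} {x : AQ W (T.Y u)} (hx : x ∈ Aj W (T.Y u) j) :
    Rq T W s u x ∈ Aj W (T.Y s) j := by
  change T.resL W s u (x : W.H (T.Y u)) ∈ algClasses W (T.Y s) j
  by_cases hs : T.sgn s u ≠ 0
  · rw [Strata.res_of hs]
    have := alg_smul (W := W) (T.sgn s u : ℚ) (alg_map (T.incl s u hs) hx)
    rwa [Rat.cast_intCast] at this
  · rw [Strata.res_not hs]
    exact alg_zero j

lemma Gq_mem (h : T.IsSemi W d) (s u : T.S) {j : ℕ} {x : AQ W (T.Y s)}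
    (hx : x ∈ Aj W (T.Y s) j) : Gq T W s u x ∈ Aj W (T.Y u) (j + 1) := by
  change T.gysL W s u (x : W.H (T.Y s)) ∈ algClasses W (T.Y u) (j + 1)
  by_cases hs : T.sgn s u ≠ 0
  · rw [Strata.gys_of hs]
    have h1 := Strata.dim_succ h hs
    obtain ⟨z, hz, hzx⟩ := hx
    have h2 : W.push (T.incl s u hs) (x : W.H (T.Y s)) ∈ algClasses W (T.Y u) (j + 1) :=
      ⟨ops.push (T.incl s u hs) z, ops.push_mem _ hz (by omega), by rw [W.cl_push, hzx]⟩
    have := alg_smul (W := W) (T.sgn s u : ℚ) h2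
    rwa [Rat.cast_intCast] at this
  · rw [Strata.gys_not hs]
    exact alg_zero (j + 1)

lemma LD_mem (h : T.IsSemi W d) (s : T.S) (j m : ℕ) (y : AQ W (T.Y s))
    (hy : (y : W.H (T.Y s)) ∈ algClasses W (T.Y s) j) :
    (((LD h s ^ m) y : AQ W (T.Y s)) : W.H (T.Y s)) ∈ algClasses W (T.Y s) (j + m) := by
  obtain ⟨f, hf, hfy⟩ := hy
  refine ⟨divPow ops (T.D s) m f, divPow_mem (ops := ops) (h.isCyc s) m hf, ?_⟩
  rw [cl_divPow, LD_pow, hfy]

section Local

variable {Z : Type u} [AddCommGroup Z] [Module ℚ Z]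
  {codimZ : ℕ → Submodule ℚ Z} {push : ∀ s, (T.Y s).Cycles →ₗ[ℚ] Z}
  {pull : ∀ s, Z →ₗ[ℚ] (T.Y s).Cycles}

/-- **Orthogonality from the index property of the double varieties.** -/
theorem Local.orthogonal_of_double (hL : Local T W d codimZ push pull) (hd : 3 ≤ d)
    (hI : ∀ s, HodgeIndexTheorem W (T.Y s) (T.D s)) {p q : ℕ}
    (hN : ∀ s, T.rk s = 1 → IndexProperty W (T.Y s) (T.D s) q) (hq : 1 ≤ q)
    (hpq : p + q + 1 = d) : Orthogonal T W push pull p q := by
  classical
  have h := hL.semi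
  have t := low h hd hI
  intro g hg x hx
  -- the classes
  set w : ∀ s, AQ W (T.Y s) := fun s => ⟨W.cl _ (g.1 s), AS.of ⟨g.1 s, (g.2 s).1, rfl⟩⟩ with hw
  have hwC : ∀ s, w s ∈ Aj W (T.Y s) q := fun s => ⟨g.1 s, (g.2 s).1, rfl⟩
  have hw0 : ∀ s, T.rk s ≠ 0 → w s = 0 := by
    intro s hs
    apply Subtype.ext
    change W.cl _ (g.1 s) = 0
    rw [(g.2 s).2 hs, map_zero]
  have hGR : ∀ s, T.rk s = 0 → ∀ y : AQ W (T.Y s), (y : W.H (T.Y s)) ∈
      algClasses W (T.Y s) p →
      psiL W (T.Y s) (∑ u, Gq T W u s (∑ v, Rq T W u v (w v))) y = 0 := by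
    rintro s hs y ⟨f, hf, hfy⟩
    apply Rat.cast_injective (α := W.K)
    rw [psiL_spec, Rat.cast_zero, AddSubgroup.val_finsetSum]
    have h1 := hg s hs f hf
    rw [hL.cl_pull_vsum g hs, Finset.sum_comm, neg_mul, map_neg, neg_eq_zero, hfy] at h1
    rw [← h1]
    congr 2
    refine Finset.sum_congr rfl fun u _ => ?_
    rw [← map_sum]
    change T.gysL W u s ((∑ v, Rq T W u v (w v) : AQ W (T.Y u)) : W.H (T.Y u)) = _
    rw [AddSubgroup.val_finsetSum]
    rfl
  have hone : ∀ s, (((LD h s ^ p) (oneQ W (T.Y s)) : AQ W (T.Y s)) : W.H (T.Y s)) ∈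
      algClasses W (T.Y s) p := by
    intro s
    have := LD_mem h s 0 p (oneQ W (T.Y s)) alg_one
    rwa [zero_add] at this
  obtain ⟨ψ, hψ, hψX⟩ := t.main_gen (p := p) (m := q) (C' := fun s => Aj W (T.Y s) q) hq hpq hw0
    (fun s => Submodule.sum_mem _ fun v _ => Rq_mem' s v (hwC v))
    (fun s ψ hψ => Submodule.sum_mem _ fun c _ => by
      have h1 : ((Low.cob (Rq T W) (fun s => oneQ W (T.Y s)) ψ c : AQ W (T.Y c)) :
          W.H (T.Y c)) ∈ algClasses W (T.Y c) 0 := by
        have h2 : Low.cob (Rq T W) (fun s => oneQ W (T.Y s)) ψ c ∈ Aj W (T.Y c) 0 := by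
          rw [t.cob_eq]
          exact Submodule.smul_mem _ _ alg_one
        exact h2
      have h3 := LD_mem h c 0 (q - 1) _ h1
      have h4 := Gq_mem h c s (x := (LD h c ^ (q - 1))
        (Low.cob (Rq T W) (fun s => oneQ W (T.Y s)) ψ c)) h3
      rwa [show 0 + (q - 1) + 1 = q by omega] at h4)
    (by
      intro s hs1 x hx hdeg hx0
      obtain ⟨z, hz, hzr⟩ := hx
      have hdim := h.dim_add s
      have hdim' : p + q = (T.Y s).dim := by omega
      have h1 : W.cl _ (divPow ops (T.D s) p z) = 0 := by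
        have h2 := divPow_mem (ops := ops) (h.isCyc s) p hz
        rw [show q + p = (T.Y s).dim by omega] at h2
        apply eq_zero_of_top (W.cl_mem h2)
        have h3 := congrArg (Rat.cast : ℚ → W.K) hdeg
        rw [psiL_spec, LD_pow, Rat.cast_zero] at h3
        rw [cl_divPow, hzr]
        change W.tr _ (_ * 1) = 0 at h3
        rwa [mul_one] at h3
      have h2 : W.cl _ z ≠ 0 := by
        rw [hzr]
        intro h0
        exact hx0 (Subtype.ext h0)
      obtain ⟨h3, h4⟩ := hN s hs1 p z hdim' hz h1 h2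
      refine ⟨h3, ?_⟩
      have h5 : ((psiL W (T.Y s) ((LD h s ^ (p - q)) x) x : ℚ) : W.K) =
          ((T.Y s).V.degCycle (ops.mul (divPow ops (T.D s) (p - q) z) z) : ℚ) := by
        have h6 := ops.mul_mem (divPow_mem (ops := ops) (h.isCyc s) (p - q) hz) hz
        rw [show q + (p - q) + q = (T.Y s).dim by omega] at h6
        rw [psiL_spec, ← W.tr_cl h6, W.cl_mul, cl_divPow, LD_pow, hzr]
      rw [Rat.cast_injective h5]
      exact h4)
    (fun s hs => hGR s hs _ (hone s))
    (fun hqp s hs => hGR s hs _ (by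
      have := LD_mem h s q (p - q) (w s) (hwC s)
      rwa [show q + (p - q) = p by omega] at this))
  -- the closed cochain
  set cψ : ∀ s, AQ W (T.Y s) := fun s =>
    (LD h s ^ (q - 1)) (Low.cob (Rq T W) (fun s => oneQ W (T.Y s)) ψ s) with hcψ
  have hcψ0 : ∀ s, T.rk s ≠ 2 → cψ s = 0 := fun s hs => by
    rw [hcψ]
    dsimp only
    rw [t.cob_supp hψ hs, map_zero]
  have hRcψ : ∀ s, ∑ u, Rq T W s u (cψ u) = 0 := by
    intro s
    have e1 : ∀ u, Rq T W s u (cψ u) =
        (LD h s ^ (q - 1)) (Rq T W s u (Low.cob (Rq T W) (fun s => oneQ W (T.Y s)) ψ u)) :=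
      fun u => (t.R_L_pow s u (q - 1) _).symm
    rw [Finset.sum_congr rfl fun u _ => e1 u, ← map_sum, t.cob_cob, map_zero]
  set us : ∀ s, ℕ → AQ W (T.Y s) := fun s c => if c = 0 then w s else
    if c = 1 then -cψ s else 0 with hus
  let U : Vs T.rk fun s => AQ W (T.Y s) :=
    ⟨fun s c => us s c, fun s c hc => by
      rw [hus]
      dsimp only
      rw [if_neg (by omega)]
      split_ifs with h1
      · rw [hcψ0 s (by omega), neg_zero]
      · rfl⟩
  have hU : opd (Rq T W) (Gq T W) U = 0 := by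
    apply Vs.ext
    intro s c hc
    rw [opd_apply, if_pos hc]
    change (if 1 ≤ c then ∑ u, Rq T W s u (us u (c - 1)) else 0) +
      ∑ u, Gq T W u s (us u c) = 0
    rcases c with _ | _ | _ | c
    · rw [if_neg (by omega), zero_add]
      refine Finset.sum_eq_zero fun u _ => ?_
      rw [hus]
      dsimp only
      rw [if_pos rfl]
      by_cases hu : T.rk u = 0
      · exact t.G_rk u s (by omega) _
      · rw [hw0 u hu, map_zero]
    · rw [if_pos (by omega)]
      have e1 : ∑ u, Rq T W s u (us u (0 + 1 - 1)) = ∑ u, Rq T W s u (w u) :=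
        Finset.sum_congr rfl fun u _ => by rw [hus]; simp
      have e2 : ∑ u, Gq T W u s (us u (0 + 1)) = -∑ u, Gq T W u s (cψ u) := by
        rw [← Finset.sum_neg_distrib]
        exact Finset.sum_congr rfl fun u _ => by rw [hus]; simp
      rw [e1, e2, hψX s, add_neg_cancel]
    · rw [if_pos (by omega)]
      have e1 : ∑ u, Rq T W s u (us u (0 + 1 + 1 - 1)) = -∑ u, Rq T W s u (cψ u) := by
        rw [← Finset.sum_neg_distrib]
        exact Finset.sum_congr rfl fun u _ => by rw [hus]; simp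
      have e2 : ∑ u, Gq T W u s (us u (0 + 1 + 1)) = 0 :=
        Finset.sum_eq_zero fun u _ => by rw [hus]; simp
      rw [e1, e2, hRcψ, neg_zero, add_zero]
    · rw [if_pos (by omega)]
      have e1 : ∑ u, Rq T W s u (us u (c + 1 + 1 + 1 - 1)) = 0 :=
        Finset.sum_eq_zero fun u _ => by rw [hus]; simp
      have e2 : ∑ u, Gq T W u s (us u (c + 1 + 1 + 1)) = 0 :=
        Finset.sum_eq_zero fun u _ => by rw [hus]; simp
      rw [e1, e2, add_zero]
  have key := Strata.orth h hx hU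
  refine Eq.trans (Finset.sum_congr rfl fun s _ => ?_) key
  by_cases h0 : T.rk s = 0
  · rw [if_pos h0, if_pos h0]
    congr 2
  · rw [if_neg h0, if_neg h0]

end Local

/-- **Models whose double varieties have the index property.** -/
theorem lifts_of_double {M : Model.{u, v}} (hM : IsModel M d) (hI : HodgeIndexOnStrata M) {i : ℕ}
    (hi : 1 ≤ i) (hi' : i + 2 ≤ d) (hN : DoubleVarieties M (d - i)) :
    LiftsOrthogonally M.toCyclesOn d i := by
  have h1 := lifts_of_orthogonal hM (p := i - 1) (q := d - i) (by omega) fun v hv =>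
    (hM.fibre v).loc.orthogonal_of_double (by omega) (hI v hv) (hN v hv) (by omega) (by omega)
  rwa [show i - 1 + 1 = i by omega] at h1

end Pool.Agent.K9h28.Ort
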