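import Pool.Agent.H914R2.StdDefs

/-!
# Restrictions to the fibres of a family: definitions
-/

set_option autoImplicit false

open CategoryTheory AlgebraicGeometry

universe u v

namespace Pool.Agent.K9h28.Sf

open Pool.Agent.H914 Pool.Agent.H914.VarClass Pool.Agent.H914.VarClass.Obj

variable {k : Type u} [Field k] {𝒱 : VarClass k} {ops : CycleOps 𝒱}
  (W : WeilCohomology.{u, v} ops) {V X : 𝒱.Obj}

/-- The class `x` is zero. -/
def IsZero (x : W.H X) : Prop := x = 0

/-- The class `x` is of degree `i`. -/
def OfDegree (i : ℕ) (x : W.H X) : Prop := x ∈ W.gr X i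

/-- The inverse image of the class `x` on `V`. -/
noncomputable def pb (f : X ⟶ V) (x : W.H V) : W.H X := W.map f x

/-- The direct image of the class `x` on `X`. -/
noncomputable def pf (f : X ⟶ V) (x : W.H X) : W.H V := W.push f x

/-- The class `a` on `X` is the inverse image of a class of degree `i` on `V`. If `f` is the inclusion
of a smooth fibre of a family `V → B`, where `V` and `B` are projective and `V` is smooth, then these
are the classes invariant under the monodromy (theorem of the fixed part). -/
def IsRestriction (f : X ⟶ V) (i : ℕ) (a : W.H X) : Prop := ∃ x, OfDegree W i x ∧ pb W f x = a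

/-- The classes of degree `i` on `V` whose inverse images on all the `Y s` are zero have inverse image
zero on `X`. -/
def VanishesWith {S : Type} {Y : S → 𝒱.Obj} (f : X ⟶ V) (g : ∀ s, Y s ⟶ V) (i : ℕ) : Prop :=
  ∀ x, OfDegree W i x → (∀ s, IsZero W (pb W (g s) x)) → IsZero W (pb W f x)

/-- If the direct image of the inverse image on `X` of a class of degree `i` on `V` is zero, then the
inverse image is zero. -/
def NoIsotropic (f : X ⟶ V) (i : ℕ) : Prop :=
  ∀ x, OfDegree W i x → IsZero W (pf W f (pb W f x)) → IsZero W (pb W f x)

end Pool.Agent.K9h28.Sf
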