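import Mathlib

/-!
# Extension of the coefficients and systems of linear equations
-/

set_option autoImplicit false

open TensorProduct Module

namespace Pool.Agent.K9h28.Sf

section

variable {K L M N P : Type*} [Field K] [Field L] [Algebra K L] [AddCommGroup M] [Module K M]
  [AddCommGroup N] [Module K N] [AddCommGroup P] [Module K P]

/-- A linear map which vanishes on the kernel of `G` factors through `G`. -/
lemma exists_factor (G : M →ₗ[K] N) (F : M →ₗ[K] P)
    (h : LinearMap.ker G ≤ LinearMap.ker F) : ∃ H : N →ₗ[K] P, H ∘ₗ G = F := by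
  let G' : (M ⧸ LinearMap.ker G) →ₗ[K] N := (LinearMap.ker G).liftQ G le_rfl
  have hG' : LinearMap.ker G' = ⊥ := Submodule.ker_liftQ_eq_bot _ _ _ le_rfl
  obtain ⟨r, hr⟩ := G'.exists_leftInverse_of_injective hG'
  refine ⟨(LinearMap.ker G).liftQ F h ∘ₗ r, ?_⟩
  ext m
  have h1 : r (G m) = (LinearMap.ker G).mkQ m := by
    have h2 := LinearMap.congr_fun hr ((LinearMap.ker G).mkQ m)
    simpa [G'] using h2
  rw [LinearMap.comp_apply, LinearMap.comp_apply, h1]
  simp

/-- A system of linear equations over `K` which has a solution over `L` has a solution over `K`. -/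
lemma mem_range_of_base {G : M →ₗ[K] N} {n : N}
    (h : ((1 : L) ⊗ₜ[K] n) ∈ LinearMap.range (G.baseChange L)) : n ∈ LinearMap.range G := by
  by_contra hn
  obtain ⟨φ', hφ', hr'⟩ := Submodule.exists_dual_map_eq_bot_of_notMem hn inferInstance
  obtain ⟨φ, hφ, hr⟩ : ∃ φ : N →ₗ[K] K, φ n ≠ 0 ∧ (LinearMap.range G).map φ = ⊥ :=
    ⟨φ', hφ', hr'⟩
  obtain ⟨z, hz⟩ := h
  have h0 : φ ∘ₗ G = 0 := by
    ext m
    have h2 : φ (G m) ∈ (LinearMap.range G).map φ :=
      Submodule.mem_map_of_mem (LinearMap.mem_range_self G m)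
    rw [hr, Submodule.mem_bot] at h2
    simpa using h2
  have h1 : LinearMap.baseChange L φ (LinearMap.baseChange L G z) = 0 := by
    rw [← LinearMap.comp_apply, ← LinearMap.baseChange_comp, h0, LinearMap.baseChange_zero]
    rfl
  rw [hz, LinearMap.baseChange_tmul] at h1
  apply hφ
  have h3 : (TensorProduct.rid K L) ((1 : L) ⊗ₜ[K] φ n) = 0 := by rw [h1, map_zero]
  rw [TensorProduct.rid_tmul] at h3
  rw [Algebra.smul_def, mul_one] at h3
  exact (map_eq_zero _).1 h3

end

section

variable {K L : Type*} [Field K] [Field L] [Algebra K L] {S : Type} [Fintype S] [DecidableEq S]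
  {N : S → Type*} [∀ s, AddCommGroup (N s)] [∀ s, Module K (N s)]

/-- An element of `L ⊗ ∏ N s` is determined by its components. -/
lemma eq_sum_comp (x : L ⊗[K] (∀ s, N s)) :
    x = ∑ s, (LinearMap.single K N s).baseChange L ((LinearMap.proj s).baseChange L x) := by
  induction x using TensorProduct.induction_on with
  | zero => simp
  | add a b ha hb =>
    have h1 : ∑ s, (LinearMap.single K N s).baseChange L ((LinearMap.proj s).baseChange L (a + b)) =
      ∑ s, (LinearMap.single K N s).baseChange L ((LinearMap.proj s).baseChange L a) +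
      ∑ s, (LinearMap.single K N s).baseChange L ((LinearMap.proj s).baseChange L b) := by
      rw [← Finset.sum_add_distrib]
      exact Finset.sum_congr rfl fun s _ => by rw [map_add, map_add]
    rw [h1, ← ha, ← hb]
  | tmul l n =>
    have h1 : ∀ s, (LinearMap.single K N s).baseChange L ((LinearMap.proj s).baseChange L
        (l ⊗ₜ[K] n)) = l ⊗ₜ[K] (LinearMap.single K N s (n s)) := fun s => by
      rw [LinearMap.baseChange_tmul, LinearMap.baseChange_tmul, LinearMap.proj_apply]
    rw [Finset.sum_congr rfl fun s _ => h1 s, ← TensorProduct.tmul_sum]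
    congr 1
    exact (Finset.univ_sum_single n).symm

lemma eq_of_comp {x y : L ⊗[K] (∀ s, N s)}
    (h : ∀ s, (LinearMap.proj s : (∀ s, N s) →ₗ[K] N s).baseChange L x =
      (LinearMap.proj s : (∀ s, N s) →ₗ[K] N s).baseChange L y) : x = y := by
  rw [eq_sum_comp x, eq_sum_comp y]
  exact Finset.sum_congr rfl fun s _ => by rw [h s]

end

section

variable {K U V : Type*} [Field K] [AddCommGroup U] [Module K U] [AddCommGroup V] [Module K V]
  [FiniteDimensional K U]

/-- A linear form `φ` on `V` which vanishes on the orthogonal complement of `U` is given by an element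
of `U`. -/
lemma exists_of_annihilates (A : U →ₗ[K] Dual K V) (φ : Dual K V)
    (h : ∀ y, (∀ x, A x y = 0) → φ y = 0) : ∃ x, A x = φ := by
  have h1 : φ ∈ (LinearMap.range A).dualCoannihilator.dualAnnihilator := by
    rw [Submodule.mem_dualAnnihilator]
    intro y hy
    rw [Submodule.mem_dualCoannihilator] at hy
    exact h y fun x => hy _ (LinearMap.mem_range_self A x)
  rw [Subspace.dualCoannihilator_dualAnnihilator_eq] at h1
  exact h1

end

end Pool.Agent.K9h28.Sf
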