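import Pool.Agent.Y121.AH.HR
import Pool.Agent.K9h28.SfDefs
import Pool.Agent.K9h28.SfLin

/-!
# Absolutely Hodge classes and singular fibres
-/

set_option autoImplicit false

open CategoryTheory AlgebraicGeometry TensorProduct

universe u

namespace Pool.Agent.K9h28.Sf

open Module
open Pool.Agent.H914 Pool.Agent.H914.VarClass Pool.Agent.H914.VarClass.Obj
  Pool.Agent.H914.WeilCohomology
open Pool.Agent.Y133.Half Pool.Agent.Y121.AH

variable {k : Type u} [Field k] {𝒱 : VarClass k} {ops : CycleOps 𝒱} {V X : 𝒱.Obj}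
  {S : Type} {Y : S → 𝒱.Obj}

section Base

variable {W : WeilCohomology.{u, 0} ops} {L : Type} [Field L] [Algebra W.K L]

/-- The inverse image for classes of degree `i`. -/
noncomputable def mp (W : WeilCohomology.{u, 0} ops) (f : X ⟶ V) (i : ℕ) :
    W.gr V i →ₗ[W.K] W.H X := (W.map f).toLinearMap ∘ₗ (W.gr V i).subtype

lemma base_map (f : X ⟶ V) (i : ℕ) (z : L ⊗[W.K] W.gr V i) :
    (baseW W L).map f ((W.gr V i).subtype.baseChange L z) = (mp W f i).baseChange L z := by
  induction z using TensorProduct.induction_on with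
  | zero => rw [map_zero, map_zero]; exact map_zero _
  | add a b ha hb => rw [map_add, map_add, ← ha, ← hb]; exact map_add _ _ _
  | tmul r c =>
    rw [LinearMap.baseChange_tmul, LinearMap.baseChange_tmul]
    exact Algebra.TensorProduct.map_tmul _ _ _ _

/-- The inverse images on all `Y s`. -/
noncomputable def mps (W : WeilCohomology.{u, 0} ops) (g : ∀ s, Y s ⟶ V) (i : ℕ) :
    W.gr V i →ₗ[W.K] (∀ s, W.H (Y s)) := LinearMap.pi fun s => mp W (g s) i

lemma proj_mps (g : ∀ s, Y s ⟶ V) (i : ℕ) (s : S) (z : L ⊗[W.K] W.gr V i) :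
    (LinearMap.proj s : (∀ s, W.H (Y s)) →ₗ[W.K] W.H (Y s)).baseChange L
      ((mps W g i).baseChange L z) = (mp W (g s) i).baseChange L z := by
  rw [← LinearMap.comp_apply, ← LinearMap.baseChange_comp]
  rfl

variable [Fintype S]

/-- The condition on the kernels with extended coefficients. -/
lemma vanish_base {f : X ⟶ V} {g : ∀ s, Y s ⟶ V} {i : ℕ} (hK : VanishesWith W f g i)
    {z : (baseW W L).H V} (hz : z ∈ (baseW W L).gr V i)
    (h : ∀ s, (baseW W L).map (g s) z = 0) : (baseW W L).map f z = 0 := by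
  classical
  have h1 : z ∈ LinearMap.range ((W.gr V i).subtype.baseChange L) := hz
  obtain ⟨z', rfl⟩ := h1
  obtain ⟨H, hH⟩ := exists_factor (mps W g i) (mp W f i) (by
    intro x hx
    rw [LinearMap.mem_ker] at hx ⊢
    refine hK x.1 x.2 fun s => ?_
    exact congrFun hx s)
  rw [base_map, ← hH, LinearMap.baseChange_comp, LinearMap.comp_apply]
  have h2 : (mps W g i).baseChange L z' = 0 := by
    apply eq_of_comp
    intro s
    rw [proj_mps, map_zero, ← base_map]
    exact h s
  rw [h2]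
  exact map_zero _

/-- Descent of solutions. -/
lemma descend {g : ∀ s, Y s ⟶ V} {i : ℕ} {z : (baseW W L).H V}
    (hz : z ∈ (baseW W L).gr V i) {c : ∀ s, W.H (Y s)}
    (h : ∀ s, (baseW W L).map (g s) z = em W L (c s)) :
    ∃ x ∈ W.gr V i, ∀ s, W.map (g s) x = c s := by
  classical
  have h1 : z ∈ LinearMap.range ((W.gr V i).subtype.baseChange L) := hz
  obtain ⟨z', rfl⟩ := h1
  have h2 : (mps W g i).baseChange L z' = (1 : L) ⊗ₜ[W.K] c := by
    apply eq_of_comp
    intro s
    rw [proj_mps, LinearMap.baseChange_tmul, ← base_map]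
    exact h s
  obtain ⟨x, hx⟩ := mem_range_of_base (L := L) (G := mps W g i) (n := c) ⟨z', h2⟩
  exact ⟨x.1, x.2, fun s => congrFun hx s⟩

/-- The condition on the kernels does not depend on the theory. -/
lemma vanish_conj {W' : WeilCohomology.{u, 0} ops} [Algebra W'.K L]
    (C : Comparison (baseW W L) (baseW W' L)) {f : X ⟶ V} {g : ∀ s, Y s ⟶ V} {i : ℕ}
    (hK : VanishesWith W f g i) : VanishesWith W' f g i := by
  intro x hx h0'
  have h0 : ∀ s, W'.map (g s) x = 0 := h0'
  change W'.map f x = 0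
  obtain ⟨z, hz⟩ := (C.e V).surjective (em W' L x)
  have hz' : z ∈ (baseW W L).gr V i := C.gr.1 (by rw [hz]; exact em_gr hx)
  have h1 : ∀ s, (baseW W L).map (g s) z = 0 := by
    intro s
    apply (C.e (Y s)).injective
    rw [C.nat, hz, em_map, h0 s, em_zero, map_zero]
  have h2 := vanish_base hK hz' h1
  apply em_injective (L := L)
  rw [← em_map, ← hz, ← C.nat, h2, map_zero]

end Base

variable {T : HodgeTheory ops} [Fintype S]

/-- A class on `V` which is Hodge on all `Y s` is Hodge on `X`. -/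
lemma hodge_of {f : X ⟶ V} {g : ∀ s, Y s ⟶ V} {j : ℕ}
    (hK : VanishesWith T.W f g (2 * j)) {x : T.W.H V} (hx : x ∈ T.W.gr V (2 * j))
    (h : ∀ s, IsHodge T (Y s) j (T.W.map (g s) x)) : IsHodge T X j (T.W.map f x) := by
  refine isHodge_of_fix (T.W.map_mem f hx) ?_
  rw [← sub_eq_zero, ← em_map, gop_map, ← map_sub]
  apply vanish_base hK
  · exact Submodule.sub_mem _ (gop_gr hx) (em_gr hx)
  · intro s
    rw [map_sub, ← gop_map, em_map, gop_hodge (h s), sub_self]

/-- **Principle B at a singular fibre**: a class on `V` which is absolutely Hodge on all `Y s` is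
absolutely Hodge on `X`. -/
theorem abs_of (D : Conjugates T) {f : X ⟶ V} {g : ∀ s, Y s ⟶ V} {j : ℕ}
    (hK : VanishesWith T.W f g (2 * j)) {x : T.W.H V} (hx : x ∈ T.W.gr V (2 * j))
    (h : ∀ s, IsAbsHodge D (Y s) j (T.W.map (g s) x)) : IsAbsHodge D X j (T.W.map f x) := by
  classical
  have h0 : ∀ s, IsHodge T (Y s) j (T.W.map (g s) x) := fun s => (h s).1
  choose c hc hcc using fun s => (h s).2
  refine ⟨hodge_of hK hx h0, ?_⟩
  -- the classes on `V` in the conjugate theories
  have hK' : ∀ a, VanishesWith (D.T' (D.t a)).W f g (2 * j) := fun a => vanish_conj (D.cmp a) hK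
  have hex : ∀ i, ∃ y : (D.T' i).W.H V, y ∈ (D.T' i).W.gr V (2 * j) ∧
      ((∃ a, D.t a = i) → VanishesWith (D.T' i).W f g (2 * j) ∧
        ∀ s, (D.T' i).W.map (g s) y = c s i) := by
    intro i
    by_cases hi : ∃ a, D.t a = i
    · obtain ⟨a, rfl⟩ := hi
      have hz : ((D.cmp a).c ^ j)⁻¹ • (D.cmp a).e V (em T.W (D.L a) x) ∈
          (baseW (D.T' (D.t a)).W (D.L a)).gr V (2 * j) :=
        Submodule.smul_mem _ _ ((D.cmp a).gr.2 (em_gr hx))
      obtain ⟨y, hy, hys⟩ := descend (g := g) (c := fun s => c s (D.t a)) hz (by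
        intro s
        have h1 := hcc s a
        rw [Corresponds, ← em_map, (D.cmp a).nat] at h1
        rw [map_smul, h1, smul_smul, inv_mul_cancel₀ (pow_ne_zero _ (D.cmp a).ne), one_smul])
      exact ⟨y, hy, fun _ => ⟨hK' a, hys⟩⟩
    · exact ⟨0, Submodule.zero_mem _, fun h' => absurd h' hi⟩
  choose y hy hys using hex
  have hex2 : ∀ i, ∃ y' : (D.T' i).W.H X, IsHodge (D.T' i) X j y' ∧
      ((∃ a, D.t a = i) → y' = (D.T' i).W.map f (y i)) := by
    intro i
    by_cases hi : ∃ a, D.t a = i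
    · refine ⟨_, hodge_of (hys i hi).1 (hy i) (fun s => ?_), fun _ => rfl⟩
      rw [(hys i hi).2 s]
      exact hc s i
    · exact ⟨0, IsHodge.zero, fun h' => absurd h' hi⟩
  choose y' hy' hyy using hex2
  refine ⟨y', hy', fun a => ?_⟩
  rw [hyy (D.t a) ⟨a, rfl⟩, Corresponds, ← sub_eq_zero, ← em_map, ← em_map, (D.cmp a).nat,
    ← map_smul, ← map_sub]
  apply vanish_base (hK' a)
  · exact Submodule.sub_mem _ ((D.cmp a).gr.2 (em_gr hx)) (Submodule.smul_mem _ _ (em_gr (hy _)))
  · intro s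
    have h1 := hcc s a
    rw [Corresponds, ← em_map, (D.cmp a).nat] at h1
    rw [map_sub, map_smul, em_map, h1, (hys (D.t a) ⟨a, rfl⟩).2 s, sub_self]

/-- Classes on `X` with a property `Q` which are inverse images of classes on `V` are inverse images
of classes on `V` with the property `Q`. -/
theorem lift_class {Q : ClassPred T.W}
    (hQ : ∀ {X : 𝒱.Obj} {j : ℕ} {x : T.W.H X}, Q.P X j x → IsHodge T X j x) (hlift : Lifts T Q)
    {f : X ⟶ V} {j : ℕ} (hS : ∀ l, l = j ∨ l + j = X.dim → NoIsotropic T.W f (2 * l))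
    {x : T.W.H V} (hx : x ∈ T.W.gr V (2 * j)) (h : Q.P X j (T.W.map f x)) :
    ∃ y, Q.P V j y ∧ T.W.map f y = T.W.map f x := by
  classical
  by_cases hj : j ≤ X.dim
  swap
  · refine ⟨0, Q.zero, ?_⟩
    have h1 := Q.gr h
    rw [T.W.gr_eq_bot X (2 * j) (by omega)] at h1
    rw [(Submodule.mem_bot _).1 h1, map_zero]
  obtain ⟨l, hl⟩ : ∃ l, l + j = X.dim := ⟨X.dim - j, by omega⟩
  -- the classes with the property `Q`
  let A : ℕ → Submodule T.W.K (T.W.H V) := fun i =>
    { carrier := {y | Q.P V i y}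
      add_mem' := fun ha hb => Q.add ha hb
      zero_mem' := Q.zero
      smul_mem' := fun r _ ha => Q.smul r ha }
  have hA : ∀ i y, y ∈ A i ↔ Q.P V i y := fun i y => Iff.rfl
  -- the orthogonality
  have key : ∀ i i', i + i' = X.dim → ∀ y, Q.P X i y →
      (∀ z ∈ A i', T.W.tr X (y * T.W.map f z) = 0) → T.W.push f y = 0 := by
    intro i i' hii y hy hz
    by_cases hi : i' ≤ V.dim
    · have h1 : Q.P V (V.dim - i') (T.W.push f y) := Q.push f (by omega) hy
      refine q_nondeg hQ hlift (j := V.dim - i') (l := i') (by omega) h1 fun z hz' => ?_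
      rw [T.W.tr_push]
      exact hz z hz'
    · have h2 := T.W.push_mem f (Q.gr hy)
      rw [grZ_of_neg (by push_cast; omega), Submodule.mem_bot] at h2
      exact h2
  let B : A j →ₗ[T.W.K] Dual T.W.K (A l) :=
    LinearMap.mk₂ T.W.K (fun (a : A j) (b : A l) => T.W.tr X (T.W.map f a.1 * T.W.map f b.1))
      (fun a a' b => by simp [add_mul]) (fun r a b => by simp)
      (fun a b b' => by simp [mul_add]) (fun r a b => by simp)
  let φ : Dual T.W.K (A l) :=
    { toFun := fun b => T.W.tr X (T.W.map f x * T.W.map f b.1)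
      map_add' := fun b b' => by simp [mul_add]
      map_smul' := fun r b => by simp }
  obtain ⟨y, hy⟩ := exists_of_annihilates B φ (by
    intro b hb
    have h1 : T.W.push f (T.W.map f b.1) = 0 := by
      refine key l j hl _ (Q.map f b.2) fun z hz => ?_
      have h2 := hb ⟨z, hz⟩
      have h3 : T.W.tr X (T.W.map f z * T.W.map f b.1) = 0 := h2
      rwa [T.W.even_comm (Q.gr (Q.map f b.2))]
    have h2 : T.W.map f b.1 = 0 := hS l (Or.inr hl) b.1 (Q.gr b.2) h1
    change T.W.tr X (T.W.map f x * T.W.map f b.1) = 0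
    rw [h2, mul_zero, map_zero])
  refine ⟨y.1, y.2, ?_⟩
  have h1 : T.W.push f (T.W.map f (x - y.1)) = 0 := by
    refine key j l (by omega) _ ?_ fun z hz => ?_
    · rw [map_sub]
      exact q_sub h (Q.map f y.2)
    · have h2 := LinearMap.congr_fun hy ⟨z, hz⟩
      have h3 : T.W.tr X (T.W.map f y.1 * T.W.map f z) = T.W.tr X (T.W.map f x * T.W.map f z) := h2
      rw [map_sub, sub_mul, map_sub, h3, sub_self]
  have h2 : T.W.map f (x - y.1) = 0 :=
    hS j (Or.inl rfl) (x - y.1) (Submodule.sub_mem _ hx (Q.gr y.2)) h1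
  rw [map_sub, sub_eq_zero] at h2
  exact h2.symm

end Pool.Agent.K9h28.Sf
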