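import Pool.Agent.Y121.AHS.Conv2
import Pool.Agent.K9h28.SfA

/-!
# Absolutely Hodge classes and singular fibres: the theorem
-/

set_option autoImplicit false

open CategoryTheory AlgebraicGeometry TensorProduct

universe u

namespace Pool.Agent.K9h28.Sf

open Module
open Pool.Agent.H914 Pool.Agent.H914.VarClass Pool.Agent.H914.VarClass.Obj
  Pool.Agent.H914.WeilCohomology
open Pool.Agent.Y121 Pool.Agent.Y121.AHS

variable {k : Type u} [Field k] {𝒱 : VarClass k} {ops : CycleOps 𝒱} {V X : 𝒱.Obj}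
  {S : Type} [Fintype S] {Y : S → 𝒱.Obj}

theorem tfae (T : AHS.HodgeTheory ops) (D : Full.Conjugates T) (f : X ⟶ V)
    (g : ∀ s, Y s ⟶ V) (j : ℕ) (hK : VanishesWith T.W f g (2 * j))
    (hS : ∀ l, l = j ∨ l + j = X.dim → NoIsotropic T.W f (2 * l)) (a : T.W.H X)
    (ha : IsRestriction T.W f (2 * j) a) : List.TFAE [
      Full.IsAbsHodge D X j a,
      ∃ x, Full.IsAbsHodge D V j x ∧ pb T.W f x = a,
      ∃ x, OfDegree T.W (2 * j) x ∧ pb T.W f x = a ∧
        ∀ s, Full.IsAbsHodge D (Y s) j (pb T.W (g s) x)] := by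
  tfae_have 1 → 2 := by
    intro h
    obtain ⟨x, hx, rfl⟩ := ha
    obtain ⟨y, hy, hyx⟩ := lift_class (T := toH T) (Q := AH.absPred (Full.toD D))
      (fun {X j x} (h : AH.IsAbsHodge _ X j x) => h.1) (AH.lifts_abs _) (f := f) (j := j) hS hx
      (Full.isAbsHodge_iff.2 h)
    exact ⟨y, Full.isAbsHodge_iff.1 hy, hyx⟩
  tfae_have 2 → 3 := by
    rintro ⟨x, hx, rfl⟩
    exact ⟨x, hx.1.1, rfl, fun s => Full.isAbsHodge_iff.1
      ((AH.absPred (Full.toD D)).map (g s) (Full.isAbsHodge_iff.2 hx))⟩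
  tfae_have 3 → 1 := by
    rintro ⟨x, hx, rfl, h⟩
    exact Full.isAbsHodge_iff.1 (abs_of (T := toH T) (Full.toD D) hK hx
      fun s => Full.isAbsHodge_iff.2 (h s))
  tfae_finish

theorem all_abs (T : AHS.HodgeTheory ops) (D : Full.Conjugates T) (f : X ⟶ V)
    (g : ∀ s, Y s ⟶ V) (j : ℕ) (hK : VanishesWith T.W f g (2 * j))
    (hS : ∀ l, l = j ∨ l + j = X.dim → NoIsotropic T.W f (2 * l))
    (h : ∀ s c, AHS.IsHodge T (Y s) j c → Full.IsAbsHodge D (Y s) j c) (a : T.W.H X)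
    (ha : IsRestriction T.W f (2 * j) a) (hH : AHS.IsHodge T X j a) :
    Full.IsAbsHodge D X j a := by
  obtain ⟨x, hx, rfl⟩ := ha
  obtain ⟨y, hy, hyx⟩ := lift_class (T := toH T) (Q := AH.hodgePred (toH T))
    (fun h => h) (AH.lifts_hodge _) (f := f) (j := j) hS hx hH
  have hy' : AH.IsHodge (toH T) V j y := hy
  have h1 := (tfae T D f g j hK hS (pb T.W f y) ⟨y, hy'.1, rfl⟩).out 2 0
  rw [show pb T.W f x = pb T.W f y from hyx.symm]
  exact h1.1 ⟨y, hy'.1, rfl, fun s => h s _ (hy'.map (g s))⟩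

end Pool.Agent.K9h28.Sf
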