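import Pool.Agent.K9h28.Site

/-!
# The two triples at a site
-/

set_option autoImplicit false
set_option linter.unusedSectionVars false

open Finset

namespace Pool.Agent.K9h28

open Pool.Agent.H914

/-- The matrix with one nonzero entry. -/
def el (a b : St) (c : ℚ) : Matrix St St ℚ := fun u v => if u = a ∧ v = b then c else 0

lemma el_mul (a b b' d : St) (c c' : ℚ) :
    el a b c * el b' d c' = if b = b' then el a d (c * c') else 0 := by
  ext u v
  rw [Matrix.mul_apply, Finset.sum_eq_single b]
  · by_cases hb : b = b'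
    · subst hb
      by_cases h1 : u = a <;> by_cases h2 : v = d <;> simp [el, h1, h2]
    · simp [el, hb]
  · intro w _ hw
    simp [el, hw]
  · intro h; exact absurd (Finset.mem_univ _) h

lemma el_neg (a b : St) (c : ℚ) : el a b (-c) = -el a b c := by
  ext u v
  simp only [el, Matrix.neg_apply]
  split_ifs <;> simp

lemma el_add (a b : St) (c c' : ℚ) : el a b (c + c') = el a b c + el a b c' := by
  ext u v
  simp only [el, Matrix.add_apply]
  split_ifs <;> simp

/-- The relations for a pair of matrix units. -/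
lemma el_sl2 {a b : St} (hab : a ≠ b) {c : ℚ} (hc : c ≠ 0) :
    Sl2 (el a a 1 - el b b 1) (el a b c) (el b a c⁻¹) where
  ef := by rw [el_mul, el_mul, if_pos rfl, if_pos rfl, mul_inv_cancel₀ hc, inv_mul_cancel₀ hc]
  he := by
    rw [sub_mul, mul_sub, el_mul, el_mul, el_mul, el_mul, if_pos rfl, if_neg hab.symm,
      if_neg hab.symm, if_pos rfl, one_mul, mul_one, two_mul]
    abel
  hf := by
    rw [sub_mul, mul_sub, el_mul, el_mul, el_mul, el_mul, if_neg hab, if_pos rfl, if_pos rfl,
      if_neg hab, one_mul, mul_one, two_mul]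
    abel

lemma el_nil {a b : St} (hab : a ≠ b) (c : ℚ) : IsNilpotent (el a b c) :=
  ⟨2, by rw [pow_two, el_mul, if_neg hab.symm]⟩

lemma weyl_el {a b : St} (hab : a ≠ b) {c : ℚ} (hc : c ≠ 0) :
    weyl (el a b c) (el b a c⁻¹) = 1 + el a b c - el b a c⁻¹ - el a a 1 - el b b 1 := by
  rw [weyl_of_sq (by rw [el_mul, if_neg hab.symm]) (by rw [el_mul, if_neg hab])
    (by rw [el_mul, if_pos rfl, el_mul, if_pos rfl, mul_inv_cancel₀ hc, one_mul]),
    el_mul, if_pos rfl, el_mul, if_pos rfl, mul_inv_cancel₀ hc, inv_mul_cancel₀ hc]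

/-- The states. -/
abbrev sO : St := (false, false)
/-- The states. -/
abbrev sW : St := (true, true)
/-- The states. -/
abbrev sE : St := (true, false)
/-- The states. -/
abbrev sF : St := (false, true)

/-- The swap of the states `1` and `ω`. -/
def piL (u : St) : St := if u.1 = u.2 then (!u.1, !u.2) else u

/-- The swap of the states `e` and `f`. -/
def piN (u : St) : St := (u.2, u.1)

/-- The coefficients of the Weyl element. -/
def cL (d : ℚ) (u : St) : ℚ := if u.1 = u.2 then (if u.1 then d else -d⁻¹) else 1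

/-- The coefficients of the Weyl element. -/
def cN (u : St) : ℚ := if u = sF then -1 else 1

lemma weyl_L {d : ℚ} (hd : d ≠ 0) : weyl (el sW sO d) (el sO sW d⁻¹) = mono (cL d) piL := by
  rw [weyl_el (by decide) hd]
  ext ⟨a, b⟩ ⟨a', b'⟩
  simp only [Matrix.sub_apply, Matrix.add_apply, Matrix.one_apply, el, mono, cL, piL]
  cases a <;> cases b <;> cases a' <;> cases b' <;> simp

lemma weyl_N : weyl (el sE sF 1) (el sF sE 1) = mono cN piN := by
  have h := weyl_el (a := sE) (b := sF) (by decide) (c := 1) one_ne_zero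
  rw [inv_one] at h
  rw [h]
  ext ⟨a, b⟩ ⟨a', b'⟩
  simp only [Matrix.sub_apply, Matrix.add_apply, Matrix.one_apply, el, mono, cN, piN]
  cases a <;> cases b <;> cases a' <;> cases b' <;> simp

lemma sl2_N : Sl2 (el sE sE 1 - el sF sF 1) (el sE sF 1) (el sF sE 1) := by
  have h := el_sl2 (a := sE) (b := sF) (by decide) (c := 1) one_ne_zero
  rwa [inv_one] at h

variable {I : Type} [DecidableEq I] {A : Type*} [AddCommGroup A] [Module ℚ A]

lemma op_el (i : I) (a b : St) (c : ℚ) (v : (I → St) → A) (s : I → St) :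
    op i (el a b c) v s = if s i = a then c • v (Function.update s i b) else 0 := by
  rw [op_apply, Finset.sum_eq_single b]
  · by_cases h : s i = a <;> simp [el, h]
  · intro u _ hu
    simp [el, hu]
  · intro h; exact absurd (Finset.mem_univ _) h

end Pool.Agent.K9h28
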