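import Pool.Agent.K9h28.TorDefs
import Pool.Agent.K9h28.Mon
import Pool.Agent.K9h28.AQ

/-!
# Toric degenerations
-/

set_option autoImplicit false
set_option linter.unusedSectionVars false

open CategoryTheory AlgebraicGeometry

universe u u' v v'

namespace Pool.Agent.K9h28

open Pool.Agent.H914 Pool.Agent.H914.VarClass Pool.Agent.H914.VarClass.Obj
  Pool.Agent.H914.WeilCohomology Pool.Agent.H281R3.HT Pool.Agent.W552

section Re

variable {I : Type} [Fintype I] [DecidableEq I]

lemma reindex {M : Type*} [AddCommMonoid M] (i : I) (a b : St)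
    (F : (I → St) → (I → St) → M) :
    ∑ s, (if s i = a then F s (Function.update s i b) else 0) =
      ∑ s, (if s i = b then F (Function.update s i a) s else 0) := by
  rw [← Finset.sum_filter, ← Finset.sum_filter]
  refine Finset.sum_bij' (fun s _ => Function.update s i b) (fun s _ => Function.update s i a)
    ?_ ?_ ?_ ?_ ?_
  · intro s _
    simp
  · intro s _
    simp
  · intro s hs
    have : s i = a := (Finset.mem_filter.1 hs).2
    simp [← this]
  · intro s hs
    have : s i = b := (Finset.mem_filter.1 hs).2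
    simp [← this]
  · intro s hs
    have : s i = a := (Finset.mem_filter.1 hs).2
    simp [← this]

end Re

lemma sgL_zero {I : Type} {l : List I} {s s' : I → St} {i : I} (hi : i ∈ l)
    (h : sgS (s i) (s' i) = 0) : sgL l s s' = 0 := by
  induction l with
  | nil => simp at hi
  | cons j l ih =>
    rw [sgL]
    rcases List.mem_cons.1 hi with rfl | h1
    · rw [h]; simp
    · rw [ih h1]; simp

/-- The states of a pair of subsets. -/
def stOf {t : ℕ} (I J : Finset (Fin t)) : Fin t → St := fun i => (decide (i ∈ I), decide (i ∈ J))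

lemma mon_eq {R : Type*} [Monoid R] {t : ℕ} (e f : Fin t → R) (I J : Finset (Fin t)) :
    mon e f I J = monL e f (List.finRange t) (stOf I J) := by
  rw [mon, monL]
  congr 1
  apply List.map_congr_left
  intro i _
  simp [fac, stOf]

lemma nb_stOf {t : ℕ} (I J : Finset (Fin t)) : nb (stOf I J) = J.card := by
  simp [nb, stOf]

lemma na_stOf {t : ℕ} (I J : Finset (Fin t)) : na (stOf I J) = I.card := by
  simp [na, stOf]

/-- The sign of a balanced monomial is one. -/
lemma sgL_bal {t : ℕ} {s : Fin t → St} (h : na s = nb s) :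
    sgL (List.finRange t) s (cpl s) = 1 := by
  rw [sgL_cpl]
  have h1 : od (List.finRange t) s = ∑ i, (if (s i).1 = (s i).2 then 0 else 1) := by
    rw [od, Fin.sum_univ_def]
  have h2 : nf (List.finRange t) s = ∑ i, (if s i = sF then 1 else 0) := by
    rw [nf, Fin.sum_univ_def]
  have h3 : (od (List.finRange t) s : ℤ) + nb s = 2 * nf (List.finRange t) s + na s := by
    rw [h1, h2, na, nb]
    push_cast
    rw [← Finset.sum_add_distrib, Finset.mul_sum, ← Finset.sum_add_distrib]
    refine Finset.sum_congr rfl fun i _ => ?_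
    obtain ⟨a, b⟩ := s i
    cases a <;> cases b <;> simp
  have h4 : od (List.finRange t) s = 2 * nf (List.finRange t) s := by
    rw [h] at h3
    omega
  rw [h4]
  generalize nf (List.finRange t) s = m
  have h5 : (2 * m).choose 2 + m = 2 * (m * m) := by
    rw [Nat.choose_two_right]
    have : 2 * m * (2 * m - 1) / 2 = m * (2 * m - 1) := by
      rw [mul_assoc, Nat.mul_div_cancel_left _ (by norm_num)]
    rw [this]
    rcases m with _ | m
    · simp
    · rw [show 2 * (m + 1) - 1 = 2 * m + 1 by omega]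
      ring
  rw [h5, pow_mul]
  simp

variable {k : Type u} [Field k] {𝒱 : VarClass k} {ops : CycleOps 𝒱}
  {k₀ : Type u'} [Field k₀] {𝒱₀ : VarClass k₀} {ops₀ : CycleOps 𝒱₀}
  {W : WeilCohomology.{u, v} ops} {X : 𝒱.Obj} {D : X.Cycles}
  {W₀ : WeilCohomology.{u', v'} ops₀} {X₀ : 𝒱₀.Obj} {D₀ : X₀.Cycles} {t : ℕ}

namespace TorDeg

variable (T : TorDeg W X D W₀ X₀ D₀ t)

include T

lemma odd1 : Odd1 (W.gr X) T.e T.f where
  one_mem := W.one_mem X
  mul_mem := W.mul_mem
  comm := W.comm
  he := T.e_mem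
  hf := T.f_mem

/-- The monomials. -/
def m (s : Fin t → St) : W.H X := monL T.e T.f (List.finRange t) s

/-- The realization. -/
def Phi (v : (Fin t → St) → AQ W₀ X₀) : W.H X := ∑ s, T.m s * T.ι (v s)

lemma Phi_add (v w : (Fin t → St) → AQ W₀ X₀) : T.Phi (v + w) = T.Phi v + T.Phi w := by
  simp only [Phi, Pi.add_apply, AddSubgroup.coe_add, map_add, mul_add, Finset.sum_add_distrib]

lemma Phi_neg (v : (Fin t → St) → AQ W₀ X₀) : T.Phi (-v) = -T.Phi v := by
  simp only [Phi, Pi.neg_apply, AddSubgroup.coe_neg, map_neg, mul_neg, Finset.sum_neg_distrib]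

lemma Phi_zero : T.Phi 0 = 0 := by
  simp only [Phi, Pi.zero_apply, AddSubgroup.coe_zero, map_zero, mul_zero, Finset.sum_const_zero]

lemma ι_rat (q : ℚ) (x : W₀.H X₀) : T.ι ((q : W₀.K) • x) = (q : W.K) • T.ι x := by
  rw [T.ι_smul, map_ratCast]

lemma Phi_smul (q : ℚ) (v : (Fin t → St) → AQ W₀ X₀) : T.Phi (q • v) = (q : W.K) • T.Phi v := by
  simp only [Phi, Pi.smul_apply, AQ.coe_smul, T.ι_rat, mul_smul_comm, Finset.smul_sum]

lemma Phi_single (s : Fin t → St) (b : AQ W₀ X₀) : T.Phi (Pi.single s b) = T.m s * T.ι b := by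
  rw [Phi, Finset.sum_eq_single s]
  · rw [Pi.single_eq_same]
  · intro s' _ hs
    rw [Pi.single_eq_of_ne hs, AddSubgroup.coe_zero, map_zero, mul_zero]
  · intro h; exact absurd (Finset.mem_univ _) h

lemma ι_even {x : W₀.H X₀} (hx : AS W₀ X₀ x) (y : W.H X) : T.ι x * y = y * T.ι x := by
  refine AS.ind (p := fun x => T.ι x * y = y * T.ι x) ?_ ?_ hx
  · intro j x hx
    exact W.even_comm (T.ι_mem _ _ (alg_gr hx)) y
  · intro a b ha hb
    rw [map_add, add_mul, mul_add, ha, hb]

/-- The traces of the monomials. -/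
lemma tr_m (s : Fin t → St) {x : W₀.H X₀} (hx : AS W₀ X₀ x) :
    W.tr X (T.m s * T.ι x) = if s = (fun _ => sW) then (T.vol : W.K) * T.σ (W₀.tr X₀ x) else 0 := by
  split_ifs with hs
  · rw [← T.tr_top, mon_eq, m, hs]
    congr 3
    funext i
    simp [stOf]
  · have hdeg : dgL (List.finRange t) s < 2 * t := by
      have h1 : dgL (List.finRange t) s = ∑ i, dg (s i) := by rw [dgL, Fin.sum_univ_def]
      have h2 : (2 * t : ℕ) = ∑ _i : Fin t, 2 := by simp [mul_comm]
      rw [h1, h2]
      have h3 : ∀ u : St, dg u ≤ 2 := by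
        rintro ⟨a, b⟩
        cases a <;> cases b <;> simp [dg]
      have h4 : ∀ u : St, u ≠ sW → dg u < 2 := by
        rintro ⟨a, b⟩ hu
        cases a <;> cases b <;> simp_all [dg]
      have h5 : ∃ i, s i ≠ sW := by
        by_contra h
        push Not at h
        exact hs (funext h)
      obtain ⟨i, hi⟩ := h5
      exact Finset.sum_lt_sum (fun j _ => h3 _) ⟨i, Finset.mem_univ _, h4 _ hi⟩
    refine AS.ind (p := fun x => W.tr X (T.m s * T.ι x) = 0) ?_ ?_ hx
    · intro j x hx
      by_cases hj : 2 * j ≤ 2 * X₀.dim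
      · apply W.tr_eq_zero (W.mul_mem (T.odd1.monL_mem _ s) (T.ι_mem _ _ (alg_gr hx)))
        rw [T.dim_eq]
        omega
      · have h1 := alg_gr hx
        rw [W₀.gr_eq_bot X₀ _ (by omega)] at h1
        rw [(Submodule.mem_bot _).1 h1]
        simp
    · intro a b ha hb
      rw [map_add, mul_add, map_add, ha, hb, add_zero]

/-- The sign attached to a state. -/
def kap (s : Fin t → St) : ℤ := sgL (List.finRange t) s (cpl s)

omit T in
lemma jn_cpl (s : Fin t → St) : jn s (cpl s) = fun _ => sW := by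
  funext i
  simp [jn, cpl]

omit T in
lemma sg_ne {s s' : Fin t → St} (h : s' ≠ cpl s) (h' : jn s s' = fun _ => sW) :
    sgL (List.finRange t) s s' = 0 := by
  obtain ⟨i, hi⟩ : ∃ i, s' i ≠ cpl s i := by
    by_contra h0
    push Not at h0
    exact h (funext h0)
  apply sgL_zero (List.mem_finRange i)
  have h1 : ((s i).1 || (s' i).1, (s i).2 || (s' i).2) = sW := congrFun h' i
  have key : ∀ u u' : St, (u.1 || u'.1, u.2 || u'.2) = sW → u' ≠ (!u.1, !u.2) →
      sgS u u' = 0 := by
    rintro ⟨a, b⟩ ⟨a', b'⟩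
    cases a <;> cases b <;> cases a' <;> cases b' <;> simp [sgS]
  exact key _ _ h1 hi

/-- The form in terms of the coordinates. -/
lemma tr_Phi (v w : (Fin t → St) → AQ W₀ X₀) : W.tr X (T.Phi v * T.Phi w) =
    ((T.vol * ∑ s, (kap s : ℚ) * psi (v s) (w (cpl s)) : ℚ) : W.K) := by
  rw [Phi, Phi, Finset.sum_mul, map_sum, Finset.mul_sum, Rat.cast_sum]
  refine Finset.sum_congr rfl fun s _ => ?_
  rw [Finset.mul_sum, map_sum, Finset.sum_eq_single (cpl s)]
  · rw [mul_assoc, ← mul_assoc (T.ι _), T.ι_even (v s).2, mul_assoc, ← mul_assoc, ← map_mul]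
    have h1 : T.m s * T.m (cpl s) = kap s • T.m (jn s (cpl s)) :=
      T.odd1.monL_mul (List.finRange t) s (cpl s)
    rw [h1, jn_cpl, smul_mul_assoc, map_zsmul, T.tr_m _ ((v s).2.mul (w _).2), if_pos rfl,
      psi_spec, map_ratCast, zsmul_eq_mul]
    push_cast
    ring
  · intro s' _ hs'
    rw [mul_assoc, ← mul_assoc (T.ι _), T.ι_even (v s).2, mul_assoc, ← mul_assoc, ← map_mul]
    have h1 : T.m s * T.m s' = sgL (List.finRange t) s s' • T.m (jn s s') :=
      T.odd1.monL_mul (List.finRange t) s s'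
    rw [h1, smul_mul_assoc, map_zsmul, T.tr_m _ ((v s).2.mul (w _).2)]
    split_ifs with h2
    · rw [sg_ne hs' h2, zero_smul]
    · rw [smul_zero]
  · intro h; exact absurd (Finset.mem_univ _) h

variable {f₀ : Module.End W₀.K (W₀.H X₀)} (F : Fr W₀ X₀ D₀ f₀) (hH₀ : HodgeType W₀ X₀ D₀)

include F hH₀ in
lemma Phi_inj {v : (Fin t → St) → AQ W₀ X₀} (h : T.Phi v = 0) : v = 0 := by
  funext s
  apply FrA.nondeg F hH₀
  intro b
  have h1 := T.tr_Phi v (Pi.single (cpl s) b)
  rw [h, zero_mul, map_zero, Finset.sum_eq_single s] at h1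
  · rw [Pi.single_eq_same] at h1
    have h2 : T.vol * ((kap s : ℚ) * psi (v s) b) = 0 := by exact_mod_cast h1.symm
    have h3 : (kap s : ℚ) ≠ 0 := by
      rw [kap, sgL_cpl]
      push_cast
      exact pow_ne_zero _ (by norm_num)
    rcases mul_eq_zero.1 h2 with h4 | h4
    · exact absurd h4 T.vol_pos.ne'
    · rcases mul_eq_zero.1 h4 with h5 | h5
      · exact absurd h5 h3
      · rw [psi_spec, h5, Rat.cast_zero]
  · intro s' _ hs'
    rw [Pi.single_eq_of_ne]
    · have h2 : psi (v s') 0 = 0 := by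
        have := psi_smul (v s') (0 : AQ W₀ X₀) 0
        simpa using this
      rw [h2, mul_zero]
    · intro h2
      apply hs'
      rw [← cpl_cpl s', h2, cpl_cpl]
  · intro h; exact absurd (Finset.mem_univ _) h

/-- The action of the monodromy operator. -/
lemma N_Phi (v : (Fin t → St) → AQ W₀ X₀) : T.N (T.Phi v) = T.Phi (eN v) := by
  have hee : ∀ i, T.e i * T.e i = 0 := fun i => T.odd1.sq (T.e_mem i)
  have h1 : ∀ s, T.N (T.m s) = ∑ i, (if s i = sF then T.m (Function.update s i sE) else 0) := by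
    intro s
    rw [m, der_monL T.N T.N_mul T.N_e T.N_f hee (List.nodup_finRange t), Fin.sum_univ_def]
    rfl
  have h2 : T.N (T.Phi v) = ∑ i, ∑ s, (if s i = sF then
      T.m (Function.update s i sE) * T.ι (v s) else 0) := by
    rw [Phi, map_sum, Finset.sum_comm]
    refine Finset.sum_congr rfl fun s _ => ?_
    rw [T.N_mul, T.N_ι, mul_zero, add_zero, h1, Finset.sum_mul]
    refine Finset.sum_congr rfl fun i _ => ?_
    rw [ite_mul, zero_mul]
  have h3 : T.Phi (eN v) = ∑ i, ∑ s, (if s i = sE then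
      T.m s * T.ι (v (Function.update s i sF)) else 0) := by
    rw [Phi, Finset.sum_comm]
    refine Finset.sum_congr rfl fun s _ => ?_
    rw [eN_apply, AddSubgroup.val_finsetSum, map_sum, Finset.mul_sum]
    refine Finset.sum_congr rfl fun i _ => ?_
    split_ifs with h
    · rfl
    · rw [AddSubgroup.coe_zero, map_zero, mul_zero]
  rw [h2, h3]
  refine Finset.sum_congr rfl fun i _ => ?_
  exact reindex i sF sE (fun s s' => T.m s' * T.ι (v s))

lemma res_L₀ (hD₀ : X₀.IsCyc 1 D₀) (x : W₀.H X₀) (hx : AS W₀ X₀ x) :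
    AS W₀ X₀ (LinearMap.mulLeft W₀.K (W₀.cl X₀ D₀) x) := (AS.of ⟨D₀, hD₀, rfl⟩).mul hx

/-- The action of the divisor. -/
lemma L_Phi (hD₀ : X₀.IsCyc 1 D₀) (v : (Fin t → St) → AQ W₀ X₀) :
    W.cl X D * T.Phi v = T.Phi (eL T.d (res (LinearMap.mulLeft W₀.K (W₀.cl X₀ D₀))
      (T.res_L₀ hD₀)) v) := by
  have hA : AS W₀ X₀ (W₀.cl X₀ D₀) := AS.of ⟨D₀, hD₀, rfl⟩
  have h1 : ∀ i s, T.e i * T.f i * T.m s =
      if s i = sO then T.m (Function.update s i sW) else 0 := fun i s =>
    mul_monL T.odd1 (List.nodup_finRange t) (List.mem_finRange i) s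
  have h2 : W.cl X D * T.Phi v = ∑ i, ∑ s, (if s i = sO then
      (T.d i : W.K) • (T.m (Function.update s i sW) * T.ι (v s)) else 0) +
      ∑ s, T.m s * T.ι (W₀.cl X₀ D₀ * v s) := by
    rw [T.cl_D, add_mul]
    congr 1
    · rw [Finset.sum_mul]
      refine Finset.sum_congr rfl fun i _ => ?_
      rw [Phi, Finset.mul_sum]
      refine Finset.sum_congr rfl fun s _ => ?_
      rw [smul_mul_assoc, ← mul_assoc, h1]
      split_ifs
      · rfl
      · rw [zero_mul, smul_zero]
    · rw [Phi, Finset.mul_sum]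
      refine Finset.sum_congr rfl fun s _ => ?_
      rw [← mul_assoc, T.ι_even hA, mul_assoc, map_mul]
  have h3 : T.Phi (eL T.d (res (LinearMap.mulLeft W₀.K (W₀.cl X₀ D₀)) (T.res_L₀ hD₀)) v) =
      ∑ i, ∑ s, (if s i = sW then
      (T.d i : W.K) • (T.m s * T.ι (v (Function.update s i sO))) else 0) +
      ∑ s, T.m s * T.ι (W₀.cl X₀ D₀ * v s) := by
    rw [Phi, Finset.sum_comm, ← Finset.sum_add_distrib]
    refine Finset.sum_congr rfl fun s _ => ?_
    rw [eL_apply, AddSubgroup.coe_add, map_add, mul_add]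
    congr 1
    rw [AddSubgroup.val_finsetSum, map_sum, Finset.mul_sum]
    refine Finset.sum_congr rfl fun i _ => ?_
    split_ifs with h
    · rw [AQ.coe_smul, T.ι_rat, mul_smul_comm]
    · rw [AddSubgroup.coe_zero, map_zero, mul_zero]
  rw [h2, h3]
  congr 1
  refine Finset.sum_congr rfl fun i _ => ?_
  exact reindex i sO sW (fun s s' => (T.d i : W.K) • (T.m s' * T.ι (v s)))

end TorDeg

end Pool.Agent.K9h28
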