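import Pool.Agent.K9h28.ToricDefs

/-!
# Toric degenerations of a variety: definitions
-/

set_option autoImplicit false

open CategoryTheory AlgebraicGeometry

universe u u' v v'

namespace Pool.Agent.K9h28

open Pool.Agent.H914 Pool.Agent.H914.VarClass Pool.Agent.H914.VarClass.Obj
  Pool.Agent.H914.WeilCohomology

variable {k : Type u} [Field k] {𝒱 : VarClass k} {ops : CycleOps 𝒱}
  {k₀ : Type u'} [Field k₀] {𝒱₀ : VarClass k₀} {ops₀ : CycleOps 𝒱₀}

/-- The structure on the cohomology of the variety `X` with the divisor `D` given by a degeneration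
of toric rank `t` with the variety `X₀` and the divisor `D₀` over the residue field as its part of
good reduction. In the main example `X = A × Z`, where `A` is an abelian variety with split
semistable reduction at a discrete valuation, `Z` a variety with good reduction, and
`X₀ = B₀ × Z₀`, `B₀` the abelian part of the reduction of `A` and `Z₀` the reduction of `Z`. Then
`e_i` is a basis of the space of the weight `0`, `f_i` a basis of the space of the weight `2` of
`H^1(A)`, with `N f_i = e_i` for the monodromy operator `N` (in suitable bases of the character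
groups tensored with `ℚ`, which are orthogonal for the positive definite form given by the
polarization and the monodromy pairing, and have the squares of length `d_i`), and `ι` is given by
the identification of the space of the weight `1` of `H^1(A)` with `H^1(B₀)`. -/
structure TorDeg (W : WeilCohomology.{u, v} ops) (X : 𝒱.Obj) (D : X.Cycles)
    (W₀ : WeilCohomology.{u', v'} ops₀) (X₀ : 𝒱₀.Obj) (D₀ : X₀.Cycles) (t : ℕ) where
  /-- the homomorphism of the coefficient fields -/
  σ : W₀.K →+* W.K
  /-- the homomorphism from the cohomology of `X₀` to the cohomology of `X` -/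
  ι : W₀.H X₀ →+* W.H X
  /-- classes of degree one and weight zero -/
  e : Fin t → W.H X
  /-- classes of degree one and weight two -/
  f : Fin t → W.H X
  /-- the monodromy operator -/
  N : Module.End W.K (W.H X)
  /-- the squares of length for the polarization -/
  d : Fin t → ℚ
  /-- the volume -/
  vol : ℚ
  dim_eq : X.dim = t + X₀.dim
  ι_smul : ∀ a x, ι (a • x) = σ a • ι x
  ι_mem : ∀ i x, x ∈ W₀.gr X₀ i → ι x ∈ W.gr X i
  e_mem : ∀ i, e i ∈ W.gr X 1
  f_mem : ∀ i, f i ∈ W.gr X 1
  N_mul : ∀ x y, N (x * y) = N x * y + x * N y
  N_e : ∀ i, N (e i) = 0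
  N_f : ∀ i, N (f i) = e i
  N_ι : ∀ x, N (ι x) = 0
  /-- the classes of algebraic cycles are invariant under the monodromy -/
  N_cl : ∀ r z, X.IsCyc r z → N (W.cl X z) = 0
  /-- the orientation -/
  tr_top : ∀ x, W.tr X (mon e f Finset.univ Finset.univ * ι x) = (vol : W.K) * σ (W₀.tr X₀ x)
  vol_pos : 0 < vol
  /-- the class of the divisor `D` -/
  cl_D : W.cl X D = ∑ i, (d i : W.K) • (e i * f i) + ι (W₀.cl X₀ D₀)
  d_pos : ∀ i, 0 < d i
  /-- the specialization of algebraic cycles: the class of a cycle of codimension `r` is a sum of
  products `e_I f_J ι(cl(c))`, where `I` and `J` have the same number `j` of elements and `c` is a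
  cycle with rational coefficients of codimension `r - j` on `X₀` -/
  cl_mem : ∀ r z, X.IsCyc r z → W.cl X z ∈ AddSubgroup.closure
    {x | ∃ (I J : Finset (Fin t)) (p : ℕ) (c : X₀.Cycles), I.card = J.card ∧ p + I.card = r ∧
      X₀.IsCyc p c ∧ x = mon e f I J * ι (W₀.cl X₀ c)}

end Pool.Agent.K9h28
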