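import Pool.Agent.K9h28.TorMain
import Pool.Agent.K9h28.Lieb

/-!
# Toric degenerations: the conjecture D
-/

set_option autoImplicit false

open CategoryTheory AlgebraicGeometry

universe u u' v v'

namespace Pool.Agent.K9h28

open Pool.Agent.H914 Pool.Agent.H914.VarClass Pool.Agent.H914.VarClass.Obj
  Pool.Agent.H914.WeilCohomology Pool.Agent.H281R3.HT Pool.Agent.W552

variable {k : Type u} [Field k] {𝒱 : VarClass k} {ops : CycleOps 𝒱}
  {k₀ : Type u'} [Field k₀] {𝒱₀ : VarClass k₀} {ops₀ : CycleOps 𝒱₀}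
  {W : WeilCohomology.{u, v} ops} {X : 𝒱.Obj} {D : X.Cycles}
  {W₀ : WeilCohomology.{u', v'} ops₀} {X₀ : 𝒱₀.Obj} {D₀ : X₀.Cycles} {t : ℕ}

lemma IsLefschetz.out (h : IsLefschetz W X D) (hD : X.IsCyc 1 D) :
    HardLefschetz W X D ∧ LefschetzB W X D := by
  rcases h with h | ⟨m, hm, h0⟩
  · exact h
  · exact lefschetz_of_abelian hm hD h0

/-- The conjectures B and of Hodge type imply D, also for the dominated varieties. -/
lemma homEqNum_of_hodge (h : IsLefschetz W X D) (hD : X.IsCyc 1 D) (hH : HodgeType W X D) :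
    HomEqNum W X := by
  obtain ⟨h1, h2⟩ := h.out hD
  obtain ⟨f, F, -⟩ := exists_fr hD h1 h2
  exact FrA.homEqNum F hH

/-- The bundled form. -/
noncomputable def ToricDegeneration.toDeg {T : TorData W₀.K (W₀.H X₀) W.K (W.H X) t}
    (h : ToricDegeneration W X D W₀ X₀ D₀ t T) : TorDeg W X D W₀ X₀ D₀ t where
  σ := T.σ
  ι := T.ι
  e := T.e
  f := T.f
  N := T.N
  d := T.d
  vol := T.vol
  dim_eq := h.dim_eq
  ι_smul := h.graded.ι_smul
  ι_mem := h.graded.ι_mem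
  e_mem := h.graded.e_mem
  f_mem := h.graded.f_mem
  N_mul := h.monodromy.N_mul
  N_e := h.monodromy.N_e
  N_f := h.monodromy.N_f
  N_ι := h.monodromy.N_ι
  N_cl r z hz := h.specializes.invariant r _ ⟨z, hz, rfl⟩
  tr_top := h.oriented.tr_top
  vol_pos := h.oriented.vol_pos
  cl_D := h.polarized.eq
  d_pos := h.polarized.d_pos
  cl_mem r z hz := by
    refine AddSubgroup.closure_mono ?_ (h.specializes.mem r _ ⟨z, hz, rfl⟩)
    rintro x ⟨I, J, p, hIJ, hp, _, ⟨c, hc, rfl⟩, rfl⟩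
    exact ⟨I, J, p, c, hIJ, hp, hc, rfl⟩

theorem ToricDegeneration.final {T : TorData W₀.K (W₀.H X₀) W.K (W.H X) t}
    (h : ToricDegeneration W X D W₀ X₀ D₀ t T) (hD : X.IsCyc 1 D)
    (hD₀ : X₀.IsCyc 1 D₀) (h₀ : IsLefschetz W₀ X₀ D₀) (hH₀ : HodgeType W₀ X₀ D₀) :
    HodgeType W X D ∧ (IsLefschetz W X D →
      HomEqNum W X ∧ ∀ Y, Dominates W X Y → HomEqNum W Y) := by
  obtain ⟨h1, h2⟩ := h₀.out hD₀
  have hH := h.toDeg.hodgeType hD hD₀ h1 h2 hH₀
  exact ⟨hH, fun h => ⟨homEqNum_of_hodge h hD hH, fun Y hY =>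
    (homEqNum_of_hodge h hD hH).image hY⟩⟩

end Pool.Agent.K9h28
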