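import Pool.Agent.K9h28.Tor

/-!
# Toric degenerations: the Hodge type
-/

set_option autoImplicit false
set_option linter.unusedSectionVars false

open CategoryTheory AlgebraicGeometry

universe u u' v v'

namespace Pool.Agent.K9h28

open Pool.Agent.H914 Pool.Agent.H914.VarClass Pool.Agent.H914.VarClass.Obj
  Pool.Agent.H914.WeilCohomology Pool.Agent.H281R3.HT Pool.Agent.W552

variable {k : Type u} [Field k] {𝒱 : VarClass k} {ops : CycleOps 𝒱}
  {k₀ : Type u'} [Field k₀] {𝒱₀ : VarClass k₀} {ops₀ : CycleOps 𝒱₀}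
  {W : WeilCohomology.{u, v} ops} {X : 𝒱.Obj} {D : X.Cycles}
  {W₀ : WeilCohomology.{u', v'} ops₀} {X₀ : 𝒱₀.Obj} {D₀ : X₀.Cycles} {t : ℕ}

/-- The coordinates of an algebraic class of codimension `r`. -/
def IsCoord (r : ℕ) (v : (Fin t → St) → AQ W₀ X₀) : Prop :=
  ∀ s, v s ≠ 0 → na s = nb s ∧ nb s ≤ r ∧ (v s : W₀.H X₀) ∈ algClasses W₀ X₀ (r - nb s)

lemma IsCoord.add {r : ℕ} {v w : (Fin t → St) → AQ W₀ X₀} (hv : IsCoord r v)
    (hw : IsCoord r w) : IsCoord r (v + w) := by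
  intro s hs
  by_cases h1 : v s = 0
  · by_cases h2 : w s = 0
    · exact absurd (by rw [Pi.add_apply, h1, h2, add_zero]) hs
    · rw [Pi.add_apply, h1, zero_add]; exact hw s h2
  · by_cases h2 : w s = 0
    · rw [Pi.add_apply, h2, add_zero]; exact hv s h1
    · exact ⟨(hv s h1).1, (hv s h1).2.1, alg_add (hv s h1).2.2 (hw s h2).2.2⟩

lemma IsCoord.neg {r : ℕ} {v : (Fin t → St) → AQ W₀ X₀} (hv : IsCoord r v) :
    IsCoord r (-v) := by
  intro s hs
  have h1 : v s ≠ 0 := fun h => hs (by rw [Pi.neg_apply, h, neg_zero])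
  exact ⟨(hv s h1).1, (hv s h1).2.1, alg_neg (hv s h1).2.2⟩

lemma IsCoord.hN {r : ℕ} {v : (Fin t → St) → AQ W₀ X₀} (hv : IsCoord r v) : hN v = 0 := by
  funext s
  rw [hN_apply, Pi.zero_apply]
  by_cases hs : v s = 0
  · simp [hs]
  have h1 := (hv s hs).1
  have h2 : ∀ i, ((if s i = sE then v s else 0) - (if s i = sF then v s else 0)) =
      ((if (s i).1 then (1 : ℚ) else 0) - (if (s i).2 then 1 else 0)) • v s := by
    intro i
    obtain ⟨a, b⟩ := s i
    cases a <;> cases b <;> simp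
  simp only [h2]
  rw [← Finset.sum_smul, Finset.sum_sub_distrib]
  have h3 : (na s : ℚ) = ∑ i, (if (s i).1 then (1 : ℚ) else 0) := by
    rw [na]; push_cast; rfl
  have h4 : (nb s : ℚ) = ∑ i, (if (s i).2 then (1 : ℚ) else 0) := by
    rw [nb]; push_cast; rfl
  rw [← h3, ← h4, h1, sub_self, zero_smul]

lemma IsCoord.hL {r : ℕ} {v : (Fin t → St) → AQ W₀ X₀} (hv : IsCoord r v) :
    hL (res (wt (W₀.isInternal X₀) X₀.dim) (fun _ hx => AS_wt hx)) v =
      ((2 * r : ℚ) - (t + X₀.dim)) • v := by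
  funext s
  rw [hL_apply, Pi.smul_apply]
  by_cases hs : v s = 0
  · simp [hs]
  obtain ⟨h1, h5, h6⟩ := hv s hs
  have h2 : ∀ i, ((if s i = sW then v s else 0) - (if s i = sO then v s else 0)) =
      ((if (s i).1 then (1 : ℚ) else 0) + (if (s i).2 then 1 else 0) - 1) • v s := by
    intro i
    obtain ⟨a, b⟩ := s i
    cases a <;> cases b <;> simp
  simp only [h2]
  rw [← Finset.sum_smul, Finset.sum_sub_distrib, Finset.sum_add_distrib]
  have h3 : (na s : ℚ) = ∑ i, (if (s i).1 then (1 : ℚ) else 0) := by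
    rw [na]; push_cast; rfl
  have h4 : (nb s : ℚ) = ∑ i, (if (s i).2 then (1 : ℚ) else 0) := by
    rw [nb]; push_cast; rfl
  rw [← h3, ← h4, h1]
  have h7 : res (wt (W₀.isInternal X₀) X₀.dim) (fun _ hx => AS_wt hx) (v s) =
      ((2 * (r - nb s) : ℚ) - X₀.dim) • v s := by
    apply Subtype.ext
    rw [res_coe, Fr.wt_gr (alg_gr h6), AQ.coe_smul]
    congr 1
    push_cast [Nat.cast_sub h5]
    ring
  rw [h7, ← add_smul]
  congr 1
  simp
  ring

namespace TorDeg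

variable (T : TorDeg W X D W₀ X₀ D₀ t)

include T

lemma exists_coord {r : ℕ} {z : X.Cycles} (hz : X.IsCyc r z) :
    ∃ v : (Fin t → St) → AQ W₀ X₀, IsCoord r v ∧ T.Phi v = W.cl X z := by
  have h := T.cl_mem r z hz
  generalize W.cl X z = x at h
  induction h using AddSubgroup.closure_induction with
  | mem x hx =>
    obtain ⟨I, J, p, c, hIJ, hp, hc, rfl⟩ := hx
    refine ⟨Pi.single (stOf I J) ⟨W₀.cl X₀ c, AS.of ⟨c, hc, rfl⟩⟩, ?_, ?_⟩
    · intro s hs
      by_cases h1 : s = stOf I J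
      · subst h1
        rw [nb_stOf, na_stOf, Pi.single_eq_same]
        refine ⟨hIJ, by omega, c, ?_, rfl⟩
        rwa [show r - J.card = p by omega]
      · exact absurd (Pi.single_eq_of_ne h1 _) hs
    · rw [T.Phi_single, mon_eq]
      rfl
  | zero => exact ⟨0, fun s hs => absurd rfl hs, T.Phi_zero⟩
  | add x y _ _ hx hy =>
    obtain ⟨v, hv, rfl⟩ := hx
    obtain ⟨w, hw, rfl⟩ := hy
    exact ⟨v + w, hv.add hw, T.Phi_add v w⟩
  | neg x _ hx =>
    obtain ⟨v, hv, rfl⟩ := hx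
    exact ⟨-v, hv.neg, T.Phi_neg v⟩

lemma L_pow_Phi (hD₀ : X₀.IsCyc 1 D₀) (n : ℕ) (v : (Fin t → St) → AQ W₀ X₀) :
    ((LinearMap.mulLeft W.K (W.cl X D)) ^ n) (T.Phi v) =
      T.Phi (((eL T.d (res (LinearMap.mulLeft W₀.K (W₀.cl X₀ D₀)) (T.res_L₀ hD₀))) ^ n) v) := by
  induction n with
  | zero => rfl
  | succ n ih =>
    rw [pow_succ', pow_succ', Module.End.mul_apply, Module.End.mul_apply, ih,
      LinearMap.mulLeft_apply, T.L_Phi hD₀]

/-- **The standard conjecture of Hodge type.** -/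
theorem hodgeType (hD : X.IsCyc 1 D) (hD₀ : X₀.IsCyc 1 D₀) (hL₀ : HardLefschetz W₀ X₀ D₀)
    (hB₀ : LefschetzB W₀ X₀ D₀) (hH₀ : HodgeType W₀ X₀ D₀) : HodgeType W X D := by
  obtain ⟨f₀, F, -⟩ := exists_fr hD₀ hL₀ hB₀
  have := FrA.finite F hL₀ hH₀
  intro r hr z hz hprim hz0
  obtain ⟨v, hv, hvz⟩ := T.exists_coord hz
  set e₀ := res (LinearMap.mulLeft W₀.K (W₀.cl X₀ D₀)) (T.res_L₀ hD₀) with he₀
  have hf₀ : ∀ x, AS W₀ X₀ x → AS W₀ X₀ (f₀ x) := fun x hx => F.aop.apply hx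
  set g₀ := res f₀ hf₀ with hg₀
  have t₀ : Sl2 (res (wt (W₀.isInternal X₀) X₀.dim) (fun _ hx => AS_wt hx)) e₀ g₀ :=
    res_sl2 _ _ _ F.sl2
  have tt := sl2_eL (I := Fin t) (fun i => (T.d_pos i).ne') t₀
  have hv0 : v ≠ 0 := by
    rintro rfl
    exact hz0 (by rw [← hvz, T.Phi_zero])
  have h1 : eN v = 0 := T.Phi_inj F hH₀ (by rw [← T.N_Phi, hvz, T.N_cl r z hz])
  set n := X.dim - 2 * r with hn
  have hwt : hL (res (wt (W₀.isInternal X₀) X₀.dim) (fun _ hx => AS_wt hx)) v =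
      -(n : ℚ) • v := by
    rw [hv.hL]
    congr 1
    rw [hn, Nat.cast_sub hr, T.dim_eq]
    push_cast
    ring
  have h2 : ((eL T.d e₀) ^ (n + 1)) v = 0 := by
    apply T.Phi_inj F hH₀
    rw [← T.L_pow_Phi hD₀, hvz, ← cl_divPow]
    exact hprim
  have h3 : fL T.d g₀ v = 0 := tt.f_eq_zero hwt h2
  have h4 := wey_lowest (K := ℚ) tt h3 hwt
  rw [wey_rat] at h4
  have h5 := pos_core T.d_pos t₀ psi psi_smul (fun s => (kap s : ℚ)) (r := r) h1 hv.hN hv0
    psi_zero (fun s hs => by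
      rw [kap, sgL_bal (hv s hs).1, Int.cast_one]) (fun s hs => by
      obtain ⟨-, hs1, hs2⟩ := hv s hs
      have hs' : (v s : W₀.H X₀) ≠ 0 := fun h0 => hs (Subtype.ext h0)
      obtain ⟨q, hq, hq'⟩ := FrA.pos F hH₀ hs2 hs'
      have e1 : psi (v s) (weyl e₀ g₀ (v s)) = (-1) ^ (r - nb s) * q := by
        apply Rat.cast_injective (α := W₀.K)
        rw [← psi_spec, ← hq', he₀, hg₀, res_weyl _ _ F.sl2.nil_e F.sl2.nil_f]
      rw [e1, ← mul_assoc, ← pow_add, show r + nb s + (r - nb s) = 2 * r by omega, pow_mul]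
      simpa using hq)
  have h6 := T.tr_Phi v (weyl (eL T.d e₀) (fL T.d g₀) v)
  rw [h4, T.Phi_smul, ← T.L_pow_Phi hD₀, hvz, mul_smul_comm, map_smul, ← cl_divPow, ← W.cl_mul,
    W.tr_cl] at h6
  · have h7 : (((n.factorial : ℚ)⁻¹ * X.V.degCycle (ops.mul z (divPow ops D n z)) : ℚ) : W.K) =
        ((T.vol * ∑ s, (kap s : ℚ) * psi (v s) (((n.factorial : ℚ)⁻¹ •
          ((eL T.d e₀) ^ n) v) (cpl s)) : ℚ) : W.K) := by
      rw [← h6, smul_eq_mul, Rat.cast_mul]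
    have h8 := Rat.cast_injective h7
    rw [h4] at h5
    have h9 : (0 : ℚ) < n.factorial := by positivity
    have h10 : (-1 : ℚ) ^ r * X.V.degCycle (ops.mul z (divPow ops D n z)) =
        n.factorial * (T.vol * ((-1) ^ r * ∑ s, (kap s : ℚ) * psi (v s)
          (((n.factorial : ℚ)⁻¹ • ((eL T.d e₀) ^ n) v) (cpl s)))) := by
      have e1 : X.V.degCycle (ops.mul z (divPow ops D n z)) =
          n.factorial * ((n.factorial : ℚ)⁻¹ *
            X.V.degCycle (ops.mul z (divPow ops D n z))) := by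
        field_simp
      rw [e1, h8]
      ring
    rw [h10]
    exact mul_pos h9 (mul_pos T.vol_pos h5)
  · have := ops.mul_mem hz (divPow_mem (ops := ops) hD n hz)
    rwa [show r + (r + n) = X.dim by omega] at this

end TorDeg

end Pool.Agent.K9h28
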