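import Pool.Agent.H914R2.DDefs
import Pool.Agent.H914R2.KDefs
import Pool.Agent.R908.AbDefs

/-!
# Toric degenerations of a variety: definitions
-/

set_option autoImplicit false

open CategoryTheory AlgebraicGeometry

universe u u' v v'

namespace Pool.Agent.K9h28

section Alg

/-- The monomial `∏ i, e_i ^ (a_i) * f_i ^ (b_i)`, where `a_i = 1` if `i ∈ I` and `a_i = 0`
otherwise, and `b_i = 1` if `i ∈ J` and `b_i = 0` otherwise (product in the order of the
indices `i`). -/
def mon {R : Type*} [Monoid R] {t : ℕ} (e f : Fin t → R) (I J : Finset (Fin t)) : R :=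
  ((List.finRange t).map fun i => (if i ∈ I then e i else 1) * (if i ∈ J then f i else 1)).prod

variable {K₀ R₀ K R : Type*} [Field K₀] [Ring R₀] [Algebra K₀ R₀] [Field K] [Ring R] [Algebra K R]
  {t : ℕ}

/-- The data of a toric degeneration on the level of the cohomology algebras `R₀` (of the part of
good reduction) and `R` (of the generic fibre). -/
structure TorData (K₀ R₀ K R : Type*) [Field K₀] [Ring R₀] [Field K] [Ring R] [Algebra K R]
    (t : ℕ) where
  /-- the homomorphism of the coefficient fields -/
  σ : K₀ →+* K
  /-- the homomorphism of the cohomology algebras -/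
  ι : R₀ →+* R
  /-- classes of degree one and weight zero -/
  e : Fin t → R
  /-- classes of degree one and weight two -/
  f : Fin t → R
  /-- the monodromy operator -/
  N : R →ₗ[K] R
  /-- the squares of length for the polarization -/
  d : Fin t → ℚ
  /-- the volume -/
  vol : ℚ

/-- The homomorphism `ι` is semilinear and preserves the degrees, and `e_i`, `f_i` have the
degree one. -/
structure TorData.IsGraded (T : TorData K₀ R₀ K R t) (gr₀ : ℕ → Submodule K₀ R₀)
    (gr : ℕ → Submodule K R) : Prop where
  ι_smul : ∀ (a : K₀) (x : R₀), T.ι (a • x) = T.σ a • T.ι x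
  ι_mem : ∀ i, ∀ x ∈ gr₀ i, T.ι x ∈ gr i
  e_mem : ∀ i, T.e i ∈ gr 1
  f_mem : ∀ i, T.f i ∈ gr 1

/-- The operator `N` is a derivation with `N e_i = 0`, `N f_i = e_i` and `N = 0` on the image of
`ι`. -/
structure TorData.IsMonodromy (T : TorData K₀ R₀ K R t) : Prop where
  N_mul : ∀ x y, T.N (x * y) = T.N x * y + x * T.N y
  N_e : ∀ i, T.N (T.e i) = 0
  N_f : ∀ i, T.N (T.f i) = T.e i
  N_ι : ∀ x, T.N (T.ι x) = 0

/-- The orientation of `R` is determined by the orientation of `R₀`:
`tr (∏ i, e_i f_i · ι(x)) = vol · σ(tr₀ x)` with a positive rational number `vol`. -/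
structure TorData.IsOriented (T : TorData K₀ R₀ K R t) (tr₀ : R₀ →ₗ[K₀] K₀)
    (tr : R →ₗ[K] K) : Prop where
  vol_pos : 0 < T.vol
  tr_top : ∀ x, tr (mon T.e T.f Finset.univ Finset.univ * T.ι x) = (T.vol : K) * T.σ (tr₀ x)

/-- The class of the polarization is `∑ i, d_i e_i f_i + ι(ξ₀)` with positive rational numbers
`d_i`. -/
structure TorData.IsPolarized (T : TorData K₀ R₀ K R t) (ξ₀ : R₀) (ξ : R) : Prop where
  d_pos : ∀ i, 0 < T.d i
  eq : ξ = ∑ i, (T.d i : K) • (T.e i * T.f i) + T.ι ξ₀

/-- The specialization of algebraic classes: the classes in `C r` (the algebraic classes of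
codimension `r` on the generic fibre) are invariant under the monodromy, and they are sums of
products `e_I f_J ι(c)`, where `I` and `J` are sets with the same number `j` of elements and
`c ∈ C₀ (r - j)`. -/
structure TorData.Specializes (T : TorData K₀ R₀ K R t) (C₀ : ℕ → Set R₀) (C : ℕ → Set R) :
    Prop where
  invariant : ∀ r, ∀ z ∈ C r, T.N z = 0
  mem : ∀ r, ∀ z ∈ C r, z ∈ AddSubgroup.closure {x | ∃ (I J : Finset (Fin t)) (p : ℕ),
    I.card = J.card ∧ p + I.card = r ∧ ∃ c ∈ C₀ p, x = mon T.e T.f I J * T.ι c}

end Alg

open Pool.Agent.H914 Pool.Agent.H914.VarClass Pool.Agent.H914.VarClass.Obj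
  Pool.Agent.H914.WeilCohomology

variable {k : Type u} [Field k] {𝒱 : VarClass k} {ops : CycleOps 𝒱}
  {k₀ : Type u'} [Field k₀] {𝒱₀ : VarClass k₀} {ops₀ : CycleOps 𝒱₀}

/-- The structure on the cohomology of the variety `X` with the divisor `D` given by a degeneration
of toric rank `t` with the variety `X₀` and the divisor `D₀` over the residue field as its part of
good reduction. In the main example `X = A × Z`, where `A` is an abelian variety with split
semistable reduction at a discrete valuation, `Z` a variety with good reduction, and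
`X₀ = B₀ × Z₀`, `B₀` the abelian part of the reduction of `A` and `Z₀` the reduction of `Z`. Then
`e_i` is a basis of the space of the weight `0`, `f_i` a basis of the space of the weight `2` of
`H^1(A)`, with `N f_i = e_i` for the monodromy operator `N` (in suitable bases of the character
groups tensored with `ℚ`, which are orthogonal for the positive definite form given by the
polarization and the monodromy pairing, and have the squares of length `d_i`), and `ι` is given by
the identification of the space of the weight `1` of `H^1(A)` with `H^1(B₀)`. -/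
structure ToricDegeneration (W : WeilCohomology.{u, v} ops) (X : 𝒱.Obj) (D : X.Cycles)
    (W₀ : WeilCohomology.{u', v'} ops₀) (X₀ : 𝒱₀.Obj) (D₀ : X₀.Cycles) (t : ℕ)
    (T : TorData W₀.K (W₀.H X₀) W.K (W.H X) t) : Prop where
  dim_eq : X.dim = t + X₀.dim
  graded : T.IsGraded (W₀.gr X₀) (W.gr X)
  monodromy : T.IsMonodromy
  oriented : T.IsOriented (W₀.tr X₀) (W.tr X)
  polarized : T.IsPolarized (W₀.cl X₀ D₀) (W.cl X D)
  specializes : T.Specializes (algClasses W₀ X₀) (algClasses W X)

/-- Either hard Lefschetz and the conjecture B hold for `X` and the divisor `D`, or the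
cohomology of `X` behaves like that of an abelian variety (with the addition `m`) and the
self-intersection number `D ^ dim X` is not zero. (In the second case hard Lefschetz and the
conjecture B are proved in the file `Lieb`; this is a theorem of Lieberman.) -/
def IsLefschetz (W : WeilCohomology.{u, v} ops) (X : 𝒱.Obj) (D : X.Cycles) : Prop :=
  (HardLefschetz W X D ∧ LefschetzB W X D) ∨
    ∃ m : X.prod X ⟶ X, R908.IsAbelianLike W X m ∧
      X.V.degCycle (divPow ops D X.dim X.V.fundCycle) ≠ 0

end Pool.Agent.K9h28
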