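import Pool.Agent.K9h28.UniDefs
import Pool.Agent.K9h28.MinA
import Pool.Agent.R908.KoC

/-!
# Independence of the homological equivalence of the cohomology theory: the transfer
-/

set_option autoImplicit false

open CategoryTheory AlgebraicGeometry

universe u u' v v' w w'

namespace Pool.Agent.K9h28.Uni

open Pool.Agent.H914 Pool.Agent.H914.VarClass Pool.Agent.H914.VarClass.Obj
  Pool.Agent.H914.WeilCohomology Pool.Agent.H281R3.HT Pool.Agent.R908

section Joint

variable {k : Type u} [Field k] {𝒱 : VarClass k} {ops : CycleOps 𝒱}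
  {W : WeilCohomology.{u, v} ops} {W' : WeilCohomology.{u, w} ops} {X Y : 𝒱.Obj}

/-- The classes of the same sum of cycles in two cohomology theories. -/
def Joint (W' : WeilCohomology.{u, w} ops) (W : WeilCohomology.{u, v} ops) (X : 𝒱.Obj)
    (a' : W'.H X) (a : W.H X) : Prop :=
  ∃ (N : ℕ) (z : ℕ → X.Cycles), (∀ j, X.IsCyc j (z j)) ∧
    a' = ∑ j ∈ Finset.range N, W'.cl X (z j) ∧ a = ∑ j ∈ Finset.range N, W.cl X (z j)

lemma exists_joint {a' : W'.H X} (h : AQs W' X a') : ∃ a, Joint W' W X a' a := by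
  obtain ⟨N, f, hf, rfl⟩ := h
  choose z hz hcl using hf
  exact ⟨_, N, z, hz, Finset.sum_congr rfl fun j _ => (hcl j).symm, rfl⟩

lemma Joint.of {j : ℕ} {z : X.Cycles} (hz : X.IsCyc j z) :
    Joint W' W X (W'.cl X z) (W.cl X z) := by
  classical
  refine ⟨j + 1, fun i => if i = j then z else 0, fun i => ?_, ?_, ?_⟩
  · beta_reduce
    split_ifs with h
    · rw [h]; exact hz
    · exact SmVar.IsCyc.zero _ _
  · rw [Finset.sum_eq_single j]
    · beta_reduce
      rw [if_pos rfl]
    · intro i _ hi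
      beta_reduce
      rw [if_neg hi, map_zero]
    · intro h
      exact absurd (Finset.mem_range.2 (Nat.lt_succ_self j)) h
  · rw [Finset.sum_eq_single j]
    · beta_reduce
      rw [if_pos rfl]
    · intro i _ hi
      beta_reduce
      rw [if_neg hi, map_zero]
    · intro h
      exact absurd (Finset.mem_range.2 (Nat.lt_succ_self j)) h

lemma Joint.zero : Joint W' W X 0 0 :=
  ⟨0, fun _ => 0, fun _ => SmVar.IsCyc.zero _ _, rfl, rfl⟩

lemma Joint.large {a' : W'.H X} {a : W.H X} (h : Joint W' W X a' a) :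
    ∃ (N : ℕ) (z : ℕ → X.Cycles), (∀ j, X.IsCyc j (z j)) ∧ ∀ M, N ≤ M →
      a' = ∑ j ∈ Finset.range M, W'.cl X (z j) ∧ a = ∑ j ∈ Finset.range M, W.cl X (z j) := by
  classical
  obtain ⟨N, z, hz, rfl, rfl⟩ := h
  refine ⟨N, fun j => if j < N then z j else 0, fun j => ?_, fun M hM => ⟨?_, ?_⟩⟩
  · beta_reduce
    split_ifs
    · exact hz j
    · exact SmVar.IsCyc.zero _ _
  · simp only [apply_ite (W'.cl X), map_zero]
    rw [Finset.sum_ite, Finset.sum_const_zero, add_zero]
    refine Finset.sum_congr ?_ fun _ _ => rfl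
    ext j
    simp only [Finset.mem_filter, Finset.mem_range]
    omega
  · simp only [apply_ite (W.cl X), map_zero]
    rw [Finset.sum_ite, Finset.sum_const_zero, add_zero]
    refine Finset.sum_congr ?_ fun _ _ => rfl
    ext j
    simp only [Finset.mem_filter, Finset.mem_range]
    omega

lemma Joint.add {a' b' : W'.H X} {a b : W.H X} (ha : Joint W' W X a' a)
    (hb : Joint W' W X b' b) : Joint W' W X (a' + b') (a + b) := by
  obtain ⟨N, z, hz, h1⟩ := ha.large
  obtain ⟨M, y, hy, h2⟩ := hb.large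
  refine ⟨max N M, fun j => z j + y j, fun j => (hz j).add (hy j), ?_, ?_⟩
  · simp only [map_add]
    rw [Finset.sum_add_distrib, ← (h1 _ (le_max_left _ _)).1, ← (h2 _ (le_max_right _ _)).1]
  · simp only [map_add]
    rw [Finset.sum_add_distrib, ← (h1 _ (le_max_left _ _)).2, ← (h2 _ (le_max_right _ _)).2]

lemma Joint.sum {ι : Type*} (s : Finset ι) {f' : ι → W'.H X} {f : ι → W.H X}
    (h : ∀ i ∈ s, Joint W' W X (f' i) (f i)) : Joint W' W X (∑ i ∈ s, f' i) (∑ i ∈ s, f i) := by
  classical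
  induction s using Finset.induction_on with
  | empty => rw [Finset.sum_empty, Finset.sum_empty]; exact Joint.zero
  | insert a s ha ih =>
    rw [Finset.sum_insert ha, Finset.sum_insert ha]
    exact (h a (Finset.mem_insert_self _ _)).add
      (ih fun i hi => h i (Finset.mem_insert_of_mem hi))

lemma Joint.smul (q : ℚ) {a' : W'.H X} {a : W.H X} (h : Joint W' W X a' a) :
    Joint W' W X ((q : W'.K) • a') ((q : W.K) • a) := by
  obtain ⟨N, z, hz, rfl, rfl⟩ := h
  refine ⟨N, fun j => q • z j, fun j => (hz j).smul q, ?_, ?_⟩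
  · rw [Finset.smul_sum]
    exact Finset.sum_congr rfl fun j _ => (W'.cl_smul q (z j)).symm
  · rw [Finset.smul_sum]
    exact Finset.sum_congr rfl fun j _ => (W.cl_smul q (z j)).symm

lemma Joint.zsmul (n : ℤ) {a' : W'.H X} {a : W.H X} (h : Joint W' W X a' a) :
    Joint W' W X (n • a') (n • a) := by
  have h1 := h.smul n
  push_cast at h1
  rw [Int.cast_smul_eq_zsmul W'.K, Int.cast_smul_eq_zsmul W.K] at h1
  exact h1

lemma Joint.map (g : X ⟶ Y) {a' : W'.H Y} {a : W.H Y} (h : Joint W' W Y a' a) :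
    Joint W' W X (W'.map g a') (W.map g a) := by
  obtain ⟨N, z, hz, rfl, rfl⟩ := h
  refine ⟨N, fun j => ops.pull g (z j), fun j => ops.pull_mem g (hz j), ?_, ?_⟩
  · rw [map_sum]
    exact Finset.sum_congr rfl fun j _ => (W'.cl_pull g (z j)).symm
  · rw [map_sum]
    exact Finset.sum_congr rfl fun j _ => (W.cl_pull g (z j)).symm

lemma Joint.push (g : X ⟶ Y) {a' : W'.H X} {a : W.H X} (h : Joint W' W X a' a) :
    Joint W' W Y (W'.push g a') (W.push g a) := by
  obtain ⟨N, z, hz, rfl, rfl⟩ := h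
  rw [map_sum, map_sum]
  refine Joint.sum _ fun j _ => ?_
  by_cases hd : X.dim ≤ j + Y.dim
  · rw [← W'.cl_push, ← W.cl_push]
    exact Joint.of (ops.push_mem g (hz j) (q := j + Y.dim - X.dim) (by omega))
  · rw [alg_push_zero (W := W') ⟨z j, hz j, rfl⟩ (by omega),
      alg_push_zero (W := W) ⟨z j, hz j, rfl⟩ (by omega)]
    exact Joint.zero

/-- If `D` holds for the second theory and the first class is zero, then the second is zero. -/
lemma Joint.eq_zero (hD : HomEqNum W X) {a : W.H X} (h : Joint W' W X 0 a) : a = 0 := by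
  classical
  obtain ⟨N, z, hz, h0, rfl⟩ := h
  have h1 : ∀ j ∈ Finset.range N, W'.cl X (z j) = 0 := by
    have hind := (W'.isInternal X).submodule_iSupIndep
    have hinj : Function.Injective fun j : ℕ => 2 * j := fun a b h => by
      have : 2 * a = 2 * b := h
      omega
    have hind' := hind.comp hinj
    exact (iSupIndep_iff_finsetSum_eq_zero_imp_eq_zero _).1 hind' (Finset.range N)
      (fun j => W'.cl X (z j)) (fun j _ => W'.cl_mem (hz j)) h0.symm
  refine Finset.sum_eq_zero fun j hj => ?_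
  by_cases hjd : j ≤ X.dim
  · refine hD j hjd (z j) (hz j) fun y hy => ?_
    have h5 : ((X.V.degCycle (ops.mul (z j) y) : ℚ) : W'.K) = 0 := by
      have h6 := ops.mul_mem (hz j) hy
      rw [show j + (X.dim - j) = X.dim by omega] at h6
      rw [← W'.tr_cl h6, W'.cl_mul, h1 j hj, zero_mul, map_zero]
    exact_mod_cast h5
  · have h6 := W.cl_mem (hz j)
    rw [W.gr_eq_bot X _ (by omega), Submodule.mem_bot] at h6
    exact h6

end Joint

section Strata

variable {k₀ : Type u'} [Field k₀] {𝒱₀ : VarClass k₀} {ops₀ : CycleOps 𝒱₀}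
  {W₀ : WeilCohomology.{u', v'} ops₀} {W₀' : WeilCohomology.{u', w'} ops₀} {T : Strata 𝒱₀}

lemma Joint.res {s t : T.S} {x' : W₀'.H (T.Y t)} {x : W₀.H (T.Y t)} (h : Joint W₀' W₀ _ x' x) :
    Joint W₀' W₀ _ (T.res W₀' s t x') (T.res W₀ s t x) := by
  unfold Strata.res
  split_ifs with h1
  · exact (h.map _).zsmul _
  · exact Joint.zero

lemma Joint.gys {s t : T.S} {x' : W₀'.H (T.Y s)} {x : W₀.H (T.Y s)} (h : Joint W₀' W₀ _ x' x) :
    Joint W₀' W₀ _ (T.gys W₀' s t x') (T.gys W₀ s t x) := by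
  unfold Strata.gys
  split_ifs with h1
  · exact (h.push _).zsmul _
  · exact Joint.zero

lemma Joint.eq (hD : ∀ X : 𝒱₀.Obj, ∀ a : W₀.H X, HomEqNum W₀ X → Joint W₀' W₀ X 0 a → a = 0)
    {X : 𝒱₀.Obj} (hX : HomEqNum W₀ X) {x' : W₀'.H X} {x y : W₀.H X} (h : Joint W₀' W₀ X x' x)
    (h' : Joint W₀' W₀ X x' y) : x = y := by
  have h1 := h.add (h'.smul (-1))
  have h2 : x' + ((-1 : ℚ) : W₀'.K) • x' = 0 := by
    push_cast
    rw [neg_one_smul, add_neg_cancel]
  have h3 : x + ((-1 : ℚ) : W₀.K) • y = x - y := by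
    push_cast
    rw [neg_one_smul, sub_eq_add_neg]
  rw [h2, h3] at h1
  exact sub_eq_zero.1 (hD X _ hX h1)

/-- **A family of cycles on the strata that is a coboundary in one theory is a coboundary in the
other**, if the conjecture D is true for the strata in both theories. -/
theorem coboundary_transfer (hD' : ∀ s, HomEqNum W₀' (T.Y s)) (hD : ∀ s, HomEqNum W₀ (T.Y s))
    {r : ℕ} {z : ∀ s, (T.Y s).Cycles} (hz : ∀ s, T.rk s = 0 → (T.Y s).IsCyc r (z s))
    (h : T.IsCoboundary W₀' fun s => W₀'.cl (T.Y s) (z s)) :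
    T.IsCoboundary W₀ fun s => W₀.cl (T.Y s) (z s) := by
  classical
  obtain ⟨φ, hφ⟩ := Module.Projective.exists_dual_eq_one ℚ (one_ne_zero (α := W₀'.K))
  obtain ⟨y, hy0, hy⟩ := h
  choose a' ha' using fun s k => exists_isPhi (φ := φ) (hD' s) (y s k)
  have ha0 : ∀ s k, T.rk s < k → a' s k = 0 := by
    intro s k hk
    have h3 := ha' s k
    rw [hy0 s k hk] at h3
    exact h3.unique (hD' s) IsPhi.zero
  have ha : ∀ s k, k ≤ T.rk s → (if k = 0 then 0 else sumC W₀' fun u => T.res W₀' s u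
      (a' u (k - 1))) + (sumC W₀' fun u => T.gys W₀' u s (a' u k)) =
        if T.rk s = 0 then W₀'.cl (T.Y s) (z s) else 0 := by
    intro s k hk
    have h3 := hy s k hk
    have h4 : IsPhi φ (T.Y s) ((if k = 0 then 0 else sumC W₀' fun u => T.res W₀' s u
        (y u (k - 1))) + (sumC W₀' fun u => T.gys W₀' u s (y u k)))
        ((if k = 0 then 0 else sumC W₀' fun u => T.res W₀' s u (a' u (k - 1))) +
          (sumC W₀' fun u => T.gys W₀' u s (a' u k))) := by
      refine IsPhi.add ?_ ?_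
      · split_ifs
        · exact IsPhi.zero
        · exact IsPhi.sum _ fun u _ => isPhi_res (ha' u (k - 1))
      · exact IsPhi.sum _ fun u _ => isPhi_gys (ha' u k)
    rw [h3] at h4
    refine h4.unique (hD' s) ?_
    split_ifs with hrk
    · have h5 := IsPhi.smul_alg (φ := φ) ⟨z s, hz s hrk, rfl⟩ (1 : W₀'.K)
      rw [hφ, Rat.cast_one, one_smul] at h5
      exact h5
    · exact IsPhi.zero
  choose a hja using fun s k => exists_joint (W := W₀) (ha' s k).1
  refine ⟨a, fun s k hk => ?_, fun s k hk => ?_⟩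
  · have h1 := hja s k
    rw [ha0 s k hk] at h1
    exact h1.eq_zero (hD s)
  · have h1 : Joint W₀' W₀ (T.Y s) ((if k = 0 then 0 else sumC W₀' fun u => T.res W₀' s u
        (a' u (k - 1))) + (sumC W₀' fun u => T.gys W₀' u s (a' u k)))
        ((if k = 0 then 0 else sumC W₀ fun u => T.res W₀ s u (a u (k - 1))) +
          (sumC W₀ fun u => T.gys W₀ u s (a u k))) := by
      refine Joint.add ?_ ?_
      · split_ifs
        · exact Joint.zero
        · exact Joint.sum _ fun u _ => (hja u (k - 1)).res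
      · exact Joint.sum _ fun u _ => (hja u k).gys
    rw [ha s k hk] at h1
    refine Joint.eq (fun X a hX h => h.eq_zero hX) (hD s) h1 ?_
    split_ifs with hrk
    · exact Joint.of (hz s hrk)
    · exact Joint.zero

end Strata

section Spec

variable {k : Type u} [Field k] {𝒱 : VarClass k} {ops : CycleOps 𝒱}
  {W : WeilCohomology.{u, v} ops} {W' : WeilCohomology.{u, w} ops}
  {k₀ : Type u'} [Field k₀] {𝒱₀ : VarClass k₀} {ops₀ : CycleOps 𝒱₀}
  {W₀ : WeilCohomology.{u', v'} ops₀} {W₀' : WeilCohomology.{u', w'} ops₀}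
  {σ : W.K →+* W₀.K} {σ' : W'.K →+* W₀'.K} {X : 𝒱.Obj}

lemma cl_zero_iff {T : Strata 𝒱₀} {sp : ∀ s, X.Cycles → (T.Y s).Cycles}
    (h : Min.SpecializesTo W X W₀ σ T sp) {j : ℕ} {z : X.Cycles} (hz : X.IsCyc j z) :
    W.cl X z = 0 ↔ T.IsCoboundary W₀ fun s => W₀.cl (T.Y s) (sp s z) := by
  have h1 := h.exact j 1 (fun _ => z) (fun _ => 1) (fun _ => hz)
  have e1 : Min.lin (fun _ : Fin 1 => (1 : W.K)) (fun _ => W.cl X z) = W.cl X z := by
    unfold Min.lin
    rw [Fin.sum_univ_one, one_smul]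
  have e2 : (fun s => Min.lin (fun _ : Fin 1 => σ 1) (fun _ => W₀.cl (T.Y s) (sp s z))) =
      fun s => W₀.cl (T.Y s) (sp s z) := by
    funext s
    unfold Min.lin
    rw [Fin.sum_univ_one, map_one, one_smul]
  rw [e1, e2] at h1
  exact h1

/-- **Independence of the homological equivalence of the theory.** -/
theorem ReducesToD.cl_zero (h : ReducesToD W W' W₀ W₀' σ σ' X) {j : ℕ} {z : X.Cycles}
    (hz : X.IsCyc j z) : W.cl X z = 0 ↔ W'.cl X z = 0 := by
  obtain ⟨T, sp, h1, h2, h3⟩ := h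
  rw [cl_zero_iff h1 hz, cl_zero_iff h2 hz]
  exact ⟨coboundary_transfer (fun s => (h3 s).1) (fun s => (h3 s).2) (h1.mem j z hz),
    coboundary_transfer (fun s => (h3 s).2) (fun s => (h3 s).1) (h1.mem j z hz)⟩

theorem ReducesToD.injectivity (h : ReducesToD W W' W₀ W₀' σ σ' X) :
    Pool.Agent.R908.InjectivityConj W X := by
  obtain ⟨T, sp, h1, -, h3⟩ := h
  exact injectivity_of_specializesTo h1.translate fun s => (h3 s).1

end Spec

end Pool.Agent.K9h28.Uni
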