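import Pool.Agent.K9h28.UniA

/-!
# Independence of the homological equivalence of the cohomology theory: abelian varieties
-/

set_option autoImplicit false

open CategoryTheory AlgebraicGeometry

universe u u' v v' w w'

namespace Pool.Agent.K9h28.Uni

open Pool.Agent.H914 Pool.Agent.H914.VarClass Pool.Agent.H914.VarClass.Obj
  Pool.Agent.H914.WeilCohomology Pool.Agent.H281R3.HT Pool.Agent.R908

variable {k : Type u} [Field k] {𝒱 : VarClass k} {ops : CycleOps 𝒱}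
  {W : WeilCohomology.{u, v} ops} {W' : WeilCohomology.{u, w} ops}

lemma exists_corr_ne {A : 𝒱.Obj} {d : ℤ} {θ : W.H A →ₗ[W.K] W.H A} (hθ : θ ∈ KOp W A A d)
    {x y : W.H A} (h : W.tr A (x * θ y) ≠ 0) :
    ∃ ψ ∈ ⋃ p, correspondences W A p, W.tr A (x * ψ y) ≠ 0 := by
  by_contra hcon
  push Not at hcon
  apply h
  refine Submodule.span_induction (p := fun θ _ => W.tr A (x * θ y) = 0) ?_ ?_ ?_ ?_ hθ
  · rintro _ ⟨p, -, z, hz, rfl⟩
    exact hcon _ (Set.mem_iUnion.2 ⟨p, z, hz, rfl⟩)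
  · rw [LinearMap.zero_apply, mul_zero, map_zero]
  · intro θ ψ _ _ h1 h2
    rw [LinearMap.add_apply, mul_add, map_add, h1, h2, add_zero]
  · intro c θ _ h1
    rw [LinearMap.smul_apply, mul_smul_comm, map_smul, h1, smul_zero]

/-- The translation of the properties of abelian varieties. -/
theorem IsAnisotropic.translate {𝒢 : Set (Min.Sym W)} {A : 𝒱.Obj} (h : IsAnisotropic W 𝒢 A) :
    (∃ m D, IsAbelianType (Min.Sym.toSymmetry '' 𝒢) A m D) ∧
      AnisotropicOne (Min.Sym.toSymmetry '' 𝒢) A := by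
  obtain ⟨m, _, ⟨D, hD, rfl⟩, h⟩ := h
  refine ⟨⟨m, D, ⟨h.add, h.gen⟩, hD, h.lefschetz, ?_⟩, ?_⟩
  · rintro _ ⟨S, hS, rfl⟩
    exact h.scaled _ ⟨S, hS, rfl⟩
  · intro U hU hU0 hst
    obtain ⟨x, hx, y, hy, hxy⟩ := h.anisotropic U hU hU0 (by
      rintro φ (⟨e, he, rfl⟩ | ⟨s, ⟨S, hS, rfl⟩, rfl⟩) v hv
      · obtain ⟨z, hz, rfl⟩ := Min.mem_cycOps.1 he
        exact hst _ (Or.inl ⟨z, hz, rfl⟩) v hv
      · exact hst _ (Or.inr ⟨_, ⟨S, hS, rfl⟩, rfl⟩) v hv)
    have h1 : W.tr A (x * lefP W A D (A.dim - 1) y) ≠ 0 := by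
      rw [lefP_eq]
      exact hxy
    obtain ⟨ψ, hψ, h2⟩ := exists_corr_ne (lefP_mem hD (A.dim - 1)) h1
    exact ⟨ψ, hψ, x, hx, y, hy, h2⟩

/-- The correspondence given by a cycle maps numerically trivial cycles to numerically trivial
cycles. -/
theorem homEqNum_of_embedsIn {R : Set 𝒱.Obj} (hR : ∀ Z ∈ R, HomEqNum W Z) {V : 𝒱.Obj}
    (hV : EmbedsIn W R V) : HomEqNum W V := by
  intro j hj z hz hnum
  apply hV
  rintro Z hZ p _ ⟨c, hc, rfl⟩
  change W.push (snd V Z) (W.cl _ c * W.map (fst V Z) (W.cl V z)) = 0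
  -- the image is the class of a cycle
  have h1 : W.cl _ c * W.map (fst V Z) (W.cl V z) =
      W.cl (V.prod Z) (ops.mul c (ops.pull (fst V Z) z)) := by
    rw [W.cl_mul, W.cl_pull]
  have hcyc : (V.prod Z).IsCyc (p + j) (ops.mul c (ops.pull (fst V Z) z)) :=
    ops.mul_mem hc (ops.pull_mem _ hz)
  by_cases hd : (V.prod Z).dim ≤ p + j + Z.dim
  swap
  · rw [h1]
    exact alg_push_zero ⟨_, hcyc, rfl⟩ (by omega)
  obtain ⟨q, hq⟩ := Nat.exists_eq_add_of_le hd
  have hcyc' : Z.IsCyc q (ops.push (snd V Z) (ops.mul c (ops.pull (fst V Z) z))) :=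
    ops.push_mem _ hcyc (by omega)
  rw [h1, ← W.cl_push]
  by_cases hqZ : q ≤ Z.dim
  swap
  · have h2 := W.cl_mem hcyc'
    rw [W.gr_eq_bot Z _ (by omega), Submodule.mem_bot] at h2
    exact h2
  refine hR Z hZ q hqZ _ hcyc' fun w hw => ?_
  -- the transpose
  set y := ops.push (fst V Z) (ops.mul c (ops.pull (snd V Z) w)) with hy
  have hdim : (V.prod Z).dim = V.dim + Z.dim := dim_prod V Z
  have hycyc : V.IsCyc (V.dim - j) y :=
    ops.push_mem _ (ops.mul_mem hc (ops.pull_mem _ hw)) (by omega)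
  have h3 : (V.V.degCycle (ops.mul z y) : ℚ) = 0 := hnum y hycyc
  have h4 : ((Z.V.degCycle (ops.mul (ops.push (snd V Z) (ops.mul c (ops.pull (fst V Z) z))) w) : ℚ)
      : W.K) = ((V.V.degCycle (ops.mul z y) : ℚ) : W.K) := by
    have h5 := ops.mul_mem hcyc' hw
    rw [show q + (Z.dim - q) = Z.dim by omega] at h5
    have h6 := ops.mul_mem hz hycyc
    rw [show j + (V.dim - j) = V.dim by omega] at h6
    rw [← W.tr_cl h5, ← W.tr_cl h6, W.cl_mul, W.cl_mul, hy, W.cl_push, W.cl_push, W.tr_push,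
      W.cl_mul, W.cl_mul, W.cl_pull, W.cl_pull]
    have h7 : W.tr V (W.cl V z * W.push (fst V Z) (W.cl _ c * W.map (snd V Z) (W.cl Z w))) =
        W.tr V (W.push (fst V Z) (W.cl _ c * W.map (snd V Z) (W.cl Z w)) * W.cl V z) := by
      rw [W.even_comm (W.cl_mem hz)]
    rw [h7, W.tr_push]
    congr 1
    have h8 : W.map (fst V Z) (W.cl V z) ∈ W.gr (V.prod Z) (2 * j) := W.map_mem _ (W.cl_mem hz)
    rw [mul_assoc, mul_assoc, W.even_comm h8]
  rw [h3, Rat.cast_zero] at h4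
  exact_mod_cast h4

section Spec

variable {k₀ : Type u'} [Field k₀] {𝒱₀ : VarClass k₀} {ops₀ : CycleOps 𝒱₀}
  {W₀ : WeilCohomology.{u', v'} ops₀} {W₀' : WeilCohomology.{u', w'} ops₀}
  {σ : W.K →+* W₀.K} {σ' : W'.K →+* W₀'.K} {X Z : 𝒱.Obj}

/-- **The conjecture D for one theory follows from the conjecture D for another theory**, if the
variety is dominated by a variety which degenerates to strata for which it is true for both. -/
theorem homEqNum_of_aux (hD' : HomEqNum W' Z) (hXZ : Min.Dominates W X Z)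
    (hX : ReducesToD W W' W₀ W₀' σ σ' X) : HomEqNum W Z := by
  intro j hj z hz hnum
  obtain ⟨g, p, _, ⟨c, -, rfl⟩, a, ha, hpush⟩ := hXZ
  have h1 : W'.cl X (ops.pull g z) = 0 := by
    rw [W'.cl_pull, hD' j hj z hz hnum, map_zero]
  have h2 := (hX.cl_zero (ops.pull_mem g hz)).2 h1
  rw [W.cl_pull] at h2
  have h3 := W.push_mul g (W.cl X c) (W.cl Z z)
  rw [h2, mul_zero, map_zero, hpush, smul_mul_assoc, one_mul] at h3
  exact (smul_eq_zero.1 h3.symm).resolve_left ha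

theorem ReducesToD.injectivityMin (h : ReducesToD W W' W₀ W₀' σ σ' X) :
    Min.InjectivityConj W X := by
  intro p n x hx hq c hc
  choose z hz hcl using hx
  have h1 := h.injectivity p n z hz (fun q h0 => hq q (by
    rw [map_sum] at h0
    rw [Min.lin, ← h0]
    exact Finset.sum_congr rfl fun i _ => by rw [W.cl_smul, hcl]))
  rw [Fintype.linearIndependent_iff] at h1
  refine h1 c ?_
  rw [← hc, Min.lin]
  exact Finset.sum_congr rfl fun i _ => by rw [hcl]

/-- **The main theorem.** -/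
theorem main {𝒢 : Set (Min.Sym W')} {𝒴 : Set 𝒱.Obj}
    (h𝒴 : ∀ Y, IsProductOf 𝒴 Y → HomEqNum W' Y) {R : Set 𝒱.Obj}
    (hR : ∀ Z ∈ R, (HomEqNum W' Z ∨ IsProductOf ({A | IsAnisotropic W' 𝒢 A} ∪ 𝒴) Z) ∧
      ∃ X, Min.Dominates W X Z ∧ ReducesToD W W' W₀ W₀' σ σ' X)
    {V : 𝒱.Obj} (hV : EmbedsIn W R V) : HomEqNum W V := by
  refine homEqNum_of_embedsIn (fun Z hZ => ?_) hV
  obtain ⟨h1, X, h2, h3⟩ := hR Z hZ
  refine homEqNum_of_aux ?_ h2 h3
  rcases h1 with h1 | h1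
  · exact h1
  · exact homEqNum_of_anisotropicOne (𝒢 := Min.Sym.toSymmetry '' 𝒢)
      (fun A hA => (IsAnisotropic.translate hA).1) (fun A hA => (IsAnisotropic.translate hA).2)
      h𝒴 h1

end Spec

end Pool.Agent.K9h28.Uni
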