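import Pool.Agent.K9h28.MinDefs

/-!
# Independence of the homological equivalence of the cohomology theory: definitions
-/

set_option autoImplicit false

open CategoryTheory AlgebraicGeometry

universe u u' v v' w w'

namespace Pool.Agent.K9h28.Uni

open Pool.Agent.H914 Pool.Agent.H914.VarClass Pool.Agent.H914.VarClass.Obj
  Pool.Agent.H914.WeilCohomology Pool.Agent.K9h28.Min

section Alg

variable {K : Type*} [Field K] {B C : Type*} [Ring B] [Algebra K B] [Ring C] [Algebra K C]

/-- The properties of the cohomology of an abelian variety `A` of dimension `n`, with the addition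
`m : A × A → A`, the projections `p`, `q`, the class `ξ` of an ample divisor, the set `E` of operators
given by cycles of codimension `n` on `A × A`, and the set `G` of symmetries (for instance the Galois
group):
* on `H^1(A)` the pull-back by `m` is the sum of those by `p` and `q`, and `H^i(A)` is spanned by
  products of `i` elements of `H^1(A)`;
* hard Lefschetz holds for `ξ`, and the symmetries multiply `ξ` by constants;
* a nonzero subspace of `H^1(A)` which is stable under `E` and `G` is not isotropic for the form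
  `tr (x ξ ^ (n - 1) y)`. -/
structure IsAnisotropicAlgebra (gr : ℕ → Submodule K B) (n : ℕ) (tr : B →ₗ[K] K)
    (m p q : B →ₐ[K] C) (ξ : B) (E : Set (Module.End K B)) (G : Set (B ≃ₐ[K] B)) : Prop where
  add : ∀ x ∈ gr 1, m x = p x + q x
  gen : ∀ i, gr i ≤ gr 1 ^ i
  lefschetz : HardLef gr n (LinearMap.mulLeft K ξ)
  scaled : ∀ s ∈ G, ∃ c : K, c ≠ 0 ∧ s ξ = c • ξ
  anisotropic : ∀ U ≤ gr 1, U ≠ ⊥ → StableUnder (actions E G) U →
    ∃ x ∈ U, ∃ y ∈ U, tr (x * (ξ ^ (n - 1) * y)) ≠ 0

end Alg

variable {k : Type u} [Field k] {𝒱 : VarClass k} {ops : CycleOps 𝒱} (W : WeilCohomology.{u, v} ops)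

/-- The variety `A` has the known properties of an abelian variety, for some addition and some ample
divisor, and no nonzero subspace of `H^1(A)` stable under the endomorphisms and the symmetries is
isotropic. -/
def IsAnisotropic (𝒢 : Set (Sym W)) (A : 𝒱.Obj) : Prop :=
  ∃ m : A.prod A ⟶ A, ∃ ξ ∈ classes W A 1, IsAnisotropicAlgebra (W.gr A) A.dim (W.tr A) (W.map m)
    (W.map (fst A A)) (W.map (snd A A)) ξ (cycOps W A A.dim) (Values (Sym.σ · A) (· ∈ 𝒢))

/-- The cohomology of `V` embeds by correspondences in the cohomology of the varieties in `R`: a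
class on `V` is zero if it is mapped to zero by all the correspondences given by cycles on `V × Z`,
`Z ∈ R`. -/
def EmbedsIn (R : Set 𝒱.Obj) (V : 𝒱.Obj) : Prop :=
  ∀ x : W.H V, (∀ Z ∈ R, ∀ p, ∀ c ∈ classes W (V.prod Z) p,
    corrOp (W.map (fst V Z)) (W.push (snd V Z)) c x = 0) → x = 0

/-- The cycles on `X` specialize to strata for which the conjecture D is true, for two cohomology
theories at the same time. -/
def ReducesToD (W' : WeilCohomology.{u, w} ops) {k₀ : Type u'} [Field k₀] {𝒱₀ : VarClass k₀}
    {ops₀ : CycleOps 𝒱₀} (W₀ : WeilCohomology.{u', v'} ops₀) (W₀' : WeilCohomology.{u', w'} ops₀)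
    (σ : W.K →+* W₀.K) (σ' : W'.K →+* W₀'.K) (X : 𝒱.Obj) : Prop :=
  ∃ (T : Strata 𝒱₀) (sp : ∀ s, X.Cycles → (T.Y s).Cycles),
    SpecializesTo W X W₀ σ T sp ∧ SpecializesTo W' X W₀' σ' T sp ∧
      ∀ s, HomEqNum W₀ (T.Y s) ∧ HomEqNum W₀' (T.Y s)

end Pool.Agent.K9h28.Uni
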